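import Pool.Agent.Lib.lead.CXNat

namespace Pool.Agent.Lib.CX
open Function Relation

variable {α β : Type} [Enc α] [Enc β] [DecidableEq β]

def rstep (G : List (β × β)) (s : β) (W : List β) : List β := s :: (G.filter fun e => decide (e.1 ∈ W)).map Prod.snd

def rset (G : List (β × β)) (s : β) : List β := (rstep G s)^[G.length + 1] [s]

def reachB (p : List (β × β) × β × β) : Bool := decide (p.2.2 ∈ rset p.1 p.2.1)

omit [Enc β] in
theorem rstep_mono (G : List (β × β)) (s : β) {W W' : List β} (h : W ⊆ W') : rstep G s W ⊆ rstep G s W' := by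
  intro x; simp only [rstep, List.mem_cons, List.mem_map, List.mem_filter, decide_eq_true_eq]
  rintro (h1 | ⟨e, ⟨h1, h2⟩, h3⟩)
  · exact Or.inl h1
  · exact Or.inr ⟨e, ⟨h1, h h2⟩, h3⟩

omit [Enc β] in
theorem rit_mono (G : List (β × β)) (s : β) (j : ℕ) : (rstep G s)^[j] [s] ⊆ (rstep G s)^[j + 1] [s] := by
  induction j with
  | zero => simp [rstep]
  | succ j ih => rw [iterate_succ_apply', iterate_succ_apply' (n := j + 1)]; exact rstep_mono G s ih

omit [Enc β] in
theorem rit_closed (G : List (β × β)) (s : β) (j : ℕ) :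
    (∀ e ∈ G, e.1 ∈ (rstep G s)^[j] [s] → e.2 ∈ (rstep G s)^[j] [s]) ∨
      j ≤ G.countP (fun e => decide (e.1 ∈ (rstep G s)^[j] [s])) := by
  induction j with
  | zero => simp
  | succ j ih =>
    by_cases h : ∀ e ∈ G, e.1 ∈ (rstep G s)^[j + 1] [s] → e.1 ∈ (rstep G s)^[j] [s]
    · left; intro e he h1
      rw [iterate_succ_apply']
      simp only [rstep, List.mem_cons, List.mem_map, List.mem_filter, decide_eq_true_eq]
      exact Or.inr ⟨e, ⟨he, h e he h1⟩, rfl⟩
    · rcases ih with ih | ih
      · exfalso; apply h; intro e he h1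
        rw [iterate_succ_apply'] at h1
        simp only [rstep, List.mem_cons, List.mem_map, List.mem_filter, decide_eq_true_eq] at h1
        rcases h1 with h1 | ⟨e', ⟨h2, h3⟩, h4⟩
        · rw [h1]
          cases j with
          | zero => simp
          | succ j => rw [iterate_succ_apply']; simp [rstep]
        · rw [← h4]; exact ih e' h2 h3
      · right
        push Not at h
        obtain ⟨e, he, h1, h2⟩ := h
        refine lt_of_le_of_lt ih ?_
        obtain ⟨l1, l2, rfl⟩ := List.append_of_mem he
        have m := fun l : List (β × β) => List.countP_mono_left (l := l)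
          (p := fun y => decide (y.1 ∈ (rstep (l1 ++ e :: l2) s)^[j] [s]))
          (q := fun y => decide (y.1 ∈ (rstep (l1 ++ e :: l2) s)^[j + 1] [s]))
          (fun x _ hx => by simp only [decide_eq_true_eq] at hx ⊢; exact rit_mono _ _ _ hx)
        have m1 := m l1
        have m2 := m l2
        rw [List.countP_append, List.countP_append, List.countP_cons_of_neg (by simpa using h2),
          List.countP_cons_of_pos (by simpa only [decide_eq_true_eq] using h1)]
        exact Nat.lt_succ_of_le (Nat.add_le_add m1 m2)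

omit [Enc β] in
theorem reachB_iff (G : List (β × β)) (s t : β) : reachB (G, s, t) = true ↔ ReflTransGen (fun a b => (a, b) ∈ G) s t := by
  rw [reachB, decide_eq_true_eq]
  change t ∈ (rstep G s)^[G.length + 1] [s] ↔ _
  constructor
  · generalize G.length + 1 = j
    induction j generalizing t with
    | zero => simp only [iterate_zero, id, List.mem_singleton]; rintro rfl; rfl
    | succ j ih =>
      rw [iterate_succ_apply']
      simp only [rstep, List.mem_cons, List.mem_map, List.mem_filter, decide_eq_true_eq]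
      rintro (rfl | ⟨e, ⟨h1, h2⟩, rfl⟩)
      · rfl
      · exact (ih _ h2).tail h1
  · intro h
    rcases rit_closed G s (G.length + 1) with c | c
    · induction h with
      | refl => rw [iterate_succ_apply']; simp [rstep]
      | tail _ h2 ih => exact c _ h2 ih
    · have := List.countP_le_length (l := G) (p := fun e => decide (e.1 ∈ (rstep G s)^[G.length + 1] [s])); omega

theorem PT_reachB : PT (reachB (β := β)) := by
  have h : PT fun p : List (β × β) × β × β => rset p.1 p.2.1 := by
    unfold rset
    refine PT.iterate (F := fun p : List (β × β) × β × β => rstep p.1 p.2.1) (B := fun p => 2 * size p + 3)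
      (by unfold rstep; fun_prop) (by fun_prop) (by fun_prop) (by fun_prop) (by fun_prop) fun a k _ => ?_
    obtain ⟨G, s, t⟩ := a
    cases k with
    | zero => simp [size_pair]; omega
    | succ k =>
      rw [iterate_succ_apply']
      have h1 := size_map_snd (G.filter fun e => decide (e.1 ∈ (rstep G s)^[k] [s]))
      have h2 := size_sublist (List.filter_sublist (l := G) (p := fun e => decide (e.1 ∈ (rstep G s)^[k] [s])))
      simp only [rstep, size_cons, size_pair] at *
      omega
  unfold reachB; fun_prop

@[fun_prop] theorem PT.reachB {f : α → List (β × β) × β × β} (hf : PT f) : PT fun a => reachB (f a) := PT_reachB.comp hf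

/-- implication graph of a list of forbidden pairs of literals -/
def impl (C : List ((β × Bool) × (β × Bool))) : List ((β × Bool) × (β × Bool)) :=
  C.flatMap fun c => [(c.1, (c.2.1, !c.2.2)), (c.2, (c.1.1, !c.1.2))]

def sat2B (C : List ((β × Bool) × (β × Bool))) : Bool :=
  C.all fun c => !(reachB (impl C, c.1, (c.1.1, !c.1.2)) && reachB (impl C, (c.1.1, !c.1.2), c.1))

theorem PT_sat2B : PT (sat2B (β := β)) := by unfold sat2B impl; fun_prop

@[fun_prop] theorem PT.sat2B {f : α → List ((β × Bool) × (β × Bool))} (hf : PT f) : PT fun a => sat2B (f a) :=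
  PT_sat2B.comp hf

omit [Enc β] in
theorem sat2B_iff (C : List ((β × Bool) × (β × Bool))) :
    sat2B C = true ↔ ∃ v : β → Bool, ∀ c ∈ C, ¬(v c.1.1 = c.1.2 ∧ v c.2.1 = c.2.2) := by
  set r := fun a b => (a, b) ∈ impl C with hr
  have hm : ∀ a b, r a b ↔ ∃ c ∈ C, (a = c.1 ∧ b = (c.2.1, !c.2.2)) ∨ (a = c.2 ∧ b = (c.1.1, !c.1.2)) := by
    intro a b; simp [hr, impl]
  have sk : ∀ a b, ReflTransGen r a b → ReflTransGen r (b.1, !b.2) (a.1, !a.2) := by
    intro a b h
    induction h with
    | refl => rfl
    | tail _ h2 ih =>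
      refine ReflTransGen.head ?_ ih
      rw [hm] at h2 ⊢
      obtain ⟨c, hc, ⟨rfl, rfl⟩ | ⟨rfl, rfl⟩⟩ := h2
      · exact ⟨c, hc, Or.inr (by simp)⟩
      · exact ⟨c, hc, Or.inl (by simp)⟩
  simp only [sat2B, List.all_eq_true, Bool.not_eq_true', Bool.and_eq_false_imp]
  simp only [← Bool.not_eq_true, reachB_iff]
  constructor
  · intro h
    have h' : ∀ x : β × Bool, ReflTransGen r x (x.1, !x.2) → ¬ReflTransGen r (x.1, !x.2) x := by
      intro x h1 h2
      rcases h1.cases_head with h3 | ⟨y, h3, h4⟩
      · have := congrArg Prod.snd h3; simp at this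
      · obtain ⟨c, hc, ⟨rfl, rfl⟩ | ⟨rfl, rfl⟩⟩ := (hm _ _).1 h3
        · exact h c hc h1 h2
        · have e1 : ReflTransGen r c.1 (c.2.1, !c.2.2) := .single ((hm _ _).2 ⟨c, hc, Or.inl ⟨rfl, rfl⟩⟩)
          have e2 := sk _ _ h4
          simp only [Bool.not_not] at e2
          have e3 := sk _ _ (h4.trans h2)
          simp only [Bool.not_not] at e3
          exact h c hc (e1.trans (h2.tail h3)) (h4.trans e3)
    have key : ∀ l : List β, ∃ U : Set (β × Bool), (∀ a ∈ U, ∀ b, r a b → b ∈ U) ∧ (∀ a ∈ U, (a.1, !a.2) ∉ U) ∧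
        ∀ i ∈ l, (i, true) ∈ U ∨ (i, false) ∈ U := by
      intro l
      induction l with
      | nil => exact ⟨∅, by simp, by simp, by simp⟩
      | cons i l ih =>
        obtain ⟨U, h1, h2, h3⟩ := ih
        by_cases hi : (i, true) ∈ U ∨ (i, false) ∈ U
        · exact ⟨U, h1, h2, by simpa using ⟨hi, h3⟩⟩
        have cl : ∀ a ∈ U, ∀ b, ReflTransGen r a b → b ∈ U := fun a ha b hb => by
          induction hb with
          | refl => exact ha
          | tail _ e ih => exact h1 _ ih _ e
        obtain ⟨b, hb⟩ : ∃ b, ¬ReflTransGen r (i, b) (i, !b) := by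
          by_contra hh; push Not at hh
          exact h' (i, true) (hh true) (hh false)
        have nb : ∀ b, (i, b) ∉ U := fun b => by cases b <;> tauto
        refine ⟨U ∪ {y | ReflTransGen r (i, b) y}, ?_, ?_, ?_⟩
        · rintro a (ha | ha) c hc
          · exact Or.inl (h1 a ha c hc)
          · exact Or.inr (ReflTransGen.tail ha hc)
        · rintro a (ha | ha) (hc | hc)
          · exact h2 a ha hc
          · have := sk _ _ hc
            simp only [Bool.not_not] at this
            exact nb _ (cl a ha _ this)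
          · exact nb _ (cl _ hc _ (sk _ _ ha))
          · have := sk _ _ hc
            simp only [Bool.not_not] at this
            exact hb (ReflTransGen.trans ha this)
        · intro j hj
          rcases List.mem_cons.1 hj with rfl | hj
          · cases b
            · exact Or.inr (Or.inr .refl)
            · exact Or.inl (Or.inr .refl)
          · exact (h3 j hj).imp Or.inl Or.inl
    classical
    obtain ⟨U, h1, h2, h3⟩ := key (C.map (·.1.1) ++ C.map (·.2.1))
    refine ⟨fun i => decide ((i, true) ∈ U), fun c hc ⟨e1, e2⟩ => ?_⟩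
    have mem : ∀ x : β × Bool, x.1 ∈ C.map (·.1.1) ++ C.map (·.2.1) → decide ((x.1, true) ∈ U) = x.2 → x ∈ U := by
      rintro ⟨i, b⟩ hx e
      have := h3 i hx
      cases b <;> simp at e <;> tauto
    have m1 := mem c.1 (by simp only [List.mem_append, List.mem_map]; exact Or.inl ⟨c, hc, rfl⟩) e1
    have m2 := mem c.2 (by simp only [List.mem_append, List.mem_map]; exact Or.inr ⟨c, hc, rfl⟩) e2
    exact h2 _ m2 (h1 _ m1 _ ((hm _ _).2 ⟨c, hc, Or.inl ⟨rfl, rfl⟩⟩))
  · rintro ⟨v, hv⟩ c hc h1 h2
    have cl : ∀ a b, ReflTransGen r a b → v a.1 = a.2 → v b.1 = b.2 := fun a b h ha => by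
      induction h with
      | refl => exact ha
      | tail _ e ih =>
        obtain ⟨c, hc, ⟨rfl, rfl⟩ | ⟨rfl, rfl⟩⟩ := (hm _ _).1 e
        · have := hv c hc; simp only [ih, true_and] at this; exact Bool.eq_not_iff.2 this
        · have := hv c hc; simp only [ih, and_true] at this; exact Bool.eq_not_iff.2 this
    by_cases e : v c.1.1 = c.1.2
    · have := cl _ _ h1 e; simp [e] at this
    · have := cl _ _ h2 (Bool.eq_not_iff.2 e); exact e this

end Pool.Agent.Lib.CX
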