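import Mathlib

namespace Pool.Agent.Lib.FGp

open FreeGroup hiding map_mul map_one map_inv

theorem fin_arg {α β γ : Type} [Primcodable α] [Primcodable β] [Primcodable γ] [Finite β] {f : α → β → γ}
    (h : ∀ b, Primrec fun a => f a b) : Primrec₂ f := by
  classical
  obtain ⟨l, -, hl⟩ := Finite.exists_univ_list β
  have : ∀ l : List β, Primrec fun p : α × β => if p.2 ∈ l then some (f p.1 p.2) else none := fun l => by
    induction l with
    | nil => simpa using Primrec.const none
    | cons b l ih =>
      refine (Primrec.ite (Primrec.eq.comp .snd (.const b)) (Primrec.option_some.comp ((h b).comp .fst)) ih).of_eq fun p => ?_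
      by_cases e : p.2 = b <;> simp [e]
  exact Primrec.option_some_iff.1 ((this l).of_eq fun p => by simp [hl])

theorem fin_pred {α β : Type} [Primcodable α] [Primcodable β] [Finite β] {f : α → β → Prop}
    (h : ∀ b, PrimrecPred fun a => f a b) : PrimrecPred fun p : α × β => f p.1 p.2 := by
  classical
  exact Primrec.primrecPred (fin_arg (f := fun a b => decide (f a b)) fun b => (h b).decide)

theorem fin_ex {α β : Type} [Primcodable α] [Finite β] {f : α → β → Prop}
    (h : ∀ b, PrimrecPred fun a => f a b) : PrimrecPred fun a => ∃ b, f a b := by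
  obtain ⟨l, -, hl⟩ := Finite.exists_univ_list β
  have : ∀ l : List β, PrimrecPred fun a => ∃ b ∈ l, f a b := fun l => by
    induction l with
    | nil => simpa using (Primrec.const false).primrecPred (p := fun _ => False)
    | cons b l ih => simpa using (h b).or ih
  simpa [hl] using this l

theorem pp_const {α : Type} [Primcodable α] (p : Prop) : PrimrecPred fun _ : α => p := by
  classical
  exact (Primrec.const (decide p)).primrecPred

variable {B : Type} [Primcodable B] [DecidableEq B] [Finite B]

theorem pr_reduce : Primrec (reduce : List (B × Bool) → _) := by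
  refine (Primrec.list_foldr (h := fun _ (p : (B × Bool) × List (B × Bool)) => (List.casesOn p.2 [p.1] fun hd tl =>
      if p.1.1 = hd.1 ∧ p.1.2 = !hd.2 then tl else p.1 :: hd :: tl : List (B × Bool))) .id (.const []) ?_).of_eq fun l => ?_
  · refine (Primrec.list_casesOn (h := fun (p : (B × Bool) × List (B × Bool)) (r : (B × Bool) × List (B × Bool)) =>
      if p.1.1 = r.1.1 ∧ p.1.2 = !r.1.2 then r.2 else p.1 :: r.1 :: r.2) .snd (Primrec.list_cons.comp .fst (.const [])) ?_).comp .snd
    refine Primrec.ite ?_ (Primrec.snd.comp .snd) (Primrec.list_cons.comp (Primrec.fst.comp .fst)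
      (Primrec.list_cons.comp (Primrec.fst.comp .snd) (Primrec.snd.comp .snd)))
    classical
    exact ((Primrec.dom_finite fun p : (B × Bool) × (B × Bool) => decide (p.1.1 = p.2.1 ∧ p.1.2 = !p.2.2)).comp
      ((Primrec.fst.comp .fst).pair (Primrec.fst.comp .snd))).primrecPred
  · induction l with
    | nil => rfl
    | cons a l ih => rw [reduce.cons, ← ih]; rfl

def eqv : FreeGroup B ≃ {l : List (B × Bool) // reduce l = l} :=
  ⟨fun g => ⟨g.toWord, reduce_toWord g⟩, fun l => mk l.1, fun _ => mk_toWord, fun l => Subtype.ext l.2⟩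

theorem pp_red : PrimrecPred fun l : List (B × Bool) => reduce l = l := Primrec.eq.comp pr_reduce .id

noncomputable instance pc : Primcodable (FreeGroup B) := @Primcodable.ofEquiv _ _ (Primcodable.subtype pp_red) eqv

theorem pr_toWord : Primrec (toWord : FreeGroup B → _) :=
  letI := Primcodable.subtype (pp_red (B := B))
  (Primrec.subtype_val (hp := pp_red)).comp (Primrec.of_equiv (e := eqv))

theorem pr_mk : Primrec (mk : List (B × Bool) → _) :=
  letI := Primcodable.subtype (pp_red (B := B))
  ((Primrec.of_equiv_symm (e := eqv)).comp (Primrec.subtype_mk (hp := pp_red) (h := fun _ => reduce.idem) pr_reduce)).of_eq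
    fun _ => reduce.self

theorem pr_mul : Primrec₂ fun g h : FreeGroup B => g * h :=
  (pr_mk.comp (Primrec.list_append.comp (pr_toWord.comp .fst) (pr_toWord.comp .snd))).of_eq fun p => by
    rw [← mul_mk, mk_toWord, mk_toWord]

theorem pr_hom (θ : FreeGroup B →* FreeGroup B) : Primrec θ :=
  (pr_mk.comp (Primrec.list_flatMap pr_toWord
    ((Primrec.dom_finite fun x : B × Bool => (θ (mk [x])).toWord).comp .snd).to₂)).of_eq fun g => by
    conv_rhs => rw [← mk_toWord (x := g)]
    induction g.toWord with
    | nil => exact (map_one θ).symm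
    | cons x l ih => rw [List.flatMap_cons, ← mul_mk, ih, mk_toWord, ← map_mul, mul_mk]; rfl

section
variable {Q L : Type} (Tr : Q → L → Q → Prop)

def Path (s : Q) (u : List L) : Set Q := u.foldl (fun T l => {t | ∃ r ∈ T, Tr r l t}) {s}

@[simp] theorem path_nil (s t : Q) : t ∈ Path Tr s [] ↔ t = s := .rfl
@[simp] theorem path_snoc (s t : Q) (u l) : t ∈ Path Tr s (u ++ [l]) ↔ ∃ r ∈ Path Tr s u, Tr r l t := by
  simp [Path]

theorem pp_path [Finite Q] [Finite L] [Primcodable L] (s t : Q) : PrimrecPred fun u => t ∈ Path Tr s u := by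
  classical
  obtain ⟨k, ⟨e⟩⟩ := Finite.exists_equiv_fin (Set Q)
  let := Primcodable.ofEquiv _ e
  exact ((Primrec.dom_finite fun T : Set Q => decide (t ∈ T)).comp (Primrec.list_foldl
    (h := fun _ (p : Set Q × L) => {t | ∃ r ∈ p.1, Tr r p.2 t}) .id (.const {s})
      ((Primrec.dom_finite fun p : Set Q × L => {t | ∃ r ∈ p.1, Tr r p.2 t}).comp .snd).to₂)).primrecPred

end

theorem path_red {Q A : Type} {Tr : Q → A × Bool → Q → Prop} (h : ∀ s l s' l' s'', Tr s l s' → Tr s' l' s'' → l.1 = l'.1 → l.2 = l'.2)
    {s t u} (hu : t ∈ Path Tr s u) : IsReduced u := by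
  suffices IsReduced u ∧ ∀ l ∈ u.getLast?, ∃ r, Tr r l t from this.1
  induction u using List.reverseRecOn generalizing t with
  | nil => simp
  | append_singleton u l ih =>
    obtain ⟨r, a, b⟩ := (path_snoc ..).1 hu
    refine ⟨List.isChain_append.2 ⟨(ih a).1, by simp, fun x hx y hy => ?_⟩, by simpa using ⟨r, b⟩⟩
    obtain ⟨r', c⟩ := (ih a).2 x hx
    obtain rfl : l = y := by simpa using hy
    exact h _ _ _ _ _ c b

end Pool.Agent.Lib.FGp
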