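import Mathlib
import Pool.Agent.Lib.helper22.FGp

namespace Pool.Agent.Lib.Munn

open FreeGroup hiding map_mul map_one map_inv
open Pool.Agent.Lib.FGp
open scoped Pointwise

theorem short {α Θ : Type} [Finite Θ] (φ : List α → Θ) {P : List α → Prop}
    (h : ∀ u m w, P (u ++ m ++ w) → φ (u ++ m) = φ u → P (u ++ w)) {l} (hl : P l) : ∃ l, P l ∧ l.length < Nat.card Θ := by
  generalize e : l.length = c
  induction c using Nat.strong_induction_on generalizing l with | _ c ih => ?_
  by_cases g : l.length < Nat.card Θ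
  · exact ⟨l, hl, g⟩
  obtain ⟨i, j, ij, e1⟩ : ∃ i j : Fin (l.length + 1), i < j ∧ φ (l.take i) = φ (l.take j) := by
    have := Fintype.ofFinite Θ
    obtain ⟨i, j, c, d⟩ := Fintype.exists_ne_map_eq_of_card_lt (fun i : Fin (l.length + 1) => φ (l.take i))
      (by simpa [Nat.lt_succ_iff] using g)
    exact c.lt_or_gt.elim (fun c => ⟨i, j, c, d⟩) fun c => ⟨j, i, c, d.symm⟩
  obtain ⟨m, hm⟩ : l.take i <+: l.take j := List.take_prefix_take_left (by omega)
  refine ih _ ?_ (h _ m (l.drop j) (by rwa [hm, List.take_append_drop]) (by rw [hm, e1])) rfl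
  simp
  omega

def allW {α : Type} (l : List α) (N : ℕ) : List (List α) := N.rec [[]] fun _ ih => [] :: l.flatMap fun a => ih.map (a :: ·)

theorem mem_allW {α : Type} {l : List α} {N y} : y ∈ allW l N ↔ y.length ≤ N ∧ ∀ a ∈ y, a ∈ l := by
  induction N generalizing y with
  | zero => cases y <;> simp [allW]
  | succ N ih =>
    rw [show allW l (N + 1) = [] :: l.flatMap fun a => (allW l N).map (a :: ·) from rfl]
    cases y <;> simp [ih, and_left_comm]

theorem pr_allW {α : Type} [Primcodable α] : Primrec₂ (allW : List α → _) :=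
  Primrec.nat_rec (f := fun _ : List α => [[]]) (g := fun l (p : ℕ × List (List α)) => [] :: l.flatMap fun a => p.2.map (a :: ·))
    (.const _) (Primrec.list_cons.comp (.const []) (Primrec.list_flatMap .fst (Primrec.list_map (Primrec.snd.comp (Primrec.snd.comp .fst))
      (Primrec.list_cons.comp (Primrec.snd.comp .fst) .snd).to₂).to₂)).to₂

theorem pp_ex {α β : Type} [Primcodable α] [Primcodable β] {f : α → List β} {R : α → β → Prop} (hf : Primrec f)
    (h : PrimrecPred fun p : α × β => R p.1 p.2) : PrimrecPred fun a => ∃ b ∈ f a, R a b :=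
  (PrimrecRel.exists_mem_list (R := fun b a => R a b) (h.comp (Primrec.snd.pair .fst))).comp hf .id

theorem pp_all {α β : Type} [Primcodable α] [Primcodable β] {f : α → List β} {R : α → β → Prop} (hf : Primrec f)
    (h : PrimrecPred fun p : α × β => R p.1 p.2) : PrimrecPred fun a => ∀ b ∈ f a, R a b :=
  (pp_ex (R := fun a b => ¬ R a b) hf h.not).not.of_eq (by simp)

theorem pp_mem {α β : Type} [Primcodable α] [Primcodable β] {f : α → List β} {g : α → β} (hf : Primrec f) (hg : Primrec g) :
    PrimrecPred fun a => g a ∈ f a := by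
  classical
  exact (pp_ex (R := fun a b => b = g a) hf (Primrec.eq.comp .snd (hg.comp .fst))).of_eq (by simp)

variable {X : Type}

def T (w : List (X × Bool)) : Set (FreeGroup X) := {g | ∃ k, mk (w.take k) = g}

def mu (w : List (X × Bool)) : Set (FreeGroup X) × FreeGroup X := (T w, mk w)

theorem one_T (w : List (X × Bool)) : 1 ∈ T w := ⟨0, rfl⟩
theorem mk_T (w : List (X × Bool)) : mk w ∈ T w := ⟨w.length, by simp⟩
theorem T_nil : T ([] : List (X × Bool)) = {1} := by ext; simp [T, eq_comm]; rfl

theorem T_app (u v : List (X × Bool)) : T (u ++ v) = T u ∪ mk u • T v := by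
  ext g
  refine ⟨?_, ?_⟩
  · rintro ⟨k, rfl⟩
    rcases le_total k u.length with h | h
    · exact .inl ⟨k, by rw [List.take_append_of_le_length h]⟩
    · exact .inr ⟨_, ⟨k - u.length, rfl⟩, by simp [List.take_append, List.take_of_length_le h]⟩
  · rintro (⟨k, rfl⟩ | ⟨_, ⟨k, rfl⟩, rfl⟩)
    · exact ⟨min k u.length, by rw [List.take_append_of_le_length (min_le_right ..), ← List.take_take, List.take_length]⟩
    · exact ⟨u.length + k, by simp [List.take_append, List.take_of_length_le]⟩

theorem T_one (l : X × Bool) : T [l] = {1, mk [l]} := by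
  ext g
  refine ⟨?_, ?_⟩
  · rintro ⟨_ | k, rfl⟩
    exacts [.inl rfl, .inr (by simp)]
  · rintro (rfl | rfl)
    exacts [one_T _, mk_T _]

theorem T_snoc (u : List (X × Bool)) (l) : T (u ++ [l]) = insert (mk (u ++ [l])) (T u) := by
  rw [T_app, T_one, Set.smul_set_insert, Set.smul_set_singleton, smul_eq_mul, mul_one, smul_eq_mul, mul_mk, Set.union_insert,
    Set.insert_eq_of_mem (Set.mem_union_left _ (mk_T u)), Set.union_singleton]

theorem T_fin (u : List (X × Bool)) : (T u).Finite := by
  induction u using List.reverseRecOn with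
  | nil => simp [T_nil]
  | append_singleton u l ih => exact T_snoc u l ▸ ih.insert _

theorem T_inv (u : List (X × Bool)) : T (invRev u) = (mk u)⁻¹ • T u := by
  induction u using List.reverseRecOn with
  | nil => simp [← one_eq_mk]
  | append_singleton u l ih =>
    rw [invRev_append, T_app, ih, T_snoc, show invRev [l] = [(l.1, !l.2)] from rfl, T_one, show mk [(l.1, !l.2)] = (mk [l])⁻¹ from rfl,
      ← mul_smul, ← mul_inv_rev, mul_mk, Set.smul_set_insert, smul_eq_mul, inv_mul_cancel, Set.insert_union,
      Set.union_eq_self_of_subset_left (Set.singleton_subset_iff.2 (Set.mem_smul_set.2 ⟨_, mk_T u, by rw [← mul_mk, mul_inv_rev, smul_eq_mul, inv_mul_cancel_right]⟩))]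

theorem mu_app {u u' v v' : List (X × Bool)} (h : mu u = mu u') (k : mu v = mu v') : mu (u ++ v) = mu (u' ++ v') := by
  simp only [mu, Prod.mk.injEq, T_app, ← mul_mk] at *
  simp [*]

theorem mu_inv {u v : List (X × Bool)} (h : mu u = mu v) : mu (invRev u) = mu (invRev v) := by
  simp only [mu, Prod.mk.injEq, T_inv, ← inv_mk] at *
  simp [*]

variable [DecidableEq X]

theorem red_eq {x y : List (X × Bool)} (h : IsReduced x) (k : IsReduced y) (e : mk x = mk y) : x = y := by
  rw [← h.reduce_eq, ← k.reduce_eq, ← toWord_mk, e, toWord_mk]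

theorem mv {x y : List (X × Bool)} {a} (h : IsReduced x) (k : IsReduced y) (e : mk y = mk x * mk [a]) :
    y = x ++ [a] ∨ x = y ++ invRev [a] := by
  by_cases c : IsReduced (x ++ [a])
  · exact .inl (red_eq k c e)
  induction x using List.reverseRecOn with
  | nil => simp at c
  | append_singleton x b =>
    obtain rfl : b = (a.1, !a.2) := by
      by_contra d
      refine c (List.isChain_append.2 ⟨h, by simp, by simpa using fun f => by_contra fun g => d (Prod.ext f (Bool.eq_not.2 g))⟩)
    refine .inr (congrArg (· ++ _) (red_eq (List.IsChain.left_of_append h) k ?_))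
    rw [e, ← mul_mk, show mk [(a.1, !a.2)] = (mk [a])⁻¹ from rfl, inv_mul_cancel_right]

theorem T_pre {w y : List (X × Bool)} {a} (h : IsReduced (y ++ [a])) (k : mk (y ++ [a]) ∈ T w) : mk y ∈ T w := by
  induction w using List.reverseRecOn generalizing y a with
  | nil => rw [T_nil] at k; simpa using red_eq h .nil k
  | append_singleton w l ih =>
    rw [T_snoc] at k ⊢
    obtain k | k := k
    · obtain e | e := mv isReduced_toWord h (a := l) (x := (mk w).toWord) (by rw [k, mk_toWord, mul_mk])
      · exact .inr (by rw [List.append_inj_left' e rfl, mk_toWord]; exact mk_T w)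
      · change _ = _ ++ [(l.1, !l.2)] at e
        exact .inr (ih h (ih (a := (l.1, !l.2)) (e ▸ isReduced_toWord) (by rw [← e, mk_toWord]; exact mk_T w)))
    · exact .inr (ih h k)

theorem T_len {w : List (X × Bool)} {g} (h : g ∈ T w) : g.toWord.length ≤ w.length := by
  obtain ⟨k, rfl⟩ := h
  exact (reduce.red.sublist.length_le).trans (List.length_take_le' ..)

def code (k : ℕ) (S : Set (FreeGroup X)) : Set (Fin k → Option (X × Bool)) := (fun g i => g.toWord[i.1]?) '' S

theorem code_inj {k} {S S' : Set (FreeGroup X)} (h : ∀ g ∈ S, g.toWord.length ≤ k) (h' : ∀ g ∈ S', g.toWord.length ≤ k)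
    (e : code k S = code k S') : S = S' := by
  refine ((show Set.InjOn (fun (g : FreeGroup X) (i : Fin k) => g.toWord[i.1]?) {g | g.toWord.length ≤ k} from fun g a g' b c =>
    toWord_injective (List.ext_getElem? fun i => ?_)).image_eq_image_iff h h').1 e
  by_cases d : i < k
  · exact congrFun c ⟨i, d⟩
  · rw [List.getElem?_eq_none (le_trans a (not_lt.1 d)), List.getElem?_eq_none (le_trans b (not_lt.1 d))]

theorem mu_code {k} {u m w : List (X × Bool)} (h : ∀ g ∈ T (u ++ m ++ w), g.toWord.length ≤ k) (e1 : code k (T (u ++ m)) = code k (T u))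
    (e2 : code k {mk (u ++ m)} = code k {mk u}) : mu (u ++ m ++ w) = mu (u ++ w) := by
  have a : T (u ++ m) ⊆ T (u ++ m ++ w) := T_app (u ++ m) w ▸ Set.subset_union_left
  have b : T u ⊆ T (u ++ m) := T_app .. ▸ Set.subset_union_left
  exact mu_app (Prod.ext (code_inj (fun g k => h g (a k)) (fun g k => h g (a (b k))) e1) (Set.singleton_injective
    (code_inj (fun g k => h g (a (k ▸ mk_T _))) (fun g k => h g (a (b (k ▸ mk_T _)))) e2))) rfl

omit [DecidableEq X] in
theorem card_code [Finite X] (k) : Nat.card (Set (Fin k → Option (X × Bool))) = 2 ^ (Nat.card (X × Bool) + 1) ^ k := by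
  rw [show Set (Fin k → Option (X × Bool)) = ((Fin k → Option (X × Bool)) → Prop) from rfl, Nat.card_fun, Nat.card_fun, Finite.card_option]
  simp

theorem mu_short [Finite X] {k} {w : List (X × Bool)} (h : ∀ g ∈ T w, g.toWord.length ≤ k) :
    ∃ v, mu v = mu w ∧ v.length < 2 ^ (Nat.card (X × Bool) + 1) ^ k * 2 ^ (Nat.card (X × Bool) + 1) ^ k := by
  rw [← card_code, ← Nat.card_prod]
  exact short (fun v => (code k (T v), code k {mk v})) (P := fun v => mu v = mu w) (fun u m v a b =>
    (mu_code (by rwa [show T _ = T w from congrArg Prod.fst a]) (congrArg Prod.fst b) (congrArg Prod.snd b)).symm.trans a) rfl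

theorem pp_mu [Finite X] [Primcodable X] : PrimrecPred fun p : List (X × Bool) × List (X × Bool) => mu p.1 = mu p.2 := by
  have : PrimrecPred fun p : List (X × Bool) × List (X × Bool) => T p.1 ⊆ T p.2 := by
    have c : ∀ w : List (X × Bool), T w = {g | ∃ k ∈ List.range (w.length + 1), mk (w.take k) = g} := fun w => by
      ext g
      exact ⟨fun ⟨k, h⟩ => ⟨min k w.length, by simp, by rwa [← List.take_take, List.take_length]⟩, fun ⟨k, _, h⟩ => ⟨k, h⟩⟩
    refine (pp_all (R := fun p i => ∃ j ∈ List.range (p.2.length + 1), mk (p.2.take j) = mk (p.1.take i))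
      (Primrec.list_range.comp (Primrec.succ.comp (Primrec.list_length.comp .fst))) (pp_ex
        (Primrec.list_range.comp (Primrec.succ.comp (Primrec.list_length.comp (Primrec.snd.comp .fst))))
        (Primrec.eq.comp (pr_mk.comp (Primrec.list_take.comp .snd (Primrec.snd.comp (Primrec.fst.comp .fst))))
          (pr_mk.comp (Primrec.list_take.comp (Primrec.snd.comp .fst) (Primrec.fst.comp (Primrec.fst.comp .fst))))))).of_eq fun p => ?_
    rw [c, c]
    exact ⟨fun h g ⟨k, a, b⟩ => b ▸ h k a, fun h k a => h ⟨k, a, rfl⟩⟩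
  exact ((this.and (this.comp (Primrec.snd.pair .fst))).and (Primrec.eq.comp (pr_mk.comp .fst) (pr_mk.comp .snd))).of_eq fun p => by
    simp [mu, Set.Subset.antisymm_iff]

end Pool.Agent.Lib.Munn
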