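import Pool.Agent.Lib.helper22.CXEtr

/-! Systems `y a * y b + y c = y d` whose solutions can be taken positive and pairwise different. -/

namespace Pool.Agent.Lib.ER

open Pool.Agent.Lib.CX Finset

def eqn (N : ℕ) (e : Q4) : List (ℕ × ℕ) × List (ℕ × ℕ) :=
  ([(1 + N + e.1, 1 + N + e.2.1), (1 + e.1, 1 + e.2.1), (1 + e.1, 1 + e.2.1), (1 + e.1, 1 + e.2.1), (1 + e.1, 1 + e.2.1),
    (1 + N + e.2.2.1, 0), (1 + e.2.2.2, 0), (1 + e.2.2.2, 0)],
   [(1 + N + e.1, 1 + e.2.1), (1 + N + e.1, 1 + e.2.1), (1 + e.1, 1 + N + e.2.1), (1 + e.1, 1 + N + e.2.1),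
    (1 + e.2.2.1, 0), (1 + e.2.2.1, 0), (1 + N + e.2.2.2, 0)])

def eqs (N : ℕ) (E : List Q4) : List (List (ℕ × ℕ) × List (ℕ × ℕ)) :=
  ([(1 + N + 1, 0), (1, 0), (1, 0), (1, 0), (1, 0), (1, 0), (1, 0), (0, 0)],
   [(2, 0), (2, 0), (0, 0), (1 + N, 0), (1 + N, 0), (1 + N, 0), (0, 0)]) :: eqn N (0, 0, 0, 0) :: E.map (eqn N)

def chain (N k : ℕ) (q : List (ℕ × ℕ) × List (ℕ × ℕ)) : List Q4 :=
  (0, 1 + 2 * N, 2 * N + 2 + 17 * k, 2 * N + 2 + 17 * k + 8) :: (0, 1 + 2 * N, 2 * N + 2 + 17 * k + 7, 2 * N + 2 + 17 * k + 16) ::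
  (((List.range 7).map fun j => ((q.2.getD j (0, 0)).1, (q.2.getD j (0, 0)).2, 2 * N + 2 + 17 * k + j, 2 * N + 2 + 17 * k + j + 1)) ++
  (List.range 8).map fun j => ((q.1.getD j (0, 0)).1, (q.1.getD j (0, 0)).2, 2 * N + 2 + 17 * k + 8 + j,
    2 * N + 2 + 17 * k + 8 + j + 1))

def dq (a : List Unit × List Q4) : List Unit × List Q4 :=
  (List.replicate (2 * a.1.length + 2 + 17 * (a.2.length + 2)) (),
    (List.range (a.2.length + 2)).flatMap fun k => chain a.1.length k ((eqs a.1.length a.2).getD k ([], [])))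

theorem pt_dq : PT dq := by unfold dq chain eqs eqn; fun_prop

noncomputable def ps (x : ℕ → ℝ) (l : List (ℕ × ℕ)) (j : ℕ) : ℝ := ∑ i ∈ range j, x (l.getD i (0, 0)).1 * x (l.getD i (0, 0)).2

theorem chain_iff (N k q x) : (∀ e ∈ chain N k q, Q4.ok x e) ↔
    x (2 * N + 2 + 17 * k + 8) = x (2 * N + 2 + 17 * k) + x 0 * x (1 + 2 * N) ∧ ps x q.1 8 = ps x q.2 7 ∧
    (∀ j ≤ 7, x (2 * N + 2 + 17 * k + j) = x (2 * N + 2 + 17 * k) + ps x q.2 j) ∧
    ∀ j ≤ 8, x (2 * N + 2 + 17 * k + 8 + j) = x (2 * N + 2 + 17 * k + 8) + ps x q.1 j := by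
  have key : ∀ (l : List (ℕ × ℕ)) (b m : ℕ), (∀ j < m, x (l.getD j (0, 0)).1 * x (l.getD j (0, 0)).2 + x (b + j) = x (b + j + 1)) ↔
      ∀ j ≤ m, x (b + j) = x b + ps x l j := fun l b m => by
    constructor
    · intro h j hj
      induction j with
      | zero => simp [ps]
      | succ j ih => rw [← add_assoc, ← h j (by omega), ih (by omega), ps, ps, sum_range_succ]; ring
    · intro h j hj
      rw [add_assoc, h (j + 1) (by omega), h j hj.le, ps, ps, sum_range_succ]; ring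
  simp only [chain, List.forall_mem_cons, List.forall_mem_append, List.forall_mem_map, List.mem_range, Q4.ok, key]
  constructor
  · rintro ⟨h1, h2, h3, h4⟩
    exact ⟨by linarith, by linarith [h3 7 le_rfl, h4 8 le_rfl], h3, h4⟩
  · rintro ⟨h1, h2, h3, h4⟩
    exact ⟨by linarith, by linarith [h3 7 le_rfl, h4 8 le_rfl], h3, h4⟩

theorem eqs_lt {N E} (h3 : 3 ≤ N) (hE : ∀ e ∈ E, Q4.lt N e) (k j) :
    (∀ p ∈ [((eqs N E).getD k ([], [])).1.getD j (0, 0), ((eqs N E).getD k ([], [])).2.getD j (0, 0)],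
      p.1 < 1 + 2 * N ∧ p.2 < 1 + 2 * N) := by
  have a : ∀ q ∈ eqs N E, ∀ p ∈ q.1 ++ q.2, p.1 < 1 + 2 * N ∧ p.2 < 1 + 2 * N := by
    simp only [eqs, eqn, List.forall_mem_cons, List.forall_mem_map, List.cons_append, List.nil_append,
      List.not_mem_nil, false_imp_iff, implies_true, and_true]
    refine ⟨by omega, by omega, fun e he => ?_⟩
    have := hE e he
    unfold Q4.lt at this
    omega
  have b : ∀ (l : List (ℕ × ℕ)), (∀ p ∈ l, p.1 < 1 + 2 * N ∧ p.2 < 1 + 2 * N) →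
      (l.getD j (0, 0)).1 < 1 + 2 * N ∧ (l.getD j (0, 0)).2 < 1 + 2 * N := fun l hl => by
    by_cases c : j < l.length
    · simpa [c] using hl _ (List.getElem_mem c)
    · simp [c]
  by_cases c : k < (eqs N E).length
  · have := a _ (List.getElem_mem c)
    rw [List.forall_mem_append] at this
    rw [List.getD_eq_getElem _ _ c]
    exact List.forall_mem_cons.2 ⟨b _ this.1, List.forall_mem_singleton.2 (b _ this.2)⟩
  · rw [List.getD_eq_default _ _ (not_lt.1 c)]
    simp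

theorem dq_lt {N E} (h3 : 3 ≤ N.length) (hE : ∀ e ∈ E, Q4.lt N.length e) : ∀ e ∈ (dq (N, E)).2, Q4.lt (dq (N, E)).1.length e := by
  simp only [dq, chain, List.forall_mem_flatMap, List.forall_mem_cons, List.forall_mem_append, List.forall_mem_map,
    List.mem_range, Q4.lt, List.length_replicate]
  intro k hk
  refine ⟨by omega, by omega, fun j hj => ?_, fun j hj => ?_⟩ <;>
  · have := eqs_lt h3 hE k j
    simp only [List.forall_mem_cons] at this
    omega

theorem eqs_all {N E} (P : List (ℕ × ℕ) × List (ℕ × ℕ) → Prop) :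
    (∀ k < E.length + 2, P ((eqs N E).getD k ([], []))) ↔ ∀ q ∈ eqs N E, P q := by
  have : (eqs N E).length = E.length + 2 := by simp [eqs]
  rw [← this, List.forall_mem_iff_getElem]
  exact forall₂_congr fun k hk => by rw [List.getD_eq_getElem _ _ hk]

theorem dq_sound {N E x} (h0 : x 0 ≠ 0) (h : ∀ e ∈ (dq (N, E)).2, Q4.ok x e) : ∃ y, Sat E y := by
  simp only [dq, List.forall_mem_flatMap, List.mem_range, chain_iff] at h
  have := (eqs_all fun q => ps x q.1 8 = ps x q.2 7).1 fun k hk => (h k hk).2.1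
  simp only [eqs, eqn, List.forall_mem_cons, List.forall_mem_map, ps, sum_range_succ, List.getD_cons_succ,
    List.getD_cons_zero, range_zero, sum_empty, add_zero, zero_add] at this
  obtain ⟨h1, h2, h3⟩ := this
  have z : x (1 + N.length) - 2 * x 1 = 0 := pow_eq_zero_iff two_ne_zero |>.1 (by linarith)
  refine ⟨fun i => (x (1 + N.length + i) - 2 * x (1 + i)) / x 0, by simp [z], ?_, fun e he => ?_⟩
  · rw [div_eq_one_iff_eq h0]
    refine mul_right_cancel₀ h0 ?_
    linear_combination h1 + 3 * x 0 * z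
  · have := h3 e he
    unfold Q4.ok
    field_simp
    linarith

theorem dq_complete {N E y} (h3 : 3 ≤ N.length) (hE : ∀ e ∈ E, Q4.lt N.length e) (hy : Sat E y) :
    ∃ x : ℕ → ℝ, x 0 = 1 ∧ (∀ i j, i < j → j < (dq (N, E)).1.length → x i < x j) ∧ ∀ e ∈ (dq (N, E)).2, Q4.ok x e := by
  simp only [dq, List.forall_mem_flatMap, List.mem_range, chain_iff, List.length_replicate]
  generalize N.length = n at *
  obtain ⟨T, T1, hT⟩ : ∃ T : ℝ, 1 ≤ T ∧ ∀ i < n, |y i| < T := ⟨1 + ∑ i ∈ range n, |y i|,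
    le_add_of_nonneg_right (sum_nonneg fun _ _ => abs_nonneg _), fun i hi => by
      linarith [single_le_sum (f := fun i => |y i|) (fun _ _ => abs_nonneg _) (mem_range.2 hi)]⟩
  have n3 : (3 : ℝ) ≤ n := by exact_mod_cast h3
  let b : ℕ → ℝ := fun i => if i = 0 then 1 else if i < 1 + n then (n + i) * T else y (i - (1 + n)) + 2 * i * T
  have b0 : b 0 = 1 := rfl
  have b1 : ∀ i < n, b (1 + i) = (n + 1 + i) * T := fun i hi => by simp [b, hi]; left; ring
  have b2 : ∀ i, b (1 + n + i) = y i + 2 * (n + 1 + i) * T := fun i => by simp [b]; left; ring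
  have bb : ∀ i < 1 + 2 * n, 0 < b i ∧ b i ≤ 5 * n * T := fun i hi => by
    have i2 : (i : ℝ) ≤ 2 * n := by exact_mod_cast (by omega : i ≤ 2 * n)
    have i0 : (0 : ℝ) ≤ i := Nat.cast_nonneg _
    simp only [b]
    split_ifs with c1 c2
    · constructor <;> nlinarith
    · constructor <;> nlinarith
    · have := abs_lt.1 (hT (i - (1 + n)) (by omega))
      have i1 : (1 : ℝ) ≤ i := by exact_mod_cast (by omega : 1 ≤ i)
      constructor <;> nlinarith [this.1, this.2]
  obtain ⟨G, hG⟩ : ∃ G, G = 9 * (5 * n * T) ^ 2 := ⟨_, rfl⟩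
  have B1 : 1 ≤ 5 * n * T := by nlinarith
  have pp : ∀ l : List (ℕ × ℕ), (∀ j, (l.getD j (0, 0)).1 < 1 + 2 * n ∧ (l.getD j (0, 0)).2 < 1 + 2 * n) →
      (∀ j, ps b l j < ps b l (j + 1)) ∧ ∀ j ≤ 8, ps b l j < G := fun l hl => by
    refine ⟨fun j => ?_, fun j hj => ?_⟩
    · rw [ps, ps, sum_range_succ, lt_add_iff_pos_right]
      exact mul_pos (bb _ (hl j).1).1 (bb _ (hl j).2).1
    · have := sum_le_card_nsmul (range j) (fun i => b (l.getD i (0, 0)).1 * b (l.getD i (0, 0)).2) ((5 * n * T) ^ 2)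
        fun i _ => by rw [sq]; exact mul_le_mul (bb _ (hl i).1).2 (bb _ (hl i).2).2 (bb _ (hl i).2).1.le (by linarith)
      have j8 : (j : ℝ) ≤ 8 := by exact_mod_cast hj
      simp only [card_range, nsmul_eq_mul] at this
      unfold ps
      nlinarith
  have pL := fun k => pp ((eqs n E).getD k ([], [])).1 fun j => eqs_lt h3 hE k j _ (by simp)
  have pR := fun k => pp ((eqs n E).getD k ([], [])).2 fun j => eqs_lt h3 hE k j _ (by simp)
  let s : ℕ → ℕ → ℝ := fun k j => (2 * k + 2) * G + if j ≤ 7 then ps b ((eqs n E).getD k ([], [])).2 j else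
    G + ps b ((eqs n E).getD k ([], [])).1 (j - 8)
  let x : ℕ → ℝ := fun i => if i < 1 + 2 * n then b i else if i = 1 + 2 * n then G else
    s ((i - (2 * n + 2)) / 17) ((i - (2 * n + 2)) % 17)
  have x1 : ∀ i < 1 + 2 * n, x i = b i := fun i hi => if_pos hi
  have x2 : x (1 + 2 * n) = G := by simp [x]
  have x3 : ∀ k j, j < 17 → x (2 * n + 2 + 17 * k + j) = s k j := fun k j hj => by
    simp only [x]
    rw [if_neg (by omega), if_neg (by omega)]
    congr 1 <;> omega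
  have x4 : ∀ k j, ps x ((eqs n E).getD k ([], [])).1 j = ps b ((eqs n E).getD k ([], [])).1 j ∧
      ps x ((eqs n E).getD k ([], [])).2 j = ps b ((eqs n E).getD k ([], [])).2 j := fun k j =>
    ⟨sum_congr rfl fun i _ => by rw [x1 _ (eqs_lt h3 hE k i _ (by simp)).1, x1 _ (eqs_lt h3 hE k i _ (by simp)).2],
      sum_congr rfl fun i _ => by rw [x1 _ (eqs_lt h3 hE k i _ (by simp)).1, x1 _ (eqs_lt h3 hE k i _ (by simp)).2]⟩
  have G0 : 5 * n * T < G := by nlinarith
  have step : ∀ i, x i < x (i + 1) := fun i => by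
    rcases lt_trichotomy i (2 * n) with c | c | c
    · rw [x1 _ (by omega), x1 _ (by omega)]
      rcases Nat.eq_zero_or_pos i with rfl | i0
      · rw [b0, add_comm, b1 0 (by omega)]; nlinarith
      by_cases c1 : i < n
      · obtain ⟨j, rfl⟩ : ∃ j, i = 1 + j := ⟨i - 1, by omega⟩
        rw [b1 j (by omega), add_assoc 1 j, b1 _ (by omega)]; push_cast; nlinarith
      by_cases c2 : i = n
      · obtain ⟨j, rfl⟩ : ∃ j, i = 1 + j := ⟨i - 1, by omega⟩
        have := abs_lt.1 (hT 0 (by omega))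
        have e : (n : ℝ) = 1 + j := by exact_mod_cast c2.symm
        rw [b1 j (by omega), show 1 + j + 1 = 1 + n + 0 by omega, b2]; push_cast; nlinarith [this.1]
      · obtain ⟨j, rfl⟩ : ∃ j, i = 1 + n + j := ⟨i - (1 + n), by omega⟩
        have h1 := abs_lt.1 (hT j (by omega))
        have h2 := abs_lt.1 (hT (j + 1) (by omega))
        rw [b2, add_assoc (1 + n), b2]; push_cast; nlinarith [h1.2, h2.1]
    · rw [c, x1 _ (by omega), add_comm, x2]; exact (bb _ (by omega)).2.trans_lt G0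
    rcases (show 2 * n + 1 = i ∨ 2 * n + 2 ≤ i by omega) with rfl | c
    · rw [add_comm (2 * n), x2, show 1 + 2 * n + 1 = 2 * n + 2 + 17 * 0 + 0 by omega, x3 _ _ (by omega)]
      simp [s, ps]; linarith
    obtain ⟨k, j, hj, rfl⟩ : ∃ k j, j < 17 ∧ i = 2 * n + 2 + 17 * k + j :=
      ⟨(i - (2 * n + 2)) / 17, (i - (2 * n + 2)) % 17, by omega, by omega⟩
    rw [x3 _ _ hj]
    by_cases c1 : j = 16
    · rw [show 2 * n + 2 + 17 * k + j + 1 = 2 * n + 2 + 17 * (k + 1) + 0 by omega, x3 _ _ (by omega), c1]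
      have := (pL k).2 8 le_rfl
      simp only [s, ps, range_zero, sum_empty] at this ⊢
      norm_num at this ⊢
      linarith
    rw [add_assoc, x3 _ _ (by omega)]
    simp only [s, add_lt_add_iff_left]
    split_ifs with c2 c3
    · exact (pR k).1 j
    · rw [show j + 1 - 8 = 0 by omega]; simpa [ps] using (pR k).2 j (by omega)
    · omega
    · rw [show j + 1 - 8 = j - 8 + 1 by omega]; linarith [(pL k).1 (j - 8)]
  refine ⟨x, by rw [x1 _ (by omega), b0], fun i j h _ => strictMono_nat_of_lt_succ step h, fun k hk => ?_⟩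
  have y0 := x3 k 0 (by omega)
  rw [add_zero] at y0
  refine ⟨?_, ?_, fun j hj => ?_, fun j hj => ?_⟩
  · rw [x3 _ _ (by omega), y0, x2, x1 _ (by omega), b0]; simp [s, ps]
  · rw [(x4 k 8).1, (x4 k 7).2]
    refine (eqs_all fun q => ps b q.1 8 = ps b q.2 7).2 ?_ k hk
    have a0 := b1 0 (by omega)
    have a1 := b1 1 (by omega)
    have a2 := b2 0
    simp only [add_zero, one_add_one_eq_two, hy.1] at a0 a1 a2
    simp only [eqs, eqn, List.forall_mem_cons, List.forall_mem_map, ps, sum_range_succ, List.getD_cons_succ,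
      List.getD_cons_zero, range_zero, sum_empty, add_zero, zero_add, b0, b2, a0, a1, a2, hy.2.1]
    refine ⟨by push_cast; ring, by push_cast; ring, fun e he => ?_⟩
    obtain ⟨c1, c2, c3, c4⟩ := hE e he
    rw [b1 _ c1, b1 _ c2, b1 _ c3, b1 _ c4, ← hy.2.2 e he]
    ring
  · rw [x3 _ _ (by omega), y0, (x4 k j).2]; simp [s, ps, hj]
  · rw [add_assoc _ 8, x3 _ _ (by omega), x3 _ _ (by omega), (x4 k j).1]
    simp [s, ps, show ¬8 + j ≤ 7 by omega, add_assoc]

/-- hardness from systems with strictly increasing solutions starting at one -/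
theorem etr_of_dq {β : Type} [Enc β] {B : β → Prop} (f : List Unit × List Q4 → β) (hf : PT f)
    (h : ∀ M E, 0 < M.length → (∀ e ∈ E, Q4.lt M.length e) →
      ((∃ x : ℕ → ℝ, x 0 = 1 ∧ (∀ i j, i < j → j < M.length → x i < x j) ∧ ∀ e ∈ E, Q4.ok x e) → B (f (M, E))) ∧
      (B (f (M, E)) → ∃ x : ℕ → ℝ, x 0 ≠ 0 ∧ ∀ e ∈ E, Q4.ok x e)) : Red ETR B :=
  etr_of_qs (fun a => f (dq a)) (hf.comp pt_dq) fun N E h3 hE => by
    obtain ⟨h1, h2⟩ := h _ _ (by simp [dq]) (dq_lt h3 hE)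
    exact ⟨fun ⟨y, hy⟩ => h1 (dq_complete h3 hE hy), fun b => let ⟨x, h0, hx⟩ := h2 b; dq_sound h0 hx⟩

end Pool.Agent.Lib.ER
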