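import Mathlib

namespace Pool.Agent.Lib.H10

open Finset Dioph

/-- bitwise domination -/
def Mk (a b : ℕ) : Prop := ∀ i, a.testBit i = true → b.testBit i = true

theorem Mk.le {a b : ℕ} (h : Mk a b) : a ≤ b := Nat.le_of_testBit h

theorem mk_split (N a b : ℕ) : Mk a b ↔ Mk (a % 2 ^ N) (b % 2 ^ N) ∧ Mk (a / 2 ^ N) (b / 2 ^ N) := by
  simp only [Mk, Nat.testBit_mod_two_pow, Nat.testBit_div_two_pow, Bool.and_eq_true, decide_eq_true_eq]
  refine ⟨fun h => ⟨fun i k => ⟨k.1, h i k.2⟩, fun i => h _⟩, fun h i k => ?_⟩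
  by_cases q : i < N
  · exact (h.1 i ⟨q, k⟩).2
  · obtain ⟨j, rfl⟩ := Nat.exists_eq_add_of_le' (not_lt.1 q)
    exact h.2 j k

theorem mk_add {N a b a' b' : ℕ} (ha : a < 2 ^ N) (hb : b < 2 ^ N) :
    Mk (a + 2 ^ N * a') (b + 2 ^ N * b') ↔ Mk a b ∧ Mk a' b' := by
  rw [mk_split N]
  simp [Nat.mod_eq_of_lt, ha, hb, Nat.add_mul_div_left, Nat.div_eq_of_lt]

theorem mk_ones {a k : ℕ} (h : a < 2 ^ k) : Mk a (2 ^ k - 1) := fun i t => by
  by_contra q
  simp only [Nat.testBit_two_pow_sub_one, decide_eq_true_eq, not_lt] at q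
  rw [Nat.testBit_lt_two_pow (h.trans_le (Nat.pow_le_pow_right two_pos q))] at t
  cases t

theorem mk_zero (b : ℕ) : Mk 0 b := fun i t => by simp at t

theorem mk_choose (a b : ℕ) : Mk a b ↔ b.choose a % 2 = 1 := by
  induction a using Nat.strong_induction_on generalizing b with | _ a ih =>
  rcases a.eq_zero_or_pos with rfl | h
  · simp [mk_zero]
  have := Nat.fact_prime_two
  have l : _ % 2 = _ := Choose.choose_modEq_choose_mod_mul_choose_div_nat (n := b) (k := a) (p := 2)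
  rw [mk_split 1, pow_one, ih (a / 2) (by omega), l, Nat.mul_mod]
  have : Mk 1 1 := fun _ => id
  have : ¬ Mk 1 0 := fun h => by simpa using h.le
  rcases Nat.mod_two_eq_zero_or_one a with p | p <;> rcases Nat.mod_two_eq_zero_or_one b with q | q <;> simp [*]

theorem digit (u m k : ℕ) (f : ℕ → ℕ) (h : ∀ i, f i < u) (hk : k < m) : (∑ i ∈ range m, u ^ i * f i) / u ^ k % u = f k := by
  induction k generalizing f m with
  | zero =>
    obtain ⟨m, rfl⟩ := Nat.exists_eq_add_of_lt hk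
    simp [sum_range_succ', pow_succ', mul_assoc, ← mul_sum, Nat.mod_eq_of_lt, h]
  | succ k ih =>
    obtain ⟨m, rfl⟩ : ∃ l, m = l + 1 := ⟨m - 1, by omega⟩
    have := (Nat.zero_le _).trans_lt (h 0)
    rw [← ih m (fun i => f (i + 1)) (fun i => h _) (by omega), pow_succ', ← Nat.div_div_eq_div_mul]
    simp [sum_range_succ', pow_succ', mul_assoc, ← mul_sum, Nat.mul_add_div, this, Nat.div_eq_of_lt, h]

theorem choose_eq (n k : ℕ) : (2 ^ (n + 1) + 1) ^ n / (2 ^ (n + 1)) ^ k % 2 ^ (n + 1) = n.choose k := by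
  rw [← digit (2 ^ (n + 1)) (n + 1 + k) k n.choose (fun i => (Nat.choose_le_two_pow n i).trans_lt (by simp [pow_succ])) (by omega),
    add_pow, sum_range_add _ (n + 1) k, sum_eq_zero (s := range k) fun i _ => by rw [Nat.choose_eq_zero_of_lt (by omega), mul_zero]]
  simp

variable {α : Type} {f g : (α → ℕ) → ℕ}

theorem mk_dioph (df : DiophFn f) (dg : DiophFn g) : Dioph {v | Mk (f v) (g v)} := by
  simp only [mk_choose, ← choose_eq]
  have u := pow_dioph (const_dioph 2) (add_dioph dg (const_dioph 1))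
  exact eq_dioph (mod_dioph (mod_dioph (div_dioph (pow_dioph (add_dioph u (const_dioph 1)) dg) (pow_dioph u df)) u) (const_dioph 2))
    (const_dioph 1)

theorem sum_dioph {J : Type} (s : Finset J) {F : J → (α → ℕ) → ℕ} (h : ∀ j, DiophFn (F j)) : DiophFn fun v => ∑ j ∈ s, F j v := by
  classical
  induction s using Finset.induction_on with
  | empty => exact const_dioph 0
  | insert a s ha ih => simpa only [sum_insert ha] using add_dioph (h a) ih

theorem all_dioph {J : Type} [Fintype J] {P : J → (α → ℕ) → Prop} (h : ∀ j, Dioph {v | P j v}) : Dioph {v | ∀ j, P j v} := by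
  classical
  have : ∀ s : Finset J, Dioph {v | ∀ j ∈ s, P j v} := fun s => by
    induction s using Finset.induction_on with
    | empty => exact (eq_dioph (const_dioph 0) (const_dioph 0)).ext (by simp)
    | insert a s _ ih => exact ((h a).inter ih).ext (by simp)
  simpa using this univ

variable {J : Type} [Fintype J] (A B A' B' : J → ℕ)

/-- piecewise affine step -/
def St (z z' : ℕ) : Prop := ∃ j y, z = A j * y + B j ∧ z' = A' j * y + B' j

def Run (N W s z : ℕ) (Y L : J → ℕ) : Prop := (∀ j, Mk (L j) (∑ t ∈ range s, (2 ^ N) ^ t)) ∧ ∑ j, L j = ∑ t ∈ range s, (2 ^ N) ^ t ∧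
  (∀ j, Mk (Y j) (W * L j)) ∧ 2 ^ N * ∑ j, (A' j * Y j + B' j * L j) + z = ∑ j, (A j * Y j + B j * L j)

def Bd (W : ℕ) : ℕ := Fintype.card J + W + 1 + ∑ j, ((A j + A' j) * W + B j + B' j)

theorem uniq {Q a b c d : ℕ} (ha : a < Q) (hc : c < Q) (h : a + Q * b = c + Q * d) : a = c ∧ b = d := by
  have e : a = c := by simpa [Nat.mod_eq_of_lt, ha, hc] using congrArg (· % Q) h
  exact ⟨e, by simpa [e, show Q ≠ 0 by omega] using h⟩

theorem bd {W : ℕ} (j : J) {y : ℕ} (h : y ≤ W) : A j * y + B j ≤ Bd A B A' B' W ∧ A' j * y + B' j ≤ Bd A B A' B' W := by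
  have := single_le_sum (f := fun j => (A j + A' j) * W + B j + B' j) (fun _ _ => Nat.zero_le _) (mem_univ j)
  have := Nat.mul_le_mul_left (A j) h
  have := Nat.mul_le_mul_left (A' j) h
  unfold Bd
  constructor <;> nlinarith

theorem run_succ [DecidableEq J] {N W s z : ℕ} (hb : Bd A B A' B' W < 2 ^ N) (hz : z < 2 ^ N) (l y Y L : J → ℕ)
    (hl : ∀ j, l j < 2 ^ N) (hy : ∀ j, y j < 2 ^ N) :
    Run A B A' B' N W (s + 1) z (fun j => y j + 2 ^ N * Y j) (fun j => l j + 2 ^ N * L j) ↔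
      ∃ j, l = Pi.single j 1 ∧ y = Pi.single j (y j) ∧ Mk (y j) W ∧ z = A j * y j + B j ∧
        Run A B A' B' N W s (A' j * y j + B' j) Y L := by
  have b1 : 1 < 2 ^ N := by unfold Bd at hb; omega
  have b2 : ∀ j, l j ≤ 1 → W * l j < 2 ^ N := fun j h => (Nat.mul_le_mul_left W h).trans_lt (by unfold Bd at hb; omega)
  have e : ∀ (C D : J → ℕ) j x, ∑ i, (C i * (Pi.single (M := fun _ => ℕ) j x i + 2 ^ N * Y i) +
      D i * (Pi.single (M := fun _ => ℕ) j 1 i + 2 ^ N * L i)) = C j * x + D j + 2 ^ N * ∑ i, (C i * Y i + D i * L i) := fun C D j x => by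
    simp [mul_add, sum_add_distrib, Pi.single_apply, mul_sum, mul_left_comm]
    ring
  have g : ∑ t ∈ range (s + 1), (2 ^ N) ^ t = 1 + 2 ^ N * ∑ t ∈ range s, (2 ^ N) ^ t := by rw [geom_sum_succ, add_comm]
  simp only [Run, g, mk_add (hl _) b1, sum_add_distrib (f := l), ← mul_sum]
  constructor
  · rintro ⟨h1, h2, h3, h4⟩
    have q : ∀ j, l j ≤ 1 := fun j => (h1 j).1.le
    have := (sum_le_card_nsmul univ l 1 fun j _ => q j).trans_lt (by unfold Bd at hb; simp; omega : _ < 2 ^ N)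
    obtain ⟨k1, k2⟩ := uniq this b1 h2
    obtain ⟨j, hj⟩ : ∃ j, l j ≠ 0 := by by_contra! z; simp [z] at k1
    have k3 : ∀ i, i ≠ j → l i = 0 := fun i hi => by
      have := sum_le_sum_of_subset (f := l) (subset_univ {i, j})
      rw [sum_pair hi, show ∑ x, l x = 1 from k1] at this
      omega
    have k4 : l j = 1 := by have := q j; omega
    simp only [mul_add W, mul_left_comm W, mk_add (hy _) (b2 _ (q _))] at h3
    have k5 : l = Pi.single j 1 := funext fun i => by by_cases c : i = j <;> simp [*]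
    have k6 : y = Pi.single j (y j) := funext fun i => by
      by_cases c : i = j
      · simp [c]
      · simpa [c, k3 i c] using (h3 i).1.le
    have k7 : Mk (y j) W := by simpa [k4] using (h3 j).1
    rw [k5, k6, e, e, add_comm] at h4
    obtain ⟨k8, k9⟩ := uniq hz ((bd A B A' B' j k7.le).1.trans_lt hb) h4
    exact ⟨j, k5, k6, k7, k8, fun i => (h1 i).2, k2, fun i => (h3 i).2, by rw [add_comm, k9]⟩
  · rintro ⟨j, k5, k6, k7, k8, h1, h2, h3, h4⟩
    have q : ∀ i, l i ≤ 1 := fun i => by rw [k5]; by_cases c : i = j <;> simp [c]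
    refine ⟨fun i => ⟨mk_ones (k := 1) (Nat.lt_succ_of_le (q i)), h1 i⟩, by simp [k5, h2], fun i => ?_, ?_⟩
    · rw [mul_add W, mul_left_comm W, mk_add (hy _) (b2 _ (q _))]
      refine ⟨?_, h3 i⟩
      rw [k5, k6]
      by_cases c : i = j <;> simp [c, k7, mk_zero]
    · rw [k5, k6, e, e, ← h4, k8]
      ring

theorem reach_iff (z : ℕ) : Relation.ReflTransGen (St A B A' B') z 0 ↔
    ∃ N k s Y L, z + Bd A B A' B' (2 ^ k - 1) < 2 ^ N ∧ Run A B A' B' N (2 ^ k - 1) s z Y L := by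
  classical
  constructor
  · intro h
    have : ∃ k0, ∀ k ≥ k0, ∀ N, Bd A B A' B' (2 ^ k - 1) < 2 ^ N → z < 2 ^ N → ∃ s Y L, Run A B A' B' N (2 ^ k - 1) s z Y L := by
      induction h using Relation.ReflTransGen.head_induction_on with
      | refl => exact ⟨0, fun k _ N _ _ => ⟨0, 0, 0, by simp [Run, mk_zero]⟩⟩
      | @head z z' h _ ih =>
        obtain ⟨j, y, rfl, rfl⟩ := h
        obtain ⟨k0, ih⟩ := ih
        refine ⟨k0 + y, fun k hk N hb hz => ?_⟩
        have hy := mk_ones (Nat.lt_two_pow_self.trans_le (Nat.pow_le_pow_right two_pos (by omega : y ≤ k)))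
        obtain ⟨s, Y, L, h⟩ := ih k (by omega) N hb ((bd A B A' B' j hy.le).2.trans_lt hb)
        have := hy.le
        refine ⟨_, _, _, (run_succ A B A' B' hb hz (Pi.single j 1) (Pi.single j y) Y L (fun i => ?_) fun i => ?_).2
          ⟨j, rfl, by simp, by simpa, by simp, by simpa⟩⟩ <;> unfold Bd at hb <;> by_cases c : i = j <;> simp only [Pi.single_apply, c, if_true, if_false] <;> omega
    obtain ⟨k, h⟩ := this
    have := @Nat.lt_two_pow_self (z + Bd A B A' B' (2 ^ k - 1))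
    obtain ⟨s, Y, L, h⟩ := h k le_rfl (z + Bd A B A' B' (2 ^ k - 1)) (by omega) (by omega)
    exact ⟨_, k, s, Y, L, this, h⟩
  · rintro ⟨N, k, s, Y, L, hb, h⟩
    have hz : z < 2 ^ N := by omega
    replace hb : Bd A B A' B' (2 ^ k - 1) < 2 ^ N := by omega
    induction s generalizing z Y L with
    | zero =>
      obtain ⟨h1, -, h3, h4⟩ := h
      have a : ∀ j, L j = 0 := fun j => by simpa using (h1 j).le
      have b : ∀ j, Y j = 0 := fun j => by simpa [a] using (h3 j).le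
      obtain rfl : z = 0 := by simpa [a, b] using h4
      rfl
    | succ s ih =>
      have m : ∀ x, x % 2 ^ N < 2 ^ N := fun x => Nat.mod_lt _ (by positivity)
      obtain ⟨j, -, -, k7, k8, h⟩ := (run_succ A B A' B' hb hz (L · % 2 ^ N) (Y · % 2 ^ N) (Y · / 2 ^ N) (L · / 2 ^ N)
        (fun _ => m _) fun _ => m _).1 (by simpa only [Nat.mod_add_div] using h)
      exact .head ⟨j, _, k8, rfl⟩ (ih _ _ _ h ((bd A B A' B' j k7.le).2.trans_lt hb))

theorem reach_dioph (df : DiophFn f) : Dioph {v | Relation.ReflTransGen (St A B A' B') (f v) 0} := by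
  have c := @const_dioph (α ⊕ (Fin 3 ⊕ J ⊕ J))
  have p := @proj_dioph (α ⊕ (Fin 3 ⊕ J ⊕ J))
  have Q := pow_dioph (c 2) (p (.inr (.inl 0)))
  have W := sub_dioph (pow_dioph (c 2) (p (.inr (.inl 1)))) (c 1)
  have I := div_dioph (sub_dioph (pow_dioph Q (p (.inr (.inl 2)))) (c 1)) (sub_dioph Q (c 1))
  have z := reindex_diophFn (β := α ⊕ (Fin 3 ⊕ J ⊕ J)) .inl df
  have S := fun C D : J → ℕ => sum_dioph univ fun j => add_dioph (mul_dioph (c (C j)) (p (.inr (.inr (.inl j)))))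
    (mul_dioph (c (D j)) (p (.inr (.inr (.inr j)))))
  refine (ex_dioph ((lt_dioph (add_dioph z (add_dioph (add_dioph (add_dioph (c (Fintype.card J)) W) (c 1)) (sum_dioph univ fun j =>
    add_dioph (add_dioph (mul_dioph (c (A j + A' j)) W) (c (B j))) (c (B' j))))) Q).inter
    ((all_dioph fun j => mk_dioph (p (.inr (.inr (.inr j)))) I).inter ((eq_dioph (sum_dioph univ fun j => p (.inr (.inr (.inr j)))) I).inter
    ((all_dioph fun j => mk_dioph (p (.inr (.inr (.inl j)))) (mul_dioph W (p (.inr (.inr (.inr j)))))).inter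
    (eq_dioph (add_dioph (mul_dioph Q (S A' B')) z) (S A B))))))).ext fun v => ?_
  have g : ∀ N k s, f v + Bd A B A' B' (2 ^ k - 1) < 2 ^ N → ∑ t ∈ range s, (2 ^ N) ^ t = ((2 ^ N) ^ s - 1) / (2 ^ N - 1) :=
    fun N k s h => Nat.geomSum_eq (by unfold Bd at h; omega) s
  rw [Set.mem_ofPred_eq, Set.mem_ofPred_eq, reach_iff]
  constructor
  · rintro ⟨x, h, k⟩
    refine ⟨x (.inl 0), x (.inl 1), x (.inl 2), fun j => x (.inr (.inl j)), fun j => x (.inr (.inr j)), h, ?_⟩
    rw [Run, g (x (.inl 0)) (x (.inl 1)) _ h]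
    exact k
  · rintro ⟨N, k, s, Y, L, h, r⟩
    rw [Run, g _ _ _ h] at r
    exact ⟨Sum.elim ![N, k, s] (Sum.elim Y L), h, r⟩

end Pool.Agent.Lib.H10
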