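import Mathlib
import Pool.Agent.Lib.helper21.Queue

namespace Pool.Agent.Lib.FO

open Function Pool.Agent.Lib.helper21 While Mach

/-- a one-register multiply/divide machine with undecidable halting from `2 ^ n` -/
theorem exists_mul : ∃ (C Q : Type) (_ : Finite Q) (st : C → Q) (X : C → ℕ) (f : C → Option C) (c0 : ℕ → C) (q0 : Q)
    (m : Q → ℕ) (nxt : Q → Bool → Option Q) (α β : Q → Bool → ℕ), (∀ c, 0 < X c) ∧ (∀ n, X (c0 n) = 2 ^ n ∧ st (c0 n) = q0) ∧
    (∀ q, 0 < m q) ∧ (∀ q t, 0 < α q t ∧ 0 < β q t) ∧ (∀ c t, (t = true ↔ ¬ m (st c) ∣ X c) → (f c).map st = nxt (st c) t ∧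
      ∀ c', f c = some c' → α (st c) t * X c = β (st c) t * X c') ∧ ¬ ComputablePred fun n => Halts f (c0 n) := by
  obtain ⟨Q, _, M, q0, hM⟩ := Queue.exists_cm0
  obtain ⟨K, hK⟩ := (Set.finite_range M.reg).bddAbove
  have hK : ∀ q, M.reg q ∈ Finset.range (K + 1) := fun q => Finset.mem_range.2 (Nat.lt_succ_of_le (hK ⟨q, rfl⟩))
  let p := Nat.nth Nat.Prime
  have pp : ∀ r, (p r).Prime := Nat.prime_nth_prime
  let X : St → ℕ := fun s => ∏ r ∈ Finset.range (K + 1), p r ^ s r
  have u : ∀ r ∈ Finset.range (K + 1), ∀ s k, X (update s r k) = p r ^ k * ∏ j ∈ (Finset.range (K + 1)).erase r, p j ^ s j :=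
    fun r hr s k => by
      simp only [X]
      rw [← Finset.mul_prod_erase _ _ hr, update_self]
      exact congrArg _ (Finset.prod_congr rfl fun j hj => by rw [update_of_ne (Finset.ne_of_mem_erase hj)])
  have v : ∀ r ∈ Finset.range (K + 1), ∀ s, X s = p r ^ s r * ∏ j ∈ (Finset.range (K + 1)).erase r, p j ^ s j :=
    fun r hr s => by rw [← u r hr, update_eq_self]
  have d : ∀ r ∈ Finset.range (K + 1), ∀ s, ¬ p r ∣ X s ↔ s r ≤ 0 := fun r hr s => by
    rw [v r hr]
    refine ⟨fun h => not_lt.1 fun k => h ((dvd_pow_self _ k.ne').mul_right _), fun h k => ?_⟩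
    rw [Nat.le_zero.1 h, pow_zero, one_mul, (pp r).prime.dvd_finsetProd_iff] at k
    obtain ⟨j, hj, k⟩ := k
    exact Finset.ne_of_mem_erase hj (Nat.nth_injective Nat.infinite_setOfPred_prime
      ((Nat.prime_dvd_prime_iff_eq (pp r) (pp j)).1 ((pp r).dvd_of_dvd_pow k))).symm
  refine ⟨Q × St, Q, inferInstance, Prod.fst, fun c => X c.2, M.step 0, fun n => (q0, init n), q0, fun q => p (M.reg q), M.nxt,
    fun q t => if M.eff q t = some true then p (M.reg q) else 1, fun q t => if M.eff q t = some false then p (M.reg q) else 1,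
    fun c => Finset.prod_pos fun r _ => pow_pos (pp r).pos _, fun n => ⟨?_, rfl⟩, fun q => (pp _).pos, fun q t => ?_,
    fun c t h => ?_, hM⟩
  · simp [init, u 0 (by simp), p]
  · constructor <;> dsimp only <;> split_ifs <;> first | exact (pp _).pos | exact one_pos
  · rw [d _ (hK _)] at h
    have e : M.tst 0 c = t := by
      rw [Bool.eq_iff_iff, h]
      simp [CM.tst, CM.thr]
    refine ⟨by simp [CM.step, e, Function.comp_def], fun c' k => ?_⟩
    simp only [CM.step, e, Option.map_eq_some_iff] at k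
    obtain ⟨q, -, rfl⟩ := k
    rcases k : M.eff c.1 t with _ | _ | _ <;> simp [app, k]
    · have : t ≠ true := fun z => M.nodec c.1 (z ▸ k)
      rw [u _ (hK _), v _ (hK c.1) c.2, ← mul_assoc, ← pow_succ', Nat.sub_add_cancel (not_le.1 (mt h.2 this))]
    · rw [u _ (hK _), v _ (hK c.1) c.2, ← mul_assoc, ← pow_succ']

end Pool.Agent.Lib.FO
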