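import Mathlib
import Pool.Agent.Lib.helper22.H10a
import Pool.Agent.Lib.helper22.Mul

namespace Pool.Agent.Lib.H10

open Finset Dioph Pool.Agent.Lib.helper21.Mach

/-- the Davis-Putnam-Robinson-Matiyasevich theorem in the form needed for undecidability proofs -/
theorem exists_dioph : ∃ S : ℕ → Prop, ¬ ComputablePred S ∧ Dioph {v : Unit → ℕ | S (v ())} := by
  obtain ⟨D, Q, _, st, X, f, c0, q0, m, nxt, α, β, hX, h0, hm, hβ, hf, hM⟩ := FO.exists_mul
  have := Fintype.ofFinite Q
  let K := Fintype.card Q + 1
  let i : Q → ℕ := fun q => Fintype.equivFin Q q + 1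
  have iK : ∀ q, i q < K := fun q => Nat.succ_lt_succ (Fin.is_lt _)
  have ii : ∀ q r, i q = i r → q = r := fun q r h => (Fintype.equivFin Q).injective (Fin.ext (Nat.succ_injective h))
  let M := (∏ q, m q) * ∏ p : Q × Bool, β p.1 p.2
  have M0 : 0 < M := mul_pos (prod_pos fun q _ => hm q) (prod_pos fun p _ => (hβ _ _).2)
  have d1 : ∀ q, m q ∣ M := fun q => (dvd_prod_of_mem _ (mem_univ q)).mul_right _
  have d2 : ∀ q t, β q t ∣ M := fun q t => (dvd_prod_of_mem (fun p : Q × Bool => β p.1 p.2) (mem_univ (q, t))).mul_left _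
  let t : Q × Fin M → Bool := fun j => decide ¬ m j.1 ∣ j.2
  let γ : Q × Fin M → ℕ := fun j => α j.1 (t j) * (M / β j.1 (t j))
  let cd : D → ℕ := fun d => i (st d) + K * (M * X d)
  let R := St (fun _ : Q × Fin M => K * M * M) (fun j => K * M * j.2 + i j.1)
    (fun j => (nxt j.1 (t j)).elim 0 fun _ => K * γ j * M) fun j => (nxt j.1 (t j)).elim 0 fun q => K * γ j * j.2 + i q
  have key : ∀ d z, R (cd d) z ↔ z = (f d).elim 0 cd := fun d z => by
    have k : ∀ (r : Fin M) y, X d = M * y + r → ((nxt (st d) (t (st d, r))).elim 0 fun _ => K * γ (st d, r) * M) * y +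
        ((nxt (st d) (t (st d, r))).elim 0 fun q => K * γ (st d, r) * r + i q) = (f d).elim 0 cd := fun r y e => by
      obtain ⟨e1, e2⟩ := hf d (t (st d, r)) (by simp [t, e, Nat.dvd_add_right ((d1 _).mul_right y)])
      rw [← e1]
      cases s : f d with
      | none => simp
      | some d' =>
        have : M * X d' = γ (st d, r) * X d := by
          symm
          rw [mul_right_comm, e2 _ s, mul_right_comm, Nat.mul_div_cancel' (d2 _ _)]
        simp only [Option.map_some, Option.elim_some, cd, this, e]
        ring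
    constructor
    · rintro ⟨⟨q, r⟩, y, h, rfl⟩
      obtain ⟨a, b⟩ := uniq (iK _) (iK q) (h.trans (by ring : _ = i q + K * (M * (M * y + r))))
      obtain rfl := ii _ _ a
      exact k r y (Nat.eq_of_mul_eq_mul_left M0 b)
    · rintro rfl
      have e := (Nat.div_add_mod (X d) M).symm
      refine ⟨(st d, ⟨_, Nat.mod_lt (X d) M0⟩), X d / M, ?_, (k ⟨_, Nat.mod_lt (X d) M0⟩ _ e).symm⟩
      simp only [cd]
      nth_rw 1 [e]
      ring
  have H : ∀ d, Halts f d ↔ Relation.ReflTransGen R (cd d) 0 := fun d => by
    constructor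
    · intro h
      induction h with
      | stop s => exact .single ((key _ _).2 (by simp [s]))
      | go s _ ih => exact .head ((key _ _).2 (by simp [s])) ih
    · intro h
      generalize e : cd d = z at h
      induction h using Relation.ReflTransGen.head_induction_on generalizing d with
      | refl => simp [cd, i] at e
      | head h _ ih =>
        subst e
        rw [key] at h
        cases s : f d with
        | none => exact .stop s
        | some d' => exact .go s (ih d' (by simp [h, s]))
  refine ⟨_, hM, (show Dioph {v | Relation.ReflTransGen R _ 0} from reach_dioph _ _ _ _ (add_dioph (const_dioph (i q0)) (mul_dioph (const_dioph K) (mul_dioph (const_dioph M)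
    (pow_dioph (const_dioph 2) (proj_dioph ())))))).ext fun v => ?_⟩
  simp only [Set.mem_ofPred_eq, H, cd, h0]
  rfl

end Pool.Agent.Lib.H10
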