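import Mathlib
import Pool.Agent.Lib.helper22.H10b

namespace Pool.Agent.Lib.H10

open Sum

variable {C K M V W α β : Type} [Monoid M]

def ev (c : C → M) (σ : V → M) (u : List (C ⊕ V)) : M := (u.map (Sum.elim c σ)).prod

/-- `σ` solves the system `E`; an atom is a kind and two words -/
def Sol (c : C → M) (rel : K → M → M → Prop) (σ : V → M) (E : List (K × List (C ⊕ V) × List (C ⊕ V))) : Prop :=
  ∀ e ∈ E, rel e.1 (ev c σ e.2.1) (ev c σ e.2.2)

def TD (c : C → M) (f : (α → M) → M) : Prop := ∃ u : List (C ⊕ α), ∀ v, ev c v u = f v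

def SD (c : C → M) (rel : K → M → M → Prop) (P : (α → M) → Prop) : Prop :=
  ∃ (β : Type) (E : List (K × List (C ⊕ α ⊕ β) × List (C ⊕ α ⊕ β))), ∀ v, P v ↔ ∃ t : β → M, Sol c rel (Sum.elim v t) E

def sb (s : V → List (C ⊕ W)) (E : List (K × List (C ⊕ V) × List (C ⊕ V))) : List (K × List (C ⊕ W) × List (C ⊕ W)) :=
  E.map fun e => (e.1, e.2.1.flatMap (Sum.elim (fun a => [inl a]) s), e.2.2.flatMap (Sum.elim (fun a => [inl a]) s))

variable {c : C → M} {rel : K → M → M → Prop} {f g : (α → M) → M} {P Q : (α → M) → Prop}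

theorem ev_sb (s : V → List (C ⊕ W)) (σ : W → M) (u) :
    ev c σ (u.flatMap (Sum.elim (fun a => [inl a]) s)) = ev c (fun x => ev c σ (s x)) u := by
  induction u with
  | nil => rfl
  | cons a u ih => cases a <;> simp_all [ev]

theorem sol_sb (s : V → List (C ⊕ W)) (σ : W → M) (τ : V → M) (h : ∀ x, ev c σ (s x) = τ x) (E) :
    Sol c rel σ (sb s E) ↔ Sol c rel τ E := by
  simp only [Sol, sb, List.forall_mem_map, ev_sb, h]

theorem TD.var (i : α) : TD c fun v => v i := ⟨[inr i], by simp [ev]⟩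
theorem TD.con (x : C) : TD c fun _ : α → M => c x := ⟨[inl x], by simp [ev]⟩
theorem TD.one : TD c fun _ : α → M => 1 := ⟨[], by simp [ev]⟩
theorem TD.mul : TD c f → TD c g → TD c fun v => f v * g v
  | ⟨u, h⟩, ⟨w, k⟩ => ⟨u ++ w, by simp_all [ev]⟩
theorem TD.pow (k : ℕ) (h : TD c f) : TD c fun v => f v ^ k := by
  induction k with
  | zero => simpa using TD.one
  | succ k ih => simpa [pow_succ] using ih.mul h
theorem TD.re (s : α → β) : TD c f → TD c fun v : β → M => f fun i => v (s i)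
  | ⟨u, h⟩ => ⟨_, fun v => (ev_sb (fun i => [inr (s i)]) v u).trans (by simp [← h, ev])⟩

theorem SD.of_iff (h : SD c rel P) (e : ∀ v, P v ↔ Q v) : SD c rel Q := by rwa [← funext fun v => propext (e v)]

theorem SD.atom (k : K) (hf : TD c f) (hg : TD c g) : SD c rel fun v => rel k (f v) (g v) := by
  obtain ⟨u, h⟩ := hf.re (inl : α → α ⊕ Empty)
  obtain ⟨w, h'⟩ := hg.re (inl : α → α ⊕ Empty)
  exact ⟨Empty, [(k, u, w)], by simp [Sol, h, h']⟩

theorem SD.and : SD c rel P → SD c rel Q → SD c rel fun v => P v ∧ Q v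
  | ⟨β, E, h⟩, ⟨γ, F, k⟩ => ⟨β ⊕ γ, sb (fun x => [inr (x.map id inl)]) E ++ sb (fun x => [inr (x.map id inr)]) F, fun v => by
    have : ∀ t : β ⊕ γ → M, Sol c rel (Sum.elim v t) (sb (fun x => [inr (x.map id inl)]) E ++ sb (fun x => [inr (x.map id inr)]) F) ↔
        Sol c rel (Sum.elim v (t ∘ inl)) E ∧ Sol c rel (Sum.elim v (t ∘ inr)) F := fun t => by
      rw [← sol_sb (fun x => [inr (x.map id inl)]) (Sum.elim v t) (Sum.elim v (t ∘ inl)) (by simp [ev]),
        ← sol_sb (fun x => [inr (x.map id inr)]) (Sum.elim v t) (Sum.elim v (t ∘ inr)) (by simp [ev])]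
      exact List.forall_mem_append
    simp only [this, h, k]
    exact ⟨fun ⟨⟨s, a⟩, t, b⟩ => ⟨Sum.elim s t, a, b⟩, fun ⟨t, a, b⟩ => ⟨⟨_, a⟩, _, b⟩⟩⟩

theorem SD.ex {R : M → (α → M) → Prop} :
    (SD c rel fun v : Option α → M => R (v none) fun i => v (some i)) → SD c rel fun v => ∃ x, R x v
  | ⟨β, E, h⟩ => ⟨Option β, sb (fun x => [inr (x.elim (·.elim (inr none) inl) (inr ∘ some))]) E, fun v => by
    have : ∀ t : Option β → M, _ := fun t => sol_sb (c := c) (rel := rel)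
      (fun x => [inr (x.elim (·.elim (inr none) inl) (inr ∘ some))]) (Sum.elim v t)
      (Sum.elim (·.elim (t none) v) (t ∘ some)) (by rintro ((_ | _) | _) <;> simp [ev]) E
    simp only [this]
    exact ⟨fun ⟨x, a⟩ => ((h (·.elim x v)).1 a).elim fun t b => ⟨(·.elim x t), b⟩,
      fun ⟨t, a⟩ => ⟨t none, (h (·.elim (t none) v)).2 ⟨_, a⟩⟩⟩⟩

theorem SD.sub {F : α → (β → M) → M} (hF : ∀ i, TD c (F i)) : SD c rel P → SD c rel fun v => P fun i => F i v
  | ⟨γ, E, h⟩ => by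
    choose u hu using fun i => (hF i).re (inl : β → β ⊕ γ)
    refine ⟨γ, sb (Sum.elim u fun b => [inr (inr b)]) E, fun v => (h _).trans (exists_congr fun t => (sol_sb _ _ _ ?_ E).symm)⟩
    rintro (i | b)
    · exact hu i _
    · simp [ev]

/-- if the powers of a word form a copy of the naturals definable by systems, with multiplication, systems are undecidable -/
theorem und_sys [Primcodable C] [Primcodable K] (k0 : K) (hk : ∀ x y, rel k0 x y ↔ x = y) (u : List C) {a : M}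
    (ha : (u.map c).prod = a) (inj : ∀ m n : ℕ, a ^ m = a ^ n → m = n)
    (hN : SD c rel fun v : Unit → M => ∃ n, v () = a ^ n) {Mu : M → M → M → Prop}
    (hM : SD c rel fun v : Fin 3 → M => Mu (v 0) (v 1) (v 2)) (hm : ∀ (x y : ℕ) z, Mu (a ^ x) (a ^ y) z ↔ z = a ^ (x * y)) :
    ¬ ComputablePred fun E : List (K × List (C ⊕ ℕ) × List (C ⊕ ℕ)) => ∃ σ, Sol c rel σ E := fun hc => by
  classical
  obtain ⟨S, hS, β, p, hp⟩ := exists_dioph
  let δ : M → ℕ := Function.invFun (a ^ ·)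
  have hδ : ∀ n, δ (a ^ n) = n := Function.leftInverse_invFun inj
  have eq : ∀ {γ} {f g : (γ → M) → M}, TD c f → TD c g → SD c rel fun v => f v = g v :=
    fun h k => (SD.atom k0 h k).of_iff fun _ => hk _ _
  have ta : ∀ {γ}, TD c fun _ : γ → M => a := ⟨u.map inl, by simp [ev, ← ha, Function.comp_def]⟩
  have mu : ∀ {γ} {f g h : (γ → M) → M}, TD c f → TD c g → TD c h → SD c rel fun v => Mu (f v) (g v) (h v) :=
    fun {γ f g h} a b d => SD.sub (F := ![f, g, h]) (by simp [Fin.forall_fin_succ, *]) hM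
  have G : ∀ q : (Unit ⊕ β → ℕ) → ℤ, IsPoly q → ∃ R : M → M → (Unit ⊕ β → M) → Prop,
      (∀ {γ} {f g : (γ → M) → M} (s : Unit ⊕ β → γ), TD c f → TD c g → SD c rel fun v => R (f v) (g v) fun i => v (s i)) ∧
      (∀ x y v, R x y v → ∃ m n : ℕ, x = a ^ m ∧ y = a ^ n ∧ q (fun i => δ (v i)) = m - n) ∧
      ∀ t : Unit ⊕ β → ℕ, ∃ x y, R x y fun i => a ^ t i := fun q hq => by
    induction hq with
    | proj i =>
      refine ⟨fun x y v => (∃ n, v i = a ^ n) ∧ x = v i ∧ y = 1, fun s hf hg => .and (SD.sub (F := fun _ v => v (s i))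
        (fun _ => .var _) hN) (.and (eq hf (.var _)) (eq hg .one)), ?_, fun t => ⟨_, _, ⟨_, rfl⟩, rfl, rfl⟩⟩
      rintro _ _ v ⟨⟨n, h⟩, rfl, rfl⟩
      exact ⟨n, 0, h, by simp, by simp [h, hδ]⟩
    | const n =>
      exact ⟨fun x y _ => x = a ^ n.toNat ∧ y = a ^ (-n).toNat, fun s hf hg => .and (eq hf (ta.pow _)) (eq hg (ta.pow _)),
        fun _ _ _ h => ⟨_, _, h.1, h.2, by simp⟩, fun _ => ⟨_, _, rfl, rfl⟩⟩
    | sub _ _ i j =>
      obtain ⟨R, r1, r2, r3⟩ := i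
      obtain ⟨T, t1, t2, t3⟩ := j
      refine ⟨fun x y v => ∃ x1 y1 x2 y2, R x1 y1 v ∧ T x2 y2 v ∧ x = x1 * y2 ∧ y = y1 * x2, fun s hf hg => ?_, ?_, fun t => ?_⟩
      · repeat' first | apply SD.ex | apply SD.and | apply eq | apply r1 | apply t1 | apply TD.var | apply TD.mul | apply hf.re | apply hg.re
      · rintro _ _ v ⟨_, _, _, _, h, k, rfl, rfl⟩
        obtain ⟨m, n, rfl, rfl, h'⟩ := r2 _ _ _ h
        obtain ⟨m', n', rfl, rfl, k'⟩ := t2 _ _ _ k
        exact ⟨m + n', n + m', (pow_add ..).symm, (pow_add ..).symm, by simp only [h', k']; push_cast; ring⟩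
      · obtain ⟨_, _, h⟩ := r3 t
        obtain ⟨_, _, k⟩ := t3 t
        exact ⟨_, _, _, _, _, _, h, k, rfl, rfl⟩
    | mul _ _ i j =>
      obtain ⟨R, r1, r2, r3⟩ := i
      obtain ⟨T, t1, t2, t3⟩ := j
      refine ⟨fun x y v => ∃ x1 y1 x2 y2 z1 z2 z3 z4, R x1 y1 v ∧ T x2 y2 v ∧ Mu x1 x2 z1 ∧ Mu y1 y2 z2 ∧ Mu x1 y2 z3 ∧ Mu y1 x2 z4 ∧
        x = z1 * z2 ∧ y = z3 * z4, fun s hf hg => ?_, ?_, fun t => ?_⟩
      · repeat' first | apply SD.ex | apply SD.and | apply eq | apply mu | apply r1 | apply t1 | apply TD.var | apply TD.mul | apply hf.re | apply hg.re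
      · rintro _ _ v ⟨_, _, _, _, _, _, _, _, h, k, h1, h2, h3, h4, rfl, rfl⟩
        obtain ⟨m, n, rfl, rfl, h'⟩ := r2 _ _ _ h
        obtain ⟨m', n', rfl, rfl, k'⟩ := t2 _ _ _ k
        rw [hm] at h1 h2 h3 h4
        exact ⟨m * m' + n * n', m * n' + n * m', by rw [h1, h2, pow_add], by rw [h3, h4, pow_add], by simp only [h', k']; push_cast; ring⟩
      · obtain ⟨_, _, h⟩ := r3 t
        obtain ⟨_, _, k⟩ := t3 t
        obtain ⟨m, n, rfl, rfl, -⟩ := r2 _ _ _ h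
        obtain ⟨m', n', rfl, rfl, -⟩ := t2 _ _ _ k
        exact ⟨_, _, _, _, _, _, _, _, _, _, h, k, (hm ..).2 rfl, (hm ..).2 rfl, (hm ..).2 rfl, (hm ..).2 rfl, rfl, rfl⟩
  obtain ⟨R, r1, r2, r3⟩ := G p p.isPoly
  obtain ⟨γ, E, hE⟩ : SD c rel fun v : Unit ⊕ β → M => ∃ x, R x x v := .ex (r1 some (.var _) (.var _))
  let vs : List ((Unit ⊕ β) ⊕ γ) := inl (inl ()) :: (E.flatMap fun e => e.2.1 ++ e.2.2).filterMap Sum.getRight?
  obtain ⟨ix, i0, i1⟩ : ∃ ix : (Unit ⊕ β) ⊕ γ → ℕ, ix (inl (inl ())) = 0 ∧ ∀ x ∈ vs, vs[ix x]? = some x :=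
    ⟨fun x => @List.idxOf _ instBEqOfDecidableEq x vs, by simp [vs], fun x h => @List.getElem?_idxOf _ instBEqOfDecidableEq _ _ _ h⟩
  let F := sb (fun x => [inr (ix x)]) E
  have pr : Primrec fun n => (k0, [inr 0], (List.replicate n (u.map inl)).flatten) :: F :=
    Primrec.list_cons.comp ((Primrec.const _).pair ((Primrec.const _).pair (Primrec.list_flatten.comp
      ((Primrec.list_map Primrec.list_range (Primrec.const (u.map inl)).to₂).of_eq (by simp))))) (.const _)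
  obtain ⟨φ, hφ, e⟩ := ComputablePred.computable_iff.1 hc
  refine hS (ComputablePred.computable_iff.2 ⟨_, hφ.comp pr.to_comp, funext fun n => ?_⟩)
  rw [← congrFun e]
  have z : ∀ σ : ℕ → M, Sol c rel σ ((k0, [inr 0], (List.replicate n (u.map inl)).flatten) :: F) ↔
      σ 0 = a ^ n ∧ Sol c rel (fun x => σ (ix x)) E := fun σ => by
    rw [← sol_sb (fun x => [inr (ix x)]) σ _ (by simp [ev])]
    refine List.forall_mem_cons.trans (and_congr_left' ?_)
    simp [hk, ev, List.prod_flatten, ← ha, Function.comp_def]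
  refine propext ((hp fun _ => n).trans ⟨fun ⟨t, ht⟩ => ?_, fun ⟨σ, h⟩ => ?_⟩)
  · obtain ⟨x, y, h⟩ := r3 (Sum.elim (fun _ => n) t)
    obtain ⟨m, l, rfl, rfl, k⟩ := r2 _ _ _ h
    obtain rfl : m = l := by simp only [hδ] at k; have := ht.symm.trans k; omega
    obtain ⟨s, hs⟩ := (hE _).1 ⟨_, h⟩
    refine ⟨fun k => Sum.elim (fun i => a ^ Sum.elim (fun _ => n) t i) s (vs.getD k (inl (inl ()))), (z _).2 ⟨rfl, fun e he => ?_⟩⟩
    convert hs e he using 1 <;> refine congrArg _ (List.map_congr_left ?_) <;> rintro (x | x) hx <;> try rfl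
    all_goals
      have : x ∈ vs := List.mem_cons_of_mem _ (List.mem_filterMap.2 ⟨inr x, List.mem_flatMap.2 ⟨e, he, by simp [hx]⟩, rfl⟩)
      simp [i1 x this]
  · obtain ⟨h, k⟩ := (z σ).1 h
    obtain ⟨x, r⟩ := (hE fun i => σ (ix (inl i))).2 ⟨fun i => σ (ix (inr i)), by convert k using 1; ext (_ | _) <;> rfl⟩
    obtain ⟨m, l, rfl, b, k⟩ := r2 _ _ _ r
    refine ⟨fun i => δ (σ (ix (inl (inr i)))), ?_⟩
    rw [← inj _ _ b, sub_self] at k
    convert k using 2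
    ext (_ | _) <;> simp [i0, h, hδ]

end Pool.Agent.Lib.H10
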