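import Mathlib
import Pool.Agent.Lib.helper22.H10c

namespace Pool.Agent.Lib.H10

open Sum

variable {C K M : Type} [Monoid M] {c : C → M} {rel : K → M → M → Prop}

/-- one fixed finite system with an undecidable set of solvable parameter values -/
theorem exists_sys (k0 : K) (hk : ∀ x y, rel k0 x y ↔ x = y) (u : List C) {a : M}
    (ha : (u.map c).prod = a) (inj : ∀ m n : ℕ, a ^ m = a ^ n → m = n)
    (hN : SD c rel fun v : Unit → M => ∃ n, v () = a ^ n) {Mu : M → M → M → Prop}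
    (hM : SD c rel fun v : Fin 3 → M => Mu (v 0) (v 1) (v 2)) (hm : ∀ (x y : ℕ) z, Mu (a ^ x) (a ^ y) z ↔ z = a ^ (x * y)) :
    ∃ (N : ℕ) (E : List (K × List (C ⊕ Fin (N + 1)) × List (C ⊕ Fin (N + 1)))),
      ¬ ComputablePred fun n : ℕ => ∃ σ, σ 0 = a ^ n ∧ Sol c rel σ E := by
  classical
  obtain ⟨S, hS, β, p, hp⟩ := exists_dioph
  let δ : M → ℕ := Function.invFun (a ^ ·)
  have hδ : ∀ n, δ (a ^ n) = n := Function.leftInverse_invFun inj
  have eq : ∀ {γ} {f g : (γ → M) → M}, TD c f → TD c g → SD c rel fun v => f v = g v :=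
    fun h k => (SD.atom k0 h k).of_iff fun _ => hk _ _
  have ta : ∀ {γ}, TD c fun _ : γ → M => a := ⟨u.map inl, by simp [ev, ← ha, Function.comp_def]⟩
  have mu : ∀ {γ} {f g h : (γ → M) → M}, TD c f → TD c g → TD c h → SD c rel fun v => Mu (f v) (g v) (h v) :=
    fun {γ f g h} a b d => SD.sub (F := ![f, g, h]) (by simp [Fin.forall_fin_succ, *]) hM
  have G : ∀ q : (Unit ⊕ β → ℕ) → ℤ, IsPoly q → ∃ R : M → M → (Unit ⊕ β → M) → Prop,
      (∀ {γ} {f g : (γ → M) → M} (s : Unit ⊕ β → γ), TD c f → TD c g → SD c rel fun v => R (f v) (g v) fun i => v (s i)) ∧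
      (∀ x y v, R x y v → ∃ m n : ℕ, x = a ^ m ∧ y = a ^ n ∧ q (fun i => δ (v i)) = m - n) ∧
      ∀ t : Unit ⊕ β → ℕ, ∃ x y, R x y fun i => a ^ t i := fun q hq => by
    induction hq with
    | proj i =>
      refine ⟨fun x y v => (∃ n, v i = a ^ n) ∧ x = v i ∧ y = 1, fun s hf hg => .and (SD.sub (F := fun _ v => v (s i))
        (fun _ => .var _) hN) (.and (eq hf (.var _)) (eq hg .one)), ?_, fun t => ⟨_, _, ⟨_, rfl⟩, rfl, rfl⟩⟩
      rintro _ _ v ⟨⟨n, h⟩, rfl, rfl⟩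
      exact ⟨n, 0, h, by simp, by simp [h, hδ]⟩
    | const n =>
      exact ⟨fun x y _ => x = a ^ n.toNat ∧ y = a ^ (-n).toNat, fun s hf hg => .and (eq hf (ta.pow _)) (eq hg (ta.pow _)),
        fun _ _ _ h => ⟨_, _, h.1, h.2, by simp⟩, fun _ => ⟨_, _, rfl, rfl⟩⟩
    | sub _ _ i j =>
      obtain ⟨R, r1, r2, r3⟩ := i
      obtain ⟨T, t1, t2, t3⟩ := j
      refine ⟨fun x y v => ∃ x1 y1 x2 y2, R x1 y1 v ∧ T x2 y2 v ∧ x = x1 * y2 ∧ y = y1 * x2, fun s hf hg => ?_, ?_, fun t => ?_⟩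
      · repeat' first | apply SD.ex | apply SD.and | apply eq | apply r1 | apply t1 | apply TD.var | apply TD.mul | apply hf.re | apply hg.re
      · rintro _ _ v ⟨_, _, _, _, h, k, rfl, rfl⟩
        obtain ⟨m, n, rfl, rfl, h'⟩ := r2 _ _ _ h
        obtain ⟨m', n', rfl, rfl, k'⟩ := t2 _ _ _ k
        exact ⟨m + n', n + m', (pow_add ..).symm, (pow_add ..).symm, by simp only [h', k']; push_cast; ring⟩
      · obtain ⟨_, _, h⟩ := r3 t
        obtain ⟨_, _, k⟩ := t3 t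
        exact ⟨_, _, _, _, _, _, h, k, rfl, rfl⟩
    | mul _ _ i j =>
      obtain ⟨R, r1, r2, r3⟩ := i
      obtain ⟨T, t1, t2, t3⟩ := j
      refine ⟨fun x y v => ∃ x1 y1 x2 y2 z1 z2 z3 z4, R x1 y1 v ∧ T x2 y2 v ∧ Mu x1 x2 z1 ∧ Mu y1 y2 z2 ∧ Mu x1 y2 z3 ∧ Mu y1 x2 z4 ∧
        x = z1 * z2 ∧ y = z3 * z4, fun s hf hg => ?_, ?_, fun t => ?_⟩
      · repeat' first | apply SD.ex | apply SD.and | apply eq | apply mu | apply r1 | apply t1 | apply TD.var | apply TD.mul | apply hf.re | apply hg.re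
      · rintro _ _ v ⟨_, _, _, _, _, _, _, _, h, k, h1, h2, h3, h4, rfl, rfl⟩
        obtain ⟨m, n, rfl, rfl, h'⟩ := r2 _ _ _ h
        obtain ⟨m', n', rfl, rfl, k'⟩ := t2 _ _ _ k
        rw [hm] at h1 h2 h3 h4
        exact ⟨m * m' + n * n', m * n' + n * m', by rw [h1, h2, pow_add], by rw [h3, h4, pow_add], by simp only [h', k']; push_cast; ring⟩
      · obtain ⟨_, _, h⟩ := r3 t
        obtain ⟨_, _, k⟩ := t3 t
        obtain ⟨m, n, rfl, rfl, -⟩ := r2 _ _ _ h
        obtain ⟨m', n', rfl, rfl, -⟩ := t2 _ _ _ k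
        exact ⟨_, _, _, _, _, _, _, _, _, _, h, k, (hm ..).2 rfl, (hm ..).2 rfl, (hm ..).2 rfl, (hm ..).2 rfl, rfl, rfl⟩
  obtain ⟨R, r1, r2, r3⟩ := G p p.isPoly
  obtain ⟨γ, E, hE⟩ : SD c rel fun v : Unit ⊕ β → M => ∃ x, R x x v := .ex (r1 some (.var _) (.var _))
  let vs : List ((Unit ⊕ β) ⊕ γ) := (E.flatMap fun e => e.2.1 ++ e.2.2).filterMap Sum.getRight?
  obtain ⟨ix, i0, i1⟩ : ∃ ix : (Unit ⊕ β) ⊕ γ → Fin (vs.length + 1), ix (inl (inl ())) = 0 ∧
      ∀ x ∈ vs, (inl (inl ()) :: vs).get (ix x) = x := by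
    have : ∀ x, ∃ i : Fin (vs.length + 1), (x = inl (inl ()) → i = 0) ∧ (x ∈ vs → (inl (inl ()) :: vs).get i = x) := fun x => by
      by_cases q : x = inl (inl ())
      · exact ⟨0, fun _ => rfl, fun _ => q.symm⟩
      by_cases h : x ∈ vs
      · exact (List.get_of_mem (List.mem_cons_of_mem (inl (inl ())) h)).imp fun i e => ⟨fun z => (q z).elim, fun _ => e⟩
      · exact ⟨0, fun _ => rfl, fun z => (h z).elim⟩
    choose ix h using this
    exact ⟨ix, (h _).1 rfl, fun x => (h x).2⟩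
  refine ⟨_, sb (fun x => [inr (ix x)]) E, ?_⟩
  convert hS using 3 with n
  have z : ∀ σ : Fin (vs.length + 1) → M, Sol c rel σ (sb (fun x => [inr (ix x)]) E) ↔ Sol c rel (fun x => σ (ix x)) E :=
    fun σ => sol_sb _ _ _ (by simp [ev]) _
  refine Iff.symm ((hp fun _ => n).trans ⟨fun ⟨t, ht⟩ => ?_, fun ⟨σ, h, k⟩ => ?_⟩)
  · obtain ⟨x, y, h⟩ := r3 (Sum.elim (fun _ => n) t)
    obtain ⟨m, l, rfl, rfl, k⟩ := r2 _ _ _ h
    obtain rfl : m = l := by simp only [hδ] at k; have := ht.symm.trans k; omega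
    obtain ⟨s, hs⟩ := (hE _).1 ⟨_, h⟩
    refine ⟨fun k => Sum.elim (fun i => a ^ Sum.elim (fun _ => n) t i) s ((inl (inl ()) :: vs).get k), rfl, (z _).2 fun e he => ?_⟩
    convert hs e he using 1 <;> refine congrArg _ (List.map_congr_left ?_) <;> rintro (x | x) hx <;> try rfl
    all_goals
      have : x ∈ vs := List.mem_filterMap.2 ⟨inr x, List.mem_flatMap.2 ⟨e, he, by simp [hx]⟩, rfl⟩
      simp only [Sum.elim_inr, i1 x this]
  · rw [z] at k
    obtain ⟨x, r⟩ := (hE fun i => σ (ix (inl i))).2 ⟨fun i => σ (ix (inr i)), by convert k using 1; ext (_ | _) <;> rfl⟩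
    obtain ⟨m, l, rfl, b, k⟩ := r2 _ _ _ r
    refine ⟨fun i => δ (σ (ix (inl (inr i)))), ?_⟩
    rw [← inj _ _ b, sub_self] at k
    convert k using 2
    ext (_ | _) <;> simp [i0, h, hδ]

/-- `true`: the second entry is the square of the first; `false`: equality -/
def sq : Bool → Multiplicative ℤ → Multiplicative ℤ → Prop
  | true, x, y => x.toAdd * x.toAdd = y.toAdd
  | false, x, y => x = y

/-- a fixed system of linear equations and squarings over the integers with undecidable parameter set -/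
theorem exists_sq : ∃ (N : ℕ) (E : List (Bool × List (Unit ⊕ Fin (N + 1)) × List (Unit ⊕ Fin (N + 1)))),
    ¬ ComputablePred fun n : ℕ => ∃ σ : Fin (N + 1) → ℤ, σ 0 = n ∧ ∀ e ∈ E, cond e.1 (e.2.1.map (Sum.elim 1 σ)).sum 1 *
      (e.2.1.map (Sum.elim 1 σ)).sum = (e.2.2.map (Sum.elim 1 σ)).sum := by
  have eq : ∀ {γ} {f g : (γ → Multiplicative ℤ) → Multiplicative ℤ}, TD (fun _ : Unit => .ofAdd 1) f → TD (fun _ : Unit => .ofAdd 1) g →
    SD (fun _ : Unit => .ofAdd 1) sq fun v => f v = g v := SD.atom false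
  have h1 : ∀ x : Multiplicative ℤ, (∃ a b c d a' b' c' d', sq true a a' ∧ sq true b b' ∧ sq true c c' ∧ sq true d d' ∧
      x = a' * b' * c' * d') ↔ ∃ n : ℕ, x = .ofAdd 1 ^ n := fun x => by
    simp only [sq, Multiplicative.exists, toAdd_ofAdd, exists_and_left, exists_eq_left']
    constructor
    · rintro ⟨a, b, c, d, h⟩
      refine ⟨(a * a + b * b + c * c + d * d).toNat, h.trans (Multiplicative.toAdd.injective ?_)⟩
      simp
      nlinarith
    · rintro ⟨n, h⟩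
      obtain ⟨a, b, c, d, rfl⟩ := Nat.sum_four_squares n
      exact ⟨a, b, c, d, h.trans (Multiplicative.toAdd.injective (by simp [pow_two]))⟩
  have h2 : ∀ (x y : ℕ) (z : Multiplicative ℤ), (∃ a b d, sq true (.ofAdd 1 ^ x) a ∧ sq true (.ofAdd 1 ^ y) b ∧
      sq true (.ofAdd 1 ^ x * .ofAdd 1 ^ y) d ∧ d = a * b * z * z) ↔ z = .ofAdd 1 ^ (x * y) := fun x y z => by
    simp only [sq, Multiplicative.exists, toAdd_ofAdd, exists_and_left, exists_eq_left']
    rw [← Multiplicative.toAdd.injective.eq_iff, ← Multiplicative.toAdd.injective.eq_iff]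
    simp
    constructor <;> intro <;> linarith
  obtain ⟨N, E, h⟩ := exists_sys (c := fun _ : Unit => Multiplicative.ofAdd (1 : ℤ)) (rel := sq) false (fun _ _ => .rfl) [()]
    (a := .ofAdd 1) (by simp) (fun m n e => by simpa using congrArg Multiplicative.toAdd e)
    (.of_iff (P := fun v => ∃ a b c d a' b' c' d', sq true a a' ∧ sq true b b' ∧ sq true c c' ∧ sq true d d' ∧ v () = a' * b' * c' * d')
      (by repeat' first | apply SD.ex | apply SD.and | apply SD.atom true | apply eq | apply TD.var | apply TD.mul) fun v => h1 _)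
    (Mu := fun X Y Z => ∃ a b d, sq true X a ∧ sq true Y b ∧ sq true (X * Y) d ∧ d = a * b * Z * Z)
    (by repeat' first | apply SD.ex | apply SD.and | apply SD.atom true | apply eq | apply TD.var | apply TD.mul) h2
  · refine ⟨N, E, ?_⟩
    convert h using 3 with n
    have e : ∀ (σ : Fin (N + 1) → ℤ) u, (ev (fun _ : Unit => Multiplicative.ofAdd (1 : ℤ)) (fun i => .ofAdd (σ i)) u).toAdd =
        (u.map (Sum.elim 1 σ)).sum := fun σ u => by
      induction u with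
      | nil => rfl
      | cons a u ih => cases a <;> simp_all [ev]
    have k : ∀ (σ : Fin (N + 1) → ℤ), (∀ e ∈ E, cond e.1 (e.2.1.map (Sum.elim 1 σ)).sum 1 *
        (e.2.1.map (Sum.elim 1 σ)).sum = (e.2.2.map (Sum.elim 1 σ)).sum) ↔
        Sol (fun _ : Unit => Multiplicative.ofAdd (1 : ℤ)) sq (fun i => .ofAdd (σ i)) E := fun σ =>
      forall₂_congr fun ⟨b, u, v⟩ _ => by cases b <;> simp [sq, ← e]
    simp only [k]
    exact ⟨fun ⟨σ, a, b⟩ => ⟨_, Multiplicative.toAdd.injective (by simpa using a), b⟩,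
      fun ⟨σ, a, b⟩ => ⟨fun i => (σ i).toAdd, by simp [a], b⟩⟩

end Pool.Agent.Lib.H10
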