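import Mathlib

namespace Pool.Agent.Lib.H10

variable {X Y C : Type} [AddCommGroup X] [AddCommGroup Y] [AddCommGroup C]

/-- generalised Heisenberg group of a bilinear map -/
@[ext] structure He (μ : X →ₗ[ℤ] Y →ₗ[ℤ] C) where
  x : X
  y : Y
  z : C

variable {μ : X →ₗ[ℤ] Y →ₗ[ℤ] C}

instance : Mul (He μ) := ⟨fun a b => ⟨a.x + b.x, a.y + b.y, a.z + b.z + μ a.x b.y⟩⟩
instance : One (He μ) := ⟨⟨0, 0, 0⟩⟩
instance : Inv (He μ) := ⟨fun a => ⟨-a.x, -a.y, μ a.x a.y - a.z⟩⟩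
@[simp] theorem He.mul_x (a b : He μ) : (a * b).x = a.x + b.x := rfl
@[simp] theorem He.mul_y (a b : He μ) : (a * b).y = a.y + b.y := rfl
@[simp] theorem He.mul_z (a b : He μ) : (a * b).z = a.z + b.z + μ a.x b.y := rfl
@[simp] theorem He.one_x : (1 : He μ).x = 0 := rfl
@[simp] theorem He.one_y : (1 : He μ).y = 0 := rfl
@[simp] theorem He.one_z : (1 : He μ).z = 0 := rfl
@[simp] theorem He.inv_x (a : He μ) : a⁻¹.x = -a.x := rfl
@[simp] theorem He.inv_y (a : He μ) : a⁻¹.y = -a.y := rfl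
@[simp] theorem He.inv_z (a : He μ) : a⁻¹.z = μ a.x a.y - a.z := rfl

instance : Group (He μ) := Group.ofLeftAxioms (fun a b c => by ext <;> simp <;> abel) (fun a => by ext <;> simp)
  fun a => by ext <;> simp

def He.i1 (μ : X →ₗ[ℤ] Y →ₗ[ℤ] C) : Multiplicative X →* He μ := .mk' (fun a => ⟨a.toAdd, 0, 0⟩) fun a b => by ext <;> simp
def He.i2 (μ : X →ₗ[ℤ] Y →ₗ[ℤ] C) : Multiplicative Y →* He μ := .mk' (fun a => ⟨0, a.toAdd, 0⟩) fun a b => by ext <;> simp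
def He.i3 (μ : X →ₗ[ℤ] Y →ₗ[ℤ] C) : Multiplicative C →* He μ := .mk' (fun a => ⟨0, 0, a.toAdd⟩) fun a b => by ext <;> simp

instance : Group.IsNilpotent (He μ) :=
  isNilpotent_of_ker_le_center (MonoidHom.mk' (fun a : He μ => Multiplicative.ofAdd (a.x, a.y)) fun _ _ => rfl) fun a h => by
    have h : (a.x, a.y) = 0 := h
    refine Subgroup.mem_center_iff.2 fun b => ?_
    ext <;> simp_all [add_comm]

theorem He.fg [Module.Finite ℤ X] [Module.Finite ℤ Y] [Module.Finite ℤ C] : Group.FG (He μ) := by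
  have := Module.Finite.iff_addGroup_fg.1 ‹Module.Finite ℤ X›
  have := Module.Finite.iff_addGroup_fg.1 ‹Module.Finite ℤ Y›
  have := Module.Finite.iff_addGroup_fg.1 ‹Module.Finite ℤ C›
  obtain ⟨S1, h1, f1⟩ := (Subgroup.fg_iff _).1 ((Group.fg_iff_subgroup_fg _).1 (Group.fg_range (He.i1 μ)))
  obtain ⟨S2, h2, f2⟩ := (Subgroup.fg_iff _).1 ((Group.fg_iff_subgroup_fg _).1 (Group.fg_range (He.i2 μ)))
  obtain ⟨S3, h3, f3⟩ := (Subgroup.fg_iff _).1 ((Group.fg_iff_subgroup_fg _).1 (Group.fg_range (He.i3 μ)))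
  refine Group.fg_iff.2 ⟨S1 ∪ S2 ∪ S3, eq_top_iff.2 fun a _ => ?_, (f1.union f2).union f3⟩
  rw [Subgroup.closure_union, Subgroup.closure_union, h1, h2, h3]
  convert Subgroup.mul_mem_sup (Subgroup.mul_mem_sup (MonoidHom.mem_range.2 ⟨Multiplicative.ofAdd a.x, rfl⟩) (MonoidHom.mem_range.2 ⟨Multiplicative.ofAdd a.y, rfl⟩))
    (MonoidHom.mem_range.2 ⟨Multiplicative.ofAdd (a.z - μ a.x a.y), rfl⟩)
  ext <;> simp [He.i1, He.i2, He.i3]

theorem He.mem_cl (p : X) (q : Y) (a : He μ) : a ∈ Subgroup.closure {⟨p, 0, 0⟩, ⟨0, q, 0⟩} ↔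
    ∃ k l m : ℤ, a = ⟨k • p, l • q, m • μ p q⟩ := by
  constructor
  · intro h
    induction h using Subgroup.closure_induction with
    | mem a h => rcases h with rfl | rfl; exacts [⟨1, 0, 0, by simp⟩, ⟨0, 1, 0, by simp⟩]
    | one => exact ⟨0, 0, 0, by ext <;> simp⟩
    | mul _ _ _ _ i j =>
      obtain ⟨k, l, m, rfl⟩ := i
      obtain ⟨k', l', m', rfl⟩ := j
      exact ⟨k + k', l + l', m + m' + l' * k, by ext <;> simp [add_smul, mul_smul]⟩
    | inv _ _ i =>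
      obtain ⟨k, l, m, rfl⟩ := i
      exact ⟨-k, -l, l * k - m, by ext <;> simp [sub_smul, mul_smul]⟩
  · rintro ⟨k, l, m, rfl⟩
    have a : He.i1 μ (.ofAdd p) ∈ Subgroup.closure {⟨p, 0, 0⟩, ⟨0, q, 0⟩} := Subgroup.subset_closure (.inl rfl)
    have b : He.i2 μ (.ofAdd q) ∈ Subgroup.closure {⟨p, 0, 0⟩, ⟨0, q, 0⟩} := Subgroup.subset_closure (.inr rfl)
    have c : He.i3 μ (.ofAdd (μ p q)) ∈ Subgroup.closure {⟨p, 0, 0⟩, ⟨0, q, 0⟩} := by
      convert mul_mem (mul_mem (mul_mem a b) (inv_mem a)) (inv_mem b)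
      ext <;> simp [He.i1, He.i2, He.i3]
    convert mul_mem (mul_mem (zpow_mem a k) (zpow_mem b l)) (zpow_mem c (m - l * k)) using 1
    simp only [← map_zpow]
    ext <;> simp [He.i1, He.i2, He.i3, sub_smul, mul_smul]

/-- every finitely generated group is a quotient of a free group whose first generators go to prescribed elements -/
theorem exists_gens {G : Type} [Group G] (h : Group.FG G) (l : List G) : ∃ (n : ℕ) (φ : FreeGroup (Fin (l.length + n)) →* G),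
    Function.Surjective φ ∧ ∀ i, φ (.of (Fin.castAdd n i)) = l.get i := by
  obtain ⟨S, hS⟩ := h.out
  refine ⟨S.card, FreeGroup.lift (Fin.addCases l.get fun i => S.equivFin.symm i), ?_, by simp⟩
  rw [← MonoidHom.range_eq_top, eq_top_iff, ← hS, Subgroup.closure_le]
  exact fun x hx => ⟨.of (Fin.natAdd _ (S.equivFin ⟨x, hx⟩)), by simp⟩

end Pool.Agent.Lib.H10
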