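import Mathlib
import Pool.Agent.Lib.helper22.Heis
import Pool.Agent.Lib.helper22.H10f

namespace Pool.Agent.Lib.H10

open Subgroup Sum
open scoped commutatorElement

section
variable {α β : Type} [Primcodable α] [Primcodable β]

/-- integer functions that are differences of primitive recursive functions -/
def LD (f : α → ℤ) : Prop := ∃ g h : α → ℕ, Primrec g ∧ Primrec h ∧ ∀ a, f a = g a - h a

theorem LD.comp {f : α → ℤ} {k : β → α} : LD f → Primrec k → LD fun b => f (k b)
  | ⟨_, _, a, b, c⟩, hk => ⟨_, _, a.comp hk, b.comp hk, fun _ => c _⟩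

theorem LD.add {f g : α → ℤ} : LD f → LD g → LD fun a => f a + g a
  | ⟨_, _, a, b, c⟩, ⟨_, _, d, e, f⟩ => ⟨_, _, Primrec.nat_add.comp a d, Primrec.nat_add.comp b e, fun x => by simp only [c, f]; push_cast; ring⟩

theorem LD.mul {f g : α → ℤ} : LD f → LD g → LD fun a => f a * g a
  | ⟨_, _, a, b, c⟩, ⟨_, _, d, e, f⟩ => ⟨_, _, Primrec.nat_add.comp (Primrec.nat_mul.comp a d) (Primrec.nat_mul.comp b e),
    Primrec.nat_add.comp (Primrec.nat_mul.comp a e) (Primrec.nat_mul.comp b d), fun x => by simp only [c, f]; push_cast; ring⟩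

theorem LD.fin [Finite α] (f : α → ℤ) : LD f :=
  ⟨fun a => (f a).toNat, fun a => (-f a).toNat, .dom_finite _, .dom_finite _, fun a => by dsimp only; omega⟩

theorem LD.sum {ι : Type} (s : Finset ι) {f : ι → α → ℤ} (h : ∀ i, LD (f i)) : LD fun a => ∑ i ∈ s, f i a := by
  classical
  induction s using Finset.induction_on with
  | empty => exact ⟨_, _, .const 0, .const 0, by simp⟩
  | insert i s hi ih => simpa only [Finset.sum_insert hi] using (h i).add ih

theorem LD.zero {f : α → ℤ} : LD f → PrimrecPred fun a => f a = 0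
  | ⟨_, _, a, b, c⟩ => (Primrec.eq.comp a b).of_eq fun x => by rw [c]; omega

theorem LD.rec {f : List α → ℤ} {H : α × List α → ℤ} (h0 : f [] = 0) (h1 : ∀ a w, f (a :: w) = H (a, w) + f w) : LD H → LD f
  | ⟨g, h, a, b, c⟩ => by
    have : ∀ g : α × List α → ℕ, Primrec g → Primrec fun w : List α => (List.recOn w 0 fun a w IH => g (a, w) + IH : ℕ) := fun g hg =>
      Primrec.list_rec .id (.const 0) (h := fun _ p => g (p.1, p.2.1) + p.2.2) (Primrec.nat_add.comp (hg.comp
        ((Primrec.fst.comp .snd).pair (Primrec.fst.comp (Primrec.snd.comp .snd)))) (Primrec.snd.comp (Primrec.snd.comp .snd))).to₂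
    refine ⟨_, _, this g a, this h b, fun w => ?_⟩
    induction w with
    | nil => simpa using h0
    | cons x w ih => simp only [h1, c, ih]; push_cast; ring

theorem LD.zero' {M : Type} [AddCommGroup M] [Module.Finite ℤ M] [Module.Free ℤ M] {f : α → M} (h : ∀ l : M →ₗ[ℤ] ℤ, LD fun a => l (f a)) :
    PrimrecPred fun a => f a = 0 := by
  let b := Module.Free.chooseBasis ℤ M
  refine (LD.sum Finset.univ fun i => (h (b.coord i)).mul (h (b.coord i))).zero.of_eq fun a => ?_
  rw [Finset.sum_eq_zero_iff_of_nonneg fun _ _ => mul_self_nonneg _]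
  simp [b.ext_elem_iff]

variable {X Y C : Type} [AddCommGroup X] [AddCommGroup Y] [AddCommGroup C] {μ : X →ₗ[ℤ] Y →ₗ[ℤ] C}

/-- the word problem of a generalised Heisenberg group is primitive recursive -/
theorem He.wp [Module.Finite ℤ X] [Module.Free ℤ X] [Module.Finite ℤ Y] [Module.Free ℤ Y] [Module.Finite ℤ C] [Module.Free ℤ C] [Finite α]
    (g : α → He μ) : PrimrecPred fun w : List α => (w.map g).prod = 1 := by
  have hx : ∀ l : X →ₗ[ℤ] ℤ, LD fun w : List α => l (w.map g).prod.x := fun l =>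
    LD.rec (by simp) (by simp) ((LD.fin fun a => l (g a).x).comp .fst)
  have hy : ∀ l : Y →ₗ[ℤ] ℤ, LD fun w : List α => l (w.map g).prod.y := fun l =>
    LD.rec (by simp) (by simp) ((LD.fin fun a => l (g a).y).comp .fst)
  have hz : ∀ l : C →ₗ[ℤ] ℤ, LD fun w : List α => l (w.map g).prod.z := fun l => by
    let b := Module.Free.chooseBasis ℤ Y
    refine LD.rec (by simp) (fun a w => ?_) (((LD.fin fun a => l (g a).z).comp .fst).add
      (LD.sum Finset.univ fun i => ((hy (b.coord i)).comp .snd).mul ((LD.fin fun a => l (μ (g a).x (b i))).comp .fst)))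
    conv_lhs => rw [List.map_cons, List.prod_cons, He.mul_z, ← b.sum_repr (w.map g).prod.y]
    simp only [map_add, map_sum, map_smul]
    simp [add_right_comm]
  exact ((LD.zero' hx).and ((LD.zero' hy).and (LD.zero' hz))).of_eq fun w => by simp [He.ext_iff]

theorem He.class2 (a b c : He μ) : ⁅⁅a, b⁆, c⁆ = 1 := by
  rw [commutatorElement_eq_one_iff_mul_comm]
  ext <;> simp [commutatorElement_def, add_comm]

end

theorem fg_le {H : Type} [Group H] {S : Set H} (hS : S.Finite) (hc : ∀ a ∈ S, ∀ b ∈ S, a * b = b * a) {B : Subgroup H}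
    (hB : B ≤ closure S) : B.FG := by
  letI := Subgroup.closureCommGroupOfComm hc
  have := hS.to_subtype
  have : Module.Finite ℤ (Additive (closure S)) := Module.Finite.iff_addGroup_fg.2 (GroupFG.iff_add_fg.1 inferInstance)
  have h := (Submodule.fg_iff_addSubgroup_fg _).1
    (IsNoetherian.noetherian (AddSubgroup.toIntSubmodule (B.subgroupOf (closure S)).toAddSubgroup))
  obtain ⟨T, h, k⟩ := (Subgroup.fg_iff _).1 ((Subgroup.fg_iff_add_fg _).2 h)
  exact (Subgroup.fg_iff _).2 ⟨_, by rw [← MonoidHom.map_closure, h, subgroupOf_map_subtype, inf_eq_left.2 hB], k.image (closure S).subtype⟩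

theorem lift_fg {F H : Type} [Group F] [Group H] (f : F →* H) (K : Subgroup F) (h : (K.map f).FG) :
    ∃ T : Set F, T.Finite ∧ T ⊆ K ∧ ∀ k ∈ K, ∃ t ∈ closure T, f k = f t := by
  obtain ⟨S, h, hS⟩ := (Subgroup.fg_iff _).1 h
  obtain ⟨T, a, b, rfl⟩ := Set.Finite.exists_subset_finite_image_eq hS (show S ⊆ f '' K from fun x hx => h.le (subset_closure hx))
  refine ⟨T, b, a, fun k hk => ?_⟩
  have := h.ge (mem_map_of_mem f hk)
  rw [← MonoidHom.map_closure] at this
  exact this.imp fun t ht => ⟨ht.1, ht.2.symm⟩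

/-- finitely generated groups of class two are finitely presented -/
theorem fp_class2 {X G : Type} [Finite X] [Group G] (hG : ∀ a b c : G, ⁅⁅a, b⁆, c⁆ = 1) (φ : FreeGroup X →* G) :
    φ.ker.IsFinitelyNormallyGenerated := by
  let R : Set (FreeGroup X) := Set.range fun p : X × X × X => ⁅⁅FreeGroup.of p.1, FreeGroup.of p.2.1⁆, FreeGroup.of p.2.2⁆
  let q := QuotientGroup.mk' (normalClosure R)
  let S : Set (FreeGroup X ⧸ normalClosure R) := Set.range fun p : X × X => ⁅q (.of p.1), q (.of p.2)⁆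
  have g : ∀ (H : Subgroup (FreeGroup X ⧸ normalClosure R)), (∀ x, q (.of x) ∈ H) → ∀ a, a ∈ H := fun H h a => by
    obtain ⟨a, rfl⟩ := QuotientGroup.mk'_surjective _ a
    exact (FreeGroup.closure_range_of X).ge.trans ((closure_le (H.comap q)).2 (Set.range_subset_iff.2 h)) (mem_top a)
  have c : closure S ≤ center _ := (closure_le _).2 <| Set.range_subset_iff.2 fun p => mem_center_iff.2 fun a =>
    (mem_centralizer_singleton_iff.1 (g (centralizer {⁅q (.of p.1), q (.of p.2)⁆}) (fun x => mem_centralizer_singleton_iff.2 <| by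
      rw [eq_comm, ← commutatorElement_eq_one_iff_mul_comm, ← map_commutatorElement, ← map_commutatorElement]
      exact (QuotientGroup.eq_one_iff _).2 (subset_normalClosure ⟨(p.1, p.2, x), rfl⟩)) a))
  have : (closure S).Normal := ⟨fun n h a => by rwa [mem_center_iff.1 (c h), mul_inv_cancel_right]⟩
  let r := (QuotientGroup.mk' (closure S)).comp q
  obtain ⟨T, t1, t2, t3⟩ := lift_fg r φ.ker (fg_le (Set.finite_range fun x => r (.of x)) (by
    rintro _ ⟨x, rfl⟩ _ ⟨y, rfl⟩
    rw [← commutatorElement_eq_one_iff_mul_comm, ← map_commutatorElement, MonoidHom.comp_apply, map_commutatorElement]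
    exact (QuotientGroup.eq_one_iff _).2 (subset_closure ⟨(x, y), rfl⟩)) (by
    rw [Set.range_comp' r, ← MonoidHom.map_closure, FreeGroup.closure_range_of]
    exact map_mono le_top))
  obtain ⟨U, u1, u2, u3⟩ := lift_fg q (φ.ker ⊓ r.ker) (fg_le (S := S) (Set.finite_range _)
    (fun a h b _ => (mem_center_iff.1 (c (subset_closure h)) b).symm) (by
      rintro _ ⟨a, h, rfl⟩
      exact (QuotientGroup.eq_one_iff _).1 h.2))
  refine ⟨R ∪ T ∪ U, ((Set.finite_range _).union t1).union u1, le_antisymm (normalClosure_le_normal (Set.union_subset (Set.union_subset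
    (Set.range_subset_iff.2 fun p => by simp [hG]) t2) fun x h => (u2 h).1)) fun k hk => ?_⟩
  obtain ⟨t, ht, e⟩ := t3 k hk
  obtain ⟨u, hu, e'⟩ := u3 (t⁻¹ * k) ⟨φ.ker.mul_mem (φ.ker.inv_mem ((closure_le _).2 t2 ht)) hk, by simp [e]⟩
  have := mul_mem (mul_mem (closure_le_normalClosure.trans (normalClosure_mono (Set.subset_union_right.trans Set.subset_union_left)) ht)
    (closure_le_normalClosure.trans (normalClosure_mono Set.subset_union_right) hu))
    (normalClosure_mono (Set.subset_union_left.trans (Set.subset_union_left (s := R ∪ T) (t := U))) (QuotientGroup.eq.1 e'.symm))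
  simpa using this

section
variable {W I : Type} (B : (W → ℤ) →ₗ[ℤ] (W → ℤ) →ₗ[ℤ] I → ℤ) (S : (W → ℤ) →ₗ[ℤ] I → ℤ)

def mu : (W → ℤ) × ℤ × ℤ →ₗ[ℤ] (W → ℤ) × ℤ × ℤ →ₗ[ℤ] (I → ℤ) × ℤ × ℤ :=
  LinearMap.mk₂ ℤ (fun x y => (B x.1 y.1 + B y.1 x.1, x.2.1 * y.2.1, x.2.2 * y.2.2)) (by simp [add_mul, add_add_add_comm])
    (by simp [mul_assoc, -zsmul_eq_mul]) (by simp [mul_add, add_add_add_comm]) (by simp [mul_left_comm, -zsmul_eq_mul])

theorem mu_ap (x y) : mu B x y = (B x.1 y.1 + B y.1 x.1, x.2.1 * y.2.1, x.2.2 * y.2.2) := rfl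

def el (j : Fin 3) (u : W → ℤ) (c : ℤ) : He (mu B) :=
  ![⟨(0, c, 0), (-u, 0, 0), (0, -c, 0)⟩, ⟨(u, -c, c), (u, 0, 0), (B u u - S u, 0, -c)⟩, ⟨(-u, 0, -c), 0, 0⟩] j

def mk (b : Bool) : He (mu B) := cond b ⟨(0, -1, 0), (0, 0, 1), 0⟩ ⟨0, (0, 1, 0), 0⟩

theorem el_mul (j u v c d) : el B S j (u + v) (c + d) = el B S j u c * el B S j v d := by
  fin_cases j <;> ext <;> simp [el, mu_ap] <;> ring

variable [DecidableEq W]

def gen : (Fin 3 × W × Bool) ⊕ Bool → He (mu B) := Sum.elim (fun p => el B S p.1 (Pi.single p.2.1 (cond p.2.2 1 (-1))) 1) (mk B)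

theorem mem_iff [Finite W] (t : I → ℤ) : (⟨(0, -1, 0), (0, 1, 1), (t, 0, 0)⟩ : He (mu B)) ∈ Submonoid.closure (Set.range (gen B S)) ↔
    ∃ u, B u u - S u = t := by
  constructor
  · intro h
    have : ∀ r ∈ Submonoid.closure (Set.range (gen B S)), (0 ≤ r.y.2.1 ∧ 0 ≤ r.y.2.2 ∧ (r.y.2.1 ≤ 1 → r.z.2.1 ≤ 0) ∧ (r.y.2.2 ≤ 1 → r.z.2.2 ≤ 0)) ∧
        (r.y.2.1 ≤ r.y.2.2 → r.y.2.2 ≤ 1 → r.z.2.1 = 0 → r.z.2.2 = 0 → ∃ u v, r.y.1 = u - v ∧ (r.y.2.1 = 0 → v = 0) ∧ (r.y.2.2 = 0 → u = 0) ∧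
          r.z.1 = B u u - S u) := fun r hr => by
      induction hr using Submonoid.closure_induction_left with
      | one => exact ⟨by simp, fun _ _ _ _ => ⟨0, 0, by simp⟩⟩
      | mul_left x hx r _ ih =>
        obtain ⟨⟨a, b, c, d⟩, ih⟩ := ih
        obtain ⟨⟨j, w, s⟩ | _ | _, rfl⟩ := hx
        · generalize e : Pi.single (M := fun _ => ℤ) w (cond s 1 (-1)) = x
          fin_cases j <;> simp [gen, e, el, mu_ap] <;> refine ⟨by omega, fun h1 h2 h3 h4 => ?_⟩ <;>
            obtain ⟨u, v, i1, i2, i3, i4⟩ := ih h1 h2 (by omega) (by omega)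
          · exact ⟨u, v + x, by rw [i1]; abel, by omega, i3, i4⟩
          · exact ⟨x + u, v, by rw [i1]; abel, i2, by omega, by simp [i1, i4, i2 (by omega)]; abel⟩
          · exact ⟨u, v, i1, i2, i3, by simp [i1, i4, i2 (by omega), i3 (by omega)]⟩
        · simp [gen, mk, mu_ap]
          refine ⟨by omega, fun h1 h2 h3 h4 => ?_⟩
          obtain ⟨u, v, i1, i2, i3, i4⟩ := ih (by omega) h2 h3 h4
          exact ⟨u, v, i1, by omega, i3, i4⟩
        · simp [gen, mk, mu_ap]
          refine ⟨by omega, fun h1 h2 h3 h4 => ?_⟩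
          obtain ⟨u, v, i1, i2, i3, i4⟩ := ih (by omega) (by omega) (by omega) h4
          exact ⟨u, v, i1, i2, by omega, i4⟩
    obtain ⟨u, -, -, -, -, h⟩ := (this _ h).2 le_rfl le_rfl rfl rfl
    exact ⟨u, h.symm⟩
  · rintro ⟨u, rfl⟩
    obtain ⟨c, h⟩ : ∃ c, ∀ j, el B S j u c ∈ Submonoid.closure (Set.range (gen B S)) := by
      have z : ∀ j, el B S j 0 0 = 1 := fun j => by fin_cases j <;> ext <;> simp [el]
      induction u using Pi.single_induction with
      | zero => exact ⟨0, fun j => z j ▸ one_mem _⟩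
      | add f g a b => exact a.elim fun c a => b.elim fun d b => ⟨c + d, fun j => el_mul B S .. ▸ mul_mem (a j) (b j)⟩
      | single w k =>
        have p : ∀ j s, el B S j (Pi.single w (cond s 1 (-1))) 1 ∈ Submonoid.closure (Set.range (gen B S)) :=
          fun j s => Submonoid.subset_closure ⟨inl (j, w, s), rfl⟩
        induction k with
        | zero => exact ⟨0, fun j => by simp [z]⟩
        | succ k ih => exact ih.elim fun c h => ⟨c + 1, fun j => by rw [Pi.single_add, el_mul]; exact mul_mem (h j) (p j true)⟩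
        | pred k ih => exact ih.elim fun c h => ⟨c + 1, fun j => by rw [sub_eq_add_neg, Pi.single_add, el_mul]; exact mul_mem (h j) (p j false)⟩
    have m : ∀ b, mk B b ∈ Submonoid.closure (Set.range (gen B S)) := fun b => Submonoid.subset_closure ⟨inr b, rfl⟩
    convert mul_mem (mul_mem (mul_mem (mul_mem (h 0) (m false)) (h 1)) (m true)) (h 2) using 1
    ext <;> simp [el, mk, mu_ap]

end

/-- a finitely generated submonoid of a generalised Heisenberg group with undecidable membership -/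
theorem exists_sub : ∃ (W I T : Type) (_ : Finite W) (_ : Finite I) (_ : Finite T) (B : (W → ℤ) →ₗ[ℤ] (W → ℤ) →ₗ[ℤ] I → ℤ)
    (g : T → He (mu B)) (a b : He (mu B)), ¬ ComputablePred fun n : ℕ => a * b ^ n ∈ Submonoid.closure (Set.range g) := by
  obtain ⟨N, E, hE⟩ := exists_sq
  let s : List (Unit ⊕ Fin (N + 1)) → (Unit ⊕ Fin (N + 1) → ℤ) →ₗ[ℤ] ℤ := fun l => (l.map LinearMap.proj).sum
  have hs : ∀ l u, s l u = (l.map u).sum := fun l u => by induction l <;> simp_all [s]
  let B : (Unit ⊕ Fin (N + 1) → ℤ) →ₗ[ℤ] (Unit ⊕ Fin (N + 1) → ℤ) →ₗ[ℤ] Fin E.length ⊕ Bool → ℤ :=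
    LinearMap.mk₂ ℤ (fun x y => Sum.elim (fun i => s (cond E[i].1 E[i].2.1 [inl ()]) x * s E[i].2.1 y) 0)
      (fun _ _ _ => by ext (_ | _) <;> simp [add_mul]) (fun _ _ _ => by ext (_ | _) <;> simp [mul_assoc, -zsmul_eq_mul])
      (fun _ _ _ => by ext (_ | _) <;> simp [mul_add]) fun c _ _ => by ext (_ | _) <;> simp [mul_left_comm c, -zsmul_eq_mul]
  let S : (Unit ⊕ Fin (N + 1) → ℤ) →ₗ[ℤ] Fin E.length ⊕ Bool → ℤ :=
    LinearMap.pi (Sum.elim (fun i => s E[i].2.2) fun b => -LinearMap.proj (cond b (inr 0) (inl ())))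
  refine ⟨_, _, _, inferInstance, inferInstance, inferInstance, B, gen B S, ⟨(0, -1, 0), (0, 1, 1), (Pi.single (inr false) 1, 0, 0)⟩,
    He.i3 _ (.ofAdd (Pi.single (inr true) 1, 0, 0)), fun h => hE (cast (congrArg _ (funext fun n => ?_)) h)⟩
  rw [show ∀ a b : He (mu B), a = _ → b = _ → a * b ^ n = ⟨(0, -1, 0), (0, 1, 1), (Sum.elim 0 fun b => cond b n 1, 0, 0)⟩ from ?_, mem_iff]
  · simp only [funext_iff, Sum.forall, Bool.forall_bool, B, S, hs]
    simp only [LinearMap.mk₂_apply, Pi.sub_apply, elim_inl, elim_inr, LinearMap.pi_apply, hs, Pi.zero_apply, sub_eq_zero, LinearMap.neg_apply,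
      LinearMap.proj_apply, Bool.cond_true, Bool.cond_false, zero_sub, neg_neg]
    refine propext ⟨fun ⟨u, h, h1, h2⟩ => ⟨u ∘ inr, h2, fun e he => ?_⟩, fun ⟨σ, h0, h⟩ => ⟨Sum.elim 1 σ, fun i => ?_, rfl, h0⟩⟩
    · obtain ⟨i, rfl⟩ := List.get_of_mem he
      have := h i
      rw [show Sum.elim (1 : Unit → ℤ) (u ∘ inr) = u by ext (_ | _) <;> simp [h1]]
      cases z : E[i.1].1 <;> simpa [z, h1] using this
    · have := h _ (List.getElem_mem i.2)
      cases z : E[i.1].1 <;> simpa [z] using this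
  · rfl
  · rfl
  · rintro _ _ rfl rfl
    rw [← map_pow]
    ext (_ | _ | _) <;> simp [He.i3]

end Pool.Agent.Lib.H10
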