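import Mathlib
import Pool.Agent.Lib.helper22.Munn

namespace Pool.Agent.Lib.Benois

open FreeGroup hiding map_mul map_one map_inv
open Pool.Agent.Lib.Munn

def subs {α : Type} (l : List α) : List (List α) := l.foldr (fun a ih => ih ++ ih.map (a :: ·)) [[]]

theorem filter_subs {α : Type} (p : α → Bool) (l : List α) : l.filter p ∈ subs l := by
  induction l with
  | nil => simp [subs]
  | cons a l ih =>
    rw [show subs (a :: l) = subs l ++ (subs l).map (a :: ·) from rfl, List.filter_cons]
    split_ifs <;> simp [ih]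

theorem subs_sub {α : Type} {l x : List α} (h : x ∈ subs l) : x ⊆ l := by
  induction l generalizing x with
  | nil => simpa [subs] using h
  | cons a l ih =>
    rw [show subs (a :: l) = subs l ++ (subs l).map (a :: ·) from rfl, List.mem_append, List.mem_map] at h
    obtain h | ⟨x, h, rfl⟩ := h
    exacts [List.subset_cons_of_subset _ (ih h), List.cons_subset_cons _ (ih h)]

theorem pr_subs {α : Type} [Primcodable α] : Primrec (subs : List α → _) :=
  Primrec.list_foldr (h := fun _ (p : α × List (List α)) => p.2 ++ p.2.map (p.1 :: ·)) .id (.const _)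
    ((Primrec.list_append.comp .snd (Primrec.list_map .snd (Primrec.list_cons.comp (Primrec.fst.comp .fst) .snd).to₂)).comp .snd).to₂

theorem pr_prod {α β : Type} [Primcodable α] [Primcodable β] : Primrec₂ fun (l : List α) (m : List β) => l ×ˢ m :=
  Primrec.list_flatMap .fst (Primrec.list_map (Primrec.snd.comp .fst) ((Primrec.snd.comp .fst).pair .snd).to₂).to₂

theorem pr_filter {α β : Type} [Primcodable α] [Primcodable β] {f : α → List β} {R : α → β → Prop} [∀ a b, Decidable (R a b)] (hf : Primrec f)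
    (h : PrimrecPred fun p : α × β => R p.1 p.2) : Primrec fun a => (f a).filter (R a ·) :=
  (PrimrecRel.listFilter (R := fun b a => R a b) (h.comp (Primrec.snd.pair .fst))).comp hf .id

variable {X S : Type}

theorem pr_inv [Primcodable X] : Primrec (invRev : List (X × Bool) → _) :=
  Primrec.list_reverse.comp (Primrec.list_map .id (((Primrec.fst.comp .snd).pair (Primrec.not.comp (Primrec.snd.comp .snd)))).to₂)

theorem pr_red [Primcodable X] [DecidableEq X] : Primrec (reduce : List (X × Bool) → _) := by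
  refine (Primrec.list_foldr (h := fun _ (p : (X × Bool) × List (X × Bool)) => (List.casesOn p.2 [p.1] fun hd tl =>
      if p.1.1 = hd.1 ∧ p.1.2 = !hd.2 then tl else p.1 :: hd :: tl : List (X × Bool))) .id (.const []) ?_).of_eq fun l => ?_
  · refine (Primrec.list_casesOn (h := fun (p : (X × Bool) × List (X × Bool)) (r : (X × Bool) × List (X × Bool)) =>
      if p.1.1 = r.1.1 ∧ p.1.2 = !r.1.2 then r.2 else p.1 :: r.1 :: r.2) .snd (Primrec.list_cons.comp .fst (.const [])) ?_).comp .snd
    exact Primrec.ite ((Primrec.eq.comp (Primrec.fst.comp (Primrec.fst.comp .fst)) (Primrec.fst.comp (Primrec.fst.comp .snd))).and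
      (Primrec.eq.comp (Primrec.snd.comp (Primrec.fst.comp .fst)) (Primrec.not.comp (Primrec.snd.comp (Primrec.fst.comp .snd)))))
      (Primrec.snd.comp .snd) (Primrec.list_cons.comp (Primrec.fst.comp .fst)
      (Primrec.list_cons.comp (Primrec.fst.comp .snd) (Primrec.snd.comp .snd)))
  · induction l with
    | nil => rfl
    | cons a l ih => rw [reduce.cons, ← ih]; rfl

theorem pp_mk [Primcodable X] : PrimrecRel fun u v : List (X × Bool) => mk u = mk v := by
  classical
  exact (Primrec.eq.comp (pr_red.comp .fst) (pr_red.comp .snd)).of_eq fun p => ⟨reduce.exact, reduce.sound⟩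

theorem pp_mu' [Primcodable X] : PrimrecRel fun u v : List (X × Bool) => mu u = mu v := by
  have : PrimrecPred fun p : List (X × Bool) × List (X × Bool) => T p.1 ⊆ T p.2 := by
    have c : ∀ w : List (X × Bool), T w = {g | ∃ k ∈ List.range (w.length + 1), mk (w.take k) = g} := fun w => by
      ext g
      exact ⟨fun ⟨k, h⟩ => ⟨min k w.length, by simp, by rwa [← List.take_take, List.take_length]⟩, fun ⟨k, _, h⟩ => ⟨k, h⟩⟩
    refine (pp_all (R := fun p i => ∃ j ∈ List.range (p.2.length + 1), mk (p.2.take j) = mk (p.1.take i))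
      (Primrec.list_range.comp (Primrec.succ.comp (Primrec.list_length.comp .fst))) (pp_ex
        (Primrec.list_range.comp (Primrec.succ.comp (Primrec.list_length.comp (Primrec.snd.comp .fst))))
        (pp_mk.comp (Primrec.list_take.comp .snd (Primrec.snd.comp (Primrec.fst.comp .fst)))
          (Primrec.list_take.comp (Primrec.snd.comp .fst) (Primrec.fst.comp (Primrec.fst.comp .fst)))))).of_eq fun p => ?_
    rw [c, c]
    exact ⟨fun h g ⟨k, a, b⟩ => b ▸ h k a, fun h k a => h ⟨k, a, rfl⟩⟩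
  exact ((this.and (this.comp (Primrec.snd.pair .fst))).and pp_mk).of_eq fun p => by
    simp [mu, Set.Subset.antisymm_iff]

inductive Pth (δ : List (S × Option (X × Bool) × S)) : S → List (X × Bool) → S → Prop
  | base (t) : Pth δ t [] t
  | step {s a p u t} : (s, a, p) ∈ δ → Pth δ p u t → Pth δ s (a.toList ++ u) t

variable {δ : List (S × Option (X × Bool) × S)}

theorem Pth.trans {s u t v r} (h : Pth δ s u t) (k : Pth δ t v r) : Pth δ s (u ++ v) r := by
  induction h with
  | base => exact k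
  | step a _ ih => exact List.append_assoc .. ▸ .step a (ih k)

def Cld (δ : List (S × Option (X × Bool) × S)) (Q : List S) (E : List (S × S)) : Prop :=
  (∀ q ∈ Q, (q, q) ∈ E) ∧ (∀ x ∈ E, ∀ y ∈ E, x.2 = y.1 → (x.1, y.2) ∈ E) ∧ (∀ x ∈ δ, x.2.1 = none → (x.1, x.2.2) ∈ E) ∧
    ∀ x ∈ δ, ∀ y ∈ δ, y.2.1.toList = invRev x.2.1.toList → (x.2.2, y.1) ∈ E → (x.1, y.2.2) ∈ E

def XE (δ : List (S × Option (X × Bool) × S)) (E : List (S × S)) (t : S) : S → List (X × Bool) → Prop
  | s, [] => (s, t) ∈ E
  | s, a :: u => ∃ p p', (s, p) ∈ E ∧ (p, some a, p') ∈ δ ∧ XE δ E t p' u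

theorem dyck {Q : List S} (hQ : ∀ x ∈ δ, x.1 ∈ Q ∧ x.2.2 ∈ Q) {s t} (hs : s ∈ Q) (ht : t ∈ Q) :
    (∃ u, Pth δ s u t ∧ mk u = 1) ↔ ∀ E ∈ subs (Q ×ˢ Q), Cld δ Q E → (s, t) ∈ E := by
  classical
  refine ⟨fun ⟨u, a, b⟩ E _ ⟨c1, c2, c3, c4⟩ => ?_, fun h => ?_⟩
  · have p : ∀ s q u, (s, q) ∈ E → XE δ E t q u → XE δ E t s u := by
      rintro s q (_ | _) a b
      exacts [c2 _ a _ b rfl, b.imp fun p => .imp fun p' b => ⟨c2 _ a _ b.1 rfl, b.2⟩]
    have x : XE δ E t s u := by
      clear * - a c1 c3 p hQ ht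
      induction a with
      | base => exact c1 _ ht
      | @step s a q u t k _ ih =>
        cases a
        exacts [p _ _ _ (c3 _ k rfl) (ih ht p), ⟨s, q, c1 _ (hQ _ k).1, k, ih ht p⟩]
    have r : Red u [] := by simpa [← toWord_mk, b] using reduce.red (L := u)
    clear a b
    induction r using Relation.ReflTransGen.head_induction_on with
    | refl => exact x
    | head k _ ih =>
      refine ih ?_
      obtain @⟨L1, L2, z, b⟩ := k
      clear * - x p c4
      induction L1 generalizing s with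
      | nil =>
        obtain ⟨q, q', x1, x2, r, r', x3, x4, x5⟩ := x
        exact p _ _ _ x1 (p _ _ _ (c4 _ x2 _ x4 rfl x3) x5)
      | cons l L ih => exact x.imp fun _ => .imp fun _ x => ⟨x.1, x.2.1, ih x.2.2⟩
  · have m : ∀ x, x ∈ (Q ×ˢ Q).filter (fun x => ∃ u, Pth δ x.1 u x.2 ∧ mk u = 1) ↔ (x.1 ∈ Q ∧ x.2 ∈ Q) ∧ ∃ u, Pth δ x.1 u x.2 ∧ mk u = 1 := by
      rintro ⟨_, _⟩; simp
    refine ((m (s, t)).1 (h _ (filter_subs _ _) ⟨fun q k => (m _).2 ⟨⟨k, k⟩, [], .base _, rfl⟩, fun x a y b e => ?_,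
      fun x a e => (m _).2 ⟨hQ x a, _, .step a (.base _), by rw [e]; rfl⟩, fun x a y b e c => ?_⟩)).2
    · obtain ⟨a, u, a1, a2⟩ := (m _).1 a
      obtain ⟨b, v, b1, b2⟩ := (m _).1 b
      exact (m _).2 ⟨⟨a.1, b.2⟩, _, a1.trans (e ▸ b1), by rw [← mul_mk, a2, b2, mul_one]⟩
    · obtain ⟨-, u, a1, a2⟩ := (m _).1 c
      exact (m _).2 ⟨⟨(hQ x a).1, (hQ y b).2⟩, _, .step a (a1.trans (.step b (.base _))), by simp [← mul_mk, a2, e, ← inv_mk]⟩

theorem pp_dyck [Primcodable X] [Primcodable S] :
    PrimrecPred fun x : List (S × Option (X × Bool) × S) × S × S => ∃ u, Pth x.1 x.2.1 u x.2.2 ∧ mk u = 1 := by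
  classical
  have q : Primrec fun x : List (S × Option (X × Bool) × S) × S × S => x.2.1 :: x.2.2 :: (x.1.map (·.1) ++ x.1.map (·.2.2)) :=
    Primrec.list_cons.comp (Primrec.fst.comp .snd) (Primrec.list_cons.comp (Primrec.snd.comp .snd) (Primrec.list_append.comp
      (Primrec.list_map .fst (Primrec.fst.comp .snd).to₂) (Primrec.list_map .fst (Primrec.snd.comp (Primrec.snd.comp .snd)).to₂)))
  have c : PrimrecPred fun x : List (S × Option (X × Bool) × S) × List S × List (S × S) => Cld x.1 x.2.1 x.2.2 :=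
    (pp_all (Primrec.fst.comp .snd) (pp_mem (Primrec.snd.comp (Primrec.snd.comp .fst)) (Primrec.snd.pair .snd))).and
    ((pp_all (Primrec.snd.comp .snd) (pp_all (Primrec.snd.comp (Primrec.snd.comp .fst))
      (((Primrec.eq.comp (Primrec.snd.comp (Primrec.snd.comp .fst)) (Primrec.fst.comp .snd)).not.or
        (pp_mem (Primrec.snd.comp (Primrec.snd.comp (Primrec.fst.comp .fst))) ((Primrec.fst.comp (Primrec.snd.comp .fst)).pair
          (Primrec.snd.comp .snd)))).of_eq fun _ => imp_iff_not_or.symm))).and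
    ((pp_all .fst (((Primrec.eq.comp (Primrec.fst.comp (Primrec.snd.comp .snd)) (.const none)).not.or
      (pp_mem (Primrec.snd.comp (Primrec.snd.comp .fst)) ((Primrec.fst.comp .snd).pair (Primrec.snd.comp (Primrec.snd.comp .snd))))).of_eq
        fun _ => imp_iff_not_or.symm)).and
    (pp_all .fst (pp_all (Primrec.fst.comp .fst) (((Primrec.eq.comp (Primrec.optionToList.comp (Primrec.fst.comp (Primrec.snd.comp .snd)))
      (pr_inv.comp (Primrec.optionToList.comp (Primrec.fst.comp (Primrec.snd.comp (Primrec.snd.comp .fst)))))).not.or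
      ((pp_mem (Primrec.snd.comp (Primrec.snd.comp (Primrec.fst.comp .fst))) ((Primrec.snd.comp (Primrec.snd.comp (Primrec.snd.comp .fst))).pair
        (Primrec.fst.comp .snd))).not.or (pp_mem (Primrec.snd.comp (Primrec.snd.comp (Primrec.fst.comp .fst)))
          ((Primrec.fst.comp (Primrec.snd.comp .fst)).pair (Primrec.snd.comp (Primrec.snd.comp .snd)))))).of_eq
            fun _ => by simp only [imp_iff_not_or])))))
  refine (pp_all (R := fun x E => ¬ Cld x.1 (x.2.1 :: x.2.2 :: (x.1.map (·.1) ++ x.1.map (·.2.2))) E ∨ x.2 ∈ E) (pr_subs.comp (pr_prod.comp q q))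
    ((c.comp ((Primrec.fst.comp .fst).pair ((q.comp .fst).pair .snd))).not.or (pp_mem .snd (Primrec.snd.comp .fst)))).of_eq fun x => ?_
  rw [dyck (Q := x.2.1 :: x.2.2 :: (x.1.map (·.1) ++ x.1.map (·.2.2))) (fun y h => ⟨.tail _ (.tail _ (List.mem_append_left _ (List.mem_map_of_mem h))),
    .tail _ (.tail _ (List.mem_append_right _ (List.mem_map_of_mem h)))⟩) (by simp) (by simp)]
  simp only [imp_iff_not_or]

end Pool.Agent.Lib.Benois
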