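import Mathlib
import Pool.Agent.H.MP_ab6a8b_al.A
import Pool.Agent.H.MP_874ce0_al.A

namespace Pool.Agent.Lib.IMon

open FreeGroup hiding map_mul map_one map_inv
open Pool.Agent.Lib.Munn Pool.Agent.H.MP_ab6a8b_al
open Pool.Agent.H.MP_874ce0_al (run run_app run_inv run_idem)
open scoped Pointwise

class IM (M : Type) extends Monoid M, InvolutiveInv M where
  rev : ∀ a b : M, (a * b)⁻¹ = b⁻¹ * a⁻¹
  w1 : ∀ a : M, a * a⁻¹ * a = a
  w2 : ∀ a b : M, a * a⁻¹ * (b * b⁻¹) = b * b⁻¹ * (a * a⁻¹)

open IM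

section
variable {M : Type} [IM M] {a b c d : M}

def Le (a b : M) : Prop := ∃ e : M, a = e * e⁻¹ * b

theorem inv_one' : (1 : M)⁻¹ = 1 := by simpa using w1 (1 : M)
theorem Le.rfl : Le a a := ⟨1, by simp [inv_one']⟩
theorem idem (a : M) : a * a⁻¹ * (a * a⁻¹) = a * a⁻¹ := by rw [← mul_assoc, w1]
theorem prod_idem (a b : M) : a * a⁻¹ * (b * b⁻¹) = a * a⁻¹ * b * (a * a⁻¹ * b)⁻¹ := by
  rw [rev, rev, inv_inv, mul_assoc _ b, ← mul_assoc b, ← w2 a b, ← mul_assoc (a * a⁻¹) (a * a⁻¹), idem]
theorem Le.trans : Le a b → Le b c → Le a c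
  | ⟨e, h⟩, ⟨f, k⟩ => ⟨_, by rw [h, k, ← mul_assoc, prod_idem]⟩
theorem Le.left (s : M) : Le a b → Le (s * a) (s * b)
  | ⟨e, h⟩ => ⟨s * e, by
    have := w2 e s⁻¹
    rw [inv_inv] at this
    rw [h, rev]
    calc _ = s * (s⁻¹ * s * (e * e⁻¹)) * b := by
          conv_lhs => rw [← w1 s]
          simp only [mul_assoc]
      _ = _ := by rw [← this]; simp only [mul_assoc]⟩
theorem Le.right (s : M) : Le a b → Le (a * s) (b * s)
  | ⟨e, h⟩ => ⟨e, by rw [h, mul_assoc _ b]⟩
theorem Le.mul (h : Le a b) (k : Le c d) : Le (a * c) (b * d) := (h.right c).trans (k.left b)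
theorem Le.eq : Le a b → a = a * a⁻¹ * b
  | ⟨e, h⟩ => by rw [h, ← prod_idem, mul_assoc _ (b * b⁻¹), w1]
theorem Le.inv (h : Le a b) : Le a⁻¹ b⁻¹ := by
  obtain ⟨e, rfl⟩ := h
  have := (show Le (e * e⁻¹) 1 from ⟨e, by simp⟩).left b⁻¹
  rwa [rev, rev, inv_inv, mul_one] at *
theorem Le.antisymm (h : Le a b) (k : Le b a) : a = b := by
  have e := h.eq
  rw [k.eq, ← mul_assoc, w2, mul_assoc, w1] at e
  exact e.trans k.eq.symm
theorem le_one (a : M) : Le (a * a⁻¹) 1 := ⟨a, by simp⟩
theorem Le.dom (h : Le a b) : Le (a * a⁻¹) (b * b⁻¹) := h.mul h.inv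
theorem dom_mul (a b : M) : Le (a * b * (a * b)⁻¹) (a * a⁻¹) := by
  simpa only [rev, mul_assoc, mul_one] using ((le_one b).left a).right a⁻¹
theorem Le.inf (h : Le (a * a⁻¹) b) (k : Le (a * a⁻¹) c) : Le (a * a⁻¹) (b * c) := idem a ▸ h.mul k

end

variable {X Z : Type}

def Rel (R : List (X × Bool) → List (X × Bool) → Prop) (x y : FreeMonoid (X × Bool)) : Prop :=
  (∃ u : List (X × Bool), x = .ofList (u ++ invRev u ++ u) ∧ y = .ofList u) ∨
  (∃ u v : List (X × Bool), x = .ofList ((u ++ invRev u) ++ (v ++ invRev v)) ∧ y = .ofList ((v ++ invRev v) ++ (u ++ invRev u))) ∨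
  R x.toList y.toList

def Inv (R : List (X × Bool) → List (X × Bool) → Prop) := (conGen (Rel R)).Quotient

variable {R : List (X × Bool) → List (X × Bool) → Prop}

instance : Monoid (Inv R) := inferInstanceAs (Monoid (conGen (Rel R)).Quotient)

def q (R : List (X × Bool) → List (X × Bool) → Prop) (u : List (X × Bool)) : Inv R := (conGen (Rel R)).mk' (.ofList u)

theorem q_nil : q R [] = 1 := rfl
theorem q_app (u v) : q R (u ++ v) = q R u * q R v := rfl
theorem q_rel {u v} (h : R u v) : q R u = q R v := (Con.eq _).2 (.of _ _ (.inr (.inr h)))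
theorem q1 (u) : q R u * q R (invRev u) * q R u = q R u := (Con.eq _).2 (.of _ _ (.inl ⟨u, rfl, rfl⟩))
theorem q2 (u v) : q R u * q R (invRev u) * (q R v * q R (invRev v)) = q R v * q R (invRev v) * (q R u * q R (invRev u)) :=
  (Con.eq _).2 (.of _ _ (.inr (.inl ⟨u, v, rfl, rfl⟩)))
theorem q_surj (x : Inv R) : ∃ u, q R u = x := Con.mk'_surjective x

theorem q_uniq {u v} (h : q R u = q R v) : q R (invRev u) = q R (invRev v) := by
  have a1 := q1 (R := R) u
  have a2 := q1 (R := R) (invRev u)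
  have a3 := q1 (R := R) v
  have a4 := q1 (R := R) (invRev v)
  have a5 := q2 (R := R) u v
  have a6 := q2 (R := R) (invRev u) (invRev v)
  simp only [invRev_invRev, ← h] at *
  generalize q R u = a, q R (invRev u) = b, q R (invRev v) = c at *
  calc b = b * a * (c * a) * b := by rw [mul_assoc b a, ← mul_assoc a, a3, a2]
    _ = c * (a * b * (a * c)) := by rw [a6, a5, ← mul_assoc c, ← mul_assoc c, a4, mul_assoc, a2, mul_assoc]
    _ = c := by rw [← mul_assoc _ a, a1, ← mul_assoc, a4]

noncomputable instance : IM (Inv R) where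
  inv x := q R (invRev (q_surj x).choose)
  inv_inv x := (q_uniq (q_surj (q R _)).choose_spec).trans (by rw [invRev_invRev, (q_surj x).choose_spec])
  rev a b := (q_uniq ((q_surj _).choose_spec.trans (show a * b = q R ((q_surj a).choose ++ (q_surj b).choose) by
      rw [q_app, (q_surj a).choose_spec, (q_surj b).choose_spec]))).trans (by rw [invRev_append, q_app])
  w1 a := by simpa only [(q_surj a).choose_spec] using q1 (R := R) (q_surj a).choose
  w2 a b := by simpa only [(q_surj a).choose_spec, (q_surj b).choose_spec] using q2 (R := R) (q_surj a).choose (q_surj b).choose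

theorem q_inv (u) : q R (invRev u) = (q R u)⁻¹ := (q_uniq (q_surj _).choose_spec).symm

theorem q_ind {c : Con (FreeMonoid (X × Bool))} (h1 : ∀ u, c (.ofList (u ++ invRev u ++ u)) (.ofList u))
    (h2 : ∀ u v, c (.ofList ((u ++ invRev u) ++ (v ++ invRev v))) (.ofList ((v ++ invRev v) ++ (u ++ invRev u))))
    (h3 : ∀ u v, R u v → c (.ofList u) (.ofList v)) {u v} (h : q R u = q R v) : c (.ofList u) (.ofList v) := by
  refine (show conGen (Rel R) ≤ c from Con.conGen_le.2 fun x y h => ?_) ((Con.eq _).1 h)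
  obtain ⟨u, a, b⟩ | ⟨u, v, a, b⟩ | h := h
  exacts [a ▸ b ▸ h1 u, a ▸ b ▸ h2 u v, h3 _ _ h]

theorem q_mono {S} (k : ∀ u v, R u v → q S u = q S v) {u v} (h : q R u = q R v) : q S u = q S v :=
  (Con.eq _).2 (q_ind (fun u => (Con.eq _).1 (q1 (R := S) u)) (fun u v => (Con.eq _).1 (q2 (R := S) u v)) (fun u v h => (Con.eq _).1 (k u v h)) h)

theorem sound {C : Type} {δ : C → X × Bool → Option C} {V : C → Prop} (hV : ∀ c x c', V c → δ c x = some c' → V c' ∧ δ c' (x.1, !x.2) = some c)
    (hw : ∀ u v, R u v → ∀ c, V c → run δ c u = run δ c v) {u v} (h : q R u = q R v) : ∀ c, V c → run δ c u = run δ c v := by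
  let K : Con (FreeMonoid (X × Bool)) :=
    { r := fun u v => ∀ c, V c → run δ c u.toList = run δ c v.toList
      iseqv := ⟨fun _ _ _ => rfl, fun h c k => (h c k).symm, fun h k c l => (h c l).trans (k c l)⟩
      mul' := fun {u v _ _} h k c l => by
        simp only [FreeMonoid.toList_mul, run_app, h c l]
        cases e : run δ c v.toList
        exacts [rfl, k _ (run_inv hV l e).1] }
  refine q_ind (c := K) (fun u c hc => ?_) (fun u v c hc => ?_) hw h <;> simp only [FreeMonoid.toList_ofList]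
  · rw [run_app, run_idem hV hc]
    cases e : run δ c u
    exacts [rfl, e]
  · rw [run_app, run_app δ c (v ++ _), run_idem hV hc, run_idem hV hc]
    cases e : run δ c u <;> cases f : run δ c v <;> simp [run_idem hV hc, e, f]

theorem q_mu {β : X → List (Z × Bool)} (k : ∀ u v, R u v → mu (hat β u) = mu (hat β v)) {u v} (h : q R u = q R v) :
    mu (hat β u) = mu (hat β v) :=
  q_ind (c := { r := fun u v => mu (hat β u.toList) = mu (hat β v.toList), iseqv := ⟨fun _ => rfl, .symm, .trans⟩
                mul' := fun h k => by simpa only [FreeMonoid.toList_mul, hat_app] using mu_app h k })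
    (fun u => mu_hat (by simp [mu, T_app, T_inv, ← inv_mk, ← mul_mk]))
    (fun u v => mu_hat (by simp [mu, T_app, T_inv, ← inv_mk, ← mul_mk, Set.smul_set_union, Set.union_comm, Set.union_left_comm])) k h

theorem q_fin {β : X → List (Z × Bool)} (h1 : ∀ w, mk (hat β w) = 1 → Le (q R w) 1)
    (h2 : ∀ a e, T (hat β [a]) ⊆ T (hat β e) → Le (q R e * (q R e)⁻¹) (q R [a] * (q R [a])⁻¹)) {u v} (h : mu (hat β u) = mu (hat β v)) :
    q R u = q R v := by
  have a : ∀ w e, T (hat β w) ⊆ T (hat β e) → Le (q R e * (q R e)⁻¹) (q R w * (q R w)⁻¹) := fun w => by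
    induction w with
    | nil => exact fun e _ => by simpa [q_nil, inv_one'] using le_one _
    | cons a w ih =>
      intro e k
      rw [hat_cons, T_app, Set.union_subset_iff] at k
      have := ((ih (invRev [a] ++ e) (by
        rw [hat_app, T_app, hat_inv, ← inv_mk]
        exact (Set.subset_smul_set_iff.2 (by simpa using k.2)).trans Set.subset_union_right)).left (q R [a])).right (q R [a])⁻¹
      rw [← List.singleton_append, q_app, rev]
      simp only [q_app, q_inv, rev, inv_inv, mul_assoc] at this ⊢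
      exact (show Le _ _ by simpa only [mul_assoc] using ((h2 a e k.1).inf Le.rfl).inf (h2 a e k.1)).trans this
  have : ∀ u v, mu (hat β u) = mu (hat β v) → Le (q R u) (q R v) := fun u v h => by
    have b := (h1 (invRev v ++ u) (by rw [hat_app, hat_inv, ← mul_mk, ← inv_mk, inv_mul_eq_one]; exact (congrArg Prod.snd h).symm)).left (q R v)
    rw [q_app, q_inv, mul_one, ← mul_assoc] at b
    exact (w1 (q R u) ▸ (a v u (congrArg Prod.fst h).ge).right (q R u) :).trans b
  exact (this _ _ h).antisymm (this _ _ h.symm)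

theorem q_red {u v} (h : Red u v) : Le (q R u) (q R v) := by
  induction h with
  | refl => exact .rfl
  | tail _ k ih =>
    obtain @⟨L1, L2, z, b⟩ := k
    have := ((le_one (q R [(z, b)])).right (q R L2)).left (q R L1)
    rw [one_mul, ← q_inv] at this
    exact ih.trans this

theorem munn {u v} (h : mu u = mu v) : q R u = q R v := by
  classical
  have e : ∀ u : List (X × Bool), hat (fun x => [(x, true)]) u = u := fun u => by
    induction u with
    | nil => rfl
    | cons l u ih => rw [hat_cons, ih]; obtain ⟨_, _ | _⟩ := l <;> rfl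
  refine q_fin (β := fun x => [(x, true)]) (fun w k => q_red ?_) (fun a w k => ?_) (by rwa [e, e])
  · simpa [← toWord_mk, e w ▸ k] using reduce.red (L := w)
  · obtain ⟨i, k⟩ := e w ▸ e [a] ▸ k <| mk_T [a]
    have := reduce.red (L := w.take i)
    rw [← toWord_mk, k, toWord_mk, IsReduced.singleton.reduce_eq] at this
    rw [← List.take_append_drop i w, q_app]
    exact (dom_mul ..).trans (q_red this).dom

variable [DecidableEq X]

theorem tree_le {x y : FreeGroup X} {p} (h : p <+: x.toWord) (k : p <+: y.toWord) : (x⁻¹ * y).norm + 2 * p.length ≤ x.norm + y.norm := by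
  obtain ⟨u, h⟩ := h
  obtain ⟨v, k⟩ := k
  have : x⁻¹ * y = mk (invRev u ++ v) := by rw [← mk_toWord (x := x), ← mk_toWord (x := y), ← h, ← k]; simp [← mul_mk, ← inv_mk]
  have := this ▸ norm_mk_le (L₁ := invRev u ++ v)
  simp only [FreeGroup.norm, ← h, ← k, List.length_append, invRev_length] at *
  omega

theorem tree (x y : FreeGroup X) : ∃ p, p <+: x.toWord ∧ p <+: y.toWord ∧ (x⁻¹ * y).norm + 2 * p.length = x.norm + y.norm := by
  have : ∀ x y : List (X × Bool), ∃ p u v, p ++ u = x ∧ p ++ v = y ∧ ∀ a ∈ u.head?, ∀ b ∈ v.head?, a ≠ b := fun x => by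
    induction x with
    | nil => exact fun y => ⟨[], [], y, rfl, rfl, by simp⟩
    | cons a x ih =>
      rintro (_ | ⟨b, y⟩)
      · exact ⟨[], _, [], rfl, rfl, by simp⟩
      obtain rfl | h := eq_or_ne a b
      · obtain ⟨p, u, v, rfl, rfl, h⟩ := ih y
        exact ⟨a :: p, u, v, rfl, rfl, h⟩
      · exact ⟨[], _, _, rfl, rfl, by simpa⟩
  obtain ⟨p, u, v, h, k, c⟩ := this x.toWord y.toWord
  refine ⟨p, ⟨u, h⟩, ⟨v, k⟩, ?_⟩
  have r1 : IsReduced u := List.IsChain.right_of_append (h ▸ isReduced_toWord :)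
  have r2 : IsReduced v := List.IsChain.right_of_append (k ▸ isReduced_toWord :)
  have r : IsReduced (invRev u ++ v) := List.isChain_append.2 ⟨IsReduced.of_reduce_eq (by rw [reduce_invRev, r1.reduce_eq]), r2, by
    intro a i b j e
    cases u with
    | nil => simp at i
    | cons d u =>
      obtain rfl : (d.1, !d.2) = a := by simpa [invRev] using i
      exact (Bool.eq_not.2 fun f => c d rfl b j (Prod.ext e f.symm)).symm⟩
  have : x⁻¹ * y = mk (invRev u ++ v) := by rw [← mk_toWord (x := x), ← mk_toWord (x := y), ← h, ← k]; simp [← mul_mk, ← inv_mk]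
  simp only [FreeGroup.norm, this, ← h, ← k, List.length_append, invRev_length, toWord_mk, r.reduce_eq]
  omega

theorem tri {x y z : FreeGroup X} {C} (h : x.norm ≤ y.norm) (k : z.norm ≤ y.norm) (a : (x⁻¹ * y).norm ≤ C) (b : (y⁻¹ * z).norm ≤ C) :
    (x⁻¹ * z).norm ≤ C := by
  obtain ⟨p, p1, p2, p3⟩ := tree x y
  obtain ⟨r, r1, r2, r3⟩ := tree y z
  obtain c | c := List.prefix_or_prefix_of_prefix p2 r1
  · have := tree_le p1 (c.trans r2)
    omega
  · have := tree_le (c.trans p1) r2
    omega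

theorem cross {x} {g h : FreeGroup X} (a : x <+: g.toWord) (b : ¬ x <+: h.toWord) :
    ((mk x)⁻¹ * g).norm ≤ (g⁻¹ * h).norm ∧ ((mk x)⁻¹ * h).norm ≤ (g⁻¹ * h).norm := by
  obtain ⟨p, p1, p2, p3⟩ := tree g h
  have c := (List.prefix_or_prefix_of_prefix a p1).resolve_left fun c => b (c.trans p2)
  have e : (mk x).toWord = x := a.elim fun _ a => (show IsReduced x from List.IsChain.left_of_append (a ▸ isReduced_toWord :)).reduce_eq
  have d1 := tree_le (x := mk x) (e.symm ▸ List.prefix_refl x) a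
  have d2 := tree_le (x := mk x) (e.symm ▸ c) p2
  have := c.length_le
  have := p2.length_le
  have := a.length_le
  simp only [FreeGroup.norm, e] at *
  omega

end Pool.Agent.Lib.IMon
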