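import Mathlib

namespace Pool.Agent.Lib.FO

/-- first-order formulas of monoids with constants from `C` and `n` free variables; terms are words -/
inductive Fm (C : Type) : ℕ → Type
  | eq {n : ℕ} (u v : List (C ⊕ Fin n)) : Fm C n
  | imp {n : ℕ} (φ ψ : Fm C n) : Fm C n
  | fls {n : ℕ} : Fm C n
  | all {n : ℕ} (φ : Fm C (n + 1)) : Fm C n

variable {C M : Type} [Monoid M]

/-- satisfaction in `M`, constants read by `c` -/
def Fm.Sat (c : C → M) : {n : ℕ} → Fm C n → (Fin n → M) → Prop
  | _, .eq u w, v => (u.map (Sum.elim c v)).prod = (w.map (Sum.elim c v)).prod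
  | _, .imp φ ψ, v => φ.Sat c v → ψ.Sat c v
  | _, .fls, _ => False
  | _, .all φ, v => ∀ x, φ.Sat c (Fin.cons x v)

/-- Goedel number -/
def Fm.code [Primcodable C] : {n : ℕ} → Fm C n → ℕ
  | _, .eq u w => Nat.pair 0 (Encodable.encode (u.map (Sum.map id Fin.val), w.map (Sum.map id Fin.val)))
  | _, .imp φ ψ => Nat.pair 1 (Nat.pair φ.code ψ.code)
  | _, .fls => Nat.pair 2 0
  | _, .all φ => Nat.pair 3 φ.code

/-- no algorithm decides the sentences true in `M` -/
def Und [Primcodable C] (c : C → M) : Prop :=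
  ¬ ∃ f : ℕ → Bool, Computable f ∧ ∀ φ : Fm C 0, f φ.code = true ↔ φ.Sat c ![]

def DT (c : C → M) (n : ℕ) (f : (Fin n → M) → M) : Prop := ∃ u : List (C ⊕ Fin n), ∀ v, (u.map (Sum.elim c v)).prod = f v

def Def (c : C → M) (n : ℕ) (P : (Fin n → M) → Prop) : Prop := ∃ φ : Fm C n, ∀ v, φ.Sat c v ↔ P v

variable {c : C → M} {n : ℕ} {f g : (Fin n → M) → M} {P Q : (Fin n → M) → Prop}

theorem DT.var (i : Fin n) : DT c n fun v => v i := ⟨[.inr i], by simp⟩
theorem DT.con (x : C) : DT c n fun _ => c x := ⟨[.inl x], by simp⟩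
theorem DT.one : DT c n fun _ => 1 := ⟨[], by simp⟩
theorem DT.mul : DT c n f → DT c n g → DT c n fun v => f v * g v
  | ⟨u, h⟩, ⟨w, k⟩ => ⟨u ++ w, by simp [h, k]⟩
theorem DT.pow (k : ℕ) (h : DT c n f) : DT c n fun v => f v ^ k := by
  induction k with
  | zero => simpa using DT.one
  | succ k ih => simpa [pow_succ] using ih.mul h

theorem Def.eq : DT c n f → DT c n g → Def c n fun v => f v = g v
  | ⟨u, h⟩, ⟨w, k⟩ => ⟨.eq u w, by simp [Fm.Sat, h, k]⟩
theorem Def.imp : Def c n P → Def c n Q → Def c n fun v => P v → Q v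
  | ⟨φ, h⟩, ⟨ψ, k⟩ => ⟨.imp φ ψ, by simp [Fm.Sat, h, k]⟩
theorem Def.of_iff (h : Def c n P) (e : ∀ v, P v ↔ Q v) : Def c n Q := by rwa [← funext fun v => propext (e v)]
theorem Def.fls : Def c n fun _ => False := ⟨.fls, fun _ => Iff.rfl⟩
theorem Def.not (h : Def c n P) : Def c n fun v => ¬ P v := h.imp .fls
theorem Def.const (p : Prop) : Def c n fun _ => p := by
  by_cases h : p
  · exact Def.fls.not.of_iff (by simp [h])
  · exact Def.fls.of_iff (by simp [h])
theorem Def.and (h : Def c n P) (k : Def c n Q) : Def c n fun v => P v ∧ Q v := (h.imp k.not).not.of_iff (by simp)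
theorem Def.or (h : Def c n P) (k : Def c n Q) : Def c n fun v => P v ∨ Q v := (h.not.imp k).of_iff fun _ => or_iff_not_imp_left.symm
theorem Def.iff (h : Def c n P) (k : Def c n Q) : Def c n fun v => P v ↔ Q v :=
  ((h.imp k).and (k.imp h)).of_iff fun _ => iff_iff_implies_and_implies.symm
theorem Def.all {R : M → (Fin n → M) → Prop} : (Def c (n + 1) fun v => R (v 0) fun i => v i.succ) → Def c n fun v => ∀ x, R x v
  | ⟨φ, h⟩ => ⟨.all φ, by simp [Fm.Sat, h]⟩
theorem Def.ex {R : M → (Fin n → M) → Prop} (h : Def c (n + 1) fun v => R (v 0) fun i => v i.succ) : Def c n fun v => ∃ x, R x v :=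
  (Def.all (R := fun x v => ¬ R x v) h.not).not.of_iff (by simp)
theorem Def.fin {ι : Type} [Finite ι] {R : ι → (Fin n → M) → Prop} (h : ∀ i, Def c n (R i)) : Def c n fun v => ∀ i, R i v := by
  have k : ∀ s : Finset ι, Def c n fun v => ∀ i ∈ s, R i v := fun s => by
    classical
    induction s using Finset.induction_on with
    | empty => exact (Def.const True).of_iff (by simp)
    | insert a s _ ih => exact ((h a).and ih).of_iff (by simp)
  have := Fintype.ofFinite ι
  exact (k Finset.univ).of_iff (by simp)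

theorem und_of [Primcodable C] {H : M → M → Prop} (hH : Def c 2 fun v => H (v 1) (v 0)) {N : ℕ → ℕ} (hN : Computable N)
    (h : ¬ ComputablePred fun n => ∃ a, H a (a ^ N n)) : Und c := fun ⟨f, hf, e⟩ => h <| by
  obtain ⟨ψ, hψ⟩ := hH
  let φ : ℕ → Fm C 0 := fun k => .imp (.all (.all (.imp (.eq [.inr 0] (List.replicate k (.inr 1))) (.imp ψ .fls)))) .fls
  have p : Primrec fun k => (φ k).code := by
    have r : Primrec fun k => (List.replicate k (.inr 1) : List (C ⊕ ℕ)) :=
      (Primrec.list_map Primrec.list_range (Primrec.const (Sum.inr 1 : C ⊕ ℕ)).to₂).of_eq (by simp)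
    have n : ∀ {f g : ℕ → ℕ}, Primrec f → Primrec g → Primrec fun k => Nat.pair (f k) (g k) := Primrec₂.natPair.comp
    simp only [φ, Fm.code, List.map_replicate]
    exact n (.const _) (n (n (.const _) (n (.const _) (n (.const _) (n (n (.const _)
      (Primrec.encode.comp ((Primrec.const _).pair r))) (.const _))))) (.const _))
  refine ComputablePred.computable_iff.2 ⟨fun n => f (φ (N n)).code, hf.comp (p.to_comp.comp hN), funext fun n => propext ?_⟩
  simp [e, φ, Fm.Sat, hψ]

end Pool.Agent.Lib.FO
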