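import Mathlib
import Pool.Agent.Lib.helper22.Mul

namespace Pool.Agent.Lib.NB

open Finset Relation Pool.Agent.Lib.helper21.Mach

theorem uq {K a b : ℕ} {x y : ℤ} (ha : a < K) (hb : b < K) (h : K * x + a = K * y + b) : a = b ∧ x = y := by
  have : x = y := by
    rcases lt_trichotomy x y with k | k | k
    · nlinarith
    · exact k
    · nlinarith
  subst this
  exact ⟨by omega, rfl⟩

/-- a finite family of affine moves between residue classes whose equivalence classes are undecidable -/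
theorem exists_col : ∃ (J : Type) (_ : Finite J) (m n : J → ℕ) (a c : J → ℤ) (O : Set ℤ) (s : ℕ → ℕ), Primrec s ∧
    (∀ j, 0 < m j ∧ 0 < n j) ∧ (∀ j u, m j * u + a j ∈ O ↔ n j * u + c j ∈ O) ∧ 0 ∈ O ∧
    (∀ z ∈ O, EqvGen (fun x y => ∃ j u, x = m j * u + a j ∧ y = n j * u + c j) z 0) ∧ ¬ ComputablePred fun k => (s k : ℤ) ∈ O := by
  obtain ⟨D, Q, _, st, X, f, c0, q0, m, nxt, α, β, hX, h0, hm, hβ, hf, hM⟩ := FO.exists_mul
  have := Fintype.ofFinite Q
  let K := Fintype.card Q + 1
  let i : Q → ℕ := fun q => Fintype.equivFin Q q + 1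
  have iK : ∀ q, i q < K := fun q => Nat.succ_lt_succ (Fin.is_lt _)
  have K0 : 0 < K := Nat.succ_pos _
  have ii : ∀ q r, i q = i r → q = r := fun q r h => (Fintype.equivFin Q).injective (Fin.ext (Nat.succ_injective h))
  let M := (∏ q, m q) * ∏ p : Q × Bool, β p.1 p.2
  have M0 : 0 < M := mul_pos (prod_pos fun q _ => hm q) (prod_pos fun p _ => (hβ _ _).2)
  have d1 : ∀ q, m q ∣ M := fun q => (dvd_prod_of_mem _ (mem_univ q)).mul_right _
  have d2 : ∀ q t, β q t ∣ M := fun q t => (dvd_prod_of_mem (fun p : Q × Bool => β p.1 p.2) (mem_univ (q, t))).mul_left _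
  let t : Q × Fin M → Bool := fun j => decide ¬ m j.1 ∣ j.2
  let γ : Q × Fin M → ℕ := fun j => α j.1 (t j) * (M / β j.1 (t j))
  let cd : D → ℕ := fun d => K * (M * X d) + i (st d)
  let nx : Q × Fin M → ℕ := fun j => (nxt j.1 (t j)).elim 0 i
  let R : ℤ → ℤ → Prop := fun x y => ∃ (j : Q × Fin M) (u : ℤ), x = K * (M * (M * u + j.2)) + i j.1 ∧ y = K * (γ j * (M * u + j.2)) + nx j
  have nK : ∀ x q, ¬ (K : ℤ) ∣ K * x + i q := fun x q ⟨y, h⟩ => (uq (iK q) K0 (y := y) (by simpa using h)).1 |> Nat.succ_ne_zero _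
  have det : ∀ x y z, R x y → R x z → y = z := by
    rintro _ _ _ ⟨⟨q, r⟩, u, rfl, rfl⟩ ⟨⟨q', r'⟩, u', h, rfl⟩
    obtain ⟨a, b⟩ := uq (iK _) (iK _) h
    obtain rfl := ii _ _ a
    obtain ⟨a, rfl⟩ := uq r.2 r'.2 (mul_left_cancel₀ (by exact_mod_cast M0.ne') b)
    obtain rfl := Fin.ext a
    rfl
  let O : Set ℤ := {x | ∃ y, ReflTransGen R x y ∧ (K : ℤ) ∣ y}
  have inv : ∀ x y, R x y → (x ∈ O ↔ y ∈ O) := fun x y h => ⟨fun ⟨z, a, b⟩ => by
    obtain rfl | ⟨w, a, c⟩ := a.cases_head
    · obtain ⟨j, u, rfl, -⟩ := h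
      exact (nK _ _ b).elim
    · exact ⟨z, det _ _ _ a h ▸ c, b⟩, fun ⟨z, a, b⟩ => ⟨z, .head h a, b⟩⟩
  have key : ∀ d, ∃ y, R (cd d) y ∧ (f d).elim ((K : ℤ) ∣ y) fun d' => y = cd d' := fun d => by
    have e := (Nat.div_add_mod (X d) M).symm
    let j : Q × Fin M := (st d, ⟨_, Nat.mod_lt (X d) M0⟩)
    have e' : (M : ℤ) * (X d / M : ℕ) + (j.2 : ℕ) = X d := by exact_mod_cast e.symm
    refine ⟨_, ⟨j, (X d / M : ℕ), by rw [e']; simp [cd, j], rfl⟩, ?_⟩
    obtain ⟨e1, e2⟩ := hf d (t j) (by simp [t, j, Nat.dvd_mod_iff (d1 _)])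
    rw [e', show nx j = ((f d).map st).elim 0 i by rw [e1]]
    cases s : f d with
    | none => simp
    | some d' =>
      have : M * X d' = γ j * X d := by
        symm
        rw [mul_right_comm, e2 _ s, mul_right_comm, Nat.mul_div_cancel' (d2 _ _)]
      simp only [cd, this, Option.map_some, Option.elim_some]
      push_cast
      rfl
  have H : ∀ d, Halts f d ↔ (cd d : ℤ) ∈ O := fun d => by
    constructor
    · intro h
      induction h with
      | @stop d s => exact (key d).elim fun y h => ⟨y, .single h.1, by simpa [s] using h.2⟩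
      | @go d _ s _ ih => exact (key d).elim fun y h => (inv _ _ h.1).2 (by rwa [show y = _ by simpa [s] using h.2])
    · rintro ⟨y, h, k⟩
      generalize e : (cd d : ℤ) = z at h
      induction h using ReflTransGen.head_induction_on generalizing d with
      | refl => exact (nK (M * X d) (st d) (by simpa [← e, cd] using k)).elim
      | head h _ ih =>
        subst e
        obtain ⟨y, a, b⟩ := key d
        obtain rfl := det _ _ _ a h
        cases s : f d with
        | none => exact .stop s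
        | some d' => exact .go s (ih d' (by simpa [s, eq_comm] using b))
  refine ⟨Option (Q × Fin M), inferInstance, fun j => j.elim K fun _ => K * M * M, fun j => j.elim K fun j => K * γ j * M,
    fun j => j.elim K fun j => K * M * j.2 + i j.1, fun j => j.elim 0 fun j => K * γ j * j.2 + nx j, O, fun k => K * (M * 2 ^ k) + i q0, ?_, ?_, ?_,
    ⟨0, .refl, dvd_zero _⟩, ?_, ?_⟩
  · exact Primrec.nat_add.comp (Primrec.nat_mul.comp (.const _) (Primrec.nat_mul.comp (.const _)
      ((Primrec₂.unpaired'.1 Nat.Primrec.pow).comp (.const 2) .id))) (.const _)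
  · rintro (_ | j)
    · exact ⟨K0, K0⟩
    · exact ⟨mul_pos (mul_pos K0 M0) M0, mul_pos (mul_pos K0 (mul_pos (hβ _ _).1 (Nat.div_pos (Nat.le_of_dvd M0 (d2 _ _)) (hβ _ _).2))) M0⟩
  · rintro (_ | j) u
    · exact iff_of_true ⟨_, .refl, by simp⟩ ⟨_, .refl, by simp⟩
    · exact inv _ _ ⟨j, u, by simp; ring, by simp; ring⟩
  · rintro z ⟨_, h, y, rfl⟩
    induction h using ReflTransGen.head_induction_on with
    | refl =>
      induction y using Int.induction_on with
      | zero => simpa using EqvGen.refl _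
      | succ y ih => exact .trans _ _ _ (.rel _ _ ⟨none, y, by simp [mul_add], by simp⟩) ih
      | pred y ih => exact .trans _ _ _ (.symm _ _ (.rel _ _ ⟨none, -y - 1, by simp; ring, by simp⟩)) ih
    | head h _ ih => exact .trans _ _ _ (.rel _ _ (h.elim fun j h => h.elim fun u h => ⟨some j, u, by simp [h]; ring, by simp [h]; ring⟩)) ih
  · simpa only [H, cd, h0] using hM

end Pool.Agent.Lib.NB
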