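import Mathlib
import Pool.Agent.Lib.helper22.NBa

namespace Pool.Agent.Lib.NB

open Relation Subgroup
open FreeGroup hiding map_mul map_one map_inv
open scoped commutatorElement

section
variable {T : Type}

/-- permutations of `T` act on integer functions on `T` -/
def hat : Equiv.Perm T →* Equiv.Perm ((T → ℤ) × ℤ) where
  toFun σ := (σ.arrowCongr (.refl _)).prodCongr (.refl _)
  map_one' := rfl
  map_mul' _ _ := rfl

def ev (p : T) : Equiv.Perm ((T → ℤ) × ℤ) := ⟨fun x => (x.1, x.2 + x.1 p), fun x => (x.1, x.2 - x.1 p), fun _ => by simp, fun _ => by simp⟩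

theorem hat_ev (σ : Equiv.Perm T) (p) : hat σ * ev p * (hat σ)⁻¹ = ev (σ p) := by
  rw [mul_inv_eq_iff_eq_mul]
  ext x <;> simp [hat, ev]

theorem comm_ev (B : T → ℤ) (p) : ⁅Equiv.addRight (B, (0 : ℤ)), ev p⁆ = Equiv.addRight (0, -B p) := by
  rw [commutatorElement_def, mul_inv_eq_iff_eq_mul, mul_inv_eq_iff_eq_mul]
  ext x <;> simp [ev]
  ring

end

/-- the Novikov-Boone theorem, with a central test word -/
theorem exists_nb : ∃ (X : Type) (_ : Finite X) (R : Set (FreeGroup X)) (x t k : X) (s : ℕ → ℕ) (S : ℕ → Prop) (H : Type) (_ : Group H)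
    (φ : FreeGroup X →* H) (z : H), R.Finite ∧ Primrec s ∧ ¬ ComputablePred S ∧ (∀ w, Commute z (φ w)) ∧ (∀ c : ℤ, z ^ c = 1 → c = 0) ∧
    (∀ r ∈ R, φ r = 1) ∧ ∀ n, (S n → ⁅of k, of x ^ s n * of t * (of x ^ s n)⁻¹⁆ ∈ normalClosure R) ∧
      (¬ S n → φ ⁅of k, of x ^ s n * of t * (of x ^ s n)⁻¹⁆ = z) := by
  classical
  obtain ⟨J, _, m, n, a, c, O, s, hs, h0, hO, O0, hE, hu⟩ := exists_col
  let x : FreeGroup (J ⊕ Fin 3) := of (.inr 0)
  let k : FreeGroup (J ⊕ Fin 3) := of (.inr 2)
  let τ : ℤ → FreeGroup (J ⊕ Fin 3) := fun u => x ^ u * of (.inr 1) * (x ^ u)⁻¹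
  let R : Set (FreeGroup (J ⊕ Fin 3)) := insert ⁅k, τ 0⁆ (⋃ j, {of (.inl j) * x ^ (m j : ℤ) * (of (.inl j))⁻¹ * (x ^ (n j : ℤ))⁻¹,
    of (.inl j) * τ (a j) * (of (.inl j))⁻¹ * (τ (c j))⁻¹, ⁅k, of (.inl j)⁆})
  let H : ℚ → ℤ := fun p => if ∃ u ∈ O, p = u then 0 else 1
  have m0 : ∀ j, (m j : ℚ) ≠ 0 := fun j => by exact_mod_cast (h0 j).1.ne'
  have n0 : ∀ j, (n j : ℚ) ≠ 0 := fun j => by exact_mod_cast (h0 j).2.ne'
  let ψ : J → Equiv.Perm ℚ := fun j => ⟨fun p => n j * ((p - a j) / m j) + c j, fun p => m j * ((p - c j) / n j) + a j,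
    fun p => by field_simp [m0 j, n0 j]; ring, fun p => by field_simp [m0 j, n0 j]; ring⟩
  let δ : J → ℚ → ℚ → ℤ := fun j p => if ∃ u : ℤ, p = m j * u + a j then H - H ∘ (ψ j).symm else 0
  let r : J → Equiv.Perm (ℚ × (ℚ → ℤ)) := fun j => .prodShear (ψ j) fun p => ((ψ j).arrowCongr (.refl _)).trans (.addRight (δ j p))
  let y : Equiv.Perm (ℚ × (ℚ → ℤ)) := .addRight (1, 0)
  have yz : ∀ (u : ℤ) p, (y ^ u) p = (p.1 + u, p.2) := fun u p => by simp [y, Prod.ext_iff]
  let B : ℚ × (ℚ → ℤ) → ℤ := fun p => p.2 p.1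
  let φ := lift (Sum.elim (fun j => hat (r j)) ![hat y, ev (0, H), .addRight (B, 0)])
  have φτ : ∀ u, φ (τ u) = ev ((u : ℚ), H) := fun u => by
    have : φ (x ^ u) = hat (y ^ u) := by simp only [map_zpow, φ, x, lift_apply_of]; rfl
    simp only [τ, map_mul, map_inv, this]
    exact (congrArg₂ _ (congrArg _ (lift_apply_of ..)) rfl).trans ((hat_ev ..).trans (by simp [yz]))
  have HO : ∀ u : ℤ, H u = if u ∈ O then 0 else 1 := by simp [H]
  have φk : ∀ u : ℤ, φ ⁅k, τ u⁆ = .addRight (0, -H u) := fun u => by simp [map_commutatorElement, φτ, k, φ, comm_ev, B]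
  refine ⟨J ⊕ Fin 3, inferInstance, R, .inr 0, .inr 1, .inr 2, s, _, _, inferInstance, φ, .addRight (0, -1),
    (Set.finite_iUnion fun _ => Set.toFinite _).insert _, hs, hu, fun w => ?_, fun c h => ?_, ?_, fun u => ⟨fun h => ?_, fun h => ?_⟩⟩
  · induction w using FreeGroup.induction_on with
    | C1 => simp
    | of w =>
      obtain j | j := w
      · ext <;> simp [φ, hat]
      · fin_cases j <;> ext <;> simp [φ, hat, ev, add_right_comm]
    | inv_of _ h => simpa using h
    | mul _ _ h k => simpa using h.mul_right k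
  · simpa using DFunLike.congr_fun h 0
  · rintro _ (rfl | h)
    · rw [φk, HO, if_pos O0]
      exact Equiv.addRight_zero
    obtain ⟨j, rfl | rfl | rfl⟩ := Set.mem_iUnion.1 h
    · simp only [φ, x, map_mul, map_inv, map_zpow, lift_apply_of, Sum.elim_inl, Sum.elim_inr, Matrix.cons_val_zero]
      simp only [← map_mul, ← map_inv, ← map_zpow]
      rw [← hat.map_one, mul_inv_eq_one.2 (mul_inv_eq_iff_eq_mul.2 _)]
      ext ⟨p, f⟩ : 1
      have : (∃ u : ℤ, p + m j = m j * u + a j) ↔ ∃ u : ℤ, p = m j * u + a j :=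
        ⟨fun ⟨u, h⟩ => ⟨u - 1, by push_cast; linear_combination h⟩, fun ⟨u, h⟩ => ⟨u + 1, by push_cast; linear_combination h⟩⟩
      simp only [Equiv.Perm.mul_apply, yz, r, Equiv.prodShear_apply, δ, Int.cast_natCast, this, Prod.mk.injEq, and_true]
      simp only [ψ, Equiv.coe_fn_mk]
      field_simp [m0 j]
      ring
    · rw [map_mul, map_mul, map_mul, map_inv, map_inv, φτ, φτ, mul_inv_eq_one]
      refine (hat_ev ..).trans (congrArg _ ?_)
      simp only [r, Equiv.prodShear_apply, δ]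
      rw [if_pos ⟨0, by simp⟩]
      ext <;> simp [ψ]
    · have : ∀ p, B (r j p) = B p := fun ⟨p, f⟩ => by
        simp only [B, r, Equiv.prodShear_apply, δ]
        split_ifs with h
        · obtain ⟨u, rfl⟩ := h
          have e : ψ j (m j * u + a j) = (n j * u + c j : ℤ) := by simp [ψ, m0]
          have := HO (m j * u + a j)
          rw [hO, ← HO, ← e] at this
          simpa [sub_eq_zero] using this.symm
        · simp
      rw [map_commutatorElement, commutatorElement_eq_one_iff_mul_comm]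
      ext <;> simp [φ, k, hat, ← this ((r j).symm _)]
  · let q := QuotientGroup.mk' (normalClosure R)
    have hq : ∀ g ∈ R, q g = 1 := fun g h => (QuotientGroup.eq_one_iff _).2 (subset_normalClosure h)
    have : ∀ u v, EqvGen (fun x y => ∃ j u, x = m j * u + a j ∧ y = n j * u + c j) u v → (Commute (q k) (q (τ u)) ↔ Commute (q k) (q (τ v))) := by
      intro u v h
      induction h with
      | refl => rfl
      | symm _ _ _ h => exact h.symm
      | trans _ _ _ _ _ h k => exact h.trans k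
      | rel _ _ h =>
        obtain ⟨j, u, rfl, rfl⟩ := h
        have h1 := hq _ (.inr (Set.mem_iUnion.2 ⟨j, .inl rfl⟩))
        have h2 := hq _ (.inr (Set.mem_iUnion.2 ⟨j, .inr (.inl rfl)⟩))
        have h3 := hq _ (.inr (Set.mem_iUnion.2 ⟨j, .inr (.inr rfl)⟩))
        rw [map_commutatorElement, commutatorElement_eq_one_iff_commute] at h3
        simp only [map_mul, map_inv, mul_inv_eq_one] at h1 h2
        have e : q (τ (n j * u + c j)) = q (of (.inl j)) * q (τ (m j * u + a j)) * (q (of (.inl j)))⁻¹ := by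
          have : ∀ v w, τ (v + w) = x ^ v * τ w * (x ^ v)⁻¹ := fun v w => by simp only [τ]; group
          simp only [this, zpow_mul, map_mul, map_inv, map_zpow _ _ u, ← h1, ← h2, conj_zpow]
          group
        rw [e]
        exact ⟨fun h => (h3.mul_right h).mul_right h3.inv_right, fun h => by simpa [mul_assoc] using (h3.inv_right.mul_right h).mul_right h3⟩
    have := (this _ _ (hE _ h)).2 (by rw [← commutatorElement_eq_one_iff_commute, ← map_commutatorElement]; exact hq _ (.inl rfl))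
    rw [← commutatorElement_eq_one_iff_commute, ← map_commutatorElement] at this
    simpa [τ] using (QuotientGroup.eq_one_iff _).1 this
  · simpa [τ, HO, h, x, k, -Int.cast_natCast] using φk (s u)

end Pool.Agent.Lib.NB
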