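import Mathlib

namespace Pool.Agent.Lib.TA

variable {D Γ Δ : Type}

open Classical in
noncomputable def graft (s : List D → Γ) (v : List D) (t : List D → Γ) (x : List D) : Γ := if v <+: x then t (x.drop v.length) else s x

def sub (t : List D → Γ) (v x : List D) : Γ := t (v ++ x)

def pr (t : List D → Γ) (u : List D → Δ) (x : List D) : Γ × Δ := (t x, u x)

def Fs [Bot Γ] (t : List D → Γ) : Prop := {x | t x ≠ ⊥}.Finite

def Ht [Bot Γ] (t : List D → Γ) (k : ℕ) : Prop := ∀ x, k ≤ x.length → t x = ⊥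

def Rec (N : ℕ) (R : (List D → Γ) → Prop) : Prop := ∃ (Θ : Type) (_ : Finite Θ) (τ : (List D → Γ) → Θ), Nat.card Θ ≤ N ∧
  ∀ s v t t', τ t = τ t' → R (graft s v t) → R (graft s v t')

@[simp] theorem graft_app (s : List D → Γ) (v t y) : graft s v t (v ++ y) = t y := by simp [graft]

theorem graft_not {s : List D → Γ} {v t x} (h : ¬ v <+: x) : graft s v t x = s x := if_neg h

theorem graft_sub (t : List D → Γ) (v) : graft t v (sub t v) = t := by
  ext x
  by_cases h : v <+: x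
  · obtain ⟨y, rfl⟩ := h; simp [sub]
  · exact graft_not h

theorem graft_map (φ : Γ → Δ) (s : List D → Γ) (v t) : (fun x => φ (graft s v t x)) = graft (fun x => φ (s x)) v fun x => φ (t x) := by
  ext x; unfold graft; split_ifs <;> rfl

theorem graft_pr (s : List D → Γ) (u : List D → Δ) (v t w) : pr (graft s v t) (graft u v w) = graft (pr s u) v (pr t w) := by
  ext1 x; unfold pr graft; split_ifs <;> rfl

theorem Fs.sub [Bot Γ] {t : List D → Γ} (h : Fs t) (v) : Fs (sub t v) := h.preimage (List.append_right_injective v).injOn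

theorem Fs.graft [Bot Γ] {s t : List D → Γ} (h : Fs s) (k : Fs t) (v) : Fs (graft s v t) :=
  (h.union (k.image (v ++ ·))).subset fun x hx => by
    by_cases e : v <+: x
    · obtain ⟨y, rfl⟩ := e; exact .inr ⟨y, by simpa using hx, rfl⟩
    · exact .inl (by simpa [graft_not e] using hx)

variable {N M : ℕ} {R S : (List D → Γ) → Prop}

theorem Rec.not (h : Rec N R) : Rec N fun t => ¬ R t :=
  let ⟨Θ, i, τ, a, b⟩ := h; ⟨Θ, i, τ, a, fun s v t t' e => mt (b s v t' t e.symm)⟩

theorem Rec.and (h : Rec N R) (k : Rec M S) : Rec (N * M) fun t => R t ∧ S t :=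
  let ⟨Θ, _, τ, a, b⟩ := h; let ⟨Θ', _, τ', a', b'⟩ := k
  ⟨Θ × Θ', inferInstance, fun t => (τ t, τ' t), (Nat.card_prod ..).trans_le (Nat.mul_le_mul a a'),
    fun s v t t' e => And.imp (b s v t t' (congrArg Prod.fst e)) (b' s v t t' (congrArg Prod.snd e))⟩

theorem Rec.map (h : Rec N R) (φ : Δ → Γ) : Rec N fun t => R fun x => φ (t x) :=
  let ⟨Θ, i, τ, a, b⟩ := h; ⟨Θ, i, fun t => τ fun x => φ (t x), a, fun s v t t' e => by simpa only [graft_map] using b _ v _ _ e⟩

theorem Rec.ex [Bot Δ] {R : (List D → Γ × Δ) → Prop} (h : Rec N R) : Rec (2 ^ N) fun t => ∃ u, Fs u ∧ R (pr t u) := by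
  obtain ⟨Θ, _, τ, a, b⟩ := h
  refine ⟨Set Θ, inferInstance, fun t => {θ | ∃ u, Fs u ∧ τ (pr t u) = θ}, by
    rw [show Set Θ = (Θ → Prop) from rfl, Nat.card_fun]; simpa using Nat.pow_le_pow_right two_pos a, ?_⟩
  rintro s v t t' e ⟨u, f, r⟩
  obtain ⟨w, g, k⟩ : τ (pr t (sub u v)) ∈ {θ | ∃ u, Fs u ∧ τ (pr t' u) = θ} := by
    rw [← show _ = {θ | ∃ u, Fs u ∧ τ (pr t' u) = θ} from e]; exact ⟨_, f.sub v, rfl⟩
  rw [← graft_sub u v, graft_pr] at r
  exact ⟨_, f.graft g v, graft_pr .. ▸ b _ _ _ _ k.symm r⟩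

theorem rec_root [Finite Γ] (C : Γ → Prop) : Rec (Nat.card Γ) fun t : List D → Γ => C (t []) :=
  ⟨Γ, ‹_›, fun t => t [], le_rfl, fun s v t t' e => by
    dsimp only [graft] at e ⊢
    split_ifs with h
    · simpa using fun h => e ▸ h
    · exact id⟩

theorem rec_loc [Finite Γ] [Finite D] (C : (List D → Γ) → Prop) (hC : ∀ t t', (∀ y, y.length ≤ 2 → t y = t' y) → C t → C t') :
    Rec (2 * Nat.card Γ ^ (Nat.card D + 1)) fun t => ∀ x, C (sub t x) := by
  refine ⟨Prop × (Option D → Γ), inferInstance, fun t => (∀ x, C (sub t x), fun o => t o.toList), by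
    simp [Nat.card_fun, Finite.card_option], fun s v t t' e h x => ?_⟩
  obtain ⟨e1, e2⟩ := Prod.ext_iff.1 e
  have a : ∀ t y, sub (graft s v t) (v ++ y) = sub t y := fun t y => by ext; simp [sub]
  by_cases k : v <+: x
  · obtain ⟨y, rfl⟩ := k
    rw [a]
    exact cast e1 (fun y => a t y ▸ h _) y
  refine hC _ _ (fun y hy => ?_) (h x)
  by_cases l : v <+: x ++ y
  · obtain ⟨z, l⟩ := l
    have : x.length < v.length := not_le.1 fun c => k (List.prefix_of_prefix_length_le ⟨z, l⟩ (List.prefix_append x y) c)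
    have := congrArg List.length l
    simp only [sub, ← l, graft_app]
    obtain _ | ⟨a, _ | _⟩ := z
    exacts [congrFun e2 none, congrFun e2 (some a), by simp at this; omega]
  · simp only [sub, graft_not l]

theorem rec_fs [Bot Γ] : Rec 2 (Fs : (List D → Γ) → Prop) :=
  ⟨Prop, inferInstance, Fs, by simp, fun s v t t' e h => by
    have := h.graft (cast e (show Fs t by convert h.sub v; ext; simp [sub])) v
    convert this using 1
    ext x
    by_cases k : v <+: x
    · obtain ⟨y, rfl⟩ := k; simp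
    · simp [graft_not k]⟩

theorem Rec.wit [Bot Γ] [Bot Δ] {R : (List D → Γ × Δ) → Prop} (h : Rec N R) {t k} (ht : Ht t k) {u} (f : Fs u) (r : R (pr t u)) :
    ∃ u, Fs u ∧ Ht u (k + N) ∧ R (pr t u) := by
  obtain ⟨Θ, _, τ, a, b⟩ := h
  let P : (List D → Δ) → Set (List D) := fun u => {x | ∃ y, u (x ++ y) ≠ ⊥}
  have pf : ∀ u, Fs u → (P u).Finite := fun u f => (f.biUnion fun x _ => x.inits.finite_toSet).subset
    fun x ⟨y, h⟩ => Set.mem_biUnion h (by simp)
  generalize e : (P u).ncard = c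
  induction c using Nat.strong_induction_on generalizing u with | _ c ih => ?_
  by_cases g : Ht u (k + N)
  · exact ⟨u, f, g, r⟩
  simp only [Ht, not_forall] at g
  obtain ⟨x, l, g⟩ := g
  obtain ⟨i, j, ij, e1⟩ : ∃ i j : Fin (N + 1), i < j ∧ τ (sub (pr t u) (x.take (k + i))) = τ (sub (pr t u) (x.take (k + j))) := by
    have := Fintype.ofFinite Θ
    obtain ⟨i, j, c, d⟩ := Fintype.exists_ne_map_eq_of_card_lt (fun i : Fin (N + 1) => τ (sub (pr t u) (x.take (k + i))))
      (by simpa [Nat.lt_succ_iff] using a)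
    exact c.lt_or_gt.elim (fun c => ⟨i, j, c, d⟩) fun c => ⟨j, i, c, d.symm⟩
  have l1 : (x.take (k + i)).length = k + i := by simp; omega
  have l2 : (x.take (k + j)).length = k + j := by simp; omega
  have m : x.take (k + i) ∈ P u := ⟨x.drop (k + i), by simpa using g⟩
  have p : x.take (k + i) <+: x.take (k + j) := List.take_prefix_take_left (by omega)
  generalize x.take (k + i) = v at *
  generalize x.take (k + j) = w at *
  have := b (pr t u) v _ _ e1 (by rwa [graft_sub])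
  refine ih _ ?_ (f.graft (f.sub w) v) (by
    convert this using 1
    rw [show sub (pr t u) w = pr (sub t w) (sub u w) from rfl, ← graft_pr]
    congr 1
    ext y
    by_cases c : v <+: y
    · obtain ⟨z, rfl⟩ := c
      rw [graft_app, sub, ht, ht] <;> simp <;> omega
    · exact (graft_not c).symm) rfl
  classical
  rw [← e]
  refine (Set.ncard_le_ncard_of_injOn (fun y => if v <+: y then w ++ y.drop v.length else y) (fun y hy => ?_) (fun y _ z _ h => ?_)
    ((pf u f).subset Set.sdiff_subset)).trans_lt (Set.ncard_sdiff_singleton_lt_of_mem m (pf u f))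
  · obtain ⟨z, h⟩ := hy
    split_ifs with c
    · obtain ⟨y, rfl⟩ := c
      refine ⟨⟨z, by simpa [sub] using h⟩, fun h => ?_⟩
      have := congrArg List.length h
      simp at this
      omega
    · refine ⟨?_, fun h => c (h ▸ List.prefix_rfl)⟩
      by_cases d : v <+: y ++ z
      · obtain ⟨s, rfl⟩ := (List.prefix_or_prefix_of_prefix d (List.prefix_append y z)).resolve_left c
        obtain ⟨q, m⟩ := m
        exact ⟨s ++ q, by simpa using m⟩
      · exact ⟨z, by simpa [graft_not d] using h⟩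
  · dsimp only at h
    split_ifs at h with c d d
    · obtain ⟨y, rfl⟩ := c
      obtain ⟨z, rfl⟩ := d
      simpa using h
    · exact absurd (h ▸ p.trans (List.prefix_append ..)) d
    · exact absurd (h ▸ p.trans (List.prefix_append ..)) c
    · exact h

section
variable {I : Type} (sz : I → ℕ)

class UF (Γ : I → Type) : Prop where
  out : ∃ c, Primrec c ∧ ∀ i, Finite (Γ i) ∧ Nat.card (Γ i) ≤ c (sz i)

theorem pw : Primrec₂ ((· ^ ·) : ℕ → ℕ → ℕ) := Primrec₂.unpaired'.1 Nat.Primrec.pow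

instance [Finite Γ] : UF sz fun _ => Γ := ⟨⟨_, .const (Nat.card Γ), fun _ => ⟨‹_›, le_rfl⟩⟩⟩
instance : UF sz fun i => Set (Fin (sz i)) := ⟨⟨_, pw.comp (.const 2) .id, fun i => ⟨inferInstance, by
  rw [show Set (Fin (sz i)) = (Fin (sz i) → Prop) from rfl, Nat.card_fun]; simp⟩⟩⟩
instance {Γ Δ : I → Type} [a : UF sz Γ] [b : UF sz Δ] : UF sz fun i => Γ i × Δ i :=
  let ⟨_, a, a'⟩ := a; let ⟨_, b, b'⟩ := b
  ⟨⟨_, Primrec.nat_mul.comp a b, fun i => have := (a' i).1; have := (b' i).1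
    ⟨inferInstance, (Nat.card_prod ..).trans_le (Nat.mul_le_mul (a' i).2 (b' i).2)⟩⟩⟩

variable {Γ Δ : I → Type}

def UR (R : ∀ i, (List D → Γ i) → Prop) : Prop := ∃ b, Primrec b ∧ ∀ i, Rec (b (sz i)) (R i)

variable {sz} {R S : ∀ i, (List D → Γ i) → Prop}

theorem Rec.mono {Γ : Type} {R : (List D → Γ) → Prop} (h : Rec N R) (k : N ≤ M) : Rec M R :=
  let ⟨Θ, i, τ, a, b⟩ := h; ⟨Θ, i, τ, a.trans k, b⟩

theorem UR.congr (h : UR sz R) (e : ∀ i t, R i t ↔ S i t) : UR sz S := by
  rwa [← show R = S from funext₂ fun i t => propext (e i t)]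
theorem UR.not (h : UR sz R) : UR sz fun i t => ¬ R i t := let ⟨b, p, h⟩ := h; ⟨b, p, fun i => (h i).not⟩
theorem UR.and (h : UR sz R) (k : UR sz S) : UR sz fun i t => R i t ∧ S i t :=
  let ⟨_, p, h⟩ := h; let ⟨_, q, k⟩ := k; ⟨_, Primrec.nat_mul.comp p q, fun i => (h i).and (k i)⟩
theorem UR.imp (h : UR sz R) (k : UR sz S) : UR sz fun i t => R i t → S i t := (h.and k.not).not.congr (by simp)
theorem UR.or (h : UR sz R) (k : UR sz S) : UR sz fun i t => R i t ∨ S i t := (h.not.imp k).congr (by simp [or_iff_not_imp_left])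
theorem UR.iff (h : UR sz R) (k : UR sz S) : UR sz fun i t => R i t ↔ S i t := ((h.imp k).and (k.imp h)).congr (by simp [iff_def])
theorem UR.map (h : UR sz R) (φ : ∀ i, Δ i → Γ i) : UR sz fun i t => R i fun x => φ i (t x) :=
  let ⟨b, p, h⟩ := h; ⟨b, p, fun i => (h i).map _⟩
theorem UR.ex [∀ i, Bot (Δ i)] {R : ∀ i, (List D → Γ i × Δ i) → Prop} (h : UR sz R) : UR sz fun i t => ∃ u, Fs u ∧ R i (pr t u) :=
  let ⟨_, p, h⟩ := h; ⟨_, pw.comp (.const 2) p, fun i => (h i).ex⟩
theorem UR.all [∀ i, Bot (Δ i)] {R : ∀ i, (List D → Γ i × Δ i) → Prop} (h : UR sz R) : UR sz fun i t => ∀ u, Fs u → R i (pr t u) :=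
  h.not.ex.not.congr (by simp)
theorem ur_fs [∀ i, Bot (Γ i)] : UR sz fun i => (Fs : (List D → Γ i) → Prop) := ⟨_, .const 2, fun _ => rec_fs⟩
theorem ur_root [h : UF sz Γ] (C : ∀ i, Γ i → Prop) : UR sz fun i (t : List D → Γ i) => C i (t []) :=
  let ⟨c, p, h⟩ := h; ⟨c, p, fun i => have := (h i).1; (rec_root _).mono (h i).2⟩
theorem ur_loc [Finite D] [h : UF sz Γ] (C : ∀ i, (List D → Γ i) → Prop)
    (hC : ∀ i t t', (∀ y, y.length ≤ 2 → t y = t' y) → C i t → C i t') : UR sz fun i t => ∀ x, C i (sub t x) :=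
  let ⟨_, p, h⟩ := h; ⟨_, Primrec.nat_mul.comp (.const 2) (pw.comp p (.const (Nat.card D + 1))), fun i =>
    have := (h i).1; (rec_loc _ (hC i)).mono (by gcongr; exact (h i).2)⟩
theorem ur_pt [Finite D] [UF sz Γ] (C : ∀ i, Γ i → Prop) : UR sz fun i (t : List D → Γ i) => ∀ x, C i (t x) :=
  (ur_loc (fun i t => C i (t [])) fun _ _ _ h k => h [] (by simp) ▸ k).congr (by simp [sub])

end

end Pool.Agent.Lib.TA
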