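import Mathlib

/-! A nonnegative integer quartic with a real zero has a zero of doubly exponential size. -/

namespace Pool.Agent.Lib.ER

open Finset Filter Topology

set_option linter.unusedSectionVars false

variable {ι : Type} [Fintype ι] [DecidableEq ι]

def mono (β : ι → ℕ) (x : ι → ℝ) : ℝ := ∏ i, x i ^ β i

theorem mono_add (β γ : ι → ℕ) (x) : mono (β + γ) x = mono β x * mono γ x := by
  simp [mono, pow_add, prod_mul_distrib]

theorem mono_single (i : ι) (k x) : mono (Pi.single i k) x = x i ^ k := by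
  rw [mono, prod_eq_single i] <;> simp +contextual [Pi.single_apply]

inductive Po (d : ℕ) : ℕ → ((ι → ℝ) → ℝ) → Prop
  | mono (γ) : ∑ i, γ i ≤ d → Po d 1 (mono γ)
  | zero (B) : Po d B fun _ => 0
  | neg {B f} : Po d B f → Po d B fun x => -f x
  | add {B C f g} : Po d B f → Po d C g → Po d (B + C) fun x => f x + g x

theorem Po.congr {d B} {f g : (ι → ℝ) → ℝ} (h : Po d B f) (e : ∀ x, g x = f x) : Po d B g := by
  rwa [funext e]

theorem Po.le {d B C} {f : (ι → ℝ) → ℝ} (h : Po d B f) (l : B ≤ C) : Po d C f := by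
  obtain ⟨k, rfl⟩ := Nat.exists_eq_add_of_le l
  exact (h.add (.zero k)).congr (by simp)

theorem Po.deg {d e B} {f : (ι → ℝ) → ℝ} (h : Po d B f) (l : d ≤ e) : Po e B f := by
  induction h with
  | mono γ h => exact .mono γ (h.trans l)
  | zero B => exact .zero B
  | neg _ ih => exact ih.neg
  | add _ _ ih ih' => exact ih.add ih'

theorem Po.var {d B} {f : (ι → ℝ) → ℝ} (h : Po d B f) (v : ι) : Po (d + 1) B fun x => x v * f x := by
  induction h with
  | mono γ h =>
    exact (Po.mono (Pi.single v 1 + γ) (by simp [sum_add_distrib]; omega)).congr fun x => by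
      rw [mono_add, mono_single, pow_one]
  | zero B => exact (Po.zero B).congr (by simp)
  | neg _ ih => exact ih.neg.congr (by simp)
  | add _ _ ih ih' => exact (ih.add ih').congr fun x => mul_add _ _ _

theorem Po.one {d} : Po d 1 fun _ : ι → ℝ => 1 := (Po.mono 0 (by simp)).congr (by simp [ER.mono])

theorem Po.ite {d B} {f : (ι → ℝ) → ℝ} (h : Po d B f) (c : Prop) [Decidable c] :
    Po d B fun x => if c then f x else 0 := by
  by_cases hc : c
  · simpa [hc] using h
  · simpa [hc] using Po.zero B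

def Rep (R : ι → (ι → ℝ) → ℝ) (J B : ℕ) (f : (ι → ℝ) → ℝ → ℝ) : Prop :=
  ∃ c : (ι → Fin 5) × Fin (J + 1) → ℤ, (∀ p, |c p| ≤ B) ∧ ∀ x δ, (∀ i, x i ^ 5 = δ * R i x) →
    f x δ = ∑ p, c p * (mono (fun i => p.1 i) x * δ ^ p.2.1)

theorem rep_po {R : ι → (ι → ℝ) → ℝ} {J K s j : ℕ} (ih : ∀ β : ι → ℕ, ∑ i, β i ≤ s → Rep R J K fun x δ => mono β x * δ ^ j)
    {B f} (h : Po 3 B f) (β : ι → ℕ) (hβ : ∑ i, β i + 3 ≤ s) : Rep R J (B * K) fun x δ => mono β x * δ ^ j * f x := by
  induction h with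
  | mono γ h =>
    obtain ⟨c, h1, h2⟩ := ih (β + γ) (by simp [sum_add_distrib]; omega)
    exact ⟨c, by simpa using h1, fun x δ hx => by rw [← h2 x δ hx]; beta_reduce; rw [mono_add]; ring⟩
  | zero B => exact ⟨0, fun _ => by simp; positivity, by simp⟩
  | neg _ ih =>
    obtain ⟨c, h1, h2⟩ := ih
    exact ⟨-c, by simpa using h1, fun x δ hx => by simp [← h2 x δ hx]⟩
  | add _ _ ih ih' =>
    obtain ⟨c, h1, h2⟩ := ih
    obtain ⟨c', h1', h2'⟩ := ih'
    refine ⟨c + c', fun p => (abs_add_le _ _).trans ?_, fun x δ hx => ?_⟩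
    · have := h1 p
      have := h1' p
      push_cast at *
      linarith
    · have a := h2 x δ hx
      have b := h2' x δ hx
      simp only [Pi.add_apply, Int.cast_add, add_mul, sum_add_distrib, mul_add] at a b ⊢
      rw [a, b]

theorem rep_mono {R : ι → (ι → ℝ) → ℝ} {H J : ℕ} (h1 : 1 ≤ H) (po : ∀ i, Po 3 H (R i)) (s : ℕ) :
    ∀ j, s + j ≤ J → ∀ β : ι → ℕ, ∑ i, β i ≤ s → Rep R J (H ^ s) fun x δ => mono β x * δ ^ j := by
  induction s with
  | zero =>
    intro j hj β hβ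
    have : β = 0 := funext fun i => by have := single_le_sum (f := β) (fun _ _ => Nat.zero_le _) (mem_univ i); simp; omega
    subst this
    refine ⟨Pi.single (0, ⟨j, by omega⟩) 1, fun p => ?_, fun x δ _ => ?_⟩
    · rw [Pi.single_apply]; split_ifs <;> simp
    · rw [sum_eq_single (0, ⟨j, by omega⟩)] <;> simp +contextual [Pi.single_apply, mono]
  | succ s ih =>
    intro j hj β hβ
    by_cases c : ∀ i, β i < 5
    · refine ⟨Pi.single (fun i => ⟨β i, c i⟩, ⟨j, by omega⟩) 1, fun p => ?_, fun x δ _ => ?_⟩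
      · have : (1 : ℤ) ≤ (H ^ (s + 1) : ℕ) := by exact_mod_cast Nat.one_le_pow _ _ h1
        rw [Pi.single_apply]; split_ifs <;> simp at this ⊢ <;> linarith
      · rw [sum_eq_single (fun i => ⟨β i, c i⟩, ⟨j, by omega⟩)] <;> simp +contextual [Pi.single_apply]
    · push Not at c
      obtain ⟨i, hi⟩ := c
      obtain ⟨γ, rfl⟩ : ∃ γ, β = γ + Pi.single i 5 := ⟨β - Pi.single i 5, funext fun k => by
        by_cases e : k = i <;> simp [e, hi]⟩
      simp [sum_add_distrib] at hβ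
      obtain ⟨c, h2, h3⟩ := rep_po (ih (j + 1) (by omega)) (po i) γ (by omega)
      exact ⟨c, fun p => by rw [pow_succ']; exact h2 p, fun x δ hx => by
        rw [← h3 x δ hx]; beta_reduce; rw [mono_add, mono_single, hx i]; ring⟩

attribute [local instance] Matrix.seminormedAddCommGroup in
theorem relation {R : ι → (ι → ℝ) → ℝ} {H : ℕ} (h1 : 1 ≤ H) (po : ∀ i, Po 3 H (R i)) {K : ℕ}
    (hK : K = 4 * 5 ^ Fintype.card ι) (i : ι) :
    ∃ t : Fin (K + 1) × Fin (K + 1) → ℤ, t ≠ 0 ∧ (∀ p, (|t p| : ℝ) ≤ (K + 1) ^ 2 * H ^ K) ∧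
      ∀ x δ, (∀ i, x i ^ 5 = δ * R i x) → ∑ p, t p * (x i ^ p.1.1 * δ ^ p.2.1) = 0 := by
  have : ∀ p : Fin (K + 1) × Fin (K + 1), Rep R (2 * K) (H ^ K) fun x δ => mono (Pi.single i p.1.1) x * δ ^ p.2.1 :=
    fun p => rep_mono h1 po K _ (by have := p.2.2; omega) _ (by have := p.1.2; simp; omega)
  choose c hc1 hc2 using this
  have p5 : 0 < 5 ^ Fintype.card ι := by positivity
  have e1 : Fintype.card ((ι → Fin 5) × Fin (2 * K + 1)) = 5 ^ Fintype.card ι * (2 * K + 1) := by simp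
  have e2 : Fintype.card (Fin (K + 1) × Fin (K + 1)) = (K + 1) ^ 2 := by simp [sq]
  have l : 2 * (5 ^ Fintype.card ι * (2 * K + 1)) < (K + 1) ^ 2 := by
    generalize 5 ^ Fintype.card ι = q at *
    subst hK; nlinarith
  obtain ⟨t, h0, h2, h3⟩ := Int.Matrix.exists_ne_zero_int_vec_norm_le (Matrix.of fun q p => c p q)
    (by rw [e1, e2]; omega) (by rw [e1]; positivity)
  rw [e1, e2] at h3
  have hH : (1 : ℝ) ≤ H ^ K := by exact_mod_cast Nat.one_le_pow _ _ h1
  have nA : max 1 ‖(Matrix.of fun q p => c p q)‖ ≤ (H : ℝ) ^ K := max_le hH ((Matrix.norm_le_iff (by positivity)).2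
    fun q p => by rw [Int.norm_eq_abs]; exact_mod_cast hc1 p q)
  refine ⟨t, h0, fun p => ?_, fun x δ hx => ?_⟩
  · have b1 : (1 : ℝ) ≤ ((K + 1) ^ 2 : ℕ) := by exact_mod_cast Nat.one_le_pow _ _ (by omega)
    have b2 : (1 : ℝ) ≤ ((K + 1) ^ 2 : ℕ) * max 1 ‖(Matrix.of fun q p => c p q)‖ :=
      one_le_mul_of_one_le_of_one_le b1 (le_max_left _ _)
    have l' : (2 : ℝ) * (5 ^ Fintype.card ι * (2 * K + 1) : ℕ) < ((K + 1) ^ 2 : ℕ) := by exact_mod_cast l
    have l0 : (0 : ℝ) ≤ (5 ^ Fintype.card ι * (2 * K + 1) : ℕ) := Nat.cast_nonneg _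
    have := h3.trans (Real.rpow_le_rpow_of_exponent_le b2 (z := 1) ((div_le_one (by linarith)).2 (by linarith)))
    rw [Real.rpow_one] at this
    have h4 := (norm_le_pi_norm t p).trans this
    rw [Int.norm_eq_abs] at h4
    refine h4.trans ?_
    push_cast
    gcongr
  · have : ∀ q, ∑ p, (c p q : ℝ) * t p = 0 := fun q => by
      have := congrFun h2 q
      simp only [Matrix.mulVec, dotProduct, Matrix.of_apply, Pi.zero_apply] at this
      exact_mod_cast this
    simp only [← mono_single i, fun p => hc2 p x δ hx, mul_sum]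
    rw [sum_comm]
    refine sum_eq_zero fun q _ => ?_
    rw [← zero_mul (mono (fun i => q.1 i) x * δ ^ q.2.1), ← this q, sum_mul]
    exact sum_congr rfl fun p _ => by ring

theorem root_bound {K : ℕ} (c : Fin K → ℤ) (hc : c ≠ 0) {T u : ℝ} (hT : ∀ a, (|c a| : ℝ) ≤ T)
    (h : ∑ a, c a * u ^ a.1 = 0) : |u| ≤ T + 1 := by
  obtain ⟨a, ha, hm⟩ := exists_max_image (univ.filter fun a => c a ≠ 0) id (by
    by_contra e
    exact hc (funext fun a => by simpa using fun h => e ⟨a, mem_filter.2 ⟨mem_univ a, h⟩⟩))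
  by_contra e
  push Not at e
  have T0 : 0 ≤ T := (abs_nonneg _).trans (hT a)
  have a1 : (1 : ℝ) ≤ |(c a : ℝ)| := by exact_mod_cast Int.one_le_abs (mem_filter.1 ha).2
  rw [← add_sum_erase _ _ (mem_univ a)] at h
  have b : |∑ b ∈ univ.erase a, (c b : ℝ) * u ^ b.1| ≤ T * ∑ b ∈ range a.1, |u| ^ b := by
    refine (abs_sum_le_sum_abs _ _).trans ?_
    rw [← sum_subset (s₁ := univ.filter (· < a)) (fun b hb => mem_erase.2 ⟨(mem_filter.1 hb).2.ne, mem_univ b⟩)
      fun b hb hb' => ?_, mul_sum]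
    · refine (sum_le_sum fun b _ => show _ ≤ T * |u| ^ b.1 by rw [abs_mul, abs_pow]; gcongr; exact hT b).trans ?_
      rw [← sum_image (f := fun b => T * |u| ^ b) (g := Fin.val) fun _ _ _ _ h => Fin.ext h]
      refine sum_le_sum_of_subset_of_nonneg (fun b hb => ?_) fun _ _ _ => by positivity
      obtain ⟨k, hk, rfl⟩ := mem_image.1 hb
      exact mem_range.2 (mem_filter.1 hk).2
    · have : c b = 0 := by
        by_contra c0
        exact hb' (mem_filter.2 ⟨mem_univ b, lt_of_le_of_ne (hm b (mem_filter.2 ⟨mem_univ b, c0⟩)) (mem_erase.1 hb).1⟩)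
      simp [this]
  rw [← neg_eq_iff_add_eq_zero.2 h, abs_neg, abs_mul, abs_pow] at b
  have g := mul_geom_sum |u| a.1
  have s0 : 0 ≤ ∑ b ∈ range a.1, |u| ^ b := by positivity
  have : 0 ≤ |u| ^ a.1 := by positivity
  nlinarith

theorem ball_core {P : (ι → ℝ) → ℝ} {R : ι → (ι → ℝ) → ℝ} {H : ℕ} (h1 : 1 ≤ H) (po : ∀ i, Po 3 H (R i))
    (p0 : ∀ x, 0 ≤ P x) (pc : Continuous P) (der : ∀ x i, HasDerivAt (fun t => P (Function.update x i t)) (-R i x) (x i))
    {y} (hy : P y = 0) : ∃ x, P x = 0 ∧ ∀ i, |x i| ≤ ((4 * 5 ^ Fintype.card ι : ℕ) + 1) ^ 2 * H ^ (4 * 5 ^ Fintype.card ι) + 1 := by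
  set C := ∑ i, y i ^ 6 with hC
  have s6 : ∀ (x : ι → ℝ) i, x i ^ 6 ≤ ∑ i, x i ^ 6 := fun x i =>
    single_le_sum (f := fun i => x i ^ 6) (fun _ _ => by positivity) (mem_univ i)
  have a6 : ∀ u : ℝ, |u| ≤ u ^ 6 + 1 := fun u => by
    rw [← Even.pow_abs (by decide) u]
    rcases le_total |u| 1 with h | h
    · have : 0 ≤ |u| ^ 6 := by positivity
      linarith
    · have := le_self_pow₀ h (n := 6) (by decide)
      linarith
  have C0 : 0 ≤ C := sum_nonneg fun _ _ => by positivity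
  have inK : ∀ x : ι → ℝ, ∑ i, x i ^ 6 ≤ C → x ∈ Metric.closedBall (0 : ι → ℝ) (C + 1) := fun x hx => by
    rw [mem_closedBall_zero_iff, pi_norm_le_iff_of_nonneg (by linarith)]
    intro i
    have := a6 (x i)
    have := s6 x i
    rw [Real.norm_eq_abs]; linarith
  have ex : ∀ k : ℕ, ∃ x ∈ Metric.closedBall (0 : ι → ℝ) (C + 1), ((k : ℝ) + 1) * P x ≤ C ∧
      ∀ i, x i ^ 5 = ((k : ℝ) + 1) * R i x := fun k => by
    obtain ⟨x, hx, hm⟩ := (isCompact_closedBall (0 : ι → ℝ) (C + 1)).exists_isMinOn ⟨y, inK y le_rfl⟩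
      (f := fun x => 6 * ((k : ℝ) + 1) * P x + ∑ i, x i ^ 6) (by fun_prop)
    have m1 : 6 * ((k : ℝ) + 1) * P x + ∑ i, x i ^ 6 ≤ C := by simpa [hy] using hm (inK y le_rfl)
    have q : ∀ z, 0 ≤ ((k : ℝ) + 1) * P z := fun z => mul_nonneg (by positivity) (p0 z)
    have gl : ∀ z, 6 * ((k : ℝ) + 1) * P x + ∑ i, x i ^ 6 ≤ 6 * ((k : ℝ) + 1) * P z + ∑ i, z i ^ 6 := fun z => by
      by_cases c : ∑ i, z i ^ 6 ≤ C
      · exact hm (inK z c)
      · have := q z
        linarith
    refine ⟨x, hx, by have := q x; have : 0 ≤ ∑ i, x i ^ 6 := sum_nonneg fun _ _ => by positivity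
                      linarith, fun i => ?_⟩
    have d : HasDerivAt (fun t => 6 * ((k : ℝ) + 1) * P (Function.update x i t) +
        (t ^ 6 + ∑ j ∈ univ \ {i}, x j ^ 6)) (6 * ((k : ℝ) + 1) * -R i x + 6 * x i ^ 5) (x i) :=
      ((der x i).const_mul _).add (HasDerivAt.add_const _ (by simpa using hasDerivAt_pow 6 (x i)))
    have e : ∀ t, ∑ j, Function.update x i t j ^ 6 = t ^ 6 + ∑ j ∈ univ \ {i}, x j ^ 6 := fun t => by
      rw [← sum_update_of_mem (mem_univ i)]
      exact sum_congr rfl fun j _ => Function.apply_update (fun _ u => u ^ 6) x i t j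
    have := IsLocalMin.hasDerivAt_eq_zero (Eventually.of_forall fun t => by
      have := gl (Function.update x i t)
      rw [e] at this
      simpa [← e] using this) d
    linarith
  choose x hx h2 h3 using ex
  obtain ⟨z, -, φ, hφ, lim⟩ := (isCompact_closedBall (0 : ι → ℝ) (C + 1)).tendsto_subseq hx
  have lim0 : Tendsto (fun k => ((φ k : ℝ) + 1)⁻¹) atTop (𝓝 0) := by
    simpa only [Function.comp_def, one_div] using (tendsto_one_div_add_atTop_nhds_zero_nat (𝕜 := ℝ)).comp hφ.tendsto_atTop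
  refine ⟨z, le_antisymm ?_ (p0 z), fun i => ?_⟩
  · refine le_of_tendsto_of_tendsto' ((pc.tendsto z).comp lim) (by simpa using lim0.const_mul C) fun k => ?_
    exact (le_mul_inv_iff₀ (by positivity)).2 (by rw [mul_comm]; exact h2 (φ k))
  · obtain ⟨t, t0, t1, t2⟩ := relation h1 po rfl i
    generalize 4 * 5 ^ Fintype.card ι = K at *
    obtain ⟨p, hp, hm⟩ := exists_max_image (univ.filter fun p => t p ≠ 0) (fun p => p.2) (by
      by_contra e
      exact t0 (funext fun a => by simpa using fun h => e ⟨a, mem_filter.2 ⟨mem_univ a, h⟩⟩))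
    have hm' : ∀ q, t q = 0 ∨ q.2.1 ≤ p.2.1 := fun q => by
      by_contra c
      push Not at c
      exact absurd (hm q (mem_filter.2 ⟨mem_univ q, c.1⟩)) (not_le.2 c.2)
    refine root_bound (fun a => t (a, p.2)) (fun e => (mem_filter.1 hp).2 (congrFun e p.1)) (fun a => t1 _) ?_
    have g : Continuous fun w : ℝ × ℝ => ∑ q, (t q : ℝ) * (w.1 ^ q.1.1 * w.2 ^ (p.2.1 - q.2.1)) := by fun_prop
    have l2 := (g.tendsto (z i, 0)).comp ((((continuous_apply i).tendsto z).comp lim).prodMk_nhds lim0)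
    have : ∑ q, (t q : ℝ) * (z i ^ q.1.1 * 0 ^ (p.2.1 - q.2.1)) = 0 := by
      refine tendsto_nhds_unique l2 (tendsto_const_nhds.congr fun k => ?_)
      have := congrArg (· * (((φ k : ℝ) + 1)⁻¹) ^ p.2.1) (t2 _ _ (h3 (φ k)))
      simp only [zero_mul, sum_mul] at this
      rw [← this]
      refine sum_congr rfl fun q _ => ?_
      rcases hm' q with c | c
      · simp [c]
      · obtain ⟨r, hr⟩ := Nat.exists_eq_add_of_le c
        simp only [Function.comp, hr, Nat.add_sub_cancel_left]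
        rw [pow_add, mul_assoc, mul_assoc, ← mul_assoc (_ ^ q.2.1), ← mul_pow, mul_inv_cancel₀ (by positivity), one_pow,
          one_mul]
    rw [← this, Fintype.sum_prod_type]
    refine sum_congr rfl fun a _ => ?_
    rw [sum_eq_single p.2 _ (by simp)]
    · simp
    · intro b _ hb
      rcases hm' (a, b) with c | c
      · simp [c]
      · have : p.2.1 - b.1 ≠ 0 := by have := Fin.val_ne_of_ne hb; simp at c; omega
        simp [this]

end Pool.Agent.Lib.ER
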