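import Mathlib

namespace Pool.Agent.Lib.helper22.Lind

open Filter Topology ZeroAtInfty

abbrev C0 : Type := C₀(ℕ, ℝ)

theorem co (x : C0) (n : ℕ) : |x n| ≤ ‖x‖ := x.toBCF.norm_coe_le_norm n

theorem nle (x : C0) {r : ℝ} (hr : 0 ≤ r) (h : ∀ n, |x n| ≤ r) : ‖x‖ ≤ r :=
  (BoundedContinuousFunction.norm_le (f := x.toBCF) hr).2 h

noncomputable def e (n : ℕ) : C0 :=
  ⟨⟨fun k => if k = n then 1 / 2 else 0, continuous_of_discreteTopology⟩, by
    rw [cocompact_eq_atTop]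
    exact tendsto_const_nhds.congr' ((eventually_ne_atTop n).mono fun k h => (if_neg h).symm)⟩

theorem e_app (n k : ℕ) : e n k = if k = n then 1 / 2 else 0 := rfl

theorem flat (x : C0) (hx : ‖x‖ ≤ 1) : ∃ n, ‖x + e n‖ ≤ 1 ∧ ‖x - e n‖ ≤ 1 := by
  obtain ⟨n, hn⟩ := ((zero_at_infty x).abs.eventually
    (gt_mem_nhds (by simp : |(0 : ℝ)| < 1 / 2))).exists
  refine ⟨n, nle _ zero_le_one fun k => ?_, nle _ zero_le_one fun k => ?_⟩ <;>
  · have := abs_le.1 ((co x k).trans hx)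
    have := abs_lt.1 hn
    simp only [ZeroAtInftyContinuousMap.add_apply, ZeroAtInftyContinuousMap.sub_apply, e_app, abs_le]
    split_ifs with h
    · subst h; constructor <;> linarith
    · simpa using abs_le.1 ((co x k).trans hx)

abbrev L2 : Type := lp (fun _ : ℕ => ℝ) 2

noncomputable def w : L2 := ⟨fun n => (1 / 2) ^ n, .of_exponent_ge (q := 1)
  (memℓp_gen (by simpa using summable_geometric_two)) one_le_two⟩

theorem wle (x : C0) (n : ℕ) : ‖x n * w n‖ ≤ ‖(‖x‖ • w) n‖ := by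
  rw [lp.coeFn_smul, Pi.smul_apply, norm_smul, norm_mul, norm_norm]
  exact mul_le_mul_of_nonneg_right (co x n) (norm_nonneg _)

noncomputable def D : C0 →L[ℝ] L2 :=
  LinearMap.mkContinuous ⟨⟨fun x => ⟨fun n => x n * w n, (lp.memℓp _).mono' (wle x)⟩,
    fun _ _ => lp.ext (funext fun _ => add_mul _ _ _)⟩,
    fun _ _ => lp.ext (funext fun _ => mul_assoc _ _ _)⟩ ‖w‖ fun x =>
    (lp.norm_mono two_ne_zero (wle x)).trans_eq (by rw [norm_smul, norm_norm, mul_comm])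

noncomputable def G : Submodule ℝ (WithLp 2 (C0 × L2)) :=
  (D ∘L WithLp.fstL 2 ℝ C0 L2 - WithLp.sndL 2 ℝ C0 L2).ker

def Y : Type := G
noncomputable instance : NormedAddCommGroup Y := inferInstanceAs (NormedAddCommGroup G)
noncomputable instance : NormedSpace ℝ Y := inferInstanceAs (NormedSpace ℝ G)
instance : CompleteSpace Y :=
  (ContinuousLinearMap.isClosed_ker _).isComplete.completeSpace_coe

theorem nsq (u : Y) : ‖u‖ ^ 2 = ‖u.1.fst‖ ^ 2 + ‖u.1.snd‖ ^ 2 := WithLp.prod_norm_sq_eq_of_L2 u.1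

theorem strict (u v : Y) (h1 : ‖u + v‖ ≤ ‖u‖) (h2 : ‖u - v‖ ≤ ‖u‖) : v = 0 := by
  have a1 := pow_le_pow_left₀ (norm_nonneg _) h1 2
  have a2 := pow_le_pow_left₀ (norm_nonneg _) h2 2
  rw [nsq, nsq] at a1 a2
  change ‖u.1.fst + v.1.fst‖ ^ 2 + ‖u.1.snd + v.1.snd‖ ^ 2 ≤ _ at a1
  change ‖u.1.fst - v.1.fst‖ ^ 2 + ‖u.1.snd - v.1.snd‖ ^ 2 ≤ _ at a2
  have a3 := parallelogram_law_with_norm ℝ u.1.snd v.1.snd
  have a4 := norm_add_le (u.1.fst + v.1.fst) (u.1.fst - v.1.fst)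
  rw [add_add_sub_cancel, ← two_smul ℝ, norm_smul, Real.norm_two] at a4
  have a5 : v.1.snd = 0 := norm_eq_zero.1 (pow_eq_zero_iff two_ne_zero |>.1 (le_antisymm (by
    nlinarith [sq_nonneg (‖u.1.fst + v.1.fst‖ - ‖u.1.fst - v.1.fst‖), norm_nonneg u.1.fst,
      pow_le_pow_left₀ (by positivity) a4 2]) (sq_nonneg _)))
  have a6 : D v.1.fst = 0 := (sub_eq_zero.1 v.2).trans a5
  have a7 : v.1.fst = 0 := ZeroAtInftyContinuousMap.ext fun n =>
    (mul_eq_zero.1 (congrArg (· n) a6 : v.1.fst n * (1 / 2) ^ n = 0)).resolve_right (by positivity)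
  exact norm_eq_zero.1 (pow_eq_zero_iff two_ne_zero |>.1 (by rw [nsq, a5, a7]; simp))

noncomputable def T0 : C0 →L[ℝ] Y :=
  ((WithLp.prodContinuousLinearEquiv 2 ℝ C0 L2).symm.toContinuousLinearMap ∘L
    (ContinuousLinearMap.id ℝ C0).prod D).codRestrict G fun _ => sub_self _

theorem le_T0 (x : C0) : ‖x‖ ≤ ‖T0 x‖ := WithLp.norm_fst_le _ (T0 x).1

theorem far (S : C0 →L[ℝ] Y) (x : C0) (hx : ‖x‖ ≤ 1) (h : ‖S‖ ≤ ‖S x‖) (c : ℝ) :
    |c| ≤ ‖S - c • T0‖ := by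
  obtain ⟨n, h1, h2⟩ := flat x hx
  have h3 := strict (S x) (S (e n)) (by rw [← map_add]; exact (S.unit_le_opNorm _ h1).trans h)
    (by rw [← map_sub]; exact (S.unit_le_opNorm _ h2).trans h)
  have h4 := (S - c • T0).le_opNorm (e n)
  rw [sub_apply, h3, zero_sub, norm_neg, smul_apply, norm_smul] at h4
  have h5 : 0 < ‖e n‖ := lt_of_lt_of_le (by simp [e_app]) (co _ n)
  exact le_of_mul_le_mul_right ((mul_le_mul_of_nonneg_left (le_T0 _) (abs_nonneg c)).trans h4) h5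

end Pool.Agent.Lib.helper22.Lind
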