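import Mathlib

namespace Pool.Agent.Lib.DG

open CategoryTheory

variable {S : Type} (R : Set (List S × List S))

/-- vertices of the Squier complex -/
structure W (R : Set (List S × List S)) where
  w : List S

/-- edges of the Squier complex -/
instance : Quiver (W R) := ⟨fun p q => {e : List S × (List S × List S) × List S //
  e.2.1 ∈ R ∧ p.w = e.1 ++ e.2.1.1 ++ e.2.2 ∧ q.w = e.1 ++ e.2.1.2 ++ e.2.2}⟩

/-- squares of the Squier complex -/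
inductive Sq : HomRel (Quiver.FreeGroupoid (W R))
  | mk {p q q' s : W R} (e₁ : p ⟶ q) (e₂ : q ⟶ s) (e₃ : p ⟶ q') (e₄ : q' ⟶ s) (a b c : List S) (r r' : List S × List S)
    (h₁ : e₁.1 = (a, r, b ++ r'.1 ++ c)) (h₂ : e₂.1 = (a ++ r.2 ++ b, r', c)) (h₃ : e₃.1 = (a ++ r.1 ++ b, r', c))
    (h₄ : e₄.1 = (a, r, b ++ r'.2 ++ c)) :
    Sq ((Quiver.FreeGroupoid.of _).map e₁ ≫ (Quiver.FreeGroupoid.of _).map e₂) ((Quiver.FreeGroupoid.of _).map e₃ ≫ (Quiver.FreeGroupoid.of _).map e₄)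

/-- the diagram group: fundamental group of the Squier complex at `w` -/
abbrev D (w : List S) : Type := End ((Quotient.functor (Sq R)).obj ((Quiver.FreeGroupoid.of (W R)).obj ⟨w⟩))

abbrev ob (w : W R) : CategoryTheory.Quotient (Sq R) := (Quotient.functor (Sq R)).obj ((Quiver.FreeGroupoid.of (W R)).obj w)

variable {R}

def ed {p q : W R} (e : p ⟶ q) : ob R p ⟶ ob R q := (Quotient.functor (Sq R)).map ((Quiver.FreeGroupoid.of (W R)).map e)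

theorem sq {p q q' s : W R} (e₁ : p ⟶ q) (e₂ : q ⟶ s) (e₃ : p ⟶ q') (e₄ : q' ⟶ s) (a b c : List S) (r r' : List S × List S)
    (h₁ : e₁.1 = (a, r, b ++ r'.1 ++ c)) (h₂ : e₂.1 = (a ++ r.2 ++ b, r', c)) (h₃ : e₃.1 = (a ++ r.1 ++ b, r', c))
    (h₄ : e₄.1 = (a, r, b ++ r'.2 ++ c)) : ed e₁ ≫ ed e₂ = ed e₃ ≫ ed e₄ :=
  CategoryTheory.Quotient.sound _ (Sq.mk e₁ e₂ e₃ e₄ a b c r r' h₁ h₂ h₃ h₄)

theorem lift {G : Type} [Group G] (σ : List S × (List S × List S) × List S → G) (h : ∀ a b c, ∀ r ∈ R, ∀ r' ∈ R,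
    σ (a ++ r.2 ++ b, r', c) * σ (a, r, b ++ r'.1 ++ c) = σ (a, r, b ++ r'.2 ++ c) * σ (a ++ r.1 ++ b, r', c)) :
    ∃ Φ : CategoryTheory.Quotient (Sq R) ⥤ SingleObj G, ∀ (p q : W R) (e : p ⟶ q), Φ.map (ed e) = σ e.1 := by
  let φ : W R ⥤q SingleObj G := ⟨fun _ => SingleObj.star G, fun e => σ e.1⟩
  have : ∀ (p q : W R) (e : p ⟶ q), (Quiver.FreeGroupoid.lift φ).map ((Quiver.FreeGroupoid.of _).map e) = σ e.1 := fun _ _ _ => mul_one _
  refine ⟨CategoryTheory.Quotient.lift _ (Quiver.FreeGroupoid.lift φ) ?_, this⟩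
  rintro _ _ _ _ ⟨e₁, e₂, e₃, e₄, a, b, c, r, r', h₁, h₂, h₃, h₄⟩
  simp only [Functor.map_comp, this, SingleObj.comp_as_mul, h₁, h₂, h₃, h₄]
  exact h a b c r (by simpa [h₁] using e₁.2.1) r' (by simpa [h₂] using e₂.2.1)

end Pool.Agent.Lib.DG
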