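import Mathlib
import Pool.Agent.Lib.helper22.DG

namespace Pool.Agent.Lib.DG

open CategoryTheory

variable {S : Type} {R : Set (List S × List S)}

theorem ind {p : W R} (P : ∀ q : W R, (ob R p ⟶ ob R q) → Prop) (h0 : P p (𝟙 _))
    (h1 : ∀ q s f (e : q ⟶ s), P q f → P s (f ≫ ed e)) (h2 : ∀ q s f (e : s ⟶ q), P q f → P s (f ≫ inv (ed e))) {q : W R} (f : ob R p ⟶ ob R q) : P q f := by
  refine Quot.inductionOn f fun f => Quot.inductionOn f fun (f : @Quiver.Path (Quiver.Symmetrify (W R)) _ p q) => ?_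
  clear * - h0 h1 h2
  induction f with
  | nil => exact h0
  | cons f e ih =>
    rcases e with e | e
    · exact h1 _ _ _ e ih
    · have := h2 _ _ _ e ih
      rw [← Groupoid.inv_eq_inv] at this
      exact this

def Cn (R : Set (List S × List S)) (s t : List S) : Prop := Nonempty (ob R ⟨s⟩ ⟶ ob R ⟨t⟩)

theorem Cn.rfl {s : List S} : Cn R s s := ⟨𝟙 _⟩
theorem Cn.symm {s t : List S} : Cn R s t → Cn R t s := fun ⟨f⟩ => ⟨inv f⟩
theorem Cn.trans {s t u : List S} : Cn R s t → Cn R t u → Cn R s u := fun ⟨f⟩ ⟨g⟩ => ⟨f ≫ g⟩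
theorem Cn.one (a b : List S) {r : List S × List S} (h : r ∈ R) : Cn R (a ++ r.1 ++ b) (a ++ r.2 ++ b) := ⟨ed ⟨(a, r, b), h, by simp, by simp⟩⟩
theorem Cn.ind {s t : List S} (P : List S → Prop) (h0 : P s) (h : ∀ a b, ∀ r ∈ R, P (a ++ r.1 ++ b) ↔ P (a ++ r.2 ++ b)) : Cn R s t → P t := fun ⟨f⟩ =>
  DG.ind (fun q _ => P q.w) h0 (fun _ _ _ e i => e.2.2.2 ▸ (h _ _ _ e.2.1).1 (e.2.2.1 ▸ i)) (fun _ _ _ e i => e.2.2.1 ▸ (h _ _ _ e.2.1).2 (e.2.2.2 ▸ i)) f
theorem Cn.ctx (x y : List S) {s t : List S} : Cn R s t → Cn R (x ++ s ++ y) (x ++ t ++ y) :=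
  Cn.ind (fun t => Cn R (x ++ s ++ y) (x ++ t ++ y)) .rfl fun a b r h => by
    have := Cn.one (x ++ a) (b ++ y) h
    simp only [List.append_assoc] at this ⊢
    exact ⟨fun i => i.trans this, fun i => i.trans this.symm⟩

noncomputable def nf (R : Set (List S × List S)) (s : List S) : List S := (Quotient.mk ⟨Cn R, fun _ => .rfl, .symm, .trans⟩ s).out

theorem cn_nf (s : List S) : Cn R s (nf R s) := (Quotient.mk_out (s := ⟨Cn R, fun _ => .rfl, .symm, .trans⟩) s).symm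
theorem Cn.nf {s t : List S} (h : Cn R s t) : nf R s = nf R t := congrArg Quotient.out (Quotient.sound h)

variable {A : Type} [AddCommGroup A]

/-- additive cocycles -/
def Co (R : Set (List S × List S)) (σ : List S → List S × List S → List S → A) : Prop := ∀ a b c, ∀ r ∈ R, ∀ r' ∈ R,
  σ a r (b ++ r'.1 ++ c) + σ (a ++ r.2 ++ b) r' c = σ (a ++ r.1 ++ b) r' c + σ a r (b ++ r'.2 ++ c)

theorem Co.lift {σ : List S → List S × List S → List S → A} (h : Co R σ) : ∃ Φ : ∀ {p q : W R}, (ob R p ⟶ ob R q) → A, (∀ p, Φ (𝟙 (ob R p)) = 0) ∧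
    (∀ p q s (f : ob R p ⟶ ob R q) (g : ob R q ⟶ ob R s), Φ (f ≫ g) = Φ f + Φ g) ∧ ∀ (p q : W R) (e : p ⟶ q), Φ (ed e) = σ e.1.1 e.1.2.1 e.1.2.2 := by
  obtain ⟨Φ, k⟩ := DG.lift (R := R) (G := Multiplicative A) (fun e => .ofAdd (σ e.1 e.2.1 e.2.2)) fun a b c r i r' j =>
    congrArg Multiplicative.ofAdd ((add_comm _ _).trans ((h a b c r i r' j).trans (add_comm _ _)))
  exact ⟨fun f => Multiplicative.toAdd (Φ.map f), fun p => Φ.map_id _, fun _ _ _ f g => (Φ.map_comp f g).trans (add_comm (G := A) _ _), k⟩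

theorem Co.norm {σ : List S → List S × List S → List S → A} (h : Co R σ) : ∃ η : List S → A, ∃ τ : List S × (List S × List S) × List S → A,
    ∀ a b, ∀ r ∈ R, σ a r b + η (a ++ r.2 ++ b) - η (a ++ r.1 ++ b) = τ (nf R a, r, nf R b) := by
  choose Φ h0 h1 h2 using fun x => Co.lift (R := R) (σ := fun a => σ (x ++ a)) fun a b c r i r' j => by
    simpa only [List.append_assoc] using h (x ++ a) b c r i r' j
  have h3 : ∀ x p q (f : ob R p ⟶ ob R q), Φ x (inv f) = -Φ x f := fun x p q f => eq_neg_of_add_eq_zero_right (by rw [← h1, IsIso.hom_inv_id, h0])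
  have ic : ∀ a y, ∀ r ∈ R, ∀ p q (f : ob R p ⟶ ob R q), σ a r (y ++ p.w) + Φ (a ++ r.2 ++ y) f = Φ (a ++ r.1 ++ y) f + σ a r (y ++ q.w) :=
    fun a y r i p q f => by
      refine ind (fun q f => σ a r (y ++ p.w) + Φ (a ++ r.2 ++ y) f = Φ (a ++ r.1 ++ y) f + σ a r (y ++ q.w)) (by simp [h0])
        (fun _ _ _ e j => ?_) (fun _ _ _ e j => ?_) f <;> have := h a (y ++ e.1.1) e.1.2.2 r i _ e.2.1 <;>
        simp only [h1, h2, h3, e.2.2.1, e.2.2.2, List.append_assoc] at * <;> grind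
  let H : List S → List S → A := fun s => s.rec (fun a => Φ a (cn_nf []).some) fun x s ih a => ih (a ++ [x]) + Φ a (cn_nf (x :: nf R s)).some
  have H1 : ∀ x s a, H (x :: s) a = H s (a ++ [x]) + Φ a (cn_nf (x :: nf R s)).some := fun _ _ _ => rfl
  have nc : ∀ a {b b'}, Cn R b b' → nf R (a ++ b) = nf R (a ++ b') := fun a _ _ i => by simpa using (i.ctx a []).nf
  have k1 : ∀ a, ∀ r ∈ R, ∀ b y, σ a r (y ++ b) + H b (a ++ r.2 ++ y) = H b (a ++ r.1 ++ y) + σ a r (y ++ nf R b) := fun a r i b => by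
    induction b with
    | nil => exact fun y => ic a y r i _ _ _
    | cons x s ih =>
      intro y
      have j := ic a y r i _ _ (cn_nf (x :: nf R s)).some
      have := ih (y ++ [x])
      rw [show nf R (x :: s) = nf R (x :: nf R s) from nc [x] (cn_nf s)]
      simp only [H1, List.append_assoc, List.singleton_append] at *
      grind
  have k2 : ∀ {b b'}, Cn R b b' → ∀ a c, H (a ++ b) c - H b (c ++ a) = H (a ++ b') c - H b' (c ++ a) := fun i a => by
    induction a with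
    | nil => simp
    | cons x a ih =>
      intro c
      have := ih (c ++ [x])
      simp only [H1, List.append_assoc, List.cons_append, List.nil_append] at *
      rw [nc a i]
      grind
  let τ : List S × (List S × List S) × List S → A := fun e => σ e.1 e.2.1 e.2.2 + H (e.1 ++ e.2.1.2 ++ e.2.2) [] - H (e.1 ++ e.2.1.1 ++ e.2.2) []
  have k3 : ∀ a, ∀ r ∈ R, ∀ {b b'}, Cn R b b' → τ (a, r, b) = τ (a, r, b') := fun a r i b b' j => by
    have := k1 a r i b []
    have := k1 a r i b' []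
    have := k2 j (a ++ r.1) []
    have := k2 j (a ++ r.2) []
    simp only [τ, List.nil_append, List.append_nil, j.nf] at *
    grind
  refine ⟨fun s => H s [], τ, fun a b r i => (k3 a r i (cn_nf b)).trans (Cn.ind (fun x => τ (a, r, nf R b) = τ (x, r, nf R b)) rfl
    (fun x y r' j => Eq.to_iff (congrArg _ ?_)) (cn_nf a))⟩
  have := k3 x r' j (Cn.one y (nf R b) i)
  have := h x y (nf R b) r' j r i
  simp only [τ, List.append_assoc] at *
  grind

theorem tf {w : List S} {g : D R w} {n : ℕ} (hn : n ≠ 0) (h : g ^ n ∈ commutator (D R w)) : g ∈ commutator (D R w) := by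
  classical
  let Θ : ∀ {p q : W R}, (ob R p ⟶ ob R q) → Additive (Abelianization (D R w)) := fun {p _} f =>
    if h : Cn R w p.w then .ofMul (Abelianization.of (G := D R w) (h.some ≫ f ≫ inv (h.trans ⟨f⟩).some)) else 0
  have t1 : ∀ p q s (f : ob R p ⟶ ob R q) (g : ob R q ⟶ ob R s), Θ (f ≫ g) = Θ f + Θ g := fun p q s f g => by
    by_cases h : Cn R w p.w
    · simp only [Θ, dif_pos h, dif_pos (h.trans ⟨f⟩), ← ofMul_mul]
      rw [mul_comm, ← map_mul]
      simp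
    · simp only [Θ, dif_neg h, dif_neg fun i : Cn R w q.w => h (i.trans ⟨inv f⟩), add_zero]
  have t0 : ∀ p, Θ (𝟙 (ob R p)) = 0 := fun p => by simpa using t1 p p p (𝟙 _) (𝟙 _)
  let σ : List S → List S × List S → List S → Additive (Abelianization (D R w)) := fun a r b =>
    if h : r ∈ R then Θ (ed (p := ⟨_⟩) (q := ⟨_⟩) ⟨(a, r, b), h, rfl, rfl⟩) else 0
  have t2 : ∀ (p q : W R) (e : p ⟶ q), Θ (ed e) = σ e.1.1 e.1.2.1 e.1.2.2 := by
    rintro ⟨_⟩ ⟨_⟩ ⟨e, h, i, j⟩; cases i; cases j; simp only [σ, dif_pos h]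
  obtain ⟨η, τ, k⟩ := Co.norm (R := R) (σ := σ) fun a b c r i r' j => by
    have := congrArg Θ (sq (R := R) (p := ⟨a ++ r.1 ++ b ++ r'.1 ++ c⟩) (q := ⟨a ++ r.2 ++ b ++ r'.1 ++ c⟩) (q' := ⟨a ++ r.1 ++ b ++ r'.2 ++ c⟩)
      (s := ⟨a ++ r.2 ++ b ++ r'.2 ++ c⟩) ⟨_, i, by simp, by simp⟩ ⟨_, j, rfl, rfl⟩ ⟨_, j, rfl, rfl⟩ ⟨_, i, by simp, by simp⟩ a b c r r' rfl rfl rfl rfl)
    simpa only [t1, t2] using this
  obtain ⟨K, k0, k1, k2⟩ := Co.lift (R := R) (σ := fun a r b => Finsupp.single (nf R a, r, nf R b) (1 : ℤ)) fun a b c r i r' j => by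
    simp only [(Cn.one a b i).nf, (Cn.one b c j).nf, add_comm]
  have k3 : ∀ p q (f : ob R p ⟶ ob R q), K (inv f) = -K f := fun p q f => eq_neg_of_add_eq_zero_right (by rw [← k1, IsIso.hom_inv_id, k0])
  have t3 : ∀ p q (f : ob R p ⟶ ob R q), Θ (inv f) = -Θ f := fun p q f => eq_neg_of_add_eq_zero_right (by rw [← t1, IsIso.hom_inv_id, t0])
  have : Θ g + η w - η w = Finsupp.linearCombination ℤ τ (K g) := by
    refine ind (fun q f => Θ f + η q.w - η w = Finsupp.linearCombination ℤ τ (K f)) (by simp [k0, t0]) (fun _ _ _ e j => ?_) (fun _ _ _ e j => ?_) g <;>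
      have := k e.1.1 e.1.2.2 _ e.2.1 <;>
      simp only [k1, k2, k3, t1, t2, t3, e.2.2.1, e.2.2.2, map_add, map_neg, Finsupp.linearCombination_single, one_smul] at * <;> grind
  let κ : D R w →* Multiplicative (List S × (List S × List S) × List S →₀ ℤ) := ⟨⟨fun f => .ofAdd (K f), k0 _⟩, fun f g => (k1 _ _ _ g f).trans (add_comm _ _)⟩
  have z : n • K g = 0 := (map_pow κ g n).symm.trans (MonoidHom.mem_ker.1 (Abelianization.commutator_subset_ker (G := D R w) κ h))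
  rw [(smul_eq_zero_iff_right hn).1 z, map_zero, add_sub_cancel_right] at this
  simp only [Θ, dif_pos (Cn.rfl (s := w))] at this
  obtain ⟨γ, e⟩ : ∃ γ : D R w, Abelianization.of (γ⁻¹ * g * γ) = 1 := ⟨(Cn.rfl (R := R) (s := w)).some, by
    rw [← Groupoid.inv_eq_inv] at this; exact this⟩
  rw [map_mul, map_mul, map_inv, mul_comm, mul_inv_cancel_left] at e
  exact (QuotientGroup.eq_one_iff g).1 e

end Pool.Agent.Lib.DG
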