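import Mathlib

namespace Pool.Agent.Lib.helper22.SeqSpace

open Finset
open scoped ENNReal

structure Tests (I : Type) where
  G : Set (I →₀ ℝ)
  bd : ∀ w ∈ G, ∀ i, |w i| ≤ 1
  single_mem : ∀ i, Finsupp.single i 1 ∈ G

variable {I : Type} (T : Tests I)

abbrev E : Type := lp (fun _ : T.G => ℝ) ∞

noncomputable def e (n : I) : E T :=
  ⟨fun t => t.1 n, memℓp_infty ⟨1, by
    rintro _ ⟨t, rfl⟩
    exact T.bd t.1 t.2 n⟩⟩

noncomputable abbrev X : Submodule ℝ (E T) :=
  (Submodule.span ℝ (Set.range (e T))).topologicalClosure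

noncomputable def g (t : T.G) : E T →L[ℝ] ℝ := lp.evalCLM ℝ (fun _ : T.G => ℝ) ∞ t

noncomputable def c (n : I) : T.G := ⟨Finsupp.single n 1, T.single_mem n⟩

theorem rep (v : E T) (hv : v ∈ X T) (t : T.G) :
    g T t v = Finsupp.linearCombination ℝ (fun n => g T (c T n) v) t.1 := by
  classical
  let φ : E T →L[ℝ] ℝ := g T t - ∑ n ∈ t.1.support, t.1 n • g T (c T n)
  have h1 : Submodule.span ℝ (Set.range (e T)) ≤ LinearMap.ker φ.toLinearMap := by
    rw [Submodule.span_le]
    rintro _ ⟨n, rfl⟩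
    show φ (e T n) = 0
    have a : ∀ k, g T (c T k) (e T n) = if k = n then 1 else 0 := fun k => Finsupp.single_apply
    simp only [φ, sub_apply, _root_.sum_apply, smul_apply, a, smul_eq_mul, mul_ite, mul_one,
      mul_zero, sum_ite_eq', Finsupp.mem_support_iff]
    show t.1 n - _ = 0
    split_ifs with h
    · exact sub_self _
    · simpa using h
  have h3 : φ v = 0 :=
    Submodule.topologicalClosure_minimal _ h1 (ContinuousLinearMap.isClosed_ker φ) hv
  simp only [φ, sub_apply, _root_.sum_apply, smul_apply] at h3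
  exact sub_eq_zero.1 h3

noncomputable def x (n : I) : X T :=
  ⟨e T n, Submodule.le_topologicalClosure _ (Submodule.subset_span ⟨n, rfl⟩)⟩

noncomputable def f (n : I) : X T →L[ℝ] ℝ := (g T (c T n)).comp (X T).subtypeL

theorem f_x [DecidableEq I] (k n : I) : f T k (x T n) = if k = n then 1 else 0 :=
  Finsupp.single_apply

theorem norm_iff (v : X T) (r : ℝ) (hr : 0 ≤ r) :
    ‖v‖ ≤ r ↔ ∀ w ∈ T.G, |Finsupp.linearCombination ℝ (fun n => f T n v) w| ≤ r := by
  constructor
  · intro h t ht
    have h2 : |g T ⟨t, ht⟩ v.1| ≤ ‖v.1‖ := lp.norm_apply_le_norm (by simp) v.1 ⟨t, ht⟩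
    rw [rep T v.1 v.2 ⟨t, ht⟩] at h2
    exact h2.trans h
  · intro h
    refine lp.norm_le_of_forall_le (f := v.1) hr fun t => ?_
    show |g T t v.1| ≤ r
    rw [rep T v.1 v.2 t]
    exact h t.1 t.2

theorem dense_x : Dense (Submodule.span ℝ (Set.range (x T)) : Set (X T)) := by
  intro v
  rw [Topology.IsInducing.subtypeVal.closure_eq_preimage_closure_image]
  have : Subtype.val '' (Submodule.span ℝ (Set.range (x T)) : Set (X T)) =
      (Submodule.span ℝ (Set.range (e T)) : Set (E T)) := by
    have h := Submodule.map_span (X T).subtype (Set.range (x T))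
    rw [← Set.range_comp] at h
    exact congrArg (fun s : Submodule ℝ (E T) => (s : Set (E T))) h
  exact (congrArg (fun s : Set (E T) => v.1 ∈ closure s) this).mpr v.2

theorem total (v : X T) (h : ∀ n, f T n v = 0) : v = 0 := by
  refine norm_le_zero_iff.1 ((norm_iff T v 0 le_rfl).2 fun w _ => ?_)
  simp [h, Finsupp.linearCombination_apply, Finsupp.sum]

theorem f_le (n : I) (v : X T) : |f T n v| ≤ ‖v‖ := by
  simpa using (norm_iff T v _ (norm_nonneg _)).1 le_rfl _ (T.single_mem n)

theorem norm_x (n : I) : ‖x T n‖ = 1 := by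
  classical
  refine le_antisymm (lp.norm_le_of_forall_le (f := e T n) zero_le_one fun t => T.bd t.1 t.2 n) ?_
  simpa [f_x] using f_le T n (x T n)

theorem norm_f (n : I) : ‖f T n‖ = 1 := by
  classical
  refine le_antisymm (ContinuousLinearMap.opNorm_le_bound _ zero_le_one fun v => ?_) ?_
  · simpa using f_le T n v
  · have := (f T n).le_opNorm (x T n)
    rw [norm_x] at this
    simpa [f_x] using this

theorem f_sum [DecidableEq I] (B : Finset I) (a : I → ℝ) (k : I) :
    f T k (∑ n ∈ B, a n • x T n) = if k ∈ B then a k else 0 := by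
  simp [map_sum, f_x]

theorem f_cut [DecidableEq I] (v : X T) (B : Finset I) (k : I) :
    f T k (v - ∑ n ∈ B, f T n v • x T n) = if k ∈ B then 0 else f T k v := by
  rw [map_sub, f_sum]
  split_ifs <;> simp

end Pool.Agent.Lib.helper22.SeqSpace
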