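import Mathlib
import Pool.Agent.H.MP_62749c_al.Tree

set_option autoImplicit false

namespace Pool.Agent.Lib.helper22.Niel
open FreeGroup Pool.Agent.H.MP_62749c_al

abbrev F2 := FreeGroup (Fin 2)

def gp (x y : F2) : ℕ := cp x.toWord y.toWord

theorem ngp (x y : F2) : FreeGroup.norm (x⁻¹ * y) + 2 * gp x y = FreeGroup.norm x + FreeGroup.norm y := norm_gp x y
theorem ngp' (x y : F2) : FreeGroup.norm (x * y) + 2 * gp x⁻¹ y = FreeGroup.norm x + FreeGroup.norm y := by
  simpa using ngp x⁻¹ y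
theorem ultra (x y z : F2) : min (gp x y) (gp y z) ≤ gp x z := cp_ultra _ _ _
theorem gp_symm (x y : F2) : gp x y = gp y x := by
  have h1 := ngp x y
  have h2 := ngp y x
  have h3 : FreeGroup.norm (y⁻¹ * x) = FreeGroup.norm (x⁻¹ * y) := by rw [← norm_inv_eq]; simp
  omega
theorem gp_le (x y : F2) : gp x y ≤ FreeGroup.norm x := by
  have h1 := ngp x y
  have h2 := norm_mul_le x (x⁻¹ * y)
  rw [mul_inv_cancel_left] at h2
  omega

theorem cp_get {β : Type} [DecidableEq β] : ∀ (x y : List β) (i : ℕ), i < cp x y → x[i]? = y[i]?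
  | [], _, _, h => by simp [cp] at h
  | _ :: _, [], _, h => by simp [cp] at h
  | a :: x, b :: y, i, h => by
    by_cases hab : a = b
    · subst hab
      cases i with
      | zero => simp
      | succ i =>
        simp only [cp, if_true] at h
        simpa using cp_get x y i (by omega)
    · simp [cp, hab] at h

theorem gp_inv {v : F2} (hv : v ≠ 1) : 2 * gp v v⁻¹ < FreeGroup.norm v := by
  by_contra hc
  have hn : 0 < FreeGroup.norm v := Nat.pos_of_ne_zero fun h => hv (norm_eq_zero.1 h)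
  have hr : FreeGroup.IsReduced v.toWord := isReduced_toWord
  have hl : FreeGroup.norm v = v.toWord.length := rfl
  have h1 := cp_get v.toWord v⁻¹.toWord ((FreeGroup.norm v - 1) / 2) (by unfold gp at hc; omega)
  rw [toWord_inv, invRev, List.getElem?_reverse (by simp; omega), List.getElem?_map,
    List.length_map, ← hl] at h1
  set i := (FreeGroup.norm v - 1) / 2 with hi
  have hi1 : i < v.toWord.length := by omega
  rcases Nat.even_or_odd' (FreeGroup.norm v) with ⟨k, hk | hk⟩
  · have hi2 : i + 1 < v.toWord.length := by omega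
    rw [show FreeGroup.norm v - 1 - i = i + 1 by omega, List.getElem?_eq_getElem hi1,
      List.getElem?_eq_getElem hi2] at h1
    have h2 := List.isChain_iff_getElem.1 hr i hi2
    simp only [Option.map_some, Option.some.injEq] at h1
    rw [h1] at h2
    simpa using h2 rfl
  · rw [show FreeGroup.norm v - 1 - i = i by omega, List.getElem?_eq_getElem hi1] at h1
    simp only [Option.map_some, Option.some.injEq] at h1
    simpa using congrArg Prod.snd h1

theorem first {v : F2} (hv : v ≠ 1) : ∃ l : F2, FreeGroup.norm l = 1 ∧ gp l v = 1 := by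
  cases h : v.toWord with
  | nil => exact absurd (toWord_eq_nil_iff.1 h) hv
  | cons a t =>
    have h1 : (mk [a]).toWord = [a] := by simp [toWord_mk]
    exact ⟨mk [a], by simp [FreeGroup.norm, h1], by simp [gp, h1, h, cp]⟩

theorem prod_long (f : Fin 2 × Bool → F2) (h0 : ∀ l, f l ≠ 1)
    (h1 : ∀ l m, (l.1 = m.1 → l.2 = m.2) → 2 * gp (f l)⁻¹ (f m) ≤ FreeGroup.norm (f l))
    (h1' : ∀ l m, (l.1 = m.1 → l.2 = m.2) → 2 * gp (f l)⁻¹ (f m) ≤ FreeGroup.norm (f m))
    (h2 : ∀ l m n, (l.1 = m.1 → l.2 = m.2) → (m.1 = n.1 → m.2 = n.2) →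
      gp (f l)⁻¹ (f m) + gp (f m)⁻¹ (f n) < FreeGroup.norm (f m)) :
    ∀ (L : List (Fin 2 × Bool)) (l m : Fin 2 × Bool), FreeGroup.IsReduced (l :: m :: L) →
      gp (f l) ((l :: m :: L).map f).prod + gp (f l)⁻¹ (f m) = FreeGroup.norm (f l) ∧
      2 ≤ FreeGroup.norm ((l :: m :: L).map f).prod := by
  intro L
  have hp : ∀ l, 0 < FreeGroup.norm (f l) := fun l => Nat.pos_of_ne_zero fun h => h0 l (norm_eq_zero.1 h)
  have key : ∀ (l m : Fin 2 × Bool) (P : F2), (l.1 = m.1 → l.2 = m.2) →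
      gp (f l)⁻¹ (f m) < gp (f m) P →
      gp (f l) (f l * P) + gp (f l)⁻¹ (f m) = FreeGroup.norm (f l) ∧ 2 ≤ FreeGroup.norm (f l * P) := by
    intro l m P hlm h
    have a1 := ultra (f l)⁻¹ (f m) P
    have a2 := ultra (f l)⁻¹ P (f m)
    have a3 := gp_symm P (f m)
    have a4 := ngp' (f l) P
    have a5 := ngp (f l) (f l * P)
    rw [inv_mul_cancel_left] at a5
    have a6 := gp_le P (f m)
    have a7 := h1 l m hlm
    have a8 := hp l
    omega
  induction L with
  | nil =>
    intro l m hr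
    have hlm : l.1 = m.1 → l.2 = m.2 := by simpa [FreeGroup.IsReduced] using hr
    have a1 := h1' l m hlm
    have a2 := hp m
    have a3 := ngp (f m) (f m)
    rw [inv_mul_cancel, FreeGroup.norm_one] at a3
    simpa using key l m (f m) hlm (by omega)
  | cons n L ih =>
    intro l m hr
    have hr' := List.isChain_cons_cons.1 hr
    have a1 := (ih m n hr'.2).1
    have a2 := h2 l m n hr'.1 (List.isChain_cons_cons.1 hr'.2).1
    exact key l m ((m :: n :: L).map f).prod hr'.1 (by omega)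

def Gen (u v : F2) : Prop := Subgroup.closure {u, v} = ⊤

theorem Gen.of_mem {u v x y : F2} (h : Gen u v) (hu : u ∈ Subgroup.closure {x, y})
    (hv : v ∈ Subgroup.closure {x, y}) : Gen x y := by
  unfold Gen at *
  rw [eq_top_iff, ← h, Subgroup.closure_le]
  rintro _ (rfl | rfl) <;> assumption

theorem m1 (x y : F2) : x ∈ Subgroup.closure {x, y} := Subgroup.subset_closure (by simp)
theorem m2 (x y : F2) : y ∈ Subgroup.closure {x, y} := Subgroup.subset_closure (by simp)

theorem Gen.ne {u v : F2} (h : Gen u v) : v ≠ 1 := by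
  rintro rfl
  have h1 : ∀ x : F2, x ∈ Subgroup.zpowers u := by
    intro x
    have : Subgroup.closure {u, 1} ≤ Subgroup.zpowers u := by
      rw [Subgroup.closure_le]
      rintro _ (rfl | rfl)
      · exact Subgroup.mem_zpowers _
      · exact one_mem _
    exact this (h ▸ Subgroup.mem_top x)
  obtain ⟨i, hi⟩ := h1 (of 0)
  obtain ⟨j, hj⟩ := h1 (of 1)
  have : (of 0 * of 1 : F2) = of 1 * of 0 := by
    rw [← hi, ← hj]; exact zpow_mul_comm u i j
  exact absurd this (by decide)

theorem Gen.conj {u v : F2} (g : F2) (h : Gen u v) : Gen (g * u * g⁻¹) (g * v * g⁻¹) := by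
  have := congrArg (Subgroup.map (MulAut.conj g).toMonoidHom) h
  rw [MonoidHom.map_closure, Set.image_pair,
    Subgroup.map_top_of_surjective _ (MulAut.conj g).surjective] at this
  exact this

/-- Nielsen's theorem in rank two, as an induction principle on generating pairs. -/
theorem nielsen (Q : F2 → F2 → Prop) (hs : ∀ u v, Q u v → Q v u) (hi : ∀ u v, Q u v → Q u⁻¹ v)
    (hm : ∀ u v, Q u v → Q (u * v) v) (hc : ∀ g u v, Q u v → Q (g * u * g⁻¹) (g * v * g⁻¹))
    (hb : Q (of 0) (of 1)) (u v : F2) : Gen u v → Q u v := by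
  let P : F2 → F2 → Prop := fun u v => Gen u v → Q u v
  have ps : ∀ u v, P u v → P v u := fun u v h g => hs _ _ (h (g.of_mem (m2 _ _) (m1 _ _)))
  have pi : ∀ u v, P u v → P u⁻¹ v := fun u v h g =>
    hi _ _ (h (g.of_mem (inv_mem (m1 _ _)) (m2 _ _)))
  have pm : ∀ u v, P u v → P (u * v) v := fun u v h g =>
    hm _ _ (h (g.of_mem (mul_mem (m1 _ _) (m2 _ _)) (m2 _ _)))
  have pc : ∀ g u v, P u v → P (g * u * g⁻¹) (g * v * g⁻¹) := fun g u v h k =>
    hc _ _ _ (h (by simpa [mul_assoc] using k.conj g⁻¹))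
  have pi' : ∀ u v, P u v → P u v⁻¹ := fun u v h => ps _ _ (pi _ _ (ps _ _ h))
  have pm' : ∀ u v, P (u * v) v → P u v := fun u v h => by
    simpa using pi' _ _ (pm _ _ (pi' _ _ h))
  have pm2 : ∀ u v, P u (u * v) → P u v := fun u v h => by
    have := pi _ _ (pm _ _ (pi _ _ (ps _ _ h)))
    exact ps _ _ (by simpa using this)
  change P u v
  induction hN : FreeGroup.norm u + FreeGroup.norm v using Nat.strong_induction_on generalizing u v with
  | _ N ih =>
  have ih' : ∀ x y, FreeGroup.norm x + FreeGroup.norm y < N → P x y := fun x y h => ih _ h x y rfl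
  by_contra hP
  have hg : Gen u v := by_contra fun h => hP fun k => absurd k h
  have n1 : ∀ x y, FreeGroup.norm x + FreeGroup.norm y = N → ¬ P x y →
      2 * gp x⁻¹ y ≤ FreeGroup.norm x ∧ 2 * gp x⁻¹ y ≤ FreeGroup.norm y := by
    intro x y hN h
    have := ngp' x y
    constructor
    · by_contra hc
      exact h (pm2 _ _ (ih' _ _ (by omega)))
    · by_contra hc
      exact h (pm' _ _ (ih' _ _ (by omega)))
  have n2 : ∀ w z, z ≠ 1 → FreeGroup.norm w + FreeGroup.norm z = N → ¬ P w z →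
      gp w⁻¹ z + gp z⁻¹ w < FreeGroup.norm z := by
    intro w z hz hN h
    by_contra hc
    obtain ⟨a1, a2⟩ := n1 w z hN h
    obtain ⟨a3, a4⟩ := n1 z w (by omega) fun k => h (ps _ _ k)
    obtain ⟨l, l1, l2⟩ := first hz
    have hz0 : 0 < FreeGroup.norm z := Nat.pos_of_ne_zero fun h => hz (norm_eq_zero.1 h)
    apply h
    refine ps _ _ (pm2 _ _ (ps _ _ ?_))
    have b1 := ngp' z w
    have b2 := ngp z (z * w)
    rw [inv_mul_cancel_left] at b2
    have b3 := ngp w⁻¹ (z * w)⁻¹
    rw [inv_inv, mul_inv_rev, mul_inv_cancel_left, ← mul_inv_rev, norm_inv_eq, norm_inv_eq,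
      norm_inv_eq] at b3
    have b4 := ultra (z * w)⁻¹ w⁻¹ z
    have b5 := gp_symm w⁻¹ (z * w)⁻¹
    have b6 := ultra l z (z * w)
    have b7 := ultra (z * w)⁻¹ z l
    have b8 := gp_symm l z
    have b9 := ngp' (z * w) l
    have b10 := gp_le l (z * w)⁻¹
    have b11 := gp_symm l (z * w)⁻¹
    have c1 := ngp (z * w) (z * w * l)
    rw [inv_mul_cancel_left] at c1
    have c2 := ultra l (z * w) (z * w * l)
    have c3 := ngp l (z * w * l)
    have c4 := ngp l z
    have c5 := norm_mul_le (l⁻¹ * z) l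
    have := pc l _ _ (ih' (l⁻¹ * (z * w * l)) (l⁻¹ * z * l) (by omega))
    simpa [mul_assoc] using this
  have n3 : ∀ w z, z ≠ 1 → FreeGroup.norm w + FreeGroup.norm z = N → ¬ P w z →
      gp w⁻¹ z + gp z⁻¹ w⁻¹ < FreeGroup.norm z := by
    intro w z hz hN h
    obtain ⟨a1, a2⟩ := n1 w z hN h
    obtain ⟨a3, a4⟩ := n1 z w⁻¹ (by rw [norm_inv_eq]; omega) fun k =>
      h (by simpa using ps _ _ (pi' _ _ k))
    have b1 := ultra z w⁻¹ z⁻¹
    have b2 := gp_symm z w⁻¹
    have b3 := gp_symm z⁻¹ w⁻¹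
    have b4 := gp_inv hz
    omega
  let f : Fin 2 × Bool → F2 := fun l => cond l.2 (![u, v] l.1) (![u, v] l.1)⁻¹
  have hu : u ≠ 1 := (hg.of_mem (m2 _ _) (m1 _ _)).ne
  have hv : v ≠ 1 := hg.ne
  have h0 : ∀ l, f l ≠ 1 := by
    rintro ⟨i, b⟩
    fin_cases i <;> cases b <;> simp [f, hu, hv]
  have q1 : ¬ P u⁻¹ v := fun k => hP (by simpa using pi _ _ k)
  have q2 : ¬ P u v⁻¹ := fun k => hP (by simpa using pi' _ _ k)
  have q3 : ¬ P u⁻¹ v⁻¹ := fun k => q1 (by simpa using pi' _ _ k)
  have hd : ∀ l m : Fin 2 × Bool, l.1 ≠ m.1 → FreeGroup.norm (f l) + FreeGroup.norm (f m) = N ∧ ¬ P (f l) (f m) := by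
    rintro ⟨i, b⟩ ⟨j, c⟩ h
    fin_cases i <;> fin_cases j <;> (try exact absurd rfl h) <;> cases b <;> cases c <;>
      refine ⟨by simp [f]; omega, fun k => ?_⟩
    exacts [q3 k, q1 k, q2 k, hP k, q3 (ps _ _ k), q2 (ps _ _ k), q1 (ps _ _ k), hP (ps _ _ k)]
  have he : ∀ l, 2 * gp (f l)⁻¹ (f l) < FreeGroup.norm (f l) := fun l => by
    rw [gp_symm]; exact gp_inv (h0 l)
  have h1 : ∀ l m : Fin 2 × Bool, (l.1 = m.1 → l.2 = m.2) →
      2 * gp (f l)⁻¹ (f m) ≤ FreeGroup.norm (f l) ∧ 2 * gp (f l)⁻¹ (f m) ≤ FreeGroup.norm (f m) := by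
    intro l m h
    by_cases k : l.1 = m.1
    · obtain rfl : l = m := Prod.ext k (h k)
      exact ⟨(he l).le, (he l).le⟩
    · exact n1 _ _ (hd l m k).1 (hd l m k).2
  have h2 : ∀ l m n : Fin 2 × Bool, (l.1 = m.1 → l.2 = m.2) → (m.1 = n.1 → m.2 = n.2) →
      gp (f l)⁻¹ (f m) + gp (f m)⁻¹ (f n) < FreeGroup.norm (f m) := by
    intro l m n h h'
    have a1 := (h1 l m h).2
    have a2 := (h1 m n h').1
    have a3 := he m
    by_cases k : l.1 = m.1
    · obtain rfl : l = m := Prod.ext k (h k)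
      omega
    by_cases k' : m.1 = n.1
    · obtain rfl : m = n := Prod.ext k' (h' k')
      omega
    have k2 : l.1 = n.1 := by omega
    by_cases k3 : l.2 = n.2
    · obtain rfl : l = n := Prod.ext k2 k3
      exact n2 _ _ (h0 m) (hd l m k).1 (hd l m k).2
    · have : f n = (f l)⁻¹ := by
        obtain ⟨i, b⟩ := l
        obtain ⟨j, c⟩ := n
        obtain rfl : i = j := k2
        cases b <;> cases c <;> first | exact absurd rfl k3 | simp [f]
      rw [this]
      exact n3 _ _ (h0 m) (hd l m k).1 (hd l m k).2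
  have hgen : ∀ i : Fin 2, ∃ l, f l = of i := by
    intro i
    have : (of i : F2) ∈ (lift ![u, v]).range := by
      rw [range_lift_eq_closure, Matrix.range_cons, Matrix.range_cons, Matrix.range_empty,
        Set.union_empty, Set.singleton_union, hg]
      trivial
    obtain ⟨t, ht⟩ := this
    rw [← mk_toWord (x := t), lift_mk] at ht
    have hr : FreeGroup.IsReduced t.toWord := isReduced_toWord
    match hL : t.toWord with
    | [] => rw [hL] at ht; exact absurd ht.symm (of_ne_one i)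
    | [l] => rw [hL] at ht; exact ⟨l, by simpa using ht⟩
    | l :: m :: L =>
      rw [hL] at ht hr
      have := (prod_long f h0 (fun l m h => (h1 l m h).1) (fun l m h => (h1 l m h).2) h2 L l m hr).2
      rw [show ((l :: m :: L).map f).prod = of i from ht, norm_of] at this
      omega
  obtain ⟨l, hl⟩ := hgen 0
  obtain ⟨m, hm'⟩ := hgen 1
  by_cases k : l.1 = m.1
  · obtain ⟨i, b⟩ := l
    obtain ⟨j, c⟩ := m
    obtain rfl : i = j := k
    have : (of 0 : F2) = of 1 ∨ (of 0 : F2) = (of 1)⁻¹ := by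
      rw [← hl, ← hm']
      cases b <;> cases c <;> simp [f]
    exact absurd this (by decide)
  · exact (hd l m k).2 fun _ => by rw [hl, hm']; exact hb

end Pool.Agent.Lib.helper22.Niel
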