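import Mathlib
import Pool.Agent.Lib.helper22.NBb
import Pool.Agent.Lib.helper21.PR

namespace Pool.Agent.Lib.AR

open Monoid Monoid.CoprodI Pool.Agent.Lib.helper21.PR
open scoped Pointwise Function commutatorElement

section free
variable {H : Type} [Group H]

abbrev AA (H : Type) [Group H] := CoprodI fun _ : Bool => H

def PP (H : Type) [Group H] : Set (Word fun _ : Bool => H) := {w | w.fstIdx = some false}

open Classical in
theorem of_smul_fst (i : Bool) {h : H} (hh : h ≠ 1) {w : Word fun _ : Bool => H}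
    (hw : w.fstIdx ≠ some i) : ((of (i := i) h : AA H) • w).fstIdx = some i := by
  rw [← Word.cons_eq_smul (h1 := hw) (h2 := hh), Word.fstIdx_cons]

open Classical in
/-- all nonzero powers push the complement of PP into PP -/
def Good (v : AA H) : Prop := ∀ n : ℤ, n ≠ 0 → ∀ w, w ∉ PP H → v ^ n • w ∈ PP H

theorem good_of {h : H} (hh : ∀ n : ℤ, h ^ n = 1 → n = 0) : Good (of (i := false) h : AA H) := by
  intro n hn w hw
  rw [← map_zpow]
  exact of_smul_fst false (fun e => hn (hh n e)) hw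

open Classical in
theorem a_push {b : H} (hb : ∀ n : ℤ, b ^ n = 1 → n = 0) {n : ℤ} (hn : n ≠ 0) {w}
    (hw : w ∈ PP H) : (of (i := true) b : AA H) ^ n • w ∉ PP H := by
  rw [← map_zpow]
  have := of_smul_fst true (fun e => hn (hb n e)) (w := w) (by rw [hw]; simp)
  intro h
  rw [PP, Set.mem_ofPred_eq, this] at h
  simp at h

theorem good_conj {b : H} (hb : ∀ n : ℤ, b ^ n = 1 → n = 0) :
    Good ((of (i := false) b : AA H)⁻¹ * of (i := true) b * of (i := false) b) := by
  classical
  intro n hn w hw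
  have h1 : b ≠ 1 := fun e => one_ne_zero (hb 1 (by simpa using e))
  have : ((of (i := false) b : AA H)⁻¹ * of (i := true) b * of (i := false) b) ^ n =
      (of (i := false) b : AA H)⁻¹ * of (i := true) b ^ n * of (i := false) b := by
    simpa using conj_zpow (i := n) (a := (of (i := false) b : AA H)⁻¹) (b := of (i := true) b)
  rw [this, mul_smul, mul_smul, ← map_inv]
  exact of_smul_fst false (inv_ne_one.2 h1) (a_push hb hn (of_smul_fst false h1 hw))

theorem free_fam {b : H} (hb : ∀ n : ℤ, b ^ n = 1 → n = 0) (v : ℕ → AA H) (hv : ∀ i, Good (v i)) :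
    Function.Injective (lift fun i : ℕ => zpowersHom (AA H)
      (((of (i := true) b : AA H) ^ i)⁻¹ * v i * of (i := true) b ^ i)) := by
  classical
  set a : AA H := of (i := true) b
  have h1 : b ≠ 1 := fun e => one_ne_zero (hb 1 (by simpa using e))
  have key : ∀ i j : ℕ, i ≠ j → ∀ w, a ^ j • w ∈ PP H → a ^ i • w ∉ PP H := by
    intro i j hij w hw
    have := a_push hb (n := (i : ℤ) - j) (by omega) hw
    rwa [← mul_smul, ← zpow_natCast, ← zpow_add, sub_add_cancel, zpow_natCast] at this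
  refine lift_injective_of_ping_pong _ (Or.inl (by simp)) (fun i => {w | a ^ i • w ∈ PP H}) ?_ ?_ ?_
  · intro i
    refine ⟨(a ^ i)⁻¹ • (of (i := false) b : AA H) • Word.empty, ?_⟩
    simp only [Set.mem_ofPred_eq, smul_inv_smul]
    exact of_smul_fst false h1 (by simp [Word.fstIdx, Word.empty])
  · intro i j hij
    exact Set.disjoint_left.2 fun w hi hj => key i j hij w hj hi
  · intro i j hij h hh
    rintro _ ⟨w, hw, rfl⟩
    have e : ((a ^ i)⁻¹ * v i * a ^ i) ^ h.toAdd = (a ^ i)⁻¹ * v i ^ h.toAdd * a ^ i := by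
      simpa using conj_zpow (i := h.toAdd) (a := (a ^ i)⁻¹) (b := v i)
    simp only [zpowersHom_apply, Set.mem_ofPred_eq, e, mul_smul, smul_inv_smul]
    exact hv i _ (fun e => hh (by rw [← ofAdd_toAdd h, e]; rfl)) _ (key i j hij w hw)

/-- amalgamating two copies along two free families -/
theorem amalg {b : H} (hb : ∀ n : ℤ, b ^ n = 1 → n = 0) (u : ℕ → H) (hu : ∀ i, ∀ n : ℤ, u i ^ n = 1 → n = 0) :
    ∃ (M : Type) (_ : Group M) (ι : H →* M) (a c : M), Function.Injective ι ∧
      a⁻¹ * ι b * a = c⁻¹ * ((ι b)⁻¹ * c * ι b) * c ∧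
      (a ^ 2)⁻¹ * ((ι b)⁻¹ * a * ι b) * a ^ 2 = (c ^ 2)⁻¹ * ι b * c ^ 2 ∧
      ∀ i, (a ^ (i + 3))⁻¹ * ι (u i) * a ^ (i + 3) = (c ^ (i + 3))⁻¹ * ι b * c ^ (i + 3) := by
  let a : AA H := of (i := true) b
  let β : AA H := of (i := false) b
  let v : Bool → ℕ → AA H := fun s i =>
    if s then (if i = 1 then β⁻¹ * a * β else β)
    else (if i = 2 then β⁻¹ * a * β else if i < 2 then β else of (i := false) (u (i - 3)))
  have hv : ∀ s i, Good (v s i) := by
    intro s i
    simp only [v]
    split_ifs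
    exacts [good_conj hb, good_of hb, good_conj hb, good_of hb, good_of (hu _)]
  let φ : ∀ _ : Bool, CoprodI (fun _ : ℕ => Multiplicative ℤ) →* AA H := fun s =>
    lift fun i : ℕ => zpowersHom (AA H) ((a ^ i)⁻¹ * v s i * a ^ i)
  have hφ : ∀ s, Function.Injective (φ s) := fun s => free_fam hb (v s) (hv s)
  have key : ∀ i, PushoutI.of (φ := φ) false ((a ^ i)⁻¹ * v false i * a ^ i) =
      PushoutI.of (φ := φ) true ((a ^ i)⁻¹ * v true i * a ^ i) := by
    intro i
    have h1 := PushoutI.of_apply_eq_base φ false (of (i := i) (Multiplicative.ofAdd (1 : ℤ)))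
    have h2 := PushoutI.of_apply_eq_base φ true (of (i := i) (Multiplicative.ofAdd (1 : ℤ)))
    simpa [φ] using h1.trans h2.symm
  have k0 : PushoutI.of (φ := φ) false β = PushoutI.of (φ := φ) true β := by simpa [v] using key 0
  refine ⟨PushoutI φ, inferInstance, (PushoutI.of (φ := φ) false).comp (of (M := fun _ : Bool => H) (i := false)),
    PushoutI.of (φ := φ) false a, PushoutI.of (φ := φ) true a,
    ?_, ?_, ?_, ?_⟩
  · intro p q h
    exact CoprodI.of_injective (M := fun _ : Bool => H) false (PushoutI.of_injective hφ false h)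
  · have := key 1
    simp only [v, pow_one, map_mul, map_inv] at this
    simp at this
    simpa [β, ← k0] using this
  · have := key 2
    simp only [v, map_mul, map_inv, map_pow] at this
    simp at this
    simpa [β, ← k0] using this
  · intro i
    have := key (i + 3)
    simp only [v, map_mul, map_inv, map_pow] at this
    rw [if_neg (by simp), if_neg (by omega), if_neg (by omega), if_pos trivial, if_neg (by omega)] at this
    simpa [β, ← k0] using this

end free

/-- value of a word under an assignment of the letters -/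
def ev {M : Type} [Group M] (g : ℕ → M) (l : List (ℕ × Bool)) : M :=
  (l.map fun x => cond x.2 (g x.1) (g x.1)⁻¹).prod

def iw (l : List (ℕ × Bool)) : List (ℕ × Bool) := (l.map fun x => (x.1, !x.2)).reverse
def pw (i k : ℕ) : List (ℕ × Bool) := List.replicate k (i, true)
def cw (u v : List (ℕ × Bool)) : List (ℕ × Bool) := u ++ v ++ iw u ++ iw v

section
variable {M : Type} [Group M] (g : ℕ → M)
@[simp] theorem ev_nil : ev g [] = 1 := rfl
@[simp] theorem ev_app (u v) : ev g (u ++ v) = ev g u * ev g v := by simp [ev]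
@[simp] theorem ev_t (i l) : ev g ((i, true) :: l) = g i * ev g l := by simp [ev]
@[simp] theorem ev_f (i l) : ev g ((i, false) :: l) = (g i)⁻¹ * ev g l := by simp [ev]
@[simp] theorem ev_iw (l) : ev g (iw l) = (ev g l)⁻¹ := by
  induction l with
  | nil => simp [iw]
  | cons x l ih =>
    have : iw (x :: l) = iw l ++ [(x.1, !x.2)] := by simp [iw]
    rw [this, ev_app, ih]
    rcases x with ⟨i, _ | _⟩ <;> simp
@[simp] theorem ev_pw (i k) : ev g (pw i k) = g i ^ k := by simp [ev, pw]
@[simp] theorem ev_cw (u v) : ev g (cw u v) = ⁅ev g u, ev g v⁆ := by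
  simp [cw, commutatorElement_def, mul_assoc]
theorem map_ev {N : Type} [Group N] (f : M →* N) (l) : f (ev g l) = ev (fun i => f (g i)) l := by
  induction l with
  | nil => simp
  | cons x l ih => rcases x with ⟨i, _ | _⟩ <;> simp [ih]
theorem ev_congr {g g' : ℕ → M} {l : List (ℕ × Bool)} (h : ∀ x ∈ l, g x.1 = g' x.1) : ev g l = ev g' l := by
  unfold ev
  congr 1
  exact List.map_congr_left fun x hx => by rw [h x hx]
theorem ev_map (f : ℕ → ℕ) (l : List (ℕ × Bool)) :
    ev g (l.map fun x => (f x.1, x.2)) = ev (fun i => g (f i)) l := by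
  simp [ev, List.map_map, Function.comp_def]
theorem ev_mk {X : Type} (e : X → ℕ) (l : List (X × Bool)) :
    ev g (l.map fun x => (e x.1, x.2)) = FreeGroup.lift (fun x => g (e x)) (FreeGroup.mk l) := by
  simp [ev, List.map_map, Function.comp_def, FreeGroup.lift_mk]
end

theorem mem_iw {l : List (ℕ × Bool)} {x} (h : x ∈ iw l) : ∃ y ∈ l, x.1 = y.1 := by
  simp only [iw, List.mem_reverse, List.mem_map] at h
  obtain ⟨y, hy, rfl⟩ := h
  exact ⟨y, hy, rfl⟩

/-- all letters are below N -/
def Lt (N : ℕ) (l : List (ℕ × Bool)) : Prop := ∀ x ∈ l, x.1 < N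
@[simp] theorem lt_nil (N) : Lt N [] := by simp [Lt]
@[simp] theorem lt_cons (N x l) : Lt N (x :: l) ↔ x.1 < N ∧ Lt N l := by simp [Lt]
@[simp] theorem lt_app (N u v) : Lt N (u ++ v) ↔ Lt N u ∧ Lt N v := by
  simp only [Lt, List.mem_append, or_imp, forall_and]
theorem lt_iw {N l} (h : Lt N l) : Lt N (iw l) := fun x hx => by
  obtain ⟨y, hy, e⟩ := mem_iw hx
  exact e ▸ h y hy
theorem lt_pw {N i} (k) (h : i < N) : Lt N (pw i k) := fun x hx => by
  rw [List.eq_of_mem_replicate hx]; exact h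
theorem lt_cw {N u v} (hu : Lt N u) (hv : Lt N v) : Lt N (cw u v) := by
  simp [cw, hu, hv, lt_iw]

def rl (m k : ℕ) (u v : List (ℕ × Bool)) : List (ℕ × Bool) :=
  iw (pw (m + 1) k) ++ u ++ pw (m + 1) k ++ iw (iw (pw (m + 2) k) ++ v ++ pw (m + 2) k)

theorem ev_rl {M : Type} [Group M] (g : ℕ → M) (m k u v) : ev g (rl m k u v) = 1 ↔
    (g (m + 1) ^ k)⁻¹ * ev g u * g (m + 1) ^ k = (g (m + 2) ^ k)⁻¹ * ev g v * g (m + 2) ^ k := by
  simp only [rl, ev_app, ev_iw, ev_pw, mul_inv_eq_one]

theorem lt_rl {m k u v} (hu : Lt (m + 3) u) (hv : Lt (m + 3) v) : Lt (m + 3) (rl m k u v) := by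
  have h1 := lt_pw (N := m + 3) (i := m + 1) k (by omega)
  have h2 := lt_pw (N := m + 3) (i := m + 2) k (by omega)
  simp only [rl, lt_app]
  exact ⟨⟨⟨lt_iw h1, hu⟩, h1⟩, lt_iw (by simp [lt_iw h2, hv, h2])⟩

/-- the Adian-Rabin theorem: a computable family of finite presentations of perfect groups whose
triviality is undecidable -/
theorem exists_ar : ∃ (N : ℕ) (L : ℕ → List (List (ℕ × Bool))) (S : ℕ → Prop), Primrec L ∧
    ¬ ComputablePred S ∧ (∀ n, ∀ r ∈ L n, Lt N r) ∧
    (∀ n (M : Type) [Group M] (g : ℕ → M), (∀ r ∈ L n, ev g r = 1) →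
      (S n ∨ ∀ a b : M, Commute a b) → ∀ i < N, g i = 1) ∧
    ∀ n, ¬ S n → ∃ (M : Type) (_ : Group M) (g : ℕ → M), (∀ r ∈ L n, ev g r = 1) ∧
      ∃ i < N, ∀ c : ℤ, g i ^ c = 1 → c = 0 := by
  classical
  obtain ⟨X, _, R, x, t, k, s, S, H, _, φ, z, hR, hs, hS, -, z0, φR, hw⟩ := NB.exists_nb
  obtain ⟨m, ⟨e⟩⟩ := Finite.exists_equiv_fin X
  let E : X → ℕ := fun y => e y
  have hE : ∀ y, E y < m + 3 := fun y => by have := (e y).2; simp only [E]; omega
  let L0 : List (List (ℕ × Bool)) :=
    hR.toFinset.toList.map fun r => r.toWord.map fun y => (E y.1, y.2)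
  let W : ℕ → List (ℕ × Bool) := fun n =>
    cw [(E k, true)] (pw (E x) (s n) ++ [(E t, true)] ++ iw (pw (E x) (s n)))
  let L : ℕ → List (List (ℕ × Bool)) := fun n =>
    L0 ++ [rl m 1 [(m, true)] [(m, false), (m + 2, true), (m, true)],
      rl m 2 [(m, false), (m + 1, true), (m, true)] [(m, true)], rl m 3 (W n) [(m, true)]] ++
      (List.range m).map fun i => rl m (i + 4) [(i, true), (m, true)] [(m, true)]
  have hL : ∀ n (M : Type) [Group M] (g : ℕ → M), (∀ r ∈ L n, ev g r = 1) ↔
      (∀ r ∈ R, FreeGroup.lift (fun y => g (E y)) r = 1) ∧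
      ((g (m + 1))⁻¹ * g m * g (m + 1) = (g (m + 2))⁻¹ * ((g m)⁻¹ * g (m + 2) * g m) * g (m + 2) ∧
      (g (m + 1) ^ 2)⁻¹ * ((g m)⁻¹ * g (m + 1) * g m) * g (m + 1) ^ 2 =
        (g (m + 2) ^ 2)⁻¹ * g m * g (m + 2) ^ 2 ∧
      (g (m + 1) ^ 3)⁻¹ * FreeGroup.lift (fun y => g (E y))
        ⁅FreeGroup.of k, FreeGroup.of x ^ s n * FreeGroup.of t * (FreeGroup.of x ^ s n)⁻¹⁆ *
          g (m + 1) ^ 3 = (g (m + 2) ^ 3)⁻¹ * g m * g (m + 2) ^ 3) ∧
      ∀ i < m, (g (m + 1) ^ (i + 4))⁻¹ * (g i * g m) * g (m + 1) ^ (i + 4) =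
        (g (m + 2) ^ (i + 4))⁻¹ * g m * g (m + 2) ^ (i + 4) := by
    intro n M _ g
    simp only [L, L0, List.mem_append, or_imp, forall_and, List.forall_mem_map, ev_mk,
      FreeGroup.mk_toWord, Finset.mem_toList, Set.Finite.mem_toFinset, List.forall_mem_cons,
      ev_rl, List.mem_range, List.not_mem_nil, W, and_assoc]
    simp [map_commutatorElement, mul_assoc]
  refine ⟨m + 3, L, S, ?_, hS, ?_, ?_, ?_⟩
  · simp only [L, W, rl, cw, iw, pw]
    fun_prop
  · intro n r hr
    simp only [L, L0, List.mem_append, List.mem_map, List.mem_cons, List.not_mem_nil, or_false,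
      List.mem_range] at hr
    rcases hr with (⟨r, -, rfl⟩ | rfl | rfl | rfl) | ⟨i, hi, rfl⟩
    · intro y hy
      obtain ⟨y, -, rfl⟩ := List.mem_map.1 hy
      exact hE _
    · exact lt_rl (by simp) (by simp)
    · exact lt_rl (by simp) (by simp)
    · refine lt_rl (lt_cw (by simp [hE]) ?_) (by simp)
      simp [hE, lt_pw _ (hE x), lt_iw (lt_pw _ (hE x))]
    · exact lt_rl (by simp; omega) (by simp)
  · intro n M _ g h hn
    obtain ⟨h0, ⟨h1, h2, h3⟩, h4⟩ := (hL n M g).1 h
    have hw1 : FreeGroup.lift (fun y => g (E y))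
        ⁅FreeGroup.of k, FreeGroup.of x ^ s n * FreeGroup.of t * (FreeGroup.of x ^ s n)⁻¹⁆ = 1 := by
      rcases hn with hn | hn
      · exact Subgroup.normalClosure_le_normal (N := (FreeGroup.lift fun y => g (E y)).ker)
          (fun r hr => h0 r hr) ((hw n).1 hn)
      · rw [map_commutatorElement]
        exact commutatorElement_eq_one_iff_commute.2 (hn _ _)
    rw [hw1] at h3
    have hb : g m = 1 := by
      have : (g (m + 2) ^ 3)⁻¹ * g m * g (m + 2) ^ 3 = 1 := by rw [← h3]; simp
      rwa [mul_assoc, inv_mul_eq_one, eq_comm, mul_eq_right] at this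
    have hc : g (m + 2) = 1 := by simpa [hb] using h1.symm
    have ha : g (m + 1) = 1 := by
      have : (g (m + 1) ^ 2)⁻¹ * g (m + 1) * g (m + 1) ^ 2 = 1 := by simpa [hb, hc] using h2
      rwa [mul_assoc, inv_mul_eq_one, eq_comm, mul_eq_right] at this
    intro i hi
    by_cases him : i < m
    · simpa [ha, hb, hc] using h4 i him
    · obtain rfl | rfl | rfl : i = m ∨ i = m + 1 ∨ i = m + 2 := by omega
      exacts [hb, ha, hc]
  · intro n hn
    let b : H × Multiplicative ℤ := (1, Multiplicative.ofAdd 1)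
    have inf : ∀ h : H, ∀ c : ℤ, ((h, Multiplicative.ofAdd (1 : ℤ)) : H × Multiplicative ℤ) ^ c = 1 → c = 0 := by
      intro h c hc
      have := congrArg (fun p : H × Multiplicative ℤ => p.2.toAdd) hc
      simpa using this
    let y : ℕ → H := fun i => if h : i < m then φ (FreeGroup.of (e.symm ⟨i, h⟩)) else 1
    let u : ℕ → H × Multiplicative ℤ := fun i =>
      if i = 0 then (z, 1) else (y (i - 1), Multiplicative.ofAdd 1)
    obtain ⟨M, _, ι, a, c, hι, h1, h2, h3⟩ := amalg (b := b) (inf 1) u (by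
      intro i c hc
      simp only [u] at hc
      split_ifs at hc
      · exact z0 c (by simpa using congrArg Prod.fst hc)
      · exact inf _ c hc)
    let g : ℕ → M := fun i => if i < m then ι (y i, 1) else if i = m then ι b else
      if i = m + 1 then a else c
    have g0 : g m = ι b := by simp [g]
    have g1 : g (m + 1) = a := by simp [g]
    have g2 : g (m + 2) = c := by simp [g]
    have gE : FreeGroup.lift (fun y => g (E y)) = (ι.comp (MonoidHom.inl _ _)).comp φ := by
      ext w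
      simp [g, E, y]
    refine ⟨M, inferInstance, g, (hL n M g).2 ⟨?_, ⟨?_, ?_, ?_⟩, ?_⟩, m, by omega, ?_⟩
    · intro r hr
      rw [gE, MonoidHom.comp_apply, φR r hr, map_one]
    · rw [g0, g1, g2]; exact h1
    · rw [g0, g1, g2]; exact h2
    · rw [g0, g1, g2, gE, MonoidHom.comp_apply, (hw n).2 hn]
      simpa [u] using h3 0
    · intro i hi
      have := h3 (i + 1)
      rw [g0, g1, g2]
      simp only [g, if_pos hi, ← map_mul]
      simpa [u, b, add_assoc] using this
    · intro c hc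
      rw [g0, ← map_zpow, ← map_one ι] at hc
      exact inf 1 c (hι hc)

/-- relators over the generators `Fin n` -/
def rels (n : ℕ) (R : List (List (ℕ × Bool))) : Set (FreeGroup (Fin n)) :=
  {w | ∃ l : List (Fin n × Bool), l.map (fun x => (x.1.val, x.2)) ∈ R ∧ w = FreeGroup.mk l}

section
variable {n : ℕ} {R : List (List (ℕ × Bool))}

def gen (n : ℕ) (R : List (List (ℕ × Bool))) (i : ℕ) : PresentedGroup (rels n R) :=
  if h : i < n then PresentedGroup.of ⟨i, h⟩ else 1

theorem gen_rel {r} (hr : r ∈ R) (hv : Lt n r) : ev (gen n R) r = 1 := by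
  obtain ⟨l, rfl⟩ : ∃ l : List (Fin n × Bool), l.map (fun x => (x.1.val, x.2)) = r := by
    refine ⟨r.attach.map fun x => (⟨x.1.1, hv _ x.2⟩, x.1.2), ?_⟩
    simpa [List.map_map, Function.comp_def] using List.attach_map_subtype_val r
  rw [ev_mk]
  have : FreeGroup.lift (fun x : Fin n => gen n R x) = PresentedGroup.mk (rels n R) := by
    ext x
    simp [gen, PresentedGroup.of]
  rw [this]
  exact PresentedGroup.one_of_mem ⟨l, hr, rfl⟩

theorem ex_lift {M : Type} [Group M] (g : ℕ → M) (h : ∀ r ∈ R, ev g r = 1) :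
    ∃ f : PresentedGroup (rels n R) →* M, ∀ i < n, f (gen n R i) = g i := by
  have hr : ∀ r ∈ rels n R, FreeGroup.lift (fun x : Fin n => g x) r = 1 := by
    rintro _ ⟨l, hl, rfl⟩
    rw [← ev_mk]
    exact h _ hl
  exact ⟨PresentedGroup.toGroup hr, fun i hi => by simp [gen, hi]⟩

theorem gen_ind (K : Subgroup (PresentedGroup (rels n R))) (h : ∀ i < n, gen n R i ∈ K) : K = ⊤ := by
  rw [eq_top_iff, ← PresentedGroup.closure_range_of, Subgroup.closure_le]
  rintro _ ⟨i, rfl⟩
  simpa [gen] using h i i.2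

end

end Pool.Agent.Lib.AR

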