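import Mathlib
import Pool.Agent.Lib.helper22.H10c

namespace Pool.Agent.Lib.H10

theorem arith {q : ℕ} (hq : 1 < q) (x n c : ℕ) : (∃ l α z y z' y', x < q ^ l ∧ n < q ^ l ∧ c < q ^ (l + l) ∧
    q ^ (l + l + 1) * z + 1 = z + q ^ α ∧ q ^ (l + l + 1) * y + x = y + q ^ α * x ∧ z + z' = n + q ^ (l + l + 1) * z' ∧
    y + y' = c + q ^ (l + l + 1) * y') ↔ c = x * n := by
  have k : ∀ l, ∃ W, q ^ (l + l + 1) = W + 1 ∧ q ^ (l + l) ≤ W := fun l =>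
    ⟨q ^ (l + l + 1) - 1, (Nat.sub_add_cancel (Nat.one_le_pow _ _ (by omega))).symm,
      Nat.le_sub_one_of_lt (Nat.pow_lt_pow_right hq (by omega))⟩
  constructor
  · rintro ⟨l, α, z, y, z', y', h1, h2, h3, h4, h5, h6, h7⟩
    obtain ⟨W, e, hW⟩ := k l
    have : x * n < W := (Nat.mul_lt_mul'' h1 h2).trans_le (by rwa [← pow_add])
    rw [e] at h4 h5 h6 h7
    have a : y = x * z := Nat.eq_of_mul_eq_mul_left (by omega : 0 < W) (by
      have : q ^ α = W * z + 1 := by linarith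
      rw [this] at h5
      linarith)
    have b : z = n + W * z' := by linarith
    exact (uniq (b := y') (d := x * z') (by omega) this (by rw [b] at a; linarith)).1
  · rintro rfl
    obtain ⟨W, e, -⟩ := k (x + n)
    have h1 : x < q ^ (x + n) := (Nat.lt_pow_self hq).trans_le (Nat.pow_le_pow_right (by omega) (by omega))
    have h2 : n < q ^ (x + n) := (Nat.lt_pow_self hq).trans_le (Nat.pow_le_pow_right (by omega) (by omega))
    have : ∀ j, ∃ z', (W + 1) ^ j = W * (j + W * z') + 1 := fun j => by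
      induction j with
      | zero => exact ⟨0, by simp⟩
      | succ j ih => obtain ⟨z, h⟩ := ih; exact ⟨z + j + W * z, by rw [pow_succ, h]; ring⟩
    obtain ⟨z', h⟩ := this n
    refine ⟨x + n, (x + n + (x + n) + 1) * n, n + W * z', x * (n + W * z'), z', x * z', h1, h2,
      by rw [pow_add]; exact Nat.mul_lt_mul'' h1 h2, ?_⟩
    rw [pow_mul, e, h]
    refine ⟨?_, ?_, ?_, ?_⟩ <;> ring

variable {C K M : Type} [Monoid M] {c : C → M} {rel : K → M → M → Prop}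

/-- naturals `a ^ n`, exponents `b ^ k` and the map `(k, m) ↦ q ^ k * m` suffice for undecidability -/
theorem und_exp [Primcodable C] [Primcodable K] (k0 : K) (hk : ∀ x y, rel k0 x y ↔ x = y) (u t : List C) {a b : M}
    (ha : (u.map c).prod = a) (hb : (t.map c).prod = b) (inj : ∀ m n : ℕ, a ^ m = a ^ n → m = n)
    (hN : SD c rel fun v : Unit → M => ∃ n, v () = a ^ n) (hB : SD c rel fun v : Unit → M => ∃ n, v () = b ^ n)
    {q : ℕ} (hq : 1 < q) {P : M → M → M → Prop} (hP : SD c rel fun v : Fin 3 → M => P (v 0) (v 1) (v 2))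
    (hp : ∀ k m n : ℕ, P (b ^ k) (a ^ m) (a ^ n) ↔ n = q ^ k * m) :
    ¬ ComputablePred fun E : List (K × List (C ⊕ ℕ) × List (C ⊕ ℕ)) => ∃ σ, Sol c rel σ E := by
  have eq : ∀ {γ} {f g : (γ → M) → M}, TD c f → TD c g → SD c rel fun v => f v = g v :=
    fun h k => (SD.atom k0 h k).of_iff fun _ => hk _ _
  have ta : ∀ {γ}, TD c fun _ : γ → M => a := ⟨u.map .inl, by simp [ev, ← ha, Function.comp_def]⟩
  have tb : ∀ {γ}, TD c fun _ : γ → M => b := ⟨t.map .inl, by simp [ev, ← hb, Function.comp_def]⟩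
  have p : ∀ {γ} {f g h : (γ → M) → M}, TD c f → TD c g → TD c h → SD c rel fun v => P (f v) (g v) (h v) :=
    fun {γ f g h} a b d => SD.sub (F := ![f, g, h]) (by simp [Fin.forall_fin_succ, *]) hP
  obtain ⟨N, eN, n⟩ : ∃ N : M → Prop, (∀ x, N x ↔ ∃ n, x = a ^ n) ∧ ∀ {γ} {f : (γ → M) → M}, TD c f → SD c rel fun v => N (f v) :=
    ⟨_, fun _ => .rfl, fun {γ f} h => SD.sub (F := fun _ => f) (fun _ => h) hN⟩
  obtain ⟨B, eB, n'⟩ : ∃ N : M → Prop, (∀ x, N x ↔ ∃ n, x = b ^ n) ∧ ∀ {γ} {f : (γ → M) → M}, TD c f → SD c rel fun v => N (f v) :=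
    ⟨_, fun _ => .rfl, fun {γ f} h => SD.sub (F := fun _ => f) (fun _ => h) hB⟩
  refine und_sys k0 hk u ha inj hN (Mu := fun X Y Z => N Z ∧ ∃ l α z y z' y' d1 d2 d3 e r1 r2 r3 r4 r5, B l ∧ B α ∧ N z ∧ N y ∧ N z' ∧
    N y' ∧ N d1 ∧ N d2 ∧ N d3 ∧ N e ∧ N r1 ∧ N r2 ∧ N r3 ∧ N r4 ∧ N r5 ∧ P l a (X * d1 * a) ∧ P l a (Y * d2 * a) ∧
    P (l * l) a (Z * d3 * a) ∧ P α a e ∧ P (l * l * b) z r1 ∧ P (l * l * b) y r2 ∧ P α X r3 ∧ P (l * l * b) z' r4 ∧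
    P (l * l * b) y' r5 ∧ r1 * a = z * e ∧ r2 * X = y * r3 ∧ z * z' = Y * r4 ∧ y * y' = Z * r5) ?_ fun x y Z => ?_
  · repeat' first | apply SD.ex | apply SD.and | apply eq | apply p | apply n | apply n' | apply TD.var | apply TD.mul | apply ta | apply tb
  have hp1 : ∀ k n : ℕ, P (b ^ k) a (a ^ n) ↔ n = q ^ k := fun k n => by simpa using hp k 1 n
  have ii : ∀ m n : ℕ, a ^ m = a ^ n ↔ m = n := fun m n => ⟨inj m n, congrArg _⟩
  simp only [eN, eB]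
  constructor
  · rintro ⟨⟨w, rfl⟩, _, _, _, _, _, _, _, _, _, _, _, _, _, _, _, ⟨l, rfl⟩, ⟨α, rfl⟩, ⟨z, rfl⟩, ⟨y, rfl⟩, ⟨z', rfl⟩, ⟨y', rfl⟩,
      ⟨d1, rfl⟩, ⟨d2, rfl⟩, ⟨d3, rfl⟩, ⟨e, rfl⟩, ⟨r1, rfl⟩, ⟨r2, rfl⟩, ⟨r3, rfl⟩, ⟨r4, rfl⟩, ⟨r5, rfl⟩, h⟩
    simp only [← pow_add, ← pow_succ, hp, hp1, ii] at h
    obtain ⟨h1, h2, h3, rfl, rfl, rfl, rfl, rfl, rfl, h⟩ := h
    exact congrArg _ ((arith hq ..).1 ⟨l, α, z, y, z', y', by omega, by omega, by omega, h⟩)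
  · rintro rfl
    obtain ⟨l, α, z, w, z', w', h1, h2, h3, h⟩ := (arith hq x y _).2 rfl
    obtain ⟨d1, h1⟩ := Nat.exists_eq_add_of_lt h1
    obtain ⟨d2, h2⟩ := Nat.exists_eq_add_of_lt h2
    obtain ⟨d3, h3⟩ := Nat.exists_eq_add_of_lt h3
    refine ⟨⟨_, rfl⟩, _, _, _, _, _, _, _, _, _, _, _, _, _, _, _, ⟨l, rfl⟩, ⟨α, rfl⟩, ⟨z, rfl⟩, ⟨w, rfl⟩, ⟨z', rfl⟩, ⟨w', rfl⟩,
      ⟨d1, rfl⟩, ⟨d2, rfl⟩, ⟨d3, rfl⟩, ⟨q ^ α, rfl⟩, ⟨q ^ (l + l + 1) * z, rfl⟩, ⟨q ^ (l + l + 1) * w, rfl⟩, ⟨q ^ α * x, rfl⟩,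
      ⟨q ^ (l + l + 1) * z', rfl⟩, ⟨q ^ (l + l + 1) * w', rfl⟩, ?_⟩
    simp only [← pow_add, ← pow_succ, hp, hp1, ii]
    exact ⟨h1.symm, h2.symm, h3.symm, trivial, trivial, trivial, trivial, trivial, trivial, h⟩

theorem comm_pow {A : Type} {U : List A} (h0 : U ≠ []) (h : ∀ i < U.length, U.take i ++ U = U ++ U.take i → i = 0) (v : List A)
    (e : v ++ U = U ++ v) : ∃ k, v = (List.replicate k U).flatten := by
  induction hl : v.length using Nat.strong_induction_on generalizing v with | _ n ih =>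
  rcases List.append_eq_append_iff.1 e with ⟨s, a, b⟩ | ⟨s, a, b⟩
  · rcases eq_or_ne s [] with rfl | q
    · exact ⟨1, by simpa using a.symm⟩
    have t : U.take v.length = v := by simp [a]
    have := h v.length (by simpa [a, List.length_pos_iff] using q) (by rwa [t])
    exact ⟨0, List.length_eq_zero_iff.1 this⟩
  · subst a
    obtain ⟨k, rfl⟩ := ih s.length (by simp [← hl, List.length_pos_iff, h0]) s (by simpa using b.symm) rfl
    exact ⟨k + 1, rfl⟩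

end Pool.Agent.Lib.H10
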