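import Mathlib

namespace Pool.Agent.Lib.NB

open Matrix OnePoint Set

/-- free groups of finite rank embed in `SL(2, ℤ)` with unipotent generators -/
theorem exists_free (X : Type) [Countable X] [Nontrivial X] : ∃ ρ : FreeGroup X →* SpecialLinearGroup (Fin 2) ℤ, Function.Injective ρ ∧
    ∀ x, ∃ N : Matrix (Fin 2) (Fin 2) ℤ, ∀ n : ℤ, (ρ (.of x ^ n)).1 = 1 + n • N := by
  obtain ⟨a, ha⟩ := exists_injective_nat X
  let g : X → ℤ → SpecialLinearGroup (Fin 2) ℤ := fun x n =>
    ⟨!![1 + n * (4 * a x), n * (-8 * a x ^ 2); n * 2, 1 + n * (-4 * a x)], by rw [det_fin_two_of]; ring⟩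
  have gm : ∀ x m n, g x (m + n) = g x m * g x n := fun x m n => by
    ext i j
    fin_cases i <;> fin_cases j <;> simp [g, mul_apply] <;> ring
  have gz : ∀ x n, g x 1 ^ n = g x n := fun x n => by
    simpa using (map_zpow (MonoidHom.mk' (fun n : Multiplicative ℤ => g x n.toAdd) fun _ _ => gm x _ _) (.ofAdd 1) n).symm
  refine ⟨FreeGroup.lift (g · 1), ?_, fun x => ⟨!![4 * a x, -8 * a x ^ 2; 2, -4 * a x], fun n => ?_⟩⟩
  · let _ := MulAction.compHom (OnePoint ℚ) (SpecialLinearGroup.mapGL (n := Fin 2) (R := ℤ) ℚ)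
    let I : ℤ → Set (OnePoint ℚ) := fun c => (↑) '' Ico (c : ℚ) (c + 1)
    have d : ∀ c e, c ≠ e → Disjoint (I c) (I e) := fun c e h => (disjoint_image_iff coe_injective).2 (pairwise_disjoint_Ico_intCast ℚ h)
    have k : ∀ x (e : ℤ) (p : OnePoint ℚ), ∃ q : ℚ, (p = ∞ ∧ q = 1 / (2 * e) ∨ ∃ s : ℚ, p = ↑(2 * a x + s) ∧ q = s / (2 * e * s + 1)) ∧
        (e ≠ 0 → (∀ s : ℚ, p = ↑(2 * a x + s) → 2 * e * s + 1 ≠ 0) → g x e • p = ↑(2 * a x + q)) := fun x e p => by
      induction p with
      | infty =>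
        refine ⟨_, .inl ⟨rfl, rfl⟩, fun h _ => (smul_infty_eq_ite _).trans ?_⟩
        simp [g, h]
        field_simp
        ring
      | coe s =>
        obtain ⟨s, rfl⟩ : ∃ t, s = 2 * a x + t := ⟨s - 2 * a x, by ring⟩
        refine ⟨_, .inr ⟨s, rfl, rfl⟩, fun _ h => smul_some_eq_ite.trans ?_⟩
        have := h s rfl
        have e : (e : ℚ) * 2 * (2 * a x + s) + (1 + -(e * (4 * a x))) = 2 * e * s + 1 := by ring
        simp [g, e, this, div_eq_iff this, add_mul, div_mul_cancel₀ _ this]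
        ring
    refine FreeGroup.injective_lift_of_ping_pong _ (fun x => I (2 * a x)) (fun x => I (2 * a x - 1)) (fun x => ⟨_, _, ⟨le_rfl, lt_add_one _⟩, rfl⟩)
      (fun x y h => d _ _ (by simpa using ha.ne h)) (fun x y h => d _ _ (by simpa using ha.ne h)) (fun x y => d _ _ (by omega)) (fun x => ?_) fun x => ?_
    · rintro _ ⟨p, hp, rfl⟩
      obtain ⟨q, h, k⟩ := k x 1 p
      have : ∀ s : ℚ, p = ↑(2 * a x + s) → s < -1 ∨ 0 ≤ s := fun s h => by
        contrapose! hp
        exact not_not.2 ⟨_, by constructor <;> push_cast <;> linarith, h.symm⟩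
      refine ⟨_, ?_, (k one_ne_zero fun s h => by cases this s h <;> push_cast <;> linarith).symm⟩
      obtain ⟨-, rfl⟩ | ⟨s, h, rfl⟩ := h
      · norm_num
      · obtain h | h := this s h
        · simpa using ⟨div_nonneg_of_nonpos (by linarith) (by linarith), (div_lt_one_of_neg (by linarith)).2 (by linarith)⟩
        · simpa using ⟨by positivity, (div_lt_one (by linarith)).2 (by linarith)⟩
    · rintro _ ⟨p, hp, rfl⟩
      obtain ⟨q, h, k⟩ := k x (-1) p
      have : ∀ s : ℚ, p = ↑(2 * a x + s) → s < 0 ∨ 1 ≤ s := fun s h => by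
        contrapose! hp
        exact not_not.2 ⟨_, by constructor <;> push_cast <;> linarith, h.symm⟩
      rw [← gz, _root_.zpow_neg_one] at k
      refine ⟨_, ?_, (k (by simp) fun s h => by cases this s h <;> push_cast <;> linarith).symm⟩
      obtain ⟨-, rfl⟩ | ⟨s, h, rfl⟩ := h
      · constructor <;> push_cast <;> linarith
      · have : -1 ≤ s / (2 * (-1) * s + 1) ∧ s / (2 * (-1) * s + 1) < 0 := by
          obtain h | h := this s h
          · exact ⟨(le_div_iff₀ (by linarith)).2 (by linarith), div_neg_of_neg_of_pos h (by linarith)⟩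
          · exact ⟨(le_div_iff_of_neg (by linarith)).2 (by linarith), div_neg_of_pos_of_neg (by linarith) (by linarith)⟩
        constructor <;> push_cast <;> linarith
  · rw [map_zpow, FreeGroup.lift_apply_of, gz]
    ext i j
    fin_cases i <;> fin_cases j <;> simp [g]

end Pool.Agent.Lib.NB
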