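import Mathlib

set_option autoImplicit false

namespace Pool.Agent.Lib.helper22.APC

open scoped Pointwise

variable {G H : Type*} [Group G] [Group H]

def St (F Y : Set G) (a b : G) : Prop := a ∈ Y ∧ b ∈ Y ∧ (a⁻¹ * b ∈ F ∨ b⁻¹ * a ∈ F)

def Ch (F Y : Set G) : G → G → Prop := Relation.ReflTransGen (St F Y)

def Z (Y F L : Set G) : Prop := ∀ x y, x ∈ Y → Ch F Y x y → x⁻¹ * y ∈ L

def Cov (n : ℕ) (s : ℕ → Set G) : Prop :=
  ∃ L : Set G, L.Finite ∧ ∃ Y : ℕ → Set G, (∀ i < n, Z (Y i) (s i) L) ∧ ∀ x, ∃ i < n, x ∈ Y i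

def APC (G : Type*) [Group G] : Prop := ∀ s : ℕ → Set G, (∀ i, (s i).Finite) → ∃ n, Cov n s

theorem St.symm {F Y : Set G} {a b : G} (h : St F Y a b) : St F Y b a :=
  ⟨h.2.1, h.1, h.2.2.symm⟩

theorem Ch.refl (F Y : Set G) (a : G) : Ch F Y a a := Relation.ReflTransGen.refl

theorem Ch.trans {F Y : Set G} {a b c : G} (h : Ch F Y a b) (h' : Ch F Y b c) : Ch F Y a c :=
  Relation.ReflTransGen.trans h h'

theorem Ch.tail {F Y : Set G} {a b c : G} (h : Ch F Y a b) (h' : St F Y b c) : Ch F Y a c :=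
  Relation.ReflTransGen.tail h h'

theorem Ch.symm {F Y : Set G} {a b : G} (h : Ch F Y a b) : Ch F Y b a := by
  induction h with
  | refl => exact Ch.refl _ _ _
  | tail _ h2 ih => exact Relation.ReflTransGen.head h2.symm ih

theorem Ch.mem {F Y : Set G} {a b : G} (h : Ch F Y a b) (ha : a ∈ Y) : b ∈ Y := by
  induction h with
  | refl => exact ha
  | tail _ h2 _ => exact h2.2.1

theorem Ch.map {F Y : Set G} {F' Y' : Set H} (κ : G → H)
    (hκ : ∀ a b, St F Y a b → St F' Y' (κ a) (κ b)) {a b : G} (h : Ch F Y a b) :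
    Ch F' Y' (κ a) (κ b) := by
  induction h with
  | refl => exact Ch.refl _ _ _
  | tail _ h2 ih => exact ih.tail (hκ _ _ h2)

theorem Z.mono {Y F L Y' F' L' : Set G} (h : Z Y F L) (hY : Y' ⊆ Y) (hF : F' ⊆ F) (hL : L ⊆ L') :
    Z Y' F' L' := by
  intro x y hx hc
  refine hL (h x y (hY hx) (Ch.map id ?_ hc))
  rintro a b ⟨ha, hb, hab⟩
  exact ⟨hY ha, hY hb, hab.imp (fun h => hF h) (fun h => hF h)⟩

theorem Z.union_sep {Y Y' F L : Set G} (h : Z Y F L) (h' : Z Y' F L)
    (hs : ∀ a ∈ Y, ∀ b ∈ Y', a⁻¹ * b ∉ F ∧ b⁻¹ * a ∉ F) : Z (Y ∪ Y') F L := by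
  intro x y hx hc
  rcases hx with hx | hx
  · have : Ch F Y x y := by
      induction hc with
      | refl => exact Ch.refl _ _ _
      | tail _ h2 ih =>
        have hb := ih.mem hx
        rcases h2.2.1 with h3 | h3
        · exact ih.tail ⟨hb, h3, h2.2.2⟩
        · rcases h2.2.2 with h4 | h4
          · exact absurd h4 (hs _ hb _ h3).1
          · exact absurd h4 (hs _ hb _ h3).2
    exact h x y hx this
  · have : Ch F Y' x y := by
      induction hc with
      | refl => exact Ch.refl _ _ _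
      | tail _ h2 ih =>
        have hb := ih.mem hx
        rcases h2.2.1 with h3 | h3
        · rcases h2.2.2 with h4 | h4
          · exact absurd h4 (hs _ h3 _ hb).2
          · exact absurd h4 (hs _ h3 _ hb).1
        · exact ih.tail ⟨hb, h3, h2.2.2⟩
    exact h' x y hx this

theorem Z.union_hier {X X' F L ρ L' S : Set G} (hX : Z X F L) (hX' : Z X' ρ L')
    (h1 : (1 : G) ∈ S) (hF : F ⊆ S) (hF' : ∀ a, a⁻¹ ∈ F → a ∈ S) (hL : L ⊆ S)
    (hρ : ∀ p ∈ X', ∀ q ∈ X', Ch F (X ∪ X') p q → p⁻¹ * q ∈ S * S * S → p⁻¹ * q ∈ ρ) :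
    Z (X ∪ X') F (L ∪ (S * S) * L' * (S * S)) := by
  have hst : ∀ a b, St F (X ∪ X') a b → a⁻¹ * b ∈ S := by
    rintro a b ⟨-, -, h | h⟩
    · exact hF h
    · exact hF' _ (by simpa using h)
  intro x y hx hc
  have key : (x ∈ X ∧ Ch F X x y) ∨ ∃ p ∈ X', ∃ q ∈ X', x⁻¹ * p ∈ S * S ∧ Ch ρ X' p q ∧
      Ch F (X ∪ X') q y ∧ (y = q ∨ ∃ z ∈ X, q⁻¹ * z ∈ S ∧ Ch F X z y) := by
    induction hc with
    | refl =>
      rcases hx with hx | hx
      · exact Or.inl ⟨hx, Ch.refl _ _ _⟩
      · refine Or.inr ⟨x, hx, x, hx, ?_, Ch.refl _ _ _, Ch.refl _ _ _, Or.inl rfl⟩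
        exact ⟨1, h1, 1, h1, by simp⟩
    | @tail y y' _ h2 ih =>
      have hs := hst _ _ h2
      by_cases hy' : y' ∈ X'
      · right
        rcases ih with ⟨hx0, hc0⟩ | ⟨p, hp, q, hq, hxp, hpq, hqy, hy⟩
        · refine ⟨y', hy', y', hy', ⟨_, hL (hX x y hx0 hc0), _, hs, by group⟩, Ch.refl _ _ _,
            Ch.refl _ _ _, Or.inl rfl⟩
        · refine ⟨p, hp, y', hy', hxp, hpq.tail ⟨hq, hy', Or.inl ?_⟩, Ch.refl _ _ _, Or.inl rfl⟩
          refine hρ q hq y' hy' (hqy.tail h2) ?_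
          rcases hy with rfl | ⟨z, hz, hqz, hzy⟩
          · exact ⟨_, ⟨1, h1, 1, h1, rfl⟩, _, hs, by simp⟩
          · exact ⟨_, ⟨_, hqz, _, hL (hX z y hz hzy), rfl⟩, _, hs, by group⟩
      · have hy'X : y' ∈ X := h2.2.1.resolve_right hy'
        rcases ih with ⟨hx0, hc0⟩ | ⟨p, hp, q, hq, hxp, hpq, hqy, hy⟩
        · exact Or.inl ⟨hx0, hc0.tail ⟨hc0.mem hx0, hy'X, h2.2.2⟩⟩
        · refine Or.inr ⟨p, hp, q, hq, hxp, hpq, hqy.tail h2, Or.inr ?_⟩
          rcases hy with rfl | ⟨z, hz, hqz, hzy⟩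
          · exact ⟨y', hy'X, hs, Ch.refl _ _ _⟩
          · exact ⟨z, hz, hqz, hzy.tail ⟨hzy.mem hz, hy'X, h2.2.2⟩⟩
  rcases key with ⟨hx0, hc0⟩ | ⟨p, hp, q, hq, hxp, hpq, -, hy⟩
  · exact Or.inl (hX x y hx0 hc0)
  · right
    have hqy : q⁻¹ * y ∈ S * S := by
      rcases hy with rfl | ⟨z, hz, hqz, hzy⟩
      · exact ⟨1, h1, 1, h1, by simp⟩
      · exact ⟨_, hqz, _, hL (hX z y hz hzy), by group⟩
    exact ⟨_, ⟨_, hxp, _, hX' p q hp hpq, rfl⟩, _, hqy, by group⟩

theorem APC.of_injective (φ : H →* G) (hφ : Function.Injective φ) (h : APC G) : APC H := by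
  intro s hs
  obtain ⟨n, L, hL, Y, hY, hc⟩ := h (fun i => φ '' s i) (fun i => (hs i).image _)
  refine ⟨n, φ ⁻¹' L, hL.preimage hφ.injOn, fun i => φ ⁻¹' Y i, ?_, fun x => hc (φ x)⟩
  intro i hi x y hx hxy
  have := hY i hi (φ x) (φ y) hx (Ch.map φ ?_ hxy)
  · simpa using this
  · rintro a b ⟨ha, hb, hab⟩
    refine ⟨ha, hb, hab.imp (fun h => ⟨_, h, by simp⟩) (fun h => ⟨_, h, by simp⟩)⟩

theorem Cov.push (φ : H →* G) (hφ : Function.Injective φ) {n : ℕ} {s : ℕ → Set H}
    (h : Cov n s) : Cov n (fun i => φ '' s i) := by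
  obtain ⟨L, hL, Y, hY, hc⟩ := h
  have hk : ∀ g : G, ∃ k : H, φ k = ((g : G ⧸ φ.range).out)⁻¹ * g := by
    intro g
    have : ((g : G ⧸ φ.range).out : G ⧸ φ.range) = g := QuotientGroup.out_eq' _
    exact QuotientGroup.eq.1 this
  choose κ hκ using hk
  have hab : ∀ a b : G, a⁻¹ * b ∈ φ.range → φ ((κ a)⁻¹ * κ b) = a⁻¹ * b := by
    intro a b h
    have : (a : G ⧸ φ.range) = b := QuotientGroup.eq.2 h
    rw [map_mul, map_inv, hκ, hκ, this]
    group
  refine ⟨φ '' L, hL.image _, fun i => κ ⁻¹' Y i, ?_, fun x => hc (κ x)⟩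
  intro i hi x y hx hxy
  have h1 : x⁻¹ * y ∈ φ.range := by
    induction hxy with
    | refl => simp
    | @tail b c _ h2 ih =>
      have : b⁻¹ * c ∈ φ.range := by
        rcases h2.2.2 with ⟨u, -, hu⟩ | ⟨u, -, hu⟩
        · exact ⟨u, hu⟩
        · exact ⟨u⁻¹, by simp [hu]⟩
      have h3 := φ.range.mul_mem ih this
      simpa [mul_assoc] using h3
  refine ⟨_, hY i hi (κ x) (κ y) hx (Ch.map κ ?_ hxy), hab _ _ h1⟩
  rintro a b ⟨ha, hb, h⟩
  refine ⟨ha, hb, h.imp ?_ ?_⟩
  · rintro ⟨u, hu, he⟩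
    have := hab a b ⟨u, he⟩
    rw [← he] at this
    rw [hφ this]; exact hu
  · rintro ⟨u, hu, he⟩
    have := hab b a ⟨u, he⟩
    rw [← he] at this
    rw [hφ this]; exact hu

def CC (j : ℕ) (σ : ℕ → Set G) : Prop :=
  ∀ R : ℕ → Set G, (∀ i, (R i).Finite) → ∃ n : ℕ, ∃ L : Set G, L.Finite ∧ ∃ Y W : ℕ → Set G,
    (∀ i < j, Z (Y i) (σ i) L) ∧ (∀ k < n, Z (W k) (R k) L) ∧
      ∀ x, (∃ i < j, x ∈ Y i) ∨ ∃ k < n, x ∈ W k

theorem colour {n : ℕ} {s : ℕ → Set H} (h : Cov n s) :
    ∃ M : Set H, M.Finite ∧ ∃ idx : H → ℕ, ∃ c : H → H, (∀ x, idx x < n) ∧ (∀ x, c x ∈ M) ∧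
      ∀ i x y, idx x = i → Ch (s i) {z | idx z = i} x y → c x = c y → x = y := by
  obtain ⟨M, hM, A, hA, hc⟩ := h
  choose idx hi hm using hc
  let comp : H → Set H := fun x => {y | Ch (s (idx x)) {z | idx z = idx x} x y}
  have hne : ∀ x, ∃ y, y ∈ comp x := fun x => ⟨x, Ch.refl _ _ _⟩
  let b : H → H := fun x => Classical.epsilon (fun y => y ∈ comp x)
  have hb : ∀ x, b x ∈ comp x := fun x => Classical.epsilon_spec (hne x)
  refine ⟨M, hM, idx, fun x => (b x)⁻¹ * x, hi, ?_, ?_⟩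
  · intro x
    have hz : Z {z | idx z = idx x} (s (idx x)) M :=
      (hA _ (hi x)).mono (fun z hz => by have := hm z; rwa [show idx z = idx x from hz] at this)
        subset_rfl subset_rfl
    exact hz _ _ (Ch.mem (hb x) rfl) (Ch.symm (hb x))
  · rintro i x y rfl hxy he
    have hy : idx y = idx x := hxy.mem rfl
    have : comp x = comp y := by
      ext z
      simp only [comp, hy, Set.mem_ofPred_eq]
      exact ⟨fun h => hxy.symm.trans h, fun h => hxy.trans h⟩
    have hbb : b x = b y := by simp only [b, this]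
    simp only [hbb] at he
    exact mul_left_cancel he

theorem step (f : G →* H) (hH : APC H) (j : ℕ) (σ : ℕ → Set G) (hσ : ∀ i, σ i ⊆ f.ker)
    (h : ∀ ρ : Set G, ρ.Finite → ρ ⊆ f.ker → CC (j + 1) (Function.update σ j ρ)) : CC j σ := by
  classical
  intro R hR
  obtain ⟨nH, hcov⟩ := hH (fun i => f '' R i) (fun i => (hR i).image _)
  obtain ⟨M, hM, idx, c, hidx, hcM, hinj⟩ := colour hcov
  have main : ∀ T : Set H, T.Finite → ∃ N, nH ≤ N ∧ ∃ L : Set G, L.Finite ∧ ∃ Y W : ℕ → Set G,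
      ∃ X : Set G, (∀ i < j, Z (Y i) (σ i) L) ∧ (∀ i, ∀ g ∈ Y i, c (f g) ∈ T) ∧
      (∀ k, nH ≤ k → k < N → Z (W k) (R k) L) ∧
      (∀ i < nH, Z (X ∩ {g | idx (f g) = i}) (R i) L) ∧
      ∀ g, c (f g) ∈ T → (∃ i < j, g ∈ Y i) ∨ (∃ k, nH ≤ k ∧ k < N ∧ g ∈ W k) ∨ g ∈ X := by
    intro T hT
    induction T, hT using Set.Finite.induction_on with
    | empty =>
      refine ⟨nH, le_rfl, ∅, Set.finite_empty, fun _ => ∅, fun _ => ∅, ∅, ?_, ?_, ?_, ?_, ?_⟩
      · intro i _ x y hx; exact absurd hx (by simp)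
      · intro i g hg; exact absurd hg (by simp)
      · intro k _ _ x y hx; exact absurd hx (by simp)
      · intro k _ x y hx; exact absurd hx (by simp)
      · intro g hg; exact absurd hg (by simp)
    | @insert m T hm _ ih =>
      obtain ⟨N, hN, L, hL, Y, W, X, hY, hYT, hW, hX, hc⟩ := ih
      let S : Set G := insert 1 (L ∪ ⋃ i ∈ Set.Iio nH, (R i ∪ (R i)⁻¹))
      have hS : S.Finite := by
        refine Set.Finite.insert _ (hL.union ((Set.finite_Iio nH).biUnion ?_))
        intro i _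
        exact (hR i).union (hR i).inv
      obtain ⟨n', L', hL', Y', W', hY', hW', hc'⟩ := h ((S * S * S) ∩ f.ker)
        (((hS.mul hS).mul hS).inter_of_left _) Set.inter_subset_right (fun k => R (N + k))
        (fun k => hR _)
      let D : Set G := {g | c (f g) = m}
      refine ⟨N + n', by omega, (L ∪ L') ∪ (S * S) * L' * (S * S),
        (hL.union hL').union (((hS.mul hS).mul hL').mul (hS.mul hS)),
        fun i => Y i ∪ (Y' i ∩ D), fun k => if k < N then W k else W' (k - N),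
        X ∪ (Y' j ∩ D), ?_, ?_, ?_, ?_, ?_⟩
      · intro i hi
        have h1 := hY' i (by omega)
        rw [Function.update_of_ne (by omega)] at h1
        refine Z.union_sep ((hY i hi).mono subset_rfl subset_rfl (fun _ h => Or.inl (Or.inl h)))
          (h1.mono Set.inter_subset_left subset_rfl (fun _ h => Or.inl (Or.inr h))) ?_
        intro a ha b hb
        have hne : f a ≠ f b := by
          intro he
          have h2 := hYT i a ha
          rw [he, show c (f b) = m from hb.2] at h2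
          exact hm h2
        constructor
        · intro hh
          have := hσ i hh
          rw [SetLike.mem_coe, MonoidHom.mem_ker, map_mul, map_inv, inv_mul_eq_one] at this
          exact hne this
        · intro hh
          have := hσ i hh
          rw [SetLike.mem_coe, MonoidHom.mem_ker, map_mul, map_inv, inv_mul_eq_one] at this
          exact hne this.symm
      · rintro i g (hg | hg)
        · exact Or.inr (hYT i g hg)
        · exact Or.inl hg.2
      · intro k hk hk'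
        by_cases hkN : k < N
        · simp only [if_pos hkN]
          exact (hW k hk hkN).mono subset_rfl subset_rfl (fun _ h => Or.inl (Or.inl h))
        · simp only [if_neg hkN]
          have := hW' (k - N) (by omega)
          rw [show N + (k - N) = k by omega] at this
          exact this.mono subset_rfl subset_rfl (fun _ h => Or.inl (Or.inr h))
      · intro i hi
        have h1 := hY' j (by omega)
        rw [Function.update_self] at h1
        have h2 : Z ((Y' j ∩ D) ∩ {g | idx (f g) = i}) ((S * S * S) ∩ f.ker) L' :=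
          h1.mono (fun _ h => h.1.1) subset_rfl subset_rfl
        have h3 := Z.union_hier (S := S) (hX i hi) h2 (Set.mem_insert _ _)
          (fun a ha => Or.inr (Or.inr (Set.mem_biUnion (show i ∈ Set.Iio nH from hi) (Or.inl ha))))
          (fun a ha => Or.inr (Or.inr (Set.mem_biUnion (show i ∈ Set.Iio nH from hi) (Or.inr ha))))
          (fun a ha => Or.inr (Or.inl ha)) ?_
        · rw [Set.union_inter_distrib_right]
          refine h3.mono subset_rfl subset_rfl ?_
          rintro a (ha | ha)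
          · exact Or.inl (Or.inl ha)
          · exact Or.inr ha
        · intro p hp q hq hpq hs
          refine ⟨hs, ?_⟩
          have h4 : f p = f q := by
            refine hinj i _ _ hp.2 (Ch.map f ?_ hpq) (hp.1.2.trans hq.1.2.symm)
            rintro a b ⟨ha, hb, hab⟩
            refine ⟨?_, ?_, hab.imp (fun h => ⟨_, h, by simp⟩) (fun h => ⟨_, h, by simp⟩)⟩
            · rcases ha with ha | ha <;> exact ha.2
            · rcases hb with hb | hb <;> exact hb.2
          rw [SetLike.mem_coe, MonoidHom.mem_ker, map_mul, map_inv, h4, inv_mul_cancel]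
      · rintro g (hg | hg)
        · rcases hc' g with ⟨i, hi, hgi⟩ | ⟨k, hk, hgk⟩
          · by_cases hij : i = j
            · subst hij
              exact Or.inr (Or.inr (Or.inr ⟨hgi, hg⟩))
            · exact Or.inl ⟨i, by omega, Or.inr ⟨hgi, hg⟩⟩
          · refine Or.inr (Or.inl ⟨N + k, by omega, by omega, ?_⟩)
            simp only [show ¬ (N + k < N) by omega, if_false, Nat.add_sub_cancel_left]
            exact hgk
        · rcases hc g hg with ⟨i, hi, hgi⟩ | ⟨k, hk, hk', hgk⟩ | hgX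
          · exact Or.inl ⟨i, hi, Or.inl hgi⟩
          · refine Or.inr (Or.inl ⟨k, hk, by omega, ?_⟩)
            simp only [if_pos hk']
            exact hgk
          · exact Or.inr (Or.inr (Or.inl hgX))
  obtain ⟨N, hN, L, hL, Y, W, X, hY, -, hW, hX, hc⟩ := main M hM
  refine ⟨N, L, hL, Y, fun k => if k < nH then X ∩ {g | idx (f g) = k} else W k, hY, ?_, ?_⟩
  · intro k hk
    by_cases hk' : k < nH
    · simp only [if_pos hk']; exact hX k hk'
    · simp only [if_neg hk']; exact hW k (by omega) hk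
  · intro g
    rcases hc g (hcM _) with h1 | ⟨k, hk, hk', hg⟩ | hg
    · exact Or.inl h1
    · refine Or.inr ⟨k, hk', ?_⟩
      simp only [show ¬ k < nH by omega, if_false]; exact hg
    · refine Or.inr ⟨idx (f g), lt_of_lt_of_le (hidx _) hN, ?_⟩
      simp only [if_pos (hidx (f g))]
      exact ⟨hg, rfl⟩

theorem ext (f : G →* H) (hH : APC H) (hK : APC f.ker) : APC G := by
  classical
  by_contra hG
  have h0 : ¬ CC 0 (fun _ => (∅ : Set G)) := by
    intro h
    apply hG
    intro s hs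
    obtain ⟨n, L, hL, Y, W, -, hW, hc⟩ := h s hs
    refine ⟨n, L, hL, W, hW, fun x => (hc x).resolve_left ?_⟩
    rintro ⟨i, hi, -⟩
    omega
  have st : ∀ (j : ℕ) (σ : ℕ → Set G), (∀ i, σ i ⊆ f.ker) → ¬ CC j σ →
      ∃ ρ : Set G, ρ.Finite ∧ ρ ⊆ f.ker ∧ ¬ CC (j + 1) (Function.update σ j ρ) := by
    intro j σ hσ hn
    by_contra hc
    push Not at hc
    exact hn (step f hH j σ hσ hc)
  choose! nxt hfin hsub hnc using st
  let seq : ℕ → ℕ → Set G := fun j =>
    Nat.rec (fun _ => ∅) (fun j σ => Function.update σ j (nxt j σ)) j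
  have hsucc : ∀ j, seq (j + 1) = Function.update (seq j) j (nxt j (seq j)) := fun j => rfl
  have hseq : ∀ j, (∀ i, seq j i ⊆ f.ker) ∧ (∀ i, (seq j i).Finite) ∧ ¬ CC j (seq j) := by
    intro j
    induction j with
    | zero => exact ⟨fun i => Set.empty_subset _, fun i => Set.finite_empty, h0⟩
    | succ j ih =>
      rw [hsucc]
      refine ⟨fun i => ?_, fun i => ?_, hnc j _ ih.1 ih.2.2⟩
      · by_cases hi : i = j
        · subst hi; rw [Function.update_self]; exact hsub _ _ ih.1 ih.2.2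
        · rw [Function.update_of_ne hi]; exact ih.1 i
      · by_cases hi : i = j
        · subst hi; rw [Function.update_self]; exact hfin _ _ ih.1 ih.2.2
        · rw [Function.update_of_ne hi]; exact ih.2.1 i
  have stab : ∀ j, ∀ i < j, seq j i = seq (i + 1) i := by
    intro j
    induction j with
    | zero => intro i hi; omega
    | succ j ih =>
      intro i hi
      by_cases hij : i = j
      · rw [hij]
      · rw [hsucc j, Function.update_of_ne hij]; exact ih i (by omega)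
  obtain ⟨n, hn⟩ := hK (fun i => f.ker.subtype ⁻¹' seq (i + 1) i)
    (fun i => ((hseq (i + 1)).2.1 i).preimage f.ker.subtype_injective.injOn)
  obtain ⟨L, hL, Y, hY, hc⟩ := hn.push f.ker.subtype f.ker.subtype_injective
  refine (hseq n).2.2 (fun R _ => ⟨0, L, hL, Y, fun _ => ∅, ?_, fun k hk => by omega,
    fun x => Or.inl (hc x)⟩)
  intro i hi
  refine (hY i hi).mono subset_rfl ?_ subset_rfl
  intro a ha
  rw [stab n i hi] at ha
  exact ⟨⟨a, (hseq (i + 1)).1 i ha⟩, ha, rfl⟩

end Pool.Agent.Lib.helper22.APC
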