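import Pool.Agent.Lib.helper22.APC

set_option autoImplicit false

namespace Pool.Agent.Lib.helper22.APC

open scoped Pointwise

variable {G H : Type*} [Group G] [Group H]

def Fam (n : ℕ) (s : ℕ → Set G) : Prop :=
  ∃ U : ℕ → Set (Set G), ∃ L : Set G, L.Finite ∧
    (∀ i < n, ∀ V ∈ U i, ∀ x ∈ V, ∀ y ∈ V, x⁻¹ * y ∈ L) ∧
    (∀ i < n, ∀ V ∈ U i, ∀ W ∈ U i, V ≠ W → ∀ x ∈ V, ∀ y ∈ W, x⁻¹ * y ∉ s i) ∧
    ∀ x, ∃ i < n, ∃ V ∈ U i, x ∈ V

theorem Fam.cov {n : ℕ} {s : ℕ → Set G} (h : Fam n s) : Cov n s := by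
  obtain ⟨U, L, hL, hb, hd, hc⟩ := h
  refine ⟨L, hL, fun i => ⋃₀ U i, ?_, fun x => ?_⟩
  · rintro i hi x y ⟨V, hV, hx⟩ hxy
    refine hb i hi V hV x hx y ?_
    induction hxy with
    | refl => exact hx
    | @tail b c _ h2 ih =>
      obtain ⟨W, hW, hc⟩ := h2.2.1
      by_cases hVW : V = W
      · rw [hVW]; exact hc
      · rcases h2.2.2 with h3 | h3
        · exact absurd h3 (hd i hi V hV W hW hVW b ih c hc)
        · exact absurd h3 (hd i hi W hW V hV (Ne.symm hVW) c hc b ih)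
  · obtain ⟨i, hi, V, hV, hx⟩ := hc x
    exact ⟨i, hi, V, hV, hx⟩

theorem Cov.fam {n : ℕ} {s : ℕ → Set G} (h : Cov n s) : Fam n s := by
  obtain ⟨L, hL, Y, hY, hc⟩ := h
  refine ⟨fun i => {V | ∃ x ∈ Y i, V = {y | Ch (s i) (Y i) x y}}, L, hL, ?_, ?_, ?_⟩
  · rintro i hi V ⟨a, ha, rfl⟩ x hx y hy
    exact hY i hi x y (Ch.mem hx ha) (Ch.trans (Ch.symm hx) hy)
  · rintro i hi V ⟨a, ha, rfl⟩ W ⟨b, hb, rfl⟩ hne x hx y hy hs
    apply hne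
    have hab : Ch (s i) (Y i) a b :=
      Ch.trans (Ch.tail hx ⟨Ch.mem hx ha, Ch.mem hy hb, Or.inl hs⟩) (Ch.symm hy)
    ext z
    exact ⟨fun h => hab.symm.trans h, fun h => hab.trans h⟩
  · intro x
    obtain ⟨i, hi, hx⟩ := hc x
    exact ⟨i, hi, _, ⟨x, hx, rfl⟩, Ch.refl _ _ _⟩

theorem bound_of_finite {α : Type*} (g : α → ℝ) {s : Set α} (hs : s.Finite) :
    ∃ r : ℝ, 0 < r ∧ ∀ x ∈ s, g x ≤ r := by
  obtain ⟨b, hb⟩ := (hs.image g).bddAbove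
  exact ⟨max b 1, by positivity, fun x hx => (hb ⟨x, hx, rfl⟩).trans (le_max_left _ _)⟩

theorem apc_of_metric (d : G → G → ℝ) (hinv : ∀ g x y, d (g * x) (g * y) = d x y)
    (hp : ∀ r : ℝ, Set.Finite {x : G | d 1 x ≤ r})
    (h : ∀ R : ℕ → ℝ, (∀ i, 0 < R i) → ∃ n : ℕ, ∃ U : ℕ → Set (Set G),
      (∀ i < n, ∃ B : ℝ, ∀ V ∈ U i, ∀ x ∈ V, ∀ y ∈ V, d x y ≤ B) ∧
      (∀ i < n, ∀ V ∈ U i, ∀ W ∈ U i, V ≠ W → ∀ x ∈ V, ∀ y ∈ W, R i < d x y) ∧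
      (∀ x : G, ∃ i < n, ∃ V ∈ U i, x ∈ V)) : APC G := by
  have hd : ∀ x y, d 1 (x⁻¹ * y) = d x y := fun x y => by
    rw [← hinv x 1 (x⁻¹ * y)]; simp
  intro s hs
  choose R hR0 hR using fun i => bound_of_finite (d 1) (hs i)
  obtain ⟨n, U, hb, hdis, hc⟩ := h R hR0
  choose! B hB using hb
  obtain ⟨b, -, hbb⟩ := bound_of_finite B (Set.finite_Iio n)
  refine ⟨n, Fam.cov ⟨U, _, hp b, ?_, ?_, hc⟩⟩
  · intro i hi V hV x hx y hy
    show d 1 _ ≤ b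
    rw [hd]
    exact (hB i hi V hV x hx y hy).trans (hbb i hi)
  · intro i hi V hV W hW hne x hx y hy hxy
    have h1 := hR i _ hxy
    rw [hd] at h1
    exact absurd (hdis i hi V hV W hW hne x hx y hy) (not_lt.2 h1)

theorem metric_of_apc (d : G → G → ℝ) (hinv : ∀ g x y, d (g * x) (g * y) = d x y)
    (hp : ∀ r : ℝ, Set.Finite {x : G | d 1 x ≤ r}) (h : APC G) (R : ℕ → ℝ) :
    ∃ n : ℕ, ∃ U : ℕ → Set (Set G), ∃ B : ℝ,
      (∀ i < n, ∀ V ∈ U i, ∀ x ∈ V, ∀ y ∈ V, d x y ≤ B) ∧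
      (∀ i < n, ∀ V ∈ U i, ∀ W ∈ U i, V ≠ W → ∀ x ∈ V, ∀ y ∈ W, R i < d x y) ∧
      (∀ x : G, ∃ i < n, ∃ V ∈ U i, x ∈ V) := by
  have hd : ∀ x y, d 1 (x⁻¹ * y) = d x y := fun x y => by
    rw [← hinv x 1 (x⁻¹ * y)]; simp
  obtain ⟨n, hn⟩ := h (fun i => {x | d 1 x ≤ R i}) (fun i => hp _)
  obtain ⟨U, L, hL, hb, hdis, hc⟩ := hn.fam
  obtain ⟨b, -, hbb⟩ := bound_of_finite (d 1) hL
  refine ⟨n, U, b, ?_, ?_, hc⟩
  · intro i hi V hV x hx y hy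
    rw [← hd]
    exact hbb _ (hb i hi V hV x hx y hy)
  · intro i hi V hV W hW hne x hx y hy
    have := hdis i hi V hV W hW hne x hx y hy
    rw [← hd]
    exact not_le.1 this

theorem APC.ext' {K : Type*} [Group K] (i : K →* G) (f : G →* H) (hi : Function.Injective i)
    (he : f.ker ≤ i.range) (hK : APC K) (hH : APC H) : APC G := by
  refine ext f hH ?_
  have h1 : APC i.range := hK.of_injective (MonoidHom.ofInjective hi).symm.toMonoidHom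
    (MonoidHom.ofInjective hi).symm.injective
  exact h1.of_injective (Subgroup.inclusion he) (Subgroup.inclusion_injective he)

theorem APC.semidirect {N : Type*} [Group N] (φ : H →* MulAut N) (hN : APC N) (hH : APC H) :
    APC (N ⋊[φ] H) :=
  APC.ext' SemidirectProduct.inl SemidirectProduct.rightHom SemidirectProduct.inl_injective
    (SemidirectProduct.range_inl_eq_ker_rightHom (φ := φ)).ge hN hH

theorem APC.prod (hG : APC G) (hH : APC H) : APC (G × H) :=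
  APC.ext' (MonoidHom.inl G H) (MonoidHom.snd G H) (fun a b h => congrArg Prod.fst h)
    (fun x hx => ⟨x.1, Prod.ext rfl (Eq.symm hx)⟩) hG hH

theorem apc_of_subsingleton [Subsingleton G] : APC G := by
  intro s _
  exact ⟨1, Set.univ, Set.toFinite _, fun _ => Set.univ, fun _ _ _ _ _ _ => trivial,
    fun x => ⟨0, by omega, trivial⟩⟩

end Pool.Agent.Lib.helper22.APC
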