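import Pool.Agent.Lib.helper22.APC2

set_option autoImplicit false

namespace Pool.Agent.Lib.helper22.APC

open FreeGroup

variable {α : Type*} [DecidableEq α]

theorem one_letter (l : α × Bool) (x : FreeGroup α) :
    toWord (mk [l] * x) = l :: toWord x ∨ ∃ l', toWord x = l' :: toWord (mk [l] * x) := by
  have h : mk [l] * x = mk (l :: toWord x) := by
    conv_lhs => rw [← mk_toWord (x := x), mul_mk]
    rfl
  rw [h, toWord_mk, reduce.cons, reduce_toWord]
  cases toWord x with
  | nil => exact Or.inl rfl
  | cons hd tl =>
    by_cases hc : l.1 = hd.1 ∧ l.2 = !hd.2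
    · right
      exact ⟨hd, by simp only [if_pos hc]⟩
    · left
      simp only [if_neg hc]

theorem take_keep (u : List (α × Bool)) (x : FreeGroup α) (m : ℕ) (h : m + u.length ≤ norm x) :
    (toWord (mk u * x)).reverse.take m = (toWord x).reverse.take m := by
  induction u with
  | nil =>
    have : mk ([] : List (α × Bool)) = 1 := rfl
    rw [this, one_mul]
  | cons l u ih =>
    simp only [List.length_cons] at h
    have h1 : mk (l :: u) * x = mk [l] * (mk u * x) := by
      rw [← mul_assoc, mul_mk]; rfl
    have h2 : norm x ≤ u.length + norm (mk u * x) := by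
      have h3 := norm_mul_le (mk u)⁻¹ (mk u * x)
      rw [inv_mul_cancel_left, norm_inv_eq] at h3
      have h4 : norm (mk u) ≤ u.length := norm_mk_le
      omega
    rw [h1, ← ih (by omega)]
    have h5 : norm (mk u * x) = (toWord (mk u * x)).length := rfl
    rcases one_letter l (mk u * x) with h3 | ⟨l', h3⟩
    · rw [h3, List.reverse_cons, List.take_append_of_le_length (by simp; omega)]
    · rw [h3] at h5
      rw [h3, List.reverse_cons, List.take_append_of_le_length (by simp at h5 ⊢; omega)]

theorem norm_of_take (x y : FreeGroup α) (m : ℕ)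
    (h : (toWord x).reverse.take m = (toWord y).reverse.take m) :
    norm (x * y⁻¹) ≤ (norm x - m) + (norm y - m) := by
  have hx : x = mk (((toWord x).reverse.drop m).reverse) * mk (((toWord x).reverse.take m).reverse) := by
    rw [mul_mk, ← List.reverse_append, List.take_append_drop, List.reverse_reverse, mk_toWord]
  have hy : y = mk (((toWord y).reverse.drop m).reverse) * mk (((toWord y).reverse.take m).reverse) := by
    rw [mul_mk, ← List.reverse_append, List.take_append_drop, List.reverse_reverse, mk_toWord]
  have he : x * y⁻¹ = mk (((toWord x).reverse.drop m).reverse) *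
      (mk (((toWord y).reverse.drop m).reverse))⁻¹ := by
    conv_lhs => rw [hx, hy, h]
    group
  rw [he]
  refine (FreeGroup.norm_mul_le _ _).trans ?_
  rw [norm_inv_eq]
  have h1 : norm (mk (((toWord x).reverse.drop m).reverse)) ≤ norm x - m :=
    norm_mk_le.trans (by simp [FreeGroup.norm])
  have h2 : norm (mk (((toWord y).reverse.drop m).reverse)) ≤ norm y - m :=
    norm_mk_le.trans (by simp [FreeGroup.norm])
  omega

theorem fin_lists {β : Type*} (P : Set β) (hP : P.Finite) (N : ℕ) :
    {L : List β | L.length ≤ N ∧ ∀ l ∈ L, l ∈ P}.Finite := by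
  have := hP.to_subtype
  refine ((List.finite_length_le P N).image (List.map Subtype.val)).subset ?_
  rintro L ⟨h1, h2⟩
  exact ⟨L.attachWith (· ∈ P) h2, by simpa using h1, by simp⟩

theorem apc_free (α : Type*) : APC (FreeGroup α) := by
  classical
  intro s hs
  let F : Set (FreeGroup α) := s 0 ∪ s 1
  have hF : F.Finite := (hs 0).union (hs 1)
  obtain ⟨r, hr⟩ := (hF.image FreeGroup.norm).bddAbove
  have hr' : ∀ w ∈ F, norm w ≤ r := fun w hw => hr ⟨w, hw, rfl⟩
  let P : Set α := ⋃ w ∈ F, Prod.fst '' {l | l ∈ toWord w}
  have hP : P.Finite := hF.biUnion (fun w _ => (List.finite_toSet _).image _)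
  let Q : FreeGroup α → Prop := fun w => ∀ l ∈ toWord w, l.1 ∈ P
  have hQF : ∀ w ∈ F, Q w := fun w hw l hl => Set.mem_biUnion hw ⟨l, hl, rfl⟩
  have hQinv : ∀ w, Q w → Q w⁻¹ := by
    intro w hw l hl
    rw [toWord_inv, invRev, List.mem_reverse, List.mem_map] at hl
    obtain ⟨l', hl', rfl⟩ := hl
    exact hw l' hl'
  have hQmul : ∀ v w, Q v → Q w → Q (v * w) := by
    intro v w hv hw l hl
    rcases List.mem_append.1 ((toWord_mul_sublist v w).subset hl) with h | h
    · exact hv l h
    · exact hw l h
  refine ⟨2, {w | norm w ≤ 4 * r + 2 ∧ Q w}, ?_, fun e => {x | (norm x / (r + 1)) % 2 = e}, ?_, ?_⟩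
  · refine ((fin_lists (P ×ˢ (Set.univ : Set Bool)) (hP.prod Set.finite_univ) (4 * r + 2)).preimage
      (f := toWord) toWord_injective.injOn).subset ?_
    rintro w ⟨h1, h2⟩
    exact ⟨h1, fun l hl => ⟨h2 l hl, trivial⟩⟩
  · intro e he x y hx hxy
    have hsF : s e ⊆ F := by
      interval_cases e
      · exact Set.subset_union_left
      · exact Set.subset_union_right
    have key : norm y / (r + 1) = norm x / (r + 1) ∧ Q (x⁻¹ * y) ∧
        (toWord y⁻¹).reverse.take (norm x / (r + 1) * (r + 1) - r) =
        (toWord x⁻¹).reverse.take (norm x / (r + 1) * (r + 1) - r) := by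
      induction hxy with
      | refl => exact ⟨rfl, fun l hl => by simp at hl, rfl⟩
      | @tail a b _ h2 ih =>
        obtain ⟨ha, hb, hab⟩ := h2
        have hn : norm (b⁻¹ * a) ≤ r ∧ Q (a⁻¹ * b) := by
          rcases hab with h | h
          · refine ⟨?_, hQF _ (hsF h)⟩
            rw [← norm_inv_eq]
            simpa using hr' _ (hsF h)
          · refine ⟨hr' _ (hsF h), ?_⟩
            simpa using hQinv _ (hQF _ (hsF h))
        have h1 : norm a ≤ norm b + (r + 1) := by
          have := norm_mul_le b (b⁻¹ * a)
          rw [mul_inv_cancel_left] at this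
          omega
        have h2 : norm b ≤ norm a + (r + 1) := by
          have := norm_mul_le a (b⁻¹ * a)⁻¹
          rw [norm_inv_eq, show a * (b⁻¹ * a)⁻¹ = b by group] at this
          omega
        have h3 := Nat.div_le_div_right (c := r + 1) h1
        have h4 := Nat.div_le_div_right (c := r + 1) h2
        rw [Nat.add_div_right _ (by omega)] at h3 h4
        have ha' : norm a / (r + 1) % 2 = e := ha
        have hb' : norm b / (r + 1) % 2 = e := hb
        refine ⟨by omega, ?_, ?_⟩
        · have := hQmul _ _ ih.2.1 hn.2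
          rwa [show x⁻¹ * a * (a⁻¹ * b) = x⁻¹ * b by group] at this
        · rw [← ih.2.2]
          by_cases hm : norm x / (r + 1) * (r + 1) - r = 0
          · rw [hm]; simp
          · have h5 : b⁻¹ = mk (toWord (b⁻¹ * a)) * a⁻¹ := by rw [mk_toWord]; group
            rw [h5]
            apply take_keep
            have h6 : norm (b⁻¹ * a) = (toWord (b⁻¹ * a)).length := rfl
            have h7 := Nat.div_mul_le_self (norm a) (r + 1)
            rw [ih.1] at h7
            rw [norm_inv_eq]
            omega
    refine ⟨?_, key.2.1⟩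
    have h1 := norm_of_take _ _ _ key.2.2.symm
    rw [inv_inv, norm_inv_eq, norm_inv_eq] at h1
    have h2 := Nat.lt_div_mul_add (a := norm x) (b := r + 1) (by omega)
    have h3 := Nat.lt_div_mul_add (a := norm y) (b := r + 1) (by omega)
    rw [key.1] at h3
    omega
  · intro x
    exact ⟨_, Nat.mod_lt _ (by omega), rfl⟩

end Pool.Agent.Lib.helper22.APC
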