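import Pool.Agent.Lib.helper22.APC3

set_option autoImplicit false

namespace Pool.Agent.Lib.helper22.APC

open SemidirectProduct

section model

variable {H B : Type} [Group H] [Group B] (A : Subgroup H)

abbrev YY (H B : Type) [Group H] [Group B] : Type := (B →* H) × {b : B // b ≠ 1}

open Classical in
noncomputable def yy (h : B →* H) (b : B) : FreeGroup (YY H B) :=
  if hb : b = 1 then 1 else FreeGroup.of (h, ⟨b, hb⟩)

def cj (a : A) (h : B →* H) : B →* H := (MulAut.conj (a : H)).toMonoidHom.comp h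

theorem cj_apply (a : A) (h : B →* H) (b : B) : cj A a h b = a * h b * (a : H)⁻¹ := rfl

theorem cj_one (h : B →* H) : cj A 1 h = h := by ext b; simp [cj_apply]

theorem cj_mul (a a' : A) (h : B →* H) : cj A (a * a') h = cj A a (cj A a' h) := by
  ext b; simp [cj_apply, mul_assoc]

theorem yy_one (h : B →* H) : yy h 1 = 1 := by simp [yy]

theorem yy_of (p : YY H B) : yy p.1 p.2.1 = FreeGroup.of p := by simp [yy, p.2.2]

noncomputable def EE (q : A × B) : FreeGroup (YY H B) →* FreeGroup (YY H B) :=
  FreeGroup.lift fun p => (yy (cj A q.1 p.1) q.2)⁻¹ * yy (cj A q.1 p.1) (q.2 * p.2.1)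

theorem EE_yy (q : A × B) (h : B →* H) (b : B) :
    EE A q (yy h b) = (yy (cj A q.1 h) q.2)⁻¹ * yy (cj A q.1 h) (q.2 * b) := by
  by_cases hb : b = 1
  · subst hb; simp [yy_one]
  · have := yy_of ((h, ⟨b, hb⟩) : YY H B)
    simp only at this
    rw [this, EE, FreeGroup.lift_apply_of]

theorem EE_one : EE A (1 : A × B) = MonoidHom.id _ := by
  ext p
  rw [← yy_of, EE_yy]
  simp [cj_one, yy_one]

theorem EE_mul (q q' : A × B) : EE A (q * q') = (EE A q).comp (EE A q') := by
  ext p
  rw [← yy_of, MonoidHom.comp_apply, EE_yy, EE_yy, map_mul, map_inv, EE_yy, EE_yy]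
  simp [cj_mul, mul_assoc]

noncomputable def act : A × B →* MulAut (FreeGroup (YY H B)) where
  toFun q := MonoidHom.toMulEquiv (EE A q) (EE A q⁻¹)
    (by rw [← EE_mul, inv_mul_cancel, EE_one]) (by rw [← EE_mul, mul_inv_cancel, EE_one])
  map_one' := by
    ext x
    simp [EE_one]
  map_mul' q q' := by
    ext x
    simp [EE_mul]

theorem act_apply (q : A × B) (x : FreeGroup (YY H B)) : act A q x = EE A q x := rfl

abbrev Mod (B : Type) [Group B] : Type := FreeGroup (YY H B) ⋊[act A] (A × B)

noncomputable def ev : FreeGroup (YY H B) →* H := FreeGroup.lift fun p => p.1 p.2.1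

theorem ev_yy (h : B →* H) (b : B) : ev (yy h b) = h b := by
  by_cases hb : b = 1
  · subst hb; simp [yy_one]
  · have := yy_of ((h, ⟨b, hb⟩) : YY H B)
    simp only at this
    rw [this, ev, FreeGroup.lift_apply_of]

noncomputable def psi : Mod A B →* H :=
  SemidirectProduct.lift ev (A.subtype.comp (MonoidHom.fst A B)) (by
    intro q
    ext p
    rw [← yy_of]
    simp only [MonoidHom.comp_apply, MulEquiv.toMonoidHom_eq_coe, MonoidHom.coe_coe, act_apply,
      EE_yy, map_mul, map_inv, ev_yy, cj_apply, MulAut.conj_apply]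
    simp [mul_assoc])

noncomputable def phiB (h : B →* H) : B →* Mod A B where
  toFun b := ⟨yy h b, (1, b)⟩
  map_one' := by ext <;> simp [yy_one]
  map_mul' b b' := by
    ext <;> simp [act_apply, EE_yy, cj_one]

noncomputable def phiA : A →* Mod A B := SemidirectProduct.inr.comp (MonoidHom.inl A B)

theorem psi_phiB (h : B →* H) (b : B) : psi A (phiB A h b) = h b := by
  simp [psi, phiB, SemidirectProduct.lift, ev_yy]

theorem psi_phiA (a : A) : psi A (phiA (B := B) A a) = a := by
  simp [psi, phiA]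

theorem comm_AB (h : B →* H) (a : A) (ha : ∀ b, Commute (a : H) (h b)) (b : B) :
    Commute (phiA A a) (phiB A h b) := by
  have h1 : cj A a h = h := by
    ext b
    rw [cj_apply, (ha b).eq]; simp
  show _ * _ = _ * _
  ext <;> simp [phiA, phiB, act_apply, EE_yy, h1, yy_one]

theorem apc_mod (hA : APC A) (hB : APC B) : APC (Mod A B) :=
  APC.semidirect _ (apc_free _) (hA.prod hB)

end model

theorem graphProd (V : Type) [Fintype V] (Γ : SimpleGraph V) (G : V → Type) [∀ v, Group (G v)]
    (H : Type) [Group H] (ι : ∀ v, G v →* H)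
    (hc : ∀ v w, Γ.Adj v w → ∀ (g : G v) (h : G w), Commute (ι v g) (ι w h))
    (hu : ∀ (K : Type) [Group K] (φ : ∀ v, G v →* K),
        (∀ v w, Γ.Adj v w → ∀ (g : G v) (h : G w), Commute (φ v g) (φ w h)) →
        ∃! f : H →* K, ∀ v, f.comp (ι v) = φ v)
    (hG : ∀ v, APC (G v)) : APC H := by
  classical
  let AA : Finset V → Subgroup H := fun S => Subgroup.closure {x | ∃ w ∈ S, ∃ g, ι w g = x}
  have hmem : ∀ S : Finset V, ∀ w ∈ S, ∀ g, ι w g ∈ AA S :=
    fun S w hw g => Subgroup.subset_closure ⟨w, hw, g, rfl⟩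
  have main : ∀ S : Finset V, APC (AA S) := by
    intro S
    induction S using Finset.induction_on with
    | empty =>
      have : AA ∅ = ⊥ := by simp [AA]
      rw [this]
      exact apc_of_subsingleton
    | insert v S hv ih =>
      let φ0 : ∀ w, G w →* Mod (AA S) (G v) := fun w =>
        if hw : w ∈ S then (phiA (AA S)).comp ((ι w).codRestrict (AA S) (hmem S w hw)) else 1
      let φ : ∀ w, G w →* Mod (AA S) (G v) := Function.update φ0 v (phiB (AA S) (ι v))
      have hφv : φ v = phiB (AA S) (ι v) := Function.update_self _ _ _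
      have hφS : ∀ w (hw : w ∈ S), φ w =
          (phiA (AA S)).comp ((ι w).codRestrict (AA S) (hmem S w hw)) := by
        intro w hw
        have : w ≠ v := fun h => hv (h ▸ hw)
        simp only [φ, Function.update_of_ne this, φ0, dif_pos hw]
      have hφn : ∀ w, w ≠ v → w ∉ S → φ w = 1 := by
        intro w h1 h2
        simp only [φ, Function.update_of_ne h1, φ0, dif_neg h2]
      have hvS : ∀ w ∈ S, Γ.Adj w v → ∀ (g : G w) (h : G v), Commute (φ w g) (φ v h) := by
        intro w hw hadj g h
        rw [hφS w hw, hφv]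
        exact comm_AB _ _ _ (fun b => hc w v hadj g b) h
      obtain ⟨f, hf, -⟩ := hu _ φ (by
        intro a b hab g h
        by_cases ha : a = v
        · subst ha
          by_cases hb : b ∈ S
          · exact (hvS b hb hab.symm h g).symm
          · rw [hφn b hab.ne.symm hb]; exact Commute.one_right _
        · by_cases haS : a ∈ S
          · by_cases hb : b = v
            · subst hb; exact hvS a haS hab g h
            · by_cases hbS : b ∈ S
              · rw [hφS a haS, hφS b hbS]
                refine Commute.map ?_ (phiA (AA S))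
                exact Subtype.ext (hc a b hab g h).eq
              · rw [hφn b hb hbS]; exact Commute.one_right _
          · rw [hφn a ha haS]; exact Commute.one_left _)
      have hid : ∀ x ∈ AA (insert v S), psi (AA S) (f x) = x := by
        intro x hx
        refine MonoidHom.eqOn_closure (f := (psi (AA S)).comp f) (g := MonoidHom.id H) ?_ hx
        rintro _ ⟨w, hw, g, rfl⟩
        have h1 : f (ι w g) = φ w g := DFunLike.congr_fun (hf w) g
        show psi (AA S) (f (ι w g)) = ι w g
        rw [h1]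
        rcases Finset.mem_insert.1 hw with rfl | hw
        · rw [hφv, psi_phiB]
        · rw [hφS w hw, MonoidHom.comp_apply, psi_phiA]; rfl
      refine (apc_mod (AA S) ih (hG v)).of_injective (f.comp (AA (insert v S)).subtype) ?_
      intro x y hxy
      apply Subtype.ext
      rw [← hid x x.2, ← hid y y.2]
      exact congrArg _ hxy
  obtain ⟨f, hf, -⟩ := hu (AA Finset.univ)
    (fun w => (ι w).codRestrict _ (hmem _ w (Finset.mem_univ w)))
    (fun a b hab g h => Subtype.ext (hc a b hab g h).eq)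
  obtain ⟨g, -, hg⟩ := hu H ι hc
  have h1 : (AA Finset.univ).subtype.comp f = MonoidHom.id H :=
    (hg ((AA Finset.univ).subtype.comp f) (fun v => by rw [MonoidHom.comp_assoc, hf v]; rfl)).trans
      (hg (MonoidHom.id H) (fun v => rfl)).symm
  refine (main Finset.univ).of_injective f (fun x y hxy => ?_)
  have h2 := congrArg (AA Finset.univ).subtype hxy
  exact (DFunLike.congr_fun h1 x).symm.trans (h2.trans (DFunLike.congr_fun h1 y))

theorem apc_iff_finset (G : Type) [Group G] : APC G ↔
    ∀ F : ℕ → Finset G, ∃ n : ℕ, ∃ 𝒰 : Fin n → Set (Set G), ∃ L : Finset G,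
      (∀ i, ∀ U ∈ 𝒰 i, ∀ x ∈ U, ∀ y ∈ U, x⁻¹ * y ∈ L) ∧
      (∀ i : Fin n, ∀ U ∈ 𝒰 i, ∀ U' ∈ 𝒰 i, U ≠ U' → ∀ x ∈ U, ∀ y ∈ U', x⁻¹ * y ∉ F i.val) ∧
      (∀ x : G, ∃ i, ∃ U ∈ 𝒰 i, x ∈ U) := by
  constructor
  · intro h F
    obtain ⟨n, hn⟩ := h (fun i => (F i : Set G)) (fun i => (F i).finite_toSet)
    obtain ⟨U, L, hL, hb, hd, hc⟩ := hn.fam
    refine ⟨n, fun i => U i, hL.toFinset, fun i V hV x hx y hy => ?_,
      fun i => hd i i.2, fun x => ?_⟩
    · exact hL.mem_toFinset.2 (hb i i.2 V hV x hx y hy)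
    · obtain ⟨i, hi, h⟩ := hc x
      exact ⟨⟨i, hi⟩, h⟩
  · intro h s hs
    obtain ⟨n, U, L, hb, hd, hc⟩ := h (fun i => (hs i).toFinset)
    refine ⟨n, Fam.cov ⟨fun i => if hi : i < n then U ⟨i, hi⟩ else ∅, L, L.finite_toSet,
      ?_, ?_, ?_⟩⟩
    · intro i hi
      simp only [dif_pos hi]
      exact hb ⟨i, hi⟩
    · intro i hi V hV W hW hne x hx y hy hxy
      simp only [dif_pos hi] at hV hW
      exact hd ⟨i, hi⟩ V hV W hW hne x hx y hy ((hs i).mem_toFinset.2 hxy)
    · intro x
      obtain ⟨i, V, hV, hx⟩ := hc x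
      exact ⟨i, i.2, V, by simp only [dif_pos i.2]; exact hV, hx⟩

end Pool.Agent.Lib.helper22.APC
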