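import Mathlib

namespace Pool.Agent.Lib.helper22.Bipolar

open Filter Topology Metric

variable {𝕜 X Y : Type*} [RCLike 𝕜] [NormedAddCommGroup X] [NormedSpace 𝕜 X]
  [NormedAddCommGroup Y] [NormedSpace 𝕜 Y]

theorem approx (T : X →L[𝕜] Y) (y : Y) (C : ℝ) (hC : 0 ≤ C)
    (h : ∀ ψ : Y →L[𝕜] 𝕜, ‖ψ y‖ ≤ C * ‖ψ ∘L T‖) (ε : ℝ) (hε : 0 < ε) :
    ∃ x, ‖x‖ ≤ C ∧ ‖y - T x‖ < ε := by
  let _ := NormedSpace.restrictScalars ℝ 𝕜 X
  let _ := NormedSpace.restrictScalars ℝ 𝕜 Y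
  have : IsScalarTower ℝ 𝕜 X := IsScalarTower.of_algebraMap_smul fun _ _ => rfl
  have : IsScalarTower ℝ 𝕜 Y := IsScalarTower.of_algebraMap_smul fun _ _ => rfl
  suffices y ∈ closure (T '' closedBall 0 C) by
    obtain ⟨_, ⟨x, hx, rfl⟩, h2⟩ := Metric.mem_closure_iff.1 this ε hε
    exact ⟨x, by simpa using hx, by rwa [← dist_eq_norm]⟩
  by_contra hy
  obtain ⟨ψ, u, h1, h2⟩ := RCLike.geometric_hahn_banach_closed_point (𝕜 := 𝕜)
    ((convex_closedBall (0 : X) C).linear_image (T.restrictScalars ℝ).toLinearMap).closure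
    isClosed_closure hy
  have h3 : ∀ x, ‖x‖ ≤ C → ‖ψ (T x)‖ ≤ u := fun x hx => by
    obtain ⟨c, c1, c2⟩ := RCLike.exists_norm_eq_mul_self (ψ (T x))
    have := h1 (T (c • x)) (subset_closure ⟨c • x, by simpa [norm_smul, c1] using hx, rfl⟩)
    rw [map_smul, map_smul, smul_eq_mul, ← c2, RCLike.ofReal_re] at this
    exact this.le
  have u0 : 0 ≤ u := (norm_nonneg _).trans (h3 0 (by simpa using hC))
  have h4 : C * ‖ψ ∘L T‖ ≤ u := by
    have : ‖(C : 𝕜) • ψ ∘L T‖ ≤ u := ContinuousLinearMap.opNorm_le_of_unit_norm u0 fun x hx => by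
      have := h3 ((C : 𝕜) • x) (by rw [norm_smul, hx, RCLike.norm_ofReal, abs_of_nonneg hC, mul_one])
      rwa [map_smul, map_smul] at this
    rwa [norm_smul, RCLike.norm_ofReal, abs_of_nonneg hC] at this
  linarith [h ψ, RCLike.re_le_norm (ψ y)]

theorem bounded_below [CompleteSpace X] (T : X →L[𝕜] Y) (hT : ∀ x, T x = 0 → x = 0)
    (h : ∀ (ψ : Y →L[𝕜] 𝕜) (x : X), ‖ψ (T x)‖ ≤ ‖T x‖ * ‖ψ ∘L T‖) (x : X) :
    ‖x‖ ≤ 2 * ‖T x‖ := by
  have st : ∀ z : X, ∃ w, ‖w‖ ≤ ‖T z‖ ∧ ‖T (z - w)‖ ≤ ‖T z‖ / 2 := fun z => by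
    rcases (norm_nonneg (T z)).eq_or_lt with h0 | h0
    · exact ⟨0, by simp, by rw [sub_zero]; linarith⟩
    · obtain ⟨w, h1, h2⟩ := approx T (T z) _ h0.le (h · z) _ (half_pos h0)
      exact ⟨w, h1, by rw [map_sub]; exact h2.le⟩
  choose w w1 w2 using st
  let z : ℕ → X := fun n => (fun v => v - w v)^[n] x
  have zs : ∀ n, z (n + 1) = z n - w (z n) := fun n => Function.iterate_succ_apply' _ _ _
  have b : ∀ n, ‖T (z n)‖ ≤ 2 * ‖T x‖ / 2 / 2 ^ n := fun n => by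
    induction n with
    | zero => simp [z]
    | succ n ih => rw [zs, pow_succ, ← div_div]; linarith [w2 (z n)]
  have g := hasSum_geometric_two' (2 * ‖T x‖)
  have s : Summable fun n => w (z n) := .of_norm_bounded g.summable fun n => (w1 _).trans (b n)
  have e : ∀ n, ∑ i ∈ Finset.range n, w (z i) = x - z n := fun n => by
    induction n with
    | zero => simp [z]
    | succ n ih => rw [Finset.sum_range_succ, ih, zs]; abel
  have l1 := ((T.continuous.tendsto _).comp s.hasSum.tendsto_sum_nat).const_sub (T x)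
  simp only [Function.comp_def, e, map_sub, sub_sub_cancel] at l1
  have l2 := tendsto_nhds_unique l1 (squeeze_zero_norm b g.summable.tendsto_atTop_zero)
  rw [sub_eq_zero.1 (hT _ ((map_sub T _ _).trans l2))]
  nth_rewrite 2 [← sub_eq_zero.1 (hT _ ((map_sub T _ _).trans l2))]
  exact tsum_of_norm_bounded g fun n => (w1 _).trans (b n)

end Pool.Agent.Lib.helper22.Bipolar
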