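import Pool.Agent.Lib.lead.CXNum

/-! Exact bin packing with polynomially bounded sizes: the Garey-Johnson encoding of three-dimensional matching. -/

namespace Pool.Agent.Lib.CX

open Finset

theorem dig_inj (r : ℕ) : ∀ (k : ℕ) (x y : ℕ → ℕ), (∀ d < k, x d < r) → (∀ d < k, y d < r) →
    ∑ d ∈ range k, x d * r ^ d = ∑ d ∈ range k, y d * r ^ d → ∀ d < k, x d = y d := by
  intro k
  induction k with
  | zero => simp
  | succ k ih =>
    intro x y hx hy h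
    have e : ∀ x : ℕ → ℕ, ∑ d ∈ range (k + 1), x d * r ^ d = x 0 + r * ∑ d ∈ range k, x (d + 1) * r ^ d := fun x => by
      rw [sum_range_succ', mul_sum, add_comm]; simp only [pow_zero, mul_one, pow_succ]
      congr 1; exact sum_congr rfl fun _ _ => by ring
    rw [e, e] at h
    have h0 := congrArg (· % r) h
    simp only [Nat.add_mul_mod_self_left, Nat.mod_eq_of_lt (hx 0 (by omega)),
      Nat.mod_eq_of_lt (hy 0 (by omega))] at h0
    have hr : 0 < r := by have := hx 0 (by omega); omega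
    rw [h0] at h
    have h1 := ih (fun d => x (d + 1)) (fun d => y (d + 1)) (fun d hd => hx _ (by omega))
      (fun d hd => hy _ (by omega)) (Nat.eq_of_mul_eq_mul_left hr (by omega))
    intro d hd
    cases d with
    | zero => exact h0
    | succ d => exact h1 d (by omega)

theorem dig_lt (r : ℕ) : ∀ (k : ℕ) (x : ℕ → ℕ), (∀ d < k, x d < r) → ∑ d ∈ range k, x d * r ^ d < r ^ k := by
  intro k
  induction k with
  | zero => simp
  | succ k ih =>
    intro x hx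
    have h1 := ih x fun d hd => hx d (by omega)
    have h2 : (x k + 1) * r ^ k ≤ r * r ^ k := Nat.mul_le_mul_right _ (hx k (by omega))
    rw [sum_range_succ, pow_succ]; nlinarith

section
variable {τ : Type} [DecidableEq τ] (I : Finset τ) (e : τ → ℕ → ℕ) (s : τ → ℕ → Bool) (R : ℕ)

/-- the elements in position `p` are covered exactly once by the chosen triples -/
def Cov (p : ℕ) (S : τ → Prop) : Prop := ∀ l ∈ I, ∃! k, k ∈ I ∧ S k ∧ e k p = e l p

def gjD (z : τ × ℕ) (d : ℕ) : ℕ :=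
  if d < 4 then (if z.2 = d then 1 else 0)
  else if d < 7 then (if z.2 = d - 4 then e z.1 (d - 4) else if z.2 = 3 then R - e z.1 (d - 4) else 0)
  else if d = 7 then (if z.2 < 2 then (s z.1 z.2).toNat else if z.2 = 2 then 2 - 2 * (s z.1 2).toNat else 0) else 1

def gjT (d : ℕ) : ℕ := if d < 4 then 1 else if d < 7 then R else if d = 7 then 2 else 4

def gjV (z : τ × ℕ) : ℕ := ∑ d ∈ range 9, gjD e s R z d * (4 * R + 9) ^ d
def gjB : ℕ := ∑ d ∈ range 9, gjT R d * (4 * R + 9) ^ d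

variable {I e s R}

theorem gjD_le (he : ∀ l ∈ I, ∀ p, e l p ≤ R) {z : τ × ℕ} (hz : z.1 ∈ I) (d : ℕ) : gjD e s R z d ≤ R + 2 := by
  have := he _ hz (d - 4)
  have := Bool.toNat_le (s z.1 z.2)
  unfold gjD; split_ifs <;> omega

theorem gj_dig (he : ∀ l ∈ I, ∀ p, e l p ≤ R) {A : Finset (τ × ℕ)} (hA : ∀ z ∈ A, z.1 ∈ I)
    (h : ∑ z ∈ A, gjV e s R z = gjB R) : ∀ d < 9, ∑ z ∈ A, gjD e s R z d = gjT R d := by
  have hT : ∀ d, gjT R d < 4 * R + 9 := fun d => by unfold gjT; split_ifs <;> omega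
  have h1 : A.card * (4 * R + 9) ^ 8 ≤ gjB R := by
    rw [← h, ← smul_eq_mul]
    refine card_nsmul_le_sum _ _ _ fun z _ => ?_
    rw [gjV, sum_range_succ]; simp [gjD]
  have h2 := dig_lt _ 8 (gjT R) fun d _ => hT d
  have h3 : gjB R = ∑ d ∈ range 8, gjT R d * (4 * R + 9) ^ d + 4 * (4 * R + 9) ^ 8 := by
    rw [gjB, sum_range_succ]; rfl
  have h4 : A.card < 5 := by
    by_contra h5
    have := Nat.mul_le_mul_right ((4 * R + 9) ^ 8) (not_lt.1 h5)
    omega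
  refine dig_inj (4 * R + 9) 9 (fun d => ∑ z ∈ A, gjD e s R z d) (gjT R) (fun d _ => ?_) (fun d _ => hT d) ?_
  · have := sum_le_card_nsmul A (fun z => gjD e s R z d) _ fun z hz => gjD_le (s := s) he (hA z hz) d
    have h5 := Nat.mul_le_mul_right (R + 2) (Nat.le_of_lt_succ h4)
    simp only [smul_eq_mul] at this; omega
  · rw [← gjB, ← h]; simp only [gjV, sum_mul]; exact sum_comm

theorem gj_bin (he : ∀ l ∈ I, ∀ p, e l p ≤ R) {A : Finset (τ × ℕ)} (hA : ∀ z ∈ A, z.1 ∈ I ∧ z.2 < 4)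
    (h : ∑ z ∈ A, gjV e s R z = gjB R) : ∃ f : ℕ → τ, (∀ z, z ∈ A ↔ z.2 < 4 ∧ z.1 = f z.2) ∧
      ∀ p < 3, e (f p) p = e (f 3) p ∧ s (f p) p = s (f 0) 0 := by
  have H := gj_dig he (fun z hz => (hA z hz).1) h
  have h1 : ∀ p, ∃ l, p < 4 → ∀ z : τ × ℕ, z.2 = p → (z ∈ A ↔ z.1 = l) := fun p => by
    by_cases hp : p < 4
    · have := H p (by omega)
      simp only [gjD, gjT, hp, if_true, sum_boole, Nat.cast_id, card_eq_one] at this
      obtain ⟨a, ha⟩ := this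
      refine ⟨a.1, fun _ z hz => ?_⟩
      have h2 : ∀ z, z ∈ A ∧ z.2 = p ↔ z = a := fun z => by rw [← mem_singleton (a := a), ← ha, mem_filter]
      have h3 := (h2 a).2 rfl
      exact ⟨fun h => by rw [(h2 z).1 ⟨h, hz⟩], fun h => by rw [show z = a from Prod.ext h (hz.trans h3.2.symm)]; exact h3.1⟩
    · by_cases hne : A.Nonempty
      · exact ⟨hne.choose.1, fun h => absurd h hp⟩
      · have := H 0 (by omega)
        simp [not_nonempty_iff_eq_empty.1 hne, gjT] at this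
  choose f hf using h1
  have h2 : ∀ z, z ∈ A ↔ z.2 < 4 ∧ z.1 = f z.2 := fun z =>
    ⟨fun h => ⟨(hA z h).2, (hf _ (hA z h).2 z rfl).1 h⟩, fun h => (hf _ h.1 z rfl).2 h.2⟩
  have h3 : A = {(f 0, 0), (f 1, 1), (f 2, 2), (f 3, 3)} := by
    ext ⟨l, p⟩
    simp only [h2, mem_insert, mem_singleton, Prod.mk.injEq]
    constructor
    · rintro ⟨h, rfl⟩; interval_cases p <;> simp
    · rintro (⟨rfl, rfl⟩ | ⟨rfl, rfl⟩ | ⟨rfl, rfl⟩ | ⟨rfl, rfl⟩) <;> simp
  have h4 : ∀ d, ∑ z ∈ A, gjD e s R z d = gjD e s R (f 0, 0) d + gjD e s R (f 1, 1) d + gjD e s R (f 2, 2) d +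
      gjD e s R (f 3, 3) d := fun d => by
    rw [h3, sum_insert (by simp), sum_insert (by simp), sum_insert (by simp), sum_singleton]; ring
  have h5 := he _ (hA (f 3, 3) ((h2 _).2 (by simp))).1
  have a4 := H 4 (by omega); have a5 := H 5 (by omega); have a6 := H 6 (by omega); have a7 := H 7 (by omega)
  rw [h4] at a4 a5 a6 a7
  simp [gjD, gjT] at a4 a5 a6 a7 h5
  have := h5 0; have := h5 1; have := h5 2
  refine ⟨f, h2, fun p hp => ?_⟩
  interval_cases p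
  · exact ⟨by omega, rfl⟩
  · refine ⟨by omega, ?_⟩
    revert a7; cases s (f 0) 0 <;> cases s (f 1) 1 <;> cases s (f 2) 2 <;> simp
  · refine ⟨by omega, ?_⟩
    revert a7; cases s (f 0) 0 <;> cases s (f 1) 1 <;> cases s (f 2) 2 <;> simp

theorem gj_sound (he : ∀ l ∈ I, ∀ p, e l p ≤ R) (hs : ∀ p < 3, Cov I e p fun l => s l p = true) {g : τ × ℕ → ℕ}
    (hg : ∀ z ∈ I ×ˢ range 4, ∑ y ∈ (I ×ˢ range 4).filter (g · = g z), gjV e s R y = gjB R) :
    ∃ S, ∀ p < 3, Cov I e p S := by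
  have H : ∀ z : τ × ℕ, ∃ f : ℕ → τ, z ∈ I ×ˢ range 4 → (∀ y, (y ∈ I ×ˢ range 4 ∧ g y = g z) ↔ y.2 < 4 ∧ y.1 = f y.2) ∧
      ∀ p < 3, e (f p) p = e (f 3) p ∧ s (f p) p = s (f 0) 0 := fun z => by
    by_cases hz : z ∈ I ×ˢ range 4
    · obtain ⟨f, h1, h2⟩ := gj_bin he (fun y hy => by simpa using (mem_filter.1 hy).1) (hg z hz)
      exact ⟨f, fun _ => ⟨fun y => by rw [← h1, mem_filter], h2⟩⟩
    · exact ⟨fun _ => z.1, fun h => absurd h hz⟩
  choose F hF using H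
  have m : ∀ l ∈ I, ∀ p < 4, (l, p) ∈ I ×ˢ range 4 := fun l hl p hp => by simp [hl, hp]
  refine ⟨fun l => s (F (l, 3) 0) 0 = true, fun p hp l hl => ?_⟩
  obtain ⟨k, ⟨hk, k1, k2⟩, k3⟩ := hs p hp l hl
  obtain ⟨a1, a2⟩ := hF _ (m k hk p (by omega))
  have a3 : k = F (k, p) p := ((a1 (k, p)).1 ⟨m k hk p (by omega), rfl⟩).2
  obtain ⟨b1, b2⟩ := (a1 (F (k, p) 3, 3)).2 ⟨by simp, rfl⟩
  obtain ⟨c1, c2⟩ := hF _ b1
  have c3 : F (k, p) 0 = F (F (k, p) 3, 3) 0 := by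
    obtain ⟨d1, d2⟩ := (a1 (F (k, p) 0, 0)).2 ⟨by simp, rfl⟩
    exact ((c1 _).1 ⟨d1, d2.trans b2.symm⟩).2
  refine ⟨F (k, p) 3, ⟨(mem_product.1 b1).1, ?_, ?_⟩, fun l' ⟨h1, h2, h3⟩ => ?_⟩
  · show s _ 0 = true
    rw [← c3, ← (a2 p hp).2, ← a3]; exact k1
  · rw [← (a2 p hp).1, ← a3]; exact k2
  · obtain ⟨d1, d2⟩ := hF _ (m l' h1 3 (by omega))
    have d3 : l' = F (l', 3) 3 := ((d1 (l', 3)).1 ⟨m l' h1 3 (by omega), rfl⟩).2
    obtain ⟨d4, d5⟩ := (d1 (F (l', 3) p, p)).2 ⟨by simp; omega, rfl⟩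
    have d6 := k3 (F (l', 3) p) ⟨(mem_product.1 d4).1, (d2 p hp).2.trans h2, by rw [(d2 p hp).1, ← d3, h3]⟩
    rw [d6] at d5
    exact ((a1 (l', 3)).1 ⟨m l' h1 3 (by omega), d5.symm⟩).2

theorem cov_perm {p : ℕ} {S T : τ → Prop} (hS : Cov I e p S) (hT : Cov I e p T) :
    ∃ σ : Equiv.Perm τ, ∀ l, (σ l ∈ I ↔ l ∈ I) ∧ (l ∈ I → e (σ l) p = e l p ∧ (T (σ l) ↔ S l)) := by
  classical
  choose! a ha ha' using hS
  choose! b hb hb' using hT
  let f : τ → τ := fun l => if l ∈ I then (if l = a l then b l else if l = b l then a l else l) else l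
  have h1 : ∀ l ∈ I, ∀ k ∈ I, e k p = e l p → a k = a l ∧ b k = b l := fun l hl k hk h =>
    ⟨ha' l hl _ ⟨(ha k hk).1, (ha k hk).2.1, (ha k hk).2.2.trans h⟩,
      hb' l hl _ ⟨(hb k hk).1, (hb k hk).2.1, (hb k hk).2.2.trans h⟩⟩
  have h2 : Function.Involutive f := fun l => by
    by_cases hl : l ∈ I
    · have a1 := h1 l hl _ (ha l hl).1 (ha l hl).2.2
      have a2 := h1 l hl _ (hb l hl).1 (hb l hl).2.2
      have a3 := (ha l hl).1
      have a4 := (hb l hl).1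
      by_cases c1 : l = a l
      · have : f l = b l := by simp only [f, if_pos hl, if_pos c1]
        rw [this]; simp only [f, if_pos a4, a2.1, a2.2, if_true]
        split_ifs with c2
        · exact c2.trans c1.symm
        · exact c1.symm
      · by_cases c2 : l = b l
        · have : f l = a l := by simp only [f, if_pos hl, if_neg c1, if_pos c2]
          rw [this]; simp only [f, if_pos a3, a1.1, a1.2, if_true]; exact c2.symm
        · have : f l = l := by simp only [f, if_pos hl, if_neg c1, if_neg c2]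
          rw [this, this]
    · simp [f, hl]
  refine ⟨h2.toPerm, fun l => ?_⟩
  simp only [Function.Involutive.coe_toPerm, f]
  by_cases hl : l ∈ I
  · have a1 := ha l hl; have a2 := hb l hl
    have a3 : S l ↔ l = a l := ⟨fun h => ha' l hl l ⟨hl, h, rfl⟩, fun h => h ▸ a1.2.1⟩
    have a4 : ∀ k ∈ I, e k p = e l p → (T k ↔ k = b l) := fun k hk hh =>
      ⟨fun h => hb' l hl k ⟨hk, h, hh⟩, fun h => h ▸ a2.2.1⟩
    simp only [hl, if_true, iff_true, true_imp_iff, a3]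
    split_ifs with c1 c2
    · exact ⟨a2.1, a2.2.2, by simpa [← c1] using a2.2.1⟩
    · refine ⟨a1.1, a1.2.2, ?_⟩
      rw [a4 _ a1.1 a1.2.2, ← c2]; exact eq_comm
    · exact ⟨hl, rfl, by rw [a4 l hl rfl]; simp [c1, c2]⟩
  · simp [hl]

theorem gj_complete (he : ∀ l ∈ I, ∀ p, e l p ≤ R) (hs : ∀ p < 3, Cov I e p fun l => s l p = true) {S : τ → Prop}
    (hS : ∀ p < 3, Cov I e p S) : ∃ g : τ × ℕ → τ, (∀ z ∈ I ×ˢ range 4, g z ∈ I) ∧
      ∀ l ∈ I, ∑ y ∈ (I ×ˢ range 4).filter (g · = l), gjV e s R y = gjB R := by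
  have H : ∀ p, ∃ σ : Equiv.Perm τ, (p = 3 → σ = 1) ∧ ∀ l, (σ l ∈ I ↔ l ∈ I) ∧
      (p < 3 → l ∈ I → e (σ l) p = e l p ∧ (s (σ l) p = true ↔ S l)) := fun p => by
    by_cases hp : p < 3
    · obtain ⟨σ, h⟩ := cov_perm (hS p hp) (hs p hp)
      exact ⟨σ, by omega, fun l => ⟨(h l).1, fun _ => (h l).2⟩⟩
    · exact ⟨1, fun _ => rfl, fun l => ⟨by simp, fun h => absurd h hp⟩⟩
  choose σ h3 hσ using H
  refine ⟨fun z => (σ z.2).symm z.1, fun z hz => ?_, fun l hl => ?_⟩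
  · rw [← (hσ z.2 _).1]; simpa using (mem_product.1 hz).1
  · have : (I ×ˢ range 4).filter (fun z => (σ z.2).symm z.1 = l) = {(σ 0 l, 0), (σ 1 l, 1), (σ 2 l, 2), (l, 3)} := by
      ext ⟨k, p⟩
      simp only [mem_filter, mem_product, mem_range, Equiv.symm_apply_eq, mem_insert, mem_singleton, Prod.mk.injEq]
      constructor
      · rintro ⟨⟨-, h⟩, rfl⟩; interval_cases p <;> simp [h3 3 rfl]
      · rintro (⟨rfl, rfl⟩ | ⟨rfl, rfl⟩ | ⟨rfl, rfl⟩ | ⟨rfl, rfl⟩) <;> simp [(hσ _ _).1, hl, h3 3 rfl]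
    rw [this, sum_insert (by simp), sum_insert (by simp), sum_insert (by simp), sum_singleton]
    simp only [gjV, gjB, ← sum_add_distrib, ← add_mul]
    refine sum_congr rfl fun d hd => ?_
    congr 1
    obtain ⟨a0, b0⟩ := (hσ 0 l).2 (by omega) hl
    obtain ⟨a1, b1⟩ := (hσ 1 l).2 (by omega) hl
    obtain ⟨a2, b2⟩ := (hσ 2 l).2 (by omega) hl
    have := he l hl 0; have := he l hl 1; have := he l hl 2
    have hd' := mem_range.1 hd
    interval_cases d <;> simp [gjD, gjT, *]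
    by_cases h : S l
    · simp [b0.2 h, b1.2 h, b2.2 h]
    · simp [Bool.eq_false_iff.2 (mt b0.1 h), Bool.eq_false_iff.2 (mt b1.1 h), Bool.eq_false_iff.2 (mt b2.1 h)]

end

end Pool.Agent.Lib.CX
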