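import Pool.Agent.Lib.helper22.CXBinA

/-! From one-in-three satisfiability to three-dimensional matching. -/

namespace Pool.Agent.Lib.CX

open Finset

section
variable (φ : List (T3 ℕ))

def occ (x j : ℕ) : Bool := decide (x ∈ (φ.getD j (0, 0, 0)).vars)
def dmX (l : T3 ℕ) (p : ℕ) : ℕ :=
  if p < 2 then (if l.2.2 = 2 then (if occ φ l.1 l.2.1 then 0 else 2 * l.1 + 3) else 2 * l.1 + 2)
  else if occ φ l.1 l.2.1 then (if l.2.2 = 0 then 0 else 2 * l.1 + 2)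
  else if l.2.2 = 2 then 2 * l.1 + 3 else 2 * l.1 + 2
def dmJ (l : T3 ℕ) (p : ℕ) : ℕ :=
  if l.2.2 = 1 ∧ p = 0 then (if l.2.1 + 1 = φ.length then 0 else l.2.1 + 1) else l.2.1
def dmE (l : T3 ℕ) (p : ℕ) : ℕ := Nat.pair (dmX φ l p) (dmJ φ l p)
def dmS (l : T3 ℕ) (p : ℕ) : Bool :=
  if p < 2 then decide (l.2.2 = 0 ∨ l.2.2 = 2 ∧ (occ φ l.1 l.2.1 = false ∨ l.1 = (φ.getD l.2.1 (0, 0, 0)).1))
  else if occ φ l.1 l.2.1 then decide (l.2.2 = 1 ∨ l.2.2 = 0 ∧ l.1 = (φ.getD l.2.1 (0, 0, 0)).1)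
  else decide (l.2.2 ≠ 1)
def dmL : List (T3 ℕ) := List.range (3 * φ.length) ×ˢ List.range φ.length ×ˢ List.range 3
def dmR : ℕ := (6 * φ.length + 4) ^ 2

variable {φ}

theorem mem_dmL {x j k : ℕ} : (x, j, k) ∈ (dmL φ).toFinset ↔ x < 3 * φ.length ∧ j < φ.length ∧ k < 3 := by
  simp [dmL]

theorem dmE_eq {l k : T3 ℕ} {p : ℕ} : dmE φ l p = dmE φ k p ↔ dmX φ l p = dmX φ k p ∧ dmJ φ l p = dmJ φ k p :=
  Nat.pair_eq_pair

theorem dmC (x j k p : ℕ) : ((p < 2 ∧ (k = 2 ∧ (occ φ x j).toNat = 1 ∧ dmX φ (x, j, k) p = 0 ∨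
    k = 2 ∧ (occ φ x j).toNat = 0 ∧ dmX φ (x, j, k) p = 2 * x + 3 ∨ k ≠ 2 ∧ dmX φ (x, j, k) p = 2 * x + 2)) ∨
    (2 ≤ p ∧ (k = 0 ∧ (occ φ x j).toNat = 1 ∧ dmX φ (x, j, k) p = 0 ∨
      k = 2 ∧ (occ φ x j).toNat = 0 ∧ dmX φ (x, j, k) p = 2 * x + 3 ∨
      (k ≠ 0 ∧ (occ φ x j).toNat = 1 ∨ k ≠ 2 ∧ (occ φ x j).toNat = 0) ∧ dmX φ (x, j, k) p = 2 * x + 2))) ∧
    (k = 1 ∧ p = 0 ∧ j + 1 = φ.length ∧ dmJ φ (x, j, k) p = 0 ∨
      k = 1 ∧ p = 0 ∧ j + 1 ≠ φ.length ∧ dmJ φ (x, j, k) p = j + 1 ∨ (k ≠ 1 ∨ p ≠ 0) ∧ dmJ φ (x, j, k) p = j) := by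
  constructor
  · simp only [dmX]; cases occ φ x j <;> by_cases p < 2 <;> by_cases k = 2 <;> by_cases k = 0 <;> simp_all <;> omega
  · simp only [dmJ]; by_cases p = 0 <;> by_cases k = 1 <;> by_cases j + 1 = φ.length <;> simp_all

theorem toNat1 {b : Bool} : b.toNat = 1 ↔ b = true := by cases b <;> simp
theorem toNat0 {b : Bool} : b.toNat = 0 ↔ b = false := by cases b <;> simp

theorem dmE_le : ∀ l ∈ (dmL φ).toFinset, ∀ p, dmE φ l p ≤ dmR φ := fun ⟨x, j, k⟩ hl p => by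
  have := mem_dmL.1 hl
  refine (Nat.pair_lt_max_add_one_sq _ _).le.trans (Nat.pow_le_pow_left ?_ 2)
  simp only [dmX, dmJ]; split_ifs <;> omega

theorem cov01 {S : T3 ℕ → Prop} {p : ℕ} (hp : p < 2)
    (h1 : ∀ x j j', S (x, j, 0) ↔ ¬S (x, j', 1)) (h2 : ∀ x j, occ φ x j = false → S (x, j, 2))
    (h3 : ∀ j < φ.length, ∃! x, x < 3 * φ.length ∧ occ φ x j = true ∧ S (x, j, 2)) :
    Cov (dmL φ).toFinset (dmE φ) p S := by
  have k1 : ∀ x j, x < 3 * φ.length → j < φ.length → ∃! k, k ∈ (dmL φ).toFinset ∧ S k ∧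
      dmE φ k p = dmE φ (x, j, 0) p := fun x j hx hj => by
    by_cases c : S (x, j, 0)
    · refine ⟨(x, j, 0), ⟨mem_dmL.2 ⟨hx, hj, by omega⟩, c, rfl⟩, ?_⟩
      rintro ⟨y, i, k⟩ ⟨a1, a2, a3⟩
      rw [mem_dmL] at a1
      rw [dmE_eq] at a3
      have : y = x ∧ (k = 1 ∨ i = j ∧ k = 0) := by
        have := dmC (φ := φ) y i k p; have := dmC (φ := φ) x j 0 p; omega
      obtain ⟨rfl, rfl | ⟨rfl, rfl⟩⟩ := this
      · exact absurd a2 ((h1 _ _ _).1 c)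
      · rfl
    · refine ⟨(x, if p = 0 then (if j = 0 then φ.length - 1 else j - 1) else j, 1), ⟨?_, by
        by_contra h; exact c ((h1 _ _ _).2 h), ?_⟩, ?_⟩
      · rw [mem_dmL]; split_ifs <;> omega
      · have := dmC (φ := φ) x j 0 p
        rw [dmE_eq]
        split_ifs
        · have := dmC (φ := φ) x (φ.length - 1) 1 p; omega
        · have := dmC (φ := φ) x (j - 1) 1 p; omega
        · have := dmC (φ := φ) x j 1 p; omega
      rintro ⟨y, i, k⟩ ⟨a1, a2, a3⟩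
      rw [mem_dmL] at a1
      rw [dmE_eq] at a3
      have := dmC (φ := φ) y i k p; have := dmC (φ := φ) x j 0 p
      by_cases hk : k = 0
      · have : y = x ∧ i = j := by omega
        obtain ⟨rfl, rfl⟩ := this
        exact absurd (hk ▸ a2) c
      · simp only [Prod.mk.injEq]; split_ifs <;> omega
  rintro ⟨x, j, k⟩ hl
  have hl' := mem_dmL.1 hl
  by_cases hk : k = 2
  · subst hk
    cases c : occ φ x j
    · refine ⟨(x, j, 2), ⟨hl, h2 _ _ c, rfl⟩, ?_⟩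
      rintro ⟨y, i, k⟩ ⟨a1, a2, a3⟩
      rw [dmE_eq] at a3
      rw [mem_dmL] at a1
      have := dmC (φ := φ) y i k p; have := dmC (φ := φ) x j 2 p; have := toNat0.2 c
      simp only [Prod.mk.injEq]; omega
    · obtain ⟨y, ⟨b1, b2, b3⟩, b4⟩ := h3 j hl'.2.1
      refine ⟨(y, j, 2), ⟨mem_dmL.2 ⟨b1, hl'.2⟩, b3, by simp [dmE_eq, dmX, dmJ, hp, c, b2]⟩, ?_⟩
      rintro ⟨z, i, k⟩ ⟨a1, a2, a3⟩
      rw [mem_dmL] at a1
      rw [dmE_eq] at a3
      have : k = 2 ∧ i = j ∧ occ φ z i = true := by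
        have := dmC (φ := φ) z i k p; have := dmC (φ := φ) x j 2 p; have := toNat1.2 c
        rw [← toNat1]; omega
      obtain ⟨rfl, rfl, c2⟩ := this
      rw [b4 z ⟨a1.1, c2, a2⟩]
  · have : dmE φ (x, j, k) p = dmE φ (x, dmJ φ (x, j, k) p, 0) p := by
      have := dmC (φ := φ) x j k p; have := dmC (φ := φ) x (dmJ φ (x, j, k) p) 0 p
      rw [dmE_eq]; omega
    rw [this]
    exact k1 _ _ hl'.1 (by simp only [dmJ]; split_ifs <;> omega)

theorem cov2 {S : T3 ℕ → Prop} (h1 : ∀ x j, occ φ x j = false → (S (x, j, 0) ↔ ¬S (x, j, 1)) ∧ S (x, j, 2))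
    (h2 : ∀ x j, occ φ x j = true → (S (x, j, 2) ↔ ¬S (x, j, 1)))
    (h3 : ∀ j < φ.length, ∃! x, x < 3 * φ.length ∧ occ φ x j = true ∧ S (x, j, 0)) :
    Cov (dmL φ).toFinset (dmE φ) 2 S := by
  rintro ⟨x, j, k⟩ hl
  have hl' := mem_dmL.1 hl
  have u : ∀ k', k' < 3 → S (x, j, k') → dmX φ (x, j, k') 2 = dmX φ (x, j, k) 2 → (occ φ x j = false ∨ k ≠ 0) →
      (∀ k'' < 3, S (x, j, k'') → dmX φ (x, j, k'') 2 = dmX φ (x, j, k) 2 → k'' = k') →
      ∃! l, l ∈ (dmL φ).toFinset ∧ S l ∧ dmE φ l 2 = dmE φ (x, j, k) 2 := fun k' c1 c2 c3 c4 c5 => by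
    refine ⟨(x, j, k'), ⟨mem_dmL.2 ⟨hl'.1, hl'.2.1, c1⟩, c2, dmE_eq.2 ⟨c3, by simp [dmJ]⟩⟩, ?_⟩
    rintro ⟨y, i, t⟩ ⟨a1, a2, a3⟩
    rw [mem_dmL] at a1
    obtain ⟨a3, a4⟩ := dmE_eq.1 a3
    have : y = x ∧ i = j := by
      have := dmC (φ := φ) y i t 2; have := dmC (φ := φ) x j k 2
      rw [← toNat0] at c4; omega
    obtain ⟨rfl, rfl⟩ := this
    rw [c5 t a1.2.2 a2 a3]
  cases c : occ φ x j
  · obtain ⟨a1, a2⟩ := h1 x j c
    by_cases hk : k = 2
    · subst hk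
      refine u 2 (by omega) a2 rfl (.inl c) fun k hk _ h => ?_
      interval_cases k <;> simp [dmX, c] at h ⊢
    · by_cases d : S (x, j, 1)
      · refine u 1 (by omega) d (by simp [dmX, c, hk]) (.inl c) fun t ht h' h => ?_
        interval_cases t
        · exact absurd d (a1.1 h')
        · rfl
        · simp [dmX, c, hk] at h
      · refine u 0 (by omega) (a1.2 d) (by simp [dmX, c, hk]) (.inl c) fun t ht h' h => ?_
        interval_cases t
        · rfl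
        · exact absurd h' d
        · simp [dmX, c, hk] at h
  · by_cases hk : k = 0
    · subst hk
      obtain ⟨y, ⟨b1, b2, b3⟩, b4⟩ := h3 j hl'.2.1
      refine ⟨(y, j, 0), ⟨mem_dmL.2 ⟨b1, hl'.2⟩, b3, by simp [dmE_eq, dmX, dmJ, c, b2]⟩, ?_⟩
      rintro ⟨z, i, k⟩ ⟨a1, a2, a3⟩
      rw [mem_dmL] at a1
      rw [dmE_eq] at a3
      have : k = 0 ∧ i = j ∧ occ φ z i = true := by
        have := dmC (φ := φ) z i k 2; have := dmC (φ := φ) x j 0 2; have := toNat1.2 c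
        rw [← toNat1]; omega
      obtain ⟨rfl, rfl, c2⟩ := this
      rw [b4 z ⟨a1.1, c2, a2⟩]
    · have a1 := h2 x j c
      by_cases d : S (x, j, 1)
      · refine u 1 (by omega) d (by simp [dmX, c, hk]) (.inr hk) fun t ht h' h => ?_
        interval_cases t
        · simp [dmX, c, hk] at h
        · rfl
        · exact absurd d (a1.1 h')
      · refine u 2 (by omega) (a1.2 d) (by simp [dmX, c, hk]) (.inr hk) fun t ht h' h => ?_
        interval_cases t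
        · simp [dmX, c, hk] at h
        · exact absurd h' d
        · rfl

theorem getD_mem {j : ℕ} (hj : j < φ.length) : φ.getD j (0, 0, 0) ∈ φ := by
  rw [List.getD_eq_getElem _ _ hj]; exact List.getElem_mem _

variable (h : ∀ C ∈ φ, C.dist ∧ ∀ x ∈ C.vars, x < 3 * φ.length)
include h

theorem dm_flag : ∀ p < 3, Cov (dmL φ).toFinset (dmE φ) p fun l => dmS φ l p = true := fun p hp => by
  have k : ∀ j < φ.length, ∃! x, x < 3 * φ.length ∧ occ φ x j = true ∧ x = (φ.getD j (0, 0, 0)).1 := fun j hj =>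
    ⟨_, ⟨(h _ (getD_mem hj)).2 _ (by simp [T3.vars]), by simp [occ, T3.vars], rfl⟩, fun _ h => h.2.2⟩
  by_cases c : p < 2
  · refine cov01 c (by simp [dmS, c]) (fun x j h => by simp [dmS, c, h]) fun j hj => ?_
    refine (existsUnique_congr fun x => ?_).1 (k j hj)
    cases d : occ φ x j <;> simp [dmS, c, d]
  · obtain rfl : p = 2 := by omega
    refine cov2 (fun x j h => by simp [dmS, h]) (fun x j h => by simp [dmS, h]) fun j hj => ?_
    refine (existsUnique_congr fun x => ?_).1 (k j hj)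
    cases d : occ φ x j <;> simp [dmS, d]

theorem one3_uniq (v : ℕ → Bool) {j : ℕ} (hj : j < φ.length) :
    (∃! x, x < 3 * φ.length ∧ occ φ x j = true ∧ v x = true) ↔
      one3 (v (φ.getD j (0, 0, 0)).1) (v (φ.getD j (0, 0, 0)).2.1) (v (φ.getD j (0, 0, 0)).2.2) = true := by
  obtain ⟨⟨d1, d2, d3⟩, d4⟩ := h _ (getD_mem hj)
  simp only [occ]
  clear h hj
  generalize φ.getD j (0, 0, 0) = C at *
  generalize 3 * φ.length = N at *
  obtain ⟨a, b, c⟩ := C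
  simp only [T3.vars, List.mem_cons, List.not_mem_nil, or_false, decide_eq_true_eq, forall_eq_or_imp, forall_eq] at *
  constructor
  · rintro ⟨x, ⟨-, h1, h2⟩, h3⟩
    have e1 : v a = true → a = x := fun h => h3 a ⟨d4.1, by simp, h⟩
    have e2 : v b = true → b = x := fun h => h3 b ⟨d4.2.1, by simp, h⟩
    have e3 : v c = true → c = x := fun h => h3 c ⟨d4.2.2, by simp, h⟩
    clear h3
    cases ha : v a <;> cases hb : v b <;> cases hc : v c <;> simp only [one3] <;> grind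
  · intro h1
    cases ha : v a <;> cases hb : v b <;> cases hc : v c <;> simp [ha, hb, hc, one3] at h1
    · exact ⟨c, ⟨d4.2.2, by simp, hc⟩, by grind⟩
    · exact ⟨b, ⟨d4.2.1, by simp, hb⟩, by grind⟩
    · exact ⟨a, ⟨d4.1, by simp, ha⟩, by grind⟩

theorem dm_iff : SatR one3 φ ↔ ∃ S, ∀ p < 3, Cov (dmL φ).toFinset (dmE φ) p S := by
  constructor
  · rintro ⟨v, hv⟩
    have k := fun j hj => (one3_uniq h v (j := j) hj).2 (hv _ (getD_mem hj))
    refine ⟨fun l => if l.2.2 = 0 then v l.1 = true else if l.2.2 = 1 then v l.1 = false else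
      (occ φ l.1 l.2.1 = false ∨ v l.1 = true), fun p hp => ?_⟩
    by_cases c : p < 2
    · refine cov01 c (by simp) (fun x j h => by simp [h]) fun j hj => ?_
      refine (existsUnique_congr fun x => ?_).1 (k j hj)
      cases d : occ φ x j <;> simp
    · obtain rfl : p = 2 := by omega
      exact cov2 (fun x j h => by simp [h]) (fun x j h => by simp [h]) (by simpa using k)
  · rintro ⟨S, hS⟩
    classical
    have x2 : ∀ p < 2, ∀ x < 3 * φ.length, ∀ j < φ.length, ∀ i < φ.length, j = dmJ φ (x, i, 1) p →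
        (S (x, j, 0) ↔ ¬S (x, i, 1)) := fun p hp x hx j hj i hi e1 => by
      obtain ⟨⟨y, t, k⟩, ⟨a1, a2, a3⟩, a4⟩ := hS p (by omega) (x, j, 0) (mem_dmL.2 ⟨hx, hj, by omega⟩)
      have b1 : S (x, j, 0) → _ := fun h => a4 (x, j, 0) ⟨mem_dmL.2 ⟨hx, hj, by omega⟩, h, rfl⟩
      have b2 : S (x, i, 1) → _ := fun h => a4 (x, i, 1) ⟨mem_dmL.2 ⟨hx, hi, by omega⟩, h,
        dmE_eq.2 ⟨by simp [dmX, hp], by rw [← e1]; simp [dmJ]⟩⟩
      refine ⟨fun c1 c2 => by simpa using (b1 c1).trans (b2 c2).symm, fun c => ?_⟩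
      rw [mem_dmL] at a1
      rw [dmE_eq] at a3
      have : y = x ∧ (t = j ∧ k = 0 ∨ t = i ∧ k = 1) := by
        have := dmC (φ := φ) y t k p; have := dmC (φ := φ) x j 0 p; have := dmC (φ := φ) x i 1 p
        omega
      obtain ⟨rfl, ⟨rfl, rfl⟩ | ⟨rfl, rfl⟩⟩ := this
      · exact a2
      · exact absurd a2 c
    have x3 : ∀ x < 3 * φ.length, ∀ j < φ.length, S (x, j, 0) ↔ S (x, 0, 0) := fun x hx j => by
      induction j with
      | zero => simp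
      | succ j ih =>
        intro hj
        rw [← ih (by omega), x2 0 (by omega) x hx (j + 1) hj j (by omega) (by simp [dmJ]; omega),
          x2 1 (by omega) x hx j (by omega) j (by omega) (by simp [dmJ])]
    refine ⟨fun x => decide (S (x, 0, 0)), fun C hC => ?_⟩
    obtain ⟨j, hj, rfl⟩ := List.getElem_of_mem hC
    rw [← List.getD_eq_getElem _ (0, 0, 0) hj]
    refine (one3_uniq h (fun x => decide (S (x, 0, 0))) hj).1 ?_
    have d := (h _ (getD_mem hj)).2 (φ.getD j (0, 0, 0)).1 (by simp [T3.vars])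
    have d' : occ φ (φ.getD j (0, 0, 0)).1 j = true := by simp [occ, T3.vars]
    generalize (φ.getD j (0, 0, 0)).1 = w at d d'
    obtain ⟨⟨y, t, k⟩, ⟨a1, a2, a3⟩, a4⟩ := hS 2 (by omega) (w, j, 0) (mem_dmL.2 ⟨d, hj, by simp⟩)
    rw [mem_dmL] at a1
    rw [dmE_eq] at a3
    have : k = 0 ∧ t = j ∧ occ φ y t = true := by
      have := dmC (φ := φ) y t k 2; have := dmC (φ := φ) w j 0 2; have := toNat1.2 d'
      rw [← toNat1]; omega
    obtain ⟨rfl, rfl, c1⟩ := this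
    refine ⟨y, ⟨a1.1, c1, by simpa [← x3 y a1.1 t hj] using a2⟩, fun z ⟨b1, b2, b3⟩ => ?_⟩
    have := a4 (z, t, 0) ⟨mem_dmL.2 ⟨b1, hj, by simp⟩, by simpa [x3 z b1 t hj] using b3,
      by simp [dmE_eq, dmX, dmJ, b2, d']⟩
    simpa using this

end

end Pool.Agent.Lib.CX
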