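import Pool.Agent.Lib.helper22.CXBinB

/-! Exact bin packing with sizes in unary is NP-hard. -/

namespace Pool.Agent.Lib.CX

open Finset

/-- the items `0, …, n-1` of sizes `a i` can be distributed over `m` bins with loads related to `B` by `R` -/
def Pack (R : ℕ → ℕ → Prop) (a : ℕ → ℕ) (n m B : ℕ) : Prop :=
  ∃ g : ℕ → ℕ, (∀ i < n, g i < m) ∧ ∀ b < m, R (∑ i ∈ (range n).filter (g · = b), a i) B

theorem pack_total {a g : ℕ → ℕ} {n m : ℕ} (hg : ∀ i < n, g i < m) :
    ∑ b ∈ range m, ∑ i ∈ (range n).filter (g · = b), a i = ∑ i ∈ range n, a i :=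
  sum_fiberwise_of_maps_to (fun i hi => mem_range.2 (hg i (mem_range.1 hi))) _

theorem Pack.total {a : ℕ → ℕ} {n m B : ℕ} (h : Pack (· = ·) a n m B) : ∑ i ∈ range n, a i = m * B := by
  obtain ⟨g, h1, h2⟩ := h
  rw [← pack_total h1, sum_congr rfl fun b hb => h2 b (mem_range.1 hb)]; simp

theorem Pack.eq {a : ℕ → ℕ} {n m B : ℕ} (h : Pack (· ≤ ·) a n m B) (ht : ∑ i ∈ range n, a i = m * B) :
    Pack (· = ·) a n m B := by
  obtain ⟨g, h1, h2⟩ := h
  refine ⟨g, h1, fun b hb => (sum_eq_sum_iff_of_le (s := range m) (g := fun _ => B)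
    fun b hb => h2 b (mem_range.1 hb)).1 ?_ b (mem_range.2 hb)⟩
  rw [pack_total h1, ht]; simp

/-- the offset of item `i` in its bin -/
def off (a g : ℕ → ℕ) (i : ℕ) : ℕ := ∑ k ∈ (range i).filter (g · = g i), a k

theorem off_le {a g : ℕ → ℕ} {i n : ℕ} (h : i < n) : off a g i + a i ≤ ∑ k ∈ (range n).filter (g · = g i), a k := by
  have : off a g i + a i = ∑ k ∈ (range (i + 1)).filter (g · = g i), a k := by
    rw [range_add_one, filter_insert, if_pos rfl, sum_insert (by simp), off, add_comm]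
  rw [this]
  exact sum_le_sum_of_subset (filter_subset_filter _ (range_mono h))

theorem off_lt {a g : ℕ → ℕ} {i k : ℕ} (h : i < k) (e : g i = g k) : off a g i + a i ≤ off a g k := by
  have := off_le (a := a) (g := g) h
  rwa [e] at this

theorem off_cover {a g : ℕ → ℕ} {b t : ℕ} : ∀ n, t < ∑ k ∈ (range n).filter (g · = b), a k →
    ∃ i < n, g i = b ∧ off a g i ≤ t ∧ t < off a g i + a i := by
  intro n
  induction n with
  | zero => simp
  | succ n ih =>
    intro h
    by_cases c : t < ∑ k ∈ (range n).filter (g · = b), a k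
    · obtain ⟨i, h1, h2⟩ := ih c; exact ⟨i, by omega, h2⟩
    · rw [range_add_one, filter_insert] at h
      split_ifs at h with e
      · rw [sum_insert (by simp)] at h
        exact ⟨n, by omega, e, by rw [off, e]; omega, by rw [off, e]; omega⟩
      · exact absurd h c

theorem sum_len (L : List (List Unit)) : ∑ i ∈ range L.length, (L.getD i []).length = (L.map List.length).sum := by
  induction L with
  | nil => simp
  | cons a l ih => rw [List.length_cons, sum_range_succ']; simp [← ih, add_comm]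

theorem pack_list {κ : Type} [DecidableEq κ] {l : List κ} (hl : l.Nodup) (d : κ) (v : κ → ℕ) (g : κ → ℕ) (b : ℕ) :
    ∑ i ∈ (range l.length).filter (fun i => g (l.getD i d) = b), v (l.getD i d) =
      ∑ z ∈ l.toFinset.filter (g · = b), v z := by
  refine sum_bij (fun i _ => l.getD i d) (fun i hi => ?_) (fun i hi k hk h => ?_) (fun z hz => ?_) fun _ _ => rfl
  · simp only [mem_filter, mem_range, List.mem_toFinset] at hi ⊢
    exact ⟨by rw [List.getD_eq_getElem _ _ hi.1]; exact List.getElem_mem _, hi.2⟩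
  · simp only [mem_filter, mem_range] at hi hk
    rw [List.getD_eq_getElem _ _ hi.1, List.getD_eq_getElem _ _ hk.1] at h
    exact (hl.getElem_inj_iff).1 h
  · simp only [mem_filter, List.mem_toFinset] at hz
    obtain ⟨i, hi, rfl⟩ := List.getElem_of_mem hz.1
    exact ⟨i, by simp [hi, hz.2], by simp [hi]⟩

def bpV (φ : List (T3 ℕ)) (z : T3 ℕ × ℕ) : ℕ :=
  Nat.ofDigits (4 * dmR φ + 9) ((List.range 9).map fun d => gjD (dmE φ) (dmS φ) (dmR φ) z d)
def hor (r a b : ℕ) : ℕ := a + r * b
def bpB' (R r : ℕ) : ℕ := hor r 1 (hor r 1 (hor r 1 (hor r 1 (hor r R (hor r R (hor r R (hor r 2 4)))))))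
def bpB (φ : List (T3 ℕ)) : ℕ := bpB' (dmR φ) (4 * dmR φ + 9)
def bpL (φ : List (T3 ℕ)) : List (List Unit) :=
  (dmL φ ×ˢ List.range 4).map fun z => List.replicate (min (bpV φ z) ((4 * dmR φ + 9) ^ 9)) ()
def bpOf (φ : List (T3 ℕ)) : List (List Unit) × List Unit × List Unit :=
  if φ.length = 0 then ([List.replicate 4 ()], [()], List.replicate 4 ())
  else if ((bpL φ).map List.length).sum = (dmL φ).length * bpB φ then
    (bpL φ, List.replicate (dmL φ).length (), List.replicate (bpB φ) ())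
  else ([List.replicate 16 ()], [(), ()], List.replicate 8 ())

section
variable {α : Type} [Enc α] {φ : α → List (T3 ℕ)} {l : α → T3 ℕ} {x j : α → ℕ}

@[fun_prop] theorem PT.occ (h : PT φ) (hx : PT x) (hj : PT j) : PT fun a => occ (φ a) (x a) (j a) := by
  unfold CX.occ T3.vars; fun_prop
@[fun_prop] theorem PT.dmE (h : PT φ) (hl : PT l) (hj : PT j) : PT fun a => dmE (φ a) (l a) (j a) := by
  unfold CX.dmE dmX dmJ; fun_prop
@[fun_prop] theorem PT.dmS (h : PT φ) (hl : PT l) (hj : PT j) : PT fun a => dmS (φ a) (l a) (j a) := by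
  unfold CX.dmS; fun_prop
@[fun_prop] theorem PT.dmR (h : PT φ) : PT fun a => dmR (φ a) := by unfold CX.dmR; fun_prop
@[fun_prop] theorem PB.dmR (h : PT φ) : PB fun a => dmR (φ a) := by unfold CX.dmR; fun_prop
@[fun_prop] theorem PT.dmL (h : PT φ) : PT fun a => dmL (φ a) := by unfold CX.dmL; fun_prop
@[fun_prop] theorem PT.gjD {z : α → T3 ℕ × ℕ} (h : PT φ) (hz : PT z) (hj : PT j) :
    PT fun a => gjD (CX.dmE (φ a)) (CX.dmS (φ a)) (CX.dmR (φ a)) (z a) (j a) := by
  unfold CX.gjD; fun_prop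
@[fun_prop] theorem PT.bpV {z : α → T3 ℕ × ℕ} (h : PT φ) (hz : PT z) : PT fun a => bpV (φ a) (z a) := by
  unfold CX.bpV; fun_prop

attribute [local irreducible] CX.dmR CX.bpV CX.dmL
@[fun_prop] theorem PT.bpL (h : PT φ) : PT fun a => bpL (φ a) := by
  unfold CX.bpL
  refine PT.map (PT.replicate ?_ (PB.min_right ?_) (PT.const _)) (by fun_prop)
  · exact PT.min (by fun_prop) (PT.powConst (by fun_prop) 9)
  · exact PB.pow (by fun_prop) 9
@[fun_prop] theorem PT.hor {k : α → ℕ} (h : PT x) (h' : PT j) (h'' : PT k) : PT fun a => hor (x a) (j a) (k a) := by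
  unfold CX.hor; fun_prop
@[fun_prop] theorem PB.hor {k : α → ℕ} (h : PB x) (h' : PB j) (h'' : PB k) : PB fun a => hor (x a) (j a) (k a) := by
  unfold CX.hor; fun_prop
attribute [local irreducible] CX.hor
@[fun_prop] theorem PT.bpB (h : PT φ) : PT fun a => bpB (φ a) := by unfold CX.bpB bpB'; fun_prop
@[fun_prop] theorem PB.bpB (h : PT φ) : PB fun a => bpB (φ a) := by unfold CX.bpB bpB'; fun_prop
attribute [local irreducible] CX.bpB CX.bpL
theorem PT.bpOf : PT bpOf := by unfold CX.bpOf; fun_prop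
end

theorem bpV_eq (φ z) : bpV φ z = gjV (dmE φ) (dmS φ) (dmR φ) z := by
  simp only [bpV, gjV, List.range_succ, List.range_zero, List.nil_append, List.cons_append, List.map_cons,
    List.map_nil, Nat.ofDigits_cons, Nat.ofDigits_nil, sum_range_succ, sum_range_zero]
  ring

theorem bpB_eq (φ) : bpB φ = gjB (dmR φ) := by
  simp [bpB, bpB', hor, gjB, sum_range_succ, gjT]; ring

theorem nodup_dmL (φ) : (dmL φ).Nodup := List.nodup_range.product (List.nodup_range.product List.nodup_range)

theorem bp_iff {φ : List (T3 ℕ)} (h : ∀ C ∈ φ, C.dist ∧ ∀ x ∈ C.vars, x < 3 * φ.length) :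
    (∀ x ∈ bpL φ, 2 ≤ x.length) ∧ (SatR one3 φ ↔
      Pack (· = ·) (fun i => ((bpL φ).getD i []).length) (bpL φ).length (dmL φ).length (bpB φ)) := by
  have hl : (dmL φ ×ˢ List.range 4).Nodup := (nodup_dmL φ).product List.nodup_range
  have ht : (dmL φ ×ˢ List.range 4).toFinset = (dmL φ).toFinset ×ˢ range 4 := by ext ⟨a, b⟩; simp
  have hv : ∀ z ∈ dmL φ ×ˢ List.range 4, min (bpV φ z) ((4 * dmR φ + 9) ^ 9) = gjV (dmE φ) (dmS φ) (dmR φ) z :=
    fun z hz => by
      rw [bpV_eq]
      refine min_eq_left (dig_lt _ 9 _ fun d _ => ?_).le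
      have := gjD_le (s := dmS φ) dmE_le (z := z) (by simpa using (List.mem_product.1 hz).1) d
      omega
  have hg : ∀ i < (dmL φ ×ˢ List.range 4).length, ((bpL φ).getD i []).length =
      gjV (dmE φ) (dmS φ) (dmR φ) ((dmL φ ×ˢ List.range 4).getD i ((0, 0, 0), 0)) := fun i hi => by
    rw [List.getD_eq_getElem _ _ hi, ← hv _ (List.getElem_mem _)]; simp [bpL, hi]
  have hs : ∀ g : T3 ℕ × ℕ → ℕ, ∀ g' : ℕ → ℕ, (∀ i < (dmL φ ×ˢ List.range 4).length,
      g' i = g ((dmL φ ×ˢ List.range 4).getD i ((0, 0, 0), 0))) → ∀ b,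
      ∑ i ∈ (range (bpL φ).length).filter (g' · = b), ((bpL φ).getD i []).length =
      ∑ z ∈ ((dmL φ).toFinset ×ˢ range 4).filter (g · = b), gjV (dmE φ) (dmS φ) (dmR φ) z := fun g g' e b => by
    rw [← ht, ← pack_list hl ((0, 0, 0), 0), show (bpL φ).length = (dmL φ ×ˢ List.range 4).length by simp [bpL]]
    exact sum_congr (filter_congr fun i hi => by rw [e i (mem_range.1 hi)])
      fun i hi => hg i (mem_range.1 (mem_filter.1 hi).1)
  refine ⟨fun x hx => ?_, (dm_iff h).trans ⟨fun ⟨S, hS⟩ => ?_, fun ⟨g, g1, g2⟩ => ?_⟩⟩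
  · obtain ⟨z, hz, rfl⟩ := List.mem_map.1 hx
    rw [List.length_replicate, hv z hz, gjV, sum_range_succ]
    have : 9 ^ 8 ≤ (4 * dmR φ + 9) ^ 8 := Nat.pow_le_pow_left (by omega) 8
    simp only [gjD]; norm_num at this ⊢; omega
  · obtain ⟨g, g1, g2⟩ := gj_complete dmE_le (dm_flag h) hS
    refine ⟨fun i => (dmL φ).idxOf (g ((dmL φ ×ˢ List.range 4).getD i ((0, 0, 0), 0))), fun i hi => ?_, fun b hb => ?_⟩
    · replace hi : i < (dmL φ ×ˢ List.range 4).length := by simpa [bpL] using hi
      refine List.idxOf_lt_length_of_mem (List.mem_toFinset.1 (g1 _ ?_))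
      rw [← ht, List.getD_eq_getElem _ _ hi]; exact List.mem_toFinset.2 (List.getElem_mem _)
    · rw [hs (fun z => (dmL φ).idxOf (g z)) _ fun _ _ => rfl, bpB_eq,
        ← g2 (dmL φ)[b] (List.mem_toFinset.2 (List.getElem_mem _))]
      refine sum_congr (filter_congr fun z hz => ⟨fun e => ?_, fun e => ?_⟩) fun _ _ => rfl
      · subst e; exact (List.getElem_idxOf _).symm
      · rw [e]; exact (nodup_dmL φ).idxOf_getElem _ _
  · refine gj_sound dmE_le (dm_flag h) (g := fun z => g ((dmL φ ×ˢ List.range 4).idxOf z)) fun z hz => ?_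
    rw [← hs _ g fun i hi => by rw [List.getD_eq_getElem _ _ hi, hl.idxOf_getElem], ← bpB_eq]
    refine g2 _ (g1 _ ?_)
    simpa [bpL] using List.idxOf_lt_length_of_mem (List.mem_toFinset.1 (ht ▸ hz))

/-- NP-hardness by a reduction from bin packing with all numbers in unary. -/
theorem NPHard.of_bins {β : Type} [Enc β] {P : β → Prop} (f : List (List Unit) × List Unit × List Unit → β) (hf : PT f)
    (h : ∀ (L : List (List Unit)) (m B : List Unit), (∀ x ∈ L, 2 ≤ x.length) → 0 < m.length →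
      4 * m.length ≤ B.length → (L.map List.length).sum = m.length * B.length →
      (Pack (· = ·) (fun i => (L.getD i []).length) L.length m.length B.length → P (f (L, m, B))) ∧
      (P (f (L, m, B)) → Pack (· ≤ ·) (fun i => (L.getD i []).length) L.length m.length B.length)) : NPHard P := by
  refine NPHard.of_one3 (fun φ => f (bpOf φ)) (hf.comp PT.bpOf) fun φ hφ => ?_
  obtain ⟨h1, h2⟩ := bp_iff hφ
  unfold bpOf
  split_ifs with c1 c2
  · obtain rfl := List.length_eq_zero_iff.1 c1
    refine iff_of_true ⟨fun _ => true, by simp⟩ ((h _ _ _ (by simp) (by simp) (by simp) (by simp)).1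
      ⟨fun _ => 0, by simp, by simp⟩)
  · have h3 : (dmL φ).length = 9 * φ.length ^ 2 := by simp [dmL, List.length_product]; ring
    obtain ⟨h4, h5⟩ := h (bpL φ) (List.replicate (dmL φ).length ()) (List.replicate (bpB φ) ()) h1
      (by simp only [List.length_replicate, h3]; positivity)
      (by simp only [List.length_replicate, h3]
          have : 36 * φ.length ^ 2 ≤ dmR φ := by unfold dmR; nlinarith [Nat.zero_le φ.length]
          have : ∀ R r, r ≤ bpB' R r := fun R r => by
            rw [bpB', hor, hor, mul_add]; omega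
          have := this (dmR φ) (4 * dmR φ + 9)
          unfold bpB; omega) (by simpa using c2)
    simp only [List.length_replicate] at h4 h5
    exact h2.trans ⟨h4, fun p => (h5 p).eq (by rw [sum_len, c2])⟩
  · refine iff_of_false (fun p => c2 (by rw [← sum_len, (h2.1 p).total])) fun p => ?_
    obtain ⟨g, g1, g2⟩ := (h _ _ _ (by simp) (by simp) (by simp) (by simp)).2 p
    have := g2 _ (g1 0 (by simp))
    simp [filter_singleton] at this

end Pool.Agent.Lib.CX
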