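import Pool.Agent.Lib.lead.CXCook

/-! Polynomial-time determinants of integer matrices with positive leading minors (Bareiss), Gram determinants. -/

namespace Pool.Agent.Lib.helper22.CXDet

open Pool.Agent.Lib.CX

def dN {R : Type} [CommRing R] (n : ℕ) (f : ℕ → ℕ → R) : R := (Matrix.of fun i j : Fin n => f i j).det

def mn {R : Type} [CommRing R] (f : ℕ → ℕ → R) (k i j : ℕ) : R :=
  dN (k + 1) fun a b => f (if a < k then a else i + k) (if b < k then b else j + k)

def sch (f : ℕ → ℕ → ℚ) (i j : ℕ) : ℚ := f (i + 1) (j + 1) - f (i + 1) 0 * f 0 (j + 1) / f 0 0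

theorem dN_succ {f : ℕ → ℕ → ℚ} (h : f 0 0 ≠ 0) (n : ℕ) : dN (n + 1) f = f 0 0 * dN n (sch f) := by
  rw [dN, Matrix.det_eq_of_forall_row_eq_smul_add_const
    (B := Matrix.of fun i j : Fin (n + 1) => if i = 0 then f 0 j else f i j - f i 0 * f 0 j / f 0 0)
    (fun i => if i = 0 then 0 else f i 0 / f 0 0) 0 (by simp) fun i j => by
      by_cases e : i = 0 <;> simp [e]; ring, Matrix.det_succ_column_zero, Fin.sum_univ_succ]
  simp [h, dN, sch, Matrix.submatrix]

theorem mn_succ {f : ℕ → ℕ → ℚ} (h : f 0 0 ≠ 0) (k i j : ℕ) : mn f (k + 1) i j = f 0 0 * mn (sch f) k i j := by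
  rw [mn, dN_succ (by simpa)]
  simp only [mn, Nat.succ_pos, if_true]
  congr 2
  funext a b
  simp only [sch, Nat.succ_lt_succ_iff, Nat.succ_pos, if_true]
  split_ifs <;> rfl

theorem mn_zero {R : Type} [CommRing R] (f : ℕ → ℕ → R) (k : ℕ) : mn f k 0 0 = dN (k + 1) f := by
  unfold mn dN
  congr 1
  ext a b
  have := a.2
  have := b.2
  simp only [Matrix.of_apply]
  congr 1 <;> split_ifs <;> omega

theorem bar (k : ℕ) : ∀ f : ℕ → ℕ → ℚ, (∀ t ≤ k + 1, dN t f ≠ 0) → ∀ i j, dN k f * mn f (k + 1) i j =
    mn f k 0 0 * mn f k (i + 1) (j + 1) - mn f k (i + 1) 0 * mn f k 0 (j + 1) := by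
  induction k with
  | zero => intro f _ i j; simp [dN, mn, Matrix.det_fin_two, mul_comm]
  | succ k ih =>
    intro f h i j
    have h0 : f 0 0 ≠ 0 := by simpa [dN] using h 1 (by omega)
    simp only [dN_succ h0, mn_succ h0 (k + 1), mn_succ h0 k]
    have := ih (sch f) (fun t ht e => h (t + 1) (by omega) (by rw [dN_succ h0, e, mul_zero])) i j
    linear_combination f 0 0 ^ 2 * this

theorem barZ (k : ℕ) (f : ℕ → ℕ → ℤ) (h : ∀ t ≤ k + 1, dN t f ≠ 0) (i j) : dN k f * mn f (k + 1) i j =
    mn f k 0 0 * mn f k (i + 1) (j + 1) - mn f k (i + 1) 0 * mn f k 0 (j + 1) := by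
  have c : ∀ n (g : ℕ → ℕ → ℤ), ((dN n g : ℤ) : ℚ) = dN n fun i j => (g i j : ℚ) := fun n g => Int.cast_det _
  have := bar k (fun i j => f i j) (fun t ht => by rw [← c]; exact_mod_cast h t ht) i j
  simp only [mn, ← c] at this ⊢
  exact_mod_cast this

def en (T : List (List ℤ)) (i j : ℕ) : ℤ := (T.getD i []).getD j 0
def tb (n : ℕ) (f : ℕ → ℕ → ℤ) : List (List ℤ) := (List.range n).map fun i => (List.range n).map fun j => f i j
def cl (b : ℕ) (x : ℤ) : ℤ := if x.natAbs ≤ b then x else 0
def qd (x d : ℤ) : ℤ := if x < 0 then -((x.natAbs / d.natAbs : ℕ) : ℤ) else (x.natAbs / d.natAbs : ℕ)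
def bd (G : List (List ℤ)) : ℕ := (G.length * ((G.flatten.map Int.natAbs).sum + 1)) ^ G.length
def st (G : List (List ℤ)) (s : ℤ × List (List ℤ)) : ℤ × List (List ℤ) := (cl (bd G) (en s.2 0 0), tb G.length
  fun i j => cl (bd G) (qd (en s.2 0 0 * en s.2 (i + 1) (j + 1) - en s.2 (i + 1) 0 * en s.2 0 (j + 1)) s.1))
def pdet (G : List (List ℤ)) : ℤ := ((st G)^[G.length] (1, G)).1

theorem en_tb {n f i j} (hi : i < n) (hj : j < n) : en (tb n f) i j = f i j := by simp [en, tb, hi, hj]

theorem pt_pdet : PT pdet := by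
  have hb : PT bd := by unfold bd; fun_prop
  have c : ∀ b x, size (cl b x) ≤ size b + 5 := fun b x => by
    unfold cl
    split_ifs with h
    · have := size_nat_mono h; rw [size_int]; omega
    · exact le_add_self
  refine PT.fst (f := fun G => (st G)^[G.length] (1, G)) (PT.iterate
    (B := fun G => size G + 20 + (size (bd G) + 5) + (G.length * (G.length * (size (bd G) + 5 + 1) + 2 + 1) + 2))
    (by unfold st tb cl qd en; fun_prop) (by fun_prop) (by fun_prop) (by fun_prop) (by fun_prop) fun G k _ => ?_)
  cases k with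
  | zero => have : size (1 : ℤ) = 8 := rfl
            simp [size_pair, this]; omega
  | succ k =>
    rw [Function.iterate_succ_apply', st, size_pair]
    generalize (st G)^[k] (1, G) = s
    have := c (bd G) (en s.2 0 0)
    have := size_list_le (l := tb G.length fun i j => cl (bd G) (qd (en s.2 0 0 * en s.2 (i + 1) (j + 1) -
      en s.2 (i + 1) 0 * en s.2 0 (j + 1)) s.1)) (B := G.length * (size (bd G) + 5 + 1) + 2)
      (List.forall_mem_map.2 fun i _ => by
        simpa using size_list_le (B := size (bd G) + 5) (List.forall_mem_map.2 fun j (_ : j ∈ List.range G.length) => c _ _))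
    simp only [tb, List.length_map, List.length_range] at this ⊢
    omega

theorem pdet_eq (G : List (List ℤ)) (h : ∀ t ≤ G.length, 0 < dN t (en G)) : pdet G = dN G.length (en G) := by
  have b : ∀ i j, |en G i j| ≤ (G.flatten.map Int.natAbs).sum + 1 := fun i j => by
    rw [Int.abs_eq_natAbs]
    by_cases e : en G i j = 0
    · rw [e]; positivity
    have : en G i j ∈ G.flatten := by
      unfold en at *
      have a : j < (G.getD i []).length := by
        by_contra! k; exact e (List.getD_eq_default _ _ k)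
      have b : i < G.length := by
        by_contra! k; rw [List.getD_eq_default _ _ k] at a; simp at a
      rw [List.getD_eq_getElem _ _ a]
      exact List.mem_flatten.2 ⟨_, by rw [List.getD_eq_getElem _ _ b]; exact List.getElem_mem _, List.getElem_mem _⟩
    exact_mod_cast (List.le_sum_of_mem (List.mem_map_of_mem this)).trans (Nat.le_succ _)
  have c : ∀ k < G.length, ∀ i j, cl (bd G) (mn (en G) k i j) = mn (en G) k i j := fun k hk i j => if_pos (by
    have := Matrix.det_le (abv := AbsoluteValue.abs) (A := Matrix.of fun a b : Fin (k + 1) =>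
      en G (if a < k then a else i + k) (if b < k then b else j + k)) fun _ _ => b _ _
    simp only [AbsoluteValue.abs_apply, Fintype.card_fin, nsmul_eq_mul, Int.abs_eq_natAbs] at this
    refine le_trans (by exact_mod_cast this) (?_ : (k + 1).factorial * (_ + 1) ^ (k + 1) ≤ _)
    rw [bd, mul_pow]
    exact Nat.mul_le_mul ((Nat.factorial_le hk).trans (Nat.factorial_le_pow _)) (Nat.pow_le_pow_right (by omega) hk))
  have inv : ∀ k ≤ G.length, ((st G)^[k] (1, G)).1 = dN k (en G) ∧
      ∀ i j, i + k < G.length → j + k < G.length → en ((st G)^[k] (1, G)).2 i j = mn (en G) k i j := fun k => by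
    induction k with
    | zero => simp [dN, mn]
    | succ k ih =>
      intro hk
      obtain ⟨a1, a2⟩ := ih (by omega)
      rw [Function.iterate_succ_apply', st, a2 0 0 (by omega) (by omega), c k hk, mn_zero]
      refine ⟨rfl, fun i j hi hj => ?_⟩
      rw [en_tb (by omega) (by omega), a2 _ _ (by omega) (by omega), a2 _ _ (by omega) (by omega),
        a2 _ _ (by omega) (by omega), ← mn_zero, ← barZ k _ fun t ht => (h t (by omega)).ne', a1, ← c (k + 1) (by omega) i j]
      congr 1
      have := h k (by omega)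
      rw [c (k + 1) (by omega), qd, Int.natAbs_mul, Nat.mul_div_cancel_left _ (by omega)]
      split_ifs with e
      · have := neg_of_mul_neg_right e this.le
        omega
      · have := nonneg_of_mul_nonneg_right (not_lt.1 e) this
        omega
  exact (inv _ le_rfl).1

/-- the squared determinant of a square integer matrix -/
def gdet (A : List (List ℤ)) : ℤ :=
  pdet (tb A.length fun i j => ((List.range A.length).map fun t => en A i t * en A j t).sum)

theorem pt_gdet : PT gdet := by
  have := pt_pdet
  unfold gdet tb en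
  fun_prop

theorem gdet_eq (A : List (List ℤ)) (h : dN A.length (en A) ≠ 0) : gdet A = dN A.length (en A) ^ 2 := by
  let M : Matrix (Fin A.length) (Fin A.length) ℤ := .of fun i j => en A i j
  have l : ∀ f, (tb A.length f).length = A.length := by simp [tb]
  have e : ∀ t, ∀ ht : t ≤ A.length, dN t (en (tb A.length fun i j => ((List.range A.length).map fun t =>
      en A i t * en A j t).sum)) = ((M * M.transpose).submatrix (Fin.castLE ht) (Fin.castLE ht)).det := fun t ht => by
    unfold dN
    congr 1
    ext i j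
    simp [en_tb (i.2.trans_le ht) (j.2.trans_le ht), Matrix.mul_apply, M, ← Finset.sum_range fun t =>
      en A i t * en A j t]
    rfl
  rw [gdet, pdet_eq _ fun t ht => ?_, l, e _ le_rfl]
  · simp [sq, M, dN]
  rw [l] at ht
  have p := (Matrix.PosDef.mul_conjTranspose_self (M.map (Int.cast : ℤ → ℝ)) (Matrix.vecMul_injective_iff_isUnit.2
    ((Matrix.isUnit_iff_isUnit_det _).2 (by rw [← Int.cast_det]; simpa [M, ← dN.eq_1] using h)))).submatrix
      (Fin.castLE_injective ht) |>.det_pos
  rw [e t ht, ← Int.cast_pos (R := ℝ), Int.cast_det]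
  refine p.trans_eq (congrArg _ ?_)
  ext i j
  simp [Matrix.mul_apply]

end Pool.Agent.Lib.helper22.CXDet
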