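import Pool.Agent.Lib.lead.CXDefs

/-! First-order formulas without quantifiers over the ordered field of real numbers, as inputs. -/

namespace Pool.Agent.Lib.ER

open Pool.Agent.Lib.CX

/-- polynomial expressions with integer constants in the variables `0, 1, 2, …` -/
inductive Tm
  | var (i : ℕ)
  | num (c : ℤ)
  | add (s t : Tm)
  | mul (s t : Tm)

/-- the real value of an expression -/
def Tm.eval (x : ℕ → ℝ) : Tm → ℝ
  | var i => x i
  | num c => c
  | add s t => s.eval x + t.eval x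
  | mul s t => s.eval x * t.eval x

/-- Boolean combinations of polynomial equations and inequalities -/
inductive Fm
  | eq (s t : Tm)
  | lt (s t : Tm)
  | le (s t : Tm)
  | not (f : Fm)
  | and (f g : Fm)
  | or (f g : Fm)

/-- truth of a formula at a real point -/
def Fm.Holds (x : ℕ → ℝ) : Fm → Prop
  | eq s t => s.eval x = t.eval x
  | lt s t => s.eval x < t.eval x
  | le s t => s.eval x ≤ t.eval x
  | not f => ¬f.Holds x
  | and f g => f.Holds x ∧ g.Holds x
  | or f g => f.Holds x ∨ g.Holds x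

/-- the symbols of an expression in Polish order -/
def Tm.toks : Tm → List (ℕ × ℤ)
  | var i => [(0, i)]
  | num c => [(1, c)]
  | add s t => (2, 0) :: (s.toks ++ t.toks)
  | mul s t => (3, 0) :: (s.toks ++ t.toks)

/-- the symbols of a formula in Polish order -/
def Fm.toks : Fm → List (ℕ × ℤ)
  | eq s t => (4, 0) :: (s.toks ++ t.toks)
  | lt s t => (5, 0) :: (s.toks ++ t.toks)
  | le s t => (6, 0) :: (s.toks ++ t.toks)
  | not f => (7, 0) :: f.toks
  | and f g => (8, 0) :: (f.toks ++ g.toks)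
  | or f g => (9, 0) :: (f.toks ++ g.toks)

theorem Tm.toks_append (f : Tm) : ∀ (g : Tm) (x y : List (ℕ × ℤ)), f.toks ++ x = g.toks ++ y → f = g ∧ x = y := by
  induction f with
  | var n => intro g x y h; cases g <;> simp_all [toks]
  | num n => intro g x y h; cases g <;> simp_all [toks]
  | add f f' ih ih' =>
    intro g x y h
    cases g <;> simp [toks] at h
    obtain ⟨rfl, h2⟩ := ih _ _ _ h
    obtain ⟨rfl, rfl⟩ := ih' _ _ _ h2
    exact ⟨rfl, rfl⟩
  | mul f f' ih ih' =>
    intro g x y h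
    cases g <;> simp [toks] at h
    obtain ⟨rfl, h2⟩ := ih _ _ _ h
    obtain ⟨rfl, rfl⟩ := ih' _ _ _ h2
    exact ⟨rfl, rfl⟩

theorem Fm.toks_append (f : Fm) : ∀ (g : Fm) (x y : List (ℕ × ℤ)), f.toks ++ x = g.toks ++ y → f = g ∧ x = y := by
  induction f with
  | eq s t =>
    intro g x y h
    cases g <;> simp [toks] at h
    obtain ⟨rfl, h2⟩ := Tm.toks_append _ _ _ _ h
    obtain ⟨rfl, rfl⟩ := Tm.toks_append _ _ _ _ h2
    exact ⟨rfl, rfl⟩
  | lt s t =>
    intro g x y h
    cases g <;> simp [toks] at h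
    obtain ⟨rfl, h2⟩ := Tm.toks_append _ _ _ _ h
    obtain ⟨rfl, rfl⟩ := Tm.toks_append _ _ _ _ h2
    exact ⟨rfl, rfl⟩
  | le s t =>
    intro g x y h
    cases g <;> simp [toks] at h
    obtain ⟨rfl, h2⟩ := Tm.toks_append _ _ _ _ h
    obtain ⟨rfl, rfl⟩ := Tm.toks_append _ _ _ _ h2
    exact ⟨rfl, rfl⟩
  | not f ih =>
    intro g x y h
    cases g <;> simp [toks] at h
    obtain ⟨rfl, rfl⟩ := ih _ _ _ h
    exact ⟨rfl, rfl⟩
  | and f f' ih ih' =>
    intro g x y h
    cases g <;> simp [toks] at h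
    obtain ⟨rfl, h2⟩ := ih _ _ _ h
    obtain ⟨rfl, rfl⟩ := ih' _ _ _ h2
    exact ⟨rfl, rfl⟩
  | or f f' ih ih' =>
    intro g x y h
    cases g <;> simp [toks] at h
    obtain ⟨rfl, h2⟩ := ih _ _ _ h
    obtain ⟨rfl, rfl⟩ := ih' _ _ _ h2
    exact ⟨rfl, rfl⟩

/-- a formula is encoded as its list of symbols -/
instance : Enc Fm := ⟨fun f => Enc.tr f.toks, fun f g h =>
  (Fm.toks_append f g [] [] (by rw [Enc.inj h])).1⟩

/-- the existential theory of the reals: all variables are quantified existentially -/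
def ETR (f : Fm) : Prop := ∃ x : ℕ → ℝ, f.Holds x

/-- sentences `∀ x_0 … x_{k-1} ∃ x_k … f`, with `k` in unary -/
def AETR (a : List Unit × Fm) : Prop :=
  ∀ u : ℕ → ℝ, ∃ x : ℕ → ℝ, (∀ i < a.1.length, x i = u i) ∧ a.2.Holds x

end Pool.Agent.Lib.ER
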