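import Pool.Agent.Lib.lead.CXCook

/-! Pruning: an NP-hard problem whose instances fall into few chains, with polynomial-time comparison, gives P = NP. -/

namespace Pool.Agent.Lib.helper22.CXPrune

open Pool.Agent.Lib.CX

theorem red_any {α β : Type} [Enc α] [Dec α] [Enc β] {B : β → Prop} (H : NPHard B) {A : α → Prop}
    (h : InNP A) : Red A B := by
  obtain ⟨q, V, hV, h⟩ := h
  refine Red.trans ⟨enc, PT.id.enc, fun a => ⟨fun h => ⟨a, rfl, h⟩, fun ⟨b, e, h⟩ => enc_inj e ▸ h⟩⟩
    (H (fun w => ∃ a, enc a = w ∧ A a) ?_)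
  refine InNP.of_cert' (fun w (c : α × List Bool) => enc c.1 = w ∧ c.2.length = q.eval (size c.1) ∧ V c = true)
    (i := fun _ _ => inferInstance) (fun w => w.length + 3 * q.eval w.length + 3) (by fun_prop) (by fun_prop)
    (fun w c hc => ⟨c.1, hc.1, (h _).2 ⟨c.2, hc.2⟩⟩) ?_
  rintro _ ⟨a, rfl, ha⟩
  obtain ⟨y, h1, h2⟩ := (h _).1 ha
  refine ⟨(a, y), ?_, rfl, h1, h2⟩
  rw [size_pair, size_bits, h1]
  simp only [size]
  omega

def ex (L : List (List Bool)) : List (List Bool) := L.flatMap fun w => [w ++ [false], w ++ [true]]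

def pr {γ : Type} (d : γ → ℕ) (c : γ → γ → Bool) (E : List γ) : List γ :=
  (E.map d).dedup.filterMap fun n => E.find? fun w => d w == n && E.all fun v => !(d v == n) || c w v

theorem pr_spec {γ : Type} {d : γ → ℕ} {c : γ → γ → Bool} {t : γ → ℝ} (h : ∀ x y, c x y ↔ t x ≤ t y) (E : List γ) :
    (∀ w ∈ pr d c E, w ∈ E) ∧ (∀ v ∈ E, ∃ w ∈ pr d c E, d w = d v ∧ t w ≤ t v) ∧
      ∀ D, (∀ v ∈ E, d v ≤ D) → (pr d c E).length ≤ D + 1 := by
  refine ⟨fun w hw => ?_, fun v hv => ?_, fun D hD => (List.length_filterMap_le _ _).trans ?_⟩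
  · obtain ⟨n, -, e⟩ := List.mem_filterMap.1 hw
    exact List.mem_of_find?_eq_some e
  · obtain ⟨u, u1, u2⟩ := Set.exists_min_image {u | u ∈ E ∧ d u = d v} t
      (E.finite_toSet.subset fun _ h => h.1) ⟨v, hv, rfl⟩
    obtain ⟨w, hw⟩ := Option.isSome_iff_exists.1 ((List.find?_isSome
      (p := fun w => d w == d v && E.all fun x => !(d x == d v) || c w x)).2 ⟨u, u1.1, by
      simpa [u1.2, h, or_iff_not_imp_left] using fun x a b => u2 x ⟨a, b⟩⟩)
    have := List.find?_some hw
    simp only [Bool.and_eq_true, beq_iff_eq, List.all_eq_true] at this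
    exact ⟨w, List.mem_filterMap.2 ⟨d v, by simpa using ⟨v, hv, rfl⟩, hw⟩, this.1, by simpa [h] using this.2 v hv⟩
  · simpa using (List.subperm_of_subset (l₂ := List.range (D + 1)) (List.nodup_dedup (E.map d)) fun n hn => by
      obtain ⟨v, hv, rfl⟩ := List.mem_map.1 (List.mem_dedup.1 hn)
      simpa [Nat.lt_succ_iff] using hD v hv).length_le

theorem prune {β : Type} [Enc β] {B : β → Prop} {d : β → ℕ} (hd : PT d) (hb : PB d) (t : β → ℝ)
    {c : β × β → Bool} (hc : PT c) (h1 : ∀ x y, c (x, y) ↔ t x ≤ t y)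
    (h2 : ∀ x y, d x = d y → t x ≤ t y → B y → B x) (H : NPHard B) (A : List Bool → Prop) (hA : InNP A) :
    InP A := by
  obtain ⟨q, V, hV, hA⟩ := hA
  let A' (p : List Bool × List Bool) : Prop := ∃ y, (p.2 ++ y).length = q.eval (size p.1) ∧ V (p.1, p.2 ++ y)
  obtain ⟨g, hg, e⟩ := red_any H (A := A') (InNP.of_cert' (fun p y => (p.2 ++ y).length = q.eval (size p.1) ∧
    V (p.1, p.2 ++ y)) (i := fun _ _ => inferInstance) (fun p => 3 * q.eval (size p.1) + 2) (by fun_prop)
    (by fun_prop) (fun _ y h => ⟨y, h⟩) fun p ⟨y, h⟩ => ⟨y, by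
      have := h.1; rw [size_bits]; simp at this; omega, h⟩)
  obtain ⟨r, hr⟩ := hb.comp hg
  let F (a : List Bool) (L : List (List Bool)) := pr (fun w => d (g (a, w))) (fun w v => c (g (a, w), g (a, v))) (ex L)
  have inv : ∀ a, ∀ k ≤ q.eval (size a), (∀ w ∈ (F a)^[k] [[]], w.length = k) ∧
      ((∃ w ∈ (F a)^[k] [[]], A' (a, w)) ↔ A' (a, [])) ∧
      ((F a)^[k] [[]]).length ≤ r.eval (size a + 3 * q.eval (size a) + 3) + 1 := fun a k => by
    induction k with
    | zero => simp
    | succ k ih =>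
      intro hk
      obtain ⟨i1, i2, -⟩ := ih (by omega)
      rw [Function.iterate_succ_apply']
      generalize (F a)^[k] [[]] = L at *
      obtain ⟨p1, p2, p3⟩ := pr_spec (d := fun w => d (g (a, w))) (t := fun w => t (g (a, w)))
        (fun x y => h1 (g (a, x)) (g (a, y))) (ex L)
      have l : ∀ w ∈ ex L, w.length = k + 1 := by
        simp only [ex, List.forall_mem_flatMap, List.forall_mem_cons]
        exact fun w h => by simp [i1 w h]
      refine ⟨fun w h => l w (p1 w h), Iff.trans ⟨?_, ?_⟩ i2, p3 _ fun v hv => (hr _).trans (eval_mono r ?_)⟩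
      · rintro ⟨w, a1, y, a2⟩
        obtain ⟨v, b1, b2⟩ := List.mem_flatMap.1 (p1 w a1)
        simp only [List.mem_cons, List.not_mem_nil, or_false] at b2
        obtain rfl | rfl := b2 <;> exact ⟨v, b1, _ :: y, by rwa [List.append_assoc] at a2⟩
      · rintro ⟨w, a1, y, a2⟩
        cases y with
        | nil => simp [i1 w a1] at a2; omega
        | cons b y =>
          obtain ⟨v, b1, b2, b3⟩ := p2 (w ++ [b]) (List.mem_flatMap.2 ⟨w, a1, by cases b <;> simp⟩)
          exact ⟨v, b1, (e _).2 (h2 _ _ b2 b3 ((e _).1 ⟨y, by simpa using a2⟩))⟩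
      · rw [size_pair, size_bits v, l v hv]; omega
  have s := PB.size' (α := List Bool)
  have pt : PT fun a => (F a)^[q.eval (size a)] [[]] := PT.iterate (B := fun a =>
    (r.eval (size a + 3 * q.eval (size a) + 3) + 1) * (3 * q.eval (size a) + 2 + 1) + 2)
    (by unfold F pr ex; fun_prop) (by fun_prop) (by fun_prop) (by fun_prop) (by fun_prop) fun a k hk =>
      (size_list_le (B := 3 * q.eval (size a) + 2) fun w hw => by
        rw [size_bits, (inv a k hk).1 w hw]; omega).trans (by gcongr; exact (inv a k hk).2.2)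
  refine ⟨fun a => ((F a)^[q.eval (size a)] [[]]).any fun w => V (a, w), by fun_prop, fun a => ?_⟩
  obtain ⟨i1, i2, -⟩ := inv a _ le_rfl
  rw [hA, List.any_eq_true]
  refine Iff.trans (Iff.trans (by simp [A']) i2.symm) (exists_congr fun w => and_congr_right fun hw => ?_)
  refine ⟨fun ⟨y, a1, a2⟩ => ?_, fun h => ⟨[], by simpa using ⟨i1 w hw, h⟩⟩⟩
  obtain rfl : y = [] := by simpa [i1 w hw] using a1
  simpa using a2

end Pool.Agent.Lib.helper22.CXPrune
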