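import Pool.Agent.Lib.helper22.Weak

namespace Pool.Agent.Lib.helper22.Conv

open Filter Topology OnePoint

abbrev K : Type := OnePoint ℕ
abbrev c : Type := C(K, ℝ)

noncomputable def ev (k : K) : c →L[ℝ] ℝ := ContinuousMap.evalCLM ℝ k

theorem ev_app (k : K) (z : c) : ev k z = z k := rfl

theorem co (z : c) (k : K) : |z k| ≤ ‖z‖ := z.norm_coe_le_norm k

theorem nle (z : c) {r : ℝ} (h : ∀ k, |z k| ≤ r) : ‖z‖ ≤ r :=
  (z.norm_le ((abs_nonneg _).trans (h ∞))).2 h

theorem lim (z : c) : Tendsto (fun n : ℕ => z n) atTop (𝓝 (z ∞)) := by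
  rw [← Nat.cofinite_eq_atTop, ← cocompact_eq_cofinite, ← coclosedCompact_eq_cocompact]
  exact (z.continuous.tendsto ∞).comp tendsto_coe_infty

noncomputable def u (n : ℕ) : c := continuousMapMkNat (fun k => if k = n then 1 else 0) 0
  (tendsto_const_nhds.congr' ((eventually_ne_atTop n).mono fun _ h => (if_neg h).symm))

theorem u_nat (n k : ℕ) : u n k = if k = n then 1 else 0 := rfl

theorem u_self (n : ℕ) : u n n = 1 := if_pos rfl

theorem u_ne {n : ℕ} {k : K} (h : k ≠ n) : u n k = 0 := by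
  induction k using OnePoint.rec with
  | infty => rfl
  | coe k => exact if_neg fun e => h (congrArg _ e)

theorem u_inf (n : ℕ) : u n ∞ = 0 := rfl

noncomputable def ε : c := continuousMapMkNat (fun n => 1 / ((n : ℝ) + 1)) 0
  tendsto_one_div_add_atTop_nhds_zero_nat

theorem ε_nat (n : ℕ) : ε n = 1 / ((n : ℝ) + 1) := rfl
theorem ε_inf : ε ∞ = 0 := rfl

theorem ε_pos (n : ℕ) : 0 < ε n := by rw [ε_nat]; positivity

theorem ε_bd (k : K) : 0 ≤ ε k ∧ ε k ≤ 1 := by
  induction k using OnePoint.rec with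
  | infty => exact ⟨le_rfl, zero_le_one⟩
  | coe k => exact ⟨(ε_pos k).le, div_le_one_of_le₀ (by simp) (by positivity)⟩

theorem wn {Y : Type*} [NormedAddCommGroup Y] [NormedSpace ℝ Y] (T : c →L[ℝ] Y) (a : ℕ → ℝ)
    (C : ℝ) (h : ∀ n, |a n| ≤ C) (y : Y) (f : Y →L[ℝ] ℝ) :
    Tendsto (fun n => f (y + T (a n • u n))) atTop (𝓝 (f y)) := by
  have := Weak.wnull (fun n => a n • u n) C (fun s => nle _ fun k => ?_) (f ∘L T)
  · simpa only [map_add, add_zero, ContinuousLinearMap.comp_apply] using this.const_add (f y)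
  rw [← ev_app, map_sum]
  induction k using OnePoint.rec with
  | infty => simpa [ev_app, u_inf] using (abs_nonneg _).trans (h 0)
  | coe k =>
    simp only [_root_.map_smul, ev_app, u_nat, smul_eq_mul, mul_ite, mul_one, mul_zero,
      Finset.sum_ite_eq]
    split_ifs
    · exact h k
    · simpa using (abs_nonneg _).trans (h 0)

end Pool.Agent.Lib.helper22.Conv
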