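import Mathlib
import Pool.Agent.Lib.helper22.Heis

namespace Pool.Agent.Lib.FE

open Pool.Agent.Lib.H10 Subgroup
open FreeGroup hiding map_mul map_one map_inv

variable {α : Type}

/-- three elements of a free group whose squares multiply to one lie in a cyclic subgroup -/
theorem lyn {u v w : FreeGroup α} (h : u ^ 2 * v ^ 2 * w ^ 2 = 1) : ∃ t, u ∈ zpowers t ∧ v ∈ zpowers t ∧ w ∈ zpowers t := by
  classical
  let H := closure ({u, v, w} : Set (FreeGroup α))
  let u' : H := ⟨u, subset_closure (by simp)⟩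
  let v' : H := ⟨v, subset_closure (by simp)⟩
  let w' : H := ⟨w, subset_closure (by simp)⟩
  have h' : u' ^ 2 * v' ^ 2 * w' ^ 2 = 1 := Subtype.ext h
  rcases subsingleton_or_nontrivial (IsFreeGroup.Generators H) with hs | ⟨e1, e2, he⟩
  · have : IsCyclic H := by
      rcases isEmpty_or_nonempty (IsFreeGroup.Generators H) with he | ⟨⟨e⟩⟩
      · exact isCyclic_of_surjective _ (IsFreeGroup.mulEquiv H).surjective
      · have := uniqueOfSubsingleton e
        exact isCyclic_of_surjective _ (IsFreeGroup.mulEquiv H).surjective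
    obtain ⟨t, ht⟩ := this.exists_generator
    have : ∀ g : H, g.1 ∈ zpowers t.1 := fun g => (ht g).elim fun k hk => ⟨k, by simp [← hk]⟩
    exact ⟨t, this u', this v', this w'⟩
  · exfalso
    let P : (IsFreeGroup.Generators H → ZMod 2) → H →* Multiplicative (ZMod 2) := fun f => IsFreeGroup.lift fun x => .ofAdd (f x)
    have inj : ∀ f g, P f u' = P g u' → P f v' = P g v' → P f w' = P g w' → f = g := fun f g a b c => by
      have : P f = P g := MonoidHom.eq_of_eqOn_dense closure_closure_coe_preimage (by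
        rintro k (h | h | h)
        exacts [(Subtype.ext h : k = u') ▸ a, (Subtype.ext h : k = v') ▸ b, (Subtype.ext h : k = w') ▸ c])
      ext x
      simpa [P] using DFunLike.congr_fun this (IsFreeGroup.of x)
    have iso : ∀ f g, (P f u').toAdd * (P g u').toAdd + (P f v').toAdd * (P g v').toAdd + (P f w').toAdd * (P g w').toAdd = 0 := fun f g => by
      let ρ : H →* He (LinearMap.mul ℤ (ZMod 2)) := IsFreeGroup.lift fun x => ⟨f x, g x, 0⟩
      have h1 : ∀ k, (P f k).toAdd = (ρ k).x := fun k => congrArg Multiplicative.toAdd (DFunLike.congr_fun (IsFreeGroup.ext_hom (f := P f)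
        (g := (MonoidHom.mk' (fun a : He _ => Multiplicative.ofAdd a.x) fun _ _ => rfl).comp ρ) (by simp [P, ρ])) k)
      have h2 : ∀ k, (P g k).toAdd = (ρ k).y := fun k => congrArg Multiplicative.toAdd (DFunLike.congr_fun (IsFreeGroup.ext_hom (f := P g)
        (g := (MonoidHom.mk' (fun a : He _ => Multiplicative.ofAdd a.y) fun _ _ => rfl).comp ρ) (by simp [P, ρ])) k)
      have := congrArg (fun k => (ρ k).z) h'
      simp only [h1, h2, pow_two, map_mul, map_one, He.mul_x, He.mul_y, He.mul_z, He.one_z, CharTwo.add_self_eq_zero, LinearMap.mul_apply',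
        zero_add, add_zero, mul_zero] at this ⊢
      exact this
    have key : ∀ a b c x y z : ZMod 2, a * a + b * b + c * c = 0 → x * x + y * y + z * z = 0 → a * x + b * y + c * z = 0 →
      (a = 0 ∧ b = 0 ∧ c = 0) ∨ (x = 0 ∧ y = 0 ∧ z = 0) ∨ (a = x ∧ b = y ∧ c = z) := by decide
    have P0 : ∀ k, P 0 k = 1 := fun k => DFunLike.congr_fun (IsFreeGroup.ext_hom (f := P 0) (g := 1) (by simp [P])) k
    rcases key _ _ _ _ _ _ (iso (Pi.single e1 1) _) (iso (Pi.single e2 1) _) (iso _ _) with ⟨a, b, c⟩ | ⟨a, b, c⟩ | ⟨a, b, c⟩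
    · simpa using congrFun (inj _ 0 (a.trans (P0 _).symm) (b.trans (P0 _).symm) (c.trans (P0 _).symm)) e1
    · simpa using congrFun (inj _ 0 (a.trans (P0 _).symm) (b.trans (P0 _).symm) (c.trans (P0 _).symm)) e2
    · simpa [he] using congrFun (inj _ _ a b c) e1

theorem mk_cons (x : α × Bool) (l : List (α × Bool)) : FreeGroup.mk (x :: l) = .mk [x] * .mk l := rfl

variable [DecidableEq α]

/-- exponent sum of a generator -/
def ex (a : α) : FreeGroup α →* Multiplicative ℤ := lift fun x => .ofAdd (if x = a then 1 else 0)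

/-- the retraction killing the generators in `D` -/
def kl (D : α → Bool) : FreeGroup α →* FreeGroup α := lift fun x => if D x then 1 else of x

theorem zpow_inj (a : α) {m n : ℤ} (h : of a ^ m = of a ^ n) : m = n := by
  simpa [ex] using congrArg (fun g => (ex a g).toAdd) h

theorem cent {a : α} {x : FreeGroup α} (h : x * of a = of a * x) : ∃ k : ℤ, x = of a ^ k := by
  obtain ⟨t, ⟨k, rfl⟩, ⟨m, hm⟩, -⟩ := lyn (u := x) (v := of a) (w := (x * of a)⁻¹) (by
    rw [inv_pow, Commute.mul_pow h, mul_inv_cancel])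
  have : m * (ex a t).toAdd = 1 := by simpa [ex] using congrArg (fun g => (ex a g).toAdd) hm
  refine ⟨(ex a t).toAdd * k, ?_⟩
  rw [← hm, ← zpow_mul, ← mul_assoc, this, one_mul]

theorem sep {d : α} {p q : FreeGroup α} (r : FreeGroup α →* FreeGroup α) (hd : r (of d) = 1) (hp : r p = p) (hq : r q = q)
    (h : p * of d * q = of d) : p = 1 ∧ q = 1 := by
  have h1 : p * q = 1 := by simpa [hd, hp, hq] using congrArg r h
  obtain rfl := eq_inv_of_mul_eq_one_right h1
  obtain ⟨k, rfl⟩ := cent (mul_inv_eq_iff_eq_mul.1 h)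
  have : of d ^ k = 1 := by simpa [hd] using hp.symm
  simp [this]

/-- one equation equivalent to two -/
theorem malcev {a b : α} (hab : a ≠ b) (x y : FreeGroup α) :
    (x * of a) ^ 2 * (of a)⁻¹ ^ 2 * ((y * of b) ^ 2 * (of b)⁻¹ ^ 2)⁻¹ ^ 2 = 1 ↔ x = 1 ∧ y = 1 := by
  refine ⟨fun h => ?_, by rintro ⟨rfl, rfl⟩; simp⟩
  have cm : ∀ {u v w : FreeGroup α}, u ^ 2 * v ^ 2 * w ^ 2 = 1 → Commute u v ∧ Commute v w ∧ u * v * w = 1 := fun h => by
    obtain ⟨t, ⟨i, rfl⟩, ⟨j, rfl⟩, k, rfl⟩ := lyn h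
    refine ⟨Commute.zpow_zpow_self .., Commute.zpow_zpow_self .., ?_⟩
    rw [← (Commute.zpow_zpow_self ..).mul_pow, ← Commute.mul_pow (by rw [← zpow_add]; exact Commute.zpow_zpow_self ..)] at h
    exact pow_left_injective two_ne_zero (h.trans (one_pow 2).symm)
  obtain ⟨h1, -, h2⟩ := cm h
  obtain ⟨m, hm⟩ := cent (Commute.inv_right_iff.1 h1).eq
  rw [mul_inv_eq_one, mul_inv_cancel_right] at h2
  obtain ⟨j, hj⟩ : ∃ j : ℤ, x = (of a ^ j) ^ 2 := by
    have hx : x = of a ^ (m - 1) := by rw [zpow_sub_one, ← hm, mul_inv_cancel_right]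
    have := congrArg (fun g => (ex a g).toAdd) (hx.symm.trans h2)
    simp [ex, hab.symm] at this
    refine ⟨(ex a y).toAdd, ?_⟩
    rw [hx, this, ← zpow_natCast, ← zpow_mul, mul_comm]
    rfl
  obtain ⟨-, h3, h4⟩ := cm (u := y * of b) (v := (of b)⁻¹) (w := (of a ^ j)⁻¹) (by rw [← h2, hj, inv_pow, mul_inv_cancel])
  obtain ⟨k, hk⟩ := cent (Commute.inv_inv_iff.1 h3).symm.eq
  have : j = 0 := by simpa [ex, hab.symm] using congrArg (ex a) hk
  subst this
  simpa [hj] using h4

theorem fix_inv (D : α → Bool) {g : FreeGroup α} (h : lift (fun x => if D x then (of x)⁻¹ else of x) g = g) : kl D g = g := by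
  have e : ∀ L : List (α × Bool), lift (fun x => if D x then (of x)⁻¹ else of x) (mk L) = mk (L.map fun p => (p.1, xor (D p.1) p.2)) := fun L => by
    induction L with
    | nil => rfl
    | cons p L ih =>
      rw [List.map_cons, mk_cons p, mk_cons (_, _) (L.map _), map_mul, ih]
      obtain ⟨x, s⟩ := p
      cases s <;> cases z : D x <;> simp [z] <;> rfl
  have r : IsReduced (g.toWord.map fun p => (p.1, xor (D p.1) p.2)) :=
    (List.isChain_map _).2 (isReduced_toWord.imp fun a b h k => by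
      dsimp only at k ⊢
      rw [h k, k])
  rw [← mk_toWord (x := g), e] at h
  have h := congrArg toWord h
  rw [toWord_mk, r.reduce_eq, mk_toWord] at h
  have h : ∀ p ∈ g.toWord, D p.1 = false := fun p hp => by
    obtain ⟨i, hi, rfl⟩ := List.getElem_of_mem hp
    have := congrArg (·[i]?) h
    simp only [List.getElem?_map, List.getElem?_eq_getElem hi, Option.map_some, Option.some.injEq, Prod.ext_iff] at this
    revert this
    cases D _ <;> simp
  rw [← mk_toWord (x := g)]
  generalize g.toWord = L at h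
  induction L with
  | nil => rfl
  | cons p L ih =>
    rw [mk_cons p, map_mul, ih fun q hq => h q (.tail _ hq)]
    obtain ⟨x, s⟩ := p
    have : D x = false := h _ (.head _)
    cases s <;> simp [kl, this] <;> rfl

/-- twisted conjugacy of `s h` and `e h` for a letter `h` fixed by `θ` and absent from `s`, `e` -/
theorem orbit {h : α} (θ : MulAut (FreeGroup α)) (hh : θ (of h) = of h) (hθ : ∀ x, x ≠ h → kl (· = h) (θ (of x)) = θ (of x))
    {s e Z : FreeGroup α} (hs : kl (· = h) s = s) (he : kl (· = h) e = e) (H : s * of h * θ Z = Z * e * of h) : ∃ k : ℤ, e = (θ ^ k) s := by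
  classical
  let σ : FreeGroup α × ℤ × ℤ → FreeGroup α × ℤ × ℤ := fun p => if p.2.2 = 1 ∧ p.1 = 1 then ((θ ^ (p.2.1 - 1)) s⁻¹, p.2.1 - 1, 0)
    else if p.2.2 = 0 ∧ p.1 = (θ ^ p.2.1) s⁻¹ then (1, p.2.1 + 1, 1) else p
  have hσ : Function.Involutive σ := fun ⟨x, k, n⟩ => by
    by_cases a : n = 1 ∧ x = 1
    · simp [σ, a]
    · by_cases b : n = 0 ∧ x = (θ ^ k) s⁻¹
      · simp [σ, b]
      · simp only [σ, if_neg a, if_neg b]
  let X : Equiv.Perm (FreeGroup α × ℤ × ℤ) := hσ.toPerm * Equiv.prodCongr (.refl _) (.prodCongr (.refl _) (.addRight 1))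
  let T : Equiv.Perm (FreeGroup α × ℤ × ℤ) := Equiv.prodCongr θ.toEquiv (.prodCongr (.addRight 1) (.refl _))
  let L : FreeGroup α →* Equiv.Perm (FreeGroup α × ℤ × ℤ) :=
    .mk' (fun g => Equiv.prodCongr (.mulLeft g) (.refl _)) fun a b => by ext1 ⟨x, k⟩; simp [mul_assoc]
  let π : FreeGroup α →* Equiv.Perm (FreeGroup α × ℤ × ℤ) := lift fun x => if x = h then X else L (of x)
  have h1 : ∀ g, kl (· = h) g = g → π g = L g := fun g hg => by
    rw [← hg]
    exact DFunLike.congr_fun (show π.comp (kl (· = h)) = L.comp (kl (· = h)) from by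
      ext1 x
      by_cases z : x = h <;> simp [π, kl, z]) g
  have h2 : π (of h) = X := by simp [π]
  have hT : ∀ x k n, T (x, k, n) = (θ x, k + 1, n) := fun _ _ _ => rfl
  have hX : ∀ x k n, X (x, k, n) = σ (x, k, n + 1) := fun _ _ _ => rfl
  have hL : ∀ g x k, L g (x, k) = (g * x, k) := fun _ _ _ => rfl
  have hp : ∀ (k : ℤ) x, (θ ^ (k + 1)) x = θ ((θ ^ k) x) := fun k x => by rw [add_comm, zpow_add, zpow_one]; rfl
  have h3 : ∀ g, π (θ g) = T * π g * T⁻¹ := fun g => DFunLike.congr_fun (show π.comp θ.toMonoidHom = (MulAut.conj T).toMonoidHom.comp π from by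
    ext1 x
    change π (θ (of x)) = T * π (of x) * T⁻¹
    rw [eq_mul_inv_iff_mul_eq]
    ext1 ⟨y, k, n⟩
    by_cases z : x = h
    · simp only [z, hh, h2, Equiv.Perm.mul_apply, hT, hX, σ, hp, map_eq_one_iff θ θ.injective, θ.injective.eq_iff]
      split_ifs <;> simp [hT, ← hp]
    · simp [h1 _ (hθ x z), π, z, hT, hL]) g
  have h4 := congrArg (fun g => π g * T) H
  simp only [map_mul, h1 _ hs, h1 _ he, h2, h3, mul_assoc, inv_mul_cancel, mul_one] at h4
  rcases z : (π Z).symm (1, 0, 0) with ⟨x, k, n⟩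
  have h5 := congrArg (· (x, k, n)) h4
  have h6 : π Z (x, k, n) = (1, 0, 0) := by rw [← z, Equiv.apply_symm_apply]
  simp only [Equiv.Perm.mul_apply, h6, hT, hX] at h5
  rw [show L s (σ (θ 1, 0 + 1, 0 + 1)) = π Z (x, k, n) by simp [σ, hL, h6], (π Z).injective.eq_iff] at h5
  simp only [σ] at h5
  split_ifs at h5 with a b <;> simp only [hL, Prod.mk.injEq] at h5
  · refine ⟨k, ?_⟩
    rw [(map_eq_one_iff θ θ.injective).1 a.2, add_sub_cancel_right, map_inv] at h5
    exact mul_inv_eq_one.1 h5.1.symm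
  all_goals omega

theorem orbit' {G : Type} [Group G] {h : G} (θ : MulAut G) (hh : θ h = h) (s : G) (k : ℤ) : ∃ Z, s * h * θ Z = Z * (θ ^ k) s * h := by
  have hp : ∀ (k : ℤ) x, (θ ^ (k + 1)) x = θ ((θ ^ k) x) := fun k x => by rw [add_comm, zpow_add, zpow_one]; rfl
  induction k with
  | zero => exact ⟨1, by simp⟩
  | succ k ih => exact ih.elim fun Z hZ => ⟨Z * (θ ^ (k : ℤ)) s * h, by rw [map_mul, map_mul, hh, hp, ← mul_assoc, ← mul_assoc, hZ]⟩
  | pred k ih => exact ih.elim fun Z hZ => ⟨Z * ((θ ^ (-(k : ℤ) - 1)) s * h)⁻¹, by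
      rw [map_mul, map_inv, map_mul, hh, ← hp, sub_add_cancel, ← mul_assoc, hZ]
      group⟩

end Pool.Agent.Lib.FE
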