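import Mathlib
import Pool.Agent.Lib.helper22.H10b

namespace Pool.Agent.Lib.H10

open MvPolynomial

/-- Hilbert's tenth problem: one integer polynomial with a parameter whose solvability in naturals is undecidable -/
theorem h10 : ∃ (k : ℕ) (Q : MvPolynomial (Unit ⊕ Fin k) ℤ),
    ¬ ComputablePred fun n : ℕ => ∃ t : Fin k → ℕ, eval (Sum.elim (fun _ => (n : ℤ)) fun i => t i) Q = 0 := by
  obtain ⟨S, hS, β, p, hp⟩ := exists_dioph
  obtain ⟨P, hP⟩ : ∃ P : MvPolynomial (Unit ⊕ β) ℤ, ∀ v, p v = eval (fun i => (v i : ℤ)) P := by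
    clear hp
    induction p using Poly.induction with
    | H1 i => exact ⟨X i, by simp⟩
    | H2 n => exact ⟨C n, by simp⟩
    | H3 f g i j => obtain ⟨a, h⟩ := i; obtain ⟨b, k⟩ := j; exact ⟨a - b, by simp [h, k]⟩
    | H4 f g i j => obtain ⟨a, h⟩ := i; obtain ⟨b, k⟩ := j; exact ⟨a * b, by simp [h, k]⟩
  obtain ⟨k, f, hf, q, rfl⟩ := exists_fin_rename P
  refine ⟨k, rename (fun i => (f i).map id fun _ => i) q, ?_⟩
  convert hS using 3 with n
  refine Iff.trans ?_ (hp fun _ => n).symm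
  simp only [hP, eval_rename]
  refine ⟨fun ⟨t, h⟩ => ⟨fun b => Function.extend f t 0 (.inr b), ?_⟩, fun ⟨t, h⟩ => ⟨fun i => Sum.elim (fun _ => n) t (f i), ?_⟩⟩
  all_goals
    convert h using 3
    ext i
    rcases e : f i with _ | b <;> simp [e]
  rw [← e, hf.extend_apply]

end Pool.Agent.Lib.H10
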