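import Pool.Agent.Lib.helper21.Clone2
import Pool.Agent.Lib.helper21.RE
/-! A calculus of conditional complexity with logarithmic precision. -/
namespace Pool.Agent.Lib.AK
open Filter Encodable Pool.Agent.H.MP_d04dff_lc Pool.Agent.Lib.helper21.KC Pool.Agent.Lib.helper21.PR
attribute [local irreducible] Primrec Computable

variable {α β γ δ : Type} [Primcodable α] [Primcodable β] [Primcodable γ] [Primcodable δ]

theorem sig_of {p : α → Prop} (h : RE fun a => pw (p a)) : Sig p := by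
  obtain ⟨N, h1, h2, -, h3⟩ := re_bool h.re
  exact ⟨fun a t => N a t = true, pred (p := fun z : α × ℕ => N z.1 z.2 = true) (by fun_prop),
    fun a => ⟨h3 a, fun ⟨t, ht⟩ => h2 a t ht⟩⟩
theorem re_of {p : α → Prop} (h : Sig p) : RE fun a => pw (p a) :=
  let ⟨q, h1, h2⟩ := h
  RE.mk ((re_ex (R := q) (helper21.PR.dec h1)).of_eq fun a => (h2 a).symm)

@[fun_prop] theorem r_many {R : α → β → Prop} {n : α → ℕ} (h : RE fun z : α × β => pw (R z.1 z.2)) (hn : Primrec n) :
    RE fun a => pw (Many (n a) (R a)) := re_of ((sig_of h).many hn)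

theorem unif {R : α → β → Prop} (h : RE fun z : α × β => pw (R z.1 z.2)) : ∃ G : α → β → Prop,
    RE (fun z : α × β => G z.1 z.2) ∧ (∀ a b, G a b → R a b) ∧ (∀ a b b', G a b → G a b' → b = b') ∧
      ∀ a b, R a b → ∃ b', G a b' := by
  obtain ⟨f, h1, h2, h3⟩ := (sig_of h).unif
  exact ⟨fun a b => b ∈ f a, RE.un (r_graph h1).re, h2, fun _ _ _ => Part.mem_unique, h3⟩

def cs (a : α) : Str := List.replicate (encode a) true
theorem cs_inj {a b : α} (h : cs a = cs b) : a = b := encode_injective (by simpa [cs] using congrArg List.length h)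
@[fun_prop] theorem p_cs {f : α → β} (hf : Primrec f) : Primrec fun a => cs (f a) := by unfold cs; fun_prop
@[fun_prop] theorem p_lg {f : α → ℕ} (hf : Primrec f) : Primrec fun a => lg (f a) := by
  have : ∀ n, lg n = (List.range n).countP (fun k => decide (2 ^ (k + 1) ≤ n)) + 1 := fun n => by
    rw [lg, List.countP_eq_length_filter, ← List.toFinset_card_of_nodup (List.nodup_range.filter _),
      ← Finset.card_range (Nat.log 2 n)]
    congr 2
    ext k
    rcases eq_or_ne n 0 with rfl | h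
    · simp
    simp only [Finset.mem_range, List.toFinset_filter, Finset.mem_filter, List.mem_toFinset, List.mem_range,
      decide_eq_true_eq, ← Nat.le_log_iff_pow_le one_lt_two h]
    have := Nat.log_lt_self 2 h
    omega
  simp only [this]; fun_prop

variable (U : Str → Str →. Str)
/-- conditional complexity of coded objects -/
noncomputable def C (v : β) (u : α) : ℕ := K (fun p => U p (cs u)) (cs v)
def CL (v : β) (u : α) (k : ℕ) : Prop := C U v u ≤ k
variable {U} [hU : Fact (OptC U)]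

theorem spec (u v : Str) : ∃ q, v ∈ U q u ∧ q.length = K (fun p => U p u) v :=
  let ⟨_, hb⟩ := baseC hU.out
  let ⟨_, h, _⟩ := hb u v
  K_spec (D := fun p => U p u) h

@[fun_prop] theorem r_CL {v : γ → β} {u : γ → α} {k : γ → ℕ} (hv : Primrec v) (hu : Primrec u) (hk : Primrec k) :
    RE fun a => pw (CL U (v a) (u a) (k a)) := by
  obtain ⟨W, hW, e⟩ : ∃ W : (Str × Str) × Str → Prop, RE W ∧ W = fun z => z.2 ∈ U z.1.1 z.1.2 :=
    ⟨_, RE.un (r_graph (M := fun z : Str × Str => U z.1 z.2) hU.out.1).re, rfl⟩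
  refine RE.of_eq (p := fun a => ∃ p : Str, W ((p, cs (u a)), cs (v a)) ∧ p.length ≤ k a) (by fun_prop) fun a => ?_
  subst e
  refine ⟨fun ⟨_, h1, h2⟩ => (K_le (D := fun p => U p _) h1).trans h2, fun h => ?_⟩
  obtain ⟨q, h1, h2⟩ := spec (U := U) (cs (u a)) (cs (v a))
  exact ⟨q, h1, h2.trans_le h⟩

theorem fewC (u : α) (n : ℕ) : ¬Many (2 ^ (n + 1)) fun v : β => CL U v u n := fun h => by
  obtain ⟨F, h1, h2⟩ := h.rel (q := fun s => ∃ p, s ∈ U p (cs u) ∧ p.length ≤ n) (fun v s => s = cs v)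
    (fun v hv => let ⟨q, a, b⟩ := spec (U := U) (cs u) (cs v); ⟨_, rfl, q, a, b.trans_le hv⟩)
    fun _ _ _ _ _ a b => cs_inj (a.symm.trans b)
  exact (few (D := fun p => U p (cs u)) F h2).not_ge h1

theorem conv {f g : Str → Str} (hf : Computable f) (hg : Computable g) :
    ∃ c, ∀ u v, K (fun p => U p u) (f v) ≤ K (fun p => U p (g u)) v + c := by
  obtain ⟨c, hc⟩ := hU.out.2 (fun p y => (U p (g y)).map f)
    ((hU.out.1.comp Computable.fst (hg.comp Computable.snd)).map (hf.comp Computable.snd).to₂)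
  refine ⟨c, fun u v => ?_⟩
  obtain ⟨q, h1, h2⟩ := spec (U := U) (g u) v
  exact h2 ▸ (hc u).le (Part.mem_map f h1)

attribute [local irreducible] H.MP_d04dff_lc.dec
@[fun_prop] theorem p_dec {f : α → Str} (hf : Primrec f) : Primrec fun a => dec (f a) := dec_prim.comp hf
@[fun_prop] theorem p_val {f : α → Str} (hf : Primrec f) : Primrec fun a => val (f a) := val_prim.comp hf

theorem cnt0 {R : γ → α → β → Prop} (hR : RE fun z : γ × α × β => pw (R z.1 z.2.1 z.2.2)) : ∃ c, ∀ a u v l,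
    R a u v → ¬Many (2 ^ l + 1) (R a u) → C U v u ≤ l + 2 * lg (encode a) + c := by
  replace hR := RE.un hR.re
  obtain ⟨en, he⟩ := Sig.enum (R := fun (z : γ × α) v => R z.1 z.2 v) (sig_of (by fun_prop))
  have h0 : Primrec fun z : (γ × α) × ℕ => en z.1 z.2 := he.prim
  obtain ⟨M, h2, h3, h4⟩ := Sig.unif (R := fun (p : Str × Str) (s : Str) => ∃ a u v t, encode a = (dec p.1).1 ∧
    p.2 = cs u ∧ s = cs v ∧ (en (a, u) t)[val (dec p.1).2]? = some v) (sig_of (by fun_prop))
  obtain ⟨c, hc⟩ := hU.out.2 (fun p y => M (p, y)) h2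
  refine ⟨c + 1, fun a u v l h5 h6 => ?_⟩
  obtain ⟨j, hj, t, ht⟩ := he.idx (a := (a, u)) h5 h6
  obtain ⟨w, hw, rfl⟩ := val_surj l j hj
  obtain ⟨p, e1, l1⟩ := dec_surj (encode a) w
  obtain ⟨v', hv⟩ := h4 (p, cs u) _ ⟨a, u, v, t, by simp [e1], rfl, rfl, by simpa [e1] using ht⟩
  obtain ⟨a', u', v', t', h7, h8, rfl, h9⟩ := h3 _ _ hv
  simp only [e1, encode_inj] at h7 h9
  obtain rfl := cs_inj h8
  subst h7
  obtain rfl := (he.get ht h9).1
  have := (hc (cs u)).le hv
  unfold C lg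
  omega

variable {I : Type} (N : I → ℕ)
/-- a property that holds with logarithmic error -/
def Ev (P : I → ℕ → Prop) : Prop := ∀ᶠ c in atTop, ∀ i, P i (c * lg (N i))
abbrev Le (f g : I → ℕ) : Prop := Ev N fun i e => f i ≤ g i + e
variable {N}
abbrev Fam (I : Type) := I → ℕ
abbrev Mc := Str → Str →. Str
/-- polynomially bounded parameters -/
@[fun_prop] def Sm (N : Fam I) (f : I → γ) : Prop := Le N (fun i => lg (encode (f i))) 0

theorem Ev.mul {P : I → ℕ → Prop} (k : ℕ) (h : ∀ᶠ c in atTop, ∀ i, ∀ e, k * (c * lg (N i)) ≤ e → P i e) : Ev N P :=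
  let ⟨c, hc⟩ := h.exists
  eventually_atTop.2 ⟨k * c, fun _ h i => hc i _ (by rw [← mul_assoc]; exact Nat.mul_le_mul_right _ h)⟩
theorem Le.mul {f g : I → ℕ} (k : ℕ) (h : ∀ᶠ c in atTop, ∀ i, f i ≤ g i + k * (c * lg (N i))) : Le N f g :=
  Ev.mul k (h.mono fun _ h i _ e => (h i).trans (by omega))
theorem ev_ge (N : I → ℕ) (k : ℕ) : Ev N fun i e => k ≤ e ∧ lg (N i) ≤ e :=
  eventually_atTop.2 ⟨k + 1, fun c h i => by have := lg_pos (N i); constructor <;> nlinarith⟩
theorem Le.of_const {f g : I → ℕ} (h : ∃ c, ∀ i, f i ≤ g i + c) : Le N f g :=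
  let ⟨c, hc⟩ := h
  (ev_ge N c).mono fun _ h i => (hc i).trans (by have := h i; omega)

theorem lg_le_iff {x k : ℕ} : lg x ≤ k + 1 ↔ x < 2 ^ (k + 1) := by
  rcases eq_or_ne x 0 with rfl | h
  · simp [lg]
  rw [lg, ← Nat.log_lt_iff_lt_pow one_lt_two h]; omega
theorem lg_of {x k : ℕ} (h : x < 2 ^ k) : lg x ≤ k + 1 := lg_of_lt h
theorem lg_mono {x y : ℕ} (h : x ≤ y) : lg x ≤ lg y := Nat.succ_le_succ (Nat.log_mono_right h)
theorem lg_mul (x y : ℕ) : lg (x * y) ≤ lg x + lg y + 1 :=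
  lg_of (by rw [pow_add]; exact Nat.mul_lt_mul'' (lt_lg x) (lt_lg y))
theorem lg_add (x y : ℕ) : lg (x + y) ≤ lg x + lg y + 1 := lg_of (by
  rw [pow_add]
  have := lt_lg x
  have := lt_lg y
  have := Nat.pow_le_pow_right two_pos (lg_pos x)
  have := Nat.pow_le_pow_right two_pos (lg_pos y)
  nlinarith)

theorem Sm.of_le {f g : I → ℕ} (h : Le N f g) (hg : Sm N g) : Sm N f := by
  obtain ⟨c, hc⟩ := h.exists
  refine .mul 4 ?_
  filter_upwards [hg, ev_ge N (c + 4)] with e h1 h2 i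
  have := h1 i
  have := h2 i
  have := lg_mono (hc i)
  have := lg_add (g i) (c * lg (N i))
  have := lg_mul c (lg (N i))
  have := lg_le c
  have := lg_le (lg (N i))
  simp only [encode_nat, Pi.zero_apply] at *
  omega
theorem Sm.mono {f g : I → ℕ} (hg : Sm N g) (h : ∀ i, f i ≤ g i) : Sm N f := .of_le (.of_const ⟨0, h⟩) hg
theorem Sm.lg {f : I → ℕ} (h : Sm N f) : Le N (fun i => lg (f i)) 0 := h
@[fun_prop] theorem sm_const (a : γ) : Sm N fun _ => a := .of_const ⟨_, fun _ => le_add_self⟩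
theorem sm_N : Sm N N := (ev_ge N 0).mono fun _ h i => by simpa using (h i).2
@[fun_prop] theorem sm_add {f g : I → ℕ} (hf : Sm N f) (hg : Sm N g) : Sm N fun i => f i + g i := .mul 3 (by
  filter_upwards [hf.lg, hg.lg, ev_ge N 1] with e h1 h2 h3 i
  have := h1 i; have := h2 i; have := h3 i; have := lg_add (f i) (g i)
  simp only [encode_nat, Pi.zero_apply] at *; omega)
@[fun_prop] theorem sm_mul {f g : I → ℕ} (hf : Sm N f) (hg : Sm N g) : Sm N fun i => f i * g i := .mul 3 (by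
  filter_upwards [hf.lg, hg.lg, ev_ge N 1] with e h1 h2 h3 i
  have := h1 i; have := h2 i; have := h3 i; have := lg_mul (f i) (g i)
  simp only [encode_nat, Pi.zero_apply] at *; omega)
@[fun_prop] theorem sm_sub {f g : I → ℕ} (hf : Sm N f) : Sm N fun i => f i - g i := hf.mono fun _ => Nat.sub_le _ _
@[fun_prop] theorem sm_lg {f : I → ℕ} (hf : Sm N f) : Sm N fun i => lg (f i) :=
  (sm_add hf (sm_const 1)).mono fun _ => lg_le _
@[fun_prop] theorem sm_min {f g : I → ℕ} (hf : Sm N f) : Sm N fun i => min (f i) (g i) := hf.mono fun _ => min_le_left _ _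
@[fun_prop] theorem sm_pair {f : I → α} {g : I → β} (hf : Sm N f) (hg : Sm N g) : Sm N fun i => (f i, g i) := by
  have h : Sm N fun i => encode (f i) + encode (g i) + 1 := sm_add (sm_add hf hg) (sm_const 1)
  refine Sm.mono (sm_mul h h) (f := fun i => encode (f i, g i)) fun i => ?_
  have := Nat.pair_lt_max_add_one_sq (encode (f i)) (encode (g i))
  have := Nat.pow_le_pow_left (show max (encode (f i)) (encode (g i)) + 1 ≤ encode (f i) + encode (g i) + 1 by omega) 2
  rw [encode_prod_val]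
  nlinarith

variable {a : I → γ} {u : I → α} {v : I → β} {w : I → δ} {l : I → ℕ}

theorem cnt {R : γ → α → β → Prop} (hR : RE fun z : γ × α × β => pw (R z.1 z.2.1 z.2.2)) (ha : Sm N a)
    (h : ∀ i, R (a i) (u i) (v i)) (hl : ∀ i, ¬Many (2 ^ l i + 1) (R (a i) (u i))) :
    Le N (fun i => C U (v i) (u i)) l := by
  obtain ⟨c, hc⟩ := cnt0 (U := U) hR
  refine .mul 3 ?_
  filter_upwards [ha, ev_ge N c] with e h1 h2 i
  have := hc _ _ _ _ (h i) (hl i)
  have := h1 i
  have := h2 i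
  simp only [Pi.zero_apply] at *
  omega

omit [Primcodable β] in
theorem nm_one {p : β → Prop} (h : ∀ b b', p b → p b' → b = b') : ¬Many (2 ^ 0 + 1) p := fun ⟨F, h1, h2⟩ =>
  absurd (Finset.card_le_one.2 fun a ha b hb => h a b (h2 a ha) (h2 b hb)) (by omega)

theorem uniq {R : γ → α → β → Prop} (hR : RE fun z : γ × α × β => pw (R z.1 z.2.1 z.2.2)) (ha : Sm N a)
    (h : ∀ i, R (a i) (u i) (v i)) (hl : ∀ i b b', R (a i) (u i) b → R (a i) (u i) b' → b = b') :
    Le N (fun i => C U (v i) (u i)) 0 := cnt hR ha h fun i => nm_one (hl i)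

theorem fn (f : γ → α → β) (hf : Primrec fun z : γ × α => f z.1 z.2) (ha : Sm N a) (h : ∀ i, v i = f (a i) (u i)) :
    Le N (fun i => C U (v i) (u i)) 0 :=
  uniq (R := fun a u v => v = f a u) (by fun_prop) ha h fun _ _ _ e e' => e.trans e'.symm

theorem pick {R : γ → α → β → Prop} (hR : RE fun z : γ × α × β => pw (R z.1 z.2.1 z.2.2)) (ha : Sm N a)
    (h : ∀ i, ∃ v, R (a i) (u i) v) : ∃ v : I → β, (∀ i, R (a i) (u i) (v i)) ∧ Le N (fun i => C U (v i) (u i)) 0 := by
  replace hR := RE.un hR.re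
  obtain ⟨G, h1, h2, h3, h4⟩ := unif (R := fun (z : γ × α) v => R z.1 z.2 v) (by fun_prop)
  choose v hv using fun i => (h i).elim (h4 (a i, u i))
  exact ⟨v, fun i => h2 _ _ (hv i), uniq (R := fun a u v => G (a, u) v) (by fun_prop) ha hv fun _ => h3 _⟩

omit [Primcodable β] [Primcodable γ] in
theorem nm_ex {n m : ℕ} {q : γ → Prop} {r : γ → β → Prop} (h1 : ¬Many n q) (h2 : ∀ v, q v → ¬Many m (r v)) :
    ¬Many (n * m + 1) fun w => ∃ v, q v ∧ r v w := fun h =>
  not_many_mul (p := fun z : γ × β => q z.1 ∧ r z.1 z.2) Prod.fst (fun k => h1 (k.mono (Nat.le_succ _) fun _ => id))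
    (fun _ h => h.1) (fun v k => by
      obtain ⟨z, hz, rfl⟩ := k.ex (Nat.succ_pos _)
      exact h2 _ hz.1 ((k.rel (fun z w => z.2 = w) (fun z hz => ⟨_, rfl, hz.2 ▸ hz.1.2⟩) fun z z' _ a b c d =>
        Prod.ext (a.2.trans b.2.symm) (c.trans d.symm)).mono (Nat.le_succ _) fun _ => id))
    (h.rel (fun w z => z.2 = w) (fun w ⟨v, h⟩ => ⟨(v, w), rfl, h⟩) fun _ _ _ _ _ a b => a.symm.trans b)

omit [Primcodable β] [Primcodable γ] in
theorem _root_.Pool.Agent.Lib.helper21.KC.Many.fib {n m : ℕ} {q : γ → Prop} {p : β → Prop} (h : Many n q)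
    (r : γ → β → Prop) (h1 : ∀ u, q u → Many m fun w => p w ∧ r u w)
    (h2 : ∀ u u' w, q u → q u' → r u w → r u' w → u = u') : Many (n * m) p := by
  classical
  obtain ⟨F, h3, h4⟩ := h
  choose! G hG using h1
  refine ⟨F.biUnion G, ?_, fun b hb => ?_⟩
  · rw [Finset.card_biUnion fun u hu u' hu' e => Finset.disjoint_left.2 fun w a b =>
      e (h2 _ _ w (h4 u hu) (h4 u' hu') ((hG u (h4 u hu)).2 w a).2 ((hG u' (h4 u' hu')).2 w b).2)]
    exact (Nat.mul_le_mul_right m h3).trans (Finset.card_nsmul_le_sum F _ m fun u hu => (hG u (h4 u hu)).1)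
  · obtain ⟨u, hu, hb⟩ := Finset.mem_biUnion.1 hb
    exact ((hG u (h4 u hu)).2 b hb).1

omit [Primcodable β] [Primcodable γ] in
theorem nm_div {k m : ℕ} {q : γ → Prop} {p : β → Prop} (h : ¬Many (2 ^ k) p)
    (r : γ → β → Prop) (h1 : ∀ u, q u → Many (2 ^ m) fun w => p w ∧ r u w)
    (h2 : ∀ u u' w, q u → q u' → r u w → r u' w → u = u') : ¬Many (2 ^ (k - m) + 1) q := fun e =>
  h ((e.fib r h1 h2).mono (by
    rw [add_mul, ← pow_add]
    exact (Nat.pow_le_pow_right two_pos (by omega)).trans (Nat.le_add_right _ _)) fun _ => id)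

/-- triangle inequality -/
theorem tri (h1 : Sm N fun i => C U (v i) (u i)) (h2 : Sm N fun i => C U (w i) (v i)) :
    Le N (fun i => C U (w i) (u i)) fun i => C U (v i) (u i) + C U (w i) (v i) := by
  have := cnt (U := U) (R := fun (a : ℕ × ℕ) (u : α) (w : δ) => ∃ v : β, CL U v u a.1 ∧ CL U w v a.2) (by fun_prop)
    (sm_pair h1 h2) (fun i => ⟨v i, le_rfl, le_rfl⟩) (l := fun i => C U (v i) (u i) + 1 + (C U (w i) (v i) + 1))
    fun i => by rw [pow_add]; exact nm_ex (fewC _ _) fun _ _ => fewC _ _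
  refine .mul 2 ?_
  filter_upwards [this, ev_ge N 2] with e h1 h2 i
  have := h1 i; have := h2 i; omega

/-- images -/
theorem img (f : γ → α → β → δ) (hf : Primrec fun z : γ × α × β => f z.1 z.2.1 z.2.2) (ha : Sm N a)
    (h1 : Sm N fun i => C U (v i) (u i)) (h : ∀ i, w i = f (a i) (u i) (v i)) :
    Le N (fun i => C U (w i) (u i)) fun i => C U (v i) (u i) := by
  have := cnt (U := U) (R := fun (a : γ × ℕ) (u : α) (w : δ) => ∃ v : β, CL U v u a.2 ∧ w = f a.1 u v) (by fun_prop)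
    (sm_pair ha h1) (fun i => ⟨v i, le_rfl, h i⟩) (l := fun i => C U (v i) (u i) + 1 + 1)
    fun i => by
      rw [pow_succ]
      exact nm_ex (fewC _ _) fun _ _ => nm_one fun _ _ e e' => e.trans e'.symm
  refine .mul 2 ?_
  filter_upwards [this, ev_ge N 2] with e h1 h2 i
  have := h1 i; have := h2 i; omega

theorem Le.sm {f : I → ℕ} (h : Le N f 0) : Sm N f := .of_le h (sm_const 0)

/-- a stronger condition -/
theorem weak {u' : I → γ} (h : Le N (fun i => C U (u i) (u' i)) 0) (h2 : Sm N fun i => C U (w i) (u i)) :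
    Le N (fun i => C U (w i) (u' i)) fun i => C U (w i) (u i) := by
  refine .mul 2 ?_
  filter_upwards [tri h.sm h2, h] with e h1 h2 i
  have := h1 i; have := h2 i; simp only [Pi.zero_apply] at *; omega

theorem wk {u' : I → γ} (f : γ → α) (hf : Primrec f) (h : ∀ i, u i = f (u' i)) (h2 : Sm N fun i => C U (w i) (u i)) :
    Le N (fun i => C U (w i) (u' i)) fun i => C U (w i) (u i) :=
  weak (fn (a := fun _ => ()) (fun _ => f) (by fun_prop) (sm_const _) h) h2

/-- objects of polynomial complexity -/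
@[fun_prop] def Pl (U : Mc) (N : Fam I) (v : I → β) : Prop := Sm N fun i => C U (v i) ()
@[fun_prop] theorem Pl.sm (h : Pl U N v) : Sm N fun i => C U (v i) (u i) :=
  .of_le (wk (fun _ => ()) (by fun_prop) (fun _ => rfl) h) h
theorem Pl.of (h : Pl U N u) (h' : Sm N fun i => C U (v i) (u i)) : Pl U N v := .of_le (tri h h') (sm_add h h')
theorem Pl.of0 (h : Pl U N u) (h' : Le N (fun i => C U (v i) (u i)) 0) : Pl U N v := h.of h'.sm
theorem Pl.map (h : Pl U N u) (f : α → β) (hf : Primrec f) (e : ∀ i, v i = f (u i)) : Pl U N v :=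
  h.of0 (fn (a := fun _ => ()) (fun _ => f) (by fun_prop) (sm_const _) e)
theorem Sm.le0 (h : Sm N a) : Le N (fun i => C U (a i) (u i)) 0 := fn (fun a _ => a) (by fun_prop) h fun _ => rfl
theorem Sm.pl (h : Sm N a) : Pl U N a := h.le0.sm

/-- chain rule, easy half -/
theorem chain (h1 : Sm N fun i => C U (v i) (u i)) (h2 : Sm N fun i => C U (w i) (u i, v i)) :
    Le N (fun i => C U (v i, w i) (u i)) fun i => C U (v i) (u i) + C U (w i) (u i, v i) := by
  have k1 := img (U := U) (fun (_ : Unit) u v => (u, v)) (by fun_prop) (sm_const ()) h1 fun _ => rfl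
  have k2 := img (U := U) (fun (_ : Unit) (u : α × β) w => (u.2, w)) (by fun_prop) (sm_const ()) h2 fun _ => rfl
  refine .mul 3 ?_
  filter_upwards [k1, k2, tri (.of_le k1 h1) (.of_le k2 h2)] with e h1 h2 h3 i
  have := h1 i; have := h2 i; have := h3 i; omega
@[fun_prop] theorem Pl.pair (h1 : Pl U N v) (h2 : Pl U N w) : Pl U N fun i => (v i, w i) :=
  .of_le (chain h1 h2.sm) (sm_add h1 h2.sm)

/-- chain rule, symmetry of information -/
theorem sym (h : Sm N fun i => C U (v i, w i) (u i)) :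
    Le N (fun i => C U (v i) (u i) + C U (w i) (u i, v i)) fun i => C U (v i, w i) (u i) := by
  have f : ∀ i v', ¬Many (2 ^ (C U (v i, w i) (u i) + 1)) fun w' : δ => CL U (v', w') (u i) (C U (v i, w i) (u i)) :=
    fun i v' k => fewC (u i) _ (k.rel (fun w' (z : β × δ) => z = (v', w')) (fun _ h => ⟨_, rfl, h⟩)
      fun _ _ _ _ _ a b => (Prod.ext_iff.1 (a.symm.trans b)).2)
  choose k h1 h2 h3 using fun i => exlog (p := fun w' : δ => CL U (v i, w') (u i) (C U (v i, w i) (u i)))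
    (b := w i) le_rfl _ (f i (v i))
  have k1 := cnt (U := U) (R := fun (a : ℕ) (u : α × β) (w : δ) => CL U (u.2, w) u.1 a) (by fun_prop) h
    (u := fun i => (u i, v i)) (fun i => le_rfl) (l := fun i => k i + 1) fun i e => h3 i (e.mono (Nat.le_succ _) fun _ => id)
  have k2 := cnt (U := U) (R := fun (a : ℕ × ℕ) (u : α) (v : β) => Many (2 ^ a.2) fun w : δ => CL U (v, w) u a.1)
    (by fun_prop) (sm_pair h (h.mono h1)) h2 (l := fun i => C U (v i, w i) (u i) + 1 - k i) fun i =>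
      nm_div (fewC (u i) _) (fun v' (z : β × δ) => z.1 = v') (fun v' e => e.rel (fun w' z => z = (v', w'))
        (fun _ h => ⟨_, rfl, h, rfl⟩) fun _ _ _ _ _ a b => (Prod.ext_iff.1 (a.symm.trans b)).2)
        fun _ _ _ _ _ a b => a.symm.trans b
  refine .mul 3 ?_
  filter_upwards [k1, k2, ev_ge N 2] with e k1 k2 k3 i
  have := k1 i; have := k2 i; have := k3 i; have := h1 i; omega

end Pool.Agent.Lib.AK
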