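import Pool.Agent.Lib.helper22.KA
/-! Indices, prefixes of indices, dyadic blocks of enumerations. -/
namespace Pool.Agent.Lib.AK
open Filter Encodable Pool.Agent.H.MP_d04dff_lc Pool.Agent.Lib.helper21.KC Pool.Agent.Lib.helper21.PR
attribute [local irreducible] Primrec Computable

variable {α β γ δ : Type} [Primcodable α] [Primcodable β] [Primcodable γ] [Primcodable δ]

structure Idx (R : α → β → Prop) (Ix : α → ℕ → β → Prop) : Prop where
  re : RE fun z : α × ℕ × β => Ix z.1 z.2.1 z.2.2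
  sub : ∀ {a j b}, Ix a j b → R a b
  ex : ∀ {a b}, R a b → ∃ j, Ix a j b
  fn : ∀ {a j b b'}, Ix a j b → Ix a j b' → b = b'
  inj : ∀ {a j j' b}, Ix a j b → Ix a j' b → j = j'
  down : ∀ {a j j' b}, Ix a j b → j' ≤ j → ∃ b', Ix a j' b'

theorem idx {R : α → β → Prop} (h : RE fun z : α × β => pw (R z.1 z.2)) : ∃ Ix, Idx R Ix := by
  obtain ⟨en, he⟩ := (sig_of h).enum
  have h0 : Primrec fun z : α × ℕ => en z.1 z.2 := he.prim
  refine ⟨fun a j b => ∃ t, (en a t)[j]? = some b, RE.un (RE.re (by fun_prop)),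
    fun ⟨t, h⟩ => (he.mem _ _).2 ⟨t, List.mem_of_getElem? h⟩, fun h => ?_, fun ⟨_, h⟩ ⟨_, h'⟩ => (he.get h h').1,
    fun ⟨_, h⟩ ⟨_, h'⟩ => he.inj h h', fun ⟨t, h⟩ e => ⟨_, t, List.getElem?_eq_getElem
      (e.trans_lt (List.getElem?_eq_some_iff.1 h).1)⟩⟩
  obtain ⟨t, h⟩ := (he.mem _ _).1 h
  obtain ⟨j, h⟩ := List.getElem?_of_mem h
  exact ⟨j, t, h⟩

theorem nm_lt (n : ℕ) : ¬Many (n + 1) fun j => j < n := fun ⟨F, h1, h2⟩ => by
  have := Finset.card_le_card (show F ⊆ Finset.range n from fun j hj => Finset.mem_range.2 (h2 j hj))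
  simp at this; omega
theorem many_lt (n : ℕ) : Many n fun j => j < n := ⟨Finset.range n, by simp, by simp⟩
omit [Primcodable β] in
theorem nm_list {l : List β} {n : ℕ} (h : l.length ≤ n) : ¬Many (n + 1) fun v => v ∈ l := fun ⟨F, h1, h2⟩ => by
  classical
  have := (Finset.card_le_card (show F ⊆ l.toFinset from fun j hj => List.mem_toFinset.2 (h2 j hj))).trans
    l.toFinset_card_le
  omega
omit [Primcodable β] in
theorem many_list {l : List β} (h : l.Nodup) : Many l.length fun v => v ∈ l := by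
  classical
  exact ⟨l.toFinset, (List.toFinset_card_of_nodup h).ge, by simp⟩
omit [Primcodable β] in
theorem nm_up {p : β → Prop} {n m : ℕ} (h : ¬Many n p) (e : n ≤ m) : ¬Many m p := fun k => h (k.mono e fun _ => id)
theorem succ_le_pow (k : ℕ) : 2 ^ k + 1 ≤ 2 ^ (k + 1) := Nat.pow_lt_pow_right one_lt_two (by omega)

theorem Idx.lt {R : α → β → Prop} {Ix : α → ℕ → β → Prop} (h : Idx R Ix) {a j b n} (e : Ix a j b)
    (k : ¬Many n (R a)) : j + 1 < n := not_le.1 fun c =>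
  k (((many_lt (j + 1)).rel (Ix a) (fun _ l => let ⟨b, hb⟩ := h.down e (Nat.le_of_lt_succ l); ⟨b, hb, h.sub hb⟩)
    fun _ _ _ _ _ => h.inj).mono c fun _ => id)

theorem div_pow {x k : ℕ} (t : ℕ) (h : x < 2 ^ k) : x / 2 ^ t < 2 ^ (k - t) := by
  rw [Nat.div_lt_iff_lt_mul (by positivity), ← pow_add]
  exact h.trans_le (Nat.pow_le_pow_right two_pos (by omega))

theorem dyad : ∀ {k j J : ℕ}, j < J → J < 2 ^ k → ∃ l < k, j / 2 ^ l + 1 = J / 2 ^ l
  | 0, _, _, h1, h2 => by omega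
  | k + 1, j, J, h1, h2 => by
    by_cases c : j / 2 < J / 2
    · obtain ⟨l, h3, h4⟩ := dyad (k := k) c (by omega)
      exact ⟨l + 1, by omega, by simpa only [pow_succ', ← Nat.div_div_eq_div_mul] using h4⟩
    · exact ⟨0, by omega, by simp; omega⟩

structure Blocks (R : α → β → Prop) (Bk : α → ℕ → List β → Prop) (Nx : α → ℕ → List β → β → Prop) : Prop where
  re : RE fun z : α × ℕ × List β => Bk z.1 z.2.1 z.2.2
  re' : RE fun z : α × ℕ × List β × β => Nx z.1 z.2.1 z.2.2.1 z.2.2.2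
  nd : ∀ {a l B}, Bk a l B → B.Nodup
  len : ∀ {a l B}, Bk a l B → B.length = 2 ^ l
  sub : ∀ {a l B v}, Bk a l B → v ∈ B → R a v
  uq : ∀ {a l B B' v}, Bk a l B → Bk a l B' → v ∈ B → v ∈ B' → B = B'
  uq' : ∀ {a l B B' v}, Nx a l B v → Nx a l B' v → B = B'
  pig : ∀ {a k d} {P : β → Prop}, ¬Many (2 ^ k) (R a) → Many (2 ^ d) (fun v => R a v ∧ P v) →
    ∃ l < k, ∃ B, Bk a l B ∧ Many (2 ^ (d - lg k)) fun v => v ∈ B ∧ P v
  split : ∀ {a k v v'}, ¬Many (2 ^ k) (R a) → R a v → R a v' → v ≠ v' →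
    ∃ l < k, ∃ B, Bk a l B ∧ (v ∈ B ∧ Nx a l B v' ∨ v' ∈ B ∧ Nx a l B v)

theorem blocks {R : α → β → Prop} (h : RE fun z : α × β => pw (R z.1 z.2)) : ∃ Bk Nx, Blocks R Bk Nx := by
  obtain ⟨Ix, hI⟩ := idx h
  have hr := hI.re
  let Bl : α → ℕ → ℕ → List β → Prop := fun a l m B => B.length = 2 ^ l ∧
    ∀ i < 2 ^ l, ∃ v, B[i]? = some v ∧ Ix a (2 ^ l * m + i) v
  have b0 : RE fun z : α × ℕ × ℕ × List β => Bl z.1 z.2.1 z.2.2.1 z.2.2.2 := RE.un (RE.re (by unfold Bl; fun_prop))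
  have b1 : ∀ {a l m B B'}, Bl a l m B → Bl a l m B' → B = B' := fun {a l m B B'} h h' =>
    List.ext_getElem? fun i => by
      by_cases c : i < 2 ^ l
      · obtain ⟨v, e, f⟩ := h.2 i c
        obtain ⟨v', e', f'⟩ := h'.2 i c
        rw [e, e', hI.fn f f']
      · rw [List.getElem?_eq_none (by rw [h.1]; omega), List.getElem?_eq_none (by rw [h'.1]; omega)]
  have b2 : ∀ {a l m B v}, Bl a l m B → (v ∈ B ↔ ∃ j, Ix a j v ∧ j / 2 ^ l = m) := fun {a l m B v} h => by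
    refine ⟨fun k => ?_, fun ⟨j, k, e⟩ => ?_⟩
    · obtain ⟨i, k⟩ := List.getElem?_of_mem k
      have c := h.1 ▸ (List.getElem?_eq_some_iff.1 k).1
      obtain ⟨v', e, f⟩ := h.2 i c
      obtain rfl := Option.some.inj (k.symm.trans e)
      exact ⟨_, f, by rw [Nat.mul_add_div (by positivity), Nat.div_eq_of_lt c, add_zero]⟩
    · obtain ⟨v', e', f⟩ := h.2 (j % 2 ^ l) (Nat.mod_lt _ (by positivity))
      rw [← e, Nat.div_add_mod] at f
      exact hI.fn f k ▸ List.mem_of_getElem? e'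
  have b3 : ∀ {a l m J}, (∀ j < J, ∃ v, Ix a j v) → m + 1 = J / 2 ^ l → ∃ B, Bl a l m B := fun {a l m J} k e => by
    have := Nat.mul_div_le J (2 ^ l)
    rw [← e, mul_add] at this
    choose f hf using fun i : Fin (2 ^ l) => k (2 ^ l * m + i) (by have := i.2; omega)
    exact ⟨List.ofFn f, by simp, fun i hi => ⟨f ⟨i, hi⟩, by simp [hi], hf ⟨i, hi⟩⟩⟩
  have b4 : ∀ {a l m B}, Bl a l m B → B.Nodup ∧ B.length = 2 ^ l := fun {a l m B} h =>
    ⟨List.nodup_iff_getElem?_ne_getElem?.2 fun i j c d e => by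
      obtain ⟨v, e1, f⟩ := h.2 i (by rw [← h.1]; omega)
      obtain ⟨v', e2, f'⟩ := h.2 j (h.1 ▸ d)
      obtain rfl := Option.some.inj (e1.symm.trans (e.trans e2))
      have := hI.inj f f'
      omega, h.1⟩
  clear_value Bl
  refine ⟨fun a l B => ∃ m, Bl a l m B, fun a l B v => ∃ m j, Bl a l m B ∧ Ix a j v ∧ j / 2 ^ l = m + 1,
    RE.un (RE.re (by fun_prop)), RE.un (RE.re (by fun_prop)), fun ⟨_, h⟩ => (b4 h).1, fun ⟨_, h⟩ => (b4 h).2,
    fun ⟨_, h⟩ k => let ⟨_, e, _⟩ := (b2 h).1 k; hI.sub e, fun ⟨m, h⟩ ⟨m', h'⟩ k k' => ?_,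
    fun ⟨m, j, h, e, f⟩ ⟨m', j', h', e', f'⟩ => ?_, fun {a k d P} h1 h2 => ?_, fun {a k v v'} h1 h2 h3 h4 => ?_⟩
  · obtain ⟨j, e, rfl⟩ := (b2 h).1 k
    obtain ⟨j', e', rfl⟩ := (b2 h').1 k'
    obtain rfl := hI.inj e e'
    exact b1 h h'
  · obtain rfl := hI.inj e e'
    obtain rfl : m = m' := by omega
    exact b1 h h'
  · classical
    have x : ∃ J, ¬∃ v, Ix a J v := ⟨2 ^ k, fun ⟨_, e⟩ => by have := hI.lt e h1; omega⟩
    have x1 : ∀ j < Nat.find x, ∃ v, Ix a j v := fun j l => not_not.1 (Nat.find_min x l)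
    have x2 : Nat.find x < 2 ^ k := by
      rcases Nat.eq_zero_or_pos (Nat.find x) with c | c
      · rw [c]; positivity
      · obtain ⟨v, e⟩ := x1 (Nat.find x - 1) (by omega)
        have := hI.lt e h1; omega
    have x3 : ∀ v, R a v → ∃ l < k, ∃ j, Ix a j v ∧ j / 2 ^ l + 1 = Nat.find x / 2 ^ l := fun v e => by
      obtain ⟨j, e⟩ := hI.ex e
      obtain ⟨l, c, f⟩ := dyad (not_le.1 fun c => Nat.find_spec x (hI.down e c)) x2
      exact ⟨l, c, j, e, f⟩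
    choose! f f1 f2 using x3
    by_contra! c
    have p := Nat.two_pow_pos (d - lg k)
    refine not_many_mul (m := 2 ^ (d - lg k) - 1) f (nm_lt k) (fun v e => f1 v e.1) (fun u e => ?_)
      (h2.mono ?_ fun _ => id)
    · obtain ⟨v, ⟨e1, -⟩, rfl⟩ := e.ex (Nat.succ_pos _)
      obtain ⟨j, -, e2⟩ := f2 v e1
      obtain ⟨B, e3⟩ := b3 x1 e2
      refine c _ (f1 v e1) B ⟨_, e3⟩ (e.mono (by omega) fun w e => ⟨(b2 e3).2 ?_, e.1.2⟩)
      obtain ⟨j', e4, e5⟩ := f2 w e.1.1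
      rw [e.2] at e5
      exact ⟨j', e4, by omega⟩
    · rcases le_total d (lg k) with c | c
      · simp [Nat.sub_eq_zero_of_le c, Nat.one_le_two_pow]
      · have := lt_lg k
        obtain ⟨d, rfl⟩ := Nat.exists_eq_add_of_le c
        rw [Nat.add_sub_cancel_left, pow_add] at *
        obtain ⟨n, e⟩ := Nat.exists_eq_add_of_le' p
        rw [e, Nat.add_sub_cancel]
        nlinarith
  · have key : ∀ {v v' j j'}, Ix a j v → Ix a j' v' → j < j' →
        ∃ l < k, ∃ B m, Bl a l m B ∧ v ∈ B ∧ j' / 2 ^ l = m + 1 := fun {v v' j j'} e e' c => by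
      obtain ⟨l, c1, c2⟩ := dyad (k := k) c (by have := hI.lt e' h1; omega)
      obtain ⟨B, c3⟩ := b3 (fun i hi => hI.down e' hi.le) c2
      exact ⟨l, c1, B, _, c3, (b2 c3).2 ⟨j, e, rfl⟩, c2.symm⟩
    obtain ⟨j, e⟩ := hI.ex h2
    obtain ⟨j', e'⟩ := hI.ex h3
    rcases lt_trichotomy j j' with c | rfl | c
    · obtain ⟨l, c1, B, m, c2, c3, c4⟩ := key e e' c
      exact ⟨l, c1, B, ⟨m, c2⟩, .inl ⟨c3, m, j', c2, e', c4⟩⟩
    · exact absurd (hI.fn e e') h4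
    · obtain ⟨l, c1, B, m, c2, c3, c4⟩ := key e' e c
      exact ⟨l, c1, B, ⟨m, c2⟩, .inr ⟨c3, m, j, c2, e, c4⟩⟩

variable {U : Str → Str →. Str} [hU : Fact (OptC U)] {I : Type} {N : I → ℕ}
  {a : I → γ} {u : I → α} {v : I → β} {w : I → δ} {l : I → ℕ}

omit [Primcodable β] in
theorem Ev.comp {J : Type} {P : I → ℕ → Prop} (h : Ev N P) (f : J → I) : Ev (fun j => N (f j)) fun j => P (f j) :=
  h.mono fun _ h j => h (f j)

/-- the index of an object among those of the same conditional complexity -/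
theorem num (h : Sm N fun i => C U (v i) (u i)) : ∃ k : I → ℕ, (∀ i, k i < 2 ^ (C U (v i) (u i) + 1)) ∧
    Le N (fun i => C U (k i) (u i, v i)) 0 ∧ Le N (fun i => C U (v i) (u i, k i)) 0 := by
  obtain ⟨Ix, hI⟩ := idx (R := fun (z : ℕ × α) (v : β) => CL U v z.2 z.1) (by fun_prop)
  have := hI.re
  choose k hk using fun i => hI.ex (a := (C U (v i) (u i), u i)) (b := v i) le_rfl
  exact ⟨k, fun i => (Nat.lt_succ_self _).trans (hI.lt (hk i) (fewC _ _)),
    uniq (R := fun a (u : α × β) k => Ix (a, u.1) k u.2) (by fun_prop) h hk fun _ _ _ => hI.inj,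
    uniq (R := fun a (u : α × ℕ) v => Ix (a, u.1) u.2 v) (by fun_prop) h hk fun _ _ _ => hI.fn⟩

theorem small {k t : I → ℕ} (ht : Sm N t) (h : ∀ i, k i < 2 ^ t i) : Le N (fun i => C U (k i) (u i)) t :=
  cnt (R := fun (t : ℕ) _ k => k < 2 ^ t) (by fun_prop) ht h fun _ => nm_lt _

/-- longer initial parts from shorter ones -/
theorem bits {k t t' : I → ℕ} (ht : Sm N t) (ht' : Sm N t') :
    Le N (fun i => C U (k i % 2 ^ t' i) (u i, k i % 2 ^ t i)) fun i => t' i - t i :=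
  cnt (R := fun (a : ℕ × ℕ) (u : α × ℕ) r => r < 2 ^ a.2 ∧ r % 2 ^ min a.1 a.2 = u.2 % 2 ^ min a.1 a.2) (by fun_prop)
    (sm_pair ht ht') (fun i => ⟨Nat.mod_lt _ (by positivity), by
      simp only [Nat.mod_mod_of_dvd _ (pow_dvd_pow 2 (min_le_left _ _)),
        Nat.mod_mod_of_dvd _ (pow_dvd_pow 2 (min_le_right _ _))]⟩) fun i e =>
    nm_lt _ (e.rel (fun r j => j = r / 2 ^ min (t i) (t' i))
      (fun r h => ⟨_, rfl, (div_pow _ h.1).trans_eq (by congr 1; simp only; omega)⟩) fun r r' _ h h' e e' => by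
        rw [← Nat.div_add_mod r (2 ^ min (t i) (t' i)), ← Nat.div_add_mod r' (2 ^ min (t i) (t' i)), ← e, ← e',
          h.2, h'.2])

/-- a part of the description of `v` given `u` -/
theorem chop {t : I → ℕ} (h : Sm N fun i => C U (v i) (u i)) (ht : Sm N t) : ∃ r : I → ℕ, (∀ i, r i < 2 ^ t i) ∧
    Le N (fun i => C U (r i) (u i, v i)) 0 ∧ Le N (fun i => C U (v i) (u i, r i)) fun i => C U (v i) (u i) - t i := by
  obtain ⟨k, h1, h2, h3⟩ := num h
  have h4 := bits (U := U) (u := u) (k := k) ht (sm_add h (sm_const 1))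
  simp only [Nat.mod_eq_of_lt (h1 _)] at h4
  have s4 := Sm.of_le h4 (sm_sub (sm_add h (sm_const 1)))
  have h5 := img (U := U) (fun (_ : Unit) (u : α × ℕ) k => (u.1, k)) (by fun_prop) (sm_const ()) s4 fun _ => rfl
  have h6 := img (U := U) (fun t _ k => k % 2 ^ t) (by fun_prop) ht h2.sm fun _ => rfl
  refine ⟨fun i => k i % 2 ^ t i, fun _ => Nat.mod_lt _ (by positivity), .mul 2 ?_, .mul 5 ?_⟩
  · filter_upwards [h2, h6] with e h1 h2 i
    have := h1 i; have := h2 i; omega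
  · filter_upwards [h3, h4, h5, tri (.of_le h5 s4) h3.sm, ev_ge N 1] with e h1 h2 h3 h4 h5 i
    have := h1 i; have := h2 i; have := h3 i; have := h4 i; have := h5 i
    simp only [Pi.zero_apply] at *; omega

/-- discrete intermediate value -/
theorem ivt {T b : I → ℕ} {f : I → ℕ → ℕ} (h1 : Le N (fun i => f i (T i)) b)
    (h2 : Ev N fun i e => ∀ t < T i, f i t ≤ f i (t + 1) + e) (h0 : Le N b fun i => f i 0) :
    ∃ t : I → ℕ, (∀ i, t i ≤ T i) ∧ Le N (fun i => f i (t i)) b ∧ Le N b fun i => f i (t i) := by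
  classical
  obtain ⟨c, hc⟩ := h1.exists
  have x : ∀ i, ∃ t, f i t ≤ b i + c * lg (N i) := fun i => ⟨_, hc i⟩
  have y : ∀ i, Nat.find (x i) ≤ T i := fun i => Nat.find_min' _ (hc i)
  refine ⟨fun i => Nat.find (x i), y, eventually_atTop.2 ⟨c, fun d hd i => (Nat.find_spec (x i)).trans
    (Nat.add_le_add_left (Nat.mul_le_mul_right _ hd) _)⟩, ?_⟩
  filter_upwards [h2, h0] with e h2 h0 i
  rcases Nat.eq_zero_or_pos (Nat.find (x i)) with z | z
  · rw [z]; exact h0 i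
  · have := Nat.find_min (x i) (m := Nat.find (x i) - 1) (by omega)
    have := h2 i (Nat.find (x i) - 1) (by have := y i; omega)
    rw [Nat.sub_add_cancel z] at this
    omega

theorem Ev.cases {Z : Type} (p : I → Prop) {Q : I → Z → ℕ → Prop}
    (h1 : ∃ z : {i // p i} → Z, Ev (fun j : {i // p i} => N j) fun j => Q j (z j))
    (h2 : ∃ z : {i // ¬p i} → Z, Ev (fun j : {i // ¬p i} => N j) fun j => Q j (z j)) :
    ∃ z : I → Z, Ev N fun i => Q i (z i) := by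
  classical
  obtain ⟨z1, h1⟩ := h1
  obtain ⟨z2, h2⟩ := h2
  refine ⟨fun i => if h : p i then z1 ⟨i, h⟩ else z2 ⟨i, h⟩, ?_⟩
  filter_upwards [h1, h2] with e h1 h2 i
  split_ifs with h
  exacts [h1 ⟨i, h⟩, h2 ⟨i, h⟩]

end Pool.Agent.Lib.AK
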