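import Mathlib
/-! Union bounds: small hitting families that cover heavy points, and hash families with small loads. -/
namespace Pool.Agent.Lib.AK
open Finset Real

/-- union bound in a product space -/
theorem avoid {ι β ε : Type} [Fintype ι] {V : Finset β} (hV : V.Nonempty) (E : Finset ε) (Z : ε → Finset ι)
    (T : ε → ι → Finset β) (p : ε → ℝ) (h : ∀ e ∈ E, ∀ i ∈ Z e, (#(T e i) : ℝ) ≤ p e * #V)
    (hs : ∑ e ∈ E, p e ^ #(Z e) < 1) : ∃ f : ι → β, (∀ i, f i ∈ V) ∧ ∀ e ∈ E, ∃ i ∈ Z e, f i ∉ T e i := by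
  classical
  by_contra! c
  have h0 : (0 : ℝ) < (#V : ℝ) ^ Fintype.card ι := by have := hV.card_pos; positivity
  have h1 : Fintype.piFinset (fun _ : ι => V) ⊆
      E.biUnion fun e => Fintype.piFinset fun i => if i ∈ Z e then T e i else V := fun f hf => by
    obtain ⟨e, h1, h2⟩ := c f (Fintype.mem_piFinset.1 hf)
    refine mem_biUnion.2 ⟨e, h1, Fintype.mem_piFinset.2 fun i => ?_⟩
    split_ifs with k
    exacts [h2 i k, Fintype.mem_piFinset.1 hf i]
  have h2 := (Nat.cast_le (α := ℝ)).2 ((card_le_card h1).trans card_biUnion_le)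
  rw [Fintype.card_piFinset, prod_const, card_univ] at h2
  push_cast at h2
  refine (h2.trans_lt ?_).false
  rw [← one_mul (_ ^ _ : ℝ)]
  refine lt_of_le_of_lt ?_ (mul_lt_mul_of_pos_right hs h0)
  rw [sum_mul]
  refine sum_le_sum fun e he => ?_
  rw [Fintype.card_piFinset, Nat.cast_prod]
  refine (prod_le_prod (g := fun i => (if i ∈ Z e then p e else 1) * #V) (fun _ _ => by positivity) fun i _ => ?_).trans_eq ?_
  · split_ifs with k
    exacts [h e he i k, (one_mul _).ge]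
  · rw [prod_mul_distrib, prod_ite_mem, univ_inter, prod_const, prod_const, card_univ]

theorem greedy {α β : Type} [DecidableEq α] [DecidableEq β] (X : β → Finset α) (R : Finset β) (H : Finset α) {K : ℕ}
    (hK : 0 < K) (h : ∀ S ⊆ H, S.Nonempty → ∃ w ∈ R, #S ≤ K * #(S ∩ X w)) (t : ℕ) :
    ∃ Cv ⊆ R, #Cv ≤ t ∧ (#(H \ Cv.biUnion X) : ℝ) ≤ #H * (1 - 1 / K) ^ t := by
  have k : (1 : ℝ) ≤ K := by exact_mod_cast hK
  have k0 : (0 : ℝ) ≤ 1 - 1 / K := sub_nonneg.2 (div_le_one_of_le₀ k (by positivity))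
  induction t with
  | zero => exact ⟨∅, by simp⟩
  | succ t ih =>
    obtain ⟨Cv, h1, h2, h3⟩ := ih
    rcases (H \ Cv.biUnion X).eq_empty_or_nonempty with c | c
    · exact ⟨Cv, h1, by omega, by rw [c]; simp only [card_empty, Nat.cast_zero]; positivity⟩
    obtain ⟨w, h4, h5⟩ := h _ sdiff_subset c
    refine ⟨insert w Cv, insert_subset h4 h1, (card_insert_le _ _).trans (by omega), ?_⟩
    have h6 := card_sdiff_add_card_inter (H \ Cv.biUnion X) (X w)
    rw [biUnion_insert, union_comm, ← sup_eq_union, ← sdiff_sdiff, pow_succ, ← mul_assoc]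
    refine le_trans ?_ (mul_le_mul_of_nonneg_right h3 k0)
    have h7 := (Nat.cast_le (α := ℝ)).2 h5
    rw [← h6] at h7 ⊢
    push_cast at h7 ⊢
    field_simp
    nlinarith

theorem pow_exp {x : ℝ} (h : x ≤ 1) (n : ℕ) : (1 - x) ^ n ≤ exp (-(n * x)) := by
  rw [← mul_neg, exp_nat_mul]
  exact pow_le_pow_left₀ (sub_nonneg.2 h) (by linarith [add_one_le_exp (-x)]) n

theorem two_exp (n : ℕ) : (2 : ℝ) ^ n ≤ exp n := by
  rw [← mul_one (n : ℝ), exp_nat_mul]
  exact pow_le_pow_left₀ two_pos.le (by linarith [add_one_le_exp 1]) n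

theorem cover {α β : Type} [DecidableEq α] [DecidableEq β] (X : β → Finset α) (R : Finset β) (H : Finset α) {K L : ℕ}
    (hK : 0 < K) (hH : #H ≤ 2 ^ L) (h : ∀ S ⊆ H, S.Nonempty → ∃ w ∈ R, #S ≤ K * #(S ∩ X w)) :
    ∃ Cv ⊆ R, #Cv ≤ K * (L + 1) ∧ ∀ x ∈ H, ∃ w ∈ Cv, x ∈ X w := by
  obtain ⟨Cv, h1, h2, h3⟩ := greedy X R H hK h (K * (L + 1))
  have k : (1 : ℝ) ≤ K := by exact_mod_cast hK
  refine ⟨Cv, h1, h2, fun x hx => mem_biUnion.1 (sdiff_eq_empty_iff_subset.1 (card_eq_zero.1 ?_) hx)⟩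
  have h4 := pow_exp (x := 1 / K) (div_le_one_of_le₀ k (by positivity)) (K * (L + 1))
  have h5 : (#H : ℝ) ≤ exp L := le_trans (by exact_mod_cast hH) (two_exp L)
  have h6 := h3.trans (mul_le_mul h5 h4 (pow_nonneg (sub_nonneg.2 (div_le_one_of_le₀ k (by positivity))) _) (by positivity))
  rw [← exp_add] at h6
  have h7 := h6.trans_lt (exp_lt_one_iff.2 (by push_cast; field_simp; linarith))
  exact_mod_cast Nat.lt_one_iff.1 (by exact_mod_cast h7)

/-- some scale carries a share of the incidences -/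
theorem scale {β : Type} (D : Finset β) (f : β → ℕ) {n d m : ℕ} (hn : 0 < n) (h1 : ∀ w ∈ D, f w ≤ n)
    (h2 : 2 ^ d * n ≤ ∑ w ∈ D, f w) (h3 : 2 * #D ≤ 2 ^ (d + m)) :
    ∃ s ≤ m, 2 ^ (d + s) ≤ 4 * (m + 1) * #{w ∈ D | n ≤ 2 ^ s * f w} := by
  by_contra! c
  have h4 : ∀ w ∈ D, 2 ^ m * f w ≤ n + ∑ s ∈ range (m + 1), if n ≤ 2 ^ s * f w then 2 * n * 2 ^ (m - s) else 0 := by
    intro w hw
    by_cases k : n ≤ 2 ^ m * f w
    · have x : ∃ s, n ≤ 2 ^ s * f w := ⟨m, k⟩
      have y := Nat.find_min' x k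
      refine le_add_left (le_trans ?_ (single_le_sum (fun _ _ => Nat.zero_le _) (mem_range.2 (Nat.lt_succ_of_le y))))
      rw [if_pos (Nat.find_spec x)]
      have z : 2 ^ Nat.find x * f w ≤ 2 * n := by
        rcases Nat.eq_zero_or_pos (Nat.find x) with z | z
        · rw [z]; have := h1 w hw; omega
        · have := Nat.find_min x (m := Nat.find x - 1) (by omega)
          rw [← Nat.sub_add_cancel z, pow_succ]
          nlinarith
      calc 2 ^ m * f w = 2 ^ Nat.find x * f w * 2 ^ (m - Nat.find x) := by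
            rw [mul_right_comm, ← pow_add, Nat.add_sub_cancel' y]
        _ ≤ _ := Nat.mul_le_mul_right _ z
    · omega
  have h5 := sum_le_sum h4
  rw [← mul_sum, sum_add_distrib, sum_comm] at h5
  simp only [← sum_filter, sum_const, smul_eq_mul] at h5
  have h6 : ∑ s ∈ range (m + 1), 2 * (m + 1) * (#{w ∈ D | n ≤ 2 ^ s * f w} * (2 * n * 2 ^ (m - s))) <
      ∑ s ∈ range (m + 1), 2 ^ (d + m) * n := sum_lt_sum_of_nonempty (by simp) fun s hs => by
    have k := Nat.lt_succ_iff.1 (mem_range.1 hs)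
    have := Nat.mul_lt_mul_of_lt_of_le (c s k) (le_refl (2 ^ (m - s) * n)) (by positivity)
    rw [← mul_assoc (2 ^ (d + s)), ← pow_add, add_assoc, Nat.add_sub_cancel' k] at this
    linarith
  rw [← mul_sum, sum_const, card_range, smul_eq_mul] at h6
  have h7 := Nat.mul_le_mul_left (2 ^ m) h2
  have h8 := Nat.mul_le_mul_right n h3
  rw [pow_add] at *
  nlinarith

theorem pow_half {x : ℝ} (h : x ≤ 1) {n k : ℕ} (e : k ≤ n * x) : (1 - x) ^ n ≤ 1 / 2 ^ k := by
  refine (pow_exp h n).trans ?_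
  rw [exp_neg, ← one_div]
  exact one_div_le_one_div_of_le (by positivity) ((two_exp k).trans (exp_le_exp.2 e))

/-- a sample that separates large from small traces -/
theorem sample {α β : Type} [DecidableEq α] [DecidableEq β] (X : β → Finset α) {B : Finset β} {S : Finset α} {L h : ℕ}
    (s : ℕ) (hB : #B ≤ 2 ^ L) (hS : S.Nonempty) (hh : L + 1 < h) :
    ∃ σ : Fin h × Fin (2 ^ s * (2 * h)) → α, (∀ i, σ i ∈ S) ∧ ∀ w ∈ B,
      (#S ≤ 2 ^ s * #(S ∩ X w) → ∀ j, ∃ i, σ (j, i) ∈ X w) ∧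
      ((∀ j, ∃ i, σ (j, i) ∈ X w) → #S ≤ 4 * (2 ^ s * (2 * h)) * #(S ∩ X w)) := by
  set M := 2 ^ s * (2 * h) with hM
  have m0 : (0 : ℝ) < M := by have : 0 < h := by omega
                              positivity
  obtain ⟨σ, h1, h2⟩ := avoid (ι := Fin h × Fin M) hS
    (disjSum ({w ∈ B | #S ≤ 2 ^ s * #(S ∩ X w)} ×ˢ (univ : Finset (Fin h)))
      ({w ∈ B | 4 * M * #(S ∩ X w) < #S} ×ˢ (univ : Finset (Fin h → Fin M))))
    (Sum.elim (fun e => univ.map ⟨fun i => (e.2, i), fun _ _ e => (Prod.ext_iff.1 e).2⟩)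
      fun e => univ.map ⟨fun j => (j, e.2 j), fun _ _ e => (Prod.ext_iff.1 e).1⟩)
    (Sum.elim (fun e _ => S \ X e.1) fun e _ => S ∩ X e.1) (Sum.elim (fun _ => 1 - 1 / 2 ^ s) fun _ => 1 / (4 * M))
    (by
      rintro (e | e) he - -
      · have k := (Nat.cast_le (α := ℝ)).2 (mem_filter.1 (mem_product.1 (inl_mem_disjSum.1 he)).1).2
        simp only [Sum.elim_inl]
        rw [← card_sdiff_add_card_inter S (X e.1)] at k ⊢
        push_cast at k ⊢
        field_simp
        nlinarith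
      · have k := (Nat.cast_le (α := ℝ)).2 (mem_filter.1 (mem_product.1 (inr_mem_disjSum.1 he)).1).2.le
        simp only [Sum.elim_inr]
        push_cast at k
        field_simp
        linarith)
    (by
      simp only [sum_disjSum, Sum.elim_inl, Sum.elim_inr, card_map, card_univ, Fintype.card_fin, sum_const, card_product,
        Fintype.card_fun, nsmul_eq_mul]
      have k1 := pow_half (x := 1 / 2 ^ s) (div_le_one_of_le₀ (one_le_pow₀ one_le_two) (by positivity)) (n := M)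
        (k := 2 * h) (by rw [hM]; push_cast; field_simp; rfl)
      have k2 : ∀ p : β → Prop, ∀ [DecidablePred p], (#{w ∈ B | p w} : ℝ) ≤ 2 ^ L := fun p _ => by
        exact_mod_cast (card_filter_le _ _).trans hB
      have k3 : (h : ℝ) < 2 ^ h := by exact_mod_cast Nat.lt_two_pow_self
      have k4 : (2 : ℝ) ^ (L + 2) ≤ 2 ^ h := pow_le_pow_right₀ one_le_two hh
      have k5 : (M : ℝ) ^ h * (1 / (4 * M)) ^ h = 1 / 2 ^ (2 * h) := by
        rw [← mul_pow, pow_mul, one_div (_ ^ h), ← inv_pow]; congr 1; field_simp; norm_num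
      push_cast
      rw [mul_assoc, mul_assoc, k5]
      have k6 := mul_le_mul (k2 fun w => #S ≤ 2 ^ s * #(S ∩ X w)) (mul_le_mul k3.le k1 (pow_nonneg (sub_nonneg.2
        (div_le_one_of_le₀ (one_le_pow₀ one_le_two) (by positivity))) _) (by positivity))
        (mul_nonneg (by positivity) (pow_nonneg (sub_nonneg.2
        (div_le_one_of_le₀ (one_le_pow₀ one_le_two) (by positivity))) _)) (by positivity)
      refine (add_le_add k6 (mul_le_mul_of_nonneg_right (k2 _) (by positivity))).trans_lt ?_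
      rw [two_mul, pow_add] at *
      have : (1 : ℝ) ≤ 2 ^ L := one_le_pow₀ one_le_two
      field_simp
      nlinarith)
  refine ⟨σ, h1, fun w hw => ⟨fun k j => ?_, fun k => not_lt.1 fun c => ?_⟩⟩
  · obtain ⟨i, a, b⟩ := h2 (.inl (w, j)) (by simp [hw, k])
    obtain ⟨i, -, rfl⟩ := mem_map.1 a
    exact ⟨i, by simpa [h1] using b⟩
  · choose f hf using k
    obtain ⟨i, a, b⟩ := h2 (.inr (w, f)) (by simp [hw, c])
    obtain ⟨i, -, rfl⟩ := mem_map.1 a
    simp [h1, hf] at b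

theorem hit {β : Type} [DecidableEq β] {B : Finset β} (G : ℕ → Finset (Finset β)) {h c d r : ℕ}
    (h1 : ∀ s < h, #(G s) ≤ 2 ^ (2 ^ s * c)) (h2 : ∀ s < h, ∀ T ∈ G s, T ⊆ B ∧ 2 ^ (d + s) ≤ 4 * h * #T)
    (h3 : #B * (4 * h * (c + h)) ≤ r * 2 ^ d) : ∃ R ⊆ B, #R ≤ r ∧ ∀ s < h, ∀ T ∈ G s, ∃ w ∈ R, w ∈ T := by
  rcases B.eq_empty_or_nonempty with rfl | hB
  · refine ⟨∅, subset_rfl, by simp, fun s hs T hT => ?_⟩
    obtain ⟨a, b⟩ := h2 s hs T hT
    simp [subset_empty.1 a] at b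
  have b0 : (0 : ℝ) < #B := by exact_mod_cast hB.card_pos
  obtain ⟨f, k1, k2⟩ := avoid (ι := Fin r) hB ((range h).sigma G) (fun _ => univ) (fun e _ => B \ e.2)
    (fun e => 1 - 2 ^ (d + e.1) / (4 * h * #B))
    (fun e he _ _ => by
      obtain ⟨a, b⟩ := mem_sigma.1 he
      obtain ⟨a1, a2⟩ := h2 _ (mem_range.1 a) _ b
      have : (0 : ℝ) < h := by exact_mod_cast (Nat.zero_le _).trans_lt (mem_range.1 a)
      rw [card_sdiff_of_subset a1, Nat.cast_sub (card_le_card a1)]
      have := (Nat.cast_le (α := ℝ)).2 a2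
      push_cast at this
      field_simp
      linarith)
    (by
      rw [sum_sigma]
      refine (sum_le_card_nsmul _ _ (1 / 2 ^ h) fun s hs => (sum_le_card_nsmul _ _ (1 / 2 ^ (2 ^ s * (c + h)))
        fun T hT => ?_).trans ?_).trans_lt ?_
      · obtain ⟨a1, a2⟩ := h2 _ (mem_range.1 hs) _ hT
        have : (0 : ℝ) < h := by exact_mod_cast (Nat.zero_le _).trans_lt (mem_range.1 hs)
        have a3 := (Nat.cast_le (α := ℝ)).2 (a2.trans (Nat.mul_le_mul_left _ (card_le_card a1)))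
        have a4 := (Nat.cast_le (α := ℝ)).2 h3
        rw [card_univ, Fintype.card_fin]
        refine pow_half (div_le_one_of_le₀ (by exact_mod_cast a3) (by positivity)) ?_
        push_cast at a4 ⊢
        rw [pow_add]
        field_simp
        linarith
      · have a := (Nat.cast_le (α := ℝ)).2 (h1 _ (mem_range.1 hs))
        have b : (2 : ℝ) ^ h ≤ 2 ^ (2 ^ s * h) := pow_le_pow_right₀ one_le_two (Nat.le_mul_of_pos_left _ (by positivity))
        push_cast at a
        rw [nsmul_eq_mul, mul_add, pow_add]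
        field_simp
        exact mul_le_mul a b (by positivity) (by positivity)
      · have : (h : ℝ) < 2 ^ h := by exact_mod_cast Nat.lt_two_pow_self
        rw [card_range, nsmul_eq_mul]
        field_simp
        exact this)
  refine ⟨univ.image f, fun w hw => ?_, card_image_le.trans (by simp), fun s hs T hT => ?_⟩
  · obtain ⟨i, -, rfl⟩ := mem_image.1 hw
    exact k1 i
  · obtain ⟨i, -, b⟩ := k2 ⟨s, T⟩ (mem_sigma.2 ⟨mem_range.2 hs, hT⟩)
    exact ⟨f i, mem_image_of_mem _ (mem_univ _), by simpa [k1] using b⟩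

/-- a small subfamily containing small covers of the heavy points of every subfamily -/
theorem mark {α β : Type} [DecidableEq α] [DecidableEq β] (X : β → Finset α) {B : Finset β} {L l m q : ℕ} (d : ℕ)
    (hB : #B ≤ 2 ^ l) (hl : l ≤ L) (hm : m ≤ L) (hX : ∀ w ∈ B, #(X w) ≤ 2 ^ L) (hp : 32 * (L + 3) ^ 4 ≤ 2 ^ q) :
    ∃ R ⊆ B, #R ≤ 2 ^ (l - d + q) ∧ ∀ D ⊆ B, #D ≤ 2 ^ m → ∃ Cv ⊆ R, #Cv ≤ 2 ^ (m - d + q) ∧
      ∀ x, 2 ^ d ≤ #{w ∈ D | x ∈ X w} → ∃ w ∈ Cv, x ∈ X w := by
  have hB' := hB.trans (Nat.pow_le_pow_right two_pos hl)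
  have hU : #(B.biUnion X) ≤ 2 ^ (2 * L) := (card_biUnion_le_card_mul _ _ _ hX).trans (by
    rw [two_mul, pow_add]; exact Nat.mul_le_mul_right _ hB')
  set h := L + 3 with hh
  obtain ⟨R, h1, h2, h3⟩ := hit (B := B) (h := h) (c := 2 * L * (h * (2 * h))) (d := d)
    (r := 2 ^ (l - d) * (4 * h * (2 * L * (h * (2 * h)) + h)))
    (fun s => {T ∈ (Fintype.piFinset fun _ : Fin h × Fin (2 ^ s * (2 * h)) => B.biUnion X).image
      fun σ => {w ∈ B | ∀ j, ∃ i, σ (j, i) ∈ X w} | 2 ^ (d + s) ≤ 4 * h * #T})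
    (fun s _ => (card_filter_le _ _).trans (card_image_le.trans (by
      rw [Fintype.card_piFinset, prod_const, card_univ]
      refine (Nat.pow_le_pow_left hU _).trans_eq ?_
      rw [← pow_mul]; simp only [Fintype.card_prod, Fintype.card_fin]; congr 1; ring)))
    (fun s _ T hT => by
      obtain ⟨a, b⟩ := mem_filter.1 hT
      obtain ⟨σ, -, rfl⟩ := mem_image.1 a
      exact ⟨filter_subset _ _, b⟩)
    (by
      rw [mul_right_comm _ _ (2 ^ d), ← pow_add]
      exact Nat.mul_le_mul_right _ (hB.trans (Nat.pow_le_pow_right two_pos (by omega))))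
  have e1 : L ≤ h := by omega
  have e2 : 1 ≤ h := by omega
  have e3 : h ≤ h ^ 3 := Nat.le_self_pow (by omega) _
  refine ⟨R, h1, h2.trans ?_, fun D hD hc => ?_⟩
  · rw [pow_add]
    refine Nat.mul_le_mul_left _ (le_trans ?_ hp)
    have : 2 * L * (h * (2 * h)) ≤ 2 * h * (h * (2 * h)) := by gcongr
    nlinarith
  obtain ⟨Cv, k1, k2, k3⟩ := cover X R {x ∈ B.biUnion X | 2 ^ d ≤ #{w ∈ D | x ∈ X w}}
    (K := 4 * (2 ^ (m - d + 1) * (2 * h))) (by positivity) ((card_filter_le _ _).trans hU) fun S hS k => by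
      obtain ⟨s, a1, a2⟩ := scale D (fun w => #(S ∩ X w)) (d := d) (m := m - d + 1) k.card_pos
        (fun _ _ => card_le_card inter_subset_left)
        (by
          simp only [← filter_mem_eq_inter, card_filter]
          rw [sum_comm, mul_comm]
          exact card_nsmul_le_sum S _ _ fun x hx => by rw [← card_filter]; exact (mem_filter.1 (hS hx)).2)
        (by
          refine (Nat.mul_le_mul_left 2 hc).trans ?_
          rw [← pow_succ']
          exact Nat.pow_le_pow_right two_pos (by omega))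
      obtain ⟨σ, b1, b2⟩ := sample X s hB' k (show L + 1 < h by omega)
      obtain ⟨w, c1, c2⟩ := h3 s (by omega) _ (mem_filter.2 ⟨mem_image_of_mem _ (Fintype.mem_piFinset.2 fun i =>
        (mem_filter.1 (hS (b1 i))).1), a2.trans (Nat.mul_le_mul (by omega) (card_le_card fun w hw =>
          mem_filter.2 ⟨hD (mem_filter.1 hw).1, (b2 w (hD (mem_filter.1 hw).1)).1 (mem_filter.1 hw).2⟩))⟩)
      exact ⟨w, c1, ((b2 w (h1 c1)).2 (mem_filter.1 c2).2).trans (by gcongr; exact one_le_two)⟩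
  refine ⟨Cv, k1, k2.trans ?_, fun x hx => k3 x (mem_filter.2 ⟨?_, hx⟩)⟩
  · rw [pow_add, pow_add]
    have : h * (2 * L + 1) ≤ h ^ 3 * (2 * h) := Nat.mul_le_mul e3 (by omega)
    have := Nat.mul_le_mul_left (2 ^ (m - d)) (show 16 * (h * (2 * L + 1)) ≤ 2 ^ q by nlinarith)
    nlinarith
  · obtain ⟨w, hw⟩ := card_pos.1 ((Nat.two_pow_pos d).trans_le hx)
    exact mem_biUnion.2 ⟨w, hD (mem_filter.1 hw).1, (mem_filter.1 hw).2⟩

theorem avoid' {ι β ε : Type} {V : Finset β} (hV : V.Nonempty) (E : Finset ε) (Z : ε → Finset ι)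
    (T : ε → ι → Finset β) (p : ε → ℝ) (h : ∀ e ∈ E, ∀ i ∈ Z e, (#(T e i) : ℝ) ≤ p e * #V)
    (hs : ∑ e ∈ E, p e ^ #(Z e) < 1) : ∃ f : ι → β, (∀ i, f i ∈ V) ∧ ∀ e ∈ E, ∃ i ∈ Z e, f i ∉ T e i := by
  classical
  obtain ⟨f, h1, h2⟩ := avoid (ι := E.biUnion Z) hV E (fun e => (Z e).subtype _) (fun e i => T e i) p
    (fun e he i hi => h e he i (mem_subtype.1 hi)) (lt_of_eq_of_lt (sum_congr rfl fun e he => by
      rw [card_subtype, filter_true_of_mem (s := Z e) fun i hi => mem_biUnion.2 ⟨e, he, hi⟩]) hs)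
  obtain ⟨v, hv⟩ := hV
  refine ⟨fun i => if h : i ∈ E.biUnion Z then f ⟨i, h⟩ else v, fun i => ?_, fun e he => ?_⟩
  · beta_reduce
    split_ifs
    exacts [h1 _, hv]
  · obtain ⟨i, a, b⟩ := h2 e he
    exact ⟨i, mem_subtype.1 a, by simpa only [dif_pos i.2] using b⟩

theorem choose_le (D t E : ℕ) (hE : 0 < E) : ((D * t).choose (t * E) : ℝ) ≤ (3 * D) ^ (t * E) := by
  refine (Nat.choose_le_pow_div _ _).trans ?_
  have h := pow_div_factorial_le_exp (x := (t * E : ℕ)) (by positivity) (t * E)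
  rw [← mul_one ((t * E : ℕ) : ℝ), exp_nat_mul, mul_one] at h
  have k := h.trans (pow_le_pow_left₀ (by positivity) exp_one_lt_three.le _)
  rw [mul_comm 3, mul_pow, Nat.cast_mul, mul_pow, mul_div_assoc]
  refine mul_le_mul_of_nonneg_left (le_trans ?_ k) (by positivity)
  gcongr
  exact Nat.le_mul_of_pos_right _ hE

def gd (f : List (List ℕ)) (i x : ℕ) : ℕ := (f.getD i []).getD x 0

/-- hash families with few overloaded points -/
theorem hash (L D g q : ℕ) (hq : (L + 6) * D ≤ 2 ^ q) : ∃ f : List (List ℕ), ∀ k ≤ L, ∀ S ⊆ range (2 ^ L),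
    #S ≤ 2 ^ k → ∀ T ⊆ S, (∀ x ∈ T, 2 * L + 2 ≤
      #{i ∈ range D | 2 ^ (g + q) < #{y ∈ S | gd f i y % 2 ^ k = gd f i x % 2 ^ k}}) → #T ≤ 2 ^ (k - g) := by
  obtain ⟨F, h1, h2⟩ := avoid' (V := range (2 ^ L)) (by simp)
    ((range (L + 1)).sigma fun k => ((powersetCard (2 ^ (k - g) + 1) (range (2 ^ L))).sigma fun T =>
      powersetCard ((2 ^ (k - g) + 1) * (2 * L + 2)) (range D ×ˢ T)) ×ˢ
      Fintype.piFinset fun _ : Fin D => powersetCard (2 ^ k / 2 ^ (g + q)) (range (2 ^ k)))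
    (fun e => e.2.1.2) (fun e i => {v ∈ range (2 ^ L) | v % 2 ^ e.1 ∈ if h : i.1 < D then e.2.2 ⟨i.1, h⟩ else ∅})
    (fun _ => 1 / 2 ^ (g + q))
    (by
      rintro ⟨k, ⟨T, A⟩, Z⟩ he i -
      simp only [mem_sigma, mem_product, Fintype.mem_piFinset, mem_powersetCard, mem_range] at he
      split_ifs with c
      swap
      · simp
      have h := card_le_card_of_injOn (s := {v ∈ range (2 ^ L) | v % 2 ^ k ∈ Z ⟨i.1, c⟩})
        (t := Z ⟨i.1, c⟩ ×ˢ range (2 ^ (L - k))) (fun v => (v % 2 ^ k, v / 2 ^ k))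
        (fun v hv => by
          simp only [coe_filter, mem_range, Set.mem_ofPred_eq, coe_product, Set.mem_prod, mem_coe] at hv ⊢
          refine ⟨hv.2, (Nat.div_lt_iff_lt_mul (by positivity)).2 ?_⟩
          rw [← pow_add, Nat.sub_add_cancel (by omega)]
          exact hv.1)
        fun v _ v' _ e => by
          simp only [Prod.mk.injEq] at e
          rw [← Nat.div_add_mod v (2 ^ k), e.1, e.2, Nat.div_add_mod]
      rw [card_product, (he.2.2 _).2, card_range] at h
      have h' := (Nat.mul_le_mul_right (2 ^ (g + q)) h).trans (b := _) (c := 2 ^ L) (by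
        rw [mul_right_comm]
        refine (Nat.mul_le_mul_right _ (Nat.div_mul_le_self _ _)).trans_eq ?_
        rw [← pow_add, Nat.add_sub_cancel' (by omega)])
      rw [card_range]
      field_simp
      exact_mod_cast h')
    (by
      rw [sum_sigma]
      refine (sum_le_card_nsmul _ _ (1 / 2 ^ (L + 1)) fun k hk => ?_).trans_lt ?_
      · rw [sum_congr rfl (g := fun _ => (1 / 2 ^ (g + q) : ℝ) ^ ((2 ^ (k - g) + 1) * (2 * L + 2))) fun e he => by
          rw [(mem_powersetCard.1 (mem_sigma.1 (mem_product.1 he).1).2).2]]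
        have k1 : k * (2 ^ k / 2 ^ (g + q)) * D ≤ 2 ^ (k - g) + 1 := by
          have a : 2 ^ k / 2 ^ (g + q) * 2 ^ q ≤ 2 ^ (k - g) := by
            rw [pow_add, ← Nat.div_div_eq_div_mul]
            refine (Nat.div_mul_le_self _ _).trans (Nat.div_le_of_le_mul ?_)
            rw [← pow_add]
            exact Nat.pow_le_pow_right two_pos (by omega)
          have := Nat.mul_le_mul_left (2 ^ k / 2 ^ (g + q)) ((Nat.mul_le_mul_right D
            (show k ≤ L + 6 by have := mem_range.1 hk; omega)).trans hq)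
          nlinarith
        generalize ht : 2 ^ (k - g) + 1 = t at *
        have t0 : 1 ≤ t := ht ▸ Nat.le_add_left _ _
        rw [sum_const, card_product, card_sigma, sum_congr rfl (g := fun _ => (D * t).choose (t * (2 * L + 2)))
          fun T hT => by rw [card_powersetCard, card_product, card_range, (mem_powersetCard.1 hT).2],
          sum_const, Fintype.card_piFinset, prod_const]
        simp only [card_powersetCard, card_range, card_univ, Fintype.card_fin, smul_eq_mul, nsmul_eq_mul]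
        have a1 : (((2 ^ L).choose t : ℕ) : ℝ) ≤ 2 ^ (L * t) := by
          rw [pow_mul]; exact_mod_cast Nat.choose_le_pow _ _
        have a2 : (((2 ^ k).choose (2 ^ k / 2 ^ (g + q)) : ℕ) : ℝ) ^ D ≤ 2 ^ t := by
          refine le_trans ?_ (pow_le_pow_right₀ one_le_two k1)
          rw [pow_mul, pow_mul]
          gcongr
          exact_mod_cast Nat.choose_le_pow _ _
        have a3 : (3 * D : ℝ) ^ (t * (2 * L + 2)) * (1 / 2 ^ (g + q)) ^ (t * (2 * L + 2)) ≤
            (1 / 2) ^ (t * (2 * L + 2)) := by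
          rw [← mul_pow]
          gcongr
          have : ((6 * D : ℕ) : ℝ) ≤ (2 ^ (g + q) : ℕ) := Nat.cast_le.2 (((Nat.mul_le_mul_right D (by omega)).trans hq).trans
            (Nat.pow_le_pow_right two_pos (by omega)))
          push_cast at this
          field_simp
          linarith
        have a4 := choose_le D t (2 * L + 2) (by omega)
        push_cast
        calc _ ≤ 2 ^ (L * t) * (3 * D : ℝ) ^ (t * (2 * L + 2)) * 2 ^ t * (1 / 2 ^ (g + q)) ^ (t * (2 * L + 2)) := by gcongr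
          _ = 2 ^ (L * t + t) * ((3 * D : ℝ) ^ (t * (2 * L + 2)) * (1 / 2 ^ (g + q)) ^ (t * (2 * L + 2))) := by
            rw [pow_add 2 (L * t)]; ring
          _ ≤ 2 ^ (L * t + t) * (1 / 2) ^ (t * (2 * L + 2)) := by gcongr
          _ ≤ _ := by
            rw [one_div_pow]
            field_simp
            rw [← pow_add]
            exact pow_le_pow_right₀ one_le_two (by nlinarith)
      · have : ((L + 1 : ℕ) : ℝ) < 2 ^ (L + 1) := by exact_mod_cast Nat.lt_two_pow_self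
        rw [card_range, nsmul_eq_mul]
        field_simp
        exact this)
  refine ⟨(List.range D).map fun i => (List.range (2 ^ L)).map fun x => F (i, x), fun k hk S hS h3 T hT h4 => ?_⟩
  have hf : ∀ i < D, ∀ x < 2 ^ L, gd ((List.range D).map fun i => (List.range (2 ^ L)).map fun x => F (i, x)) i x =
    F (i, x) := fun i hi x hx => by simp [gd, List.getD_eq_getElem?_getD, hi, hx]
  generalize (List.range D).map _ = f at *
  by_contra! c
  obtain ⟨T', c1, c2⟩ := exists_subset_card_eq c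
  obtain ⟨A, c3, c4⟩ := exists_subset_card_eq (n := (2 ^ (k - g) + 1) * (2 * L + 2))
    (s := {e ∈ range D ×ˢ T' | 2 ^ (g + q) < #{y ∈ S | gd f e.1 y % 2 ^ k = gd f e.1 e.2 % 2 ^ k}}) (by
      rw [card_filter, sum_product_right, ← show #T' = 2 ^ (k - g) + 1 from c2]
      refine card_nsmul_le_sum T' _ (2 * L + 2) fun x hx => ?_
      rw [← card_filter]; exact h4 x (c1 hx))
  have : ∀ i : Fin D, ∃ Z, {j ∈ range (2 ^ k) | 2 ^ (g + q) < #{y ∈ S | gd f i y % 2 ^ k = j}} ⊆ Z ∧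
      Z ⊆ range (2 ^ k) ∧ #Z = 2 ^ k / 2 ^ (g + q) := fun i => exists_subsuperset_card_eq (filter_subset _ _)
    ((Nat.le_div_iff_mul_le (by positivity)).2 (le_trans (by
      rw [card_eq_sum_card_fiberwise (s := S) (f := fun y => gd f i y % 2 ^ k) (t := range (2 ^ k))
        fun y _ => mem_coe.2 (mem_range.2 (Nat.mod_lt _ (by positivity)))]
      exact (card_nsmul_le_sum _ _ _ fun j hj => (mem_filter.1 hj).2.le).trans
        (sum_le_sum_of_subset (filter_subset _ _))) h3)) (by rw [card_range]; exact Nat.div_le_self _ _)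
  choose Z z1 z2 z3 using this
  obtain ⟨i, a, b⟩ := h2 ⟨k, ⟨T', A⟩, Z⟩ (by
    simp only [mem_sigma, mem_product, Fintype.mem_piFinset, mem_powersetCard, mem_range]
    exact ⟨by omega, ⟨⟨(c1.trans hT).trans hS, c2⟩, c3.trans (filter_subset _ _), c4⟩, fun i => ⟨z2 i, z3 i⟩⟩)
  obtain ⟨a1, a2⟩ := mem_filter.1 (c3 a)
  obtain ⟨a3, a4⟩ := mem_product.1 a1
  have a5 := mem_range.1 a3
  refine b (mem_filter.2 ⟨h1 i, ?_⟩)
  rw [dif_pos a5, ← hf _ a5 _ (mem_range.1 (hS (hT (c1 a4))))]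
  exact z1 _ (mem_filter.2 ⟨mem_range.2 (Nat.mod_lt _ (by positivity)), a2⟩)

end Pool.Agent.Lib.AK
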