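import Pool.Agent.Lib.helper22.KB
import Pool.Agent.Lib.helper22.KC
/-! The rectangle lemma. -/
namespace Pool.Agent.Lib.AK
open Filter Encodable Pool.Agent.H.MP_d04dff_lc Pool.Agent.Lib.helper21.KC Pool.Agent.Lib.helper21.PR
attribute [local irreducible] Primrec Computable C

variable {α β γ δ : Type} [Primcodable α] [Primcodable β] [Primcodable γ] [Primcodable δ]

@[fun_prop] theorem p_sublists {l : α → List β} (hl : Primrec l) : Primrec fun a => (l a).sublists :=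
  p_foldr (g := fun _ => [[]]) (h := fun _ a acc => acc.flatMap fun x => [x, a :: x]) (by fun_prop) (.const _) hl

omit [Primcodable β] in
theorem many_iff [DecidableEq β] {l : List β} {P : β → Prop} [DecidablePred P] {n : ℕ} :
    Many n (fun v => v ∈ l ∧ P v) ↔ n ≤ (l.toFinset.filter P).card :=
  ⟨fun ⟨_, h1, h2⟩ => h1.trans (Finset.card_le_card fun v hv => by simpa using h2 v hv), fun h => ⟨_, h, by simp⟩⟩

@[fun_prop] theorem p_many {n : α → ℕ} {l : α → List β} {P : α → β → Prop} (hn : Primrec n) (hl : Primrec l)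
    (hP : Primrec fun z : α × β => cd (P z.1 z.2)) : Primrec fun a => cd (Many (n a) fun v => v ∈ l a ∧ P a v) := by
  classical
  have h : ∀ l : List β, l.foldr (fun a r => if a ∈ r then r else a :: r) [] = l.dedup := fun l => by
    induction l <;> simp [List.dedup_cons', *]
  have : Primrec fun a => cd (n a ≤ (((l a).filter fun v => cd (P a v)).foldr
    (fun a r => if a ∈ r then r else a :: r) []).length) := by fun_prop
  refine this.of_eq fun a => ?_
  rw [h, ← List.card_toFinset, List.toFinset_filter, many_iff]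
  simp

/-- `Cv` is a short list of members of `R` covering the points that lie in many members of `D` -/
def Cov (D R : List (List α × γ)) (d n : ℕ) (Cv : List (List α × γ)) : Prop :=
  (∀ w ∈ Cv, w ∈ R) ∧ Cv.length ≤ 2 ^ n ∧ ∀ w ∈ D, ∀ x ∈ w.1, Many (2 ^ d) (fun v => v ∈ D ∧ x ∈ v.1) → ∃ v ∈ Cv, x ∈ v.1
def Mark (B : List (List α × γ)) (d m n n' : ℕ) (R : List (List α × γ)) : Prop :=
  (∀ w ∈ R, w ∈ B) ∧ R.length ≤ 2 ^ n' ∧ ∀ D ∈ B.sublists, 2 ^ m < D.length ∨ ∃ Cv, Cov D R d n Cv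

omit [Primcodable α] [Primcodable γ] in
theorem mark_ex {B : List (List α × γ)} {L l m q : ℕ} (d : ℕ) (hB : B.length ≤ 2 ^ l) (hl : l ≤ L) (hm : m ≤ L)
    (hX : ∀ w ∈ B, w.1.length ≤ 2 ^ L) (hp : 32 * (L + 3) ^ 4 ≤ 2 ^ q) : ∃ R, Mark B d m (m - d + q) (l - d + q) R := by
  classical
  obtain ⟨R, h1, h2, h3⟩ := mark (fun w : List α × γ => w.1.toFinset) (B := B.toFinset) d (B.toFinset_card_le.trans hB)
    hl hm (fun w hw => w.1.toFinset_card_le.trans (hX w (List.mem_toFinset.1 hw))) hp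
  refine ⟨R.toList, fun w hw => by simpa using h1 (Finset.mem_toList.1 hw), by simpa, fun D hD =>
    or_iff_not_imp_left.2 fun c => ?_⟩
  obtain ⟨Cv, k1, k2, k3⟩ := h3 D.toFinset (fun w hw => List.mem_toFinset.2 ((List.mem_sublists.1 hD).subset
    (List.mem_toFinset.1 hw))) (D.toFinset_card_le.trans (not_lt.1 c))
  exact ⟨Cv.toList, fun w hw => by simpa using k1 (Finset.mem_toList.1 hw), by simpa, fun _ _ x _ h => by
    simpa using k3 x (by simpa using many_iff.1 h)⟩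

omit [Primcodable α] [Primcodable γ] in
theorem Mark.cov {B R D : List (List α × γ)} {d m n n' : ℕ} (h : Mark B d m n n' R) (hB : B.Nodup)
    (hD : ∀ w ∈ D, w ∈ B) (hl : D.length ≤ 2 ^ m) : ∃ Cv, Cov D R d n Cv := by
  classical
  have e : ∀ w, w ∈ B.filter (· ∈ D) ↔ w ∈ D := fun w => by simpa using hD w
  obtain c | ⟨Cv, h1, h2, h3⟩ := h.2.2 _ (List.mem_sublists.2 (List.filter_sublist (p := (· ∈ D))))
  · exact absurd (((many_list (hB.filter _)).mono c fun w => (e w).1)) (nm_list hl)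
  · exact ⟨Cv, h1, h2, by simpa only [e] using h3⟩

variable {U : Str → Str →. Str} [hU : Fact (OptC U)] {I : Type} {N : I → ℕ}

omit [Primcodable β] in
theorem pow_le_of {p : β → Prop} {d m : ℕ} (h : Many (2 ^ d) p) (h' : ¬Many (2 ^ m + 1) p) : d ≤ m :=
  not_lt.1 fun c => h' (h.mono (Nat.pow_lt_pow_right one_lt_two c) fun _ => id)

theorem Le.zero {f g : I → ℕ} (h : Le N f g) (h' : Le N g 0) : Le N f 0 := .mul 2 (by
  filter_upwards [h, h'] with e h1 h2 i
  have := h1 i; have := h2 i; omega)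

theorem Sm.comp {J : Type} {f : I → γ} (h : Sm N f) (g : J → I) : Sm (fun j => N (g j)) fun j => f (g j) :=
  Eventually.mono h fun _ h j => h (g j)
omit hU in
theorem Pl.comp {J : Type} {f : I → γ} (h : Pl U N f) (g : J → I) : Pl U (fun j => N (g j)) fun j => f (g j) :=
  Sm.comp h g

/-- simple objects may be paired -/
theorem pair0 {u : I → α} {v : I → β} {w : I → δ} (h1 : Le N (fun i => C U (v i) (u i)) 0)
    (h2 : Le N (fun i => C U (w i) (u i, v i)) 0) : Le N (fun i => C U (v i, w i) (u i)) 0 := .mul 3 (by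
  filter_upwards [h1, h2, chain h1.sm h2.sm] with e h1 h2 h3 i
  have := h1 i; have := h2 i; have := h3 i; simp only [Pi.zero_apply] at *; omega)
theorem tri0 {u : I → α} {v : I → β} {w : I → δ} (h1 : Le N (fun i => C U (v i) (u i)) 0)
    (h2 : Le N (fun i => C U (w i) (v i)) 0) : Le N (fun i => C U (w i) (u i)) 0 := (weak h1 h2.sm).zero h2
theorem fn0 {u : I → α} {v : I → β} (f : α → β) (hf : Primrec f) (h : ∀ i, v i = f (u i)) :
    Le N (fun i => C U (v i) (u i)) 0 := fn (a := fun _ => ()) (fun _ => f) (by fun_prop) (sm_const _) h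

/-- one side static -/
theorem one_sided {x : I → α} {y : I → β} {w : I → List α × γ} {s : I → ℕ} (hs : Sm N s) (hw : Pl U N w)
    (hx : Pl U N x) (hy : Pl U N y) (h1 : ∀ i, x i ∈ (w i).1) (h2 : ∀ i, (w i).1.length ≤ 2 ^ s i) :
    ∃ q : I → ((List (List α × γ) × List (List α × γ)) × (List α × γ)) × ℕ,
      Le N (fun i => C U (q i) () + C U (w i) (x i, y i)) (fun i => C U (w i) ()) ∧
      Le N (fun i => C U (x i) (q i)) s ∧ Le N (fun i => C U (y i) (q i)) (fun i => C U (y i) (w i)) ∧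
      Le N (fun i => C U (q i) (x i, y i)) 0 := by
  obtain ⟨m, hm⟩ : ∃ m : I → ℕ, ∀ i, m i = C U (w i) () := ⟨_, fun _ => rfl⟩
  obtain ⟨b, hb⟩ : ∃ b : I → ℕ, ∀ i, b i = C U (y i) (w i) := ⟨_, fun _ => rfl⟩
  have sm : Sm N m := funext hm ▸ hw
  have sb : Sm N b := funext hb ▸ hy.sm
  simp only [← hm, ← hb]
  obtain ⟨Bk, Nx, k1⟩ := blocks (R := fun (a : ℕ × ℕ) (v : List α × γ) => CL U v () a.1 ∧ v.1.length ≤ 2 ^ a.2)
    (by fun_prop)
  obtain ⟨Bl, Ny, k2⟩ := blocks (R := fun (a : List (List α × γ) × ℕ × β) (v : List α × γ) => v ∈ a.1 ∧ CL U a.2.2 v a.2.1)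
    (by fun_prop)
  have r1 := k1.re
  have r2 := k2.re
  have f1 : ∀ i, ¬Many (2 ^ (m i + 1)) fun v : List α × γ => CL U v () (m i) ∧ v.1.length ≤ 2 ^ s i :=
    fun i e => fewC () _ (e.mono le_rfl fun _ e => e.1)
  choose d d1 d2 d3 using fun i => exlog (p := fun v : List α × γ => (CL U v () (m i) ∧ v.1.length ≤ 2 ^ s i) ∧
    x i ∈ v.1 ∧ CL U (y i) v (b i)) (b := w i) ⟨⟨(hm i).ge, h2 i⟩, h1 i, (hb i).ge⟩ (m i)
    fun e => f1 i (e.mono le_rfl fun _ e => e.1)
  have sd : Sm N d := sm.mono d1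
  have c1 := cnt (U := U) (N := N) (R := fun (a : ℕ × ℕ × ℕ) (u : α × β) (v : List α × γ) => (CL U v () a.1 ∧
    v.1.length ≤ 2 ^ a.2.1) ∧ u.1 ∈ v.1 ∧ CL U u.2 v a.2.2) (by fun_prop) (a := fun i => (m i, s i, b i)) (by fun_prop)
    (u := fun i => (x i, y i)) (fun i => ⟨⟨(hm i).ge, h2 i⟩, h1 i, (hb i).ge⟩) (l := fun i => d i + 1)
    fun i => nm_up (d3 i) (Nat.le_succ _)
  choose l l1 l2 using fun i => k1.pig (a := (m i, s i)) (f1 i) (d2 i)
  have sl : Sm N l := (sm_add sm (sm_const 1)).mono fun i => (l1 i).le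
  obtain ⟨B, b1, b2⟩ := pick (U := U) (N := N) (R := fun (a : (ℕ × ℕ) × ℕ × ℕ × ℕ) (u : α × β) B => Bk a.1 a.2.1 B ∧
    Many (2 ^ a.2.2.1) fun v => v ∈ B ∧ u.1 ∈ v.1 ∧ CL U u.2 v a.2.2.2) (by fun_prop)
    (a := fun i => ((m i, s i), l i, d i - lg (m i + 1), b i)) (by fun_prop) (u := fun i => (x i, y i)) l2
  have c2 := cnt (U := U) (N := N) (R := fun (a : (ℕ × ℕ) × ℕ) (_ : Unit) B => Bk a.1 a.2 B) (by fun_prop)
    (a := fun i => ((m i, s i), l i)) (by fun_prop) (u := fun _ => ()) (fun i => (b1 i).1) (l := fun i => m i + 1 - l i)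
    fun i => nm_div (f1 i) (fun B v => v ∈ B) (fun B h => (many_list (k1.nd h)).mono (k1.len h).ge
      fun v hv => ⟨k1.sub h hv, hv⟩) fun _ _ _ => k1.uq
  have f2 : ∀ i, ¬Many (2 ^ l i + 1) fun v => v ∈ B i := fun i => nm_list (k1.len (b1 i).1).le
  choose k n1 D n2 n3 using fun i => k2.pig (a := (B i, b i, y i)) (k := m i + 1) (P := fun v => x i ∈ v.1)
    (fun e => f2 i (e.mono (Nat.pow_lt_pow_right one_lt_two (l1 i)) fun _ e => e.1))
    ((b1 i).2.mono le_rfl fun _ e => ⟨⟨e.1, e.2.2⟩, e.2.1⟩)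
  have sk : Sm N k := (sm_add sm (sm_const 1)).mono fun i => (n1 i).le
  obtain ⟨t, ht⟩ : ∃ t : I → ℕ, ∀ i, t i = d i - lg (m i + 1) - lg (m i + 1) := ⟨_, fun _ => rfl⟩
  obtain ⟨p, hp⟩ : ∃ p : I → ℕ, ∀ i, p i = lg (32 * (m i + s i + 3) ^ 4) := ⟨_, fun _ => rfl⟩
  simp only [← ht] at n3
  have st : Sm N t := sd.mono fun i => by rw [ht]; omega
  have zp : Le N p 0 := funext hp ▸ Sm.lg (by simp only [pow_succ, pow_zero]; fun_prop)
  have sp := zp.sm
  have e1 : ∀ i, t i ≤ k i := fun i => pow_le_of ((n3 i).mono le_rfl fun _ e => e.1) (nm_list (k2.len (n2 i)).le)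
  have e2 : ∀ i, k i ≤ l i := fun i => pow_le_of ((many_list (k2.nd (n2 i))).mono (k2.len (n2 i)).ge
    fun _ e => (k2.sub (n2 i) e).1) (f2 i)
  obtain ⟨R, m1, m2⟩ := pick (U := U) (N := N) (R := fun (a : ℕ × ℕ × ℕ × ℕ) (B R : List (List α × γ)) =>
    Mark B a.1 a.2.1 a.2.2.1 a.2.2.2 R) (by unfold Mark Cov; fun_prop)
    (a := fun i => (t i, k i, k i - t i + p i, l i - t i + p i)) (by fun_prop) (u := B) fun i =>
      mark_ex (L := m i + s i) (m := k i) _ (k1.len (b1 i).1).le (by have := l1 i; omega) (by have := n1 i; omega)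
        (fun v hv => (k1.sub (b1 i).1 hv).2.trans (Nat.pow_le_pow_right two_pos (Nat.le_add_left _ _)))
        (hp i ▸ (lt_lg _).le)
  obtain ⟨G, g1, g2, g3, g4⟩ := unif (R := fun (a : (List (List α × γ) × List (List α × γ)) × ℕ × ℕ) Cv =>
    Cov a.1.1 a.1.2 a.2.1 a.2.2 Cv) (by unfold Cov; fun_prop)
  let T : ℕ × ℕ × ℕ × ℕ → List (List α × γ) × List (List α × γ) → (List α × γ) × β → Prop := fun a u z =>
    ∃ D Cv, Bl (u.1, a.1, z.2) a.2.1 D ∧ G ((D, u.2), a.2.2) Cv ∧ z.1 ∈ Cv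
  have rT : RE fun z : (ℕ × ℕ × ℕ × ℕ) × (List (List α × γ) × List (List α × γ)) × (List α × γ) × β =>
    T z.1 z.2.1 z.2.2 := RE.un (RE.re (by unfold T; fun_prop))
  obtain ⟨v, v1, v2⟩ := pick (U := U) (N := N) (R := fun a (u : (α × β) × List (List α × γ) × List (List α × γ)) v =>
    T a u.2 (v, u.1.2) ∧ u.1.1 ∈ v.1) (by fun_prop) (a := fun i => (b i, k i, t i, k i - t i + p i)) (by fun_prop)
    (u := fun i => ((x i, y i), B i, R i)) fun i => by
      obtain ⟨Cv, h⟩ := (m1 i).cov (k1.nd (b1 i).1) (fun _ e => (k2.sub (n2 i) e).1) (k2.len (n2 i)).le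
      obtain ⟨Cv, h⟩ := g4 ((D i, R i), t i, k i - t i + p i) Cv h
      obtain ⟨v, e⟩ := (n3 i).ex (Nat.two_pow_pos _)
      obtain ⟨v, e⟩ := (g2 _ _ h).2.2 v e.1 _ e.2 (n3 i)
      exact ⟨v, ⟨_, _, n2 i, h, e.1⟩, e.2⟩
  have vR : ∀ i, v i ∈ R i := fun i => let ⟨⟨_, _, _, h, e⟩, _⟩ := v1 i; (g2 _ _ h).1 _ e
  have c3 := cnt (U := U) (N := N) (R := T) (r_pw rT) (a := fun i => (b i, k i, t i, k i - t i + p i)) (by fun_prop)
    (u := fun i => (B i, R i)) (v := fun i => (v i, y i)) (fun i => (v1 i).1)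
    (l := fun i => l i + 1 + (b i + 1) + 1 - k i + 1 + (k i - t i + p i + 1)) fun i e => by
      rw [pow_add] at e
      refine nm_ex (q := fun z : β × List (List α × γ) => Bl (B i, b i, z.1) (k i) z.2)
        (r := fun z (z' : (List α × γ) × β) => z'.2 = z.1 ∧ ∃ Cv, G ((z.2, R i), t i, k i - t i + p i) Cv ∧ z'.1 ∈ Cv)
        (nm_up (nm_div (p := fun z : (List α × γ) × β => ∃ v, v ∈ B i ∧ z.1 = v ∧ CL U z.2 v (b i)) (nm_up (nm_ex
          (nm_up (f2 i) (succ_le_pow _)) fun v _ e => fewC v (b i) (e.rel (fun z y => y = z.2)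
            (fun z e => ⟨_, rfl, e.2⟩) fun z z' _ a b c d => Prod.ext (a.1.trans b.1.symm) (c.symm.trans d)))
          (by rw [← pow_add]; exact succ_le_pow _)) (fun z z' => z'.2 = z.1 ∧ z'.1 ∈ z.2) (fun z h => ?_)
          fun z z' _ a b c d => ?_) (succ_le_pow _)) (fun z _ e => ?_)
        (e.mono le_rfl fun z ⟨D, Cv, h1, h2⟩ => ⟨(z.2, D), h1, rfl, Cv, h2⟩)
      · exact ((many_list (k2.nd h)).mono (k2.len h).ge fun _ => id).rel (fun v z' => z' = (v, z.1))
          (fun v hv => ⟨_, rfl, ⟨v, (k2.sub h hv).1, rfl, (k2.sub h hv).2⟩, rfl, hv⟩)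
          fun _ _ _ _ _ a b => (Prod.ext_iff.1 (a.symm.trans b)).1
      · obtain e := c.1.symm.trans d.1
        exact Prod.ext e (k2.uq (e ▸ a) b c.2 d.2)
      · obtain ⟨_, -, Cv, h, -⟩ := e.ex (Nat.two_pow_pos _)
        exact nm_up (nm_list (g2 _ _ h).2.1) (succ_le_pow _) (e.rel (fun z v => v = z.1)
          (fun z ⟨_, _, h', e⟩ => ⟨_, rfl, g3 _ _ _ h h' ▸ e⟩) fun z z' _ a b c d =>
            Prod.ext (c.symm.trans d) (a.1.trans b.1.symm))
  have c4 := cnt (U := U) (N := N) (R := fun (_ : Unit) (u : List (List α × γ) × List (List α × γ)) v => v ∈ u.2) (by fun_prop)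
    (sm_const ()) (u := fun i => (B i, R i)) vR fun i => nm_list (m1 i).2.1
  have z1 := pair0 b2 (wk Prod.snd (by fun_prop) (fun _ => rfl) m2.sm |>.zero m2)
  have z2 := pair0 z1 v2
  have pu := (hx.pair hy).of0 z2
  obtain ⟨r, r3, r4, r5⟩ := chop (U := U) (u := fun i => ((B i, R i), v i)) hy.sm
    (t := fun i => C U (y i) ((B i, R i), v i) - b i) (sm_sub hy.sm)
  have pB := (hx.pair hy).of0 b2
  have pBR := (hx.pair hy).of0 z1
  have pv : Pl U N v := pu.map Prod.snd (by fun_prop) fun _ => rfl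
  have c5 := small (U := U) (u := fun i => ((), (B i, R i), v i)) (sm_sub hy.sm) r3
  refine ⟨fun i => (((B i, R i), v i), r i), .mul 20 ?_, ?_, .mul 1 ?_, pair0 z2 (tri0 (fn0 (fun z => (z.2, z.1.2))
    (by fun_prop) fun _ => rfl) r4)⟩
  · filter_upwards [c1, c2, c3, c4, c5, zp, (sm_add sm (sm_const 1)).lg, ev_ge N 7, m2,
      chain pu (.of_le c5 (sm_sub hy.sm)), chain pBR pv.sm, img (fun (_ : Unit) _ (B : List (List α × γ)) => B)
        (by fun_prop) (sm_const ()) pB fun _ => rfl, chain pB ((pB.of0 m2).sm (u := fun i => ((), B i))),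
      wk (u' := fun i => ((), B i)) Prod.snd (by fun_prop) (fun _ => rfl) m2.sm,
      wk (u' := fun i => ((), B i, R i)) Prod.snd (by fun_prop) (fun _ => rfl) pv.sm,
      sym ((pv.pair hy).sm (u := fun i => (B i, R i)))] with e c1 c2 c3 c4 c5 c6 c7 c8 c9 a1 a2 a3 a4 a5 a6 a7 i
    have := c1 i; have := c2 i; have := c3 i; have := c4 i; have := c5 i; have := c6 i; have := c7 i; have := c8 i
    have := c9 i; have := a1 i; have := a2 i; have := a4 i; have := a5 i; have := a6 i; have := a7 i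
    have := ht i; have := e1 i; have := e2 i; have := l1 i; have := d1 i
    simp only [Pi.zero_apply] at *
    omega
  · exact cnt (R := fun (_ : Unit) (q : ((List (List α × γ) × List (List α × γ)) × (List α × γ)) × ℕ) x => x ∈ q.1.2.1)
      (by fun_prop) (sm_const ()) (fun i => (v1 i).2) fun i => nm_list (k1.sub (b1 i).1 ((m1 i).1 _ (vR i))).2
  · filter_upwards [r5] with e h i
    have := h i; omega

theorem chop0 {v : I → β} {t : I → ℕ} (h : Pl U N v) (ht : Sm N t) : ∃ r : I → ℕ, (∀ i, r i < 2 ^ t i) ∧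
    Le N (fun i => C U (r i) (v i)) 0 ∧ Le N (fun i => C U (v i) (r i)) fun i => C U (v i) () - t i := by
  obtain ⟨r, h1, h2, h3⟩ := chop (u := fun _ => ()) h ht
  refine ⟨r, h1, tri0 (fn0 (fun v => ((), v)) (by fun_prop) fun _ => rfl) h2, .mul 2 ?_⟩
  filter_upwards [h3, wk (u' := r) (fun v => ((), v)) (by fun_prop) (fun _ => rfl) h.sm] with e h1 h2 i
  have := h1 i; have := h2 i; omega

theorem swap {u : I → α} {v : I → β} {w : I → δ} (h : Sm N fun i => C U (v i, w i) (u i)) :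
    Le N (fun i => C U (w i, v i) (u i)) fun i => C U (v i, w i) (u i) :=
  img (fun (_ : Unit) _ z => (z.2, z.1)) (by fun_prop) (sm_const ()) h fun _ => rfl

theorem swc {u : I → α} {v : I → β} {w : I → δ} (h : Sm N fun i => C U (w i) (u i, v i)) :
    Le N (fun i => C U (w i) (v i, u i)) fun i => C U (w i) (u i, v i) :=
  wk (fun z => (z.2, z.1)) (by fun_prop) (fun _ => rfl) h

theorem rect1 {Bk Nx} (k : Blocks (fun (a : (ℕ × ℕ) × γ) (v : Bool × α) => CL U v.2 a.2 (cond v.1 a.1.2 a.1.1)) Bk Nx)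
    {x y : I → α} {z : I → γ} (hx : Pl U N x) (hy : Pl U N y) (hz : Pl U N z) {t : I → ℕ × ℕ} (ht : Sm N t)
    {l : I → ℕ} (hl : Sm N l) {B : I → List (Bool × α)} (s : Bool) (h : ∀ i, cond s (t i).2 (t i).1 = C U (x i) (z i) ∧
      Bk (t i, z i) (l i) (B i) ∧ (s, x i) ∈ B i ∧ Nx (t i, z i) (l i) (B i) (!s, y i)) :
    ∃ q : I → ℕ, Ev N fun i e => C U (q i) () + C U (z i) (x i, y i) ≤ C U (z i) () + e ∧
      C U (x i) (q i) ≤ C U (x i) (z i) + e ∧ C U (y i) (q i) ≤ C U (y i) (z i) + e ∧ C U (q i) (x i, y i) ≤ e := by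
  classical
  have r1 := k.re
  have r2 := k.re'
  have a1 := uniq (U := U) (R := fun (a : (ℕ × ℕ) × ℕ) (u : γ × α) B => Bk (a.1, u.1) a.2 B ∧ (s, u.2) ∈ B) (by fun_prop)
    (sm_pair ht hl) (u := fun i => (z i, x i)) (fun i => ⟨(h i).2.1, (h i).2.2.1⟩) fun _ _ _ a b => k.uq a.1 b.1 a.2 b.2
  have a2 := uniq (U := U) (R := fun (a : (ℕ × ℕ) × ℕ) (u : γ × α) B => Nx (a.1, u.1) a.2 B (!s, u.2)) (by fun_prop)
    (sm_pair ht hl) (u := fun i => (z i, y i)) (fun i => (h i).2.2.2) fun _ _ _ => k.uq'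
  have pB := (hz.pair hx).of0 a1
  have f : ∀ i, ¬Many (2 ^ (C U (x i) (z i) + 1)) fun v : α => CL U v (z i) (cond s (t i).2 (t i).1) := fun i => by
    rw [(h i).1]; exact fewC _ _
  choose d d1 d2 d3 using fun i => exlog (p := fun v => (s, v) ∈ B i) (h i).2.2.1 (C U (x i) (z i))
    fun e => f i (e.mono le_rfl fun v e => k.sub (h i).2.1 e)
  have sd : Sm N d := hx.sm.mono d1
  have a3 := cnt (U := U) (R := fun (a : (ℕ × ℕ) × ℕ × ℕ) (u : γ) B => Bk (a.1, u) a.2.1 B ∧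
    Many (2 ^ a.2.2) fun v => (s, v) ∈ B) (by fun_prop) (sm_pair ht (sm_pair hl sd)) (fun i => ⟨(h i).2.1, d2 i⟩)
    fun i => nm_div (f i) (fun B v => (s, v) ∈ B) (fun B e => e.2.mono le_rfl fun v hv => ⟨k.sub e.1 hv, hv⟩)
      fun _ _ _ a b => k.uq a.1 b.1
  let F : γ × List (Bool × α) → List α × γ × List (Bool × α) := fun u => ((u.2.filter fun v => v.1 == s).map Prod.snd, u)
  have hF : Primrec F := by unfold F; fun_prop
  have m : ∀ u v, v ∈ (F u).1 ↔ (s, v) ∈ u.2 := fun u v => by simp [F]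
  have a4 := fn0 (U := U) (N := N) (u := fun i => (z i, B i)) F hF fun _ => rfl
  have pw := (hz.pair pB).of0 a4
  obtain ⟨q, q1, q2, q3, q4⟩ := one_sided (sm_add sd (sm_const 1)) pw hx hy (fun i => (m _ _).2 (h i).2.2.1) fun i =>
    not_lt.1 fun c => d3 i ((many_list (((k.nd (h i).2.1).filter _).map_on fun v a v' b e => Prod.ext
      (by simp_all) e)).mono c.le fun v => (m (z i, B i) v).1)
  have pq := (hx.pair hy).of0 q4
  obtain ⟨r, r3, r4, r5⟩ := chop0 pq (t := fun i => C U (q i) () - C U (B i) (z i)) (sm_sub pq)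
  refine ⟨r, .mul 9 ?_⟩
  filter_upwards [q1, q2, q3, a2, a3, a4, r5, tri0 q4 r4, small (U := U) (u := fun _ => ()) (sm_sub pq) r3, ev_ge N 2,
    tri (u := r) pq.sm hx.sm, tri (u := r) pq.sm hy.sm, sym ((pB.pair hy).sm (u := z)), swap ((hy.pair pB).sm (u := z)),
    chain (u := z) hy.sm pB.sm, wk (u' := fun i => F (z i, B i)) Prod.snd (by fun_prop) (fun _ => rfl) hy.sm,
    tri (hz.pair pB) a4.sm, chain hz pB.sm, wk (u' := fun i => ((), z i)) Prod.snd (by fun_prop) (fun _ => rfl) pB.sm,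
    img (fun (_ : Unit) _ (w : List α × γ × List (Bool × α)) => w.2.1) (by fun_prop) (sm_const ())
      (pw.sm (u := fun i => (x i, y i))) fun _ => rfl,
    wk (u' := fun i => (x i, y i)) (fun _ => ()) (by fun_prop) (fun _ => rfl) hz]
    with e c1 c2 c3 c4 c5 c6 c7 c8 c9 b1 b2 b3 b4 b5 b6 b7 b8 b9 g1 g2 g3 i e' he
  have := c1 i; have := c2 i; have := c3 i; have := c4 i; have := c5 i; have := c6 i; have := c7 i; have := c8 i
  have := c9 i; have := b1 i; have := b2 i; have := b3 i; have := b4 i; have := b5 i; have := b6 i; have := b7 i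
  have := b8 i; have := b9 i; have := g1 i; have := g2 i; have := g3 i; have := d1 i
  simp only [Pi.zero_apply, F] at *
  omega

/-- the rectangle lemma -/
theorem rect {x y : I → α} {z : I → γ} (hx : Pl U N x) (hy : Pl U N y) (hz : Pl U N z) :
    ∃ q : I → ℕ, Ev N fun i e => C U (q i) () + C U (z i) (x i, y i) ≤ C U (z i) () + e ∧
      C U (x i) (q i) ≤ C U (x i) (z i) + e ∧ C U (y i) (q i) ≤ C U (y i) (z i) + e ∧ C U (q i) (x i, y i) ≤ e := by
  obtain ⟨Bk, Nx, k⟩ := blocks (R := fun (a : (ℕ × ℕ) × γ) (v : Bool × α) => CL U v.2 a.2 (cond v.1 a.1.2 a.1.1))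
    (by fun_prop)
  choose l l1 B l2 l3 using fun i => k.split (a := ((C U (x i) (z i), C U (y i) (z i)), z i)) (v := (false, x i))
    (v' := (true, y i)) (k := 2 + (C U (x i) (z i) + C U (y i) (z i) + 1) + 1) (fun e => nm_ex (n := 2 ^ 2)
      (q := fun _ : Bool => True) (r := fun s (v : Bool × α) => v.1 = s ∧ CL U v.2 (z i) (C U (x i) (z i) + C U (y i) (z i)))
      (fun ⟨F, a, _⟩ => by have := F.card_le_univ; simp at this; omega)
      (fun s _ e => fewC (z i) _ (e.rel (fun v w => w = v.2) (fun _ e => ⟨_, rfl, e.2⟩)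
        fun _ _ _ a b c d => Prod.ext (a.1.trans b.1.symm) (c.symm.trans d)))
      (e.mono (by rw [← pow_add]; exact succ_le_pow _) fun v e => ⟨_, trivial, rfl, le_trans e (by
        cases v.1 <;> simp)⟩)) le_rfl le_rfl (by simp)
  have ht := sm_pair (hx.sm (u := z)) (hy.sm (u := z))
  have hl : Sm N l := Sm.mono (by fun_prop) fun i => (l1 i).le
  refine Ev.cases (Q := fun i (q : ℕ) e => C U q () + C U (z i) (x i, y i) ≤ C U (z i) () + e ∧
      C U (x i) q ≤ C U (x i) (z i) + e ∧ C U (y i) q ≤ C U (y i) (z i) + e ∧ C U q (x i, y i) ≤ e)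
    (fun i => (false, x i) ∈ B i ∧ Nx ((C U (x i) (z i), C U (y i) (z i)), z i) (l i) (B i) (true, y i))
    ?_ ?_
  · exact rect1 k (hx.comp Subtype.val) (hy.comp _) (hz.comp _) (ht.comp _) (hl.comp _) false fun i => ⟨rfl, l2 i, i.2⟩
  generalize hp : (fun i => ¬((false, x i) ∈ B i ∧
      Nx ((C U (x i) (z i), C U (y i) (z i)), z i) (l i) (B i) (true, y i))) = p
  obtain ⟨q, h⟩ := rect1 k (hy.comp (Subtype.val (p := p))) (hx.comp _) (hz.comp _) (ht.comp _)
    (hl.comp _) (B := fun i => B i) true fun i => ⟨rfl, l2 i, (l3 i).resolve_left (by subst hp; exact i.2)⟩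
  have pq : Pl U _ q := ((hy.pair hx).comp _).of0 (h.mono fun _ h i => (h i).2.2.2.trans (Nat.le_add_left _ _))
  refine ⟨q, .mul 2 ?_⟩
  filter_upwards [h, swc (u := fun i : Subtype p => y i) (v := fun i => x i) pq.sm,
    swc (u := fun i : Subtype p => y i) (v := fun i => x i) (hz.comp Subtype.val).sm] with e c1 c2 c3 i e' he
  have := c1 i; have := c2 i; have := c3 i
  omega

end Pool.Agent.Lib.AK
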