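import Pool.Agent.Lib.helper22.KD
/-! Fingerprints that are good for polynomially many conditions. -/
namespace Pool.Agent.Lib.AK
open Filter Encodable Pool.Agent.H.MP_d04dff_lc Pool.Agent.Lib.helper21.KC Pool.Agent.Lib.helper21.PR
attribute [local irreducible] Primrec Computable C

variable {α β γ δ : Type} [Primcodable α] [Primcodable β] [Primcodable γ] [Primcodable δ]

@[fun_prop] theorem p_gd {f : α → List (List ℕ)} {i x : α → ℕ} (hf : Primrec f) (hi : Primrec i) (hx : Primrec x) :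
    Primrec fun a => gd (f a) (i a) (x a) := by unfold gd; fun_prop

def Hash (L D g q : ℕ) (f : List (List ℕ)) : Prop := ∀ k < L + 1, ∀ S ∈ (List.range (2 ^ L)).sublists,
  2 ^ k < S.length ∨ ¬Many (2 ^ (k - g) + 1) fun x => x ∈ S ∧ Many (2 * L + 2) fun i => i ∈ List.range D ∧
    Many (2 ^ (g + q) + 1) fun y => y ∈ S ∧ gd f i y % 2 ^ k = gd f i x % 2 ^ k

theorem hash_ex (L D g : ℕ) : ∃ f, Hash L D g (lg ((L + 6) * D)) f := by
  classical
  obtain ⟨f, h⟩ := hash L D g _ (lt_lg _).le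
  refine ⟨f, fun k hk S hS => or_iff_not_imp_left.2 fun c e => ?_⟩
  refine (h k (by omega) S.toFinset (fun x hx => by simpa using (List.mem_sublists.1 hS).subset (List.mem_toFinset.1 hx))
    (S.toFinset_card_le.trans (not_lt.1 c)) _ (Finset.filter_subset _ _) fun x hx => ?_).not_gt (many_iff.1 e)
  simpa only [many_iff, List.toFinset_range, Nat.succ_le_iff] using (Finset.mem_filter.1 hx).2

theorem Hash.few {L D g q k : ℕ} {f : List (List ℕ)} (h : Hash L D g q f) (hk : k ≤ L) {p : ℕ → Prop}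
    (h1 : ∀ y, p y → y < 2 ^ L) (h2 : ¬Many (2 ^ k + 1) p) : ¬Many (2 ^ (k - g) + 1) fun x => p x ∧
      Many (2 * L + 2) fun i => i < D ∧ Many (2 ^ (g + q) + 1) fun y => p y ∧ gd f i y % 2 ^ k = gd f i x % 2 ^ k := by
  classical
  have e : ∀ y, y ∈ (List.range (2 ^ L)).filter (p ·) ↔ p y := fun y => by simpa using h1 y
  obtain c | c := h k (by omega) _ (List.mem_sublists.2 (List.filter_sublist (p := (p ·))))
  · exact absurd ((many_list (List.nodup_range.filter _)).mono c fun w => (e w).1) h2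
  · simpa only [e, List.mem_range] using c

variable {U : Str → Str →. Str} [hU : Fact (OptC U)] {I : Type} {N : I → ℕ}

theorem finger {x : I → β} (hx : Pl U N x) (w : I → ℕ → γ) {M S : I → ℕ} (hM : Sm N M) (hS : Sm N S) :
    ∃ r : I → ℕ, Le N (fun i => C U (r i) (x i)) 0 ∧ Ev N fun i e => ∀ t < M i, ∀ s ≤ S i,
      C U (x i) (w i t, r i % 2 ^ s) ≤ C U (x i) (w i t) - s + e := by
  classical
  obtain ⟨L, hL⟩ : ∃ L : I → ℕ, L = fun i => C U (x i) () := ⟨_, rfl⟩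
  have sL : Sm N L := hL ▸ hx
  obtain ⟨v, v1, v2, v3⟩ := chop0 hx sL
  replace v3 : Le N (fun i => C U (x i) (v i)) 0 := by simp only [hL, Nat.sub_self] at v3; exact v3
  have pv := hx.of0 v2
  obtain ⟨D, hD⟩ : ∃ D : I → ℕ, D = fun i => (M i + 1) * (2 * L i + 2) + 1 := ⟨_, rfl⟩
  have sD : Sm N D := hD ▸ by fun_prop
  obtain ⟨q, hq⟩ : ∃ q : I → ℕ, q = fun i => lg ((L i + 6) * D i) := ⟨_, rfl⟩
  have zq : Le N q 0 := hq ▸ Sm.lg (by fun_prop)
  have sq := zq.sm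
  obtain ⟨F, f1, f2⟩ := pick (U := U) (N := fun j : I × ℕ => N j.1) (R := fun (a : ℕ × ℕ × ℕ × ℕ) (_ : Unit) f =>
    Hash a.1 a.2.1 a.2.2.1 a.2.2.2 f) (by unfold Hash; fun_prop)
    (a := fun j => (L j.1, D j.1, min (L j.1) j.2, q j.1))
    (sm_pair (sL.comp _) (sm_pair (sD.comp _) (sm_pair (sm_min (sL.comp _)) (sq.comp _)))) (u := fun _ => ())
    fun j => hq ▸ hash_ex _ _ _
  obtain ⟨k, hk⟩ : ∃ k : I → ℕ → ℕ, k = fun i t => min (L i) (C U (v i) (w i t) + 1) := ⟨_, rfl⟩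
  let P : ℕ × ℕ → γ → ℕ → Prop := fun a u y => y < 2 ^ a.1 ∧ CL U y u a.2
  have p1 : ∀ i t, ¬Many (2 ^ k i t + 1) (P (L i, C U (v i) (w i t)) (w i t)) := fun i t e => by
    rw [hk] at e
    rcases le_total (L i) (C U (v i) (w i t) + 1) with c | c
    · exact nm_lt _ (e.mono (by simp [c]) fun _ e => e.1)
    · exact fewC _ _ (e.mono (by simp [c]) fun _ e => e.2)
  let Ov : (ℕ × ℕ) × ℕ × ℕ → List (List ℕ) × γ → ℕ → ℕ → Prop := fun a u x i =>
    Many (2 ^ a.2.2 + 1) fun y => P a.1 u.2 y ∧ gd u.1 i y % 2 ^ a.2.1 = gd u.1 i x % 2 ^ a.2.1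
  let Bad : ((ℕ × ℕ) × ℕ × ℕ) × ℕ → List (List ℕ) × γ → ℕ → Prop := fun a u x => P a.1.1 u.2 x ∧
    Many (2 * a.1.1.1 + 2) fun i => i < a.2 ∧ Ov a.1 u x i
  let A : I × ℕ × ℕ → ((ℕ × ℕ) × ℕ × ℕ) × ℕ := fun j =>
    (((L j.1, C U (v j.1) (w j.1 j.2.1)), k j.1 j.2.1, min (L j.1) j.2.2 + q j.1), D j.1)
  have kL : ∀ i t, k i t ≤ L i := fun i t => hk ▸ min_le_left _ _
  have sk : Sm (fun j : I × ℕ × ℕ => N j.1) fun j => k j.1 j.2.1 := (sL.comp _).mono fun _ => kL _ _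
  have sA : Sm (fun j : I × ℕ × ℕ => N j.1) A := sm_pair (sm_pair (sm_pair (sL.comp _) (pv.comp _).sm)
    (sm_pair sk (sm_add (sm_min (sL.comp _)) (sq.comp _)))) (sD.comp _)
  obtain ⟨B, hB⟩ : ∃ B : I × ℕ × ℕ → Prop, B = fun j => Bad (A j) (F (j.1, j.2.2), w j.1 j.2.1) (v j.1) := ⟨_, rfl⟩
  have z0 : ∀ {J : Type} (g : J → I × ℕ) (u : J → γ), Le (fun j => N (g j).1) (fun j => C U (F (g j), u j) (u j)) 0 :=
    fun g u => pair0 (tri0 (fn0 (fun _ => ()) (by fun_prop) fun _ => rfl) (Ev.comp f2 g))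
      (fn0 Prod.fst (by fun_prop) fun _ => rfl)
  have c1 := cnt (U := U) (R := Bad) (by unfold Bad Ov P; fun_prop) (sA.comp (Subtype.val (p := B)))
    (u := fun j => (F (j.1.1, j.1.2.2), w j.1.1 j.1.2.1)) (v := fun j => v j.1.1) (fun j => by subst hB; exact j.2)
    fun j => (f1 (j.1.1, j.1.2.2)).few (kL _ _) (fun _ e => e.1) (p1 _ _)
  obtain ⟨c, hc⟩ := (c1.and (weak (z0 (fun j : Subtype B => (j.1.1, j.1.2.2)) fun j => w j.1.1 j.1.2.1)
    (pv.comp fun j : Subtype B => j.1.1).sm)).exists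
  obtain ⟨g, hg⟩ : ∃ g : I → ℕ, g = fun i => (2 * c + 2) * lg (N i) := ⟨_, rfl⟩
  have c2 : ∀ i t, B (i, t, g i) → C U (v i) (w i t) ≤ 2 * c * lg (N i) := fun i t h => by
    have := hc.1 ⟨_, h⟩
    have := hc.2 ⟨_, h⟩
    have := lg_pos (N i)
    simp only [hk, hg, add_mul, mul_assoc] at *
    omega
  have : ∀ i, ∃ n < D i, ∀ t < M i, ¬B (i, t, g i) → ¬Ov (A (i, t, g i)).1 (F (i, g i), w i t) (v i) n := fun i => by
    by_contra! h
    refine nm_ex (q := fun t => t < M i ∧ ¬B (i, t, g i))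
      (r := fun t n => n < D i ∧ Ov (A (i, t, g i)).1 (F (i, g i), w i t) (v i) n)
      (fun e => nm_lt _ (e.mono le_rfl fun _ e => e.1)) (fun t e e' => e.2 (hB ▸ ⟨⟨v1 i, le_rfl⟩, e'⟩))
      ((many_lt (D i)).mono (by rw [hD]) fun n hn => let ⟨t, a, b, c⟩ := h n hn; ⟨t, ⟨a, b⟩, hn, c⟩)
  choose n n1 n2 using this
  have sn : Sm N n := sD.mono fun i => (n1 i).le
  obtain ⟨r, hr⟩ : ∃ r : I → ℕ, r = fun i => gd (F (i, g i)) (n i) (v i) := ⟨_, rfl⟩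
  have z1 : Le N (fun i => C U (r i) (x i)) 0 := tri0 (tri0 v2 (pair0 (tri0 (fn0 (fun _ => ()) (by fun_prop) fun _ => rfl)
    (Ev.comp f2 fun i => (i, g i))) (fn0 Prod.fst (by fun_prop) fun _ => rfl)))
    (fn (fun n (u : List (List ℕ) × ℕ) => gd u.1 n u.2) (by fun_prop) sn fun _ => by rw [hr])
  refine ⟨r, z1, ?_⟩
  let p : I × ℕ × ℕ → Prop := fun j => j.2.1 < M j.1 ∧ j.2.2 ≤ S j.1
  have ss : Sm (fun j : Subtype p => N j.1.1) fun j => j.1.2.2 := (hS.comp _).mono fun j => j.2.2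
  have c3 := cnt (U := U) (N := fun j : Subtype p => N j.1.1) (R := fun (a : (ℕ × ℕ) × ℕ × ℕ)
    (u : List (List ℕ) × γ × ℕ) y => P a.1 u.2.1 y ∧ gd u.1 a.2.2 y % 2 ^ a.2.1 = u.2.2) (by unfold P; fun_prop)
    (a := fun j => ((L j.1.1, C U (v j.1.1) (w j.1.1 j.1.2.1)), k j.1.1 j.1.2.1, n j.1.1))
    (sm_pair (sm_pair (sL.comp _) (pv.comp _).sm) (sm_pair (sk.comp _) (sn.comp _)))
    (u := fun j => (F (j.1.1, g j.1.1), w j.1.1 j.1.2.1, r j.1.1 % 2 ^ k j.1.1 j.1.2.1)) (v := fun j => v j.1.1)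
    (fun j => ⟨⟨v1 _, le_rfl⟩, by rw [hr]⟩) (l := fun j => g j.1.1 + q j.1.1) fun j e => by
      by_cases b : B (j.1.1, j.1.2.1, g j.1.1)
      · refine p1 _ _ (e.mono (Nat.succ_le_succ (Nat.pow_le_pow_right two_pos ?_)) fun _ e => e.1)
        have := c2 _ _ b
        have := lg_pos (N j.1.1)
        simp only [hk, hg, add_mul, mul_assoc] at *
        omega
      · exact n2 _ _ j.2.1 b (e.mono (Nat.succ_le_succ (Nat.pow_le_pow_right two_pos
          (Nat.add_le_add_right (min_le_right _ _) _))) fun _ e => by rwa [hr] at e)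
  have c4 := bits (U := U) (u := fun j : Subtype p => w j.1.1 j.1.2.1) (k := fun j => r j.1.1) ss (sk.comp _)
  have s4 := Sm.of_le c4 (sm_sub (sk.comp _))
  have c5 := img (U := U) (fun (_ : Unit) (u : γ × ℕ) (k : ℕ) => (u.1, k)) (by fun_prop) (sm_const ()) s4 fun _ => rfl
  have c6 : Ev N fun i e => g i ≤ e := eventually_atTop.2 ⟨_, fun _ h i => hg ▸ Nat.mul_le_mul_right _ h⟩
  refine Ev.mul 12 ?_
  have pj := pv.comp fun j : Subtype p => j.1.1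
  have pk := hx.comp fun j : Subtype p => j.1.1
  filter_upwards [c3, c4, c5, c6, zq, v2, v3, ev_ge N 1, tri (.of_le c5 s4) pk.sm,
    tri (u := fun j : Subtype p => (w j.1.1 j.1.2.1, r j.1.1 % 2 ^ k j.1.1 j.1.2.1)) pj.sm pk.sm,
    tri (u := fun j : Subtype p => w j.1.1 j.1.2.1) pk.sm pj.sm,
    weak (pair0 (tri0 (fn0 (fun _ => ()) (by fun_prop) fun _ => rfl) (Ev.comp f2 fun j : Subtype p => (j.1.1, g j.1.1)))
      (fn0 (u := fun j : Subtype p => ((w j.1.1 j.1.2.1, r j.1.1 % 2 ^ k j.1.1 j.1.2.1), F (j.1.1, g j.1.1))) Prod.fst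
        (by fun_prop) fun _ => rfl)) pj.sm] with e a1 a2 a3 a4 a5 a6 a7 a8 a9 b1 b2 b3 i e' he t ht s hs
  have := a1 ⟨(i, t, s), ht, hs⟩; have := a2 ⟨(i, t, s), ht, hs⟩; have := a3 ⟨(i, t, s), ht, hs⟩
  have := a9 ⟨(i, t, s), ht, hs⟩; have := b1 ⟨(i, t, s), ht, hs⟩; have := b2 ⟨(i, t, s), ht, hs⟩
  have := b3 ⟨(i, t, s), ht, hs⟩
  have := a4 i; have := a5 i; have := a6 i; have := a7 i; have := a8 i
  have : k i t ≤ C U (v i) (w i t) + 1 := hk ▸ min_le_right _ _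
  simp only [Pi.zero_apply] at *
  omega

end Pool.Agent.Lib.AK
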