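import Pool.Agent.Lib.helper22.KE
/-! Exact profiles: the algorithmic Ahlswede-Koerner lemma. -/
namespace Pool.Agent.Lib.AK
open Filter Encodable Pool.Agent.H.MP_d04dff_lc Pool.Agent.Lib.helper21.KC Pool.Agent.Lib.helper21.PR
attribute [local irreducible] Primrec Computable C

variable {α β γ δ : Type} [Primcodable α] [Primcodable β] [Primcodable γ] [Primcodable δ]
variable {U : Str → Str →. Str} [hU : Fact (OptC U)] {I : Type} {N : I → ℕ}

theorem bits2 {u : I → γ} {k r t t' s s' : I → ℕ} (ht : Sm N t) (ht' : Sm N t') (hs : Sm N s) (hs' : Sm N s') :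
    Le N (fun i => C U ((u i, k i % 2 ^ t' i), r i % 2 ^ s' i) ((u i, k i % 2 ^ t i), r i % 2 ^ s i))
      fun i => t' i - t i + (s' i - s i) := by
  have c1 := bits (U := U) (u := u) (k := k) ht ht'
  have c2 := bits (U := U) (u := fun _ => ()) (k := r) hs hs'
  have c3 := img (U := U) (fun (_ : Unit) (u : γ × ℕ) (k : ℕ) => (u.1, k)) (by fun_prop) (sm_const ())
    (.of_le c1 (sm_sub ht')) fun _ => rfl
  have s3 := Sm.of_le c3 (.of_le c1 (sm_sub ht'))
  have c4 := wk (u' := fun i => ((u i, k i % 2 ^ t i), r i % 2 ^ s i)) Prod.fst (by fun_prop) (fun _ => rfl) s3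
  have c5 := wk (u' := fun i => (((u i, k i % 2 ^ t i), r i % 2 ^ s i), (u i, k i % 2 ^ t' i))) (fun z => ((), z.1.2))
    (by fun_prop) (fun _ => rfl) (.of_le c2 (sm_sub hs'))
  refine .mul 6 ?_
  filter_upwards [c1, c2, c3, c4, c5, chain (.of_le c4 s3) (.of_le c5 (.of_le c2 (sm_sub hs')))] with e c1 c2 c3 c4 c5 c6 i
  have := c1 i; have := c2 i; have := c3 i; have := c4 i; have := c5 i; have := c6 i
  omega

theorem ex1 [Inhabited α] {x y : I → α} {p : I → δ} {k T a b : I → ℕ} (hx : Pl U N x) (hy : Pl U N y) (hT : Sm N T)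
    (h : Ev N fun i e => C U (x i) (k i % 2 ^ T i) ≤ a i + e ∧ a i ≤ C U (x i) (k i % 2 ^ T i) + e ∧
      C U (y i) (k i % 2 ^ T i) ≤ b i + e ∧ b i ≤ C U (y i) () + e ∧
      b i + C U (x i) () ≤ a i + C U (y i) () + C U (x i) (y i) + e)
    (h6 : Le N (fun i => C U (k i) (p i)) 0) (h7 : Le N (fun i => C U (x i) (p i)) 0) :
    ∃ z : I → (List α × ℕ) × ℕ, Ev N fun i e => C U (x i) (z i) ≤ a i + e ∧ a i ≤ C U (x i) (z i) + e ∧
      C U (y i) (z i) ≤ b i + e ∧ b i ≤ C U (y i) (z i) + e ∧ C U (z i) () ≤ T i + e ∧ C U (z i) (p i) ≤ e := by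
  obtain ⟨r, r1, r2⟩ := finger hx (fun i t => if t ≤ T i then (([] : List α), k i % 2 ^ t) else ([y i], 0))
    (sm_add hT (sm_const 2)) hx
  obtain ⟨s, hs⟩ : ∃ s : I → ℕ → ℕ, ∀ i t, s i t = min (C U (x i) ()) (C U (x i) (([] : List α), k i % 2 ^ t) - a i) :=
    ⟨_, fun _ _ => rfl⟩
  have ss : ∀ {J : Type} (g : J → I) (t : J → ℕ), Sm (fun j => N (g j)) fun j => s (g j) (t j) :=
    fun g t => Sm.mono (hx.comp g) fun j => hs _ _ ▸ min_le_left _ _
  let z : I → ℕ → (List α × ℕ) × ℕ := fun i t => (([], k i % 2 ^ t), r i % 2 ^ s i t)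
  have lo : ∀ {J : Type} (g : J → I) (t t' : J → ℕ), (∀ j, t j ≤ t' j) → Sm (fun j => N (g j)) t →
      Le (fun j => N (g j)) (fun j => C U (([] : List α), k (g j) % 2 ^ t j) (k (g j) % 2 ^ t' j)) 0 :=
    fun g t t' c st => fn (fun t u => ([], u % 2 ^ t)) (by fun_prop) st fun j => by
      rw [Nat.mod_mod_of_dvd _ (pow_dvd_pow 2 (c j))]
  have cz : ∀ t : I → ℕ, Sm N t → Le N (fun i => C U (z i (t i)) ()) fun i => t i + s i (t i) := fun t st => .mul 2 (by
    have := bits2 (U := U) (u := fun _ => ([] : List α)) (k := k) (r := r) (sm_const 0) st (sm_const 0) (ss id t)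
    filter_upwards [this, weak (u' := fun _ => ()) (fn0 (fun _ => ((([] : List α), 0), 0)) (by fun_prop) fun _ => by
      simp [Nat.mod_one]) (.of_le this (sm_add (sm_sub st) (sm_sub (ss id t))))] with e c1 c2 i
    have := c1 i; have := c2 i
    simp only [z, id] at *
    omega)
  obtain ⟨t, t1, t2, t3⟩ := ivt (N := N) (T := T) (b := b) (f := fun i t => C U (y i) (z i t))
    (.mul 2 (by
      filter_upwards [h, wk (u' := fun i => z i (T i)) (fun u => u.1.2) (by fun_prop) (fun _ => rfl) hy.sm] with e c1 c2 i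
      have := c1 i; have := c2 i; simp only [z] at *; omega))
    (.mul 5 (by
      let p : I × ℕ → Prop := fun j => j.2 < T j.1
      have st : Sm (fun j : Subtype p => N j.1.1) fun j => j.1.2 := (hT.comp _).mono fun j => j.2.le
      have c := bits2 (U := U) (u := fun _ => ([] : List α)) (k := fun j : Subtype p => k j.1.1) (r := fun j => r j.1.1)
        st (sm_add st (sm_const 1)) (ss _ fun j => j.1.2) (ss _ fun j => j.1.2 + 1)
      filter_upwards [c, ev_ge N 1, tri (.of_le c (sm_add (sm_sub (sm_add st (sm_const 1))) (sm_sub (ss _ _))))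
        (hy.comp fun j : Subtype p => j.1.1).sm, weak (tri0 (fn0 (u := fun j : Subtype p =>
          (([] : List α), k j.1.1 % 2 ^ (j.1.2 + 1))) Prod.snd (by fun_prop) fun _ => rfl)
          (lo _ _ _ (fun j => Nat.le_succ _) st)) (hx.comp _).sm] with e c1 c2 c3 c4 i e' he t ht
      have := c1 ⟨(i, t), ht⟩; have := c2 i; have := c3 ⟨(i, t), ht⟩; have := c4 ⟨(i, t), ht⟩
      have := hs i t; have := hs i (t + 1)
      simp only [z] at *
      omega))
    (.mul 12 (by
      have pz : Pl U N fun i => z i 0 := .of_le (cz _ (sm_const 0)) (sm_add (sm_const _) (ss id _))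
      filter_upwards [h, r2, cz _ (sm_const 0), sym (hy.pair hx), tri pz (hy.pair hx).sm,
        chain (u := fun i => z i 0) hy.sm hx.sm, wk (u' := y) (fun y => ((), y)) (by fun_prop) (fun _ => rfl) hx.sm,
        wk (u' := fun i => (z i 0, y i)) (fun u => (([u.2], 0), u.1.2)) (by fun_prop) (fun _ => rfl) hx.sm,
        wk (u' := fun i => ([y i], 0)) (fun u => u.1.headD default) (by fun_prop) (u := y) (fun _ => rfl) hx.sm,
        wk (u' := fun i => (([] : List α), k i % 2 ^ 0)) (fun _ => ()) (by fun_prop) (fun _ => rfl) hx]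
        with e c1 c2 c3 c4 c5 c6 c7 c8 c9 a1 i
      have := c2 i (T i + 1) (by omega) (s i 0) (hs _ _ ▸ min_le_left _ _)
      rw [if_neg (by omega)] at this
      have := c1 i; have := c3 i; have := c4 i; have := c5 i; have := c6 i; have := c7 i; have := c8 i; have := c9 i
      have := a1 i; have := hs i 0
      simp only [z] at *
      omega))
  have st : Sm N t := hT.mono t1
  have c1 := bits (U := U) (u := fun _ => ([] : List α)) (k := k) st hT
  have c2 := small (U := U) (u := fun i => (([] : List α), k i % 2 ^ t i)) (ss id t) fun i => Nat.mod_lt (r i) (by positivity)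
  have c3 := img (U := U) (fun (_ : Unit) u k => (u, k)) (by fun_prop) (sm_const ()) (.of_le c2 (ss id t)) fun _ => rfl
  refine ⟨fun i => z i (t i), .mul 6 ?_⟩
  filter_upwards [h, r2, t2, t3, c1, c2, c3, cz t st, tri (.of_le c1 (sm_sub hT)) hx.sm,
    tri (.of_le c3 (.of_le c2 (ss id t))) hx.sm, weak (lo id t T t1 st) hx.sm,
    wk (u' := fun i => (([] : List α), k i % 2 ^ t i)) (fun _ => ()) (by fun_prop) (fun _ => rfl) hx,
    pair0 (tri0 h6 (fn (fun t u => (([] : List α), u % 2 ^ t)) (by fun_prop) st fun _ => rfl))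
      (tri0 (tri0 (tri0 (fn0 Prod.fst (by fun_prop) fun _ => rfl) h7) r1)
        (fn (fun t u => u % 2 ^ t) (by fun_prop) (ss id t) fun _ => rfl))]
    with e a1 a2 a3 a4 a5 a6 a7 a8 a9 b1 b2 b3 b4 i e' he
  have := a2 i (t i) (by have := t1 i; omega) (s i (t i)) (hs _ _ ▸ min_le_left _ _)
  rw [if_pos (t1 i)] at this
  have := a1 i; have := a3 i; have := a4 i; have := a5 i; have := a6 i; have := a7 i; have := a8 i; have := a9 i
  have := b1 i; have := b2 i; have := b3 i; have := b4 i; have := hs i (t i); have := t1 i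
  simp only [z, id, Pi.zero_apply] at *
  omega

theorem ex2 [Inhabited α] {x y : I → α} {q : I → γ} {a b : I → ℕ} (hx : Pl U N x) (hy : Pl U N y)
    (h : Ev N fun i e => C U (x i) (q i) ≤ a i + e ∧ C U (y i) (q i) ≤ b i + e ∧ a i ≤ C U (x i) () + e ∧
      b i ≤ C U (y i) () + e ∧ b i + C U (x i) () ≤ a i + C U (x i, y i) () + e ∧
      a i + C U (y i) () ≤ b i + C U (x i, y i) () + e) (h0 : Le N (fun i => C U (q i) (x i, y i)) 0) :
    ∃ z : I → (List α × ℕ) × ℕ, Ev N fun i e => C U (x i) (z i) ≤ a i + e ∧ a i ≤ C U (x i) (z i) + e ∧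
      C U (y i) (z i) ≤ b i + e ∧ b i ≤ C U (y i) (z i) + e ∧ C U (z i) () ≤ C U (q i) () + e ∧
      C U (z i) (x i, y i) ≤ e := by
  have pq := (hx.pair hy).of0 h0
  obtain ⟨k, k1, k2, k3⟩ := chop0 pq pq
  replace k3 : Le N (fun i => C U (q i) (k i)) 0 := by simp only [Nat.sub_self] at k3; exact k3
  obtain ⟨t, t1, t2, t3⟩ := ivt (N := N) (T := fun i => C U (q i) ()) (b := fun i => a i + b i)
    (f := fun i t => max (C U (x i) (k i % 2 ^ t) + b i) (C U (y i) (k i % 2 ^ t) + a i))
    (.mul 2 (by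
      filter_upwards [h, weak k3 hx.sm, weak k3 hy.sm] with e c1 c2 c3 i
      have := c1 i; have := c2 i; have := c3 i
      rw [Nat.mod_eq_of_lt (k1 i)]; omega))
    (.mul 4 (by
      let p : I × ℕ → Prop := fun j => j.2 < C U (q j.1) ()
      have st : Sm (fun j : Subtype p => N j.1.1) fun j => j.1.2 := Sm.mono (pq.comp _) fun j => j.2.le
      have c := bits (U := U) (u := fun _ => ()) (k := fun j : Subtype p => k j.1.1) st (sm_add st (sm_const 1))
      have sc := Sm.of_le c (sm_sub (sm_add st (sm_const 1)))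
      have d := wk (u' := fun j : Subtype p => k j.1.1 % 2 ^ j.1.2) (fun u => ((), u)) (by fun_prop) (fun _ => rfl) sc
      filter_upwards [c, d, ev_ge N 1, tri (.of_le d sc) (hx.comp fun j : Subtype p => j.1.1).sm,
        tri (.of_le d sc) (hy.comp fun j : Subtype p => j.1.1).sm] with e c1 c2 c3 c4 c5 i e' he t ht
      have := c1 ⟨(i, t), ht⟩; have := c2 ⟨(i, t), ht⟩; have := c3 i; have := c4 ⟨(i, t), ht⟩; have := c5 ⟨(i, t), ht⟩
      simp only at *
      omega))
    (.mul 2 (by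
      filter_upwards [h, weak (u := fun i => k i % 2 ^ 0) (u' := fun _ => ()) (fn0 (fun _ => 0) (by fun_prop) fun _ => by
        simp [Nat.mod_one]) hx.sm] with e c1 c2 i
      have := c1 i; have := c2 i; omega))
  have st : Sm N t := Sm.mono pq t1
  have k4 := tri0 h0 k2
  have c1 := chain hx hy.sm
  have c2 := chain hy hx.sm
  have c3 := swap (hy.pair hx)
  have c4 := wk (u' := fun i => ((), x i)) Prod.snd (by fun_prop) (fun _ => rfl) hy.sm
  have c5 := wk (u' := fun i => ((), y i)) Prod.snd (by fun_prop) (fun _ => rfl) hx.sm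
  have H : Ev N fun i e => max (C U (x i) (k i % 2 ^ t i) + b i) (C U (y i) (k i % 2 ^ t i) + a i) ≤ a i + b i + e ∧
      a i + b i ≤ max (C U (x i) (k i % 2 ^ t i) + b i) (C U (y i) (k i % 2 ^ t i) + a i) + e ∧
      a i ≤ C U (x i) () + e ∧ b i ≤ C U (y i) () + e ∧ b i + C U (x i) () ≤ a i + C U (y i) () + C U (x i) (y i) + e ∧
      a i + C U (y i) () ≤ b i + C U (x i) () + C U (y i) (x i) + e := .mul 5 (by
    filter_upwards [h, t2, t3, c1, c2, c3, c4, c5] with e a1 a2 a3 a4 a5 a6 a7 a8 i e' he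
    have := a1 i; have := a2 i; have := a3 i; have := a4 i; have := a5 i; have := a6 i; have := a7 i; have := a8 i
    omega)
  refine Ev.cases (Q := fun i (z : (List α × ℕ) × ℕ) e => C U (x i) z ≤ a i + e ∧ a i ≤ C U (x i) z + e ∧
      C U (y i) z ≤ b i + e ∧ b i ≤ C U (y i) z + e ∧ C U z () ≤ C U (q i) () + e ∧ C U z (x i, y i) ≤ e)
    (fun i => C U (y i) (k i % 2 ^ t i) + a i ≤ C U (x i) (k i % 2 ^ t i) + b i) ?_ ?_
  · generalize hp : (fun i => C U (y i) (k i % 2 ^ t i) + a i ≤ C U (x i) (k i % 2 ^ t i) + b i) = p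
    obtain ⟨z, hz⟩ := ex1 (I := Subtype p) (hx.comp (Subtype.val (p := p))) (hy.comp _) (st.comp _) (k := fun j => k j)
      (a := fun j => a j) (b := fun j => b j) (H.mono fun e h j => by
        have := h j; subst hp; have := j.2; simp only at *; omega) (Ev.comp k4 _) (fn0 Prod.fst (by fun_prop) fun _ => rfl)
    exact ⟨z, hz.mono fun e h j => by have := h j; have := t1 j; simp only at *; omega⟩
  · generalize hp : (fun i => ¬C U (y i) (k i % 2 ^ t i) + a i ≤ C U (x i) (k i % 2 ^ t i) + b i) = p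
    obtain ⟨z, hz⟩ := ex1 (I := Subtype p) (hy.comp (Subtype.val (p := p))) (hx.comp _) (st.comp _) (k := fun j => k j)
      (a := fun j => b j) (b := fun j => a j) (H.mono fun e h j => by
        have := h j; subst hp; have := j.2; simp only at *; omega) (Ev.comp k4 _) (fn0 Prod.snd (by fun_prop) fun _ => rfl)
    exact ⟨z, hz.mono fun e h j => by have := h j; have := t1 j; simp only at *; omega⟩

/-- every admissible profile above a simple rectangle is attained -/
theorem exact [Inhabited α] {x y : I → α} {q : I → γ} {a b c : I → ℕ} (hx : Pl U N x) (hy : Pl U N y)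
    (h : Ev N fun i e => C U (x i) (q i) ≤ a i + e ∧ C U (y i) (q i) ≤ b i + e ∧ a i ≤ C U (x i) () + e ∧
      b i ≤ C U (y i) () + e ∧ b i + C U (x i) () ≤ a i + C U (x i, y i) () + e ∧
      a i + C U (y i) () ≤ b i + C U (x i, y i) () + e ∧ C U (q i) () + c i ≤ C U (x i, y i) () + e ∧
      a i ≤ c i + e ∧ b i ≤ c i + e) (h0 : Le N (fun i => C U (q i) (x i, y i)) 0) :
    ∃ z : I → (((List α × ℕ) × ℕ) × List α) × ℕ, Ev N fun i e => C U (x i) (z i) ≤ a i + e ∧ a i ≤ C U (x i) (z i) + e ∧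
      C U (y i) (z i) ≤ b i + e ∧ b i ≤ C U (y i) (z i) + e ∧ C U (x i, y i) (z i) ≤ c i + e ∧
      c i ≤ C U (x i, y i) (z i) + e ∧ C U (z i) (x i, y i) ≤ e := by
  obtain ⟨z, hz⟩ := ex2 hx hy (a := a) (b := b) (h.mono fun e h i => by have := h i; omega) h0
  have z0 : Le N (fun i => C U (z i) (x i, y i)) 0 := hz.mono fun e h i => by have := h i; simp only [Pi.zero_apply]; omega
  have hp := hx.pair hy
  have pz := hp.of0 z0
  obtain ⟨s, hs⟩ : ∃ s : I → ℕ, ∀ i, s i = C U (x i, y i) (z i, ([] : List α)) - c i := ⟨_, fun _ => rfl⟩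
  have ss : Sm N s := funext hs ▸ sm_sub hp.sm
  obtain ⟨r, r1, r2⟩ := finger hp (fun i t => (z i, [[], [x i], [y i]].getD t [])) (sm_const 3) ss
  have c2 := small (U := U) (u := fun i => (z i, ([] : List α))) ss fun i => Nat.mod_lt (r i) (by positivity)
  have c3 := img (U := U) (fun (_ : Unit) u k => (u, k)) (by fun_prop) (sm_const ()) (.of_le c2 ss) fun _ => rfl
  have key : ∀ {x : I → α} {y : I → α} {p : I → α × α}, Pl U N x → Pl U N y →
      Le N (fun i => C U (p i) (x i, y i)) 0 → Le N (fun i => C U (x i, y i) (p i)) 0 → Ev N fun i e =>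
      C U (p i) ((z i, ([] : List α)), r i % 2 ^ s i) ≤ C U (x i) ((z i, ([] : List α)), r i % 2 ^ s i) +
        C U (p i) ((z i, [x i]), r i % 2 ^ s i) + e ∧
      C U (x i) (z i) + C U (p i) (z i, [x i]) ≤ C U (p i) (z i, ([] : List α)) + e ∧
      C U (x i) ((z i, ([] : List α)), r i % 2 ^ s i) ≤ C U (x i) (z i) + e := fun {x y p} hx hy p1 p2 => .mul 9 (by
    have hp := (hx.pair hy).of0 p1
    filter_upwards [p1, p2, chain (u := fun i => ((z i, ([] : List α)), r i % 2 ^ s i)) hx.sm hp.sm,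
      img (fun (_ : Unit) _ (v : α × α × α) => v.2) (by fun_prop) (sm_const ())
        ((hx.pair hp).sm (u := fun i => ((z i, ([] : List α)), r i % 2 ^ s i))) fun _ => rfl,
      wk (u' := fun i => (((z i, ([] : List α)), r i % 2 ^ s i), x i)) (fun u => ((u.1.1.1, [u.2]), u.1.2))
        (by fun_prop) (fun _ => rfl) hp.sm,
      wk (u' := fun i => ((z i, ([] : List α)), r i % 2 ^ s i)) (fun u => u.1.1) (by fun_prop) (fun _ => rfl) hx.sm,
      sym ((hx.pair hy).sm (u := z)), tri (u := z) hp.sm p2.sm,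
      wk (u' := z) (fun u => (u, ([] : List α))) (by fun_prop) (fun _ => rfl) hp.sm,
      wk (u' := fun i => (z i, [x i])) (u := fun i => (z i, x i)) (fun u => (u.1, u.2.headD default)) (by fun_prop)
        (fun _ => rfl) hy.sm, tri (u := fun i => (z i, [x i])) (hx.pair hy).sm p1.sm,
      img (u := fun i => (z i, [x i])) (w := fun i => (x i, y i)) (fun (_ : Unit) u v => (u.2.headD default, v))
        (by fun_prop) (sm_const ()) hy.sm fun _ => rfl] with e a1 a2 a3 a4 a5 a6 a7 a8 a9 b1 b2 b3 i e' he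
    have := a1 i; have := a2 i; have := a3 i; have := a4 i; have := a5 i; have := a6 i; have := a7 i; have := a8 i
    have := a9 i; have := b1 i; have := b2 i; have := b3 i
    simp only [Pi.zero_apply] at *
    omega)
  refine ⟨fun i => ((z i, []), r i % 2 ^ s i), .mul 12 ?_⟩
  filter_upwards [h, hz, r2, c2, c3, tri (.of_le c3 (.of_le c2 ss)) hp.sm, tri pz hp.sm,
    wk (u' := fun i => (z i, ([] : List α))) Prod.fst (by fun_prop) (fun _ => rfl) hp.sm,
    wk (u' := z) (fun u => (u, ([] : List α))) (by fun_prop) (fun _ => rfl) hp.sm,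
    key hx hy (p := fun i => (x i, y i)) (fn0 id (by fun_prop) fun _ => rfl) (fn0 id (by fun_prop) fun _ => rfl),
    key hy hx (p := fun i => (x i, y i)) (fn0 (fun z => (z.2, z.1)) (by fun_prop) fun _ => rfl)
      (fn0 (fun z => (z.2, z.1)) (by fun_prop) fun _ => rfl),
    pair0 (tri0 z0 (fn0 (fun u => (u, ([] : List α))) (by fun_prop) fun _ => rfl))
      (tri0 (tri0 (fn0 Prod.fst (by fun_prop) fun _ => rfl) r1)
        (fn (fun t u => u % 2 ^ t) (by fun_prop) ss fun _ => rfl))]
    with e a1 a2 a3 a4 a5 a6 a7 a8 a9 b1 b2 b3 i e' he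
  have := a3 i 0 (by omega) _ le_rfl; have := a3 i 1 (by omega) _ le_rfl; have := a3 i 2 (by omega) _ le_rfl
  have := a1 i; have := a2 i; have := a4 i; have := a5 i; have := a6 i; have := a7 i; have := a8 i
  have := a9 i; have := b1 i; have := b2 i; have := b3 i; have := hs i
  simp only [Pi.zero_apply, List.getD_cons_zero, List.getD_cons_succ] at *
  omega

theorem soi {u : I → α} {v : I → β} (hu : Pl U N u) (hv : Pl U N v) : Ev N fun i e =>
    C U (u i, v i) () ≤ C U (u i) () + C U (v i) (u i) + e ∧ C U (u i) () + C U (v i) (u i) ≤ C U (u i, v i) () + e ∧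
    C U (u i, v i) () ≤ C U (v i) () + C U (u i) (v i) + e ∧ C U (v i) () + C U (u i) (v i) ≤ C U (u i, v i) () + e :=
  .mul 3 (by
    filter_upwards [chain hu hv.sm, chain hv hu.sm, sym (hu.pair hv), sym (hv.pair hu), swap (hu.pair hv),
      swap (hv.pair hu), wk (u' := fun i => ((), u i)) Prod.snd (by fun_prop) (fun _ => rfl) hv.sm,
      wk (u' := fun i => ((), v i)) Prod.snd (by fun_prop) (fun _ => rfl) hu.sm,
      wk (u' := u) (fun y => ((), y)) (by fun_prop) (fun _ => rfl) hv.sm,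
      wk (u' := v) (fun y => ((), y)) (by fun_prop) (fun _ => rfl) hu.sm] with e a1 a2 a3 a4 a5 a6 a7 a8 a9 b1 i e' he
    have := a1 i; have := a2 i; have := a3 i; have := a4 i; have := a5 i; have := a6 i; have := a7 i; have := a8 i
    have := a9 i; have := b1 i
    omega)

theorem adm {x : I → α} {y : I → β} {z : I → γ} (hx : Pl U N x) (hy : Pl U N y) (hz : Pl U N z) : Ev N fun i e =>
    C U (x i) (z i) ≤ C U (x i) () + e ∧ C U (y i) (z i) ≤ C U (y i) () + e ∧
    C U (y i) (z i) + C U (x i) () ≤ C U (x i) (z i) + C U (x i, y i) () + e ∧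
    C U (x i) (z i) + C U (y i) () ≤ C U (y i) (z i) + C U (x i, y i) () + e ∧
    C U (x i) (z i) ≤ C U (x i, y i) (z i) + e ∧ C U (y i) (z i) ≤ C U (x i, y i) (z i) + e ∧
    C U (z i) () + C U (x i, y i) (z i) ≤ C U (x i, y i) () + C U (z i) (x i, y i) + e ∧
    C U (x i, y i) () + C U (z i) (x i, y i) ≤ C U (z i) () + C U (x i, y i) (z i) + e := .mul 3 (by
  filter_upwards [soi hx hy, soi (hx.pair hy) hz, tri (u := z) hx.sm hy.sm, tri (u := z) hy.sm hx.sm,
    wk (u' := z) (fun _ => ()) (by fun_prop) (fun _ => rfl) hx, wk (u' := z) (fun _ => ()) (by fun_prop) (fun _ => rfl) hy,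
    img (u := z) (fun (_ : Unit) _ (v : α × β) => v.1) (by fun_prop) (sm_const ()) (hx.pair hy).sm fun _ => rfl,
    img (u := z) (fun (_ : Unit) _ (v : α × β) => v.2) (by fun_prop) (sm_const ()) (hx.pair hy).sm fun _ => rfl]
    with e a1 a2 a3 a4 a5 a6 a7 a8 i e' he
  have := a1 i; have := a2 i; have := a3 i; have := a4 i; have := a5 i; have := a6 i; have := a7 i; have := a8 i
  omega)

/-- the algorithmic Ahlswede-Koerner lemma -/
theorem ak [Inhabited α] {x y : I → α} {z : I → γ} (hx : Pl U N x) (hy : Pl U N y) (hz : Pl U N z) :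
    ∃ w : I → ℕ, Ev N fun i e => C U (x i) (w i) ≤ C U (x i) (z i) + e ∧ C U (x i) (z i) ≤ C U (x i) (w i) + e ∧
      C U (y i) (w i) ≤ C U (y i) (z i) + e ∧ C U (y i) (z i) ≤ C U (y i) (w i) + e ∧
      C U (x i, y i) (w i) ≤ C U (x i, y i) (z i) + e ∧ C U (x i, y i) (z i) ≤ C U (x i, y i) (w i) + e ∧
      C U (w i) (x i, y i) ≤ e := by
  obtain ⟨q, h⟩ := rect hx hy hz
  obtain ⟨w, hw⟩ := exact hx hy (q := q) (a := fun i => C U (x i) (z i)) (b := fun i => C U (y i) (z i))
    (c := fun i => C U (x i, y i) (z i)) (.mul 2 (by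
      filter_upwards [h, adm hx hy hz] with e a1 a2 i e' he
      have := a1 i; have := a2 i; omega)) (h.mono fun e h i => (h i).2.2.2.trans (Nat.le_add_left _ _))
  refine ⟨fun i => encode (w i), ?_⟩
  unfold C at hw ⊢
  exact hw

theorem rnd (u : α) (s : ℕ) : ∃ r < 2 ^ s, s ≤ C U r u := by
  cases s with
  | zero => exact ⟨0, by simp, by simp⟩
  | succ s =>
    by_contra! h
    exact fewC (U := U) u s ((many_lt _).mono le_rfl fun r hr => Nat.le_of_lt_succ (h r hr))

theorem pad {z : I → α} {p : I → β} {v : I → γ} {r s : I → ℕ} (hv : Pl U N v) (hs : Sm N s) (h1 : ∀ i, r i < 2 ^ s i)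
    (h2 : ∀ i, s i ≤ C U (r i) (z i, p i)) (h3 : Le N (fun i => C U (v i) (p i)) 0) : Ev N fun i e =>
    C U (v i) (z i, r i) ≤ C U (v i) (z i) + e ∧ C U (v i) (z i) ≤ C U (v i) (z i, r i) + e := .mul 6 (by
  have hr : Pl U N r := .of_le (small hs h1) hs
  filter_upwards [wk (u' := fun i => (z i, r i)) Prod.fst (by fun_prop) (fun _ => rfl) hv.sm, small (u := z) (U := U) hs h1,
    chain (u := z) hr.sm hv.sm, swap (u := z) (hr.pair hv).sm, sym (u := z) (hv.pair hr).sm,
    weak (u' := fun i => (z i, p i)) (pair0 (fn0 Prod.fst (by fun_prop) fun _ => rfl)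
      (tri0 (fn0 (fun u => u.1.2) (by fun_prop) fun _ => rfl) h3)) hr.sm] with e a1 a2 a3 a4 a5 a6 i e' he
  have := a1 i; have := a2 i; have := a3 i; have := a4 i; have := a5 i; have := a6 i; have := h2 i
  omega)

variable (U N) in
/-- domination of Gray-Wyner profiles -/
def Dom (x y x' y' : I → α) : Prop := ∀ w : I → ℕ, Pl U N w → ∃ w' : I → ℕ, Ev N fun i e =>
  C U (w' i) () ≤ C U (w i) () + e ∧ C U (x' i) (w' i) ≤ C U (x i) (w i) + e ∧ C U (y' i) (w' i) ≤ C U (y i) (w i) + e

theorem Dom.le {x y x' y' : I → α} (h : Dom U N x y x' y') (hx : Pl U N x) (hy : Pl U N y) (hx' : Pl U N x')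
    (hy' : Pl U N y') : Ev N fun i e => C U (x' i) () ≤ C U (x i) () + e ∧ C U (y' i) () ≤ C U (y i) () + e ∧
      C U (x' i, y' i) () ≤ C U (x i, y i) () + e := by
  obtain ⟨w, h1⟩ := h (fun _ => 0) (sm_const 0).pl
  have hp := (hx.pair hy).map encode (by fun_prop) fun _ => rfl
  obtain ⟨v, h2⟩ := h _ hp
  have z := (sm_const (N := N) 0).le0 (U := U) (u := fun _ => ())
  have pw : Pl U N w := .of_le (h1.mono fun _ h i => (h i).1) z.sm
  have pv : Pl U N v := .of_le (h2.mono fun _ h i => (h i).1) hp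
  refine .mul 9 ?_
  filter_upwards [h1, h2, z, tri pw hx'.sm, tri pw hy'.sm, tri pv (hx'.pair hy').sm, chain (u := v) hx'.sm hy'.sm,
    wk (u' := fun i => (v i, x' i)) Prod.fst (by fun_prop) (fun _ => rfl) hy'.sm,
    fn0 (U := U) (N := N) (u := fun i => (x i, y i)) Prod.fst (by fun_prop) fun _ => rfl,
    fn0 (U := U) (N := N) (u := fun i => (x i, y i)) Prod.snd (by fun_prop) fun _ => rfl] with e a1 a2 a3 a4 a5 a6 a7 a8 a9 b1 i e' he
  have := a1 i; have := a2 i; have := a3 i; have := a4 i; have := a5 i; have := a6 i; have := a7 i; have := a8 i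
  have := a9 i; have := b1 i
  have : C U (x i) 0 = C U (x i) () := by unfold C; rfl
  have : C U (y i) 0 = C U (y i) () := by unfold C; rfl
  have : C U (x i) (encode (x i, y i)) = C U (x i) (x i, y i) := by unfold C; rfl
  have : C U (y i) (encode (x i, y i)) = C U (y i) (x i, y i) := by unfold C; rfl
  have : C U (encode (x i, y i)) () = C U (x i, y i) () := by unfold C; rfl
  simp only [Pi.zero_apply] at *
  omega

def Near (a b e : ℕ) : Prop := a ≤ b + e ∧ b ≤ a + e

/-- transfer of extended profiles -/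
theorem transfer [Inhabited α] {x y x' y' : I → α} {q : I → γ} (hx : Pl U N x) (hy : Pl U N y) (hx' : Pl U N x')
    (hy' : Pl U N y') (hq : Pl U N q) (h : Dom U N x y x' y') (h' : Dom U N x' y' x y) :
    ∃ w : I → ℕ, Pl U N w ∧ Ev N fun i e => Near (C U (x i) ()) (C U (x' i) ()) e ∧ Near (C U (y i) ()) (C U (y' i) ()) e ∧
      Near (C U (x i, y i) ()) (C U (x' i, y' i) ()) e ∧ Near (C U (q i) ()) (C U (w i) ()) e ∧
      Near (C U (x i) (q i)) (C U (x' i) (w i)) e ∧ Near (C U (y i) (q i)) (C U (y' i) (w i)) e ∧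
      Near (C U (x i, y i) (q i)) (C U (x' i, y' i) (w i)) e := by
  obtain ⟨q0, h0⟩ := rect hx hy hq
  have p0 : Pl U N q0 := .of_le (h0.mono fun _ h i => le_of_add_le_left (h i).1) hq
  obtain ⟨q1, h1⟩ := h q0 p0
  have p1 : Pl U N q1 := .of_le (h1.mono fun _ h i => (h i).1) p0
  obtain ⟨q2, h2⟩ := rect hx' hy' p1
  have d := h.le hx hy hx' hy'
  have d' := h'.le hx' hy' hx hy
  have ad := adm hx hy hq
  obtain ⟨z, hz⟩ := exact hx' hy' (q := q2) (a := fun i => C U (x i) (q i)) (b := fun i => C U (y i) (q i))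
    (c := fun i => C U (x i, y i) (q i)) (.mul 6 (by
      filter_upwards [h0, h1, h2, d, d', ad] with e a1 a2 a3 a4 a5 a6 i e' he
      have := a1 i; have := a2 i; have := a3 i; have := a4 i; have := a5 i; have := a6 i
      omega)) (h2.mono fun e h i => (h i).2.2.2.trans (Nat.le_add_left _ _))
  have hp := hx'.pair hy'
  have pz := hp.of0 (hz.mono fun e h i => (h i).2.2.2.2.2.2.trans (Nat.le_add_left _ _))
  choose r r1 r2 using fun i => rnd (U := U) (z i, x' i, y' i) (C U (q i) (x i, y i))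
  have hr : Pl U N r := .of_le (small hq.sm r1) hq.sm
  refine ⟨fun i => encode (z i, r i), (pz.pair hr).map encode (by fun_prop) fun _ => rfl, .mul 9 ?_⟩
  filter_upwards [hz, d, d', ad, soi hp pz, soi pz hr, small (U := U) (u := z) hq.sm r1,
    wk (u' := fun i => (z i, x' i, y' i)) Prod.fst (by fun_prop) (fun _ => rfl) hr.sm,
    pad hx' hq.sm r1 r2 (fn0 Prod.fst (by fun_prop) fun _ => rfl),
    pad hy' hq.sm r1 r2 (fn0 Prod.snd (by fun_prop) fun _ => rfl),
    pad hp hq.sm r1 r2 (fn0 id (by fun_prop) fun _ => rfl)] with e a1 a2 a3 a4 a5 a6 a7 a8 a9 b1 b2 i e' he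
  have := a1 i; have := a2 i; have := a3 i; have := a4 i; have := a5 i; have := a6 i; have := a7 i; have := a8 i
  have := a9 i; have := b1 i; have := b2 i; have := r2 i
  have : C U (x' i) (encode (z i, r i)) = C U (x' i) (z i, r i) := by unfold C; rfl
  have : C U (y' i) (encode (z i, r i)) = C U (y' i) (z i, r i) := by unfold C; rfl
  have : C U (x' i, y' i) (encode (z i, r i)) = C U (x' i, y' i) (z i, r i) := by unfold C; rfl
  have : C U (encode (z i, r i)) () = C U (z i, r i) () := by unfold C; rfl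
  simp only [Near] at *
  omega

end Pool.Agent.Lib.AK
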