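import Pool.Agent.Lib.helper22.KF
/-! From coded objects back to strings. -/
namespace Pool.Agent.Lib.AK
open Filter Encodable Pool.Agent.H.MP_d04dff_lc Pool.Agent.Lib.helper21.KC Pool.Agent.Lib.helper21.PR
attribute [local irreducible] Primrec Computable

variable {α β γ δ : Type} [Primcodable α] [Primcodable β] [Primcodable γ] [Primcodable δ]
variable {U : Str → Str →. Str} [hU : Fact (OptC U)] {I : Type} {N : I → ℕ}

theorem r_ceq {f g : α → β} (hf : Computable f) (hg : Computable g) : RE fun a => pw (f a = g a) :=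
  r_pw (r_comp (p := fun a : β × β => a.1 = a.2) (RE.un (RE.re (by fun_prop))) (f := fun a => (f a, g a)) (by fun_prop))

variable (U N) in
theorem br (u v : I → Str) : Ev N fun i e => Near (K (fun p => U p (u i)) (v i)) (C U (v i) (u i)) e := by
  have h : Primrec fun s : Str => (decode (α := Str) s.length).getD [] := by fun_prop
  obtain ⟨c, h1⟩ := conv (U := U) h.to_comp (p_cs .id).to_comp
  obtain ⟨d, h2⟩ := conv (U := U) (p_cs .id).to_comp h.to_comp
  refine (ev_ge N (c + d)).mono fun e k i => ?_
  have a := h1 (u i) (cs (v i))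
  have b := h2 (cs (u i)) (v i)
  have := k i
  simp only [cs, id, List.length_replicate, encodek, Option.getD_some] at a b
  simp only [Near, C, cs]
  omega

omit hU in
theorem C_nil (v : β) : C U v ([] : Str) = C U v () := rfl

attribute [local irreducible] C

variable (U N) in
theorem br0 (v : I → Str) : Ev N fun i e => Near (K (fun p => U p []) (v i)) (C U (v i) ()) e := by
  simpa only [C_nil] using br U N (fun _ => []) v

theorem Pl.ofK {v : I → Str} (h : ∀ i, K (fun p => U p []) (v i) ≤ N i) : Pl U N v :=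
  .of_le ((br0 U N v).mono fun _ k i => (k i).2.trans (Nat.add_le_add_right (h i) _)) sm_N

theorem Pl.ofLen {v : I → Str} (h : ∀ i, (v i).length ≤ N i) : Pl U N v := by
  obtain ⟨c, hc⟩ := baseC hU.out
  refine .of_le (g := N) (.mul 2 ?_) sm_N
  filter_upwards [br0 U N v, ev_ge N c] with e h1 h2 i
  obtain ⟨q, a, b⟩ := hc [] (v i)
  have := (h1 i).2.trans (Nat.add_le_add_right (K_le (D := fun p => U p []) a) _); have := h2 i; have := h i
  omega

/-- interchangeable objects -/
theorem same {u : I → α} {u' : I → β} {v : I → γ} (h1 : Le N (fun i => C U (u i) (u' i)) 0)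
    (h2 : Le N (fun i => C U (u' i) (u i)) 0) (hu : Pl U N u) (hv : Pl U N v) : Ev N fun i e =>
      Near (C U (v i) (u i)) (C U (v i) (u' i)) e ∧ Near (C U (u i) (v i)) (C U (u' i) (v i)) e := .mul 2 (by
  filter_upwards [h1, h2, weak h1 hv.sm, weak h2 hv.sm, tri (u := v) hu.sm h2.sm, tri (u := v) (hu.of0 h2).sm h1.sm]
    with e a1 a2 a3 a4 a5 a6 i e' he
  have := a1 i; have := a2 i; have := a3 i; have := a4 i; have := a5 i; have := a6 i
  simp only [Near, Pi.zero_apply] at *
  omega)

theorem code {e : α → β} (he : Computable e) (hi : Function.Injective e) (u : I → α) :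
    Le N (fun i => C U (u i) (e (u i))) 0 ∧ Le N (fun i => C U (e (u i)) (u i)) 0 :=
  ⟨uniq (R := fun (_ : Unit) u v => u = e v) (r_ceq (by fun_prop) (by fun_prop)) (sm_const ()) (fun _ => rfl)
    fun _ _ _ a b => hi (a.symm.trans b), uniq (R := fun (_ : Unit) u v => v = e u) (r_ceq (by fun_prop) (by fun_prop))
      (sm_const ()) (fun _ => rfl) fun _ _ _ a b => a.trans b.symm⟩

theorem Near.abs {a b c n : ℕ} (h : Near a b (c * lg n)) : |(a : ℝ) - b| ≤ (2 * c : ℕ) * Real.logb 2 (2 + n) :=
  abs_real h.1 h.2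

/-- the lemma for strings -/
theorem ak_str {e : Str × Str → Str} (he : Computable e) (hi : Function.Injective e) {x y z : I → Str}
    (hp : Pl U N fun i => e (x i, y i)) (hz : Pl U N z) : ∃ w : I → Str, Ev N fun i d =>
      Near (K (fun p => U p (z i)) (x i)) (K (fun p => U p (w i)) (x i)) d ∧
      Near (K (fun p => U p (z i)) (y i)) (K (fun p => U p (w i)) (y i)) d ∧
      Near (K (fun p => U p (z i)) (e (x i, y i))) (K (fun p => U p (w i)) (e (x i, y i))) d ∧
      K (fun p => U p (e (x i, y i))) (w i) ≤ d := by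
  obtain ⟨c1, c2⟩ := code (U := U) (N := N) he hi fun i => (x i, y i)
  have hp' := hp.of0 c1
  have hx : Pl U N x := hp'.map Prod.fst (by fun_prop) fun _ => rfl
  have hy : Pl U N y := hp'.map Prod.snd (by fun_prop) fun _ => rfl
  obtain ⟨w, h⟩ := ak hx hy hz
  have pw := hp'.of0 (h.mono fun e h i => (h i).2.2.2.2.2.2.trans (Nat.le_add_left _ _))
  obtain ⟨d1, d2⟩ := code (U := U) (N := N) (p_cs .id).to_comp (fun _ _ => cs_inj) w
  refine ⟨fun i => cs (w i), .mul 9 ?_⟩
  filter_upwards [h, same d1 d2 pw hx, same d1 d2 pw hy, same d1 d2 pw hp, same c1 c2 hp' pw, same c1 c2 hp' hz,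
    br U N z x, br U N z y, br U N z fun i => e (x i, y i), br U N (fun i => cs (w i)) x,
    br U N (fun i => cs (w i)) y, br U N (fun i => cs (w i)) fun i => e (x i, y i),
    br U N (fun i => e (x i, y i)) fun i => cs (w i)] with e a1 a2 a3 a4 a5 a6 a7 a8 a9 b1 b2 b3 b4 i e' he
  have := a1 i; have := a2 i; have := a3 i; have := a4 i; have := a5 i; have := a6 i; have := a7 i; have := a8 i
  have := a9 i; have := b1 i; have := b2 i; have := b3 i; have := b4 i
  simp only [Near, id] at *
  omega

end Pool.Agent.Lib.AK
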