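import Pool.Agent.Lib.helper22.KG
/-! Profiles of strings: transfer, and an asymmetric pair. -/
namespace Pool.Agent.Lib.AK
open Filter Encodable Pool.Agent.H.MP_d04dff_lc Pool.Agent.Lib.helper21.KC Pool.Agent.Lib.helper21.PR
attribute [local irreducible] Primrec Computable C

variable {α β γ δ : Type} [Primcodable α] [Primcodable β] [Primcodable γ] [Primcodable δ]
variable {U : Str → Str →. Str} [hU : Fact (OptC U)] {I : Type} {N : I → ℕ} {e : List Str → Str}

theorem two (he : Computable e) (hi : Function.Injective e) (x y : I → Str) :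
    Le N (fun i => C U (x i, y i) (e [x i, y i])) 0 ∧ Le N (fun i => C U (e [x i, y i]) (x i, y i)) 0 :=
  code (e := fun p : Str × Str => e [p.1, p.2]) (by fun_prop) (fun _ _ h => by
    simpa [Prod.ext_iff] using hi h) fun i => (x i, y i)
theorem three (he : Computable e) (hi : Function.Injective e) (x y q : I → Str) :
    Le N (fun i => C U ((x i, y i), q i) (e [x i, y i, q i])) 0 ∧ Le N (fun i => C U (e [x i, y i, q i]) ((x i, y i), q i)) 0 :=
  code (e := fun p : (Str × Str) × Str => e [p.1.1, p.1.2, p.2]) (by fun_prop) (fun _ _ h => by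
    simpa [Prod.ext_iff, and_assoc] using hi h) fun i => ((x i, y i), q i)

theorem same' {u : I → α} {u' : I → β} (v : I → γ) (h : Le N (fun i => C U (u i) (u' i)) 0 ∧
    Le N (fun i => C U (u' i) (u i)) 0) (hu : Pl U N u) : Ev N fun i e => Near (C U (u i) (v i)) (C U (u' i) (v i)) e :=
  .mul 2 (by
    filter_upwards [h.1, h.2, tri (u := v) hu.sm h.2.sm, tri (u := v) (hu.of0 h.2).sm h.1.sm] with e a1 a2 a3 a4 i e' he
    have := a1 i; have := a2 i; have := a3 i; have := a4 i
    simp only [Near, Pi.zero_apply] at *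
    omega)

/-- conditional complexities of a pair, any condition -/
theorem cond_str (he : Computable e) (hi : Function.Injective e) {x y : I → Str} (q : I → Str) (hx : Pl U N x)
    (hy : Pl U N y) : Ev N fun i d => Near (K (fun p => U p (q i)) (x i)) (C U (x i) (q i)) d ∧
      Near (K (fun p => U p (q i)) (y i)) (C U (y i) (q i)) d ∧
      Near (K (fun p => U p (q i)) (e [x i, y i])) (C U (x i, y i) (q i)) d ∧
      Near (K (fun p => U p []) (q i)) (C U (q i) ()) d := .mul 2 (by
  filter_upwards [br U N q x, br U N q y, br U N q fun i => e [x i, y i], br0 U N q, same' q (two he hi x y) (hx.pair hy)]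
    with e a1 a2 a3 a4 a5 i e' he
  have := a1 i; have := a2 i; have := a3 i; have := a4 i; have := a5 i
  simp only [Near] at *
  omega)

theorem prof_str (he : Computable e) (hi : Function.Injective e) {x y q : I → Str} (hx : Pl U N x)
    (hy : Pl U N y) (hq : Pl U N q) : Ev N fun i d => Near (K (fun p => U p []) (x i)) (C U (x i) ()) d ∧
      Near (K (fun p => U p []) (y i)) (C U (y i) ()) d ∧
      Near (K (fun p => U p []) (e [x i, y i])) (C U (x i, y i) ()) d ∧
      Near (K (fun p => U p []) (e [x i, q i])) (C U (q i) () + C U (x i) (q i)) d ∧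
      Near (K (fun p => U p []) (e [y i, q i])) (C U (q i) () + C U (y i) (q i)) d ∧
      Near (K (fun p => U p []) (e [x i, y i, q i])) (C U (q i) () + C U (x i, y i) (q i)) d := .mul 3 (by
  filter_upwards [br0 U N x, br0 U N y, br0 U N fun i => e [x i, y i], br0 U N fun i => e [x i, q i],
    br0 U N fun i => e [y i, q i], br0 U N fun i => e [x i, y i, q i], same' (fun _ => ()) (two he hi x y) (hx.pair hy),
    same' (fun _ => ()) (two he hi x q) (hx.pair hq), same' (fun _ => ()) (two he hi y q) (hy.pair hq),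
    same' (fun _ => ()) (three he hi x y q) ((hx.pair hy).pair hq), soi hx hq, soi hy hq, soi (hx.pair hy) hq]
    with e a1 a2 a3 a4 a5 a6 a7 a8 a9 b1 b2 b3 b4 i e' he
  have := a1 i; have := a2 i; have := a3 i; have := a4 i; have := a5 i; have := a6 i; have := a7 i; have := a8 i
  have := a9 i; have := b1 i; have := b2 i; have := b3 i; have := b4 i
  simp only [Near] at *
  omega)

theorem dom_of {x y x' y' : I → Str} {d : I → ℕ} (hx : Pl U N x) (hy : Pl U N y) (hd : Le N d 0)
    (h : ∀ i (q : Str), ∃ q' : Str, K (fun p => U p []) q' ≤ K (fun p => U p []) q + d i ∧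
      K (fun p => U p q') (x' i) ≤ K (fun p => U p q) (x i) + d i ∧
      K (fun p => U p q') (y' i) ≤ K (fun p => U p q) (y i) + d i) : Dom U N x y x' y' := fun w pw => by
  choose q hq using fun i => h i (cs (w i))
  obtain ⟨d1, d2⟩ := code (U := U) (N := N) (p_cs .id).to_comp (fun _ _ => cs_inj) w
  refine ⟨fun i => encode (q i), .mul 4 ?_⟩
  filter_upwards [hd, same d1 d2 pw hx, same d1 d2 pw hy, same' (fun _ => ()) ⟨d1, d2⟩ pw, br0 U N q, br U N q x',
    br U N q y', br0 U N fun i => cs (w i), br U N (fun i => cs (w i)) x, br U N (fun i => cs (w i)) y]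
    with e a1 a2 a3 a4 a5 a6 a7 a8 a9 b1 i e' he
  have := a1 i; have := a2 i; have := a3 i; have := a4 i; have := a5 i; have := a6 i; have := a7 i; have := a8 i
  have := a9 i; have := b1 i; have := hq i
  have : C U (x' i) (encode (q i)) = C U (x' i) (q i) := by unfold C; rfl
  have : C U (y' i) (encode (q i)) = C U (y' i) (q i) := by unfold C; rfl
  have : C U (encode (q i)) () = C U (q i) () := by unfold C; rfl
  simp only [Near, id, Pi.zero_apply] at *
  omega

theorem transfer_str (he : Computable e) (hi : Function.Injective e) {x y x' y' q : I → Str} (hx : Pl U N x)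
    (hy : Pl U N y) (hx' : Pl U N x') (hy' : Pl U N y') (hq : Pl U N q) (h : Dom U N x y x' y') (h' : Dom U N x' y' x y) :
    ∃ w : I → Str, Ev N fun i d => (Near (K (fun p => U p []) (x i)) (K (fun p => U p []) (x' i)) d ∧
      Near (K (fun p => U p []) (y i)) (K (fun p => U p []) (y' i)) d ∧
      Near (K (fun p => U p []) (q i)) (K (fun p => U p []) (w i)) d ∧
      Near (K (fun p => U p []) (e [x i, y i])) (K (fun p => U p []) (e [x' i, y' i])) d ∧
      Near (K (fun p => U p []) (e [x i, q i])) (K (fun p => U p []) (e [x' i, w i])) d ∧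
      Near (K (fun p => U p []) (e [y i, q i])) (K (fun p => U p []) (e [y' i, w i])) d ∧
      Near (K (fun p => U p []) (e [x i, y i, q i])) (K (fun p => U p []) (e [x' i, y' i, w i])) d) ∧
      Near (K (fun p => U p (q i)) (x i)) (K (fun p => U p (w i)) (x' i)) d ∧
      Near (K (fun p => U p (q i)) (y i)) (K (fun p => U p (w i)) (y' i)) d ∧
      Near (K (fun p => U p (q i)) (e [x i, y i])) (K (fun p => U p (w i)) (e [x' i, y' i])) d := by
  obtain ⟨w, pw, hw⟩ := transfer hx hy hx' hy' hq h h'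
  obtain ⟨d1, d2⟩ := code (U := U) (N := N) (p_cs .id).to_comp (fun _ _ => cs_inj) w
  refine ⟨fun i => cs (w i), .mul 6 ?_⟩
  filter_upwards [hw, same d1 d2 pw hx', same d1 d2 pw hy', same d1 d2 pw (hx'.pair hy'), same' (fun _ => ()) ⟨d1, d2⟩ pw,
    prof_str he hi hx hy hq, prof_str he hi hx' hy' (pw.of0 d2), cond_str he hi q hx hy,
    cond_str he hi (fun i => cs (w i)) hx' hy'] with e a1 a2 a3 a4 a5 a6 a7 a8 a9 i e' he
  have := a1 i; have := a2 i; have := a3 i; have := a4 i; have := a5 i; have := a6 i; have := a7 i; have := a8 i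
  have := a9 i
  simp only [Near, id] at *
  omega

theorem toStr {v : I → β} (h : Pl U N v) : ∃ s : I → Str, (∀ i, (s i).length = C U (v i) ()) ∧
    Le N (fun i => C U (v i) (s i)) 0 ∧ Le N (fun i => C U (s i) (v i)) 0 := by
  obtain ⟨k, k1, k2, k3⟩ := chop0 h h
  replace k3 : Le N (fun i => C U (v i) (k i)) 0 := by simp only [Nat.sub_self] at k3; exact k3
  obtain ⟨s, s1, s2⟩ := pick (U := U) (R := fun l k (s : Str) => s.length = l ∧ val s = k) (by fun_prop) h
    fun i => val_surj _ _ (k1 i)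
  exact ⟨s, fun i => (s1 i).1, tri0 (fn0 val val_prim fun i => (s1 i).2.symm) k3, tri0 k2 s2⟩

theorem rnd' {p : β → Prop} {d : ℕ} (h : Many (2 ^ d) p) (u : α) : ∃ v, p v ∧ d ≤ C U v u := by
  cases d with
  | zero => exact (h.ex (by simp)).imp fun _ h => ⟨h, by simp⟩
  | succ s =>
    by_contra! c
    exact fewC (U := U) u s (h.mono le_rfl fun r hr => Nat.le_of_lt_succ (c r hr))

/-- two points determine the line -/
theorem lines {l : I → ℕ × ℕ} {u m : I → ℕ} {y : I → ℕ × ℕ} {q : I → γ} (hl : Pl U N l) (hy : Pl U N y)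
    (hm : Sm N m) (h1 : ∀ i, u i < 2 ^ m i) (h2 : ∀ i, (l i).1 * (y i).1 + (l i).2 = (y i).2) : Ev N fun i e =>
      2 * C U ((l i, u i), y i) (q i) ≤ C U (l i, u i) (q i) + 2 * C U (y i) (q i) + m i + e ∨
      C U ((l i, u i), y i) (q i) ≤ C U (l i, u i) (q i) + e := by
  have hu : Pl U N u := .of_le (small hm h1) hm
  have hx := hl.pair hu
  choose d d1 d2 d3 using fun i => exlog (p := fun v : ℕ × ℕ => (l i).1 * v.1 + (l i).2 = v.2 ∧
    CL U v (q i) (C U (y i) (q i))) (b := y i) ⟨h2 i, le_rfl⟩ _ fun e => fewC _ _ (e.mono le_rfl fun _ e => e.2)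
  have c1 := cnt (U := U) (R := fun (a : ℕ) (u : γ × (ℕ × ℕ) × ℕ) (v : ℕ × ℕ) => u.2.1.1 * v.1 + u.2.1.2 = v.2 ∧
    CL U v u.1 a) (by fun_prop) hy.sm (u := fun i => (q i, l i, u i)) (fun i => ⟨h2 i, le_rfl⟩)
    fun i => nm_up (d3 i) (Nat.le_succ _)
  choose v v1 v2 using fun i => rnd' (U := U) (d2 i) (q i, (l i, u i), y i)
  have sv : Sm N fun i => C U (v i) (q i) := hy.sm.mono fun i => (v1 i).2
  have c2 : Ev N fun i e => y i ≠ v i → C U (l i) (y i, v i) ≤ e := (uniq (U := U) (N := fun j : {i // y i ≠ v i} => N j)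
    (R := fun (_ : Unit) (u : (ℕ × ℕ) × ℕ × ℕ) (l : ℕ × ℕ) => l.1 * u.1.1 + l.2 = u.1.2 ∧ l.1 * u.2.1 + l.2 = u.2.2)
    (by fun_prop) (sm_const ()) (u := fun j => (y j, v j)) (fun j => ⟨h2 j, (v1 j).1⟩) fun j b b' a a' => by
      have n : (y j).1 ≠ (v j).1 := fun c => j.2 (Prod.ext c (by rw [← a.1, ← a.2, c]))
      obtain ⟨a1, a2⟩ := a
      obtain ⟨a3, a4⟩ := a'
      have : ((b.1 : ℤ) - b'.1) * ((y j).1 - (v j).1) = 0 := by zify at a1 a2 a3 a4; linarith
      have : b.1 = b'.1 := by rcases mul_eq_zero.1 this with c | c <;> omega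
      exact Prod.ext this (by rw [this] at a1; omega)).mono fun e h i hi => by simpa using h ⟨i, hi⟩
  have s1 := wk (u' := fun i => (q i, y i)) Prod.fst (by fun_prop) (fun _ => rfl) sv
  have s2 := wk (u' := fun i => (q i, (l i, u i), y i)) Prod.fst (by fun_prop) (fun _ => rfl) sv
  have s3 := chain hy.sm (.of_le s1 sv)
  have s4 := img (u := fun i => (y i, v i)) (w := fun i => (((l i, u i), y i), v i))
    (fun (_ : Unit) u x => ((x, u.1), u.2)) (by fun_prop) (sm_const ()) hx.sm fun _ => rfl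
  have s5 := tri (.of_le s3 (sm_add hy.sm (.of_le s1 sv))) (.of_le s4 hx.sm)
  refine .mul 20 ?_
  filter_upwards [c1, c2, s1, s3, s4, s5, ev_ge N 1, chain (u := q) hx.sm hy.sm, sym (.of_le s5 (sm_add (.of_le s3
    (sm_add hy.sm (.of_le s1 sv))) (.of_le s4 hx.sm))), chain (u := fun i => (y i, v i)) hl.sm hu.sm,
    small (U := U) (u := fun i => ((y i, v i), l i)) hm h1,
    fn0 (U := U) (N := N) (u := fun i => (q i, (l i, u i), y i)) (fun u => u.2.2) (by fun_prop) fun _ => rfl]
    with e a1 a2 a3 a4 a5 a6 a7 a8 a9 b1 b2 b3 i e' he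
  have := a1 i; have := a3 i; have := a4 i; have := a5 i; have := a6 i; have := a7 i; have := a8 i
  have := a9 i; have := b1 i; have := b2 i; have := b3 i; have a := v2 i; have : C U _ _ ≤ _ := (v1 i).2
  simp only [Pi.zero_apply] at *
  by_cases c : y i = v i
  · rw [← c] at a; omega
  · have := a2 i c; omega

theorem asym0 : ∃ (l y : ℕ → ℕ × ℕ) (u : ℕ → ℕ), Pl U id l ∧ Pl U id y ∧ (∀ m, u m < 2 ^ m) ∧
    (∀ m, (l m).1 * (y m).1 + (l m).2 = (y m).2) ∧ Ev id fun m e => 7 * m ≤ C U ((l m, u m), y m) () + e ∧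
      C U (l m) () ≤ 4 * m + e ∧ C U (l m, u m) (l m) ≤ m + e ∧ C U (y m) (l m) ≤ 2 * m + e ∧
      Near (C U (l m, u m) ()) (C U (y m) ()) e := by
  choose r r1 r2 using fun m => rnd (U := U) () (7 * m)
  have sm : Sm id fun m : ℕ => m := sm_N
  obtain ⟨k, hk⟩ : ∃ k : ℕ → ℕ, ∀ m, k m = r m % 2 ^ m := ⟨_, fun _ => rfl⟩
  obtain ⟨u, hu⟩ : ∃ u : ℕ → ℕ, ∀ m, u m = r m / 2 ^ m % 2 ^ m := ⟨_, fun _ => rfl⟩
  obtain ⟨s, hs⟩ : ∃ s : ℕ → ℕ, ∀ m, s m = r m / 2 ^ m / 2 ^ m % 2 ^ (2 * m) := ⟨_, fun _ => rfl⟩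
  obtain ⟨c, hc⟩ : ∃ c : ℕ → ℕ, ∀ m, c m = r m / 2 ^ m / 2 ^ m / 2 ^ (2 * m) := ⟨_, fun _ => rfl⟩
  have k1 : ∀ m, k m < 2 ^ m := fun m => hk m ▸ Nat.mod_lt _ (by positivity)
  have u1 : ∀ m, u m < 2 ^ m := fun m => hu m ▸ Nat.mod_lt _ (by positivity)
  have s1 : ∀ m, s m < 2 ^ (2 * m) := fun m => hs m ▸ Nat.mod_lt _ (by positivity)
  have c1 : ∀ m, c m < 2 ^ (3 * m) := fun m => hc m ▸ (div_pow _ (div_pow _ (div_pow _ (r1 m)))).trans_eq (by
    congr 1; omega)
  have t1 : ∀ m, k m * s m + c m < 2 ^ (3 * m + 1) := fun m => by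
    have := Nat.mul_lt_mul'' (k1 m) (s1 m)
    have := c1 m
    rw [← pow_add, show m + 2 * m = 3 * m by omega] at *
    omega
  have s2 : Sm id fun m : ℕ => 2 * m := sm_mul (sm_const _) sm
  have s3 : Sm id fun m : ℕ => 3 * m := sm_mul (sm_const _) sm
  have s4 : Sm id fun m : ℕ => 3 * m + 1 := sm_add s3 (sm_const _)
  have pk : Pl U id k := .of_le (small sm k1) sm
  have pu : Pl U id u := .of_le (small sm u1) sm
  have ps : Pl U id s := .of_le (small s2 s1) s2
  have pc : Pl U id c := .of_le (small s3 c1) s3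
  have pt : Pl U id fun m => k m * s m + c m := .of_le (small s4 t1) s4
  have pl := pk.pair pc
  have py := ps.pair pt
  have px := pl.pair pu
  refine ⟨fun m => (k m, c m), fun m => (s m, k m * s m + c m), u, pl, py, u1, fun _ => rfl, .mul 20 ?_⟩
  filter_upwards [ev_ge id 1, soi px py, small (U := U) (u := fun _ => ()) sm k1,
    small (U := U) (u := fun m => ((), k m)) s3 c1, chain pk pc.sm, small (U := U) (u := fun m => ((), k m, c m)) sm u1,
    chain pl pu.sm, small (U := U) (u := fun _ => ()) s2 s1, small (U := U) (u := fun m => ((), s m)) s4 t1, chain ps pt.sm,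
    img (u := fun _ => ()) (w := r) (fun m _ (v : ((ℕ × ℕ) × ℕ) × ℕ × ℕ) =>
      2 ^ m * (2 ^ m * (2 ^ (2 * m) * v.1.1.2 + v.2.1) + v.1.2) + v.1.1.1) (by fun_prop) sm (px.pair py) fun m => by
        simp only [hk, hu, hs, hc, Nat.div_add_mod],
    small (U := U) (u := fun m => (k m, c m)) sm u1, img (u := fun m => (k m, c m)) (fun (_ : Unit) l u => (l, u))
      (by fun_prop) (sm_const ()) pu.sm fun _ => rfl,
    small (U := U) (u := fun m => (k m, c m)) s2 s1, img (u := fun m => (k m, c m))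
      (fun (_ : Unit) l s => (s, l.1 * s + l.2)) (by fun_prop) (sm_const ()) ps.sm fun _ => rfl,
    wk (u' := fun m => ((k m, c m), u m)) Prod.fst (by fun_prop) (fun _ => rfl) py.sm,
    small (U := U) (u := fun m => (s m, k m * s m + c m)) sm k1,
    small (U := U) (u := fun m => ((s m, k m * s m + c m), k m)) sm u1,
    chain (u := fun m => (s m, k m * s m + c m)) pk.sm pu.sm,
    img (u := fun m => (s m, k m * s m + c m)) (w := fun m => ((k m, c m), u m))
      (fun (_ : Unit) y (v : ℕ × ℕ) => ((v.1, y.2 - v.1 * y.1), v.2)) (by fun_prop) (sm_const ()) (pk.pair pu).sm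
      fun _ => by simp] with e a1 a2 a3 a4 a5 a6 a7 a8 a9 b1 b2 b3 b4 b5 b6 b7 b8 b9 g1 g2 i e' he
  have := a1 i; have := a2 i; have := a3 i; have := a4 i; have := a5 i; have := a6 i; have := a7 i; have := a8 i
  have := a9 i; have := b1 i; have := b2 i; have := b3 i; have := b4 i; have := b5 i; have := b6 i; have := b7 i
  have := b8 i; have := b9 i; have := g1 i; have := g2 i; have := r2 i
  simp only [Near] at *
  omega

theorem asym (he : Computable e) (hi : Function.Injective e) : ∃ X Y Q : ℕ → Str,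
    Sm id (fun m => (X m).length + (Y m).length + (Q m).length) ∧
    Ev id (fun m d => Near (K (fun p => U p []) (X m)) (K (fun p => U p []) (Y m)) d) ∧
    ∀ d : ℕ → ℕ, Le id d 0 → ∃ c, ∀ m (q : Str), K (fun p => U p []) q ≤ K (fun p => U p []) (Q m) + d m →
      (K (fun p => U p q) (Y m) ≤ K (fun p => U p (Q m)) (X m) + d m ∧
        K (fun p => U p q) (X m) ≤ K (fun p => U p (Q m)) (Y m) + d m ∨
      K (fun p => U p []) (Q m) ≤ K (fun p => U p []) q + d m ∧
        K (fun p => U p []) (e [Y m, q]) ≤ K (fun p => U p []) (e [X m, Q m]) + d m ∧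
        K (fun p => U p []) (e [X m, q]) ≤ K (fun p => U p []) (e [Y m, Q m]) + d m) → m ≤ c * lg m := by
  obtain ⟨l, y, u, pl, py, h1, h2, h3⟩ := asym0 (U := U)
  have px := pl.pair (Sm.of_le (small (U := U) sm_N h1) sm_N)
  obtain ⟨X, x1, x2⟩ := toStr px
  obtain ⟨Y, y1, y2⟩ := toStr py
  obtain ⟨Q, q1, q2⟩ := toStr pl
  have pX := px.of0 x2.2
  have pY := py.of0 y2.2
  have pQ := pl.of0 q2.2
  refine ⟨X, Y, Q, by simp only [x1, y1, q1]; exact sm_add (sm_add px py) pl, .mul 5 ?_, fun d hd => ?_⟩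
  · filter_upwards [h3, same' (fun _ => ()) x2 px, same' (fun _ => ()) y2 py, br0 U id X, br0 U id Y]
      with e a1 a2 a3 a4 a5 i e' he
    have := a1 i; have := a2 i; have := a3 i; have := a4 i; have := a5 i
    simp only [Near] at *
    omega
  let p : ℕ × Str → Prop := fun j => K (fun p => U p []) j.2 ≤ K (fun p => U p []) (Q j.1) + d j.1
  let f : Subtype p → ℕ := fun j => j.1.1
  let q : Subtype p → Str := fun j => j.1.2
  have pq : Pl U f q := .of_le (g := fun j => C U (Q (f j)) ()) (.mul 3 (by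
    filter_upwards [hd, br0 U id Q, br0 U f q] with e a1 a2 a3 j
    have := a1 (f j); have := a2 (f j); have := a3 j; have := j.2
    simp only [Near, p, f, q, id, Pi.zero_apply] at *
    omega)) (pQ.comp f)
  have H : Ev f fun j c => (K (fun p => U p (q j)) (Y (f j)) ≤ K (fun p => U p (Q (f j))) (X (f j)) + d (f j) ∧
        K (fun p => U p (q j)) (X (f j)) ≤ K (fun p => U p (Q (f j))) (Y (f j)) + d (f j) ∨
      K (fun p => U p []) (Q (f j)) ≤ K (fun p => U p []) (q j) + d (f j) ∧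
        K (fun p => U p []) (e [Y (f j), q j]) ≤ K (fun p => U p []) (e [X (f j), Q (f j)]) + d (f j) ∧
        K (fun p => U p []) (e [X (f j), q j]) ≤ K (fun p => U p []) (e [Y (f j), Q (f j)]) + d (f j)) → f j ≤ c :=
    .mul 100 (by
      filter_upwards [hd, h3, prof_str he hi pX pY pQ, cond_str he hi Q pX pY, same q2.1 q2.2 pl px, same q2.1 q2.2 pl py,
        same' Q x2 px, same' Q y2 py, same' (fun _ => ()) q2 pl,
        prof_str he hi (pX.comp f) (pY.comp f) pq, cond_str he hi q (pX.comp f) (pY.comp f),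
        same' q ⟨x2.1.comp f, x2.2.comp f⟩ (px.comp f), same' q ⟨y2.1.comp f, y2.2.comp f⟩ (py.comp f),
        lines (q := q) (pl.comp f) (py.comp f) sm_N (fun j => h1 _) (fun j => h2 _), tri pq ((px.pair py).comp f).sm]
        with e a1 a2 a3 a4 a5 a6 a7 a8 a9 b1 b2 b3 b4 b5 b6 j e' he h
      have := a1 (f j); have := (a2 (f j)).1; have := (a2 (f j)).2.1; have := (a2 (f j)).2.2.1; have := (a2 (f j)).2.2.2.1
      have := (a3 (f j)).2.2.2.1; have := (a3 (f j)).2.2.2.2.1; have := a4 (f j); have := (a5 (f j)).1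
      have := (a6 (f j)).1; have := a7 (f j); have := a8 (f j); have := a9 (f j)
      have := (b1 j).2.2.2.1; have := (b1 j).2.2.2.2.1; have := b2 j; have := b3 j; have := b4 j; have := b5 j
      have := b6 j; have : K _ (q j) ≤ K _ (Q (f j)) + d (f j) := j.2
      simp only [Near, id, Pi.zero_apply] at *
      omega)
  obtain ⟨c, hc⟩ := H.exists
  exact ⟨c, fun m q a => hc ⟨(m, q), a⟩⟩

theorem big (c k : ℕ) : ∃ m ≥ k, c * lg m < m := by
  refine ⟨2 ^ (2 * (2 * c + k)), le_trans (by omega) Nat.lt_two_pow_self.le, ?_⟩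
  have := Nat.lt_two_pow_self (n := 2 * c + k)
  rw [lg_pow, two_mul, pow_add]
  nlinarith

theorem gw_nil {x x' : I → Str} (q : I → Str) (hx : Pl U N x) (hx' : Pl U N x')
    (h : Le N (fun i => K (fun p => U p []) (x' i)) fun i => K (fun p => U p []) (x i)) : ∃ w : I → Str, Ev N fun i d =>
      K (fun p => U p []) (w i) ≤ K (fun p => U p []) (q i) + d ∧
      K (fun p => U p (w i)) (x' i) ≤ K (fun p => U p (q i)) (x i) + d ∧ K (fun p => U p (w i)) [] ≤ d := by
  obtain ⟨r, r1, r2, r3⟩ := chop0 hx' (t := fun i => min (C U (x' i) ()) (C U (q i) ())) (sm_min hx')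
  have pr := hx'.of0 r2
  obtain ⟨d1, d2⟩ := code (U := U) (N := N) (p_cs .id).to_comp (fun _ _ => cs_inj) r
  have c : Ev N fun i e => C U (q i) () ≤ C U (x' i) () → C U (x i) () ≤ C U (q i) () + C U (x i) (q i) + e :=
    (tri (u := fun _ => ()) (v := fun j : {i // C U (q i) () ≤ C U (x' i) ()} => q j)
      (Sm.mono (hx'.comp Subtype.val) fun j => j.2) (hx.comp Subtype.val).sm).mono fun e h i hi => h ⟨i, hi⟩
  refine ⟨fun i => cs (r i), .mul 9 ?_⟩
  filter_upwards [h, c, r3, small (U := U) (u := fun _ => ()) (sm_min hx') r1, same d1 d2 pr hx',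
    same' (fun _ => ()) ⟨d1, d2⟩ pr, br0 U N x, br0 U N x', br0 U N q, br0 U N fun i => cs (r i), br U N q x,
    br U N (fun i => cs (r i)) x', br U N (fun i => cs (r i)) fun _ => [],
    (sm_const (N := N) ([] : Str)).le0 (U := U) (u := fun i => cs (r i))] with e a1 a2 a3 a4 a5 a6 a7 a8 a9 b1 b2 b3 b4 b5 i e' he
  have := a1 i; have := a2 i; have := a3 i; have := a4 i; have := a5 i; have := a6 i; have := a7 i; have := a8 i
  have := a9 i; have := b1 i; have := b2 i; have := b3 i; have := b4 i; have := b5 i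
  simp only [Near, id, Pi.zero_apply] at *
  omega

/-- the length of a shortest description carries information -/
theorem long (he : Computable e) : ∃ c, ∀ x q : Str, (K (fun p => U p []) q).sqrt = encode x →
    K (fun p => U p []) (e [x, q]) ≤ K (fun p => U p []) q + c := by
  have h : Computable fun z : (Str × Str) × Str => e [(decode (α := Str) z.1.1.length.sqrt).getD [], z.2] := by fun_prop
  obtain ⟨c, hc⟩ := hU.out.2 (fun p y => (U p y).map fun q => e [(decode (α := Str) p.length.sqrt).getD [], q])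
    (Partrec.map hU.out.1 h.to₂)
  refine ⟨c, fun x q hx => ?_⟩
  obtain ⟨p, h1, h2⟩ := spec (U := U) [] q
  have := (hc []).le (Part.mem_map _ h1)
  simpa [h2, hx] using this

omit [Primcodable β] in
theorem nm_or {p q : β → Prop} {a b : ℕ} (h1 : ¬Many (a + 1) p) (h2 : ¬Many (b + 1) q) :
    ¬Many (a + b + 1) fun v => p v ∨ q v := fun ⟨F, h3, h4⟩ => by
  classical
  have := Finset.card_filter_add_card_filter_not (s := F) p
  have : (F.filter p).card < a + 1 := not_le.1 fun c => h1 ⟨_, c, fun _ h => (Finset.mem_filter.1 h).2⟩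
  have : (F.filter fun v => ¬p v).card < b + 1 := not_le.1 fun c => h2 ⟨_, c, fun _ h =>
    (h4 _ (Finset.mem_filter.1 h).1).resolve_left (Finset.mem_filter.1 h).2⟩
  omega

theorem fewK (n : ℕ) : ¬Many (2 ^ (n + 1)) fun s : Str => K (fun p => U p []) s ≤ n := fun ⟨F, h1, h2⟩ =>
  (few (D := fun p => U p []) F fun s hs => let ⟨q, a, b⟩ := spec (U := U) [] s; ⟨q, a, b.trans_le (h2 s hs)⟩).not_ge h1

theorem many_len (n : ℕ) : Many (2 ^ n) fun s : Str => s.length = n :=
  (many_lt _).rel (fun j s => val s = j) (fun j h => let ⟨s, a, b⟩ := val_surj n j h; ⟨s, b, a⟩)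
    fun _ _ _ _ _ a b => a.symm.trans b

theorem pairs (hi : Function.Injective e) (n L : ℕ) : ∃ x q : Str, x.length = n + 4 ∧ q.length = L + 4 ∧
    n < K (fun p => U p []) x ∧ L < K (fun p => U p []) q ∧ n + L < K (fun p => U p []) (e [x, q]) := by
  by_contra! c
  have h := (many_len (n + 4)).fib (p := fun z : Str × Str => z.1.length = n + 4 ∧ z.2.length = L + 4) (fun x z => z.1 = x)
    (fun x hx => (many_len (L + 4)).rel (fun q z => z = (x, q)) (fun q hq => ⟨_, rfl, ⟨hx, hq⟩, rfl⟩)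
      fun _ _ _ _ _ a b => (Prod.ext_iff.1 (a.symm.trans b)).2) fun _ _ _ _ _ a b => a.symm.trans b
  refine nm_or (nm_or (nm_ex (fewK (U := U) n) (r := fun x (z : Str × Str) => z.1 = x ∧ z.2.length ≤ L + 4) fun x _ k =>
      short _ (k.rel (fun z s => s = z.2) (fun _ a => ⟨_, rfl, a.2⟩) fun _ _ _ a b c d =>
        Prod.ext (a.1.trans b.1.symm) (c.symm.trans d)))
    (nm_ex (fewK (U := U) L) (r := fun x (z : Str × Str) => z.2 = x ∧ z.1.length ≤ n + 4) fun x _ k =>
      short _ (k.rel (fun z s => s = z.1) (fun _ a => ⟨_, rfl, a.2⟩) fun _ _ _ a b c d =>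
        Prod.ext (c.symm.trans d) (a.1.trans b.1.symm))))
    (q := fun z : Str × Str => K (fun p => U p []) (e [z.1, z.2]) ≤ n + L) (b := 2 ^ (n + L + 1))
    (fun k => fewK _ ((k.rel (fun z s => s = e [z.1, z.2]) (fun _ a => ⟨_, rfl, a⟩) fun _ _ _ _ _ c d => by
      simpa [Prod.ext_iff] using hi (c.symm.trans d)).mono (Nat.le_succ _) fun _ => id))
    (h.mono ?_ fun z hz => ?_)
  · have := Nat.two_pow_pos (n + L)
    simp only [pow_add] at *
    nlinarith
  · by_contra d
    exact d (.inr (c _ _ hz.1 hz.2 (not_le.1 fun a => d (.inl (.inl ⟨_, a, rfl, hz.2.le⟩)))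
      (not_le.1 fun a => d (.inl (.inr ⟨_, a, rfl, hz.1.le⟩)))))

theorem lg_lo {n : ℕ} (h : 2 ≤ n) (c : ℕ) : ((c * lg n : ℕ) : ℝ) ≤ (2 * c + 1 : ℕ) * Real.logb 2 n := by
  have h1 : (Nat.log 2 n : ℝ) ≤ Real.logb 2 n := by simpa using Real.natLog_le_logb n 2
  have h2 : c * lg n ≤ (2 * c + 1) * Nat.log 2 n := by
    have := Nat.log_pos one_lt_two h
    rw [lg]; nlinarith
  exact (Nat.cast_le.2 h2).trans (by push_cast; gcongr)
theorem lg_hi (c : ℝ) {n : ℕ} (h : 2 ≤ n) : c * Real.logb 2 n ≤ (⌈c⌉₊ * lg n : ℕ) := by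
  have h0 : (0 : ℝ) < n := by positivity
  have h1 : Real.logb 2 n ≤ lg n := (Real.logb_le_iff_le_rpow one_lt_two h0).2 (by exact_mod_cast (lt_lg n).le)
  push_cast
  exact mul_le_mul (Nat.le_ceil c) h1 (Real.logb_nonneg one_lt_two (by exact_mod_cast (by omega : 1 ≤ n))) (by positivity)

end Pool.Agent.Lib.AK
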