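import Mathlib

/-! Partition matroids of involutions, sparse paving matroids, polynomial versus exponential. -/

namespace Pool.Agent.Lib.helper22.MatOr

open Set Filter

variable {α : Type*} [Finite α]

theorem inv (σ : α → α) (h1 : ∀ y, σ (σ y) = y) (h0 : ∃ B : Set α, ∀ y, y ∈ B ↔ σ y ∉ B) :
    ∃ M : Matroid α, M.E = univ ∧ ∀ B, M.IsBase B ↔ ∀ y, y ∈ B ↔ σ y ∉ B :=
  ⟨.ofIsBaseOfFinite finite_univ _ h0 (fun X Y hX hY e ⟨a, b⟩ => ⟨σ e, ⟨by
    by_contra c; exact b ((hY e).2 c), (hX e).1 a⟩, fun y => by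
      have := hX y
      have := hX e
      simp only [mem_insert_iff, Set.mem_sdiff, mem_singleton_iff]
      grind⟩) fun _ _ => subset_univ _, rfl, fun _ => Iff.rfl⟩

def Sparse (H : Set (Set α)) : Prop := ∀ X ∈ H, ∀ e ∈ X, ∀ f ∉ X, insert f (X \ {e}) ∉ H

theorem swap_card {X : Set α} {e f : α} (he : e ∈ X) (hf : f ∉ X) :
    (insert f (X \ {e})).ncard = X.ncard := by
  rw [ncard_insert_of_notMem (fun h => hf h.1), ncard_sdiff_singleton_add_one he]

theorem sp (r : ℕ) (H : Set (Set α)) (hH : Sparse H) (h0 : ∃ B : Set α, B.ncard = r ∧ B ∉ H) :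
    ∃ M : Matroid α, M.E = univ ∧ ∀ B, M.IsBase B ↔ B.ncard = r ∧ B ∉ H :=
  ⟨.ofIsBaseOfFinite finite_univ _ h0 (fun X Y hX hY e ⟨a, b⟩ => by
    obtain ⟨f, f1, f2⟩ : ∃ f ∈ Y, f ∉ X := not_subset.1 fun h =>
      b (eq_of_subset_of_ncard_le h (hX.1.trans hY.1.symm).le ▸ a)
    by_cases c : insert f (X \ {e}) ∈ H
    · obtain ⟨g, g1, g2⟩ : ∃ g ∈ Y, g ∉ insert f (X \ {e}) := not_subset.1 fun h => hY.2
        (eq_of_subset_of_ncard_le h ((swap_card a f2).trans (hX.1.trans hY.1.symm)).le ▸ c)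
      have g3 : g ∉ X := fun h => g2 (.inr ⟨h, fun k => b (k ▸ g1)⟩)
      refine ⟨g, ⟨g1, g3⟩, (swap_card a g3).trans hX.1, ?_⟩
      convert hH _ c f (.inl rfl) g g2 using 2
      rw [insert_sdiff_self_of_notMem fun h => f2 h.1]
    · exact ⟨f, ⟨f1, f2⟩, (swap_card a f2).trans hX.1, c⟩) fun _ _ => subset_univ _,
    rfl, fun _ => Iff.rfl⟩

theorem poly (p : Polynomial ℕ) (c : ℕ) : ∀ᶠ s in atTop, p.eval (c * s) < 2 ^ s := by
  have : Tendsto (fun s : ℕ => (p.eval (c * s) : ℕ) / (2 : ℝ) ^ s) atTop (nhds 0) := by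
    induction p using Polynomial.induction_on' with
    | add p q hp hq => simpa [add_div] using hp.add hq
    | monomial n a =>
      simpa [mul_pow, mul_div_assoc, mul_assoc] using
        (tendsto_pow_const_div_const_pow_of_one_lt n one_lt_two).const_mul (a * c ^ n : ℝ)
  filter_upwards [this.eventually (gt_mem_nhds one_pos)] with s h
  rw [div_lt_one (by positivity)] at h
  exact_mod_cast h

end Pool.Agent.Lib.helper22.MatOr
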