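import Mathlib

set_option autoImplicit false

namespace Pool.Agent.Lib.helper22

open Filter Topology

/-- Codes of oracle programs. -/
inductive OC : Type
  | zero : OC
  | succ : OC
  | left : OC
  | right : OC
  | oracle : OC
  | pair : OC → OC → OC
  | comp : OC → OC → OC
  | prec : OC → OC → OC
  | rfind : OC → OC

def OC.enc : OC → ℕ
  | .zero => Nat.pair 0 0
  | .succ => Nat.pair 1 0
  | .left => Nat.pair 2 0
  | .right => Nat.pair 3 0
  | .oracle => Nat.pair 4 0
  | .pair a b => Nat.pair 5 (Nat.pair a.enc b.enc)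
  | .comp a b => Nat.pair 6 (Nat.pair a.enc b.enc)
  | .prec a b => Nat.pair 7 (Nat.pair a.enc b.enc)
  | .rfind a => Nat.pair 8 a.enc

theorem OC.enc_inj : ∀ a b : OC, a.enc = b.enc → a = b := by
  intro a
  induction a with
  | pair a a' ih ih' =>
    intro b h; cases b <;> simp [OC.enc] at h ⊢
    exact ⟨ih _ h.1, ih' _ h.2⟩
  | comp a a' ih ih' =>
    intro b h; cases b <;> simp [OC.enc] at h ⊢
    exact ⟨ih _ h.1, ih' _ h.2⟩
  | prec a a' ih ih' =>
    intro b h; cases b <;> simp [OC.enc] at h ⊢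
    exact ⟨ih _ h.1, ih' _ h.2⟩
  | rfind a ih =>
    intro b h; cases b <;> simp [OC.enc] at h ⊢
    exact ih _ h
  | _ => intro b h; cases b <;> simp [OC.enc] at h ⊢

instance : Countable OC := ⟨⟨OC.enc, fun a b h => OC.enc_inj a b h⟩⟩

instance : Inhabited OC := ⟨.zero⟩

/-- Evaluation of an oracle program with oracle `g`. -/
def ev (g : ℕ →. ℕ) : OC → ℕ →. ℕ
  | .zero => fun _ => 0
  | .succ => Nat.succ
  | .left => fun n => (Nat.unpair n).1
  | .right => fun n => (Nat.unpair n).2
  | .oracle => g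
  | .pair a b => fun n => (Nat.pair <$> ev g a n <*> ev g b n)
  | .comp a b => fun n => ev g b n >>= ev g a
  | .prec a b => fun p =>
      let (x, n) := Nat.unpair p
      n.rec (ev g a x) fun y IH => do
        let i ← IH
        ev g b (Nat.pair x (Nat.pair y i))
  | .rfind a => fun x => Nat.rfind fun n => (fun m => m = 0) <$> ev g a (Nat.pair x n)

theorem ev_recursiveIn (g : ℕ →. ℕ) (c : OC) : Nat.RecursiveIn {g} (ev g c) := by
  induction c with
  | zero => exact .zero
  | succ => exact .succ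
  | left => exact .left
  | right => exact .right
  | oracle => exact .oracle g rfl
  | pair a b iha ihb => exact .pair iha ihb
  | comp a b iha ihb => exact .comp iha ihb
  | prec a b iha ihb => exact .prec iha ihb
  | rfind a ih => exact .rfind ih

theorem exists_code {g f : ℕ →. ℕ} (h : Nat.RecursiveIn {g} f) : ∃ c, ev g c = f := by
  induction h with
  | zero => exact ⟨.zero, rfl⟩
  | succ => exact ⟨.succ, rfl⟩
  | left => exact ⟨.left, rfl⟩
  | right => exact ⟨.right, rfl⟩
  | oracle g' hg => exact ⟨.oracle, hg.symm⟩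
  | pair _ _ iha ihb =>
    obtain ⟨a, rfl⟩ := iha; obtain ⟨b, rfl⟩ := ihb; exact ⟨.pair a b, rfl⟩
  | comp _ _ iha ihb =>
    obtain ⟨a, rfl⟩ := iha; obtain ⟨b, rfl⟩ := ihb; exact ⟨.comp a b, rfl⟩
  | prec _ _ iha ihb =>
    obtain ⟨a, rfl⟩ := iha; obtain ⟨b, rfl⟩ := ihb; exact ⟨.prec a b, rfl⟩
  | rfind _ ih => obtain ⟨a, rfl⟩ := ih; exact ⟨.rfind a, rfl⟩

theorem turingReducible_iff {f g : ℕ →. ℕ} : TuringReducible f g ↔ ∃ c, ev g c = f := by
  rw [TuringReducible, RecursiveIn.iff_nat]
  exact ⟨exists_code, fun ⟨c, h⟩ => h ▸ ev_recursiveIn g c⟩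

/-- The use principle, for any filter of oracles that eventually contain each value of `g`. -/
theorem ev_eventually {ι : Type*} {l : Filter ι} {g : ℕ →. ℕ} {G : ι → ℕ →. ℕ}
    (hG : ∀ n v, v ∈ g n → ∀ᶠ i in l, v ∈ G i n) (c : OC) :
    ∀ n v, v ∈ ev g c n → ∀ᶠ i in l, v ∈ ev (G i) c n := by
  induction c with
  | zero => exact fun n v h => Eventually.of_forall fun _ => h
  | succ => exact fun n v h => Eventually.of_forall fun _ => h
  | left => exact fun n v h => Eventually.of_forall fun _ => h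
  | right => exact fun n v h => Eventually.of_forall fun _ => h
  | oracle => exact hG
  | pair a b iha ihb =>
    intro n v h
    simp only [ev, Seq.seq, Part.map_eq_map, Part.mem_bind_iff, Part.mem_map_iff] at h ⊢
    obtain ⟨_, ⟨x, hx, rfl⟩, y, hy, rfl⟩ := h
    filter_upwards [iha n x hx, ihb n y hy] with i h1 h2
    exact ⟨_, ⟨x, h1, rfl⟩, y, h2, rfl⟩
  | comp a b iha ihb =>
    intro n v h
    simp only [ev, Part.bind_eq_bind, Part.mem_bind_iff] at h ⊢
    obtain ⟨x, hx, hv⟩ := h
    filter_upwards [ihb n x hx, iha x v hv] with i h1 h2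
    exact ⟨x, h1, h2⟩
  | prec a b iha ihb =>
    intro p
    simp only [ev]
    generalize (Nat.unpair p).1 = x
    generalize (Nat.unpair p).2 = n
    induction n with
    | zero => exact iha x
    | succ n ih =>
      intro v h
      simp only [Part.bind_eq_bind, Part.mem_bind_iff] at h ⊢
      obtain ⟨y, hy, hv⟩ := h
      filter_upwards [ih y hy, ihb _ v hv] with i h1 h2
      exact ⟨y, h1, h2⟩
  | rfind a ih =>
    intro x v h
    simp only [ev, Nat.mem_rfind, Part.map_eq_map, Part.mem_map_iff] at h ⊢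
    obtain ⟨⟨y, hy, hy0⟩, h2⟩ := h
    have h3 : ∀ᶠ i in l, ∀ m ∈ Set.Iio v, ∃ z ∈ ev (G i) a (Nat.pair x m), decide (z = 0) = false := by
      rw [eventually_all_finite (Set.finite_Iio v)]
      intro m hm
      obtain ⟨z, hz, hz0⟩ := h2 hm
      filter_upwards [ih _ z hz] with i hi
      exact ⟨z, hi, hz0⟩
    filter_upwards [ih _ y hy, h3] with i h4 h5
    exact ⟨⟨y, h4, hy0⟩, fun hm => h5 _ hm⟩

/-- The use principle for total oracles. -/
theorem ev_use (f : ℕ → ℕ) (c : OC) (n v : ℕ) (h : v ∈ ev (PFun.lift f) c n) :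
    ∃ N, ∀ f' : ℕ → ℕ, (∀ i < N, f' i = f i) → v ∈ ev (PFun.lift f') c n := by
  let l : Filter (ℕ → ℕ) := ⨅ N : ℕ, 𝓟 {f' | ∀ i < N, f' i = f i}
  have h1 := ev_eventually (l := l) (g := PFun.lift f) (G := fun f' => PFun.lift f') (by
    intro n v hv
    refine mem_iInf_of_mem (n + 1) fun f' hf' => ?_
    have := hf' n (Nat.lt_succ_self n)
    simp only [PFun.coe_val, Part.mem_some_iff, Set.mem_ofPred_eq] at hv ⊢
    rw [hv, this]) c n v h
  rw [Filter.Eventually, mem_iInf_of_directed] at h1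
  · exact h1
  · refine directed_of_isDirected_le fun a b hab => principal_mono.2 fun f' hf' i hi => ?_
    exact hf' i (hi.trans_le hab)

end Pool.Agent.Lib.helper22
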