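import Mathlib
/-! Linear algebra for linear matroid parity. -/
namespace Pool.Agent.Lib.Par
open Module Submodule

variable {F : Type} [AddCommGroup F] [Module ℚ F] [FiniteDimensional ℚ F]

/-- radical of a subspace -/
def rad (β : F →ₗ[ℚ] F →ₗ[ℚ] ℚ) (W : Submodule ℚ F) : Submodule ℚ F where
  carrier := {u | u ∈ W ∧ ∀ v ∈ W, β u v = 0}
  add_mem' := fun ⟨a, b⟩ ⟨c, d⟩ => ⟨W.add_mem a c, fun v hv => by simp [b v hv, d v hv]⟩
  zero_mem' := ⟨W.zero_mem, by simp⟩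
  smul_mem' := fun c _ ⟨a, b⟩ => ⟨W.smul_mem c a, fun v hv => by simp [b v hv]⟩

omit [FiniteDimensional ℚ F] in
theorem mem_rad {β : F →ₗ[ℚ] F →ₗ[ℚ] ℚ} {W : Submodule ℚ F} {u} : u ∈ rad β W ↔ u ∈ W ∧ ∀ v ∈ W, β u v = 0 := Iff.rfl

omit [FiniteDimensional ℚ F] in
theorem anti {β : F →ₗ[ℚ] F →ₗ[ℚ] ℚ} {E : Submodule ℚ F} (h : ∀ v ∈ E, β v v = 0) {u v} (hu : u ∈ E) (hv : v ∈ E) :
    β u v = -β v u := by
  have := h (u + v) (E.add_mem hu hv)
  simp only [map_add, LinearMap.add_apply, h u hu, h v hv] at this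
  linarith

theorem even_rad (β : F →ₗ[ℚ] F →ₗ[ℚ] ℚ) (W : Submodule ℚ F) (h : ∀ v ∈ W, β v v = 0) :
    ∃ d, finrank ℚ W = finrank ℚ (rad β W) + 2 * d := by
  obtain ⟨C, hC⟩ := (rad β W).exists_isCompl
  set S := C ⊓ W
  have hr : rad β W ≤ W := fun u hu => hu.1
  have h1 : rad β W ⊔ S = W := by
    rw [← sup_inf_assoc_of_le _ hr, hC.sup_eq_top, top_inf_eq]
  have h2 : rad β W ⊓ S = ⊥ := by
    rw [← inf_assoc, hC.inf_eq_bot, bot_inf_eq]
  have h3 := finrank_sup_add_finrank_inf_eq (rad β W) S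
  rw [h1, h2, finrank_bot] at h3
  let γ : LinearMap.BilinForm ℚ S := β.compl₁₂ S.subtype S.subtype
  let e := Module.finBasis ℚ S
  have key : ∀ u : S, (∀ v : S, β u v = 0) → u = 0 := fun u hu => by
    have : (u : F) ∈ rad β W ⊓ S := ⟨⟨u.2.2, fun v hv => by
      rw [← h1] at hv
      obtain ⟨p, hp, q, hq, rfl⟩ := mem_sup.1 hv
      rw [map_add, hu ⟨q, hq⟩, anti h u.2.2 hp.1, hp.2 _ u.2.2]; simp⟩, u.2⟩
    rw [h2] at this
    exact Subtype.ext this
  have hn : γ.Nondegenerate := ⟨fun u hu => key u hu, fun u hu => key u fun v => by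
    rw [anti h u.2.2 v.2.2]; exact neg_eq_zero.2 (hu v)⟩
  have hd := (LinearMap.BilinForm.nondegenerate_iff_det_ne_zero e).1 hn
  have ht : (LinearMap.BilinForm.toMatrix e γ).transpose = -LinearMap.BilinForm.toMatrix e γ := by
    ext i j
    simp only [Matrix.transpose_apply, Matrix.neg_apply, LinearMap.BilinForm.toMatrix_apply]
    exact anti h (e j).2.2 (e i).2.2
  have := Matrix.det_transpose (LinearMap.BilinForm.toMatrix e γ)
  rw [ht, Matrix.det_neg, Fintype.card_fin] at this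
  rcases Nat.even_or_odd (finrank ℚ S) with ⟨d, hd'⟩ | ho
  · exact ⟨d, by omega⟩
  · rw [ho.neg_one_pow] at this
    exact absurd (by linarith) hd

theorem cert {γ : Type} (β : F →ₗ[ℚ] F →ₗ[ℚ] ℚ) (E : Submodule ℚ F) (ha : ∀ v ∈ E, β v v = 0)
    (hn : ∀ u ∈ E, (∀ v ∈ E, β u v = 0) → u = 0) (W S : γ → Submodule ℚ F) (m : γ → ℕ) (hW : ∀ g, W g ≤ E)
    (ho : ∀ g g', g ≠ g' → ∀ u ∈ W g, ∀ v ∈ W g', β u v = 0) (hm : ∀ g, finrank ℚ (S g) ≤ 2 * m g)
    (hS : ∀ g, finrank ℚ (S g ⊔ W g : Submodule ℚ F) ≤ finrank ℚ (W g) + 1) (J : Finset γ) :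
    2 * finrank ℚ (J.sup S : Submodule ℚ F) ≤ 2 * ∑ g ∈ J, m g + finrank ℚ E := by
  classical
  have main : ∀ J : Finset γ, 2 * finrank ℚ (rad β (J.sup W) ⊔ J.sup S : Submodule ℚ F) ≤
      2 * ∑ g ∈ J, m g + finrank ℚ (J.sup W : Submodule ℚ F) + finrank ℚ (rad β (J.sup W)) := by
    intro J
    induction J using Finset.induction_on with
    | empty =>
      have : rad β ⊥ = ⊥ := eq_bot_iff.2 fun u hu => hu.1
      rw [Finset.sup_empty, Finset.sup_empty, this]; simp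
    | insert g J hg ih =>
      rw [Finset.sup_insert, Finset.sup_insert, Finset.sum_insert hg]
      set H := J.sup W
      have hH : H ≤ E := Finset.sup_le fun g _ => hW g
      have o1 : ∀ u ∈ W g, ∀ v ∈ H, β u v = 0 := fun u hu => by
        have : H ≤ LinearMap.ker (β u) := Finset.sup_le fun g' hg' v hv => ho g g' (fun e => hg (e ▸ hg')) u hu v hv
        exact fun v hv => this hv
      have o2 : ∀ v ∈ H, ∀ u ∈ W g, β v u = 0 := fun v hv u hu => by
        rw [anti ha (hH hv) (hW g hu), o1 u hu v hv, neg_zero]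
      have r1 : rad β (W g ⊔ H) = rad β (W g) ⊔ rad β H := by
        refine le_antisymm (fun x hx => ?_) (sup_le (fun x hx => ⟨mem_sup_left hx.1, fun v hv => ?_⟩)
          fun x hx => ⟨mem_sup_right hx.1, fun v hv => ?_⟩)
        · obtain ⟨p, hp, q, hq, rfl⟩ := mem_sup.1 hx.1
          refine add_mem_sup ⟨hp, fun v hv => ?_⟩ ⟨hq, fun v hv => ?_⟩
          · simpa [o2 q hq v hv] using hx.2 v (mem_sup_left hv)
          · simpa [o1 p hp v hv] using hx.2 v (mem_sup_right hv)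
        · obtain ⟨p, hp, q, hq, rfl⟩ := mem_sup.1 hv
          rw [map_add, hx.2 p hp, o1 x hx.1 q hq, add_zero]
        · obtain ⟨p, hp, q, hq, rfl⟩ := mem_sup.1 hv
          rw [map_add, hx.2 q hq, o2 x hx.1 p hp, add_zero]
      have r2 : W g ⊓ H = rad β (W g) ⊓ rad β H :=
        le_antisymm (fun x hx => ⟨⟨hx.1, o2 x hx.2⟩, hx.2, o1 x hx.1⟩) fun x hx => ⟨hx.1.1, hx.2.1⟩
      have d1 := finrank_sup_add_finrank_inf_eq (W g) H
      have d2 := finrank_sup_add_finrank_inf_eq (rad β (W g)) (rad β H)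
      have d3 := finrank_sup_add_finrank_inf_eq (rad β (W g) ⊔ S g) (rad β H ⊔ J.sup S)
      have d4 : finrank ℚ (rad β (W g) ⊓ rad β H : Submodule ℚ F) ≤
          finrank ℚ ((rad β (W g) ⊔ S g) ⊓ (rad β H ⊔ J.sup S) : Submodule ℚ F) :=
        finrank_mono (inf_le_inf le_sup_left le_sup_left)
      have d5 := finrank_sup_add_finrank_inf_eq (rad β (W g)) (S g)
      have d6 : finrank ℚ (rad β (W g) ⊔ S g : Submodule ℚ F) ≤ finrank ℚ (S g ⊔ W g : Submodule ℚ F) :=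
        finrank_mono (sup_le (fun x hx => mem_sup_right hx.1) le_sup_left)
      obtain ⟨d, hd⟩ := even_rad β (W g) fun v hv => ha v (hW g hv)
      rw [r1, sup_sup_sup_comm]
      rw [r2] at d1
      have := hm g
      have := hS g
      omega
  have h1 := main J
  set H := J.sup W
  have hH : H ≤ E := Finset.sup_le fun g _ => hW g
  have h2 : finrank ℚ (J.sup S : Submodule ℚ F) ≤ finrank ℚ (rad β H ⊔ J.sup S : Submodule ℚ F) :=
    finrank_mono le_sup_right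
  have h3 := Subspace.finrank_add_finrank_dualAnnihilator_eq (H.comap E.subtype)
  rw [(comapSubtypeEquivOfLe hH).finrank_eq] at h3
  let f : rad β H →ₗ[ℚ] (H.comap E.subtype).dualAnnihilator :=
    (β.compl₁₂ (rad β H).subtype E.subtype).codRestrict _ fun u => (mem_dualAnnihilator _).2 fun w hw => u.2.2 w hw
  have h4 : finrank ℚ (rad β H) ≤ _ := f.finrank_le_finrank_of_injective (by
    rw [injective_iff_map_eq_zero]
    intro u hu
    exact Subtype.ext (hn u (hH u.2.1) fun v hv => LinearMap.congr_fun (congrArg Subtype.val hu) ⟨v, hv⟩))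
  omega

theorem generic {W : Type} [AddCommGroup W] [Module ℚ W] (f g : F →ₗ[ℚ] W) : ∃ B : Finset ℚ, B.card ≤ finrank ℚ F ∧
    ∀ t ∉ B, finrank ℚ (LinearMap.ker (f + t • g)) ≤ finrank ℚ (LinearMap.ker f) := by
  classical
  obtain ⟨S, hS⟩ := (LinearMap.ker f).exists_isCompl
  obtain ⟨l, hl⟩ := (f ∘ₗ S.subtype).exists_leftInverse_of_injective (by
    rw [LinearMap.ker_comp, ← disjoint_iff_comap_eq_bot]; exact hS.disjoint.symm)
  let e : Module.End ℚ S := l ∘ₗ g ∘ₗ S.subtype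
  refine ⟨e.charpoly.roots.toFinset.image fun r => -r⁻¹, Finset.card_image_le.trans ((Multiset.toFinset_card_le _).trans
    ((Polynomial.card_roots' _).trans ?_)), fun t ht => ?_⟩
  · rw [LinearMap.charpoly_natDegree]; exact finrank_le S
  have h1 : LinearMap.ker (f + t • g) ⊓ S = ⊥ := by
    by_contra hne
    obtain ⟨v, ⟨h1, h2⟩, h3⟩ := (Submodule.ne_bot_iff _).1 hne
    have h4 : (⟨v, h2⟩ : S) + t • e ⟨v, h2⟩ = 0 := by
      have a := LinearMap.congr_fun hl ⟨v, h2⟩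
      have b := congrArg l (show f v + t • g v = 0 from h1)
      simp only [LinearMap.comp_apply, subtype_apply, LinearMap.id_apply] at a
      rw [map_add, map_smul, a, map_zero] at b
      exact b
    have h5 : t ≠ 0 := by
      rintro rfl
      exact h3 (by simpa using congrArg Subtype.val h4)
    refine ht (Finset.mem_image.2 ⟨-t⁻¹, ?_, by simp⟩)
    rw [Multiset.mem_toFinset, Polynomial.mem_roots e.charpoly_monic.ne_zero,
      ← Module.End.hasEigenvalue_iff_isRoot_charpoly]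
    refine Module.End.hasEigenvalue_of_hasEigenvector (x := ⟨v, h2⟩) ⟨?_, fun h => h3 (congrArg Subtype.val h)⟩
    rw [Module.End.mem_eigenspace_iff, neg_smul, eq_neg_iff_add_eq_zero, add_comm, ← smul_eq_zero_iff_right h5,
      smul_add, smul_smul, mul_inv_cancel₀ h5, one_smul, h4]
  have h2 := finrank_sup_add_finrank_inf_eq (LinearMap.ker (f + t • g)) S
  have h3 := finrank_add_eq_of_isCompl hS
  have h4 := finrank_le (LinearMap.ker (f + t • g) ⊔ S)
  rw [h1, finrank_bot] at h2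
  omega

/-- block lower triangular map -/
def blk {W : Type} [AddCommGroup W] [Module ℚ W] (A C D : F →ₗ[ℚ] W) : F × F × F →ₗ[ℚ] W × W × W :=
  (A ∘ₗ .fst _ _ _).prod ((C ∘ₗ .fst _ _ _ + A ∘ₗ .fst _ _ _ ∘ₗ .snd _ _ _).prod
    (D ∘ₗ .fst _ _ _ ∘ₗ .snd _ _ _ + A ∘ₗ .snd _ _ _ ∘ₗ .snd _ _ _))

omit [FiniteDimensional ℚ F] in
theorem mem_blk {W : Type} [AddCommGroup W] [Module ℚ W] {A C D : F →ₗ[ℚ] W} {w} :
    w ∈ LinearMap.ker (blk A C D) ↔ A w.1 = 0 ∧ C w.1 + A w.2.1 = 0 ∧ D w.2.1 + A w.2.2 = 0 := by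
  simp [blk]

theorem fr_map {W : Type} [AddCommGroup W] [Module ℚ W] (N : Submodule ℚ F) (p : F →ₗ[ℚ] W) :
    finrank ℚ N = finrank ℚ (N.map p) + finrank ℚ (N ⊓ LinearMap.ker p : Submodule ℚ F) := by
  have := (p ∘ₗ N.subtype).finrank_range_add_finrank_ker
  rw [LinearMap.range_comp, range_subtype, LinearMap.ker_comp, ← finrank_map_subtype_eq N, map_comap_subtype] at this
  exact this.symm

theorem blk_iff {W : Type} [AddCommGroup W] [Module ℚ W] (A C D : F →ₗ[ℚ] W)  :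
    finrank ℚ (LinearMap.ker (blk A C D)) = 3 * finrank ℚ (LinearMap.ker A) ↔
      (∀ u, A u = 0 → ∃ v, D u + A v = 0) ∧ ∀ u, A u = 0 → ∃ v w, C u + A v = 0 ∧ D v + A w = 0 := by
  set K := LinearMap.ker A
  set N := LinearMap.ker (blk A C D)
  let p : F × F × F →ₗ[ℚ] F := .fst _ _ _
  let q : F × F × F →ₗ[ℚ] F := .fst _ _ _ ∘ₗ .snd _ _ _
  let r : F × F × F →ₗ[ℚ] F := .snd _ _ _ ∘ₗ .snd _ _ _
  have h1 := fr_map N p
  have h2 := fr_map (N ⊓ LinearMap.ker p) q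
  have h3 := fr_map (N ⊓ LinearMap.ker p ⊓ LinearMap.ker q) r
  have hr : N ⊓ LinearMap.ker p ⊓ LinearMap.ker q ⊓ LinearMap.ker r = ⊥ := by
    rw [eq_bot_iff]
    rintro ⟨a, b, c⟩ ⟨⟨⟨x, y⟩, z⟩, h⟩
    obtain rfl : a = 0 := y
    obtain rfl : b = 0 := z
    obtain rfl : c = 0 := h
    rfl
  have hr' : (N ⊓ LinearMap.ker p ⊓ LinearMap.ker q).map r = K := by
    refine le_antisymm ?_ fun u hu => ⟨(0, 0, u), ⟨⟨mem_blk.2 (by simpa [K] using hu), rfl⟩, rfl⟩, rfl⟩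
    rintro _ ⟨⟨a, b, c⟩, ⟨⟨x, y⟩, z⟩, rfl⟩
    obtain rfl : b = 0 := z
    show A c = 0
    simpa using (mem_blk.1 x).2.2
  have hp : N.map p ≤ K := by
    rintro _ ⟨w, x, rfl⟩
    exact (mem_blk.1 x).1
  have hq : (N ⊓ LinearMap.ker p).map q ≤ K := by
    rintro _ ⟨⟨a, b, c⟩, ⟨x, y⟩, rfl⟩
    obtain rfl : a = 0 := y
    show A b = 0
    simpa using (mem_blk.1 x).2.1
  rw [hr, finrank_bot, hr'] at h3
  have h4 := finrank_mono hp
  have h5 := finrank_mono hq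
  constructor
  · intro h
    have e1 := eq_of_le_of_finrank_eq hp (by omega)
    have e2 := eq_of_le_of_finrank_eq hq (by omega)
    refine ⟨fun u hu => ?_, fun u hu => ?_⟩
    · obtain ⟨⟨a, b, c⟩, ⟨x, y⟩, rfl⟩ := e2.ge hu
      exact ⟨c, (mem_blk.1 x).2.2⟩
    · obtain ⟨⟨a, b, c⟩, x, rfl⟩ := e1.ge hu
      exact ⟨b, c, (mem_blk.1 x).2⟩
  · rintro ⟨a, b⟩
    have e1 : K ≤ N.map p := fun u hu => by
      obtain ⟨v, w, h⟩ := b u hu
      exact ⟨(u, v, w), mem_blk.2 ⟨hu, h⟩, rfl⟩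
    have e2 : K ≤ (N ⊓ LinearMap.ker p).map q := fun u hu => by
      obtain ⟨v, h⟩ := a u hu
      exact ⟨(0, u, v), ⟨mem_blk.2 ⟨by simp, by simpa [K] using hu, h⟩, rfl⟩, rfl⟩
    have := finrank_mono e1
    have := finrank_mono e2
    omega

end Pool.Agent.Lib.Par
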