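import Pool.Agent.Lib.helper22.ParA
/-! Local optimality of the evaluation of a sum of rank-two alternating forms. -/
namespace Pool.Agent.Lib.Par
open Module Submodule

variable {V : Type} [AddCommGroup V] [Module ℚ V] {ι : Type}

/-- wedge of two functionals -/
def wd (a b : Dual ℚ V) : V →ₗ[ℚ] Dual ℚ V := a.smulRight b - b.smulRight a
@[simp] theorem wd_apply (a b : Dual ℚ V) (u v : V) : wd a b u v = a u * b v - b u * a v := by simp [wd]
/-- sum of squares -/
def sq2 (a b : Dual ℚ V) : V →ₗ[ℚ] Dual ℚ V := a.smulRight a + b.smulRight b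
@[simp] theorem sq2_apply (a b : Dual ℚ V) (u v : V) : sq2 a b u v = a u * a v + b u * b v := by simp [sq2]
/-- the vectors of the lines in M are independent -/
def Mat {D : Type} [AddCommGroup D] [Module ℚ D] (a b : ι → D) (M : Finset ι) : Prop :=
  ∀ f g : ι → ℚ, ∑ i ∈ M, (f i • a i + g i • b i) = 0 → ∀ i ∈ M, f i = 0 ∧ g i = 0

def Alt (A : V →ₗ[ℚ] Dual ℚ V) : Prop := ∀ u, A u u = 0
theorem Alt.anti {A : V →ₗ[ℚ] Dual ℚ V} (h : Alt A) (u v : V) : A u v = -A v u :=
  Par.anti (E := ⊤) (fun v _ => h v) trivial trivial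
theorem Alt.add {A : V →ₗ[ℚ] Dual ℚ V} (h : Alt A) (t : ℚ) (a b) : Alt (A + t • wd a b) := fun u => by
  simp [h u, mul_comm]
theorem Alt.kill {A : V →ₗ[ℚ] Dual ℚ V} (h : Alt A) {u : V} (hu : A u = 0) (v : V) : A v u = 0 := by
  rw [h.anti, hu]; simp
theorem alt_sum (a b : ι → Dual ℚ V) (x : ι → ℚ) (S : Finset ι) : Alt (∑ i ∈ S, x i • wd (a i) (b i)) := fun u => by
  simp [LinearMap.sum_apply, mul_comm]

theorem Alt.even [FiniteDimensional ℚ V] {A : V →ₗ[ℚ] Dual ℚ V} (h : Alt A) :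
    ∃ d, finrank ℚ V = finrank ℚ (LinearMap.ker A) + 2 * d := by
  have := even_rad A ⊤ fun v _ => h v
  rwa [finrank_top, show rad A ⊤ = LinearMap.ker A from Submodule.ext fun u =>
    ⟨fun hu => LinearMap.ext fun v => hu.2 v trivial, fun hu => ⟨trivial, fun v _ => by rw [show A u = 0 from hu]; rfl⟩⟩] at this

theorem low (S : Finset ι) : ∀ (V : Type) [AddCommGroup V] [Module ℚ V] [FiniteDimensional ℚ V]
    (a b : ι → Dual ℚ V) (x : ι → ℚ), ∃ M ⊆ S, Mat a b M ∧
      finrank ℚ V ≤ finrank ℚ (LinearMap.ker (∑ i ∈ S, x i • wd (a i) (b i))) + 2 * M.card := by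
  classical
  induction S using Finset.induction_on with
  | empty => exact fun V _ _ _ a b x => ⟨∅, subset_rfl, fun _ _ _ => by simp, by rw [Finset.sum_empty, LinearMap.ker_zero]; simp⟩
  | insert i S hi ih =>
    intro V _ _ _ a b x
    obtain ⟨d, hd⟩ := (alt_sum a b x (insert i S)).even
    rw [Finset.sum_insert hi] at hd ⊢
    have al := alt_sum a b x S
    set A := ∑ i ∈ S, x i • wd (a i) (b i) with hA
    have sub : ∀ w, A w = 0 → a i w = 0 → b i w = 0 → w ∈ LinearMap.ker (x i • wd (a i) (b i) + A) :=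
      fun w h1 h2 h3 => LinearMap.ext fun v => by simp [h1, h2, h3]
    by_cases h : ∀ u v, A u = 0 → A v = 0 → wd (a i) (b i) u v = 0
    · obtain ⟨M, h1, h2, h3⟩ := ih V a b x
      refine ⟨M, h1.trans (Finset.subset_insert _ _), h2, ?_⟩
      obtain ⟨f, hf⟩ : ∃ f : Dual ℚ V, ∀ w, A w = 0 → f w = 0 → a i w = 0 ∧ b i w = 0 := by
        by_cases e : ∀ w, A w = 0 → a i w = 0
        · exact ⟨b i, fun w hw k => ⟨e w hw, k⟩⟩
        · push Not at e
          obtain ⟨u, hu, e⟩ := e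
          exact ⟨a i, fun w hw k => ⟨k, by simpa [k, e] using h u w hu hw⟩⟩
      have h4 := fr_map (LinearMap.ker A) f
      have h5 := finrank_le ((LinearMap.ker A).map f)
      have h6 : finrank ℚ (LinearMap.ker A ⊓ LinearMap.ker f : Submodule ℚ V) ≤ _ :=
        finrank_mono fun w hw => sub w hw.1 (hf w hw.1 hw.2).1 (hf w hw.1 hw.2).2
      rw [Module.finrank_self] at h5
      rw [← hA] at h3
      omega
    push Not at h
    obtain ⟨u, v, hu, hv, h⟩ := h
    rw [wd_apply] at h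
    set X := LinearMap.ker (a i) ⊓ LinearMap.ker (b i)
    obtain ⟨M, h1, h2, h3⟩ := ih X (fun j => a j ∘ₗ X.subtype) (fun j => b j ∘ₗ X.subtype) x
    have hM : i ∉ M := fun e => hi (h1 e)
    refine ⟨insert i M, Finset.insert_subset_insert _ h1, fun f g e => ?_, ?_⟩
    · rw [Finset.sum_insert hM] at e
      have k := h2 f g (LinearMap.ext fun w => by
        simpa [LinearMap.sum_apply, show a i w = 0 from w.2.1, show b i w = 0 from w.2.2] using LinearMap.congr_fun e w)
      rw [Finset.sum_eq_zero fun j hj => by rw [(k j hj).1, (k j hj).2]; simp, add_zero] at e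
      have e1 : f i * a i u + g i * b i u = 0 := by simpa using LinearMap.congr_fun e u
      have e2 : f i * a i v + g i * b i v = 0 := by simpa using LinearMap.congr_fun e v
      refine Finset.forall_mem_insert _ _ _ |>.2 ⟨⟨mul_right_cancel₀ h ?_, mul_right_cancel₀ h ?_⟩, k⟩
      · linear_combination b i v * e1 - b i u * e2
      · linear_combination a i u * e2 - a i v * e1
    have h4 := fr_map ⊤ (a i)
    have h5 := fr_map (LinearMap.ker (a i)) (b i)
    have h6 := finrank_le ((⊤ : Submodule ℚ V).map (a i))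
    have h7 := finrank_le ((LinearMap.ker (a i)).map (b i))
    rw [finrank_top, top_inf_eq] at h4
    rw [Module.finrank_self] at h6 h7
    rw [← finrank_map_subtype_eq X] at h3
    have h8 := finrank_mono (show (LinearMap.ker (∑ j ∈ S, x j • wd (a j ∘ₗ X.subtype) (b j ∘ₗ X.subtype))).map X.subtype ≤
        LinearMap.ker (x i • wd (a i) (b i) + A) by
      rintro _ ⟨w, hw, rfl⟩
      refine sub _ (LinearMap.ext fun y => ?_) w.2.1 w.2.2
      set c := a i u * b i v - b i u * a i v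
      have := LinearMap.congr_fun (show _ = (0 : Dual ℚ X) from hw)
        ⟨c • y - (a i y * b i v - b i y * a i v) • u - (a i u * b i y - b i u * a i y) • v,
          by simp [c]; ring, by simp [c]; ring⟩
      have e : A w (c • y - (a i y * b i v - b i y * a i v) • u - (a i u * b i y - b i u * a i y) • v) = 0 := by
        simpa [hA, LinearMap.sum_apply] using this
      simpa [al.kill hu, al.kill hv, h] using e)
    rw [Finset.card_insert_of_notMem hM]
    change _ = _ + finrank ℚ X at h5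
    omega

variable [FiniteDimensional ℚ V] {A : V →ₗ[ℚ] Dual ℚ V}

theorem Alt.rng (h : Alt A) {f : Dual ℚ V} (hf : ∀ u, A u = 0 → f u = 0) : ∃ w, A w = f := by
  have h1 : LinearMap.range A ≤ (LinearMap.ker A).dualAnnihilator := by
    rintro _ ⟨w, rfl⟩
    exact (mem_dualAnnihilator _).2 fun u hu => h.kill hu w
  have h2 := Subspace.finrank_add_finrank_dualAnnihilator_eq (LinearMap.ker A)
  have h3 := A.finrank_range_add_finrank_ker
  exact (eq_of_le_of_finrank_eq h1 (by omega)).ge ((mem_dualAnnihilator _).2 hf)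

def R1 (A : V →ₗ[ℚ] Dual ℚ V) (a b : Dual ℚ V) : Prop := ∀ u v, A u = 0 → A v = 0 → wd a b u v = 0
def ND (A : V →ₗ[ℚ] Dual ℚ V) (a b : Dual ℚ V) : Prop := ∀ u, A u = 0 → a u = 0 ∧ b u = 0
def NE (A S T : V →ₗ[ℚ] Dual ℚ V) : Prop := ∀ u w v, A u = 0 → A w = T u → A v = 0 → S w v = 0

theorem r1_of (h : Alt A) {t : ℚ} (ht : t ≠ 0) {a b}
    (e : finrank ℚ (LinearMap.ker (A + t • wd a b)) = finrank ℚ (LinearMap.ker A)) : R1 A a b := by
  intro u v hu hv
  by_contra hne
  have h1 : ∀ w, (A + t • wd a b) w = 0 → a w = 0 ∧ b w = 0 := fun w hw => by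
    have e1 := LinearMap.congr_fun hw u
    have e2 := LinearMap.congr_fun hw v
    simp [h.kill hu, h.kill hv, ht] at e1 e2
    rw [wd_apply] at hne
    exact ⟨mul_right_cancel₀ hne (by linear_combination a u * e2 - a v * e1),
      mul_right_cancel₀ hne (by linear_combination b u * e2 - b v * e1)⟩
  have h2 : LinearMap.ker (A + t • wd a b) ≤ LinearMap.ker A := fun w hw => LinearMap.ext fun y => by
    simpa [(h1 w hw).1, (h1 w hw).2] using LinearMap.congr_fun (show (A + t • wd a b) w = 0 from hw) y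
  have := h1 u ((eq_of_le_of_finrank_eq h2 e).ge hu)
  simp [this.1, this.2] at hne

theorem nd_iff (h : Alt A) {a b} :
    finrank ℚ (LinearMap.ker (blk A (sq2 a b) 0)) = 3 * finrank ℚ (LinearMap.ker A) ↔ ND A a b := by
  rw [blk_iff]
  refine ⟨fun k u hu => ?_, fun k => ⟨fun u _ => ⟨0, by simp⟩, fun u hu => ⟨0, 0, ?_, by simp⟩⟩⟩
  · obtain ⟨v, -, e, -⟩ := k.2 u hu
    have := LinearMap.congr_fun e u
    simp [h.kill hu] at this
    constructor <;> nlinarith [mul_self_nonneg (a u), mul_self_nonneg (b u)]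
  · ext y; simp [k u hu]

theorem ne_of (h : Alt A) {S T}
    (e : finrank ℚ (LinearMap.ker (blk A T S)) = 3 * finrank ℚ (LinearMap.ker A)) : NE A S T := by
  rw [blk_iff] at e
  intro u w v hu hw hv
  obtain ⟨y, z, e1, e2⟩ := e.2 u hu
  obtain ⟨r, e3⟩ := e.1 (w + y) (by rw [map_add, hw, e1])
  have := LinearMap.congr_fun e2 v
  have := LinearMap.congr_fun e3 v
  simp [h.kill hv] at *
  linarith

theorem ne_to (h : Alt A) {a b c d} (h1 : R1 A a b) (h2 : R1 A c d) (e : NE A (wd a b) (wd c d)) :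
    finrank ℚ (LinearMap.ker (blk A (wd c d) (wd a b))) = 3 * finrank ℚ (LinearMap.ker A) := by
  rw [blk_iff]
  refine ⟨fun u hu => ?_, fun u hu => ?_⟩
  · obtain ⟨w, hw⟩ := h.rng fun v hv => h1 u v hu hv
    exact ⟨-w, by simp [hw]⟩
  · obtain ⟨w, hw⟩ := h.rng fun v hv => h2 u v hu hv
    obtain ⟨y, hy⟩ := h.rng fun v hv => e u w v hu hw hv
    exact ⟨-w, y, by simp [hw], by simp [hy]⟩

/-- normal form of a line meeting the image in a point -/
structure Nf (A T : V →ₗ[ℚ] Dual ℚ V) (q p : Dual ℚ V) (f s : V) : Prop where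
  eq : T = wd q p
  k : A f = 0
  one : q f = 1
  im : A s = p
  z : q s = 0

theorem nf_of (h : Alt A) {q p : Dual ℚ V} (hp : ∀ u, A u = 0 → p u = 0) (hq : ¬ND A q p) :
    ∃ f s, Nf A (wd q p) q p f s := by
  simp only [ND, not_forall] at hq
  obtain ⟨u, hu, e⟩ := hq
  have e : q u ≠ 0 := fun k => e ⟨k, hp u hu⟩
  obtain ⟨w, hw⟩ := h.rng hp
  exact ⟨(q u)⁻¹ • u, w - (q w * (q u)⁻¹) • u, rfl, by simp [hu], by simp [e], by simp [hu, hw], by simp [e]⟩

theorem nf_ex (h : Alt A) {a b : Dual ℚ V} (r : R1 A a b) (hd : ¬ND A a b) :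
    ∃ q p f s, Nf A (wd a b) q p f s ∧ a ∈ span ℚ {q, p} ∧ b ∈ span ℚ {q, p} ∧
      ∀ u, q u = 0 ∧ p u = 0 ↔ a u = 0 ∧ b u = 0 := by
  by_cases e : ∀ u, A u = 0 → b u = 0
  · obtain ⟨f, s, k⟩ := nf_of h e hd
    exact ⟨a, b, f, s, k, subset_span (by simp), subset_span (by simp), fun _ => Iff.rfl⟩
  push Not at e
  obtain ⟨u, hu, e⟩ := e
  obtain ⟨f, s, k⟩ := nf_of h (q := -b) (p := a - (a u / b u) • b) (fun v hv => by
    have := r u v hu hv
    simp at this ⊢
    field_simp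
    linear_combination -this) fun k => e (by simpa using (k u hu).1)
  refine ⟨_, _, f, s, (show wd (-b) (a - (a u / b u) • b) = wd a b by ext; simp; ring) ▸ k,
    mem_span_pair.2 ⟨-(a u / b u), 1, by simp⟩, mem_span_pair.2 ⟨-1, 0, by simp⟩, fun v => ?_⟩
  simp only [LinearMap.neg_apply, neg_eq_zero, LinearMap.sub_apply, LinearMap.smul_apply]
  exact ⟨fun k => ⟨by simpa [k.1] using k.2, k.1⟩, fun k => ⟨k.2, by simp [k.1, k.2]⟩⟩

omit [FiniteDimensional ℚ V]
variable {T T' T'' : V →ₗ[ℚ] Dual ℚ V} {q p q' p' q'' p'' : Dual ℚ V} {f s f' s' f'' s'' : V}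

theorem Nf.van (h : Alt A) (n : Nf A T q p f s) {u} (hu : A u = 0) : p u = 0 := n.im ▸ h.kill hu s
theorem Nf.ps (h : Alt A) (n : Nf A T q p f s) : p s = 0 := n.im ▸ h s
theorem Nf.sym (h : Alt A) (n : Nf A T q p f s) (n' : Nf A T' q' p' f' s') : p s' = -p' s := by
  rw [← n.im, ← n'.im, h.anti]
theorem Nf.ne_iff (h : Alt A) (n : Nf A T q p f s) (n' : Nf A T' q' p' f' s') : NE A T T' ↔ p s' = 0 := by
  refine ⟨fun e => ?_, fun e u w v hu hw hv => ?_⟩
  · simpa [n.eq, n.one, n.van h n.k] using e f' s' f n'.k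
      (by ext; simp [n'.im, n'.eq, n'.one, n'.van h n'.k]) n.k
  · have := n.van h (u := w - q' u • s') (by ext; simp [hw, n'.im, n'.eq, n'.van h hu])
    simp [e] at this
    simp [n.eq, this, n.van h hv]
theorem Nf.ker1 (h : Alt A) (n : Nf A T q p f s) (t : ℚ) {u} (hu : A u = 0) : (A + t • T) (u - (t * q u) • s) = 0 := by
  ext; simp [hu, n.im, n.eq, n.z, n.ps h, n.van h hu]; ring
theorem Nf.ker2 (h : Alt A) (n : Nf A T q p f s) {t : ℚ} (ht : t ≠ 0) {v} (hv : (A + t • T) v = 0) :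
    A (v + (t * q v) • s) = 0 := by
  have := LinearMap.congr_fun hv f
  simp [h.kill n.k, n.eq, n.one, n.van h n.k, ht] at this
  ext y
  have e := LinearMap.congr_fun hv y
  simp [n.eq, this] at e
  simp [n.im]; linarith
theorem Nf.xi (h : Alt A) (n : Nf A T q p f s) (n' : Nf A T' q' p' f' s') {c : V} (hc : A c = q' - q' f • q) (t : ℚ) :
    ∃ m k : ℚ, (A + t • T) (m • s' + (t * p' s) • c - k • f) = T' (f - t • s) := by
  have e : p c = -q' s := by rw [← n.im, h.anti, hc]; simp [n.z]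
  refine ⟨q' f - t * q' s, (q' f - t * q' s) * q s' + t * p' s * q c, ?_⟩
  ext y
  simp [hc, n.eq, n'.eq, n'.im, n.k, n.one, n.van h n.k, n'.van h n.k, n.sym h n', e]
  ring

end Pool.Agent.Lib.Par
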