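import Pool.Agent.Lib.helper22.ParB
/-! A locally optimal evaluation has maximum rank. -/
namespace Pool.Agent.Lib.Par
open Module Submodule

variable {V : Type} [AddCommGroup V] [Module ℚ V] [FiniteDimensional ℚ V] {ι : Type} (a b : ι → Dual ℚ V)
  {A : V →ₗ[ℚ] Dual ℚ V}

def Step (A B : V →ₗ[ℚ] Dual ℚ V) : Prop := (∀ l, ND B (a l) (b l) ↔ ND A (a l) (b l)) ∧
  ∀ i j, NE A (wd (a i) (b i)) (wd (a j) (b j)) → NE B (wd (a i) (b i)) (wd (a j) (b j))
def P1 (A : V →ₗ[ℚ] Dual ℚ V) : Prop :=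
  Alt A ∧ (∀ i, R1 A (a i) (b i)) ∧ ∀ i, ∃ t ≠ (0 : ℚ), Step a b A (A + t • wd (a i) (b i))
def P2 (A : V →ₗ[ℚ] Dual ℚ V) : Prop :=
  P1 a b A ∧ ∀ i, ∃ t ≠ (0 : ℚ), Step a b A (A + t • wd (a i) (b i)) ∧ P1 a b (A + t • wd (a i) (b i)) ∧
    Step a b (A + t • wd (a i) (b i)) A
def Nl (A : V →ₗ[ℚ] Dual ℚ V) (i : ι) (q p : Dual ℚ V) (f s : V) : Prop :=
  Nf A (wd (a i) (b i)) q p f s ∧ ∀ u, q u = 0 ∧ p u = 0 ↔ a i u = 0 ∧ b i u = 0

variable {a b} {i j k l : ι} {q p q' p' q'' p'' Q P : Dual ℚ V} {f s f' s' f'' s'' F S c d : V}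

theorem f0 (h : P1 a b A) (hl : ND A (a l) (b l)) {u w} (hu : A u = 0) (hw : A w = wd (a i) (b i) u) :
    a l w = 0 ∧ b l w = 0 := by
  by_cases e : ND A (a i) (b i)
  · exact hl w (by ext; simp [hw, e u hu])
  obtain ⟨q, p, f, s, n, -⟩ := nf_ex h.1 (h.2.1 i) e
  obtain ⟨t, ht, st⟩ := h.2.2 i
  have e1 := (st.1 l).2 hl _ (n.ker1 h.1 t n.k)
  have e2 := hl (w - q u • s) (by ext; simp [hw, n.im, n.eq, n.van h.1 hu])
  simp [n.one, hl f n.k, ht] at e1
  simpa [e1] using e2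

omit [FiniteDimensional ℚ V] in
theorem f1 (h : P2 a b A) (n : Nl a b A i q p f s) (n' : Nl a b A j q' p' f' s') (e : p' s ≠ 0) (u) (hu : A u = 0) :
    (q' - q' f • q) u = 0 := by
  obtain ⟨t, ht, -, h', -⟩ := h.2 i
  have := h'.2.1 j _ _ (n.1.ker1 h.1.1 t hu) (n.1.ker1 h.1.1 t n.1.k)
  simp [n'.1.eq, n.1.one, n'.1.van h.1.1 hu, n'.1.van h.1.1 n.1.k] at this ⊢
  exact mul_left_cancel₀ (mul_ne_zero ht e) (by linear_combination -this)

theorem f2 (h : P2 a b A) (n : Nl a b A i q p f s) (n' : Nl a b A j q' p' f' s') (e : p' s ≠ 0)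
    (hc : A c = q' - q' f • q) (hl : ND A (a l) (b l)) : a l c = 0 ∧ b l c = 0 := by
  obtain ⟨t, ht, st, h', -⟩ := h.2 i
  obtain ⟨m, k, e1⟩ := n.1.xi h.1.1 n'.1 hc t
  have e2 := f0 h' ((st.1 l).2 hl) (by simpa [n.1.one] using n.1.ker1 h.1.1 t n.1.k) e1
  have e3 := f0 h.1 hl (i := j) (w := s') n'.1.k (by ext; simp [n'.1.im, n'.1.eq, n'.1.one, n'.1.van h.1.1 n'.1.k])
  simpa [e3, hl f n.1.k, ht, e] using e2

omit [FiniteDimensional ℚ V] in
theorem Nl.nd (n : Nl a b A i q p f s) : ¬ND A (a i) (b i) := fun e => by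
  simpa [n.1.one] using ((n.2 f).2 (e f n.1.k)).1

omit [FiniteDimensional ℚ V] in
theorem f3 (h : P1 a b A) (n : Nl a b A i q p f s) (n' : Nl a b A j q' p' f' s') (e : p' s ≠ 0)
    (hc : A c = q' - q' f • q) (n'' : Nl a b A k q'' p'' f'' s'') (e1 : p'' s = 0) (e2 : p'' s' = 0) : p'' c = 0 := by
  obtain ⟨t, ht, st⟩ := h.2.2 i
  obtain ⟨m, r, e3⟩ := n.1.xi h.1 n'.1 hc t
  have e4 := mt (st.1 k).1 n''.nd
  simp only [ND, not_forall, ← n''.2] at e4
  obtain ⟨v, hv, e4⟩ := e4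
  have e5 : p'' v = 0 := by simpa [e1] using n''.1.van h.1 (n.1.ker2 h.1 ht hv)
  have e6 : q'' v ≠ 0 := fun x => e4 ⟨x, e5⟩
  have := st.2 k j ((n''.1.ne_iff h.1 n'.1).2 e2) _ _ v (by simpa [n.1.one] using n.1.ker1 h.1 t n.1.k) e3 hv
  simpa [n''.1.eq, e5, e6, e2, n''.1.van h.1 n.1.k, ht, e] using this

theorem f4 (h : P2 a b A) (n : Nl a b A i q p f s) (n' : Nl a b A j q' p' f' s') (e : p' s ≠ 0)
    (hc : A c = q' - q' f • q) (m : Nl a b A k q'' p'' f'' s'') (m' : Nl a b A l Q P F S) (e' : P s'' ≠ 0)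
    (hd : A d = Q - Q f'' • q'') (e1 : p s'' = 0) (e2 : p S = 0) (e3 : p' s'' = 0) (e4 : p' S = 0) : A d c = 0 := by
  have al := h.1.1
  have g1 := f3 h.1 m m' e' hd n e1 e2
  have g2 := f3 h.1 m m' e' hd n' e3 e4
  obtain ⟨t, ht, st, h', st'⟩ := h.2 i
  have mv : ∀ {k q'' p'' f'' s''}, Nl a b A k q'' p'' f'' s'' → p s'' = 0 →
      ∃ x y, Nl a b (A + t • wd (a i) (b i)) k q'' p'' x y := fun {k q'' p'' f'' s''} m e1 => by
    obtain ⟨x, y, z⟩ := nf_of h'.1 (q := q'') (p := p'') (fun v hv => by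
      simpa [m.1.sym al n.1, e1] using m.1.van al (n.1.ker2 al ht hv)) fun z =>
        m.nd ((st.1 k).1 fun u hu => (m.2 u).1 (z u hu))
    exact ⟨x, y, m.1.eq ▸ z, m.2⟩
  obtain ⟨x, y, z⟩ := mv m e1
  obtain ⟨X, Y, Z⟩ := mv m' e2
  have g3 : P y ≠ 0 := fun g => e' ((m'.1.ne_iff al m.1).1 (st'.2 l k ((Z.1.ne_iff h'.1 z.1).2 g)))
  have g4 : ∀ v, (A + t • wd (a i) (b i)) v = 0 → A d v = 0 := fun v hv => by
    simpa [al.anti d s, n.1.im, g1] using al.kill (n.1.ker2 al ht hv) d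
  obtain ⟨w, hw⟩ := h'.1.rng g4
  have g5 : Q f'' = Q x := by
    have := g4 x z.1.k
    simp [hd, z.1.one] at this
    linarith
  obtain ⟨u, v, f₀, s₀, o, -, -, o'⟩ := nf_ex h'.1 (h'.2.1 j) (mt (st.1 j).1 n'.nd)
  have g6 := f3 h' z Z g3 (by rw [hw, hd, g5]) ⟨o, o'⟩
    ((o.ne_iff h'.1 z.1).1 (st.2 j k ((n'.1.ne_iff al m.1).2 e3)))
    ((o.ne_iff h'.1 Z.1).1 (st.2 j l ((n'.1.ne_iff al m'.1).2 e4)))
  obtain ⟨r, r', g7⟩ := n.1.xi al n'.1 hc t
  have g8 := h'.1.anti w (r • s' + (t * p' s) • c - r' • f)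
  rw [g7, hw, o.eq, wd_apply, g6, o.van h'.1 (by simpa [n.1.one] using n.1.ker1 al t n.1.k)] at g8
  simpa [al.anti d s', n'.1.im, g2, al.kill n.1.k, ht, e] using g8

omit [FiniteDimensional ℚ V] in
theorem Mat.card_le {D : Type} [AddCommGroup D] [Module ℚ D] [FiniteDimensional ℚ D] {a b : ι → D} {M : Finset ι}
    (h : Mat a b M) {X : Submodule ℚ D} (hX : ∀ i ∈ M, a i ∈ X ∧ b i ∈ X) : 2 * M.card ≤ finrank ℚ X := by
  classical
  have : LinearIndependent ℚ (Sum.elim (fun i : M => (⟨a i, (hX i i.2).1⟩ : X)) fun i : M => ⟨b i, (hX i i.2).2⟩) := by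
    rw [Fintype.linearIndependent_iff]
    intro g hg
    have := h (fun i => if e : i ∈ M then g (.inl ⟨i, e⟩) else 0) (fun i => if e : i ∈ M then g (.inr ⟨i, e⟩) else 0) (by
      rw [← Finset.sum_coe_sort]
      simpa [Finset.sum_add_distrib] using congrArg Subtype.val hg)
    rintro (i | i)
    · simpa using (this i i.2).1
    · simpa using (this i i.2).2
  simpa [two_mul] using this.fintype_card_le_finrank

theorem opt (h : P2 a b A) {M : Finset ι} (hM : Mat a b M) : 2 * M.card ≤ finrank ℚ (LinearMap.range A) := by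
  classical
  have al := h.1.1
  have : ∀ i, ∃ q p f s, ¬ND A (a i) (b i) → Nl a b A i q p f s ∧ a i ∈ span ℚ {q, p} ∧ b i ∈ span ℚ {q, p} := fun i => by
    by_cases e : ND A (a i) (b i)
    · exact ⟨0, 0, 0, 0, fun k => (k e).elim⟩
    · obtain ⟨q, p, f, s, n, x, y, z⟩ := nf_ex al (h.1.2.1 i) e
      exact ⟨q, p, f, s, fun _ => ⟨⟨n, z⟩, x, y⟩⟩
  choose q p f s n using this
  let adj : ι → ι → Prop := fun i j => ¬ND A (a i) (b i) ∧ ¬ND A (a j) (b j) ∧ p j (s i) ≠ 0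
  let grp : ι → Option (Quot adj) := fun i => if ND A (a i) (b i) then none else some (Quot.mk adj i)
  let G : Option (Quot adj) → Set (Dual ℚ V) := fun g =>
    {x | (g = none ∧ ∃ l, ND A (a l) (b l) ∧ (x = a l ∨ x = b l)) ∨
      (∃ i, ¬ND A (a i) (b i) ∧ g = some (Quot.mk adj i) ∧ x = p i) ∨
      ∃ i j, adj i j ∧ g = some (Quot.mk adj i) ∧ x = q j - q j (f i) • q i}
  have hG : ∀ g, ∀ x ∈ G g, ∃ w, A w = x := by
    rintro g x (⟨-, l, hl, rfl | rfl⟩ | ⟨i, hi, -, rfl⟩ | ⟨i, j, e, -, rfl⟩)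
    · exact al.rng fun u hu => (hl u hu).1
    · exact al.rng fun u hu => (hl u hu).2
    · exact ⟨_, (n i hi).1.1.im⟩
    · exact al.rng (f1 h (n i e.1).1 (n j e.2.1).1 e.2.2)
  obtain ⟨B₀, hB₀⟩ := A.rangeRestrict.exists_rightInverse_of_surjective A.range_rangeRestrict
  obtain ⟨B, hB⟩ := B₀.exists_extend
  have hAB : ∀ w, A (B (A w)) = A w := fun w => by
    rw [show B (A w) = B₀ ⟨A w, w, rfl⟩ from LinearMap.congr_fun hB ⟨A w, w, rfl⟩]
    exact congrArg Subtype.val (LinearMap.congr_fun hB₀ ⟨A w, w, rfl⟩)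
  let β : Dual ℚ V →ₗ[ℚ] Dual ℚ V →ₗ[ℚ] ℚ := (LinearMap.id : Dual ℚ V →ₗ[ℚ] V →ₗ[ℚ] ℚ).compl₂ B
  have hβ : ∀ u w, β (A u) (A w) = A u w := fun u w => by
    show A u (B (A w)) = _
    rw [al.anti, hAB, ← al.anti]
  have nadj : ∀ i j, ¬ND A (a i) (b i) → ¬ND A (a j) (b j) → Quot.mk adj i ≠ Quot.mk adj j → p j (s i) = 0 :=
    fun i j hi hj e => by_contra fun k => e (Quot.sound ⟨hi, hj, k⟩)
  have o1 : ∀ g, ∀ x ∈ G g, g ≠ none → ∀ c, A c = x → ∀ l, ND A (a l) (b l) → a l c = 0 ∧ b l c = 0 := by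
    rintro g x (⟨e, -⟩ | ⟨i, hi, -, rfl⟩ | ⟨i, j, e, -, rfl⟩) hg c hc l hl
    · exact (hg e).elim
    · have m := (n i hi).1.1
      exact f0 h.1 hl (i := i) m.k (by ext; simp [hc, m.eq, m.one, m.van al m.k])
    · exact f2 h (n i e.1).1 (n j e.2.1).1 e.2.2 hc hl
  have o2 : ∀ g, ∀ x ∈ G g, g ≠ none → ∀ c, A c = x → ∀ k, ¬ND A (a k) (b k) → g ≠ some (Quot.mk adj k) → p k c = 0 := by
    rintro g x (⟨e, -⟩ | ⟨i, hi, rfl, rfl⟩ | ⟨i, j, e, rfl, rfl⟩) hg c hc k hk hn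
    · exact (hg e).elim
    · rw [← (n k hk).1.1.im, al.anti, hc, nadj k i hk hi fun x => hn (by rw [x]), neg_zero]
    · exact f3 h.1 (n i e.1).1 (n j e.2.1).1 e.2.2 hc (n k hk).1 (nadj i k e.1 hk fun x => hn (by rw [x]))
        (nadj j k e.2.1 hk fun x => hn (by rw [← x, Quot.sound e]))
  have o3 : ∀ g g', g ≠ g' → g' ≠ none → ∀ c d, A c ∈ G g → A d ∈ G g' → A c d = 0 := by
    rintro g g' hg hg' c d (⟨-, l, hl, e | e⟩ | ⟨i, hi, rfl, e⟩ | ⟨i, j, e, rfl, hc⟩) hd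
    · rw [e]; exact (o1 g' _ hd hg' d rfl l hl).1
    · rw [e]; exact (o1 g' _ hd hg' d rfl l hl).2
    · rw [e]; exact o2 g' _ hd hg' d rfl i hi hg.symm
    rcases hd with ⟨x, -⟩ | ⟨k, hk, rfl, x⟩ | ⟨k, l, x, rfl, hd⟩
    · exact (hg' x).elim
    · rw [al.anti, x, o2 _ _ (.inr (.inr ⟨i, j, e, rfl, hc⟩)) (by simp) c rfl k hk hg, neg_zero]
    have y : Quot.mk adj i ≠ Quot.mk adj k := fun y => hg (by rw [y])
    exact f4 h (n k x.1).1 (n l x.2.1).1 x.2.2 hd (n i e.1).1 (n j e.2.1).1 e.2.2 hc (nadj i k e.1 x.1 y)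
      (nadj j k e.2.1 x.1 (Quot.sound e ▸ y)) (nadj i l e.1 x.2.1 (Quot.sound x ▸ y))
      (nadj j l e.2.1 x.2.1 (Quot.sound e ▸ Quot.sound x ▸ y))
  let S : Option (Quot adj) → Submodule ℚ (Dual ℚ V) := fun g =>
    span ℚ (((M.filter (grp · = g)).image a ∪ (M.filter (grp · = g)).image b : Finset _) : Set _)
  have hS : ∀ g (X : Submodule ℚ (Dual ℚ V)), (∀ i, grp i = g → a i ∈ X ∧ b i ∈ X) → S g ≤ X := fun g X hX =>
    span_le.2 fun x hx => by
      simp only [Finset.coe_union, Finset.coe_image, Finset.coe_filter, Set.mem_union, Set.mem_image] at hx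
      rcases hx with ⟨i, e, rfl⟩ | ⟨i, e, rfl⟩
      exacts [(hX i e.2).1, (hX i e.2).2]
  have := cert β (LinearMap.range A) (by rintro _ ⟨w, rfl⟩; rw [hβ, al]) (by
      rintro _ ⟨w, rfl⟩ e
      exact LinearMap.ext fun v => by rw [← hβ, e _ ⟨v, rfl⟩]; rfl)
    (fun g => span ℚ (G g)) S (fun g => (M.filter (grp · = g)).card) (fun g => span_le.2 (hG g)) (fun g g' hg u hu v hv => by
      have : span ℚ (G g) ≤ LinearMap.ker (β.flip v) := span_le.2 fun x hx =>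
        (span_le.2 fun y hy => by
          obtain ⟨c, rfl⟩ := hG _ _ hx
          obtain ⟨d, rfl⟩ := hG _ _ hy
          show β _ _ = 0
          rw [hβ]
          by_cases e : g' = none
          · rw [al.anti, o3 g' g hg.symm (fun k => hg (k.trans e.symm)) d c hy hx, neg_zero]
          · exact o3 g g' hg e c d hx hy : span ℚ (G g') ≤ LinearMap.ker (β x)) hv
      exact this hu)
    (fun g => (finrank_span_finset_le_card _).trans ((Finset.card_union_le _ _).trans (by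
      rw [two_mul]; exact add_le_add Finset.card_image_le Finset.card_image_le))) (fun g => by
      obtain ⟨x, hx⟩ : ∃ x, S g ≤ span ℚ (G g) ⊔ span ℚ {x} := by
        rcases g with _ | g
        · refine ⟨0, hS _ _ fun i e => ?_⟩
          have e : ND A (a i) (b i) := by_contra fun k => by simp [grp, k] at e
          exact ⟨mem_sup_left (subset_span (.inl ⟨rfl, i, e, .inl rfl⟩)),
            mem_sup_left (subset_span (.inl ⟨rfl, i, e, .inr rfl⟩))⟩
        obtain ⟨i₀, rfl⟩ := g.exists_rep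
        refine ⟨q i₀, hS _ _ fun i e => ?_⟩
        set X := span ℚ (G (some (Quot.mk adj i₀))) ⊔ span ℚ {q i₀}
        have hi : ¬ND A (a i) (b i) := fun k => by simp [grp, k] at e
        have e : Quot.mk adj i = Quot.mk adj i₀ := by simpa [grp, hi] using e
        have k1 : ∀ i j, adj i j → Quot.mk adj i = Quot.mk adj i₀ → q i ∈ X → q j ∈ X := fun i j e e' k => by
          simpa using X.add_mem (mem_sup_left (subset_span (.inr (.inr ⟨i, j, e, by rw [e'], rfl⟩))))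
            (X.smul_mem (q j (f i)) k)
        have k2 : ∀ i j, Relation.EqvGen adj i j → Quot.mk adj i = Quot.mk adj i₀ → (q i ∈ X ↔ q j ∈ X) := by
          intro i j r
          induction r with
          | rel i j r => exact fun e => ⟨k1 i j r e, k1 j i ⟨r.2.1, r.1, by
              rw [(n i r.1).1.1.sym al (n j r.2.1).1.1]; exact neg_ne_zero.2 r.2.2⟩ (Quot.sound r ▸ e)⟩
          | refl => exact fun _ => Iff.rfl
          | symm i j r ih => exact fun e => (ih ((Quot.eqvGen_sound r).trans e)).symm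
          | trans i j k r _ ih ih' => exact fun e => (ih e).trans (ih' ((Quot.eqvGen_sound r).symm.trans e))
        have k3 : span ℚ {q i, p i} ≤ X := span_le.2 (Set.pair_subset
          ((k2 i i₀ (Quot.eqvGen_exact e) e).2 (mem_sup_right (subset_span rfl)))
          (mem_sup_left (subset_span (.inr (.inl ⟨i, hi, by rw [e], rfl⟩)))))
        exact ⟨k3 (n i hi).2.1, k3 (n i hi).2.2⟩
      have h1 := finrank_mono (sup_le hx le_sup_left)
      have h2 := finrank_sup_add_finrank_inf_eq (span ℚ (G g)) (span ℚ {x})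
      have h3 := finrank_span_le_card (R := ℚ) ({x} : Set (Dual ℚ V))
      simp only [Set.toFinset_singleton, Finset.card_singleton] at h3
      omega) (M.image grp)
  rw [← Finset.card_eq_sum_card_image] at this
  have := hM.card_le (X := (M.image grp).sup S) fun i hi =>
    have k := Finset.le_sup (f := S) (Finset.mem_image_of_mem grp hi)
    ⟨k (subset_span (by simp only [Finset.coe_union, Finset.coe_image]; exact .inl ⟨i, by simp [hi], rfl⟩)),
      k (subset_span (by simp only [Finset.coe_union, Finset.coe_image]; exact .inr ⟨i, by simp [hi], rfl⟩))⟩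
  omega

end Pool.Agent.Lib.Par
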