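import Pool.Agent.Lib.helper22.ParC
/-! A local minimum of the potential gives the size of a maximum matching. -/
namespace Pool.Agent.Lib.Par
open Module Submodule Function

variable {V : Type} [AddCommGroup V] [Module ℚ V] [FiniteDimensional ℚ V] {ι : Type} [Fintype ι] [DecidableEq ι]
  (a b : ι → Dual ℚ V)

noncomputable def kd (A C D : V →ₗ[ℚ] Dual ℚ V) : ℕ := finrank ℚ (LinearMap.ker (blk A C D))
def ev (x : ι → ℚ) : V →ₗ[ℚ] Dual ℚ V := ∑ i, x i • wd (a i) (b i)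
def fam (k : ι × ι × Fin 3) : (V →ₗ[ℚ] Dual ℚ V) × (V →ₗ[ℚ] Dual ℚ V) :=
  ![(0, 0), (sq2 (a k.1) (b k.1), 0), (wd (a k.2.1) (b k.2.1), wd (a k.1) (b k.1))] k.2.2
noncomputable def pot (x : ι → ℚ) : ℕ := ∑ k, kd (ev a b x) (fam a b k).1 (fam a b k).2
def Eqv (A B : V →ₗ[ℚ] Dual ℚ V) : Prop := ∀ k, kd B (fam a b k).1 (fam a b k).2 = kd A (fam a b k).1 (fam a b k).2

theorem kd_zero (A : V →ₗ[ℚ] Dual ℚ V) : kd A 0 0 = 3 * finrank ℚ (LinearMap.ker A) :=
  (blk_iff A 0 0).2 ⟨fun _ _ => ⟨0, by simp⟩, fun _ _ => ⟨0, 0, by simp⟩⟩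

omit [FiniteDimensional ℚ V] in
theorem ev_up (x : ι → ℚ) (i : ι) (v : ℚ) : ev a b (update x i v) = ev a b x + (v - x i) • wd (a i) (b i) := by
  have : update x i v = x + Pi.single i (v - x i) := by
    ext k; by_cases e : k = i <;> simp [e]
  simp [ev, this, add_smul, Finset.sum_add_distrib, Pi.single_apply, ite_smul]

omit [FiniteDimensional ℚ V] in
theorem blk_add (A T C D : V →ₗ[ℚ] Dual ℚ V) (t : ℚ) : blk (A + t • T) C D = blk A C D + t • blk T 0 0 :=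
  LinearMap.ext fun w => by simp [blk, add_assoc]

variable {a b}

theorem pick {N : ℕ} (hN : Fintype.card (ι × ι × Fin 3) * (3 * finrank ℚ V) + 1 ≤ N) {x : ι → ℚ}
    (h : ∀ j, ∀ w ≤ N, pot a b x ≤ pot a b (update x j w)) (i : ι) :
    ∃ v ≤ N, (v : ℚ) - x i ≠ 0 ∧ Eqv a b (ev a b x) (ev a b (update x i v)) := by
  classical
  choose B h1 h2 using fun k => generic (blk (ev a b x) (fam a b k).1 (fam a b k).2) (blk (wd (a i) (b i)) 0 0)
  obtain ⟨t, ht, hn⟩ := Finset.exists_mem_notMem_of_card_lt_card (s := insert 0 (Finset.univ.biUnion B))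
    (t := (Finset.range (N + 1)).image fun v : ℕ => (v : ℚ) - x i) (by
      rw [Finset.card_image_of_injective _ fun u v e => by simpa using e, Finset.card_range]
      have := Finset.card_biUnion_le_card_mul Finset.univ B (3 * finrank ℚ V) fun k _ => (h1 k).trans (by
        simp only [finrank_prod]; omega)
      have := Finset.card_insert_le 0 (Finset.univ.biUnion B)
      rw [Finset.card_univ] at *
      omega)
  obtain ⟨v, hv, rfl⟩ := Finset.mem_image.1 ht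
  have hv := Nat.le_of_lt_succ (Finset.mem_range.1 hv)
  simp only [Finset.mem_insert, Finset.mem_biUnion, Finset.mem_univ, true_and, not_or, not_exists] at hn
  refine ⟨v, hv, hn.1, fun k => (Finset.sum_eq_sum_iff_of_le fun k _ => ?_).1
    (le_antisymm (Finset.sum_le_sum fun k _ => ?_) (h i v hv)) k (Finset.mem_univ _)⟩ <;>
  · refine le_of_eq_of_le ?_ (h2 k _ (hn.2 k))
    rw [kd, ev_up, blk_add]

omit [Fintype ι] [DecidableEq ι] in
theorem Eqv.step {A B : V →ₗ[ℚ] Dual ℚ V} (e : Eqv a b A B) (hA : Alt A) (hB : Alt B) (r : ∀ i, R1 A (a i) (b i)) :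
    Step a b A B := by
  have k : ∀ i : ι, 3 * finrank ℚ (LinearMap.ker B) = 3 * finrank ℚ (LinearMap.ker A) := fun i => by
    rw [← kd_zero, ← kd_zero]; exact e (i, i, 0)
  refine ⟨fun l => ?_, fun i j h => ne_of hB ?_⟩
  · rw [← nd_iff hA, ← nd_iff hB, k l]
    exact Eq.congr_left (e (l, l, 1))
  · rw [k i, ← ne_to hA (r i) (r j) h]
    exact e (i, j, 2)

theorem p1_of {N : ℕ} (hN : Fintype.card (ι × ι × Fin 3) * (3 * finrank ℚ V) + 1 ≤ N) {x : ι → ℚ}
    (h : ∀ j, ∀ w ≤ N, pot a b x ≤ pot a b (update x j w)) : P1 a b (ev a b x) := by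
  have al : Alt (ev a b x) := alt_sum _ _ _ _
  have r : ∀ i, R1 (ev a b x) (a i) (b i) := fun i => by
    obtain ⟨v, -, h1, h2⟩ := pick hN h i
    have : kd _ 0 0 = kd _ 0 0 := h2 (i, i, 0)
    rw [kd_zero, kd_zero, ev_up] at this
    exact r1_of al h1 (by omega)
  refine ⟨al, r, fun i => ?_⟩
  obtain ⟨v, -, h1, h2⟩ := pick hN h i
  exact ⟨_, h1, ev_up a b x i v ▸ h2.step al (alt_sum _ _ _ _) r⟩

theorem main {N : ℕ} (hN : Fintype.card (ι × ι × Fin 3) * (3 * finrank ℚ V) + 1 ≤ N) {x : ι → ℚ}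
    (h : ∀ i j, ∀ v ≤ N, ∀ w ≤ N, pot a b x ≤ pot a b (update (update x i v) j w)) :
    ∃ ν, IsGreatest {k | ∃ M, Mat a b M ∧ M.card = k} ν ∧ 6 * ν + kd (ev a b x) 0 0 = 3 * finrank ℚ V := by
  have h1 : ∀ j, ∀ w ≤ N, pot a b x ≤ pot a b (update x j w) := fun j w hw => by simpa using h j j w hw w hw
  have p := p1_of hN h1
  have p2 : P2 a b (ev a b x) := ⟨p, fun i => by
    obtain ⟨v, hv, h2, h3⟩ := pick hN h1 i
    have q := p1_of hN (x := update x i v) fun j w hw =>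
      (Finset.sum_congr rfl fun k _ => h3 k).trans_le (h i j v hv w hw)
    exact ⟨_, h2, ev_up a b x i v ▸ ⟨h3.step p.1 q.1 p.2.1, q, Eqv.step (fun k => (h3 k).symm) q.1 p.1 q.2.1⟩⟩⟩
  obtain ⟨M, -, m1, m2⟩ := low Finset.univ V a b x
  have m3 := (ev a b x).finrank_range_add_finrank_ker
  have m4 := opt p2 m1
  change _ ≤ finrank ℚ (LinearMap.ker (ev a b x)) + _ at m2
  refine ⟨M.card, ⟨⟨M, m1, rfl⟩, ?_⟩, by rw [kd_zero]; omega⟩
  rintro _ ⟨M', m, rfl⟩
  have := opt p2 m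
  omega

end Pool.Agent.Lib.Par
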