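import Pool.Agent.Lib.helper22.ParD
import Pool.Agent.Lib.helper22.CXDet
/-! The rank of a Gram table in polynomial time; local search. -/
namespace Pool.Agent.Lib.Par
open Module Submodule Function Pool.Agent.Lib.CX Pool.Agent.Lib.helper22.CXDet

theorem pdet_lt (G : List (List ℤ)) (h : ∀ t < G.length, 0 < dN t (en G)) : pdet G = dN G.length (en G) := by
  have b : ∀ i j, |en G i j| ≤ (G.flatten.map Int.natAbs).sum + 1 := fun i j => by
    rw [Int.abs_eq_natAbs]
    by_cases e : en G i j = 0
    · rw [e]; positivity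
    have : en G i j ∈ G.flatten := by
      unfold en at *
      have a : j < (G.getD i []).length := by
        by_contra! k; exact e (List.getD_eq_default _ _ k)
      have b : i < G.length := by
        by_contra! k; rw [List.getD_eq_default _ _ k] at a; simp at a
      rw [List.getD_eq_getElem _ _ a]
      exact List.mem_flatten.2 ⟨_, by rw [List.getD_eq_getElem _ _ b]; exact List.getElem_mem _, List.getElem_mem _⟩
    exact_mod_cast (List.le_sum_of_mem (List.mem_map_of_mem this)).trans (Nat.le_succ _)
  have c : ∀ k < G.length, ∀ i j, cl (bd G) (mn (en G) k i j) = mn (en G) k i j := fun k hk i j => if_pos (by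
    have := Matrix.det_le (abv := AbsoluteValue.abs) (A := Matrix.of fun a b : Fin (k + 1) =>
      en G (if a < k then a else i + k) (if b < k then b else j + k)) fun _ _ => b _ _
    simp only [AbsoluteValue.abs_apply, Fintype.card_fin, nsmul_eq_mul, Int.abs_eq_natAbs] at this
    refine le_trans (by exact_mod_cast this) (?_ : (k + 1).factorial * (_ + 1) ^ (k + 1) ≤ _)
    rw [bd, mul_pow]
    exact Nat.mul_le_mul ((Nat.factorial_le hk).trans (Nat.factorial_le_pow _)) (Nat.pow_le_pow_right (by omega) hk))
  have inv : ∀ k ≤ G.length, ((st G)^[k] (1, G)).1 = dN k (en G) ∧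
      ∀ i j, i + k < G.length → j + k < G.length → en ((st G)^[k] (1, G)).2 i j = mn (en G) k i j := fun k => by
    induction k with
    | zero => simp [dN, mn]
    | succ k ih =>
      intro hk
      obtain ⟨a1, a2⟩ := ih (by omega)
      rw [Function.iterate_succ_apply', helper22.CXDet.st, a2 0 0 (by omega) (by omega), c k hk, mn_zero]
      refine ⟨rfl, fun i j hi hj => ?_⟩
      rw [en_tb (by omega) (by omega), a2 _ _ (by omega) (by omega), a2 _ _ (by omega) (by omega),
        a2 _ _ (by omega) (by omega), ← mn_zero, ← barZ k _ fun t ht => (h t (by omega)).ne', a1, ← c (k + 1) (by omega) i j]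
      congr 1
      have := h k (by omega)
      rw [c (k + 1) (by omega), qd, Int.natAbs_mul, Nat.mul_div_cancel_left _ (by omega)]
      split_ifs with e
      · have := neg_of_mul_neg_right e this.le
        omega
      · have := nonneg_of_mul_nonneg_right (not_lt.1 e) this
        omega
  exact (inv _ le_rfl).1

variable {W : Type} [AddCommGroup W] [Module ℚ W] {β : W →ₗ[ℚ] W →ₗ[ℚ] ℚ}

theorem gram_nonneg (hs : ∀ x y, β x y = β y x) (hp : ∀ x, x ≠ 0 → 0 < β x x) (t : ℕ) :
    ∀ u : ℕ → W, 0 ≤ dN t fun i j => β (u i) (u j) := by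
  induction t with
  | zero => simp [dN]
  | succ t ih =>
    intro u
    by_cases e : u 0 = 0
    · exact (Matrix.det_eq_zero_of_row_eq_zero 0 fun j => by simp [e]).ge
    have h := hp _ e
    rw [dN_succ h.ne']
    refine mul_nonneg h.le ((ih fun i => u (i + 1) - (β (u (i + 1)) (u 0) / β (u 0) (u 0)) • u 0).trans_eq ?_)
    congr 1
    funext i j
    simp [sch, hs (u (j + 1)) (u 0)]
    field_simp
    ring

theorem gram_ne (hp : ∀ x, x ≠ 0 → 0 < β x x) (t : ℕ) (u : ℕ → W) :
    (dN t fun i j => β (u i) (u j)) ≠ 0 ↔ LinearIndependent ℚ fun i : Fin t => u i := by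
  rw [Fintype.linearIndependent_iff, Ne, dN, ← Matrix.exists_mulVec_eq_zero_iff]
  have e : ∀ (x : Fin t → ℚ) i, (Matrix.of fun i j : Fin t => β (u i) (u j)).mulVec x i = β (u i) (∑ j, x j • u j) :=
    fun x i => by simp [Matrix.mulVec, dotProduct, mul_comm]
  refine ⟨fun h x hx => by_contra fun k => h ⟨x, fun z => k (congrFun z), funext fun i => by simp [e, hx]⟩, ?_⟩
  rintro h ⟨x, h1, h2⟩
  refine h1 (funext (h x (by_contra fun k => (hp _ k).ne' ?_)))
  have : ∀ i : Fin t, β (u i) (∑ j, x j • u j) = 0 := fun i => by rw [← e, h2]; rfl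
  generalize_proofs
  conv_lhs => lhs; rw [map_sum]
  rw [LinearMap.sum_apply]
  exact Finset.sum_eq_zero fun i _ => by rw [map_smul, LinearMap.smul_apply, this, smul_zero]

def gm (G : List (List ℤ)) (S : List ℕ) : List (List ℤ) := tb S.length fun i j => en G (S.getD i 0) (S.getD j 0)
def rs (G : List (List ℤ)) (S : List ℕ) (r : ℕ) : List ℕ := if pdet (gm G (S ++ [r])) = 0 then S else S ++ [r]
/-- rank of a Gram table -/
def rk (G : List (List ℤ)) : ℕ := ((List.range G.length).foldl (rs G) []).length

@[fun_prop] theorem pt_rk {α : Type} [Enc α] {f : α → List (List ℤ)} (hf : PT f) : PT fun a => rk (f a) := by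
  have := pt_pdet
  refine PT.comp (f := rk) (PT.length (PT.foldl_add (D := fun G => 3 * G.length + 10)
    (by unfold rs gm tb en; fun_prop) (by fun_prop) (by fun_prop) (by fun_prop) fun G S r hr => ?_)) hf
  have := size_append S [r]
  have := size_nat_le r
  have := List.mem_range.1 hr
  unfold rs
  split_ifs <;> simp only [size_cons, size_nil] at * <;> omega

def Iv (v : ℕ → W) (k : ℕ) (S : List ℕ) (t : ℕ) : Prop :=
  (∀ i < t, S.getD i 0 < k) ∧ (LinearIndependent ℚ fun i : Fin t => v (S.getD i 0)) ∧
    span ℚ (Set.range fun i : Fin t => v (S.getD i 0)) = span ℚ (v '' Set.Iio k)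

theorem rk_eq (hs : ∀ x y, β x y = β y x) (hp : ∀ x, x ≠ 0 → 0 < β x x) {G : List (List ℤ)} (v : ℕ → W)
    (hG : ∀ i < G.length, ∀ j < G.length, (en G i j : ℚ) = β (v i) (v j)) :
    rk G = finrank ℚ (span ℚ (v '' Set.Iio G.length)) := by
  have inv : ∀ k ≤ G.length, Iv v k ((List.range k).foldl (rs G) []) ((List.range k).foldl (rs G) []).length := fun k => by
    induction k with
    | zero => exact fun _ => show Iv v 0 [] 0 from ⟨by simp, linearIndependent_empty_type, by simp⟩
    | succ k ih =>
      intro hk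
      rw [List.range_succ, List.foldl_append]
      have ih := ih (by omega)
      generalize (List.range k).foldl (rs G) [] = S at *
      obtain ⟨h1, h2, h3⟩ := ih
      have e1 : ∀ i < S.length, (S ++ [k]).getD i 0 = S.getD i 0 := fun i hi => List.getD_append _ _ _ _ hi
      have e2 : (S ++ [k]).getD S.length 0 = k := by simp
      have e3 : ∀ i < S.length + 1, (S ++ [k]).getD i 0 < k + 1 := fun i hi => by
        rcases (Nat.le_of_lt_succ hi).eq_or_lt with rfl | hi
        · omega
        · rw [e1 i hi]; exact (h1 i hi).trans (by omega)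
      have e4 : ∀ t ≤ S.length + 1, ((dN t (en (gm G (S ++ [k]))) : ℤ) : ℚ) =
          dN t fun i j => β (v ((S ++ [k]).getD i 0)) (v ((S ++ [k]).getD j 0)) := fun t ht => by
        rw [dN, Int.cast_det]
        congr 1
        ext i j
        have := e3 i (by omega)
        have := e3 j (by omega)
        rw [Matrix.map_apply, Matrix.of_apply, gm, en_tb (by simp; omega) (by simp; omega), hG _ (by omega) _ (by omega)]
        rfl
      have e5 : (gm G (S ++ [k])).length = S.length + 1 := by simp [gm, tb]
      have e6 : (Fin.init fun i : Fin (S.length + 1) => v ((S ++ [k]).getD i 0)) = fun i : Fin S.length => v (S.getD i 0) :=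
        funext fun i => congrArg v (e1 i i.2)
      have e7 : pdet (gm G (S ++ [k])) ≠ 0 ↔ v k ∉ span ℚ (v '' Set.Iio k) := by
        rw [pdet_lt _ fun t ht => ?_, e5, ← Int.cast_ne_zero (α := ℚ), e4 _ le_rfl, gram_ne hp,
          linearIndependent_finSucc', e6, h3, Fin.val_last, e2, and_iff_right h2]
        rw [← Int.cast_pos (R := ℚ), e4 t (by omega)]
        refine (gram_nonneg hs hp _ _).lt_of_ne' ((gram_ne hp _ _).2 ?_)
        convert h2.comp (Fin.castLE (show t ≤ S.length by omega)) (Fin.castLE_injective _) using 2 with i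
        exact congrArg v (e1 i (by omega))
      have e8 : span ℚ (v '' Set.Iio (k + 1)) = span ℚ {v k} ⊔ span ℚ (v '' Set.Iio k) := by
        rw [← span_union, ← Set.image_singleton, ← Set.image_union]
        congr 2
        ext; simp
      rw [List.foldl_cons, List.foldl_nil, rs]
      split_ifs with e
      · exact ⟨fun i hi => (h1 i hi).trans (by omega), h2, by
          rw [e8, h3, sup_of_le_right ((span_singleton_le_iff_mem _ _).2 (not_not.1 (mt e7.2 (not_not.2 e))))]⟩
      rw [List.length_append, List.length_singleton]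
      refine ⟨e3, by rw [linearIndependent_finSucc', e6, h3, Fin.val_last, e2]; exact ⟨h2, e7.1 e⟩, ?_⟩
      rw [← Fin.snoc_init_self (fun i : Fin (S.length + 1) => v ((S ++ [k]).getD i 0)), Fin.range_snoc, e6, Fin.val_last,
        e2, span_insert, h3, e8]
  obtain ⟨-, h2, h3⟩ := inv _ le_rfl
  rw [← h3, finrank_span_eq_card h2, Fintype.card_fin, rk]

theorem ls_opt {σ : Type} (c : σ → List σ) (Ψ : σ → ℕ) (x : σ) {K : ℕ} (hK : ∀ x, Ψ x < K) :
    ∀ y ∈ c ((fun x => ((c x).filter (Ψ x < Ψ ·)).headD x)^[K] x),
      Ψ y ≤ Ψ ((fun x => ((c x).filter (Ψ x < Ψ ·)).headD x)^[K] x) := by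
  set f := fun x => ((c x).filter (Ψ x < Ψ ·)).headD x
  have : ∀ k, (∀ y ∈ c (f^[k] x), Ψ y ≤ Ψ (f^[k] x)) ∨ k ≤ Ψ (f^[k] x) := fun k => by
    induction k with
    | zero => simp
    | succ k ih =>
      rw [iterate_succ_apply']
      generalize f^[k] x = z at *
      by_cases e : ∀ y ∈ c z, Ψ y ≤ Ψ z
      · rw [show f z = z by simp only [f]; rw [List.filter_eq_nil_iff.2 (by simpa using e)]; rfl]
        exact .inl e
      refine .inr ((ih.resolve_left e).trans_lt ?_)
      simp only [f]
      rcases h : (c z).filter (Ψ z < Ψ ·) with _ | ⟨y, l⟩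
      · exact (e (by simpa using List.filter_eq_nil_iff.1 h)).elim
      · exact of_decide_eq_true (List.mem_filter.1 (h ▸ List.mem_cons_self : y ∈ _)).2
  exact (this K).resolve_right (hK _).not_ge

end Pool.Agent.Lib.Par
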