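import Pool.Agent.Lib.helper22.ParE
/-! Linear matroid parity in polynomial time. -/
namespace Pool.Agent.Lib.Par
open Module Submodule Function Pool.Agent.Lib.CX Pool.Agent.Lib.helper22.CXDet

def ent (A C D : List (List ℤ)) (r l s : ℕ) : ℤ :=
  if r % 3 = l then en A s (r / 3) else if r % 3 = l + 1 then (if l = 0 then en C s (r / 3) else en D s (r / 3)) else 0
def brk (A C D : List (List ℤ)) : ℕ := rk (tb (3 * A.length) fun r q => ((List.range A.length).map fun s =>
  ent A C D r 0 s * ent A C D q 0 s + ent A C D r 1 s * ent A C D q 1 s + ent A C D r 2 s * ent A C D q 2 s).sum)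

@[fun_prop] theorem pt_brk {α : Type} [Enc α] {f g h : α → List (List ℤ)} (hf : PT f) (hg : PT g) (hh : PT h) :
    PT fun a => brk (f a) (g a) (h a) := by
  unfold brk ent tb en; fun_prop

/-- a table represents a bilinear map -/
def Rep {n : ℕ} (A : List (List ℤ)) (T : (Fin n → ℚ) →ₗ[ℚ] Dual ℚ (Fin n → ℚ)) : Prop :=
  ∀ s t : Fin n, (en A s t : ℚ) = T (Pi.single s 1) (Pi.single t 1)

theorem Rep.ap {n : ℕ} {A} {T : (Fin n → ℚ) →ₗ[ℚ] Dual ℚ (Fin n → ℚ)} (h : Rep A T) (w) (t : Fin n) :
    (fun s : Fin n => (en A s t : ℚ)) ⬝ᵥ w = T w (Pi.single t 1) := by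
  conv_rhs => rw [pi_eq_sum_univ' w]
  simp [dotProduct, h _ t, mul_comm]

theorem brk_eq {n : ℕ} {A C D} {A' C' D' : (Fin n → ℚ) →ₗ[ℚ] Dual ℚ (Fin n → ℚ)} (hn : A.length = n)
    (hA : Rep A A') (hC : Rep C C') (hD : Rep D D') : brk A C D + kd A' C' D' = 3 * n := by
  let β : LinearMap.BilinForm ℚ ((Fin n → ℚ) × (Fin n → ℚ) × (Fin n → ℚ)) :=
    LinearMap.mk₂ ℚ (fun x y => x.1 ⬝ᵥ y.1 + x.2.1 ⬝ᵥ y.2.1 + x.2.2 ⬝ᵥ y.2.2) (by intros; simp; ring)
      (by intros; simp; ring) (by intros; simp; ring) (by intros; simp; ring)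
  have hp : ∀ x, x ≠ 0 → 0 < β x x := fun x hx => by
    have k : ∀ y : Fin n → ℚ, 0 ≤ y ⬝ᵥ y := fun y => Finset.sum_nonneg fun i _ => mul_self_nonneg _
    have := k x.1
    have := k x.2.1
    have := k x.2.2
    refine lt_of_le_of_ne (by simp [β]; linarith) fun e => hx ?_
    simp only [β, LinearMap.mk₂_apply] at e
    exact Prod.ext (dotProduct_self_eq_zero.1 (by linarith)) (Prod.ext (dotProduct_self_eq_zero.1 (by linarith))
      (dotProduct_self_eq_zero.1 (by linarith)))
  let v : ℕ → (Fin n → ℚ) × (Fin n → ℚ) × (Fin n → ℚ) := fun r =>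
    (fun s => ent A C D r 0 s, fun s => ent A C D r 1 s, fun s => ent A C D r 2 s)
  have l : ∀ m f, (tb m f).length = m := by simp [tb]
  rw [brk, rk_eq (β := β) (fun x y => by simp [β, dotProduct_comm]) hp v fun i hi j hj => ?_, l, hn]
  swap
  · rw [l] at hi hj
    rw [en_tb hi hj, hn, ← List.sum_toFinset _ List.nodup_range, List.toFinset_range, Finset.sum_range]
    simp [β, v, dotProduct, Finset.sum_add_distrib]
  have h := LinearMap.BilinForm.finrank_add_finrank_orthogonal' (B := β) (span ℚ (v '' Set.Iio (3 * n)))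
  rw [show LinearMap.ker β = ⊥ from eq_bot_iff.2 fun x hx => by_contra fun k => (hp x k).ne' (by
    rw [show β x = 0 from hx]; rfl), inf_bot_eq, finrank_bot] at h
  have z : ∀ f : Dual ℚ (Fin n → ℚ), f = 0 ↔ ∀ t, f (Pi.single t 1) = 0 := fun f =>
    ⟨fun e _ => by rw [e]; rfl, fun e => (Pi.basisFun ℚ _).ext fun t => by simpa using e t⟩
  have e : ∀ w (t : Fin n), β (v (3 * t)) w = A' w.1 (Pi.single t 1) ∧
      β (v (3 * t + 1)) w = (C' w.1 + A' w.2.1) (Pi.single t 1) ∧
      β (v (3 * t + 2)) w = (D' w.2.1 + A' w.2.2) (Pi.single t 1) := fun w t => by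
    simp [β, v, ent, ← hA.ap, ← hC.ap, ← hD.ap, show (3 * t + 1 : ℕ) / 3 = t by omega,
      show (3 * t + 2 : ℕ) / 3 = t by omega, dotProduct]
  rw [kd, show LinearMap.ker (blk A' C' D') = β.orthogonal (span ℚ (v '' Set.Iio (3 * n))) from Submodule.ext fun w => ?_, h]
  · simp; omega
  rw [mem_blk, z, z, z, LinearMap.BilinForm.mem_orthogonal_iff]
  refine ⟨fun k x hx => (span_le.2 ?_ : _ ≤ LinearMap.ker (β.flip w)) hx, fun k => ?_⟩
  · rintro _ ⟨r, hr, rfl⟩
    have hr : r < 3 * n := hr
    obtain ⟨e1, e2, e3⟩ := e w ⟨r / 3, by omega⟩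
    rw [k.1] at e1
    rw [k.2.1] at e2
    rw [k.2.2] at e3
    show β (v r) w = 0
    rcases (by omega : 3 * (r / 3) = r ∨ 3 * (r / 3) + 1 = r ∨ 3 * (r / 3) + 2 = r) with x | x | x <;>
      rw [← x] <;> assumption
  · refine ⟨fun t => (e w t).1 ▸ k _ ?_, fun t => (e w t).2.1 ▸ k _ ?_, fun t => (e w t).2.2 ▸ k _ ?_⟩ <;>
      exact subset_span ⟨_, by have := t.2; simp only [Set.mem_Iio]; omega, rfl⟩

abbrev Ln := List (List ℤ × List ℤ)
def av (L : Ln) (i t : ℕ) : ℤ := (L.getD i ([], [])).1.getD t 0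
def bv (L : Ln) (i t : ℕ) : ℤ := (L.getD i ([], [])).2.getD t 0
def dm (L : Ln) : ℕ := (L.flatMap fun l => l.1 ++ l.2).length
def wt (L : Ln) (i s t : ℕ) : ℤ := av L i s * bv L i t - bv L i s * av L i t
def et (L : Ln) (x : List ℕ) : List (List ℤ) :=
  tb (dm L) fun s t => ((List.range L.length).map fun i => (x.getD i 0 : ℤ) * wt L i s t).sum
def ps (L : Ln) (x : List ℕ) : ℕ := ((List.range L.length).map fun i => ((List.range L.length).map fun j =>
  brk (et L x) [] [] + brk (et L x) (tb (dm L) fun s t => av L i s * av L i t + bv L i s * bv L i t) [] +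
    brk (et L x) (tb (dm L) (wt L j)) (tb (dm L) (wt L i))).sum).sum
def nb (L : Ln) : ℕ := L.length * (L.length * 3) * (3 * dm L) + 1
def cd (L : Ln) (x : List ℕ) : List (List ℕ) := (List.range L.length).flatMap fun i => (List.range L.length).flatMap
  fun j => (List.range (nb L + 1)).flatMap fun v => (List.range (nb L + 1)).map fun w => (x.set i v).set j w
def sol (L : Ln) : List ℕ := (fun x => ((cd L x).filter (ps L x < ps L ·)).headD x)^[nb L] (List.replicate L.length 0)
/-- the size of a maximum matching -/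
def lmp (L : Ln) : ℕ := brk (et L (sol L)) [] [] / 6

theorem sol_inv (L : Ln) (k : ℕ) :
    ∀ x, x = (fun x => ((cd L x).filter (ps L x < ps L ·)).headD x)^[k] (List.replicate L.length 0) →
      x.length = L.length ∧ ∀ v ∈ x, v ≤ nb L := by
  induction k with
  | zero => rintro _ rfl; simp
  | succ k ih =>
    rintro _ rfl
    rw [iterate_succ_apply']
    obtain ⟨h1, h2⟩ := ih _ rfl
    generalize (fun x => ((cd L x).filter (ps L x < ps L ·)).headD x)^[k] (List.replicate L.length 0) = x at *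
    rcases h : (cd L x).filter (ps L x < ps L ·) with _ | ⟨y, l⟩
    · exact ⟨h1, h2⟩
    have := (List.mem_filter.1 (h ▸ List.mem_cons_self : y ∈ _)).1
    simp only [cd, List.mem_flatMap, List.mem_map, List.mem_range] at this
    obtain ⟨i, -, j, -, v, hv, w, hw, rfl⟩ := this
    refine ⟨by simp [h1], fun u hu => ?_⟩
    rcases List.mem_or_eq_of_mem_set hu with hu | rfl
    · rcases List.mem_or_eq_of_mem_set hu with hu | rfl
      exacts [h2 u hu, by omega]
    omega

section
variable {α : Type} [Enc α] {L : α → Ln} {i j k : α → ℕ} {x : α → List ℕ}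
@[fun_prop] theorem pt_av (hL : PT L) (hi : PT i) (hj : PT j) : PT fun a => av (L a) (i a) (j a) := by
  unfold av; fun_prop
@[fun_prop] theorem pt_bv (hL : PT L) (hi : PT i) (hj : PT j) : PT fun a => bv (L a) (i a) (j a) := by
  unfold bv; fun_prop
@[fun_prop] theorem pt_dm (hL : PT L) : PT fun a => dm (L a) := by unfold dm; fun_prop
@[fun_prop] theorem pb_dm (hL : PT L) : PB fun a => dm (L a) := by unfold dm; fun_prop
@[fun_prop] theorem pt_nb (hL : PT L) : PT fun a => nb (L a) := by unfold nb; fun_prop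
@[fun_prop] theorem pb_nb (hL : PT L) : PB fun a => nb (L a) := by unfold nb; fun_prop
@[fun_prop] theorem pt_wt (hL : PT L) (hi : PT i) (hj : PT j) (hk : PT k) :
    PT fun a => wt (L a) (i a) (j a) (k a) := by unfold wt; fun_prop
@[fun_prop] theorem pt_tb {f : α → ℕ → ℕ → ℤ} (hi : PT i) (hb : PB i) (hf : PT fun p : (α × ℕ) × ℕ => f p.1.1 p.1.2 p.2) :
    PT fun a => tb (i a) (f a) := PT.map (PT.map hf (by fun_prop)) (by fun_prop)
attribute [local irreducible] av bv dm nb wt tb brk
@[fun_prop] theorem pt_et (hL : PT L) (hx : PT x) : PT fun a => et (L a) (x a) := by unfold et; fun_prop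
attribute [local irreducible] et
@[fun_prop] theorem pt_ps (hL : PT L) (hx : PT x) : PT fun a => ps (L a) (x a) := by unfold ps; fun_prop
@[fun_prop] theorem pt_cd (hL : PT L) (hx : PT x) : PT fun a => cd (L a) (x a) := by unfold cd; fun_prop
attribute [local irreducible] ps cd

@[fun_prop] theorem pt_lmp (hL : PT L) : PT fun a => lmp (L a) := by
  have h4 : PT sol := PT.iterate (B := fun L => L.length * (3 * nb L + 2 + 1) + 2) (by fun_prop) (by fun_prop)
    (by fun_prop) (by fun_prop) (by fun_prop) fun L k _ => by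
      obtain ⟨h1, h2⟩ := sol_inv L k _ rfl
      exact (size_list_le fun v hv => (size_nat_mono (h2 v hv)).trans (size_nat_le _)).trans_eq (by rw [h1])
  unfold lmp; fun_prop
end

/-- the functional with given coefficients -/
def fn (n : ℕ) (u : ℕ → ℤ) : Dual ℚ (Fin n → ℚ) := ∑ t : Fin n, (u t : ℚ) • LinearMap.proj t
@[simp] theorem fn_single {n u} (t : Fin n) : fn n u (Pi.single t 1) = u t := by
  simp [fn, Pi.single_apply]

theorem lmp_fn (L : Ln) : IsGreatest {k | ∃ M : Finset (Fin L.length),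
    Mat (fun i : Fin L.length => fn (dm L) (av L i)) (fun i => fn (dm L) (bv L i)) M ∧ M.card = k} (lmp L) := by
  set a := fun i : Fin L.length => fn (dm L) (av L i)
  set b := fun i : Fin L.length => fn (dm L) (bv L i)
  have l : ∀ x, (et L x).length = dm L := by simp [et, tb]
  have s : ∀ {M : Type} [AddCommMonoid M] (n) (f : ℕ → M), ((List.range n).map f).sum = ∑ i : Fin n, f i := fun n f => by
    rw [← List.sum_toFinset _ List.nodup_range, List.toFinset_range, Finset.sum_range]
  have r0 : Rep [] (0 : (Fin (dm L) → ℚ) →ₗ[ℚ] _) := fun _ _ => by simp [en]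
  have r1 : ∀ x, Rep (et L x) (ev a b fun i => (x.getD i 0 : ℕ)) := fun x s' t => by
    simp [et, en_tb s'.2 t.2, s, ev, LinearMap.sum_apply, wt, a, b]
  have r2 : ∀ i : Fin L.length, Rep (tb (dm L) (wt L i)) (wd (a i) (b i)) := fun i s t => by
    simp [en_tb s.2 t.2, wt, a, b]
  have r3 : ∀ i : Fin L.length, Rep (tb (dm L) fun s t => av L i s * av L i t + bv L i s * bv L i t) (sq2 (a i) (b i)) :=
    fun i s t => by simp [en_tb s.2 t.2, a, b]
  have p : ∀ x, ps L x + pot a b (fun i => (x.getD i 0 : ℕ)) + 1 = nb L := fun x => by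
    simp only [ps, s, pot, Fintype.sum_prod_type, ← Finset.sum_add_distrib, Fin.sum_univ_three, nb]
    rw [Finset.sum_congr rfl fun i _ => Finset.sum_congr rfl fun j _ => (?_ : _ = 3 * (3 * dm L))]
    · simp; ring
    have := brk_eq (l x) (r1 x) r0 r0
    have := brk_eq (l x) (r1 x) (r3 i) r0
    have := brk_eq (l x) (r1 x) (r2 j) (r2 i)
    simp only [fam, Matrix.cons_val]
    omega
  have o := ls_opt (cd L) (ps L) (List.replicate L.length 0) (K := nb L) fun x => by have := p x; omega
  have hl := (sol_inv L (nb L) _ rfl).1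
  change ∀ y ∈ cd L (sol L), _ ≤ ps L (sol L) at o
  change (sol L).length = _ at hl
  obtain ⟨ν, h1, h2⟩ := main (a := a) (b := b) (N := nb L) (by simp [nb]) (x := fun i => ((sol L).getD i 0 : ℕ))
    fun i j v hv w hw => by
      have := o (((sol L).set i v).set j w) (by
        simp only [cd, List.mem_flatMap, List.mem_map, List.mem_range]
        exact ⟨i, i.2, j, j.2, v, by omega, w, by omega, rfl⟩)
      have p1 := p (sol L)
      have p2 := p (((sol L).set i v).set j w)
      rw [show (fun k : Fin L.length => (((((sol L).set i v).set j w).getD k 0 : ℕ) : ℚ)) =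
        update (update (fun k : Fin L.length => (((sol L).getD k 0 : ℕ) : ℚ)) i v) j w from funext fun k => by
          simp only [update_apply, List.getD_eq_getElem?_getD, List.getElem?_set, Fin.ext_iff, List.length_set, hl, i.2,
            j.2, eq_comm (a := k.1)]
          split_ifs <;> rfl] at p2
      omega
  have := brk_eq (l _) (r1 (sol L)) r0 r0
  rw [finrank_fin_fun] at h2
  rwa [show lmp L = ν by unfold lmp; omega]

theorem mat_map {D ι τ : Type} [AddCommGroup D] [Module ℚ D] {a b : τ → D} (e : ι ↪ τ) (M : Finset ι) :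
    Mat a b (M.map e) ↔ Mat (fun i => a (e i)) (fun i => b (e i)) M := by
  refine ⟨fun h f g k i hi => ?_, fun h f g k => Finset.forall_mem_map.2 fun i hi =>
    h (fun i => f (e i)) (fun i => g (e i)) (by rwa [Finset.sum_map] at k) i hi⟩
  simpa [e.injective.extend_apply] using h (extend e f 0) (extend e g 0)
    (by simpa [e.injective.extend_apply] using k) (e i) (Finset.mem_map_of_mem e hi)

/-- correctness for lines indexed by a list I, with coordinates indexed by a list C -/
theorem lmp_map {τ κ : Type} {I : List τ} (hI : I.Nodup) (C : List κ) (ga gb : τ → κ → ℤ)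
    (h0 : ∀ i ∈ I, ∀ c ∉ C, ga i c = 0 ∧ gb i c = 0) :
    IsGreatest {k | ∃ M : Finset τ, (∀ i ∈ M, i ∈ I) ∧ Mat (fun i c => (ga i c : ℚ)) (fun i c => (gb i c : ℚ)) M ∧
      M.card = k} (lmp (I.map fun i => (C.map (ga i), C.map (gb i)))) := by
  classical
  set L : Ln := I.map fun i => (C.map (ga i), C.map (gb i)) with hL
  have hl : L.length = I.length := List.length_map _
  let e : Fin L.length ↪ τ := ⟨fun i => I[i.1]'(hl ▸ i.2), fun i j h => Fin.ext (hI.getElem_inj_iff.1 h)⟩
  have g : ∀ i : Fin L.length, L.getD i ([], []) = (C.map (ga (e i)), C.map (gb (e i))) := fun i => by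
    rw [List.getD_eq_getElem _ _ i.2]; simp [hL, e]
  have k : ∀ M : Finset (Fin L.length), Mat (fun i : Fin L.length => fn (dm L) (av L i)) (fun i => fn (dm L) (bv L i)) M ↔
      Mat (fun i c => (ga i c : ℚ)) (fun i c => (gb i c : ℚ)) (M.map e) := fun M => by
    rw [mat_map]
    refine forall₂_congr fun f f' => imp_congr_left ⟨fun h => funext fun c => ?_, fun h =>
      (Pi.basisFun ℚ _).ext fun t => ?_⟩
    · rw [Finset.sum_apply]
      by_cases hc : c ∈ C
      swap
      · exact Finset.sum_eq_zero fun i _ => by simp [h0 (e i) (List.getElem_mem _) c hc]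
      obtain ⟨t, ht, rfl⟩ := List.getElem_of_mem hc
      rcases M.eq_empty_or_nonempty with rfl | ⟨i, -⟩
      · rfl
      have : t < dm L := by
        have := i.pos
        simp [dm, hL, comp_def] at this ⊢
        nlinarith
      simpa [LinearMap.sum_apply, av, bv, -List.getD_eq_getElem?_getD, g, List.getD_eq_getElem, ht] using
        LinearMap.congr_fun h (Pi.single ⟨t, this⟩ 1)
    by_cases ht : t.1 < C.length
    · simpa [LinearMap.sum_apply, av, bv, -List.getD_eq_getElem?_getD, g, List.getD_eq_getElem, ht] using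
        congrFun h C[t.1]
    · simp [LinearMap.sum_apply, av, bv, -List.getD_eq_getElem?_getD, g, List.getD_eq_default, not_lt.1 ht]
  convert lmp_fn L using 1
  refine Set.ext fun _ => ⟨?_, ?_⟩
  · rintro ⟨M, h1, h2, rfl⟩
    have : (Finset.univ.filter (e · ∈ M)).map e = M := by
      ext i
      simp only [Finset.mem_map, Finset.mem_filter, Finset.mem_univ, true_and]
      refine ⟨fun ⟨_, h, x⟩ => x ▸ h, fun h => ?_⟩
      obtain ⟨t, ht, rfl⟩ := List.getElem_of_mem (h1 i h)
      exact ⟨⟨t, hl ▸ ht⟩, h, rfl⟩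
    exact ⟨_, (k _).2 (this.symm ▸ h2), by rw [← Finset.card_map e, this]⟩
  · rintro ⟨M, h, rfl⟩
    exact ⟨M.map e, Finset.forall_mem_map.2 fun i _ => List.getElem_mem _, (k M).1 h, Finset.card_map _⟩

end Pool.Agent.Lib.Par
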