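import Pool.Agent.Lib.helper18.Renorm

namespace Pool.Agent.Lib.helper22.Weak

open Filter Topology Metric RCLike

variable {𝕜 X : Type*} [RCLike 𝕜] [NormedAddCommGroup X] [NormedSpace 𝕜 X]

theorem wtend {α : Type*} {l : Filter α} {y : α → X} {x : X}
    (h : ∀ f : X →L[𝕜] 𝕜, Tendsto (fun n => f (y n)) l (𝓝 (f x))) :
    Tendsto (fun n => toWeakSpace 𝕜 X (y n)) l (𝓝 (toWeakSpace 𝕜 X x)) := by
  have e := nhds_induced (T := Pi.topologicalSpace)
    (fun (x : X) (f : X →L[𝕜] 𝕜) => f x) x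
  exact e.ge.trans' (tendsto_comap_iff.2 (tendsto_pi_nhds.2 h))

theorem wcont (f : X →L[𝕜] 𝕜) :
    Continuous fun z : WeakSpace 𝕜 X => f ((toWeakSpace 𝕜 X).symm z) :=
  WeakBilin.eval_continuous (topDualPairing 𝕜 X).flip f

theorem wbasis {U : Set (WeakSpace 𝕜 X)} (hU : IsOpen U) {x : X} (hx : toWeakSpace 𝕜 X x ∈ U) :
    ∃ (n : ℕ) (Φ : X →L[𝕜] (Fin n → 𝕜)) (η : ℝ), 0 < η ∧
      ∀ z, ‖Φ (z - x)‖ < η → toWeakSpace 𝕜 X z ∈ U := by
  have e := nhds_induced (T := Pi.topologicalSpace)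
    (fun (x : X) (f : X →L[𝕜] 𝕜) => f x) x
  obtain ⟨V, hV, h⟩ := mem_comap.1 (e.ge (hU.mem_nhds hx))
  rw [nhds_pi, Filter.mem_pi'] at hV
  obtain ⟨s, t, ht, h2⟩ := hV
  have h3 : ∀ᶠ η : ℝ in 𝓝[>] 0, ∀ f ∈ s, ball (f x) η ⊆ t f :=
    (eventually_all_finset s).2 fun f _ => (eventually_ball_subset (ht f)).filter_mono nhdsWithin_le_nhds
  obtain ⟨η, h4, h5⟩ := (h3.and self_mem_nhdsWithin).exists
  refine ⟨s.card, ContinuousLinearMap.pi fun i => (s.equivFin.symm i).1, η, h5,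
    fun z hz => h (h2 fun f hf => h4 f hf ?_)⟩
  have := (pi_norm_lt_iff h5).1 hz (s.equivFin ⟨f, hf⟩)
  rw [ContinuousLinearMap.pi_apply, Equiv.symm_apply_apply, map_sub] at this
  exact mem_ball_iff_norm.2 this

theorem wnull {Y : Type*} [NormedAddCommGroup Y] [NormedSpace ℝ Y] (u : ℕ → Y) (C : ℝ)
    (h : ∀ s : Finset ℕ, ‖∑ i ∈ s, u i‖ ≤ C) (f : Y →L[ℝ] ℝ) :
    Tendsto (fun n => f (u n)) atTop (𝓝 0) := by
  have b : ∀ s : Finset ℕ, |∑ i ∈ s, f (u i)| ≤ ‖f‖ * C := fun s => by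
    rw [← map_sum]
    exact (f.le_opNorm _).trans (mul_le_mul_of_nonneg_left (h s) (norm_nonneg _))
  refine Summable.tendsto_atTop_zero (.of_abs (summable_of_sum_le (c := 2 * (‖f‖ * C))
    (fun _ => abs_nonneg _) fun s => ?_))
  rw [← Finset.sum_filter_add_sum_filter_not s fun i => 0 ≤ f (u i),
    Finset.sum_congr rfl fun i hi => abs_of_nonneg (Finset.mem_filter.1 hi).2,
    Finset.sum_congr rfl fun i hi => abs_of_neg (not_le.1 (Finset.mem_filter.1 hi).2),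
    Finset.sum_neg_distrib]
  linarith [(abs_le.1 (b (s.filter fun i => 0 ≤ f (u i)))).2,
    (abs_le.1 (b (s.filter fun i => ¬ 0 ≤ f (u i)))).1]

theorem supnorm {E H I : Type} [NormedAddCommGroup E] [NormedSpace ℝ E] [CompleteSpace E]
    [NormedAddCommGroup H] [NormedSpace ℝ H] [Nonempty I] (A : I → E →L[ℝ] H) (C D : ℝ)
    (hD : 0 < D) (hC : ∀ i z, ‖A i z‖ ≤ C * ‖z‖)
    (hl : ∀ z r, (∀ i, ‖A i z‖ ≤ r) → ‖z‖ ≤ D * r) :
    ∃ (Y : Type) (_ : NormedAddCommGroup Y) (_ : NormedSpace ℝ Y) (_ : CompleteSpace Y)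
      (e : E ≃L[ℝ] Y), ∀ z r, ‖e z‖ ≤ r ↔ ∀ i, ‖A i z‖ ≤ r := by
  have b : ∀ z, BddAbove (Set.range fun i => ‖A i z‖) := fun z =>
    ⟨_, by rintro _ ⟨i, rfl⟩; exact hC i z⟩
  obtain ⟨Y, i1, i2, i3, e, he⟩ := Pool.Agent.Lib.helper18.exists_renorm ℝ E
    (fun z => ⨆ i, ‖A i z‖) D⁻¹ C (inv_pos.2 hD)
    (fun z => (inv_mul_le_iff₀ hD).2 (hl z _ fun i => le_ciSup (b z) i))
    (fun z => ciSup_le fun i => hC i z)
    (fun y z => ciSup_le fun i => by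
      rw [map_add]
      exact (norm_add_le _ _).trans (add_le_add (le_ciSup (b y) i) (le_ciSup (b z) i)))
    (fun a z => by
      simp only [map_smul, norm_smul]
      exact (Real.mul_iSup_of_nonneg (norm_nonneg a) _).symm)
  refine ⟨Y, i1, i2, i3, e.symm, fun z r => ?_⟩
  rw [he, e.apply_symm_apply]
  exact ciSup_le_iff (b z)

theorem near {E : Type*} [NormedAddCommGroup E] [NormedSpace 𝕜 E] [FiniteDimensional 𝕜 E]
    (x : X) (hx : ‖x‖ ≤ 1)
    (H : ∀ (n : ℕ) (h : Fin n → X →L[𝕜] 𝕜) (η : ℝ), 0 < n → 0 < η → ∀ ε > 0, ∃ z : Fin n → X,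
      (∀ j, ‖z j‖ ≤ 1 ∧ re (h j x) - η < re (h j (z j))) ∧
        2 - ε < ‖x - ∑ j, ((1 / n : ℝ) : 𝕜) • z j‖)
    (Φ : X →L[𝕜] E) {η ε : ℝ} (hη : 0 < η) (hε : 0 < ε) :
    ∃ z, ‖z‖ ≤ 1 ∧ ‖Φ (z - x)‖ < η ∧ 2 - ε < ‖x - z‖ := by
  let _ : NormedSpace ℝ E := .restrictScalars ℝ 𝕜 E
  have : IsScalarTower ℝ 𝕜 E := RestrictScalars.isScalarTower ℝ 𝕜 E
  have := FiniteDimensional.proper_rclike 𝕜 (E →L[𝕜] 𝕜)
  have hρ : 0 < η / (8 * (‖Φ‖ + 1)) := by positivity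
  obtain ⟨t, ht, h1⟩ := Metric.totallyBounded_iff.1
    (isCompact_closedBall (0 : E →L[𝕜] 𝕜) 1).totallyBounded _ hρ
  obtain ⟨n, ψ, -, rfl⟩ := ht.fin_param
  have hn : 0 < n := by
    obtain ⟨_, ⟨j, -⟩, -⟩ := Set.mem_iUnion₂.1 (h1 (mem_closedBall_self zero_le_one))
    exact j.pos
  have hn1 : (1 : ℝ) ≤ n := Nat.one_le_cast.2 hn
  obtain ⟨z, h2, h3⟩ := H n (fun j => ψ j ∘L Φ) (η / 4) hn (by positivity) (ε / (2 * n))
    (by positivity)
  obtain ⟨g, g1, g2⟩ := exists_dual_vector'' 𝕜 (x - ∑ j, ((1 / n : ℝ) : 𝕜) • z j)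
  have gb : ∀ y, ‖y‖ ≤ 1 → |re (g y)| ≤ 1 := fun y hy =>
    (abs_re_le_norm _).trans ((g.le_opNorm y).trans (mul_le_one₀ g1 (norm_nonneg _) hy))
  have g3 : 2 - ε / (2 * n) < re (g x) - 1 / n * ∑ j, re (g (z j)) := by
    have := congrArg re g2
    simp only [map_sub, map_sum, map_smul, smul_eq_mul, re_ofReal_mul, ofReal_re] at this
    rw [Finset.mul_sum, this]; exact h3
  have g4 : ∀ j, re (g (z j)) - re (g x) < -2 + ε := fun j => by
    have a1 := Finset.single_le_sum (f := fun j => re (g (z j)) + 1)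
      (fun j _ => by linarith [(abs_le.1 (gb _ (h2 j).1)).1]) (Finset.mem_univ j)
    have a2 := (abs_le.1 (gb x hx)).2
    simp only [Finset.sum_add_distrib, Finset.sum_const, Finset.card_univ, Fintype.card_fin,
      nsmul_eq_mul, mul_one] at a1
    have a3 := mul_lt_mul_of_pos_left g3 (show (0 : ℝ) < n by positivity)
    have a4 : (n : ℝ) * (2 - ε / (2 * n)) = 2 * n - ε / 2 := by field_simp
    have a5 : (n : ℝ) * (re (g x) - 1 / n * ∑ j, re (g (z j))) =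
      n * re (g x) - ∑ j, re (g (z j)) := by field_simp
    nlinarith
  by_contra hc
  push Not at hc
  obtain ⟨f, u, f1, f2⟩ := RCLike.geometric_hahn_banach_open (𝕜 := 𝕜) (s := ball (0 : E) η)
    (t := (fun y => Φ (y - x)) '' {y | ‖y‖ ≤ 1 ∧ re (g y) - re (g x) < -2 + ε})
    (convex_ball _ _) isOpen_ball (by
      rintro _ ⟨y, hy, rfl⟩ _ ⟨w, hw, rfl⟩ a b ha hb hab
      refine ⟨(a : 𝕜) • y + (b : 𝕜) • w, ⟨(norm_add_le _ _).trans ?_, ?_⟩, ?_⟩
      · rw [norm_smul, norm_smul, norm_ofReal, norm_ofReal, abs_of_nonneg ha, abs_of_nonneg hb]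
        nlinarith [hy.1, hw.1]
      · simp only [map_add, map_smul, smul_eq_mul, re_ofReal_mul]
        rcases ha.eq_or_lt with c | c
        · obtain rfl : b = 1 := by linarith
          simpa [← c] using hw.2
        · obtain rfl : b = 1 - a := by linarith
          nlinarith [mul_lt_mul_of_pos_left hy.2 c, mul_le_mul_of_nonneg_left hw.2.le hb]
      · have : x = (a : 𝕜) • x + (b : 𝕜) • x := by
          rw [← add_smul, ← ofReal_add, hab, ofReal_one, one_smul]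
        simp only [real_smul_eq_coe_smul (K := 𝕜), ← map_smul, ← map_add]
        congr 1
        rw [smul_sub, smul_sub]
        nth_rw 1 [this]
        abel)
    (Set.disjoint_left.2 (by
      rintro _ hb ⟨y, hy, rfl⟩
      have a1 := hc y hy.1 (mem_ball_zero_iff.1 hb)
      have a2 := (re_le_norm _).trans ((g.le_opNorm (x - y)).trans
        (mul_le_of_le_one_left (norm_nonneg _) g1))
      rw [map_sub, map_sub] at a2
      linarith [hy.2]))
  have hu : 0 < u := by simpa using f1 0 (mem_ball_self hη)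
  have fb : ‖f‖ ≤ u / (η / 2) := f.opNorm_bound_of_ball_bound (half_pos hη) u fun a ha => by
    obtain ⟨c, c1, c2⟩ := exists_norm_eq_mul_self (f a)
    have := f1 (c • a) (by
      rw [mem_ball_zero_iff, norm_smul, c1, one_mul]
      linarith [mem_closedBall_zero_iff.1 ha])
    rw [map_smul, smul_eq_mul, ← c2, ofReal_re] at this
    exact this.le
  obtain ⟨_, ⟨j, rfl⟩, hj⟩ := Set.mem_iUnion₂.1 (h1 (show ((-(η / 2 / u) : ℝ) : 𝕜) • f ∈ _ from by
    rw [mem_closedBall_zero_iff, norm_smul, norm_ofReal, abs_neg, abs_of_pos (by positivity)]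
    refine (mul_le_mul_of_nonneg_left fb (by positivity)).trans_eq ?_
    field_simp))
  have a1 := f2 _ ⟨z j, ⟨(h2 j).1, g4 j⟩, rfl⟩
  have a2 := (h2 j).2
  have a3 : ‖Φ (z j - x)‖ ≤ 2 * (‖Φ‖ + 1) := by
    nlinarith [Φ.le_opNorm (z j - x), norm_sub_le (z j) x, (h2 j).1, norm_nonneg Φ]
  have a4 := (re_le_norm _).trans (((ψ j - ((-(η / 2 / u) : ℝ) : 𝕜) • f).le_opNorm
    (Φ (z j - x))).trans (mul_le_mul (mem_ball_iff_norm'.1 hj).le a3 (norm_nonneg _) hρ.le))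
  have a5 : η / (8 * (‖Φ‖ + 1)) * (2 * (‖Φ‖ + 1)) = η / 4 := by field_simp; norm_num
  have a6 := mul_le_mul_of_nonneg_left a1 (show 0 ≤ η / 2 / u by positivity)
  rw [div_mul_cancel₀ _ hu.ne'] at a6
  rw [a5, sub_apply, smul_apply, smul_eq_mul, map_sub (re (K := 𝕜)), re_ofReal_mul] at a4
  have a7 : re (ψ j (Φ (z j - x))) = re ((ψ j ∘L Φ) (z j)) - re ((ψ j ∘L Φ) x) := by simp
  linarith

end Pool.Agent.Lib.helper22.Weak
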